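import Mathlib
import Pool.Agent.Helper729.SRDCore

/-!
# Basic definitions for the preservers of the spectral radius of products
-/

set_option autoImplicit false
open Filter Topology Complex Set Metric
open scoped InnerProductSpace

namespace Pool.Agent.Helper729.SRP

/-- the spectral radius as a real number -/
noncomputable def sr {X : Type*} [NormedAddCommGroup X] [NormedSpace ℂ X] (T : X →L[ℂ] X) : ℝ :=
  (spectralRadius ℂ T).toReal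

/-- the rank one operator `v ↦ f v • x` -/
noncomputable abbrev rk {X : Type*} [NormedAddCommGroup X] [NormedSpace ℂ X] (x : X)
    (f : X →L[ℂ] ℂ) : X →L[ℂ] X := f.smulRight x

/-- the larger modulus of the two roots of `z² - t z + d` -/
noncomputable def R2 (t d : ℂ) : ℝ :=
  max ‖(t + (t ^ 2 - 4 * d) ^ (1 / 2 : ℂ)) / 2‖ ‖(t - (t ^ 2 - 4 * d) ^ (1 / 2 : ℂ)) / 2‖

/-- 2 × 2 complex matrices -/
abbrev M2 : Type := Matrix (Fin 2) (Fin 2) ℂ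

/-- the operator `∑ M i j • a i ⊗ f j` -/
noncomputable def TT {X : Type*} [NormedAddCommGroup X] [NormedSpace ℂ X] (a : Fin 2 → X)
    (f : Fin 2 → (X →L[ℂ] ℂ)) (M : M2) : X →L[ℂ] X := ∑ i, ∑ j, M i j • rk (a i) (f j)

/-- the 2 × 2 compression `f i (S (a j))` -/
noncomputable def CC {X : Type*} [NormedAddCommGroup X] [NormedSpace ℂ X] (a : Fin 2 → X)
    (f : Fin 2 → (X →L[ℂ] ℂ)) (S : X →L[ℂ] X) : M2 := Matrix.of fun i j => f i (S (a j))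

/-- spectral radius of `T S + ε S T` -/
noncomputable def JF {X : Type*} [NormedAddCommGroup X] [NormedSpace ℂ X] (ε : ℂ)
    (T S : X →L[ℂ] X) : ℝ := sr (T * S + ε • (S * T))

/-- a flag: a nonzero vector and a nonzero functional vanishing on it -/
def Flag {X : Type*} [NormedAddCommGroup X] [NormedSpace ℂ X] (x : X) (f : X →L[ℂ] ℂ) : Prop :=
  x ≠ 0 ∧ f ≠ 0 ∧ f x = 0

/-- the functional `T ↦ f (T x)` and `T ↦ g (φ T u)` have the same modulus -/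
def Rel {X Y : Type*} [NormedAddCommGroup X] [NormedSpace ℂ X]
    [NormedAddCommGroup Y] [NormedSpace ℂ Y]
    (φ : (X →L[ℂ] X) → (Y →L[ℂ] Y)) (x : X) (f : X →L[ℂ] ℂ) (u : Y) (g : Y →L[ℂ] ℂ) : Prop :=
  ∀ T, ‖g (φ T u)‖ = ‖f (T x)‖

/-- a correspondence between a paired space `(V, W)` and `(Y, Y*)` -/
structure Corr {X Y V W : Type*} [NormedAddCommGroup X] [NormedSpace ℂ X]
    [NormedAddCommGroup Y] [NormedSpace ℂ Y] [NormedAddCommGroup V] [NormedSpace ℂ V]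
    [AddCommGroup W] [Module ℂ W] (φ : (X →L[ℂ] X) → (Y →L[ℂ] Y))
    (J : W →ₗ[ℂ] (V →L[ℂ] ℂ)) (τ : (X →L[ℂ] X) → (V →L[ℂ] V)) (U : V → Y)
    (G : W → (Y →L[ℂ] ℂ)) : Prop where
  U_ne : ∀ v, v ≠ 0 → U v ≠ 0
  G_ne : ∀ η, η ≠ 0 → G η ≠ 0
  inc : ∀ v η, v ≠ 0 → η ≠ 0 → (J η v = 0 ↔ G η (U v) = 0)
  rel : ∀ v η, v ≠ 0 → η ≠ 0 → J η v = 0 → ∃ c : ℝ, 0 < c ∧
    ∀ T, ‖G η (φ T (U v))‖ = c * ‖J η (τ T v)‖
  U_surj : ∀ u, u ≠ 0 → ∃ v, v ≠ 0 ∧ ∃ c : ℂ, c ≠ 0 ∧ u = c • U v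
  G_surj : ∀ g, g ≠ 0 → ∃ η, η ≠ 0 ∧ ∃ c : ℂ, c ≠ 0 ∧ g = c • G η

/-- `X` is reflexive -/
def IsRefl (X : Type*) [NormedAddCommGroup X] [NormedSpace ℂ X] : Prop :=
  Function.Surjective (fun x : X => (ContinuousLinearMap.apply ℂ ℂ x :
      (X →L[ℂ] ℂ) →L[ℂ] ℂ))

/-- `φ T = c A T A⁻¹` or `φ T = c A T* A⁻¹` -/
def FormS {X Y : Type*} [NormedAddCommGroup X] [NormedSpace ℂ X]
    [NormedAddCommGroup Y] [NormedSpace ℂ Y] (φ : (X →L[ℂ] X) → (Y →L[ℂ] Y)) : Prop :=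
  ((∃ A : X ≃L[ℂ] Y, ∀ T, ∃ c : ℂ, ‖c‖ = 1 ∧ ∀ y, φ T y = c • A (T (A.symm y))) ∨
    (∃ A : X ≃SL[starRingEnd ℂ] Y, ∀ T, ∃ c : ℂ, ‖c‖ = 1 ∧
      ∀ y, φ T y = c • A (T (A.symm y)))) ∨
    (IsRefl X ∧ ((∃ A : (X →L[ℂ] ℂ) ≃L[ℂ] Y, ∀ T : X →L[ℂ] X, ∃ c : ℂ, ‖c‖ = 1 ∧
      ∀ y, φ T y = c • A ((A.symm y).comp T)) ∨
    (∃ A : (X →L[ℂ] ℂ) ≃SL[starRingEnd ℂ] Y, ∀ T : X →L[ℂ] X, ∃ c : ℂ, ‖c‖ = 1 ∧
      ∀ y, φ T y = c • A ((A.symm y).comp T))))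

/-- `φ T = c A T A⁻¹ + d` or `φ T = c A T* A⁻¹ + d` -/
def FormT {X Y : Type*} [NormedAddCommGroup X] [NormedSpace ℂ X]
    [NormedAddCommGroup Y] [NormedSpace ℂ Y] (φ : (X →L[ℂ] X) → (Y →L[ℂ] Y)) : Prop :=
  ((∃ A : X ≃L[ℂ] Y, ∀ T, ∃ c d : ℂ, ‖c‖ = 1 ∧ ∀ y, φ T y = c • A (T (A.symm y)) + d • y) ∨
    (∃ A : X ≃SL[starRingEnd ℂ] Y, ∀ T, ∃ c d : ℂ, ‖c‖ = 1 ∧
      ∀ y, φ T y = c • A (T (A.symm y)) + d • y)) ∨
    (IsRefl X ∧ ((∃ A : (X →L[ℂ] ℂ) ≃L[ℂ] Y, ∀ T : X →L[ℂ] X, ∃ c d : ℂ, ‖c‖ = 1 ∧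
      ∀ y, φ T y = c • A ((A.symm y).comp T) + d • y) ∨
    (∃ A : (X →L[ℂ] ℂ) ≃SL[starRingEnd ℂ] Y, ∀ T : X →L[ℂ] X, ∃ c d : ℂ, ‖c‖ = 1 ∧
      ∀ y, φ T y = c • A ((A.symm y).comp T) + d • y)))

/-- spectral radius of the skew-Lie product `T S - S T*` -/
noncomputable def SK {H : Type*} [NormedAddCommGroup H] [InnerProductSpace ℂ H] [CompleteSpace H]
    (T S : H →L[ℂ] H) : ℝ := sr (T * S - S * star T)

/-- the rank one operator `v ↦ ⟪y, v⟫ x` -/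
noncomputable def ro {H : Type*} [NormedAddCommGroup H] [InnerProductSpace ℂ H]
    (x y : H) : H →L[ℂ] H := rk x (innerSL ℂ y)

/-- functions that are polynomial on real lines -/
def RP {E : Type*} [AddCommGroup E] [Module ℂ E] (p : E → ℂ) : Prop :=
  ∀ x y, ∃ P : Polynomial ℂ, ∀ t : ℝ, p (x + (t : ℂ) • y) = P.eval (t : ℂ)

end Pool.Agent.Helper729.SRP
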