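import Pool.Agent.Helper729.SRP.Base

/-!
# Preservers of the spectral radius of products of operators, part 1
-/

set_option autoImplicit false
open Filter Topology Complex Set Metric
open scoped InnerProductSpace

namespace Pool.Agent.Helper729.SRP


-- part 4198
section j4198
theorem sq_half_j4198 (x : ℂ) : (x ^ (1 / 2 : ℂ)) ^ 2 = x := by
  have := Complex.cpow_nat_inv_pow x (n := 2) (by norm_num)
  simpa using this

theorem R2_eq (z w : ℂ) : R2 (z + w) (z * w) = max ‖z‖ ‖w‖ := by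
  unfold R2
  have h := sq_half_j4198 ((z + w) ^ 2 - 4 * (z * w))
  set s := ((z + w) ^ 2 - 4 * (z * w)) ^ (1 / 2 : ℂ) with hs
  have h2 : s ^ 2 = (z - w) ^ 2 := by rw [h]; ring
  rcases sq_eq_sq_iff_eq_or_eq_neg.mp h2 with h3 | h3
  · rw [h3]
    have e1 : (z + w + (z - w)) / 2 = z := by ring
    have e2 : (z + w - (z - w)) / 2 = w := by ring
    rw [e1, e2]
  · rw [h3]
    have e1 : (z + w + -(z - w)) / 2 = w := by ring
    have e2 : (z + w - -(z - w)) / 2 = z := by ring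
    rw [e1, e2, max_comm]

theorem R2_exists (t d : ℂ) : ∃ z w : ℂ, z + w = t ∧ z * w = d ∧ R2 t d = max ‖z‖ ‖w‖ := by
  have h := sq_half_j4198 (t ^ 2 - 4 * d)
  refine ⟨(t + (t ^ 2 - 4 * d) ^ (1 / 2 : ℂ)) / 2, (t - (t ^ 2 - 4 * d) ^ (1 / 2 : ℂ)) / 2, by ring, ?_, rfl⟩
  have : (t + (t ^ 2 - 4 * d) ^ (1 / 2 : ℂ)) / 2 * ((t - (t ^ 2 - 4 * d) ^ (1 / 2 : ℂ)) / 2)
    = (t ^ 2 - ((t ^ 2 - 4 * d) ^ (1 / 2 : ℂ)) ^ 2) / 4 := by ring
  rw [this, h]; ring

theorem R2_nonneg (t d : ℂ) : 0 ≤ R2 t d := le_max_of_le_left (norm_nonneg _)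

theorem norm_t_le (t d : ℂ) : ‖t‖ ≤ 2 * R2 t d := by
  obtain ⟨z, w, h1, h2, h3⟩ := R2_exists t d
  rw [h3, ← h1]
  have := norm_add_le z w
  have := le_max_left ‖z‖ ‖w‖
  have := le_max_right ‖z‖ ‖w‖
  linarith

theorem norm_d_le (t d : ℂ) : ‖d‖ ≤ R2 t d ^ 2 := by
  obtain ⟨z, w, h1, h2, h3⟩ := R2_exists t d
  rw [h3, ← h2, norm_mul, sq]
  exact mul_le_mul (le_max_left _ _) (le_max_right _ _) (norm_nonneg _) (le_max_of_le_left (norm_nonneg _))

theorem R2_zero_right (t : ℂ) : R2 t 0 = ‖t‖ := by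
  have := R2_eq t 0
  simpa using this

theorem R2_eq_zero_iff (t d : ℂ) : R2 t d = 0 ↔ t = 0 ∧ d = 0 := by
  constructor
  · intro h
    have h1 := norm_t_le t d
    have h2 := norm_d_le t d
    rw [h] at h1 h2
    refine ⟨norm_le_zero_iff.mp (by simpa using h1), norm_le_zero_iff.mp (by simpa using h2)⟩
  · rintro ⟨rfl, rfl⟩
    rw [R2_zero_right, norm_zero]

theorem R2_scalar (s : ℂ) : R2 (2 * s) (s ^ 2) = ‖s‖ := by
  have := R2_eq s s
  rw [← two_mul, ← sq, max_self] at this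
  exact this

/-- a root is bounded by R2 -/
theorem norm_root_le {t d z : ℂ} (h : z ^ 2 - t * z + d = 0) : ‖z‖ ≤ R2 t d := by
  have := R2_eq z (t - z)
  have e1 : z + (t - z) = t := by ring
  have e2 : z * (t - z) = d := by linear_combination -h
  rw [e1, e2] at this
  rw [this]
  exact le_max_left _ _

/-- some root has modulus R2 -/
theorem exists_root_R2 (t d : ℂ) : ∃ z : ℂ, z ^ 2 - t * z + d = 0 ∧ ‖z‖ = R2 t d := by
  obtain ⟨z, w, h1, h2, h3⟩ := R2_exists t d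
  rcases le_total ‖z‖ ‖w‖ with h | h
  · refine ⟨w, by rw [← h1, ← h2]; ring, by rw [h3, max_eq_right h]⟩
  · refine ⟨z, by rw [← h1, ← h2]; ring, by rw [h3, max_eq_left h]⟩

/-- parallelogram form -/
theorem R2_sq_add (z w : ℂ) :
    ‖z‖ ^ 2 + ‖w‖ ^ 2 = (‖z + w‖ ^ 2 + ‖(z + w) ^ 2 - 4 * (z * w)‖) / 2 := by
  have e : (z + w) ^ 2 - 4 * (z * w) = (z - w) ^ 2 := by ring
  rw [e, norm_pow]
  have := parallelogram_law_with_norm ℝ z w
  nlinarith [this]

variable {X : Type*} [NormedAddCommGroup X] [NormedSpace ℂ X]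

theorem sr_nonneg (T : X →L[ℂ] X) : 0 ≤ sr T := ENNReal.toReal_nonneg

variable [CompleteSpace X]

/-- the nonzero spectrum of an operator of rank at most two -/
theorem mem_spec_rank_two (x1 x2 : X) (f1 f2 : X →L[ℂ] ℂ) {z : ℂ} (hz : z ≠ 0) :
    z ∈ spectrum ℂ (rk x1 f1 + rk x2 f2) ↔
      z ^ 2 - (f1 x1 + f2 x2) * z + (f1 x1 * f2 x2 - f1 x2 * f2 x1) = 0 := by
  set T := rk x1 f1 + rk x2 f2 with hT
  have hTv : ∀ v, T v = f1 v • x1 + f2 v • x2 := by intro v; simp [hT, rk]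
  have happ : ∀ v, (algebraMap ℂ (X →L[ℂ] X) z - T) v = z • v - (f1 v • x1 + f2 v • x2) := by
    intro v
    rw [← hTv v]
    simp [Algebra.algebraMap_eq_smul_one]
  constructor
  · intro h
    by_contra hdet
    apply h
    set D := z ^ 2 - (f1 x1 + f2 x2) * z + (f1 x1 * f2 x2 - f1 x2 * f2 x1) with hD
    -- the inverse
    -- c1 = ((z - f2 x2) f1 w + f1 x2 f2 w) / D
    -- c2 = (f2 x1 f1 w + (z - f1 x1) f2 w) / D
    let g1 : X →L[ℂ] ℂ := D⁻¹ • ((z - f2 x2) • f1 + (f1 x2) • f2)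
    let g2 : X →L[ℂ] ℂ := D⁻¹ • ((f2 x1) • f1 + (z - f1 x1) • f2)
    let R : X →L[ℂ] X := z⁻¹ • (ContinuousLinearMap.id ℂ X + rk x1 g1 + rk x2 g2)
    have hg1 : ∀ w, g1 w = D⁻¹ * ((z - f2 x2) * f1 w + f1 x2 * f2 w) := by intro w; simp [g1]; ring
    have hg2 : ∀ w, g2 w = D⁻¹ * (f2 x1 * f1 w + (z - f1 x1) * f2 w) := by intro w; simp [g2]; ring
    have hR : ∀ w, R w = z⁻¹ • (w + g1 w • x1 + g2 w • x2) := by intro w; simp [R, rk]
    have hDD : D⁻¹ * D = 1 := inv_mul_cancel₀ hdet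
    have hf1R : ∀ w, f1 (R w) = g1 w := by
      intro w
      rw [hR]
      simp only [map_smul, map_add, smul_eq_mul]
      rw [hg1, hg2]
      field_simp
      rw [hD]; ring
    have hf2R : ∀ w, f2 (R w) = g2 w := by
      intro w
      rw [hR]
      simp only [map_smul, map_add, smul_eq_mul]
      rw [hg1, hg2]
      field_simp
      rw [hD]; ring
    have hr : ∀ w, (algebraMap ℂ (X →L[ℂ] X) z - T) (R w) = w := by
      intro w
      rw [happ, hf1R, hf2R, hR, smul_smul, mul_inv_cancel₀ hz, one_smul]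
      abel
    have hg1T : ∀ v, g1 (z • v - (f1 v • x1 + f2 v • x2)) = f1 v := by
      intro v
      rw [hg1]
      simp only [map_sub, map_smul, map_add, smul_eq_mul]
      field_simp
      rw [hD]; ring
    have hg2T : ∀ v, g2 (z • v - (f1 v • x1 + f2 v • x2)) = f2 v := by
      intro v
      rw [hg2]
      simp only [map_sub, map_smul, map_add, smul_eq_mul]
      field_simp
      rw [hD]; ring
    have hl : ∀ v, R ((algebraMap ℂ (X →L[ℂ] X) z - T) v) = v := by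
      intro v
      rw [happ, hR, hg1T, hg2T]
      have : z • v - (f1 v • x1 + f2 v • x2) + f1 v • x1 + f2 v • x2 = z • v := by abel
      rw [this, smul_smul, inv_mul_cancel₀ hz, one_smul]
    refine ⟨⟨algebraMap ℂ (X →L[ℂ] X) z - T, R, ?_, ?_⟩, rfl⟩
    · ext w; exact hr w
    · ext w; exact hl w
  · intro hdet hu
    -- find an eigenvector
    have hinj : ∀ v, z • v = f1 v • x1 + f2 v • x2 → v = 0 := by
      intro v hv
      obtain ⟨u, hu⟩ := hu
      have h1 : (u : X →L[ℂ] X) v = 0 := by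
        rw [hu, happ, hv, sub_self]
      have h2 : ((↑(u⁻¹) : X →L[ℂ] X) * (u : X →L[ℂ] X)) v = v := by
        rw [Units.inv_mul]; rfl
      rw [← h2, ContinuousLinearMap.mul_apply, h1, map_zero]
    -- choose (p,q) nonzero with (z - f1 x1) p = f1 x2 q, (z - f2 x2) q = f2 x1 p
    have key : ∃ p q : ℂ, (p ≠ 0 ∨ q ≠ 0) ∧ z * p = f1 x1 * p + f1 x2 * q ∧ z * q = f2 x1 * p + f2 x2 * q := by
      by_cases hA : z - f1 x1 = 0 ∧ f1 x2 = 0
      · by_cases hB : z - f2 x2 = 0 ∧ f2 x1 = 0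
        · refine ⟨1, 0, Or.inl one_ne_zero, ?_, ?_⟩
          · linear_combination hA.1
          · rw [hB.2]; ring
        · refine ⟨z - f2 x2, f2 x1, ?_, ?_, ?_⟩
          · by_contra hc
            push Not at hc
            exact hB hc
          · linear_combination (z - f2 x2) * hA.1 - f2 x1 * hA.2
          · ring
      · refine ⟨f1 x2, z - f1 x1, ?_, ?_, ?_⟩
        · by_contra hc
          push Not at hc
          exact hA ⟨hc.2, hc.1⟩
        · ring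
        · linear_combination hdet
    obtain ⟨p, q, hpq, h1, h2⟩ := key
    have hv := hinj (p • x1 + q • x2) (by
      have e1 : f1 (p • x1 + q • x2) = z * p := by
        simp only [map_smul, map_add, smul_eq_mul]; rw [h1]; ring
      have e2 : f2 (p • x1 + q • x2) = z * q := by
        simp only [map_smul, map_add, smul_eq_mul]; rw [h2]; ring
      rw [e1, e2, smul_add, smul_smul, smul_smul])
    have e1 : f1 (p • x1 + q • x2) = z * p := by
      simp only [map_smul, map_add, smul_eq_mul]; rw [h1]; ring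
    have e2 : f2 (p • x1 + q • x2) = z * q := by
      simp only [map_smul, map_add, smul_eq_mul]; rw [h2]; ring
    rw [hv, map_zero] at e1 e2
    rcases hpq with h | h
    · exact (mul_ne_zero hz h) e1.symm
    · exact (mul_ne_zero hz h) e2.symm

theorem sr_rank_two (x1 x2 : X) (f1 f2 : X →L[ℂ] ℂ) :
    sr (rk x1 f1 + rk x2 f2) = R2 (f1 x1 + f2 x2) (f1 x1 * f2 x2 - f1 x2 * f2 x1) := by
  set t := f1 x1 + f2 x2 with ht
  set d := f1 x1 * f2 x2 - f1 x2 * f2 x1 with hd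
  set T := rk x1 f1 + rk x2 f2 with hT
  have hle : spectralRadius ℂ T ≤ ENNReal.ofReal (R2 t d) := by
    unfold spectralRadius
    refine iSup₂_le ?_
    intro z hz
    by_cases h0 : z = 0
    · rw [h0]; simp
    · have := norm_root_le ((mem_spec_rank_two x1 x2 f1 f2 h0).mp hz)
      rw [← ENNReal.ofReal_coe_nnreal, coe_nnnorm]
      exact ENNReal.ofReal_le_ofReal this
  have hge : ENNReal.ofReal (R2 t d) ≤ spectralRadius ℂ T := by
    rcases (R2_nonneg t d).eq_or_lt with h | h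
    · rw [← h]; simp
    · obtain ⟨z, hz, hzR⟩ := exists_root_R2 t d
      have h0 : z ≠ 0 := by
        rintro rfl
        rw [norm_zero] at hzR
        exact absurd hzR (ne_of_lt h)
      have hm := (mem_spec_rank_two x1 x2 f1 f2 h0).mpr hz
      rw [← hzR]
      unfold spectralRadius
      have := le_iSup₂ (f := fun (k : ℂ) (_ : k ∈ spectrum ℂ T) => (‖k‖₊ : ENNReal)) z hm
      rw [← ENNReal.ofReal_coe_nnreal, coe_nnnorm] at this
      exact this
  unfold sr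
  rw [le_antisymm hle hge, ENNReal.toReal_ofReal (R2_nonneg t d)]

theorem sr_rank_one (x : X) (f : X →L[ℂ] ℂ) : sr (rk x f) = ‖f x‖ := by
  have := sr_rank_two x 0 f 0
  simp only [map_zero, mul_zero, sub_zero, ContinuousLinearMap.zero_apply, add_zero, zero_mul] at this
  rw [R2_zero_right] at this
  rw [← this]
  congr 1
  ext v; simp [rk]

/-- the family `TT a f M` composed with an operator -/
theorem sr_TT_mul (a : Fin 2 → X) (f : Fin 2 → (X →L[ℂ] ℂ)) (M : M2) (S : X →L[ℂ] X) :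
    sr (TT a f M * S) = R2 (M * CC a f S).trace (M * CC a f S).det := by
  have h : TT a f M * S = rk (M 0 0 • a 0 + M 1 0 • a 1) ((f 0).comp S)
      + rk (M 0 1 • a 0 + M 1 1 • a 1) ((f 1).comp S) := by
    ext v
    simp [TT, rk, Fin.sum_univ_two, smul_smul]
    module
  rw [h, sr_rank_two]
  congr 1
  · simp [Matrix.trace_fin_two, Matrix.mul_apply, Fin.sum_univ_two, CC]
    ring
  · simp [Matrix.det_fin_two, Matrix.mul_apply, Fin.sum_univ_two, CC]
    ring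


end j4198

-- part 4199
section j4199
theorem nsq_poly_j4199 (a0 a1 a2 t : ℂ) : Complex.normSq (a0 + a1 * t + a2 * t ^ 2) =
    (a0.re + a1.re * t.re - a1.im * t.im + a2.re * (t.re ^ 2 - t.im ^ 2) -
      a2.im * (2 * t.re * t.im)) ^ 2 +
    (a0.im + a1.re * t.im + a1.im * t.re + a2.re * (2 * t.re * t.im) +
      a2.im * (t.re ^ 2 - t.im ^ 2)) ^ 2 := by
  rw [Complex.normSq_apply]
  simp only [Complex.add_re, Complex.add_im, Complex.mul_re, Complex.mul_im, pow_two]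
  ring

theorem coef_id_j4199 (κ : ℝ) (a0 a1 a2 b0 b1 b2 : ℂ)
    (h : ∀ t : ℂ, Complex.normSq (a0 + a1 * t + a2 * t ^ 2) =
      κ ^ 2 * Complex.normSq (b0 + b1 * t + b2 * t ^ 2)) :
    (a0.re ^ 2 + a0.im ^ 2 = κ ^ 2 * (b0.re ^ 2 + b0.im ^ 2)) ∧
    (a1.re ^ 2 + a1.im ^ 2 = κ ^ 2 * (b1.re ^ 2 + b1.im ^ 2)) ∧
    (a2.re ^ 2 + a2.im ^ 2 = κ ^ 2 * (b2.re ^ 2 + b2.im ^ 2)) ∧
    (a1.re * a0.re + a1.im * a0.im = κ ^ 2 * (b1.re * b0.re + b1.im * b0.im)) ∧
    (a1.im * a0.re - a1.re * a0.im = κ ^ 2 * (b1.im * b0.re - b1.re * b0.im)) ∧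
    (a2.re * a1.re + a2.im * a1.im = κ ^ 2 * (b2.re * b1.re + b2.im * b1.im)) ∧
    (a2.im * a1.re - a2.re * a1.im = κ ^ 2 * (b2.im * b1.re - b2.re * b1.im)) ∧
    (a2.re * a0.re + a2.im * a0.im = κ ^ 2 * (b2.re * b0.re + b2.im * b0.im)) ∧
    (a2.im * a0.re - a2.re * a0.im = κ ^ 2 * (b2.im * b0.re - b2.re * b0.im)) := by
  have g : ∀ x y : ℝ, _ := fun x y => h ⟨x, y⟩
  simp only [nsq_poly_j4199] at g
  have g0 := g 0 0
  have g1 := g 1 0
  have g2 := g (-1) 0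
  have g3 := g 2 0
  have g4 := g (-2) 0
  have g5 := g 0 1
  have g6 := g 0 (-1)
  have g7 := g 0 2
  have g8 := g 0 (-2)
  have g9 := g 1 1
  clear g h
  ring_nf at g0 g1 g2 g3 g4 g5 g6 g7 g8 g9
  refine ⟨?_, ?_, ?_, ?_, ?_, ?_, ?_, ?_, ?_⟩
  all_goals ring_nf
  all_goals linarith

theorem conj_id_j4199 {κ : ℝ} {a0 a1 b0 b1 : ℂ}
    (h1 : a1.re * a0.re + a1.im * a0.im = κ ^ 2 * (b1.re * b0.re + b1.im * b0.im))
    (h2 : a1.im * a0.re - a1.re * a0.im = κ ^ 2 * (b1.im * b0.re - b1.re * b0.im)) :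
    a1 * (starRingEnd ℂ) a0 = (κ : ℂ) ^ 2 * (b1 * (starRingEnd ℂ) b0) := by
  apply Complex.ext
  · simp [pow_two]
    linarith
  · simp [pow_two]
    linarith

theorem solve_coef_j4199 {κ : ℝ} (hκ : κ ≠ 0) {θ ai bi aj bj : ℂ} (hb : bj ≠ 0)
    (hj : aj = θ * κ * bj) (hθ : ‖θ‖ = 1)
    (h : ai * (starRingEnd ℂ) aj = (κ : ℂ) ^ 2 * (bi * (starRingEnd ℂ) bj)) :
    ai = θ * κ * bi := by
  have hκ' : (κ : ℂ) ≠ 0 := by exact_mod_cast hκ
  have hb' : (starRingEnd ℂ) bj ≠ 0 := by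
    rw [Ne, map_eq_zero]
    exact hb
  have hθθ : θ * (starRingEnd ℂ) θ = 1 := by
    rw [Complex.mul_conj, Complex.normSq_eq_norm_sq, hθ]
    simp
  have h1 : (starRingEnd ℂ) aj = (starRingEnd ℂ) θ * κ * (starRingEnd ℂ) bj := by
    rw [hj, map_mul, map_mul, Complex.conj_ofReal]
  rw [h1] at h
  have h2 : (κ * (starRingEnd ℂ) bj) * (ai * (starRingEnd ℂ) θ) =
      (κ * (starRingEnd ℂ) bj) * (κ * bi) := by
    linear_combination h
  have h3 := mul_left_cancel₀ (mul_ne_zero hκ' hb') h2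
  calc ai = ai * (θ * (starRingEnd ℂ) θ) := by rw [hθθ, mul_one]
    _ = θ * (ai * (starRingEnd ℂ) θ) := by ring
    _ = θ * κ * bi := by rw [h3]; ring

theorem theta_norm_j4199 {κ : ℝ} (hκ : κ ≠ 0) {aj bj : ℂ} (hb : bj ≠ 0)
    (h : aj * (starRingEnd ℂ) aj = (κ : ℂ) ^ 2 * (bj * (starRingEnd ℂ) bj)) :
    ‖aj / (κ * bj)‖ = 1 ∧ aj = (aj / (κ * bj)) * κ * bj := by
  have hκ' : (κ : ℂ) ≠ 0 := by exact_mod_cast hκ
  constructor
  · rw [Complex.mul_conj, Complex.mul_conj, Complex.normSq_eq_norm_sq,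
      Complex.normSq_eq_norm_sq] at h
    have h2 : ‖aj‖ ^ 2 = κ ^ 2 * ‖bj‖ ^ 2 := by exact_mod_cast h
    have h3 : ‖aj‖ ^ 2 = (|κ| * ‖bj‖) ^ 2 := by
      rw [h2, mul_pow, sq_abs]
    have h4 : ‖aj‖ = |κ| * ‖bj‖ := by
      rwa [sq_eq_sq₀ (norm_nonneg _) (by positivity)] at h3
    rw [norm_div, norm_mul, Complex.norm_real, Real.norm_eq_abs, h4]
    have : |κ| * ‖bj‖ ≠ 0 := mul_ne_zero (abs_ne_zero.2 hκ) (norm_ne_zero_iff.2 hb)
    exact div_self this
  · field_simp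

theorem zero_of_sq_j4199 {a : ℂ} (h : a.re ^ 2 + a.im ^ 2 = 0) : a = 0 := by
  have h1 : a.re ^ 2 = 0 := by nlinarith [sq_nonneg a.re, sq_nonneg a.im]
  have h2 : a.im ^ 2 = 0 := by nlinarith [sq_nonneg a.re, sq_nonneg a.im]
  exact Complex.ext (pow_eq_zero_iff (two_ne_zero) |>.1 h1) (pow_eq_zero_iff (two_ne_zero) |>.1 h2)

/-- quadratic polynomials with proportional moduli are proportional -/
theorem poly_mod (κ : ℝ) (a0 a1 a2 b0 b1 b2 : ℂ)
    (h : ∀ t : ℂ, ‖a0 + a1 * t + a2 * t ^ 2‖ = κ * ‖b0 + b1 * t + b2 * t ^ 2‖) :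
    ∃ θ : ℂ, ‖θ‖ = 1 ∧ a0 = θ * κ * b0 ∧ a1 = θ * κ * b1 ∧ a2 = θ * κ * b2 := by
  have h' : ∀ t : ℂ, Complex.normSq (a0 + a1 * t + a2 * t ^ 2) =
      κ ^ 2 * Complex.normSq (b0 + b1 * t + b2 * t ^ 2) := by
    intro t
    rw [Complex.normSq_eq_norm_sq, Complex.normSq_eq_norm_sq, h t]
    ring
  obtain ⟨c00, c11, c22, r10, i10, r21, i21, r20, i20⟩ := coef_id_j4199 κ a0 a1 a2 b0 b1 b2 h'
  by_cases hκ : κ = 0
  · subst hκ
    have z0 : a0 = 0 := zero_of_sq_j4199 (by rw [c00]; ring)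
    have z1 : a1 = 0 := zero_of_sq_j4199 (by rw [c11]; ring)
    have z2 : a2 = 0 := zero_of_sq_j4199 (by rw [c22]; ring)
    exact ⟨1, by simp, by simp [z0], by simp [z1], by simp [z2]⟩
  have e00 : a0 * (starRingEnd ℂ) a0 = (κ : ℂ) ^ 2 * (b0 * (starRingEnd ℂ) b0) :=
    conj_id_j4199 (by linarith) (by ring)
  have e11 : a1 * (starRingEnd ℂ) a1 = (κ : ℂ) ^ 2 * (b1 * (starRingEnd ℂ) b1) :=
    conj_id_j4199 (by linarith) (by ring)
  have e22 : a2 * (starRingEnd ℂ) a2 = (κ : ℂ) ^ 2 * (b2 * (starRingEnd ℂ) b2) :=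
    conj_id_j4199 (by linarith) (by ring)
  have e10 : a1 * (starRingEnd ℂ) a0 = (κ : ℂ) ^ 2 * (b1 * (starRingEnd ℂ) b0) :=
    conj_id_j4199 r10 i10
  have e21 : a2 * (starRingEnd ℂ) a1 = (κ : ℂ) ^ 2 * (b2 * (starRingEnd ℂ) b1) :=
    conj_id_j4199 r21 i21
  have e20 : a2 * (starRingEnd ℂ) a0 = (κ : ℂ) ^ 2 * (b2 * (starRingEnd ℂ) b0) :=
    conj_id_j4199 r20 i20
  have e01 : a0 * (starRingEnd ℂ) a1 = (κ : ℂ) ^ 2 * (b0 * (starRingEnd ℂ) b1) :=
    conj_id_j4199 (by linarith) (by linarith)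
  have e12 : a1 * (starRingEnd ℂ) a2 = (κ : ℂ) ^ 2 * (b1 * (starRingEnd ℂ) b2) :=
    conj_id_j4199 (by linarith) (by linarith)
  have e02 : a0 * (starRingEnd ℂ) a2 = (κ : ℂ) ^ 2 * (b0 * (starRingEnd ℂ) b2) :=
    conj_id_j4199 (by linarith) (by linarith)
  by_cases hb0 : b0 = 0
  · by_cases hb1 : b1 = 0
    · by_cases hb2 : b2 = 0
      · subst hb0 hb1 hb2
        simp only [Complex.zero_re, Complex.zero_im] at c00 c11 c22
        have z0 : a0 = 0 := zero_of_sq_j4199 (by rw [c00]; ring)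
        have z1 : a1 = 0 := zero_of_sq_j4199 (by rw [c11]; ring)
        have z2 : a2 = 0 := zero_of_sq_j4199 (by rw [c22]; ring)
        exact ⟨1, by simp, by simp [z0], by simp [z1], by simp [z2]⟩
      · obtain ⟨hθ, hj⟩ := theta_norm_j4199 hκ hb2 e22
        exact ⟨_, hθ, solve_coef_j4199 hκ hb2 hj hθ e02, solve_coef_j4199 hκ hb2 hj hθ e12, hj⟩
    · obtain ⟨hθ, hj⟩ := theta_norm_j4199 hκ hb1 e11
      exact ⟨_, hθ, solve_coef_j4199 hκ hb1 hj hθ e01, hj, solve_coef_j4199 hκ hb1 hj hθ e21⟩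
  · obtain ⟨hθ, hj⟩ := theta_norm_j4199 hκ hb0 e00
    exact ⟨_, hθ, hj, solve_coef_j4199 hκ hb0 hj hθ e10, solve_coef_j4199 hκ hb0 hj hθ e20⟩

/-- a real linear function of `w` of modulus `|w| r`, known off one point, is `w p` or
`conj (w p)`: form used below -/
theorem tau_form (wb : ℂ) (τ : ℂ → ℂ) (p1 pI : ℂ)
    (h1 : ∀ w, w ≠ wb → (τ w).re = (w * p1).re)
    (hI : ∀ w, w ≠ wb → (Complex.I * τ w).re = (w * pI).re)
    {r : ℝ} (hr : 0 < r) (hτ : ∀ w, w ≠ wb → ‖τ w‖ = ‖w‖ * r) :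
    (∀ w, w ≠ wb → τ w = w * p1) ∨ (∀ w, w ≠ wb → τ w = (starRingEnd ℂ) (w * p1)) := by
  have him : ∀ w, w ≠ wb → (τ w).im = -(w * pI).re := by
    intro w hw
    have := hI w hw
    rw [← this]
    simp
  have key : ∀ w, w ≠ wb → (w * p1).re ^ 2 + (w * pI).re ^ 2 = (w.re ^ 2 + w.im ^ 2) * r ^ 2 := by
    intro w hw
    have h3 := hτ w hw
    have h4 : Complex.normSq (τ w) = (w.re ^ 2 + w.im ^ 2) * r ^ 2 := by
      rw [Complex.normSq_eq_norm_sq, h3, mul_pow, ← Complex.normSq_eq_norm_sq,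
        Complex.normSq_apply]
      ring
    rw [Complex.normSq_apply, h1 w hw, him w hw] at h4
    linarith
  -- two scales
  have scale : ∀ u : ℂ, u ≠ 0 → (u * p1).re ^ 2 + (u * pI).re ^ 2 =
      (u.re ^ 2 + u.im ^ 2) * r ^ 2 := by
    intro u hu
    by_cases hw : u = wb
    · have h2 : (2 : ℂ) * u ≠ wb := by
        rw [← hw]
        intro h
        apply hu
        linear_combination h
      have h3 := key _ h2
      simp only [Complex.mul_re, Complex.mul_im, Complex.re_ofNat, Complex.im_ofNat] at h3 ⊢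
      nlinarith
    · exact key u hw
  have s1 := scale 1 one_ne_zero
  have s2 := scale Complex.I Complex.I_ne_zero
  have s3 := scale (1 + Complex.I) (by
    intro h
    have := congrArg Complex.re h
    simp at this)
  simp at s1 s2 s3
  -- (a, c) and (b, d) orthogonal of the same length
  have e1 : p1.re ^ 2 + pI.re ^ 2 = r ^ 2 := by linarith
  have e2 : p1.im ^ 2 + pI.im ^ 2 = r ^ 2 := by linarith
  have e3 : p1.re * p1.im + pI.re * pI.im = 0 := by nlinarith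
  have e4 : (p1.re * pI.im - p1.im * pI.re - r ^ 2) * (p1.re * pI.im - p1.im * pI.re + r ^ 2) =
      0 := by
    have h5 : (p1.re * pI.im - p1.im * pI.re) ^ 2 = (p1.re ^ 2 + pI.re ^ 2) *
      (p1.im ^ 2 + pI.im ^ 2) - (p1.re * p1.im + pI.re * pI.im) ^ 2 := by ring
    rw [e1, e2, e3] at h5
    linear_combination h5
  rcases mul_eq_zero.1 e4 with h5 | h5
  · have h6 : (pI.im - p1.re) ^ 2 + (p1.im + pI.re) ^ 2 = 0 := by nlinarith
    have h7 : pI.im - p1.re = 0 :=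
      pow_eq_zero_iff two_ne_zero |>.1
        (by nlinarith [sq_nonneg (pI.im - p1.re), sq_nonneg (p1.im + pI.re)])
    have h8 : p1.im + pI.re = 0 :=
      pow_eq_zero_iff two_ne_zero |>.1
        (by nlinarith [sq_nonneg (pI.im - p1.re), sq_nonneg (p1.im + pI.re)])
    left
    intro w hw
    apply Complex.ext
    · exact h1 w hw
    · rw [him w hw]
      simp only [Complex.mul_re, Complex.mul_im]
      linear_combination (w.im) * h7 - (w.re) * h8
  · have h6 : (pI.im + p1.re) ^ 2 + (p1.im - pI.re) ^ 2 = 0 := by nlinarith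
    have h7 : pI.im + p1.re = 0 :=
      pow_eq_zero_iff two_ne_zero |>.1
        (by nlinarith [sq_nonneg (pI.im + p1.re), sq_nonneg (p1.im - pI.re)])
    have h8 : p1.im - pI.re = 0 :=
      pow_eq_zero_iff two_ne_zero |>.1
        (by nlinarith [sq_nonneg (pI.im + p1.re), sq_nonneg (p1.im - pI.re)])
    right
    intro w hw
    apply Complex.ext
    · rw [Complex.conj_re]
      exact h1 w hw
    · rw [him w hw, Complex.conj_im]
      simp only [Complex.mul_re, Complex.mul_im]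
      linear_combination (w.im) * h7 + (w.re) * h8

theorem R2_smul (θ t d : ℂ) : R2 (θ * t) (θ ^ 2 * d) = ‖θ‖ * R2 t d := by
  obtain ⟨z, w, ht, hd, hR⟩ := R2_exists t d
  have e1 : θ * t = θ * z + θ * w := by rw [← ht]; ring
  have e2 : θ ^ 2 * d = (θ * z) * (θ * w) := by rw [← hd]; ring
  rw [e1, e2, R2_eq, hR, norm_mul, norm_mul, mul_max_of_nonneg _ _ (norm_nonneg _)]

theorem R2_det0_j4199 {M : M2} (hM : M.det = 0) (Cm : M2) :
    R2 (M * Cm).trace (M * Cm).det = ‖(M * Cm).trace‖ := by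
  rw [Matrix.det_mul, hM, zero_mul, R2_zero_right]

theorem tr_form_j4199 (M C : M2) (w σ : ℂ) :
    (M * (w • C + σ • (1 : M2))).trace = w * (M * C).trace + σ * M.trace := by
  rw [mul_add, Matrix.trace_add, Matrix.mul_smul, Matrix.mul_smul, Matrix.trace_smul,
    Matrix.trace_smul, mul_one]
  simp

theorem det_form_j4199 (C : M2) (w σ : ℂ) :
    (w • C + σ • (1 : M2)).det = w ^ 2 * C.det + w * σ * C.trace + σ ^ 2 := by
  simp [Matrix.det_fin_two, Matrix.trace_fin_two]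
  ring

/-- nilpotent test matrices -/
def NN_j4199 (t : ℂ) : M2 := !![-t, 1; -t ^ 2, t]

theorem NN_trace_j4199 (t : ℂ) : (NN_j4199 t).trace = 0 := by
  simp [NN_j4199, Matrix.trace_fin_two]

theorem NN_det_j4199 (t : ℂ) : (NN_j4199 t).det = 0 := by
  simp [NN_j4199, Matrix.det_fin_two]
  ring

theorem tr2_j4199 (M C : M2) : (M * C).trace =
    M 0 0 * C 0 0 + M 0 1 * C 1 0 + M 1 0 * C 0 1 + M 1 1 * C 1 1 := by
  rw [Matrix.trace_fin_two, Matrix.mul_apply, Matrix.mul_apply, Fin.sum_univ_two,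
    Fin.sum_univ_two]
  ring

theorem NN_mul_j4199 (t : ℂ) (C : M2) :
    (NN_j4199 t * C).trace = C 1 0 + (C 1 1 - C 0 0) * t + (-C 0 1) * t ^ 2 := by
  rw [tr2_j4199]
  simp [NN_j4199]
  ring

/-- idempotents of rank one -/
theorem exists_P_j4199 {C : M2} {t k : ℂ}
    (hk : k * (C 1 0 + (C 1 1 - C 0 0) * t + (-C 0 1) * t ^ 2) = 1) (c : ℂ) :
    ∃ P : M2, P.det = 0 ∧ P.trace = 1 ∧ (P * C).trace = c := by
  -- ν = c - (C 0 0 + C 0 1 t)
  refine ⟨!![1 - (c - (C 0 0 + C 0 1 * t)) * k * t, (c - (C 0 0 + C 0 1 * t)) * k;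
    t * (1 - (c - (C 0 0 + C 0 1 * t)) * k * t), (c - (C 0 0 + C 0 1 * t)) * k * t], ?_, ?_, ?_⟩
  · simp [Matrix.det_fin_two]
    ring
  · simp [Matrix.trace_fin_two]
  · rw [tr2_j4199]
    simp
    linear_combination (c - (C 0 0 + C 0 1 * t)) * hk

theorem exists_M_j4199 {C : M2} {t k : ℂ}
    (hk : k * (C 1 0 + (C 1 1 - C 0 0) * t + (-C 0 1) * t ^ 2) = 1) (s : ℂ) :
    ∃ M : M2, M.det = 1 ∧ M.trace = 2 ∧ (M * C).trace = s := by
  refine ⟨1 + ((s - C.trace) * k) • NN_j4199 t, ?_, ?_, ?_⟩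
  · simp [NN_j4199, Matrix.det_fin_two]
    ring
  · rw [Matrix.trace_add, Matrix.trace_smul, NN_trace_j4199, smul_zero, add_zero]
    simp
  · rw [add_mul, one_mul, Matrix.trace_add, Matrix.smul_mul, Matrix.trace_smul, NN_mul_j4199,
      smul_eq_mul]
    linear_combination (s - C.trace) * hk

theorem exists_tk_j4199 {C : M2} (h : ¬ ∃ s : ℂ, C = s • 1) :
    ∃ t k : ℂ, k * (C 1 0 + (C 1 1 - C 0 0) * t + (-C 0 1) * t ^ 2) = 1 := by
  by_contra hcon
  push Not at hcon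
  have h0 : ∀ t : ℂ, C 1 0 + (C 1 1 - C 0 0) * t + (-C 0 1) * t ^ 2 = 0 := by
    intro t
    by_contra hne
    exact hcon t (C 1 0 + (C 1 1 - C 0 0) * t + (-C 0 1) * t ^ 2)⁻¹ (inv_mul_cancel₀ hne)
  have a := h0 0
  have b := h0 1
  have c := h0 (-1)
  have h10 : C 1 0 = 0 := by linear_combination a
  have h01 : C 0 1 = 0 := by linear_combination a - (1/2) * b - (1/2) * c
  have h11 : C 1 1 = C 0 0 := by linear_combination (1/2) * b - (1/2) * c
  apply h
  refine ⟨C 0 0, ?_⟩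
  ext i j
  fin_cases i <;> fin_cases j <;> simp [h10, h01, h11]

theorem ineq_all_j4199 {F : Set ℂ} (hF : F.Finite) {f g : ℂ → ℝ} (hf : Continuous f)
    (hg : Continuous g) (h : ∀ w, w ∉ F → f w ≤ g w) (w : ℂ) : f w ≤ g w := by
  have h1 : IsClosed {w | f w ≤ g w} := isClosed_le hf hg
  have h2 : Dense (Set.univ \ F : Set ℂ) := dense_univ.sdiff_finite hF
  have h3 : (Set.univ \ F : Set ℂ) ⊆ {w | f w ≤ g w} := fun w hw => h w hw.2
  exact (h1.closure_subset_iff.2 h3) (h2 w)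

theorem fin_step_j4199 {s τ1 δ1 σ : ℂ} (hs : s ≠ 0) (hs2 : s ^ 2 - 2 * τ1 * s + 4 * δ1 ≠ 0)
    (hσ : σ ≠ 0) {F : Set ℂ} (hF : F.Finite)
    {A B : ℂ} (h1 : ∀ w, w ∉ F → ‖w * s + σ * 2‖ ≤ 2 * ‖A + w * B‖)
    (h2 : ∀ w, w ∉ F → ‖w ^ 2 * δ1 + w * σ * τ1 + σ ^ 2‖ ≤ ‖A + w * B‖ ^ 2)
    (hB : ‖s‖ ≤ 2 * ‖B‖) : False := by
  have hB0 : B ≠ 0 := by
    intro h
    rw [h, norm_zero, mul_zero] at hB
    exact hs (norm_le_zero_iff.1 hB)
  have g1 := ineq_all_j4199 hF (f := fun w => ‖w * s + σ * 2‖) (g := fun w => 2 * ‖A + w * B‖)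
    (by fun_prop) (by fun_prop) h1 (-A / B)
  have g2 := ineq_all_j4199 hF (f := fun w => ‖w ^ 2 * δ1 + w * σ * τ1 + σ ^ 2‖)
    (g := fun w => ‖A + w * B‖ ^ 2) (by fun_prop) (by fun_prop) h2 (-A / B)
  have e : A + (-A / B) * B = 0 := by
    field_simp
    ring
  simp only [e, norm_zero, mul_zero] at g1 g2
  have g1' := norm_le_zero_iff.1 g1
  have g2' : (-A / B) ^ 2 * δ1 + (-A / B) * σ * τ1 + σ ^ 2 = 0 := by
    apply norm_le_zero_iff.1
    simpa using g2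
  set w := -A / B with hw
  have h5 : σ ^ 2 * (s ^ 2 - 2 * τ1 * s + 4 * δ1) = 0 := by
    have h6 : w * s = -(σ * 2) := by linear_combination g1'
    calc σ ^ 2 * (s ^ 2 - 2 * τ1 * s + 4 * δ1) =
        σ ^ 2 * s ^ 2 + (-(σ * 2)) * s * σ * τ1 + (-(σ * 2)) ^ 2 * δ1 := by ring
      _ = σ ^ 2 * s ^ 2 + (w * s) * s * σ * τ1 + (w * s) ^ 2 * δ1 := by rw [h6]
      _ = s ^ 2 * (w ^ 2 * δ1 + w * σ * τ1 + σ ^ 2) := by ring
      _ = 0 := by rw [g2', mul_zero]
  rcases mul_eq_zero.1 h5 with h7 | h7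
  · exact hσ (pow_eq_zero_iff two_ne_zero |>.1 h7)
  · exact hs2 h7

theorem exists_s_j4199 (τ1 δ1 : ℂ) : ∃ s : ℂ, s ≠ 0 ∧ s ^ 2 - 2 * τ1 * s + 4 * δ1 ≠ 0 := by
  by_contra hcon
  push Not at hcon
  have a := hcon 1 (by norm_num)
  have b := hcon 2 (by norm_num)
  have c := hcon 3 (by norm_num)
  have : (2 : ℂ) = 0 := by linear_combination a - 2 * b + c
  norm_num at this

theorem re_id_j4199 {A B c σ w : ℂ} {r : ℝ} (hA : ‖A‖ = r) (hB : ‖B‖ = ‖c‖) (hσ : ‖σ‖ = r)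
    (h : ‖A + w * B‖ = ‖w * c + σ‖) :
    (c * (w * (starRingEnd ℂ) σ)).re = (w * (B * (starRingEnd ℂ) A)).re := by
  have h2 : Complex.normSq (A + w * B) = Complex.normSq (w * c + σ) := by
    rw [Complex.normSq_eq_norm_sq, Complex.normSq_eq_norm_sq, h]
  rw [Complex.normSq_add, Complex.normSq_add, Complex.normSq_mul, Complex.normSq_mul,
    Complex.normSq_eq_norm_sq A, Complex.normSq_eq_norm_sq B, Complex.normSq_eq_norm_sq σ,
    Complex.normSq_eq_norm_sq c, hA, hB, hσ] at h2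
  have e1 : (A * (starRingEnd ℂ) (w * B)).re = (w * (B * (starRingEnd ℂ) A)).re := by
    rw [← Complex.conj_re (A * (starRingEnd ℂ) (w * B))]
    congr 1
    simp
    ring
  have e2 : (w * c * (starRingEnd ℂ) σ).re = (c * (w * (starRingEnd ℂ) σ)).re := by
    congr 1
    ring
  rw [e1, e2] at h2
  linarith

theorem AL1 {G : Type*} [AddCommGroup G] [Module ℂ G]
    (y : M2 → G →ₗ[ℂ] ℂ) (C : G → M2) (D : G → Prop)
    (h : ∀ g, D g → ∀ M, ‖y M g‖ = R2 (M * C g).trace (M * C g).det)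
    {g0 g1 : G} (h0 : D g0) (h1 : D g1) (wb : ℂ) (hw : ∀ w, w ≠ wb → D (g0 + w • g1))
    {c0 : ℂ} (hc0 : c0 ≠ 0) (hC0 : C g0 = c0 • 1) : ∃ s : ℂ, C g1 = s • 1 := by
  by_contra hns
  obtain ⟨t0, k0, hk⟩ := exists_tk_j4199 hns
  -- A, B
  have hlin : ∀ M w, y M (g0 + w • g1) = y M g0 + w * y M g1 := by
    intro M w
    rw [map_add, map_smul, smul_eq_mul]
  have hA0 : ∀ M : M2, M.det = 0 → ‖y M g0‖ = ‖c0‖ * ‖M.trace‖ := by
    intro M hM
    rw [h g0 h0 M, R2_det0_j4199 hM, hC0, Matrix.mul_smul, Matrix.trace_smul, mul_one, smul_eq_mul,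
      norm_mul]
  have hB0 : ∀ M : M2, M.det = 0 → ‖y M g1‖ = ‖(M * C g1).trace‖ := by
    intro M hM
    rw [h g1 h1 M, R2_det0_j4199 hM]
  -- structure of C_w
  have hσ : ∀ w, w ≠ wb → w ≠ 0 → ∃ σ : ℂ, ‖σ‖ = ‖c0‖ ∧ ∀ M : M2, ‖y M g0 + w * y M g1‖ =
      R2 (M * (w • C g1 + σ • (1 : M2))).trace (M * (w • C g1 + σ • (1 : M2))).det := by
    intro w hwb hw0
    have hnil : ∀ t : ℂ, ‖C (g0 + w • g1) 1 0 + (C (g0 + w • g1) 1 1 - C (g0 + w • g1) 0 0) * t +
        (-C (g0 + w • g1) 0 1) * t ^ 2‖ = ‖w‖ * ‖C g1 1 0 + (C g1 1 1 - C g1 0 0) * t +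
        (-C g1 0 1) * t ^ 2‖ := by
      intro t
      have hz : y (NN_j4199 t) g0 = 0 := by
        apply norm_eq_zero.1
        rw [hA0 _ (NN_det_j4199 t), NN_trace_j4199, norm_zero, mul_zero]
      rw [← NN_mul_j4199, ← NN_mul_j4199, ← R2_det0_j4199 (NN_det_j4199 t), ← h _ (hw w hwb), hlin, hz, zero_add,
        norm_mul, hB0 _ (NN_det_j4199 t)]
    obtain ⟨θ, hθ, q0, q1, q2⟩ := poly_mod _ _ _ _ _ _ _ hnil
    set θ' : ℂ := θ * ‖w‖ / w with hθ'
    have hθ'w : θ' * w = θ * ‖w‖ := by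
      rw [hθ']
      field_simp
    have hθ'1 : ‖θ'‖ = 1 := by
      rw [hθ', norm_div, norm_mul, hθ, one_mul, Complex.norm_real, norm_norm]
      exact div_self (norm_ne_zero_iff.2 hw0)
    have hθ'0 : θ' ≠ 0 := by
      intro hh
      rw [hh, norm_zero] at hθ'1
      norm_num at hθ'1
    set σ : ℂ := (C (g0 + w • g1) 0 0 - θ' * w * C g1 0 0) / θ' with hσdef
    have hσ' : θ' * σ = C (g0 + w • g1) 0 0 - θ' * w * C g1 0 0 := by
      rw [hσdef]
      field_simp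
    have hC : C (g0 + w • g1) = θ' • (w • C g1 + σ • (1 : M2)) := by
      rw [← hθ'w] at q0 q1 q2
      ext i j
      fin_cases i <;> fin_cases j
      · simp
        linear_combination -hσ'
      · simp
        linear_combination -q2
      · simp
        linear_combination q0
      · simp
        linear_combination q1 - hσ'
    have hM : ∀ M : M2, ‖y M g0 + w * y M g1‖ =
      R2 (M * (w • C g1 + σ • (1 : M2))).trace (M * (w • C g1 + σ • (1 : M2))).det := by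
      intro M
      rw [← hlin, h _ (hw w hwb), hC, Matrix.mul_smul, Matrix.trace_smul, Matrix.det_smul,
        Fintype.card_fin, smul_eq_mul, R2_smul, hθ'1, one_mul]
    refine ⟨σ, ?_, hM⟩
    obtain ⟨P, hP1, hP2, hP3⟩ := exists_P_j4199 hk 0
    have hz : y P g1 = 0 := by
      apply norm_eq_zero.1
      rw [hB0 P hP1, hP3, norm_zero]
    have e1 := hM P
    rw [R2_det0_j4199 hP1, tr_form_j4199, hP2, hP3, hz, mul_zero, zero_add, add_zero, mul_one,
      hA0 P hP1, hP2, norm_one, mul_one] at e1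
    exact e1.symm
  choose! σ hσ1 hσ2 using hσ
  obtain ⟨P1, hP11, hP12, hP13⟩ := exists_P_j4199 hk 1
  obtain ⟨PI, hPI1, hPI2, hPI3⟩ := exists_P_j4199 hk Complex.I
  have hre : ∀ (P : M2) (c : ℂ), P.det = 0 → P.trace = 1 → (P * C g1).trace = c → ∀ w, w ≠ wb →
      (c * (w * (starRingEnd ℂ) (σ w))).re = (w * (y P g1 * (starRingEnd ℂ) (y P g0))).re := by
    intro P c hPd hPt hPc w hwb
    by_cases hw0 : w = 0
    · rw [hw0]
      simp
    · apply re_id_j4199 (r := ‖c0‖)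
      · rw [hA0 P hPd, hPt, norm_one, mul_one]
      · rw [hB0 P hPd, hPc]
      · exact hσ1 w hwb hw0
      · rw [hσ2 w hwb hw0 P, R2_det0_j4199 hPd, tr_form_j4199, hPt, hPc, mul_one]
  have hfin : ∀ p : ℂ, (({0, p} : Set ℂ)).Finite := fun p => Set.toFinite _
  obtain ⟨ww, hww⟩ := (hfin wb).infinite_compl.nonempty
  have hww1 : ww ≠ wb := fun hh => hww (by simp [hh])
  have hww0 : ww ≠ 0 := fun hh => hww (by simp [hh])
  obtain ⟨s, hs, hs2⟩ := exists_s_j4199 (C g1).trace (C g1).det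
  obtain ⟨M, hM1, hM2, hM3⟩ := exists_M_j4199 hk s
  have hdet : ∀ w σ' : ℂ, (M * (w • C g1 + σ' • (1 : M2))).det =
      w ^ 2 * (C g1).det + w * σ' * (C g1).trace + σ' ^ 2 := by
    intro w σ'
    rw [Matrix.det_mul, hM1, one_mul, det_form_j4199]
  have htr : ∀ w σ' : ℂ, (M * (w • C g1 + σ' • (1 : M2))).trace = w * s + σ' * 2 := by
    intro w σ'
    rw [tr_form_j4199, hM2, hM3]
  have hBs : ‖s‖ ≤ 2 * ‖y M g1‖ := by
    rw [h g1 h1 M, ← hM3]
    exact norm_t_le _ _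
  rcases tau_form wb (fun w => w * (starRingEnd ℂ) (σ w))
    (y P1 g1 * (starRingEnd ℂ) (y P1 g0)) (y PI g1 * (starRingEnd ℂ) (y PI g0))
    (fun w hwb => by
      have := hre P1 1 hP11 hP12 hP13 w hwb
      rwa [one_mul] at this)
    (fun w hwb => hre PI Complex.I hPI1 hPI2 hPI3 w hwb) (norm_pos_iff.2 hc0)
    (fun w hwb => by
      by_cases hw0 : w = 0
      · simp [hw0]
      · rw [norm_mul, RCLike.norm_conj, hσ1 w hwb hw0]) with hcase | hcase
  · -- linear case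
    set p1 := y P1 g1 * (starRingEnd ℂ) (y P1 g0) with hp1
    have hσw : ∀ w, w ≠ wb → w ≠ 0 → σ w = (starRingEnd ℂ) p1 := by
      intro w hwb hw0
      have e := mul_left_cancel₀ hw0 (hcase w hwb)
      rw [← e, Complex.conj_conj]
    have hp0 : (starRingEnd ℂ) p1 ≠ 0 := by
      rw [← hσw ww hww1 hww0]
      intro hh
      have := hσ1 ww hww1 hww0
      rw [hh, norm_zero] at this
      exact hc0 (norm_eq_zero.1 this.symm)
    refine fin_step_j4199 hs hs2 hp0 (hfin wb) (A := y M g0) (B := y M g1) ?_ ?_ hBs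
    · intro w hwF
      have hwb : w ≠ wb := fun hh => hwF (by simp [hh])
      have hw0 : w ≠ 0 := fun hh => hwF (by simp [hh])
      rw [hσ2 w hwb hw0 M, ← htr, hσw w hwb hw0]
      exact norm_t_le _ _
    · intro w hwF
      have hwb : w ≠ wb := fun hh => hwF (by simp [hh])
      have hw0 : w ≠ 0 := fun hh => hwF (by simp [hh])
      rw [hσ2 w hwb hw0 M, ← hdet, hσw w hwb hw0]
      exact norm_d_le _ _
  · -- conjugate linear case
    set p1 := y P1 g1 * (starRingEnd ℂ) (y P1 g0) with hp1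
    have hσw : ∀ w, w ≠ wb → w ≠ 0 → (starRingEnd ℂ) w * σ w = w * p1 := by
      intro w hwb hw0
      have e := congrArg (starRingEnd ℂ) (hcase w hwb)
      simpa using e
    have hp0 : p1 ≠ 0 := by
      intro hh
      have e1 := hσw ww hww1 hww0
      rw [hh, mul_zero] at e1
      have e2 : σ ww = 0 := by
        rcases mul_eq_zero.1 e1 with h3 | h3
        · exact absurd ((map_eq_zero _).1 h3) hww0
        · exact h3
      have := hσ1 ww hww1 hww0
      rw [e2, norm_zero] at this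
      exact hc0 (norm_eq_zero.1 this.symm)
    have hR : ∀ w, w ≠ wb → w ≠ 0 → ‖(starRingEnd ℂ) (y M g0) + (starRingEnd ℂ) w *
        (starRingEnd ℂ) (y M g1)‖ = R2 ((starRingEnd ℂ) w * s + p1 * 2)
        ((starRingEnd ℂ) w ^ 2 * (C g1).det + (starRingEnd ℂ) w * p1 * (C g1).trace + p1 ^ 2) := by
      intro w hwb hw0
      have hcw : (starRingEnd ℂ) w ≠ 0 := fun hh => hw0 ((map_eq_zero _).1 hh)
      rw [← map_mul, ← map_add, RCLike.norm_conj, hσ2 w hwb hw0 M, htr, hdet]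
      have e1 := hσw w hwb hw0
      have e2 : w * s + σ w * 2 = (w / (starRingEnd ℂ) w) * ((starRingEnd ℂ) w * s + p1 * 2) := by
        field_simp
        linear_combination 2 * e1
      have e3 : w ^ 2 * (C g1).det + w * σ w * (C g1).trace + σ w ^ 2 =
          (w / (starRingEnd ℂ) w) ^ 2 * ((starRingEnd ℂ) w ^ 2 * (C g1).det +
          (starRingEnd ℂ) w * p1 * (C g1).trace + p1 ^ 2) := by
        field_simp
        linear_combination (w * (starRingEnd ℂ) w * (C g1).trace +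
          (starRingEnd ℂ) w * σ w + w * p1) * e1
      have e4 : ‖w / (starRingEnd ℂ) w‖ = 1 := by
        rw [norm_div, RCLike.norm_conj]
        exact div_self (norm_ne_zero_iff.2 hw0)
      rw [e2, e3, R2_smul, e4, one_mul]
    refine fin_step_j4199 hs hs2 hp0 (hfin ((starRingEnd ℂ) wb)) (A := (starRingEnd ℂ) (y M g0))
      (B := (starRingEnd ℂ) (y M g1)) ?_ ?_ (by rw [RCLike.norm_conj]; exact hBs)
    · intro w hwF
      have hwb : (starRingEnd ℂ) w ≠ wb := fun hh => hwF (by simp [← hh])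
      have hw0 : (starRingEnd ℂ) w ≠ 0 := fun hh => hwF (by simp [(map_eq_zero _).1 hh])
      have e := hR _ hwb hw0
      rw [Complex.conj_conj] at e
      rw [e]
      exact norm_t_le _ _
    · intro w hwF
      have hwb : (starRingEnd ℂ) w ≠ wb := fun hh => hwF (by simp [← hh])
      have hw0 : (starRingEnd ℂ) w ≠ 0 := fun hh => hwF (by simp [(map_eq_zero _).1 hh])
      have e := hR _ hwb hw0
      rw [Complex.conj_conj] at e
      rw [e]
      exact norm_d_le _ _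


end j4199

-- part 4222
section j4222
variable {Y : Type*} [NormedAddCommGroup Y] [NormedSpace ℂ Y]

theorem DET_A1_j4222 (Ψ : M2 → (Y →L[ℂ] Y)) (C : Y → (Y →L[ℂ] ℂ) → M2)
    (h : ∀ u g, g u ≠ 0 → ∀ M, ‖g (Ψ M u)‖ = R2 (M * C u g).trace (M * C u g).det)
    (u : Y) (g g' : Y →L[ℂ] ℂ) (hg : g u ≠ 0) (hg' : g' u ≠ 0) (c : ℂ) (hc : c ≠ 0)
    (hC : C u g = c • 1) : ∃ s : ℂ, C u g' = s • 1 := by
  refine AL1 (G := Y →L[ℂ] ℂ)
    (fun M => { toFun := fun k => k (Ψ M u), map_add' := fun a b => rfl,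
                map_smul' := fun a b => rfl })
    (fun k => C u k) (fun k => k u ≠ 0) (fun k hk M => h u k hk M) (g0 := g) (g1 := g') hg hg'
    (-(g u) / g' u) ?_ hc hC
  intro w hw h1
  apply hw
  have h2 : g u + w * g' u = 0 := h1
  field_simp
  linear_combination h2

theorem DET_A2_j4222 (Ψ : M2 → (Y →L[ℂ] Y)) (C : Y → (Y →L[ℂ] ℂ) → M2)
    (h : ∀ u g, g u ≠ 0 → ∀ M, ‖g (Ψ M u)‖ = R2 (M * C u g).trace (M * C u g).det)
    (u u' : Y) (g : Y →L[ℂ] ℂ) (hg : g u ≠ 0) (hg' : g u' ≠ 0) (c : ℂ) (hc : c ≠ 0)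
    (hC : C u g = c • 1) : ∃ s : ℂ, C u' g = s • 1 := by
  refine AL1 (G := Y)
    (fun M => { toFun := fun k => g (Ψ M k), map_add' := fun a b => by rw [map_add, map_add],
                map_smul' := fun a b => by rw [map_smul, map_smul]; rfl })
    (fun k => C k g) (fun k => g k ≠ 0) (fun k hk M => h k g hk M) (g0 := u) (g1 := u') hg hg'
    (-(g u) / g u') ?_ hc hC
  intro w hw h1
  apply hw
  rw [map_add, map_smul, smul_eq_mul] at h1
  field_simp
  linear_combination h1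

theorem DET_nil_j4222 (Ψ : M2 → (Y →L[ℂ] Y)) (C : Y → (Y →L[ℂ] ℂ) → M2)
    (h : ∀ u g, g u ≠ 0 → ∀ M, ‖g (Ψ M u)‖ = R2 (M * C u g).trace (M * C u g).det)
    (u : Y) (g : Y →L[ℂ] ℂ) (hg : g u ≠ 0) (s : ℂ) (hC : C u g = s • 1) :
    g (Ψ !![0, 1; 0, 0] u) = 0 := by
  have h1 := h u g hg !![0, 1; 0, 0]
  rw [hC] at h1
  have h2 : ((!![0, 1; 0, 0] : M2) * s • (1 : M2)).trace = 0 := by
    rw [mul_smul_comm, mul_one, Matrix.trace_smul, Matrix.trace_fin_two]
    simp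
  have h3 : ((!![0, 1; 0, 0] : M2) * s • (1 : M2)).det = 0 := by
    rw [mul_smul_comm, mul_one, Matrix.det_smul, Matrix.det_fin_two]
    simp
  rw [h2, h3, (R2_eq_zero_iff 0 0).2 ⟨rfl, rfl⟩] at h1
  exact norm_eq_zero.1 h1

theorem DET_one_j4222 (Ψ : M2 → (Y →L[ℂ] Y)) (C : Y → (Y →L[ℂ] ℂ) → M2)
    (h : ∀ u g, g u ≠ 0 → ∀ M, ‖g (Ψ M u)‖ = R2 (M * C u g).trace (M * C u g).det)
    (u : Y) (g : Y →L[ℂ] ℂ) (hg : g u ≠ 0) (s : ℂ) (hC : C u g = s • 1) :
    ‖g (Ψ 1 u)‖ = ‖s‖ := by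
  have h1 := h u g hg 1
  rw [hC, one_mul] at h1
  have h2 : (s • (1 : M2)).trace = 2 * s := by
    rw [Matrix.trace_smul, Matrix.trace_one]
    simp
    ring
  have h3 : (s • (1 : M2)).det = s ^ 2 := by
    rw [Matrix.det_smul, Matrix.det_one]
    simp
  rw [h2, h3, R2_scalar] at h1
  exact h1

theorem DET_norm_j4222 (Ψ : M2 → (Y →L[ℂ] Y)) (C : Y → (Y →L[ℂ] ℂ) → M2)
    (h : ∀ u g, g u ≠ 0 → ∀ M, ‖g (Ψ M u)‖ = R2 (M * C u g).trace (M * C u g).det)
    (hN : Ψ !![0, 1; 0, 0] ≠ 0) (u0 : Y) (g0 : Y →L[ℂ] ℂ) (hgu : g0 u0 ≠ 0)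
    (hC0 : C u0 g0 = 1) : False := by
  set N : Y →L[ℂ] Y := Ψ !![0, 1; 0, 0] with hNdef
  have hC1 : C u0 g0 = (1 : ℂ) • 1 := by rw [hC0, one_smul]
  have hgN0 : ∀ g : Y →L[ℂ] ℂ, g u0 ≠ 0 → g (N u0) = 0 := by
    intro g hg
    obtain ⟨s, hs⟩ := DET_A1_j4222 Ψ C h u0 g0 g hgu hg 1 one_ne_zero hC1
    exact DET_nil_j4222 Ψ C h u0 g hg s hs
  have hgN : ∀ g : Y →L[ℂ] ℂ, g (N u0) = 0 := by
    intro g
    by_cases hg : g u0 = 0
    · have h1 : (g + g0) (N u0) = 0 := by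
        apply hgN0
        rw [add_apply, hg, zero_add]
        exact hgu
      rw [add_apply, hgN0 g0 hgu, add_zero] at h1
      exact h1
    · exact hgN0 g hg
  have hNu0 : N u0 = 0 := SeparatingDual.eq_zero_of_forall_dual_eq_zero (R := ℂ) hgN
  have hg0N' : ∀ u : Y, g0 u ≠ 0 → g0 (N u) = 0 := by
    intro u hu
    obtain ⟨s, hs⟩ := DET_A2_j4222 Ψ C h u0 u g0 hgu hu 1 one_ne_zero hC1
    exact DET_nil_j4222 Ψ C h u g0 hu s hs
  have hg0N : ∀ u : Y, g0 (N u) = 0 := by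
    intro u
    by_cases hu : g0 u = 0
    · have h1 : g0 (N (u + u0)) = 0 := by
        apply hg0N'
        rw [map_add, hu, zero_add]
        exact hgu
      rw [map_add, hNu0, add_zero] at h1
      exact h1
    · exact hg0N' u hu
  have hstar : ∀ (u : Y) (g : Y →L[ℂ] ℂ), g0 u ≠ 0 → g u ≠ 0 → g (N u) ≠ 0 →
      g0 (Ψ 1 u) = 0 := by
    intro u g h1 h2 h3
    obtain ⟨c, hc⟩ := DET_A2_j4222 Ψ C h u0 u g0 hgu h1 1 one_ne_zero hC1
    by_cases hc0 : c = 0
    · have h4 := DET_one_j4222 Ψ C h u g0 h1 c hc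
      rw [hc0, norm_zero] at h4
      exact norm_eq_zero.1 h4
    · exfalso
      obtain ⟨s, hs⟩ := DET_A1_j4222 Ψ C h u g0 g h1 h2 c hc0 hc
      exact h3 (DET_nil_j4222 Ψ C h u g h2 s hs)
  -- choose `u1`, `g1`
  obtain ⟨u1, hu1⟩ : ∃ u1, N u1 ≠ 0 := by
    by_contra hcon
    push Not at hcon
    apply hN
    ext u
    rw [hcon u]
    rfl
  obtain ⟨g1, hg1⟩ : ∃ g1 : Y →L[ℂ] ℂ, g1 (N u1) ≠ 0 := by
    by_contra hcon
    push Not at hcon
    exact hu1 (SeparatingDual.eq_zero_of_forall_dual_eq_zero (R := ℂ) hcon)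
  obtain ⟨g2, hg2, hg2u⟩ : ∃ g2 : Y →L[ℂ] ℂ, g2 (N u1) ≠ 0 ∧ g2 u0 ≠ 0 := by
    by_cases hz : g1 u0 = 0
    · refine ⟨g1 + g0, ?_, ?_⟩
      · rw [add_apply, hg0N, add_zero]
        exact hg1
      · rw [add_apply, hz, zero_add]
        exact hgu
    · exact ⟨g1, hg1, hz⟩
  have hline : ∀ s : ℂ, s ≠ -(g0 u1) / g0 u0 → s ≠ -(g2 u1) / g2 u0 →
      g0 (Ψ 1 u1) + s * g0 (Ψ 1 u0) = 0 := by
    intro s hs1 hs2
    have h1 := hstar (u1 + s • u0) g2 (by
      intro h2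
      apply hs1
      rw [map_add, map_smul, smul_eq_mul] at h2
      field_simp
      linear_combination h2) (by
      intro h2
      apply hs2
      rw [map_add, map_smul, smul_eq_mul] at h2
      field_simp
      linear_combination h2) (by
      rw [map_add, map_smul, hNu0, smul_zero, add_zero]
      exact hg2)
    rw [map_add, map_smul, map_add, map_smul, smul_eq_mul] at h1
    exact h1
  classical
  obtain ⟨s1, hs1⟩ := Infinite.exists_notMem_finset
    ({-(g0 u1) / g0 u0, -(g2 u1) / g2 u0} : Finset ℂ)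
  obtain ⟨s2, hs2⟩ := Infinite.exists_notMem_finset
    ({-(g0 u1) / g0 u0, -(g2 u1) / g2 u0, s1} : Finset ℂ)
  simp only [Finset.mem_insert, Finset.mem_singleton, not_or] at hs1 hs2
  have h1 := hline s1 hs1.1 hs1.2
  have h2 := hline s2 hs2.1 hs2.2.1
  have h3 : (s2 - s1) * g0 (Ψ 1 u0) = 0 := by linear_combination h2 - h1
  have h4 : g0 (Ψ 1 u0) = 0 := by
    rcases mul_eq_zero.1 h3 with h5 | h5
    · exact absurd (sub_eq_zero.1 h5) hs2.2.2
    · exact h5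
  have h5 := DET_one_j4222 Ψ C h u0 g0 hgu 1 hC1
  rw [h4] at h5
  simp at h5

theorem DET_AB (Ψ : M2 → (Y →L[ℂ] Y)) (C : Y → (Y →L[ℂ] ℂ) → M2)
    (h : ∀ u g, g u ≠ 0 → ∀ M, ‖g (Ψ M u)‖ = R2 (M * C u g).trace (M * C u g).det)
    (h0 : ∀ M, Ψ M = 0 → M = 0) (u : Y) (g : Y →L[ℂ] ℂ) (hgu : g u ≠ 0) : (C u g).det = 0 := by
  by_contra hdet
  have hunit : IsUnit (C u g).det := isUnit_iff_ne_zero.2 hdet
  refine DET_norm_j4222 (fun M => Ψ (M * (C u g)⁻¹)) (fun u' g' => (C u g)⁻¹ * C u' g') ?_ ?_ u g hgu ?_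
  · intro u' g' hg' M
    have := h u' g' hg' (M * (C u g)⁻¹)
    rw [mul_assoc] at this
    exact this
  · intro hz
    have h1 := h0 _ hz
    have h2 : (!![0, 1; 0, 0] : M2) = 0 := by
      calc (!![0, 1; 0, 0] : M2) = !![0, 1; 0, 0] * (C u g)⁻¹ * C u g := by
            rw [mul_assoc, Matrix.nonsing_inv_mul _ hunit, mul_one]
        _ = 0 := by rw [h1, zero_mul]
    have h3 := congrFun (congrFun h2 0) 1
    simp at h3
  · exact Matrix.nonsing_inv_mul _ hunit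


end j4222

-- part 4223
section j4223
variable {Y : Type*} [NormedAddCommGroup Y] [NormedSpace ℂ Y]

theorem dn_sep_j4223 (P : Submodule ℂ Y) [FiniteDimensional ℂ P] {x : Y} (hx : x ∉ P) :
    ∃ g : Y →L[ℂ] ℂ, (∀ y ∈ P, g y = 0) ∧ g x ≠ 0 := by
  obtain ⟨π, hπ⟩ := Submodule.ClosedComplemented.of_finiteDimensional P
  have h1 : x - (π x : Y) ≠ 0 := by
    intro h
    apply hx
    rw [sub_eq_zero.mp h]
    exact (π x).2
  obtain ⟨k, hk⟩ := SeparatingDual.exists_ne_zero (R := ℂ) h1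
  refine ⟨k.comp (ContinuousLinearMap.id ℂ Y - P.subtypeL.comp π), fun y hy => ?_, ?_⟩
  · have h2 : π y = ⟨y, hy⟩ := hπ ⟨y, hy⟩
    simp [h2]
  · simpa using hk

theorem dn_span_ne_top_j4223 (hd : ∃ x y z : Y, LinearIndependent ℂ ![x, y, z]) (a b : Y) :
    Submodule.span ℂ {a, b} ≠ ⊤ := by
  classical
  intro h
  obtain ⟨x, y, z, hli⟩ := hd
  have h1 := linearIndependent_le_span_finset _ hli ({a, b} : Finset Y)
    (by rw [Finset.coe_pair]; exact h)
  have h2 : ({a, b} : Finset Y).card ≤ 2 := Finset.card_le_two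
  rw [Cardinal.mk_fin] at h1
  have h3 : 3 ≤ ({a, b} : Finset Y).card := by exact_mod_cast h1
  omega

/-- a map for which all vectors off three proper planes are eigenvectors is scalar -/
theorem scalar_of_generic {a1 b1 a2 b2 a3 b3 : Y} (hd : ∃ x y z : Y, LinearIndependent ℂ ![x, y, z])
    (N : Y →L[ℂ] Y)
    (h : ∀ u, u ∉ Submodule.span ℂ {a1, b1} → u ∉ Submodule.span ℂ {a2, b2} →
      u ∉ Submodule.span ℂ {a3, b3} → ∃ c : ℂ, N u = c • u) : ∃ c : ℂ, N = c • 1 := by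
  -- a vector off the three planes
  obtain ⟨v, hv1, hv2, hv3⟩ : ∃ v : Y, v ∉ Submodule.span ℂ {a1, b1} ∧
      v ∉ Submodule.span ℂ {a2, b2} ∧ v ∉ Submodule.span ℂ {a3, b3} := by
    by_contra hcon
    push Not at hcon
    have hcov : ⋃ i : Fin 3, ((![Submodule.span ℂ {a1, b1}, Submodule.span ℂ {a2, b2},
        Submodule.span ℂ {a3, b3}] i : Submodule ℂ Y) : Set Y) = Set.univ := by
      rw [Set.eq_univ_iff_forall]
      intro v
      rw [Set.mem_iUnion]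
      by_cases h1 : v ∈ Submodule.span ℂ {a1, b1}
      · exact ⟨0, h1⟩
      · by_cases h2 : v ∈ Submodule.span ℂ {a2, b2}
        · exact ⟨1, h2⟩
        · exact ⟨2, hcon v h1 h2⟩
    obtain ⟨i, hi⟩ := Subspace.exists_eq_top_of_iUnion_eq_univ hcov
    fin_cases i
    · exact dn_span_ne_top_j4223 hd _ _ hi
    · exact dn_span_ne_top_j4223 hd _ _ hi
    · exact dn_span_ne_top_j4223 hd _ _ hi
  -- for all but finitely many t the vector u + t v is off the planes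
  have hoff : ∀ (P : Submodule ℂ Y), v ∉ P → ∀ u : Y, ∀ᶠ t : ℂ in 𝓝[≠] 0, u + t • v ∉ P := by
    intro P hP u
    by_cases hex : ∃ t0 : ℂ, t0 ≠ 0 ∧ u + t0 • v ∈ P
    · obtain ⟨t0, ht0, ht0P⟩ := hex
      have h1 : ∀ᶠ t : ℂ in 𝓝[≠] 0, t ≠ t0 :=
        (eventually_ne_nhds ht0.symm).filter_mono nhdsWithin_le_nhds
      filter_upwards [h1] with t ht htP
      apply hP
      have h2 : (t - t0) • v ∈ P := by
        have h3 := P.sub_mem htP ht0P
        have h4 : u + t • v - (u + t0 • v) = (t - t0) • v := by rw [sub_smul]; abel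
        rw [h4] at h3
        exact h3
      exact (P.smul_mem_iff (sub_ne_zero.mpr ht)).mp h2
    · push Not at hex
      filter_upwards [self_mem_nhdsWithin] with t ht
      exact hex t ht
  have hpol : ∀ (u : Y) (k l : Y →L[ℂ] ℂ), k (N u) * l u = l (N u) * k u := by
    intro u k l
    have hcont : Continuous fun t : ℂ =>
        k (N (u + t • v)) * l (u + t • v) - l (N (u + t • v)) * k (u + t • v) := by
      fun_prop
    have h1 : Tendsto (fun t : ℂ =>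
        k (N (u + t • v)) * l (u + t • v) - l (N (u + t • v)) * k (u + t • v)) (𝓝[≠] 0)
        (𝓝 (k (N u) * l u - l (N u) * k u)) := by
      have := (hcont.tendsto 0).mono_left (nhdsWithin_le_nhds (s := {0}ᶜ))
      simpa using this
    have h2 : Tendsto (fun t : ℂ =>
        k (N (u + t • v)) * l (u + t • v) - l (N (u + t • v)) * k (u + t • v)) (𝓝[≠] 0) (𝓝 0) := by
      refine tendsto_const_nhds.congr' ?_
      filter_upwards [hoff _ hv1 u, hoff _ hv2 u, hoff _ hv3 u] with t h1 h2 h3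
      obtain ⟨c, hc⟩ := h _ h1 h2 h3
      rw [hc, map_smul, map_smul, smul_eq_mul, smul_eq_mul]
      ring
    exact sub_eq_zero.mp (tendsto_nhds_unique h1 h2)
  have heig : ∀ u : Y, ∃ c : ℂ, N u = c • u := by
    intro u
    by_cases hu : u = 0
    · exact ⟨0, by rw [hu]; simp⟩
    · obtain ⟨l, hl⟩ := SeparatingDual.exists_eq_one (R := ℂ) hu
      refine ⟨l (N u), ?_⟩
      rw [SeparatingDual.eq_iff_forall_dual_eq (R := ℂ)]
      intro k
      have := hpol u k l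
      rw [hl, mul_one] at this
      rw [this, map_smul, smul_eq_mul]
  -- all vectors are eigenvectors
  have hv0 : v ≠ 0 := by
    intro h0
    apply hv1
    rw [h0]; exact Submodule.zero_mem _
  obtain ⟨c, hc⟩ := heig v
  refine ⟨c, ContinuousLinearMap.ext fun u => ?_⟩
  change N u = c • u
  by_cases hu : u ∈ Submodule.span ℂ {v}
  · obtain ⟨a, rfl⟩ := Submodule.mem_span_singleton.mp hu
    rw [map_smul, hc, smul_comm]
  · obtain ⟨d, hdu⟩ := heig u
    obtain ⟨e, he⟩ := heig (u + v)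
    rw [map_add, hdu, hc, smul_add] at he
    have h1 : (d - e) • u = (e - c) • v := by
      rw [sub_smul, sub_smul, sub_eq_sub_iff_add_eq_add, he]; abel
    have h2 : d = e := by
      by_contra hne
      apply hu
      rw [Submodule.mem_span_singleton]
      refine ⟨(d - e)⁻¹ * (e - c), ?_⟩
      rw [mul_smul, ← h1, smul_smul, inv_mul_cancel₀ (sub_ne_zero.mpr hne), one_smul]
    rw [h2, sub_self, zero_smul] at h1
    have h3 : e = c := by
      rcases smul_eq_zero.mp h1.symm with h | h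
      · exact sub_eq_zero.mp h
      · exact absurd h hv0
    rw [hdu, h2, h3]

theorem dn_mem_right_j4223 {P : Submodule ℂ Y} {a b : ℂ} {x y : Y} (h : a • x + b • y ∈ P)
    (hy : y ∈ P) (ha : a ≠ 0) : x ∈ P := by
  have h1 : a • x ∈ P := by
    have := P.sub_mem h (P.smul_mem b hy)
    simpa using this
  exact (P.smul_mem_iff ha).mp h1

theorem dn_aux_j4223 (hd : ∃ x y z : Y, LinearIndependent ℂ ![x, y, z])
    (Ψ : M2 → (Y →L[ℂ] Y)) (C : Y → (Y →L[ℂ] ℂ) → M2)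
    (h : ∀ u g, g u = 0 → ∀ M, ‖g (Ψ M u)‖ = R2 (M * C u g).trace (M * C u g).det)
    (h0 : ∀ M, (∃ c : ℂ, Ψ M = c • 1) → M = 0) (u0 : Y) (g0 : Y →L[ℂ] ℂ) (hgu : g0 u0 = 0)
    (hC0 : C u0 g0 = 1) : False := by
  have facti : ∀ (u : Y) (g g' : Y →L[ℂ] ℂ) (c : ℂ), c ≠ 0 → g u = 0 → g' u = 0 →
      C u g = c • 1 → ∃ s : ℂ, C u g' = s • 1 := by
    intro u g g' c hc hg hg' hC
    exact AL1 (G := Y →L[ℂ] ℂ)
      (fun M => { toFun := fun g => g (Ψ M u), map_add' := fun _ _ => rfl,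
                  map_smul' := fun _ _ => rfl })
      (C u) (fun g => g u = 0) (fun g hg M => h u g hg M) hg hg' 0
      (fun w _ => by simp [hg, hg']) hc hC
  have facti' : ∀ (u u' : Y) (g : Y →L[ℂ] ℂ) (c : ℂ), c ≠ 0 → g u = 0 → g u' = 0 →
      C u g = c • 1 → ∃ s : ℂ, C u' g = s • 1 := by
    intro u u' g c hc hg hg' hC
    exact AL1 (G := Y) (fun M => (g.comp (Ψ M)).toLinearMap)
      (fun u => C u g) (fun u => g u = 0) (fun u hu M => h u g hu M) hg hg' 0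
      (fun w _ => by simp [hg, hg']) hc hC
  let M0 : M2 := !![0, 1; 0, 0]
  have hM0 : M0 ≠ 0 := by
    intro hz
    have := congrFun (congrFun hz 0) 1
    simp [M0] at this
  set R : Y →L[ℂ] Y := Ψ 1 with hR
  set N : Y →L[ℂ] Y := Ψ M0 with hN
  have factR : ∀ (u : Y) (g : Y →L[ℂ] ℂ) (s : ℂ), g u = 0 → C u g = s • 1 → ‖g (R u)‖ = ‖s‖ := by
    intro u g s hg hC
    have h1 := h u g hg 1
    rw [hC, one_mul] at h1
    rw [h1]
    have ht : (s • (1 : M2)).trace = 2 * s := by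
      rw [Matrix.trace_smul, Matrix.trace_one]; simp [mul_comm]
    have hdt : (s • (1 : M2)).det = s ^ 2 := by
      rw [Matrix.det_smul, Matrix.det_one]; simp
    rw [ht, hdt, R2_scalar]
  have factN : ∀ (u : Y) (g : Y →L[ℂ] ℂ) (s : ℂ), g u = 0 → C u g = s • 1 → g (N u) = 0 := by
    intro u g s hg hC
    have h1 := h u g hg M0
    have hm : M0 * C u g = s • M0 := by rw [hC, Matrix.mul_smul, mul_one]
    have ht : (s • M0).trace = 0 := by
      rw [Matrix.trace_smul]; simp [M0, Matrix.trace_fin_two]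
    have hdt : (s • M0).det = 0 := by
      rw [Matrix.det_smul]; simp [M0, Matrix.det_fin_two]
    rw [hm, ht, hdt, (R2_eq_zero_iff 0 0).mpr ⟨rfl, rfl⟩] at h1
    exact norm_eq_zero.mp h1
  -- Claim A
  have claimA : ∀ (u1 : Y) (g1 : Y →L[ℂ] ℂ) (c : ℂ), c ≠ 0 → g1 u1 = 0 → C u1 g1 = c • 1 →
      ∀ u, R u1 ∉ Submodule.span ℂ {u, u1} → N u ∈ Submodule.span ℂ {u, u1} := by
    intro u1 g1 c hc hg1 hC u hRu
    have kill : ∀ g : Y →L[ℂ] ℂ, g u = 0 → g u1 = 0 → g (R u1) ≠ 0 → g (N u) = 0 := by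
      intro g hgu hgu1 hgR
      obtain ⟨s, hs⟩ := facti u1 g1 g c hc hg1 hgu1 hC
      have hs0 : s ≠ 0 := by
        intro hs0
        apply hgR
        rw [← norm_eq_zero, factR u1 g s hgu1 hs, hs0, norm_zero]
      obtain ⟨s', hs'⟩ := facti' u1 u g s hs0 hgu1 hgu hs
      exact factN u g s' hgu hs'
    haveI : FiniteDimensional ℂ (Submodule.span ℂ {u, u1} : Submodule ℂ Y) :=
      FiniteDimensional.span_of_finite ℂ (Set.toFinite _)
    by_contra hNu
    obtain ⟨g, hgP, hgN⟩ := dn_sep_j4223 _ hNu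
    obtain ⟨gs, hgsP, hgsR⟩ := dn_sep_j4223 _ hRu
    have hu_mem : u ∈ Submodule.span ℂ {u, u1} := Submodule.subset_span (by simp)
    have hu1_mem : u1 ∈ Submodule.span ℂ {u, u1} := Submodule.subset_span (by simp)
    by_cases hgR : g (R u1) = 0
    · have h1 := kill (g + gs) (by simp [hgP _ hu_mem, hgsP _ hu_mem])
        (by simp [hgP _ hu1_mem, hgsP _ hu1_mem]) (by simpa [hgR] using hgsR)
      have h2 := kill gs (hgsP _ hu_mem) (hgsP _ hu1_mem) hgsR
      apply hgN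
      have h3 : (g + gs) (N u) = g (N u) + gs (N u) := rfl
      rw [h3, h2, add_zero] at h1
      exact h1
    · exact hgN (kill g (hgP _ hu_mem) (hgP _ hu1_mem) hgR)
  -- Claim B
  have hC0' : C u0 g0 = (1 : ℂ) • 1 := by rw [hC0, one_smul]
  have hgR0 : g0 (R u0) ≠ 0 := by
    intro hz
    have := factR u0 g0 1 hgu hC0'
    rw [hz, norm_zero, norm_one] at this
    exact zero_ne_one this
  obtain ⟨u', hu'g, hu'⟩ : ∃ u' : Y, g0 u' = 0 ∧ u' ∉ Submodule.span ℂ {u0} := by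
    by_contra hcon
    push Not at hcon
    apply dn_span_ne_top_j4223 hd u0 (R u0)
    rw [eq_top_iff]
    intro y _
    have h1 : g0 (y - (g0 y / g0 (R u0)) • R u0) = 0 := by
      rw [map_sub, map_smul, smul_eq_mul, div_mul_cancel₀ _ hgR0, sub_self]
    obtain ⟨a, ha⟩ := Submodule.mem_span_singleton.mp (hcon _ h1)
    rw [Submodule.mem_span_pair]
    refine ⟨a, g0 y / g0 (R u0), ?_⟩
    rw [ha]; abel
  obtain ⟨u1, hu1g, hu1, hu1R⟩ : ∃ u1 : Y, g0 u1 = 0 ∧ u1 ∉ Submodule.span ℂ {u0} ∧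
      g0 (R u1) ≠ 0 := by
    by_cases hz : g0 (R u') = 0
    · refine ⟨u0 + u', by simp [hgu, hu'g], ?_, ?_⟩
      · intro hmem
        apply hu'
        have h1 := (Submodule.span ℂ {u0}).sub_mem hmem (Submodule.mem_span_singleton_self u0)
        simpa using h1
      · rw [map_add, map_add, hz, add_zero]
        exact hgR0
    · exact ⟨u', hu'g, hu', hz⟩
  obtain ⟨c1, hc1⟩ := facti' u0 u1 g0 1 one_ne_zero hgu hu1g hC0'
  have hc1' : c1 ≠ 0 := by
    intro hz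
    apply hu1R
    rw [← norm_eq_zero, factR u1 g0 c1 hu1g hc1, hz, norm_zero]
  have hu0ne : u0 ∉ Submodule.span ℂ {u1} := by
    intro hmem
    obtain ⟨a, ha⟩ := Submodule.mem_span_singleton.mp hmem
    have ha0 : a ≠ 0 := by
      intro hz
      rw [hz, zero_smul] at ha
      apply hgR0
      rw [← ha]; simp
    apply hu1
    rw [Submodule.mem_span_singleton]
    exact ⟨a⁻¹, by rw [← ha, smul_smul, inv_mul_cancel₀ ha0, one_smul]⟩
  -- general: R w not in span {u, w}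
  have hRnot : ∀ w : Y, g0 w = 0 → g0 (R w) ≠ 0 → ∀ u, u ∉ Submodule.span ℂ {w, R w} →
      R w ∉ Submodule.span ℂ {u, w} := by
    intro w hw hRw u hu hmem
    obtain ⟨a, b, hab⟩ := Submodule.mem_span_pair.mp hmem
    have ha : a ≠ 0 := by
      intro hz
      rw [hz, zero_smul, zero_add] at hab
      apply hRw
      rw [← hab, map_smul, hw, smul_zero]
    apply hu
    refine dn_mem_right_j4223 (a := a) (b := b) (y := w) ?_ (Submodule.subset_span (by simp)) ha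
    rw [hab]
    exact Submodule.subset_span (by simp)
  obtain ⟨c, hc⟩ := scalar_of_generic (a1 := u0) (b1 := R u0) (a2 := u1) (b2 := R u1)
    (a3 := u0) (b3 := u1) hd N (by
      intro u h1 h2 h3
      have k1 := claimA u0 g0 1 one_ne_zero hgu hC0' u (hRnot u0 hgu hgR0 u h1)
      have k2 := claimA u1 g0 c1 hc1' hu1g hc1 u (hRnot u1 hu1g hu1R u h2)
      obtain ⟨a, b, hab⟩ := Submodule.mem_span_pair.mp k1
      obtain ⟨a', d, had⟩ := Submodule.mem_span_pair.mp k2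
      have haa : a = a' := by
        by_contra hne
        apply h3
        have h4 : (a - a') • u + b • u0 = d • u1 := by
          have : a • u + b • u0 = a' • u + d • u1 := by rw [hab, had]
          rw [sub_smul]
          have h5 : a • u - a' • u + b • u0 = (a • u + b • u0) - a' • u := by abel
          rw [h5, this]; abel
        refine dn_mem_right_j4223 (a := a - a') (b := b) (y := u0) ?_ (Submodule.subset_span (by simp))
          (sub_ne_zero.mpr hne)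
        rw [h4]
        exact Submodule.smul_mem _ _ (Submodule.subset_span (by simp))
      have hbd : b • u0 = d • u1 := by
        have : a • u + b • u0 = a • u + d • u1 := by rw [hab, haa, had]
        exact add_left_cancel this
      have hb0 : b = 0 := by
        by_contra hne
        apply hu0ne
        rw [Submodule.mem_span_singleton]
        exact ⟨b⁻¹ * d, by rw [mul_smul, ← hbd, smul_smul, inv_mul_cancel₀ hne, one_smul]⟩
      exact ⟨a, by rw [← hab, hb0, zero_smul, add_zero]⟩)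
  exact hM0 (h0 M0 ⟨c, hc⟩)

theorem DET_N (hd : ∃ x y z : Y, LinearIndependent ℂ ![x, y, z])
    (Ψ : M2 → (Y →L[ℂ] Y)) (C : Y → (Y →L[ℂ] ℂ) → M2)
    (h : ∀ u g, g u = 0 → ∀ M, ‖g (Ψ M u)‖ = R2 (M * C u g).trace (M * C u g).det)
    (h0 : ∀ M, (∃ c : ℂ, Ψ M = c • 1) → M = 0) (u : Y) (g : Y →L[ℂ] ℂ) (hgu : g u = 0) :
    (C u g).det = 0 := by
  by_contra hdet
  have hunit : IsUnit (C u g).det := isUnit_iff_ne_zero.mpr hdet
  set C0 : M2 := C u g with hC0
  have h1 : C0⁻¹ * C0 = 1 := Matrix.nonsing_inv_mul C0 hunit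
  refine dn_aux_j4223 hd (fun M => Ψ (M * C0⁻¹)) (fun v f => C0⁻¹ * C v f) ?_ ?_ u g hgu h1
  · intro v f hf M
    have := h v f hf (M * C0⁻¹)
    rw [mul_assoc] at this
    exact this
  · intro M hM
    have h2 : M * C0⁻¹ = 0 := h0 _ hM
    calc M = (M * C0⁻¹) * C0 := by rw [mul_assoc, h1, mul_one]
      _ = 0 := by rw [h2, zero_mul]


end j4223

-- part 4229
section j4229
variable {X : Type*} [NormedAddCommGroup X] [NormedSpace ℂ X]

theorem dual4_j4229 (v : Fin 4 → X) (hv : LinearIndependent ℂ v) (i : Fin 4) :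
    ∃ g : X →L[ℂ] ℂ, ∀ j, g (v j) = if j = i then 1 else 0 := by
  have hfd : FiniteDimensional ℂ (Submodule.span ℂ (Set.range v)) :=
    FiniteDimensional.span_of_finite ℂ (Set.finite_range v)
  let b := Module.Basis.span hv
  let f0 : Submodule.span ℂ (Set.range v) →L[ℂ] ℂ := LinearMap.toContinuousLinearMap (b.coord i)
  obtain ⟨g, hg, _⟩ := exists_extension_norm_eq (𝕜 := ℂ) (Submodule.span ℂ (Set.range v)) f0
  refine ⟨g, fun j => ?_⟩
  have hj : v j ∈ Submodule.span ℂ (Set.range v) := Submodule.subset_span ⟨j, rfl⟩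
  have h1 := hg ⟨v j, hj⟩
  have h2 : (⟨v j, hj⟩ : Submodule.span ℂ (Set.range v)) = b j := by
    exact (Module.Basis.span_apply hv j).symm
  rw [h2] at h1
  have h3 : g ((b j : Submodule.span ℂ (Set.range v)) : X) = g (v j) := by rw [← h2]
  rw [← h3, h1]
  show b.coord i (b j) = _
  rw [Module.Basis.coord_apply, Module.Basis.repr_self, Finsupp.single_apply]

theorem H1gen_j4229 (S : X →L[ℂ] X)
    (h : ∀ (a : Fin 2 → X) (f : Fin 2 → (X →L[ℂ] ℂ)), (∀ i j, f i (a j) = 0) →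
      (CC a f S).det = 0) (v : Fin 4 → X) (hv : LinearIndependent ℂ v) (a b : X)
    (i0 i1 i2 i3 : Fin 4) (h20 : i0 ≠ i2) (h21 : i1 ≠ i2) (h23 : i3 ≠ i2) (h30 : i0 ≠ i3)
    (h31 : i1 ≠ i3) (e0 : v i0 = a) (e1 : v i1 = b) (e2 : v i2 = S a) (e3 : v i3 = S b) :
    False := by
  obtain ⟨g2, hg2⟩ := dual4_j4229 v hv i2
  obtain ⟨g3, hg3⟩ := dual4_j4229 v hv i3
  have h1 := h ![a, b] ![g2, g3] (by
    intro i j
    fin_cases i <;> fin_cases j
    · show g2 a = 0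
      rw [← e0, hg2, if_neg h20]
    · show g2 b = 0
      rw [← e1, hg2, if_neg h21]
    · show g3 a = 0
      rw [← e0, hg3, if_neg h30]
    · show g3 b = 0
      rw [← e1, hg3, if_neg h31])
  rw [Matrix.det_fin_two] at h1
  have c00 : CC ![a, b] ![g2, g3] S 0 0 = 1 := by
    show g2 (S a) = 1
    rw [← e2, hg2, if_pos rfl]
  have c01 : CC ![a, b] ![g2, g3] S 0 1 = 0 := by
    show g2 (S b) = 0
    rw [← e3, hg2, if_neg h23]
  have c10 : CC ![a, b] ![g2, g3] S 1 0 = 0 := by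
    show g3 (S a) = 0
    rw [← e2, hg3, if_neg (Ne.symm h23)]
  have c11 : CC ![a, b] ![g2, g3] S 1 1 = 1 := by
    show g3 (S b) = 1
    rw [← e3, hg3, if_pos rfl]
  rw [c00, c01, c10, c11] at h1
  norm_num at h1

theorem L4_j4229 (hd : ∃ v : Fin 4 → X, LinearIndependent ℂ v) (w : Fin 3 → X) :
    ∃ x, x ∉ Submodule.span ℂ (Set.range w) := by
  by_contra hcon
  push Not at hcon
  obtain ⟨v, hv⟩ := hd
  have htop : Submodule.span ℂ (Set.range w) = ⊤ := by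
    rw [Submodule.eq_top_iff']
    exact hcon
  have hfd : FiniteDimensional ℂ X := by
    have h1 : FiniteDimensional ℂ (Submodule.span ℂ (Set.range w)) :=
      FiniteDimensional.span_of_finite ℂ (Set.finite_range w)
    rw [htop] at h1
    exact Module.Finite.of_surjective ((⊤ : Submodule ℂ X).subtype) (fun x => ⟨⟨x, trivial⟩, rfl⟩)
  have h1 := hv.fintype_card_le_finrank
  have h2 : Module.finrank ℂ (Submodule.span ℂ (Set.range w)) ≤ Fintype.card (Fin 3) :=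
    finrank_range_le_card w
  rw [htop, finrank_top] at h2
  simp at h1 h2
  omega

theorem mem_cons_j4229 {n : ℕ} (w : Fin n → X) (v x : X) :
    x ∈ Submodule.span ℂ (Set.range (Fin.cons v w : Fin (n + 1) → X)) ↔
      ∃ c : ℂ, x - c • v ∈ Submodule.span ℂ (Set.range w) := by
  rw [Fin.range_cons, Submodule.mem_span_insert]
  constructor
  · rintro ⟨c, z, hz, rfl⟩
    exact ⟨c, by simpa using hz⟩
  · rintro ⟨c, hc⟩
    exact ⟨c, _, hc, by abel⟩

theorem rank_one_case_j4229 (T : X →L[ℂ] X) (hT : ∀ u w, ¬ LinearIndependent ℂ ![T u, T w]) :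
    ∃ (x : X) (f : X →L[ℂ] ℂ), T = rk x f := by
  by_cases h0 : T = 0
  · refine ⟨0, 0, ?_⟩
    rw [h0]
    ext v
    simp
  · obtain ⟨u, hu⟩ : ∃ u, T u ≠ 0 := by
      by_contra hcon
      push Not at hcon
      exact h0 (ContinuousLinearMap.ext hcon)
    obtain ⟨g, hg⟩ := SeparatingDual.exists_eq_one (R := ℂ) hu
    refine ⟨T u, g.comp T, ?_⟩
    ext w
    have h1 := hT u w
    rw [LinearIndependent.pair_iff' hu] at h1
    push Not at h1
    obtain ⟨c, hc⟩ := h1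
    show T w = g (T w) • T u
    rw [← hc, map_smul, hg, smul_eq_mul, mul_one]

/-- In dimension at least four, an operator whose 2 × 2 compressions `f i (S (a j))` with
`f i (a j) = 0` are all singular is scalar plus rank at most one. -/
theorem RK4 (hd : ∃ v : Fin 4 → X, LinearIndependent ℂ v) (S : X →L[ℂ] X)
    (h : ∀ (a : Fin 2 → X) (f : Fin 2 → (X →L[ℂ] ℂ)), (∀ i j, f i (a j) = 0) →
      (CC a f S).det = 0) :
    ∃ (ν : ℂ) (x : X) (f : X →L[ℂ] ℂ), S = ν • 1 + rk x f := by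
  by_cases hsc : ∀ v, ¬ LinearIndependent ℂ ![v, (S : X →ₗ[ℂ] X) v]
  · obtain ⟨a, ha⟩ := LinearMap.exists_eq_smul_id_of_forall_notLinearIndependent hsc
    refine ⟨a, 0, 0, ?_⟩
    ext v
    have := LinearMap.congr_fun ha v
    simpa using this
  push Not at hsc
  obtain ⟨a1, ha1⟩ := hsc
  have ha1' : LinearIndependent ℂ ![a1, S a1] := ha1
  set P : Submodule ℂ X := Submodule.span ℂ (Set.range ![a1, S a1]) with hP
  -- step 1
  have h2 : ∀ v, v ∉ P → ∃ c : ℂ, S v - c • v ∈ P := by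
    intro v hv
    by_contra hcon
    have hli3 : LinearIndependent ℂ (Fin.cons v ![a1, S a1] : Fin 3 → X) :=
      linearIndependent_finCons.mpr ⟨ha1', hv⟩
    have hli4 : LinearIndependent ℂ (Fin.cons (S v) (Fin.cons v ![a1, S a1] : Fin 3 → X) : Fin 4 → X) := by
      refine linearIndependent_finCons.mpr ⟨hli3, ?_⟩
      rw [mem_cons_j4229]
      exact hcon
    exact H1gen_j4229 S h _ hli4 a1 v 2 1 3 0 (by decide) (by decide) (by decide) (by decide) (by decide)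
      rfl rfl rfl rfl
  -- dimension facts
  have hnP : ∃ v, v ∉ P := by
    obtain ⟨x, hx⟩ := L4_j4229 hd (Fin.cons 0 ![a1, S a1] : Fin 3 → X)
    refine ⟨x, fun hxP => hx ?_⟩
    rw [mem_cons_j4229]
    refine ⟨0, ?_⟩
    rw [smul_zero, sub_zero]
    exact hxP
  have hnPv : ∀ v, ∃ v', ∀ c : ℂ, v' - c • v ∉ P := by
    intro v
    obtain ⟨x, hx⟩ := L4_j4229 hd (Fin.cons v ![a1, S a1] : Fin 3 → X)
    refine ⟨x, fun c hc => hx ?_⟩
    rw [mem_cons_j4229]
    exact ⟨c, hc⟩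
  -- step 2
  have h3 : ∀ p ∈ P, ∀ v, v ∉ P → ∃ c : ℂ, S p - c • v ∈ P := by
    intro p hp v hv
    obtain ⟨c, hc⟩ := h2 v hv
    obtain ⟨c', hc'⟩ := h2 (p + v) (fun hpv => hv (by simpa using P.sub_mem hpv hp))
    refine ⟨c' - c, ?_⟩
    have e : S p - (c' - c) • v = (S (p + v) - c' • (p + v)) - (S v - c • v) + c' • p := by
      rw [map_add]; module
    rw [e]
    exact P.add_mem (P.sub_mem hc' hc) (P.smul_mem _ hp)
  have hSP : ∀ p ∈ P, S p ∈ P := by
    intro p hp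
    obtain ⟨v, hv⟩ := hnP
    obtain ⟨v', hv'⟩ := hnPv v
    have hv'P : v' ∉ P := by
      intro h1
      apply hv' 0
      simpa using h1
    obtain ⟨c, hc⟩ := h3 p hp v hv
    obtain ⟨c', hc'⟩ := h3 p hp v' hv'P
    by_cases hc0 : c' = 0
    · rw [hc0] at hc'
      simpa using hc'
    · exfalso
      apply hv' (c'⁻¹ * c)
      have e : v' - (c'⁻¹ * c) • v = c'⁻¹ • ((S p - c • v) - (S p - c' • v')) := by
        rw [smul_sub, smul_sub, smul_sub, smul_smul, smul_smul, inv_mul_cancel₀ hc0]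
        module
      rw [e]
      exact P.smul_mem _ (P.sub_mem hc hc')
  -- step 3
  obtain ⟨v0, hv0⟩ := hnP
  obtain ⟨c0, hc0⟩ := h2 v0 hv0
  have h4 : ∀ x, S x - c0 • x ∈ P := by
    intro x
    by_cases hx : ∃ t : ℂ, x - t • v0 ∈ P
    · obtain ⟨t, ht⟩ := hx
      have e : S x - c0 • x = (S (x - t • v0) - c0 • (x - t • v0)) + t • (S v0 - c0 • v0) := by
        rw [map_sub, map_smul]; module
      rw [e]
      exact P.add_mem (P.sub_mem (hSP _ ht) (P.smul_mem _ ht)) (P.smul_mem _ hc0)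
    · push Not at hx
      have hxP : x ∉ P := by
        intro h1
        apply hx 0
        simpa using h1
      obtain ⟨c, hc⟩ := h2 x hxP
      obtain ⟨d, hdd⟩ := h2 (x + v0) (by
        intro h1
        apply hx (-1)
        simpa using h1)
      have h5 : (c - d) • x + (c0 - d) • v0 ∈ P := by
        have e : (c - d) • x + (c0 - d) • v0 =
            (S (x + v0) - d • (x + v0)) - (S x - c • x) - (S v0 - c0 • v0) := by
          rw [map_add]; module
        rw [e]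
        exact P.sub_mem (P.sub_mem hdd hc) hc0
      have hcd : c - d = 0 := by
        by_contra hne
        apply hx (-((c - d)⁻¹ * (c0 - d)))
        have e : x - (-((c - d)⁻¹ * (c0 - d))) • v0 = (c - d)⁻¹ • ((c - d) • x + (c0 - d) • v0) := by
          rw [smul_add, smul_smul, smul_smul, inv_mul_cancel₀ hne]
          module
        rw [e]
        exact P.smul_mem _ h5
      have hc0d : c0 - d = 0 := by
        by_contra hne
        apply hv0
        rw [hcd, zero_smul, zero_add] at h5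
        have := P.smul_mem (c0 - d)⁻¹ h5
        rwa [smul_smul, inv_mul_cancel₀ hne, one_smul] at this
      have : c = c0 := by
        rw [sub_eq_zero] at hcd hc0d
        rw [hcd, hc0d]
      rw [← this]
      exact hc
  -- step 4
  set T : X →L[ℂ] X := S - c0 • 1 with hT
  have hTx : ∀ x, T x = S x - c0 • x := fun x => rfl
  have hTh : ∀ (a : Fin 2 → X) (f : Fin 2 → (X →L[ℂ] ℂ)), (∀ i j, f i (a j) = 0) →
      (CC a f T).det = 0 := by
    intro a f haf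
    have e : CC a f T = CC a f S := by
      ext i j
      show f i (T (a j)) = f i (S (a j))
      rw [hTx, map_sub, map_smul, haf i j, smul_zero, sub_zero]
    rw [e]
    exact h a f haf
  have hrk : ∀ u w, ¬ LinearIndependent ℂ ![T u, T w] := by
    intro u w huw
    have hfd : FiniteDimensional ℂ P := FiniteDimensional.span_of_finite ℂ (Set.finite_range _)
    have hspan : Submodule.span ℂ (Set.range ![T u, T w]) = P := by
      apply Submodule.eq_of_le_of_finrank_eq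
      · rw [Submodule.span_le]
        rintro _ ⟨i, rfl⟩
        fin_cases i
        · exact h4 u
        · exact h4 w
      · rw [finrank_span_eq_card huw, hP, finrank_span_eq_card ha1']
    have hdec : ∀ x, ∃ α β : ℂ, T x = α • T u + β • T w := by
      intro x
      have h5 : T x ∈ Submodule.span ℂ (Set.range ![T u, T w]) := by
        rw [hspan]; exact h4 x
      rw [Matrix.range_cons, Matrix.range_cons, Matrix.range_empty, Set.union_empty,
        Set.singleton_union, Submodule.mem_span_pair] at h5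
      obtain ⟨α, β, hαβ⟩ := h5
      exact ⟨α, β, hαβ.symm⟩
    -- choose a
    obtain ⟨a, haT, haP⟩ : ∃ a, T a = T u ∧ a ∉ P := by
      by_contra hcon
      push Not at hcon
      have huP : u ∈ P := hcon u rfl
      have hker : ∀ k, T k = 0 → k ∈ P := by
        intro k hk
        have h6 := hcon (u + k) (by rw [map_add, hk, add_zero])
        simpa using P.sub_mem h6 huP
      obtain ⟨x, hx⟩ := hnPv w
      obtain ⟨α, β, hαβ⟩ := hdec x
      apply hx β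
      have h7 : T (x - α • u - β • w) = 0 := by
        rw [map_sub, map_sub, map_smul, map_smul, hαβ]; abel
      have h8 := P.add_mem (hker _ h7) (P.smul_mem α huP)
      have e : x - β • w = (x - α • u - β • w) + α • u := by abel
      rw [e]
      exact h8
    obtain ⟨b, hbT, hbP⟩ : ∃ b, T b = T w ∧ ∀ c : ℂ, b - c • a ∉ P := by
      by_contra hcon
      push Not at hcon
      obtain ⟨cw, hcw⟩ := hcon w rfl
      have hker : ∀ k, T k = 0 → ∃ c : ℂ, k - c • a ∈ P := by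
        intro k hk
        obtain ⟨c, hc⟩ := hcon (w + k) (by rw [map_add, hk, add_zero])
        refine ⟨c - cw, ?_⟩
        have e : k - (c - cw) • a = (w + k - c • a) - (w - cw • a) := by module
        rw [e]
        exact P.sub_mem hc hcw
      obtain ⟨x, hx⟩ := hnPv a
      obtain ⟨α, β, hαβ⟩ := hdec x
      have h7 : T (x - α • a - β • w) = 0 := by
        rw [map_sub, map_sub, map_smul, map_smul, hαβ, haT]; abel
      obtain ⟨ck, hck⟩ := hker _ h7
      apply hx (ck + α + β * cw)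
      have e : x - (ck + α + β * cw) • a = (x - α • a - β • w - ck • a) + β • (w - cw • a) := by
        module
      rw [e]
      exact P.add_mem hck (P.smul_mem _ hcw)
    have hli3 : LinearIndependent ℂ (Fin.cons a ![T u, T w] : Fin 3 → X) := by
      refine linearIndependent_finCons.mpr ⟨huw, ?_⟩
      rw [hspan]
      exact haP
    have hli4 : LinearIndependent ℂ (Fin.cons b (Fin.cons a ![T u, T w] : Fin 3 → X) : Fin 4 → X) := by
      refine linearIndependent_finCons.mpr ⟨hli3, ?_⟩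
      rw [mem_cons_j4229, hspan]
      push Not
      exact hbP
    exact H1gen_j4229 T hTh _ hli4 a b 1 0 2 3 (by decide) (by decide) (by decide) (by decide) (by decide)
      rfl rfl haT.symm hbT.symm
  obtain ⟨x, f, hxf⟩ := rank_one_case_j4229 T hrk
  refine ⟨c0, x, f, ?_⟩
  rw [← hxf, hT]
  abel


end j4229

-- part 4230
section j4230
section
variable {X Y : Type*} [NormedAddCommGroup X] [NormedSpace ℂ X]
  [NormedAddCommGroup Y] [NormedSpace ℂ Y]

/-- an operator such that `S a`, `S b` are always dependent has rank at most one -/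
theorem rank_one_of_dep (S : X →L[ℂ] X)
    (h : ∀ a b, ¬ LinearIndependent ℂ ![S a, S b]) : ∃ x f, S = rk x f := by
  by_cases hS : S = 0
  · refine ⟨0, 0, ?_⟩
    rw [hS]
    ext v
    simp [rk]
  · have hex : ∃ a, S a ≠ 0 := by
      by_contra hcon
      push Not at hcon
      exact hS (ContinuousLinearMap.ext hcon)
    obtain ⟨a, ha⟩ := hex
    obtain ⟨g, hg⟩ := SeparatingDual.exists_eq_one (R := ℂ) ha
    refine ⟨S a, g.comp S, ?_⟩
    ext b
    have h1 := h a b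
    rw [LinearIndependent.pair_iff' ha] at h1
    push Not at h1
    obtain ⟨c, hc⟩ := h1
    have h2 : g (S b) = c := by
      rw [← hc, map_smul, hg]; simp
    simp only [rk, ContinuousLinearMap.smulRight_apply, ContinuousLinearMap.comp_apply, h2]
    exact hc.symm

theorem TT_apply_j4230 (a : Fin 2 → X) (f : Fin 2 → (X →L[ℂ] ℂ)) (M : M2) (v : X) :
    TT a f M v = ∑ i, (∑ j, M i j * f j v) • a i := by
  unfold TT
  simp only [ContinuousLinearMap.sum_apply, ContinuousLinearMap.smul_apply, rk,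
    ContinuousLinearMap.smulRight_apply, Finset.sum_smul, mul_smul]

theorem TT_inj {a : Fin 2 → X} {f : Fin 2 → (X →L[ℂ] ℂ)} (ha : LinearIndependent ℂ a)
    (hf : LinearIndependent ℂ f) {M : M2} (h : TT a f M = 0) : M = 0 := by
  rw [Fintype.linearIndependent_iff] at ha hf
  have h1 : ∀ v i, ∑ j, M i j * f j v = 0 := by
    intro v
    apply ha
    rw [← TT_apply_j4230, h]
    rfl
  ext i j
  refine hf (fun j => M i j) ?_ j
  ext v
  simp only [ContinuousLinearMap.sum_apply, ContinuousLinearMap.smul_apply, smul_eq_mul,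
    ContinuousLinearMap.zero_apply]
  exact h1 v i

theorem exists_dual_pair_j4230 {y0 y1 : X} (h : LinearIndependent ℂ ![y0, y1]) :
    ∃ f0 f1 : X →L[ℂ] ℂ, f0 y0 = 1 ∧ f0 y1 = 0 ∧ f1 y0 = 0 ∧ f1 y1 = 1 := by
  have hy0 : y0 ≠ 0 := h.ne_zero 0
  obtain ⟨g0, hg0⟩ := SeparatingDual.exists_eq_one (R := ℂ) hy0
  have hy1 : y1 - g0 y1 • y0 ≠ 0 := by
    intro h1
    rw [LinearIndependent.pair_iff' hy0] at h
    exact h (g0 y1) (sub_eq_zero.1 h1).symm
  obtain ⟨h1, hh1⟩ := SeparatingDual.exists_eq_one (R := ℂ) hy1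
  have e1 : h1 y1 - g0 y1 * h1 y0 = 1 := by
    rw [← hh1, map_sub, map_smul, smul_eq_mul]
  refine ⟨g0 - g0 y1 • (h1 - h1 y0 • g0), h1 - h1 y0 • g0, ?_, ?_, ?_, ?_⟩
  · simp [hg0]
  · simp only [ContinuousLinearMap.sub_apply, ContinuousLinearMap.smul_apply, smul_eq_mul]
    linear_combination -(g0 y1) * e1
  · simp [hg0]
  · simp only [ContinuousLinearMap.sub_apply, ContinuousLinearMap.smul_apply, smul_eq_mul]
    linear_combination e1

theorem rank_one_AB [CompleteSpace X] (φ : (X →L[ℂ] X) → (Y →L[ℂ] Y))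
    (h0 : ∀ T, φ T = 0 → T = 0) (E : Y → (Y →L[ℂ] ℂ) → (X →L[ℂ] X))
    (hE : ∀ u g, g u ≠ 0 → ∀ T, ‖g (φ T u)‖ = sr (T * E u g)) (u : Y) (g : Y →L[ℂ] ℂ)
    (hgu : g u ≠ 0) : ∃ x f, E u g = rk x f := by
  by_contra hcon
  have hex : ∃ a0 a1, LinearIndependent ℂ ![E u g a0, E u g a1] := by
    by_contra h1
    push Not at h1
    exact hcon (rank_one_of_dep (E u g) h1)
  obtain ⟨a0, a1, hli⟩ := hex
  obtain ⟨f0, f1, h00, h01, h10, h11⟩ := exists_dual_pair_j4230 hli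
  set a : Fin 2 → X := ![a0, a1] with ha
  set f : Fin 2 → (X →L[ℂ] ℂ) := ![f0, f1] with hf
  have hCC : CC a f (E u g) = 1 := by
    ext i j
    fin_cases i <;> fin_cases j <;> simp [CC, ha, hf, h00, h01, h10, h11]
  have hdet := DET_AB (fun M => φ (TT a f M)) (fun u g => CC a f (E u g))
    (fun u g hgu M => by rw [hE u g hgu, sr_TT_mul]) (fun M hM => by
      apply TT_inj (a := a) (f := f) _ _ (h0 _ hM)
      · rw [Fintype.linearIndependent_iff]
        intro c hc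
        have h1 := (Fintype.linearIndependent_iff.1 hli) c
        apply h1
        have h2 := congrArg (E u g) hc
        rw [map_sum, map_zero] at h2
        simp only [map_smul, Fin.sum_univ_two, ha] at h2
        simpa [Fin.sum_univ_two] using h2
      · rw [Fintype.linearIndependent_iff]
        intro c hc
        have h2 : ∀ v, c 0 * f0 v + c 1 * f1 v = 0 := by
          intro v
          have := congrArg (fun F : X →L[ℂ] ℂ => F v) hc
          simpa [Fin.sum_univ_two, hf] using this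
        intro i
        fin_cases i
        · have := h2 (E u g a0)
          simpa [h00, h10] using this
        · have := h2 (E u g a1)
          simpa [h01, h11] using this) u g hgu
  simp only [hCC, Matrix.det_one] at hdet
  exact one_ne_zero hdet

theorem special_N (hd : ∃ x y z : Y, LinearIndependent ℂ ![x, y, z])
    (φ : (X →L[ℂ] X) → (Y →L[ℂ] Y))
    (h0 : ∀ T, (∃ c : ℂ, φ T = c • 1) → ∃ c : ℂ, T = c • 1) (S : Y → (Y →L[ℂ] ℂ) → (X →L[ℂ] X))
    (hS : ∀ u g, g u = 0 → ∀ (a : Fin 2 → X) (f : Fin 2 → (X →L[ℂ] ℂ)), (∀ i j, f i (a j) = 0) →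
      ∀ M, ‖g (φ (TT a f M) u)‖ = R2 (M * CC a f (S u g)).trace (M * CC a f (S u g)).det)
    (u : Y) (g : Y →L[ℂ] ℂ) (hgu : g u = 0)
    (a : Fin 2 → X) (f : Fin 2 → (X →L[ℂ] ℂ)) (haf : ∀ i j, f i (a j) = 0) :
    (CC a f (S u g)).det = 0 := by
  by_contra hdet
  have hlia : LinearIndependent ℂ a := by
    rw [Fintype.linearIndependent_iff]
    intro c hc
    have h1 : (CC a f (S u g)).mulVec c = 0 := by
      ext i
      have h2 : f i (S u g (∑ j, c j • a j)) = 0 := by rw [hc]; simp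
      rw [map_sum, map_sum] at h2
      simp only [map_smul, smul_eq_mul] at h2
      simp only [Matrix.mulVec, dotProduct, CC, Matrix.of_apply, Pi.zero_apply]
      rw [← h2]
      exact Finset.sum_congr rfl fun j _ => mul_comm _ _
    have h3 := Matrix.eq_zero_of_mulVec_eq_zero hdet h1
    intro i
    rw [h3]; rfl
  have hlif : LinearIndependent ℂ f := by
    rw [Fintype.linearIndependent_iff]
    intro c hc
    have h1 : Matrix.vecMul c (CC a f (S u g)) = 0 := by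
      ext j
      have h2 : (∑ i, c i • f i) (S u g (a j)) = 0 := by rw [hc]; simp
      simp only [ContinuousLinearMap.sum_apply, ContinuousLinearMap.smul_apply,
        smul_eq_mul] at h2
      simp only [Matrix.vecMul, dotProduct, CC, Matrix.of_apply, Pi.zero_apply]
      exact h2
    have h3 := Matrix.eq_zero_of_vecMul_eq_zero hdet h1
    intro i
    rw [h3]; rfl
  apply hdet
  refine DET_N hd (fun M => φ (TT a f M)) (fun u g => CC a f (S u g))
    (fun u g hgu M => hS u g hgu a f haf M) (fun M hM => ?_) u g hgu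
  obtain ⟨c, hc⟩ := h0 _ hM
  apply TT_inj hlia hlif
  have h1 : TT a f M (a 0) = 0 := by
    rw [TT_apply_j4230]
    simp [haf]
  rw [hc] at h1
  have h2 : c • a 0 = 0 := h1
  rcases smul_eq_zero.1 h2 with h3 | h3
  · rw [hc, h3, zero_smul]
  · exact absurd h3 (hlia.ne_zero 0)

end


end j4230

-- part 4320
section j4320
section wig
variable {V Y : Type*} [NormedAddCommGroup V] [NormedSpace ℂ V]
  [NormedAddCommGroup Y] [NormedSpace ℂ Y]

lemma aux_one_j4320 (f0 : V →L[ℂ] ℂ) (hf0 : f0 ≠ 0) : ∃ v0, f0 v0 = 1 := by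
  obtain ⟨v, hv⟩ : ∃ v, f0 v ≠ 0 := by
    by_contra hcon
    push Not at hcon
    exact hf0 (by ext v; simpa using hcon v)
  exact ⟨(f0 v)⁻¹ • v, by rw [map_smul, smul_eq_mul, inv_mul_cancel₀ hv]⟩

lemma aux_mult_j4320 (f0 P : V →L[ℂ] ℂ) (hf0 : f0 ≠ 0) (h : ∀ k, f0 k = 0 → P k = 0) :
    ∃ κ : ℂ, ∀ v, P v = κ * f0 v := by
  obtain ⟨v0, hv0⟩ := aux_one_j4320 f0 hf0
  refine ⟨P v0, fun v => ?_⟩
  have h1 : f0 (v - f0 v • v0) = 0 := by
    rw [map_sub, map_smul, hv0, smul_eq_mul, mul_one, sub_self]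
  have h2 := h _ h1
  rw [map_sub, map_smul, smul_eq_mul, sub_eq_zero] at h2
  rw [h2, mul_comm]

lemma aux_zero_j4320 (wb z : ℂ) (h : ∀ w, w ≠ wb → (w * z).re = 0) : z = 0 := by
  by_contra hz
  have key : ∀ t : ℝ, 0 < t → (t : ℂ) * (starRingEnd ℂ) z ≠ wb → False := by
    intro t ht hne
    have h1 := h _ hne
    rw [mul_assoc, mul_comm ((starRingEnd ℂ) z) z, Complex.mul_conj] at h1
    have h2 : ((t : ℂ) * (Complex.normSq z : ℂ)).re = t * Complex.normSq z := by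
      rw [← Complex.ofReal_mul, Complex.ofReal_re]
    rw [h2] at h1
    have h3 := Complex.normSq_pos.2 hz
    have := mul_pos ht h3
    linarith
  by_cases h1 : ((1 : ℝ) : ℂ) * (starRingEnd ℂ) z = wb
  · refine key 2 (by norm_num) ?_
    intro h2
    rw [← h2] at h1
    have h3 : (starRingEnd ℂ) z = 0 := by
      have : ((2 : ℝ) : ℂ) * (starRingEnd ℂ) z - ((1 : ℝ) : ℂ) * (starRingEnd ℂ) z = 0 := by
        rw [h1]; ring
      push_cast at this
      linear_combination this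
    rw [map_eq_zero] at h3
    exact hz h3
  · exact key 1 one_pos h1

lemma aux_sq_j4320 (A B : ℂ) : ‖A + B‖ ^ 2 = ‖A‖ ^ 2 + ‖B‖ ^ 2 + 2 * (B * (starRingEnd ℂ) A).re := by
  rw [← Complex.normSq_eq_norm_sq, ← Complex.normSq_eq_norm_sq, ← Complex.normSq_eq_norm_sq,
    Complex.normSq_add]
  have : (A * (starRingEnd ℂ) B).re = (B * (starRingEnd ℂ) A).re := by
    simp [Complex.mul_re]; ring
  rw [this]

theorem wig_pair (W : V → Y) (u : Y)
    (h : ∀ g : Y →L[ℂ] ℂ, g u ≠ 0 → ∃ f : V →L[ℂ] ℂ, ∀ v, ‖g (W v)‖ = ‖f v‖)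
    (g0 : Y →L[ℂ] ℂ) (hg0 : g0 u ≠ 0) (f0 : V →L[ℂ] ℂ) (hf0 : f0 ≠ 0)
    (h0 : ∀ v, ‖g0 (W v)‖ = ‖f0 v‖) (g1 : Y →L[ℂ] ℂ) (hg1 : g1 u ≠ 0) :
    (∃ F : V →L[ℂ] ℂ, ∀ v, g1 (W v) * (starRingEnd ℂ) (g0 (W v)) = F v * (starRingEnd ℂ) (f0 v)) ∨
    (∃ F : V →L[ℂ] ℂ, ∀ v, g1 (W v) * (starRingEnd ℂ) (g0 (W v)) =
      (starRingEnd ℂ) (F v) * f0 v) := by
  obtain ⟨f1, h1⟩ := h g1 hg1
  set wb : ℂ := -(g0 u) / g1 u with hwb
  have hne : ∀ w, w ≠ wb → (g0 + w • g1) u ≠ 0 := by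
    intro w hw hz
    apply hw
    rw [add_apply, smul_apply, smul_eq_mul] at hz
    rw [hwb, eq_div_iff hg1]
    linear_combination hz
  obtain ⟨p, hp⟩ : ∃ p : V → ℂ, p = fun v => g1 (W v) * (starRingEnd ℂ) (g0 (W v)) := ⟨_, rfl⟩
  have hpv : ∀ v, g1 (W v) * (starRingEnd ℂ) (g0 (W v)) = p v := fun v => by rw [hp]
  have hexp : ∀ w v, ‖(g0 + w • g1) (W v)‖ ^ 2 =
      ‖f0 v‖ ^ 2 + ‖w‖ ^ 2 * ‖f1 v‖ ^ 2 + 2 * (w * p v).re := by
    intro w v
    rw [add_apply, smul_apply, smul_eq_mul, aux_sq_j4320, h0,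
      norm_mul, h1, mul_pow, mul_assoc, hpv]
  by_cases hlin : ∃ κ : ℂ, ∀ v, f1 v = κ * f0 v
  · -- dependent
    left
    obtain ⟨κ, hκ⟩ := hlin
    obtain ⟨v0, hv0⟩ := aux_one_j4320 f0 hf0
    refine ⟨p v0 • f0, fun v => ?_⟩
    have key : p v - p v0 * (f0 v * (starRingEnd ℂ) (f0 v)) = 0 := by
      refine aux_zero_j4320 wb _ fun w hw => ?_
      obtain ⟨fw, hfw⟩ := h (g0 + w • g1) (hne w hw)
      have hker : ∀ k, f0 k = 0 → fw k = 0 := by
        intro k hk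
        have e1 := hexp w k
        rw [hfw, hκ k, hk] at e1
        have e2 : g0 (W k) = 0 := by
          rw [← norm_eq_zero, h0, hk, norm_zero]
        have e3 : p k = 0 := by rw [hp]; simp [e2]
        rw [e3] at e1
        simp at e1
        exact e1
      obtain ⟨κw, hκw⟩ := aux_mult_j4320 f0 fw hf0 hker
      have e1 := hexp w v
      have e0 := hexp w v0
      rw [hfw, hκw, hκ, norm_mul, norm_mul] at e1 e0
      rw [hv0, norm_one] at e0
      have e4 : (w * (p v - p v0 * (f0 v * (starRingEnd ℂ) (f0 v)))).re =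
          (w * p v).re - (w * p v0).re * ‖f0 v‖ ^ 2 := by
        rw [Complex.mul_conj, Complex.normSq_eq_norm_sq, mul_sub, Complex.sub_re, ← mul_assoc,
          Complex.re_mul_ofReal]
      rw [e4]
      nlinarith
    rw [sub_eq_zero] at key
    rw [hpv, key, smul_apply, smul_eq_mul, mul_assoc]
  · -- independent
    push Not at hlin
    obtain ⟨b', hb'0, hb'1⟩ : ∃ b', f0 b' = 0 ∧ f1 b' ≠ 0 := by
      by_contra hcon
      push Not at hcon
      obtain ⟨κ, hκ⟩ := aux_mult_j4320 f0 f1 hf0 hcon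
      obtain ⟨v, hv⟩ := hlin κ
      exact hv (hκ v)
    obtain ⟨v0, hv0⟩ := aux_one_j4320 f0 hf0
    obtain ⟨b, hb0, hb1⟩ : ∃ b, f0 b = 0 ∧ f1 b = 1 :=
      ⟨(f1 b')⁻¹ • b', by rw [map_smul, hb'0, smul_zero],
        by rw [map_smul, smul_eq_mul, inv_mul_cancel₀ hb'1]⟩
    obtain ⟨a, ha0, ha1⟩ : ∃ a, f0 a = 1 ∧ f1 a = 0 :=
      ⟨v0 - f1 v0 • b, by rw [map_sub, map_smul, hb0, smul_zero, sub_zero, hv0],
        by rw [map_sub, map_smul, hb1, smul_eq_mul, mul_one, sub_self]⟩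
    have hτex : ∀ w, ∃ τ : ℂ, w ≠ wb → ‖τ‖ = ‖w‖ ∧ ∀ v,
        (w * p v).re = (τ * (f1 v * (starRingEnd ℂ) (f0 v))).re := by
      intro w
      by_cases hw : w = wb
      · exact ⟨0, fun h' => absurd hw h'⟩
      obtain ⟨fw, hfw⟩ := h (g0 + w • g1) (hne w hw)
      have hker : ∀ k, f0 k = 0 → f1 k = 0 → fw k = 0 := by
        intro k hk hk1
        have e1 := hexp w k
        rw [hfw, hk1, hk] at e1
        have e2 : g0 (W k) = 0 := by
          rw [← norm_eq_zero, h0, hk, norm_zero]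
        have e3 : p k = 0 := by rw [hp]; simp [e2]
        rw [e3] at e1
        simp at e1
        exact e1
      have hdec : ∀ v, fw v = fw a * f0 v + fw b * f1 v := by
        intro v
        have e1 := hker (v - f0 v • a - f1 v • b)
          (by rw [map_sub, map_sub, map_smul, map_smul, ha0, hb0]; simp)
          (by rw [map_sub, map_sub, map_smul, map_smul, ha1, hb1]; simp)
        rw [map_sub, map_sub, map_smul, map_smul, smul_eq_mul, smul_eq_mul] at e1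
        linear_combination e1
      have hpa : p a = 0 := by
        have : g1 (W a) = 0 := by rw [← norm_eq_zero, h1, ha1, norm_zero]
        rw [hp]; simp [this]
      have hpb : p b = 0 := by
        have : g0 (W b) = 0 := by rw [← norm_eq_zero, h0, hb0, norm_zero]
        rw [hp]; simp [this]
      have hα : ‖fw a‖ ^ 2 = 1 := by
        rw [← hfw, hexp, hpa, ha0, ha1]; simp
      have hβ : ‖fw b‖ ^ 2 = ‖w‖ ^ 2 := by
        rw [← hfw, hexp, hpb, hb0, hb1]; simp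
      refine ⟨fw b * (starRingEnd ℂ) (fw a), fun _ => ⟨?_, fun v => ?_⟩⟩
      · have e1 : ‖fw a‖ = 1 := by
          have := norm_nonneg (fw a)
          nlinarith
        have e2 : ‖fw b‖ = ‖w‖ := (sq_eq_sq₀ (norm_nonneg _) (norm_nonneg _)).1 hβ
        rw [norm_mul, RCLike.norm_conj, e1, e2, mul_one]
      · have e1 := hexp w v
        rw [hfw, hdec, aux_sq_j4320, norm_mul, norm_mul, mul_pow, mul_pow, hα, hβ] at e1
        have e2 : fw b * f1 v * (starRingEnd ℂ) (fw a * f0 v) =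
            fw b * (starRingEnd ℂ) (fw a) * (f1 v * (starRingEnd ℂ) (f0 v)) := by
          rw [map_mul]; ring
        rw [e2] at e1
        linarith
    choose τ hτ using hτex
    have hv1 : ∀ w, w ≠ wb → (τ w).re = (w * p (a + b)).re := by
      intro w hw
      rw [((hτ w hw).2 (a + b)), map_add, map_add, ha0, hb0, ha1, hb1]
      simp
    have hvI : ∀ w, w ≠ wb → (Complex.I * τ w).re = (w * p (a + Complex.I • b)).re := by
      intro w hw
      rw [((hτ w hw).2 (a + Complex.I • b)), map_add, map_add, map_smul, map_smul, ha0, hb0, ha1, hb1]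
      simp
    have hr : ∀ w, w ≠ wb → ‖τ w‖ = ‖w‖ * 1 := fun w hw => by rw [(hτ w hw).1, mul_one]
    rcases tau_form wb τ _ _ hv1 hvI one_pos hr with hc | hc
    · left
      refine ⟨p (a + b) • f1, fun v => ?_⟩
      have key : p v - p (a + b) * (f1 v * (starRingEnd ℂ) (f0 v)) = 0 := by
        refine aux_zero_j4320 wb _ fun w hw => ?_
        have e1 := (hτ w hw).2 v
        rw [hc w hw] at e1
        rw [mul_sub, Complex.sub_re, e1, mul_assoc, sub_self]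
      rw [sub_eq_zero] at key
      rw [hpv, key, smul_apply, smul_eq_mul, mul_assoc]
    · right
      refine ⟨(starRingEnd ℂ) (p (a + b)) • f1, fun v => ?_⟩
      have key : p v - p (a + b) * ((starRingEnd ℂ) (f1 v) * f0 v) = 0 := by
        refine aux_zero_j4320 wb _ fun w hw => ?_
        have e1 := (hτ w hw).2 v
        rw [hc w hw] at e1
        rw [mul_sub, Complex.sub_re, e1]
        have e2 : (starRingEnd ℂ) (w * p (a + b)) * (f1 v * (starRingEnd ℂ) (f0 v)) =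
            (starRingEnd ℂ) (w * (p (a + b) * ((starRingEnd ℂ) (f1 v) * f0 v))) := by
          simp only [map_mul, Complex.conj_conj]; ring
        rw [e2, Complex.conj_re, sub_self]
      rw [sub_eq_zero] at key
      rw [hpv, key, smul_apply, smul_eq_mul, map_mul, Complex.conj_conj]
      ring

lemma aux_type_j4320 (f0 P G : V →L[ℂ] ℂ) (hf0 : f0 ≠ 0)
    (h : ∀ v, (starRingEnd ℂ) (P v) * f0 v = G v * (starRingEnd ℂ) (f0 v)) :
    ∃ κ : ℂ, ∀ v, P v = κ * f0 v := by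
  refine aux_mult_j4320 f0 P hf0 fun k hk => ?_
  obtain ⟨v1, hv1⟩ := aux_one_j4320 f0 hf0
  have e1 := h (k + (1 : ℂ) • v1)
  have e2 := h (k + (-1 : ℂ) • v1)
  have e3 := h (k + Complex.I • v1)
  simp only [map_add, map_smul, smul_eq_mul, hk, hv1, zero_add, mul_one, map_mul, map_one, map_neg,
    Complex.conj_I, one_mul, neg_mul, mul_neg] at e1 e2 e3
  have e4 : (starRingEnd ℂ) (P k) = G k := by linear_combination (e1 - e2) / 2
  have e5 : (starRingEnd ℂ) (P v1) = G v1 := by linear_combination (e1 + e2) / 2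
  rw [← e4, ← e5] at e3
  have hI := Complex.I_mul_I
  have e6 : 2 * Complex.I * (starRingEnd ℂ) (P k) = 0 := by
    linear_combination e3 + ((starRingEnd ℂ) (P v1)) * 0
  have e7 : (starRingEnd ℂ) (P k) = 0 := by
    have : (2 : ℂ) * Complex.I ≠ 0 := mul_ne_zero two_ne_zero Complex.I_ne_zero
    exact (mul_eq_zero.1 e6).resolve_left this
  rwa [map_eq_zero] at e7

theorem wig_type (W : V → Y) (u : Y)
    (h : ∀ g : Y →L[ℂ] ℂ, g u ≠ 0 → ∃ f : V →L[ℂ] ℂ, ∀ v, ‖g (W v)‖ = ‖f v‖)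
    (g0 : Y →L[ℂ] ℂ) (hg0 : g0 u ≠ 0) (f0 : V →L[ℂ] ℂ) (hf0 : f0 ≠ 0)
    (h0 : ∀ v, ‖g0 (W v)‖ = ‖f0 v‖) :
    (∀ g1 : Y →L[ℂ] ℂ, g1 u ≠ 0 → ∃ F : V →L[ℂ] ℂ, ∀ v,
      g1 (W v) * (starRingEnd ℂ) (g0 (W v)) = F v * (starRingEnd ℂ) (f0 v)) ∨
    (∀ g1 : Y →L[ℂ] ℂ, g1 u ≠ 0 → ∃ F : V →L[ℂ] ℂ, ∀ v,
      g1 (W v) * (starRingEnd ℂ) (g0 (W v)) = (starRingEnd ℂ) (F v) * f0 v) := by
  by_contra hcon
  rw [not_or] at hcon
  obtain ⟨hc1, hc2⟩ := hcon
  push Not at hc1 hc2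
  obtain ⟨g1, hg1, hn1⟩ := hc1
  obtain ⟨g2, hg2, hn2⟩ := hc2
  obtain ⟨F1, hF1⟩ : ∃ F : V →L[ℂ] ℂ, ∀ v, g1 (W v) * (starRingEnd ℂ) (g0 (W v)) =
      (starRingEnd ℂ) (F v) * f0 v := by
    rcases wig_pair W u h g0 hg0 f0 hf0 h0 g1 hg1 with ⟨F, hF⟩ | hF
    · obtain ⟨v, hv⟩ := hn1 F
      exact absurd (hF v) hv
    · exact hF
  obtain ⟨F2, hF2⟩ : ∃ F : V →L[ℂ] ℂ, ∀ v, g2 (W v) * (starRingEnd ℂ) (g0 (W v)) =
      F v * (starRingEnd ℂ) (f0 v) := by
    rcases wig_pair W u h g0 hg0 f0 hf0 h0 g2 hg2 with hF | ⟨F, hF⟩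
    · exact hF
    · obtain ⟨v, hv⟩ := hn2 F
      exact absurd (hF v) hv
  have hm1 : ¬ ∃ κ : ℂ, ∀ v, F1 v = κ * f0 v := by
    rintro ⟨κ, hκ⟩
    obtain ⟨v, hv⟩ := hn1 ((starRingEnd ℂ) κ • f0)
    apply hv
    rw [hF1, hκ, map_mul, smul_apply, smul_eq_mul]
    ring
  have hm2 : ¬ ∃ κ : ℂ, ∀ v, F2 v = κ * f0 v := by
    rintro ⟨κ, hκ⟩
    obtain ⟨v, hv⟩ := hn2 ((starRingEnd ℂ) κ • f0)
    apply hv
    rw [hF2, hκ, smul_apply, smul_eq_mul, map_mul, Complex.conj_conj]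
    ring
  obtain ⟨t, ht, htu⟩ : ∃ t : ℂ, t ≠ 0 ∧ (g1 + t • g2) u ≠ 0 := by
    by_cases hh : (g1 + (1 : ℂ) • g2) u = 0
    · refine ⟨2, two_ne_zero, ?_⟩
      intro hh2
      rw [add_apply, smul_apply, smul_eq_mul] at hh hh2
      apply hg2
      linear_combination hh2 - hh
    · exact ⟨1, one_ne_zero, hh⟩
  have hsum : ∀ v, (g1 + t • g2) (W v) * (starRingEnd ℂ) (g0 (W v)) =
      (starRingEnd ℂ) (F1 v) * f0 v + t * (F2 v * (starRingEnd ℂ) (f0 v)) := by
    intro v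
    rw [add_apply, smul_apply, smul_eq_mul, add_mul, hF1,
      mul_assoc, hF2]
  rcases wig_pair W u h g0 hg0 f0 hf0 h0 (g1 + t • g2) htu with ⟨F3, hF3⟩ | ⟨F3, hF3⟩
  · apply hm1
    refine aux_type_j4320 f0 F1 (F3 - t • F2) hf0 fun v => ?_
    have e1 := hF3 v
    rw [hsum] at e1
    rw [sub_apply, smul_apply, smul_eq_mul]
    linear_combination e1
  · apply hm2
    obtain ⟨κ, hκ⟩ := aux_type_j4320 f0 (t • F2) (F3 - F1) hf0 fun v => by
      have e1 := hF3 v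
      rw [hsum] at e1
      have e2 : t * (F2 v * (starRingEnd ℂ) (f0 v)) =
          ((starRingEnd ℂ) (F3 v) - (starRingEnd ℂ) (F1 v)) * f0 v := by linear_combination e1
      have e3 := congrArg (starRingEnd ℂ) e2
      simp only [map_mul, map_sub, Complex.conj_conj] at e3
      rw [sub_apply, smul_apply, smul_eq_mul, map_mul]
      linear_combination e3
    refine ⟨t⁻¹ * κ, fun v => ?_⟩
    have := hκ v
    rw [smul_apply, smul_eq_mul] at this
    rw [mul_assoc, ← this, ← mul_assoc, inv_mul_cancel₀ ht, one_mul]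

end wig


end j4320

-- part 4325
section j4325
section wig
variable {V Y : Type*} [NormedAddCommGroup V] [NormedSpace ℂ V]
  [NormedAddCommGroup Y] [NormedSpace ℂ Y]

lemma norm_ext_all_j4325 {p q u : Y} (hu : u ≠ 0)
    (h : ∀ g : Y →L[ℂ] ℂ, g u ≠ 0 → ‖g p‖ = ‖g q‖) (g : Y →L[ℂ] ℂ) : ‖g p‖ = ‖g q‖ := by
  by_cases hg : g u = 0
  · obtain ⟨gs, _, hgs⟩ := exists_dual_vector ℂ u (norm_ne_zero_iff.2 hu)
    have hgs0 : gs u ≠ 0 := by
      rw [hgs]; simpa using hu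
    have hc1 : Continuous (fun t : ℂ => ‖g p + t * gs p‖) := by fun_prop
    have hc2 : Continuous (fun t : ℂ => ‖g q + t * gs q‖) := by fun_prop
    have he : (fun t : ℂ => ‖g p + t * gs p‖) = (fun t : ℂ => ‖g q + t * gs q‖) := by
      refine Continuous.ext_on (dense_compl_singleton (0:ℂ)) hc1 hc2 ?_
      intro t ht
      have ht' : t ≠ 0 := ht
      have := h (g + t • gs) (by simp [hg, ht', hgs0])
      simpa using this
    have := congrFun he 0
    simpa using this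
  · exact h g hg

/-- two vectors on which enough functionals have the same modulus -/
theorem eq_phase {p q u : Y} (hu : u ≠ 0)
    (h : ∀ g : Y →L[ℂ] ℂ, g u ≠ 0 → ‖g p‖ = ‖g q‖) : ∃ c : ℂ, ‖c‖ = 1 ∧ p = c • q := by
  have hall := norm_ext_all_j4325 hu h
  by_cases hq : q = 0
  · subst hq
    refine ⟨1, by simp, ?_⟩
    rw [smul_zero]
    apply SeparatingDual.eq_zero_of_forall_dual_eq_zero (R := ℂ)
    intro g
    have := hall g
    rw [map_zero, norm_zero, norm_eq_zero] at this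
    exact this
  · obtain ⟨g1, _, hg1⟩ := exists_dual_vector ℂ q (norm_ne_zero_iff.2 hq)
    have hg10 : g1 q ≠ 0 := by
      rw [hg1]; simpa using hq
    refine ⟨g1 p / g1 q, ?_, ?_⟩
    · rw [norm_div, hall g1, div_self (norm_ne_zero_iff.2 hg10)]
    · rw [← sub_eq_zero]
      apply SeparatingDual.eq_zero_of_forall_dual_eq_zero (R := ℂ)
      intro g
      have h1 := hall (g - (g q / g1 q) • g1)
      have h2 : (g - (g q / g1 q) • g1) q = 0 := by
        simp [div_mul_cancel₀ _ hg10]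
      rw [h2, norm_zero, norm_eq_zero] at h1
      simp only [sub_apply, smul_apply, smul_eq_mul] at h1
      rw [map_sub, map_smul, smul_eq_mul]
      rw [← h1]; field_simp

/-- two operators which agree pointwise up to a phase agree up to a phase -/
theorem eq_phase_op {R1 R2 : V →L[ℂ] Y} (h : ∀ v, ∃ c : ℂ, ‖c‖ = 1 ∧ R1 v = c • R2 v) :
    ∃ c : ℂ, ‖c‖ = 1 ∧ R1 = c • R2 := by
  by_cases hR : R2 = 0
  · refine ⟨1, by simp, ?_⟩
    ext v
    obtain ⟨c, _, hc⟩ := h v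
    rw [hc, hR]; simp
  · obtain ⟨v0, hv0⟩ : ∃ v0, R2 v0 ≠ 0 := by
      by_contra hcon
      push Not at hcon
      exact hR (ContinuousLinearMap.ext hcon)
    obtain ⟨c0, hc0, hc0'⟩ := h v0
    refine ⟨c0, hc0, ?_⟩
    have dep : ∀ v, (∃ k : ℂ, R2 v = k • R2 v0) → R1 v = c0 • R2 v := by
      rintro v ⟨k, hk⟩
      obtain ⟨c, _, hc⟩ := h (v - k • v0)
      have h0 : R2 (v - k • v0) = 0 := by rw [map_sub, map_smul, hk, sub_self]
      rw [h0, smul_zero, map_sub, map_smul, sub_eq_zero] at hc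
      rw [hc, hc0', hk, smul_comm]
    ext v
    rw [smul_apply]
    by_cases hd : ∃ k : ℂ, R2 v = k • R2 v0
    · exact dep v hd
    · obtain ⟨c, hc, hc'⟩ := h v
      obtain ⟨c1, hc1, hc1'⟩ := h (v + v0)
      rw [map_add, map_add, hc', hc0', smul_add] at hc1'
      have e : (c1 - c) • R2 v = (c0 - c1) • R2 v0 := by
        rw [sub_smul, sub_smul, sub_eq_sub_iff_add_eq_add, ← hc1']
        abel
      have hcc : c1 = c := by
        by_contra hne
        apply hd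
        refine ⟨(c1 - c)⁻¹ * (c0 - c1), ?_⟩
        rw [mul_smul, ← e, smul_smul, inv_mul_cancel₀ (sub_ne_zero.2 hne), one_smul]
      rw [hcc, sub_self, zero_smul] at e
      have := (smul_eq_zero.1 e.symm).resolve_right hv0
      rw [hc', sub_eq_zero.1 this]

/-- a (semi)linear map which is weakly continuous is bounded: version used below -/
theorem bounded_of_weak {σ : ℂ →+* ℂ} [RingHomIsometric σ] [CompleteSpace V] (A : V →ₛₗ[σ] Y)
    (u : Y) (hu : u ≠ 0)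
    (h : ∀ g : Y →L[ℂ] ℂ, g u ≠ 0 → ∃ C : ℝ, ∀ v, ‖g (A v)‖ ≤ C * ‖v‖) :
    ∃ C : ℝ, ∀ v, ‖A v‖ ≤ C * ‖v‖ := by
  have hall : ∀ g : Y →L[ℂ] ℂ, ∃ C : ℝ, ∀ v, ‖g (A v)‖ ≤ C * ‖v‖ := by
    intro g
    by_cases hg : g u = 0
    · obtain ⟨gs, _, hgs⟩ := exists_dual_vector ℂ u (norm_ne_zero_iff.2 hu)
      have hgs0 : gs u ≠ 0 := by
        rw [hgs]; simpa using hu
      obtain ⟨C1, hC1⟩ := h gs hgs0
      obtain ⟨C2, hC2⟩ := h (g + gs) (by simp [hg, hgs0])
      refine ⟨C2 + C1, fun v => ?_⟩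
      have e : g (A v) = (g + gs) (A v) - gs (A v) := by simp
      rw [e]
      refine (norm_sub_le _ _).trans ?_
      rw [add_mul]
      exact add_le_add (hC2 v) (hC1 v)
    · exact h g hg
  choose C hC using hall
  let F : {g : Y →L[ℂ] ℂ // ‖g‖ ≤ 1} → (V →SL[σ] ℂ) := fun g => 
    ((g.1 : Y →ₗ[ℂ] ℂ).comp A).mkContinuous (C g.1) (fun v => hC g.1 v)
  obtain ⟨C', hC'⟩ := banach_steinhaus (g := F) (fun v => ⟨‖A v‖, fun g => by
    have : ‖g.1 (A v)‖ ≤ ‖g.1‖ * ‖A v‖ := g.1.le_opNorm _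
    have h2 : ‖g.1‖ * ‖A v‖ ≤ 1 * ‖A v‖ := mul_le_mul_of_nonneg_right g.2 (norm_nonneg _)
    rw [one_mul] at h2
    exact this.trans h2⟩)
  refine ⟨C', fun v => ?_⟩
  obtain ⟨g, hg1, hg2⟩ := exists_dual_vector'' ℂ (A v)
  have h1 : ‖g (A v)‖ = ‖A v‖ := by rw [hg2]; simp
  rw [← h1]
  have h2 : ‖F ⟨g, hg1⟩ v‖ ≤ ‖F ⟨g, hg1⟩‖ * ‖v‖ := (F ⟨g, hg1⟩).le_opNorm v
  exact h2.trans (mul_le_mul_of_nonneg_right (hC' _) (norm_nonneg _))

lemma wig_asm_j4325 {σ : ℂ →+* ℂ} [RingHomIsometric σ] [CompleteSpace V] (W : V → Y) (u : Y) (hu : u ≠ 0)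
    (h : ∀ g : Y →L[ℂ] ℂ, g u ≠ 0 → ∃ f : V →L[ℂ] ℂ, ∀ v, ‖g (W v)‖ = ‖f v‖) 
    (f0 : V →L[ℂ] ℂ) (v0 : V) (hv0 : f0 v0 = 1) (c : V → ℂ) (hc : ∀ v, f0 v ≠ 0 → ‖c v‖ = 1)
    (HF : ∀ g : Y →L[ℂ] ℂ, g u ≠ 0 → ∃ F : V →L[ℂ] ℂ, ∀ v, f0 v ≠ 0 → g (W v) = c v * σ (F v)) :
    ∃ A : V →SL[σ] Y, ∀ v, ∃ c : ℂ, ‖c‖ = 1 ∧ W v = c • A v := by
  let A0 : V → Y := fun v => (c v)⁻¹ • W v
  let Af : V → Y := fun v => A0 (v + (1 - f0 v) • v0) - σ (1 - f0 v) • A0 v0
  have hA0 : ∀ g : Y →L[ℂ] ℂ, ∀ F : V →L[ℂ] ℂ, (∀ v, f0 v ≠ 0 → g (W v) = c v * σ (F v)) → 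
      ∀ v, f0 v ≠ 0 → g (A0 v) = σ (F v) := by
    intro g F hF v hv
    have hcv : c v ≠ 0 := by
      intro h0; have := hc v hv; rw [h0, norm_zero] at this; exact zero_ne_one this
    simp only [A0, map_smul, smul_eq_mul]
    rw [hF v hv, inv_mul_cancel_left₀ hcv]
  have key : ∀ g : Y →L[ℂ] ℂ, ∀ F : V →L[ℂ] ℂ, (∀ v, f0 v ≠ 0 → g (W v) = c v * σ (F v)) → 
      ∀ v, g (Af v) = σ (F v) := by
    intro g F hF v
    have h1 : f0 (v + (1 - f0 v) • v0) = 1 := by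
      rw [map_add, map_smul, hv0]; simp
    simp only [Af, map_sub, map_smul, smul_eq_mul]
    rw [hA0 g F hF _ (by rw [h1]; exact one_ne_zero), hA0 g F hF v0 (by rw [hv0]; exact one_ne_zero)]
    rw [← map_sub, ← map_mul, ← map_sub]
    congr 1
    rw [map_add, map_smul, smul_eq_mul]; ring
  have sep : ∀ y : Y, (∀ g : Y →L[ℂ] ℂ, g u ≠ 0 → g y = 0) → y = 0 := by
    intro y hy
    obtain ⟨c, _, hc⟩ := eq_phase (p := y) (q := 0) hu (fun g hg => by rw [hy g hg, map_zero])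
    rw [hc, smul_zero]
  let AL : V →ₛₗ[σ] Y :=
    { toFun := Af
      map_add' := fun v w => by
        rw [← sub_eq_zero]
        apply sep
        intro g hg
        obtain ⟨F, hF⟩ := HF g hg
        rw [map_sub, map_add, key g F hF, key g F hF, key g F hF, map_add, map_add, sub_self]
      map_smul' := fun k v => by
        rw [← sub_eq_zero]
        apply sep
        intro g hg
        obtain ⟨F, hF⟩ := HF g hg
        rw [map_sub, map_smul, key g F hF, key g F hF, map_smul, smul_eq_mul, smul_eq_mul, map_mul, sub_self] }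
  have hAL : ∀ v, AL v = Af v := fun _ => rfl
  obtain ⟨C, hC⟩ := bounded_of_weak AL u hu (fun g hg => by
    obtain ⟨F, hF⟩ := HF g hg
    refine ⟨‖F‖, fun v => ?_⟩
    rw [hAL, key g F hF, RingHomIsometric.norm_map]
    exact F.le_opNorm v)
  refine ⟨AL.mkContinuous C hC, fun v => ?_⟩
  apply eq_phase hu
  intro g hg
  obtain ⟨F, hF⟩ := HF g hg
  obtain ⟨f, hf⟩ := h g hg
  have e1 : ‖g ((AL.mkContinuous C hC) v)‖ = ‖F v‖ := by
    have : (AL.mkContinuous C hC) v = Af v := rfl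
    rw [this, key g F hF, RingHomIsometric.norm_map]
  rw [e1, hf v]
  -- moduli agree on a dense set
  have hne : ∀ w, f0 w ≠ 0 → ‖f w‖ = ‖F w‖ := by
    intro w hw
    rw [← hf w, hF w hw, norm_mul, hc w hw, one_mul, RingHomIsometric.norm_map]
  by_cases hv : f0 v = 0
  · have hc1 : Continuous (fun t : ℂ => ‖f (v + t • v0)‖) := by fun_prop
    have hc2 : Continuous (fun t : ℂ => ‖F (v + t • v0)‖) := by fun_prop
    have he : (fun t : ℂ => ‖f (v + t • v0)‖) = (fun t : ℂ => ‖F (v + t • v0)‖) := by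
      refine Continuous.ext_on (dense_compl_singleton (0:ℂ)) hc1 hc2 ?_
      intro t ht
      have ht' : t ≠ 0 := ht
      refine hne _ ?_
      rw [map_add, map_smul, hv, hv0]; simpa using ht'
    have := congrFun he 0
    simpa using this
  · exact hne v hv

theorem wigner [CompleteSpace V] (W : V → Y) (u : Y) (hu : u ≠ 0)
    (h : ∀ g : Y →L[ℂ] ℂ, g u ≠ 0 → ∃ f : V →L[ℂ] ℂ, ∀ v, ‖g (W v)‖ = ‖f v‖) :
    (∃ A : V →L[ℂ] Y, ∀ v, ∃ c : ℂ, ‖c‖ = 1 ∧ W v = c • A v) ∨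
    (∃ A : V →SL[starRingEnd ℂ] Y, ∀ v, ∃ c : ℂ, ‖c‖ = 1 ∧ W v = c • A v) := by
  by_cases hall : ∀ g : Y →L[ℂ] ℂ, g u ≠ 0 → ∀ v, g (W v) = 0
  · left
    refine ⟨0, fun v => ?_⟩
    apply eq_phase hu
    intro g hg
    rw [hall g hg v]; simp
  · push Not at hall
    obtain ⟨g0, hg0, v1, hv1⟩ := hall
    obtain ⟨f0, hf0⟩ := h g0 hg0
    have hf0v1 : f0 v1 ≠ 0 := by
      intro h0
      have := hf0 v1
      rw [h0, norm_zero, norm_eq_zero] at this
      exact hv1 this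
    have hf0ne : f0 ≠ 0 := by rintro rfl; exact hf0v1 rfl
    have hv0 : f0 ((f0 v1)⁻¹ • v1) = 1 := by
      rw [map_smul, smul_eq_mul, inv_mul_cancel₀ hf0v1]
    rcases wig_type W u h g0 hg0 f0 hf0ne hf0 with H | H
    · left
      refine wig_asm_j4325 (σ := RingHom.id ℂ) W u hu h f0 _ hv0 (fun v => g0 (W v) / f0 v) ?_ ?_
      · intro v hv
        rw [norm_div, hf0 v, div_self (norm_ne_zero_iff.2 hv)]
      · intro g hg
        obtain ⟨F, hF⟩ := H g hg
        refine ⟨F, fun v hv => ?_⟩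
        have e := hF v
        have hn : g0 (W v) * (starRingEnd ℂ) (g0 (W v)) = f0 v * (starRingEnd ℂ) (f0 v) := by
          rw [Complex.mul_conj, Complex.mul_conj, Complex.normSq_eq_norm_sq, Complex.normSq_eq_norm_sq, hf0 v]
        have hcv : (starRingEnd ℂ) (f0 v) ≠ 0 := by simpa using hv
        rw [RingHom.id_apply]
        apply mul_right_cancel₀ (mul_ne_zero hv hcv)
        calc g (W v) * (f0 v * (starRingEnd ℂ) (f0 v)) 
            = (g (W v) * (starRingEnd ℂ) (g0 (W v))) * g0 (W v) := by rw [← hn]; ring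
          _ = (F v * (starRingEnd ℂ) (f0 v)) * g0 (W v) := by rw [e]
          _ = g0 (W v) / f0 v * F v * (f0 v * (starRingEnd ℂ) (f0 v)) := by field_simp
    · right
      refine wig_asm_j4325 (σ := starRingEnd ℂ) W u hu h f0 _ hv0 (fun v => g0 (W v) / (starRingEnd ℂ) (f0 v)) ?_ ?_
      · intro v hv
        rw [norm_div, hf0 v, RCLike.norm_conj, div_self (norm_ne_zero_iff.2 hv)]
      · intro g hg
        obtain ⟨F, hF⟩ := H g hg
        refine ⟨F, fun v hv => ?_⟩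
        have e := hF v
        have hn : g0 (W v) * (starRingEnd ℂ) (g0 (W v)) = f0 v * (starRingEnd ℂ) (f0 v) := by
          rw [Complex.mul_conj, Complex.mul_conj, Complex.normSq_eq_norm_sq, Complex.normSq_eq_norm_sq, hf0 v]
        have hcv : (starRingEnd ℂ) (f0 v) ≠ 0 := by simpa using hv
        apply mul_right_cancel₀ (mul_ne_zero hv hcv)
        calc g (W v) * (f0 v * (starRingEnd ℂ) (f0 v)) 
            = (g (W v) * (starRingEnd ℂ) (g0 (W v))) * g0 (W v) := by rw [← hn]; ring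
          _ = ((starRingEnd ℂ) (F v) * f0 v) * g0 (W v) := by rw [e]
          _ = g0 (W v) / (starRingEnd ℂ) (f0 v) * (starRingEnd ℂ) (F v) * (f0 v * (starRingEnd ℂ) (f0 v)) := by 
            field_simp

end wig


end j4325

-- part 4383
section j4383
section AB
variable {X Y : Type*} [NormedAddCommGroup X] [NormedSpace ℂ X]
  [NormedAddCommGroup Y] [NormedSpace ℂ Y]

variable {φ : (X →L[ℂ] X) → (Y →L[ℂ] Y)}

lemma exists_one {Z : Type*} [NormedAddCommGroup Z] [NormedSpace ℂ Z] {z : Z} (hz : z ≠ 0) :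
    ∃ k : Z →L[ℂ] ℂ, k z = 1 :=
  SeparatingDual.exists_eq_one hz

/-- dual functionals of two independent vectors -/
lemma dual_vec {Z : Type*} [NormedAddCommGroup Z] [NormedSpace ℂ Z] {x x' : Z}
    (h : LinearIndependent ℂ ![x, x']) : ∃ k : Z →L[ℂ] ℂ, k x = 0 ∧ k x' = 1 := by
  have hp := LinearIndependent.pair_iff.1 h
  have hx : x ≠ 0 := by
    rintro rfl
    have := hp 1 0 (by simp)
    exact one_ne_zero this.1
  obtain ⟨k1, hk1⟩ := exists_one hx
  have hy : x' - k1 x' • x ≠ 0 := by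
    intro h0
    have := hp (-(k1 x')) 1 (by rw [neg_smul, one_smul, neg_add_eq_sub]; exact h0)
    exact one_ne_zero this.2
  obtain ⟨k2, hk2⟩ := exists_one hy
  refine ⟨k2 - k2 x • k1, ?_, ?_⟩
  · simp [hk1]
  · rw [map_sub, map_smul, smul_eq_mul] at hk2
    simp only [ContinuousLinearMap.sub_apply, ContinuousLinearMap.smul_apply, smul_eq_mul]
    rw [← hk2]; ring

/-- dual vectors of two independent functionals -/
lemma dual_fun {Z : Type*} [NormedAddCommGroup Z] [NormedSpace ℂ Z] {g g' : Z →L[ℂ] ℂ}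
    (h : LinearIndependent ℂ ![g, g']) : ∃ v : Z, g v = 0 ∧ g' v = 1 := by
  have hp := LinearIndependent.pair_iff.1 h
  have hg : g ≠ 0 := by
    intro h0
    have := hp 1 0 (by simp [h0])
    exact one_ne_zero this.1
  obtain ⟨v1, hv1⟩ : ∃ v, g v ≠ 0 := by
    by_contra hc
    push Not at hc
    exact hg (by ext v; simpa using hc v)
  by_contra hc
  push Not at hc
  have hk : ∀ v, g v = 0 → g' v = 0 := by
    intro v hv
    by_contra hne
    refine hc ((g' v)⁻¹ • v) ?_ ?_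
    · rw [map_smul, hv, smul_zero]
    · rw [map_smul, smul_eq_mul, inv_mul_cancel₀ hne]
  have hall : ∀ v, g v * g' v1 = g' v * g v1 := by
    intro v
    have h1 : g (g v • v1 - g v1 • v) = 0 := by
      simp only [map_sub, map_smul, smul_eq_mul]; ring
    have h2 := hk _ h1
    simp only [map_sub, map_smul, smul_eq_mul] at h2
    linear_combination h2
  have := hp (g' v1) (-(g v1)) (by
    ext v
    simp only [ContinuousLinearMap.add_apply, ContinuousLinearMap.smul_apply, smul_eq_mul,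
      ContinuousLinearMap.zero_apply]
    linear_combination hall v)
  exact hv1 (neg_eq_zero.1 this.2)

lemma li_swap {Z : Type*} [AddCommGroup Z] [Module ℂ Z] {x x' : Z}
    (h : LinearIndependent ℂ ![x, x']) : LinearIndependent ℂ ![x', x] := by
  rw [LinearIndependent.pair_iff] at h ⊢
  intro s t hst
  have := h t s (by rw [add_comm]; exact hst)
  exact ⟨this.2, this.1⟩

/-- a vector annihilated by all functionals killing `x, x'` -/
lemma span_vec {Z : Type*} [NormedAddCommGroup Z] [NormedSpace ℂ Z] {x x' x2 : Z}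
    (h : LinearIndependent ℂ ![x, x'])
    (H : ∀ k : Z →L[ℂ] ℂ, k x = 0 → k x' = 0 → k x2 = 0) : ∃ c d : ℂ, x2 = c • x + d • x' := by
  obtain ⟨k', hk'1, hk'2⟩ := dual_vec h
  obtain ⟨k, hk1, hk2⟩ := dual_vec (li_swap h)
  refine ⟨k x2, k' x2, ?_⟩
  by_contra hne
  have hy : x2 - k x2 • x - k' x2 • x' ≠ 0 := by
    intro h0
    apply hne
    rw [sub_sub, sub_eq_zero] at h0
    exact h0
  obtain ⟨m, hm⟩ := exists_one hy
  have h1 := H (m - m x • k - m x' • k') (by simp [hk'1, hk2]) (by simp [hk'2, hk1])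
  simp only [ContinuousLinearMap.sub_apply, ContinuousLinearMap.smul_apply, smul_eq_mul] at h1
  rw [map_sub, map_sub, map_smul, map_smul, smul_eq_mul, smul_eq_mul] at hm
  have : (1 : ℂ) = 0 := by
    rw [← hm, ← h1]; ring
  exact one_ne_zero this

lemma span_fun {Z : Type*} [NormedAddCommGroup Z] [NormedSpace ℂ Z] {f f' f2 : Z →L[ℂ] ℂ}
    (h : LinearIndependent ℂ ![f, f'])
    (H : ∀ a, f a = 0 → f' a = 0 → f2 a = 0) : ∃ c d : ℂ, f2 = c • f + d • f' := by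
  obtain ⟨a2, h21, h22⟩ := dual_fun h
  obtain ⟨a1, h11, h12⟩ := dual_fun (li_swap h)
  refine ⟨f2 a1, f2 a2, ?_⟩
  ext a
  have h1 := H (a - f a • a1 - f' a • a2) (by simp [h12, h21]) (by simp [h11, h22])
  simp only [map_sub, map_smul, smul_eq_mul] at h1
  simp only [ContinuousLinearMap.add_apply, ContinuousLinearMap.smul_apply, smul_eq_mul]
  linear_combination h1

lemma core {x x' x2 : X} {f f' f2 : X →L[ℂ] ℂ} (hx : LinearIndependent ℂ ![x, x'])
    (hf : LinearIndependent ℂ ![f, f']) (hx2 : x2 ≠ 0) (hf2 : f2 ≠ 0)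
    (H : ∀ T : X →L[ℂ] X, f (T x) = 0 → f' (T x') = 0 → f2 (T x2) = 0) :
    (∃ κ : ℝ, ∀ T : X →L[ℂ] X, ‖f2 (T x2)‖ = κ * ‖f (T x)‖) ∨
      (∃ κ : ℝ, ∀ T : X →L[ℂ] X, ‖f2 (T x2)‖ = κ * ‖f' (T x')‖) := by
  have H' : ∀ (a : X) (k : X →L[ℂ] ℂ), k x * f a = 0 → k x' * f' a = 0 → k x2 * f2 a = 0 := by
    intro a k h1 h2
    have := H (rk a k) (by simpa using h1) (by simpa using h2)
    simpa using this
  obtain ⟨k0, hk0⟩ := exists_one hx2
  obtain ⟨a0, ha0⟩ : ∃ a, f2 a ≠ 0 := by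
    by_contra hc
    push Not at hc
    exact hf2 (by ext v; simpa using hc v)
  obtain ⟨α, β, hab⟩ := span_fun hf (f2 := f2) (fun a h1 h2 => by
    have := H' a k0 (by rw [h1, mul_zero]) (by rw [h2, mul_zero])
    rwa [hk0, one_mul] at this)
  obtain ⟨γ, δ, hcd⟩ := span_vec hx (x2 := x2) (fun k h1 h2 => by
    have := H' a0 k (by rw [h1, zero_mul]) (by rw [h2, zero_mul])
    exact (mul_eq_zero.1 this).resolve_right ha0)
  obtain ⟨a2, h21, h22⟩ := dual_fun hf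
  obtain ⟨a1, h11, h12⟩ := dual_fun (li_swap hf)
  obtain ⟨k2, m21, m22⟩ := dual_vec hx
  obtain ⟨k1, m11, m12⟩ := dual_vec (li_swap hx)
  have e3 : γ * β = 0 := by
    have := H' a2 k1 (by rw [h21, mul_zero]) (by rw [m11, zero_mul])
    rw [hab, hcd] at this
    simpa [h21, h22, m11, m12] using this
  have e4 : δ * α = 0 := by
    have := H' a1 k2 (by rw [m21, zero_mul]) (by rw [h11, mul_zero])
    rw [hab, hcd] at this
    simpa [h11, h12, m21, m22] using this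
  by_cases hγ : γ = 0
  · have hδ : δ ≠ 0 := by
      rintro rfl
      exact hx2 (by rw [hcd, hγ]; simp)
    have hα : α = 0 := (mul_eq_zero.1 e4).resolve_left hδ
    right
    refine ⟨‖β‖ * ‖δ‖, fun T => ?_⟩
    have e : f2 (T x2) = β * (δ * f' (T x')) := by
      rw [hab, hcd, hγ, hα]
      simp
      ring
    rw [e, norm_mul, norm_mul]
    ring
  · have hβ : β = 0 := (mul_eq_zero.1 e3).resolve_left hγ
    have hα : α ≠ 0 := by
      rintro rfl
      exact hf2 (by rw [hab, hβ]; ext v; simp)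
    have hδ : δ = 0 := (mul_eq_zero.1 e4).resolve_right hα
    left
    refine ⟨‖α‖ * ‖γ‖, fun T => ?_⟩
    have e : f2 (T x2) = α * (γ * f (T x)) := by
      rw [hab, hcd, hβ, hδ]
      simp
      ring
    rw [e, norm_mul, norm_mul]
    ring

theorem Rel.ne (hs : Function.Surjective φ) {x f u g} (h : Rel φ x f u g) (hgu : g u ≠ 0) :
    x ≠ 0 ∧ f ≠ 0 := by
  obtain ⟨T, hT⟩ := hs (ContinuousLinearMap.id ℂ Y)
  have h1 := h T
  rw [hT] at h1
  have h2 : ‖f (T x)‖ ≠ 0 := by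
    rw [← h1]
    simpa using hgu
  constructor
  · rintro rfl
    exact h2 (by simp)
  · rintro rfl
    exact h2 (by simp)

/-- two dependent nonzero vectors -/
lemma dep_smul {Z : Type*} [AddCommGroup Z] [Module ℂ Z] {x x' : Z} (hx : x ≠ 0)
    (h : ¬ LinearIndependent ℂ ![x, x']) : ∃ c : ℂ, x' = c • x := by
  rw [LinearIndependent.pair_iff] at h
  push Not at h
  obtain ⟨s, t, hst, hne⟩ := h
  have ht : t ≠ 0 := by
    rintro rfl
    rw [zero_smul, add_zero] at hst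
    have hs0 : s = 0 := (smul_eq_zero.1 hst).resolve_right hx
    exact hne hs0 rfl
  refine ⟨-(t⁻¹ * s), ?_⟩
  have : t • x' = -(s • x) := eq_neg_of_add_eq_zero_right hst
  calc x' = t⁻¹ • (t • x') := by rw [smul_smul, inv_mul_cancel₀ ht, one_smul]
    _ = -(t⁻¹ * s) • x := by rw [this, smul_neg, smul_smul, neg_smul]

/-- parallel data on the left force parallel functionals on the right -/
theorem Rel.par_g (hs : Function.Surjective φ) {x x' f f' u g g'} (h : Rel φ x f u g)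
    (h' : Rel φ x' f' u g') (hgu : g u ≠ 0) (hgu' : g' u ≠ 0)
    (hx : ¬ LinearIndependent ℂ ![x, x']) (hf : ¬ LinearIndependent ℂ ![f, f']) :
    ¬ LinearIndependent ℂ ![g, g'] := by
  intro hli
  obtain ⟨hx0, hf0⟩ := Rel.ne hs h hgu
  obtain ⟨c, rfl⟩ := dep_smul hx0 hx
  obtain ⟨d, rfl⟩ := dep_smul hf0 hf
  obtain ⟨v, hv, hv'⟩ := dual_fun hli
  obtain ⟨T, hT⟩ := hs (rk v ((g u)⁻¹ • g))
  have e : φ T u = v := by
    rw [hT]
    simp [hgu]
  have h1 := h T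
  have h2 := h' T
  rw [e, hv, norm_zero] at h1
  rw [e, hv', map_smul, ContinuousLinearMap.smul_apply, map_smul, norm_smul, norm_smul, ← h1] at h2
  simp at h2

theorem Rel.par_u (hs : Function.Surjective φ) {x x' f f' u u' g} (h : Rel φ x f u g)
    (h' : Rel φ x' f' u' g) (hgu : g u ≠ 0) (hgu' : g u' ≠ 0)
    (hx : ¬ LinearIndependent ℂ ![x, x']) (hf : ¬ LinearIndependent ℂ ![f, f']) :
    ¬ LinearIndependent ℂ ![u, u'] := by
  intro hli
  obtain ⟨hx0, hf0⟩ := Rel.ne hs h hgu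
  obtain ⟨c, rfl⟩ := dep_smul hx0 hx
  obtain ⟨d, rfl⟩ := dep_smul hf0 hf
  obtain ⟨k, hk, hk'⟩ := dual_vec hli
  obtain ⟨T, hT⟩ := hs (rk u k)
  have e1 : φ T u = 0 := by rw [hT]; simp [hk]
  have e2 : φ T u' = u := by rw [hT]; simp [hk']
  have h1 := h T
  have h2 := h' T
  rw [e1, map_zero, norm_zero] at h1
  rw [e2, map_smul, ContinuousLinearMap.smul_apply, map_smul, norm_smul, norm_smul, ← h1] at h2
  simp at h2
  exact hgu h2

lemma pick_w_j4383 {a b : ℂ} (ha : a ≠ 0) : ∃ w : ℂ, w ≠ 0 ∧ a + w * b ≠ 0 := by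
  by_cases h : a + 1 * b = 0
  · refine ⟨2, two_ne_zero, fun h2 => ha ?_⟩
    linear_combination 2 * h - h2
  · exact ⟨1, one_ne_zero, h⟩

theorem Rel.dich_g (hs : Function.Surjective φ)
    (h1 : ∀ u g, g u ≠ 0 → ∃ x f, Rel φ x f u g) {x x' f f' u g g'} (h : Rel φ x f u g)
    (h' : Rel φ x' f' u g') (hgu : g u ≠ 0) (hgu' : g' u ≠ 0)
    (hg : LinearIndependent ℂ ![g, g']) :
    ¬ LinearIndependent ℂ ![x, x'] ∨ ¬ LinearIndependent ℂ ![f, f'] := by
  by_contra hc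
  push Not at hc
  obtain ⟨hx, hf⟩ := hc
  obtain ⟨w, hw0, hw⟩ := pick_w_j4383 (b := g' u) hgu
  have hne : (g + w • g') u ≠ 0 := by simpa using hw
  obtain ⟨x2, f2, h2⟩ := h1 u (g + w • g') hne
  obtain ⟨hx2, hf2⟩ := Rel.ne hs h2 hne
  have surj : ∀ v : Y, ∃ T, φ T u = v := by
    intro v
    obtain ⟨T, hT⟩ := hs (rk v ((g u)⁻¹ • g))
    refine ⟨T, ?_⟩
    rw [hT]
    simp [hgu]
  rcases core hx hf hx2 hf2 (fun T e1 e2 => by
      have a1 := h T
      have a2 := h' T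
      have a3 := h2 T
      rw [e1, norm_zero, norm_eq_zero] at a1
      rw [e2, norm_zero, norm_eq_zero] at a2
      rw [ContinuousLinearMap.add_apply, ContinuousLinearMap.smul_apply, a1, a2, smul_zero,
        add_zero, norm_zero] at a3
      exact norm_eq_zero.1 a3.symm) with ⟨κ, hκ⟩ | ⟨κ, hκ⟩
  · obtain ⟨v, hv, hv'⟩ := dual_fun hg
    obtain ⟨T, hT⟩ := surj v
    have a := hκ T
    rw [← h2 T, ← h T, hT, hv, norm_zero, mul_zero, norm_eq_zero] at a
    rw [ContinuousLinearMap.add_apply, ContinuousLinearMap.smul_apply, hv, hv', zero_add,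
      smul_eq_mul, mul_one] at a
    exact hw0 a
  · obtain ⟨v, hv, hv'⟩ := dual_fun (li_swap hg)
    obtain ⟨T, hT⟩ := surj v
    have a := hκ T
    rw [← h2 T, ← h' T, hT, hv, norm_zero, mul_zero, norm_eq_zero] at a
    rw [ContinuousLinearMap.add_apply, ContinuousLinearMap.smul_apply, hv, hv', smul_zero,
      add_zero] at a
    exact one_ne_zero a

theorem Rel.dich_u (hs : Function.Surjective φ)
    (h1 : ∀ u g, g u ≠ 0 → ∃ x f, Rel φ x f u g) {x x' f f' u u' g} (h : Rel φ x f u g)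
    (h' : Rel φ x' f' u' g) (hgu : g u ≠ 0) (hgu' : g u' ≠ 0)
    (hu : LinearIndependent ℂ ![u, u']) :
    ¬ LinearIndependent ℂ ![x, x'] ∨ ¬ LinearIndependent ℂ ![f, f'] := by
  by_contra hc
  push Not at hc
  obtain ⟨hx, hf⟩ := hc
  obtain ⟨w, hw0, hw⟩ := pick_w_j4383 (b := g u') hgu
  have hne : g (u + w • u') ≠ 0 := by simpa using hw
  obtain ⟨x2, f2, h2⟩ := h1 (u + w • u') g hne
  obtain ⟨hx2, hf2⟩ := Rel.ne hs h2 hne
  rcases core hx hf hx2 hf2 (fun T e1 e2 => by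
      have a1 := h T
      have a2 := h' T
      have a3 := h2 T
      rw [e1, norm_zero, norm_eq_zero] at a1
      rw [e2, norm_zero, norm_eq_zero] at a2
      rw [map_add, map_smul, map_add, map_smul, a1, a2, smul_zero, add_zero, norm_zero] at a3
      exact norm_eq_zero.1 a3.symm) with ⟨κ, hκ⟩ | ⟨κ, hκ⟩
  · obtain ⟨k, hk, hk'⟩ := dual_vec hu
    obtain ⟨T, hT⟩ := hs (rk u k)
    have e1 : φ T u = 0 := by rw [hT]; simp [hk]
    have e2 : φ T u' = u := by rw [hT]; simp [hk']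
    have a := hκ T
    rw [← h2 T, ← h T, map_add, map_smul, e1, e2, map_zero, norm_zero, mul_zero, norm_eq_zero,
      zero_add, map_smul, smul_eq_mul] at a
    exact (mul_ne_zero hw0 hgu) a
  · obtain ⟨k, hk, hk'⟩ := dual_vec (li_swap hu)
    obtain ⟨T, hT⟩ := hs (rk u k)
    have e1 : φ T u' = 0 := by rw [hT]; simp [hk]
    have e2 : φ T u = u := by rw [hT]; simp [hk']
    have a := hκ T
    rw [← h2 T, ← h' T, map_add, map_smul, e1, e2, map_zero, norm_zero, mul_zero, norm_eq_zero,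
      smul_zero, add_zero] at a
    exact hgu a

end AB


end j4383

-- part 4429
section j4429
section AB
variable {X Y : Type*} [NormedAddCommGroup X] [NormedSpace ℂ X]
  [NormedAddCommGroup Y] [NormedSpace ℂ Y]

variable {φ : (X →L[ℂ] X) → (Y →L[ℂ] Y)}

/-- parallel vectors -/
def Par_j4429 {V : Type*} [AddCommGroup V] [Module ℂ V] (a b : V) : Prop :=
  ¬ LinearIndependent ℂ ![a, b]

theorem par_iff_j4429 {V : Type*} [AddCommGroup V] [Module ℂ V] {a b : V} (ha : a ≠ 0) :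
    Par_j4429 a b ↔ ∃ c : ℂ, b = c • a := by
  unfold Par_j4429
  rw [LinearIndependent.pair_iff' ha]
  push Not
  constructor
  · rintro ⟨c, hc⟩
    exact ⟨c, hc.symm⟩
  · rintro ⟨c, hc⟩
    exact ⟨c, hc.symm⟩

theorem par_zero_j4429 {V : Type*} [AddCommGroup V] [Module ℂ V] (b : V) : Par_j4429 0 b := by
  intro h
  exact h.ne_zero 0 rfl

theorem par_refl_j4429 {V : Type*} [AddCommGroup V] [Module ℂ V] (a : V) : Par_j4429 a a := by
  by_cases ha : a = 0
  · rw [ha]; exact par_zero_j4429 0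
  · exact (par_iff_j4429 ha).2 ⟨1, (one_smul _ _).symm⟩

theorem par_symm_j4429 {V : Type*} [AddCommGroup V] [Module ℂ V] {a b : V} (h : Par_j4429 a b) :
    Par_j4429 b a := by
  intro h2
  apply h
  exact LinearIndependent.pair_symm_iff.1 h2

theorem par_trans_j4429 {V : Type*} [AddCommGroup V] [Module ℂ V] {a b c : V} (hb : b ≠ 0)
    (h : Par_j4429 a b) (h' : Par_j4429 b c) : Par_j4429 a c := by
  by_cases ha : a = 0
  · rw [ha]; exact par_zero_j4429 c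
  · obtain ⟨s, hs⟩ := (par_iff_j4429 ha).1 h
    obtain ⟨t, ht⟩ := (par_iff_j4429 hb).1 h'
    rw [par_iff_j4429 ha]
    exact ⟨t * s, by rw [ht, hs, smul_smul]⟩

theorem exists_dual_pair_j4429 {V : Type*} [NormedAddCommGroup V] [NormedSpace ℂ V] {x x' : V}
    (h : LinearIndependent ℂ ![x, x']) : ∃ k : V →L[ℂ] ℂ, k x = 0 ∧ k x' ≠ 0 := by
  have hx : x ≠ 0 := h.ne_zero 0
  obtain ⟨f1, hf1⟩ := SeparatingDual.exists_ne_zero (R := ℂ) hx
  have hy : x' - (f1 x' / f1 x) • x ≠ 0 := by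
    intro h0
    rw [LinearIndependent.pair_iff' hx] at h
    exact h _ (sub_eq_zero.1 h0).symm
  obtain ⟨k, hk⟩ := SeparatingDual.exists_ne_zero (R := ℂ) hy
  refine ⟨k - (k x / f1 x) • f1, ?_, ?_⟩
  · rw [sub_apply, smul_apply, smul_eq_mul, div_mul_cancel₀ _ hf1,
      sub_self]
  · intro h0
    apply hk
    rw [sub_apply, smul_apply, smul_eq_mul] at h0
    rw [map_sub, map_smul, smul_eq_mul]
    field_simp
    field_simp at h0
    linear_combination h0

theorem exists_vec_pair_j4429 {V : Type*} [NormedAddCommGroup V] [NormedSpace ℂ V]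
    {f f' : V →L[ℂ] ℂ} (h : LinearIndependent ℂ ![f, f']) : ∃ a : V, f a = 0 ∧ f' a ≠ 0 := by
  by_contra hcon
  push Not at hcon
  have hf : f ≠ 0 := h.ne_zero 0
  obtain ⟨v, hv⟩ : ∃ v, f v ≠ 0 := by
    by_contra h2
    push Not at h2
    exact hf (by ext v; exact h2 v)
  rw [LinearIndependent.pair_iff' hf] at h
  apply h (f' v / f v)
  ext w
  have h3 := hcon (w - (f w / f v) • v) (by
    rw [map_sub, map_smul, smul_eq_mul, div_mul_cancel₀ _ hv, sub_self])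
  rw [map_sub, map_smul, smul_eq_mul] at h3
  rw [smul_apply, smul_eq_mul]
  field_simp
  field_simp at h3
  linear_combination -h3

/-- proportional functionals have parallel data -/
theorem Rel.par_of (hs : Function.Surjective φ) {x x' f f' u u' g g'} (h : Rel φ x f u g)
    (h' : Rel φ x' f' u' g') (hgu : g u ≠ 0) (hgu' : g' u' ≠ 0)
    (hu : ¬ LinearIndependent ℂ ![u, u']) (hg : ¬ LinearIndependent ℂ ![g, g']) :
    ¬ LinearIndependent ℂ ![x, x'] ∧ ¬ LinearIndependent ℂ ![f, f'] := by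
  have hu0 : u ≠ 0 := by
    rintro rfl
    simp at hgu
  have hg0 : g ≠ 0 := by
    rintro rfl
    simp at hgu
  obtain ⟨c, hc⟩ := (par_iff_j4429 hu0).1 hu
  obtain ⟨d, hd⟩ := (par_iff_j4429 hg0).1 hg
  obtain ⟨hx, hf⟩ := h.ne hs hgu
  obtain ⟨hx', hf'⟩ := h'.ne hs hgu'
  have hkey : ∀ T : X →L[ℂ] X, ‖f' (T x')‖ = ‖d‖ * ‖c‖ * ‖f (T x)‖ := by
    intro T
    rw [← h' T, ← h T, hc, hd, map_smul, smul_apply, map_smul, smul_eq_mul,
      smul_eq_mul, norm_mul, norm_mul]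
    ring
  have hcoe : ∀ (a : X) (k : X →L[ℂ] ℂ) (v : X), rk a k v = k v • a := fun a k v => rfl
  constructor
  · intro hli
    obtain ⟨k, hk1, hk2⟩ := exists_dual_pair_j4429 hli
    obtain ⟨a, ha⟩ : ∃ a, f' a ≠ 0 := by
      by_contra h2
      push Not at h2
      exact hf' (by ext v; exact h2 v)
    have h3 := hkey (rk a k)
    rw [hcoe, hcoe, hk1, zero_smul, map_zero, norm_zero, mul_zero, map_smul, smul_eq_mul,
      norm_mul] at h3
    rcases mul_eq_zero.1 h3 with h4 | h4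
    · exact hk2 (norm_eq_zero.1 h4)
    · exact ha (norm_eq_zero.1 h4)
  · intro hli
    obtain ⟨a, ha1, ha2⟩ := exists_vec_pair_j4429 hli
    obtain ⟨k, hk⟩ := SeparatingDual.exists_ne_zero (R := ℂ) hx'
    have h3 := hkey (rk a k)
    rw [hcoe, hcoe, map_smul, map_smul, smul_eq_mul, smul_eq_mul, ha1, mul_zero, norm_zero,
      mul_zero, norm_mul] at h3
    rcases mul_eq_zero.1 h3 with h4 | h4
    · exact hk (norm_eq_zero.1 h4)
    · exact ha2 (norm_eq_zero.1 h4)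

/-- two equivalence relations covering everything -/
theorem eq_cover_j4429 {ι : Type*} (R S : ι → ι → Prop) (hR : Equivalence R) (hS : Equivalence S)
    (h : ∀ i j, R i j ∨ S i j) : (∀ i j, R i j) ∨ (∀ i j, S i j) := by
  by_contra hcon
  push Not at hcon
  obtain ⟨⟨i1, i2, h12⟩, ⟨i3, i4, h34⟩⟩ := hcon
  have s12 : S i1 i2 := (h i1 i2).resolve_left h12
  have key : ∀ i, S i i1 := by
    intro i
    rcases h i i1 with h1 | h1
    · rcases h i i2 with h2 | h2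
      · exact absurd (hR.trans (hR.symm h1) h2) h12
      · exact hS.trans h2 (hS.symm s12)
    · exact h1
  exact h34 (hS.trans (key i3) (hS.symm (key i4)))

/-- data -/
structure Dt_j4429 (φ : (X →L[ℂ] X) → (Y →L[ℂ] Y)) where
  u : Y
  g : Y →L[ℂ] ℂ
  x : X
  f : X →L[ℂ] ℂ
  hgu : g u ≠ 0
  rel : Rel φ x f u g

theorem absZ_j4429 (R S : Dt_j4429 φ → Dt_j4429 φ → Prop) (hR : Equivalence R) (hS : Equivalence S)
    (hu : ∀ d d' : Dt_j4429 φ, d.u = d'.u → R d d' ∨ S d d')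
    (hg : ∀ d d' : Dt_j4429 φ, d.g = d'.g → R d d' ∨ S d d')
    (hpar : ∀ d d' : Dt_j4429 φ, d.u = d'.u → R d d' → S d d' → Par_j4429 d.g d'.g)
    (h1 : ∀ u g, g u ≠ 0 → ∃ x f, Rel φ x f u g)
    (hk : ∀ g : Y →L[ℂ] ℂ, g ≠ 0 → ∃ k, ¬ Par_j4429 g k)
    (hnd : ∀ d0 : Dt_j4429 φ, ¬ ∀ d : Dt_j4429 φ, d0.g d.u ≠ 0 → R d d0)
    (u0 : Y) (g0 : Y →L[ℂ] ℂ) (h00 : g0 u0 ≠ 0)
    (hI : ∀ d d' : Dt_j4429 φ, d.u = u0 → d'.u = u0 → R d d')
    (hII : ∀ d d' : Dt_j4429 φ, d.g = g0 → d'.g = g0 → R d d') : False := by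
  have hdata : ∀ (u : Y) (g : Y →L[ℂ] ℂ), g u ≠ 0 → ∃ d : Dt_j4429 φ, d.u = u ∧ d.g = g := by
    intro u g hgu
    obtain ⟨x, f, hr⟩ := h1 u g hgu
    exact ⟨⟨u, g, x, f, hgu, hr⟩, rfl, rfl⟩
  obtain ⟨d0, hd0u, hd0g⟩ := hdata u0 g0 h00
  have hnd0 := hnd d0
  push Not at hnd0
  obtain ⟨d1, hd1, hd1R⟩ := hnd0
  rw [hd0g] at hd1
  obtain ⟨d2, hd2u, hd2g⟩ := hdata d1.u g0 hd1
  have hR20 : R d2 d0 := hII d2 d0 hd2g hd0g
  have hSu : ∀ d d' : Dt_j4429 φ, d.u = d1.u → d'.u = d1.u → S d d' := by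
    rcases eq_cover_j4429 (ι := {d : Dt_j4429 φ // d.u = d1.u}) (fun a b => R a.1 b.1) (fun a b => S a.1 b.1)
      ⟨fun a => hR.refl a.1, fun h => hR.symm h, fun h h' => hR.trans h h'⟩
      ⟨fun a => hS.refl a.1, fun h => hS.symm h, fun h h' => hS.trans h h'⟩
      (fun a b => hu a.1 b.1 (a.2.trans b.2.symm)) with h | h
    · exfalso
      exact hd1R (hR.trans (h ⟨d1, rfl⟩ ⟨d2, hd2u⟩) hR20)
    · intro d d' hd hd'
      exact h ⟨d, hd⟩ ⟨d', hd'⟩
  have hmain : ∀ g' : Y →L[ℂ] ℂ, ¬ Par_j4429 g0 g' → g' u0 ≠ 0 → g' d1.u ≠ 0 →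
      ∃ e0 : Dt_j4429 φ, e0.u = u0 ∧ e0.g = g' ∧ R e0 d0 ∧ S e0 d2 := by
    intro g' hpg hg'0 hg'1
    obtain ⟨e, heu, heg⟩ := hdata d1.u g' hg'1
    obtain ⟨e0, he0u, he0g⟩ := hdata u0 g' hg'0
    have hSe : S e d2 := hSu e d2 heu hd2u
    have hnR : ¬ R e d2 := by
      intro hRe
      have := hpar e d2 (heu.trans hd2u.symm) hRe hSe
      rw [heg, hd2g] at this
      exact hpg (par_symm_j4429 this)
    have hnR0 : ¬ R e d0 := fun h => hnR (hR.trans h (hR.symm hR20))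
    have hR0 : R e0 d0 := hI e0 d0 he0u hd0u
    have hnR2 : ¬ R e0 e := fun h => hnR0 (hR.trans (hR.symm h) hR0)
    have hS0 : S e0 e := (hg e0 e (he0g.trans heg.symm)).resolve_left hnR2
    exact ⟨e0, he0u, he0g, hR0, hS.trans hS0 hSe⟩
  have hall : ∀ g' g'' : Y →L[ℂ] ℂ, ¬ Par_j4429 g0 g' → g' u0 ≠ 0 → g' d1.u ≠ 0 →
      ¬ Par_j4429 g0 g'' → g'' u0 ≠ 0 → g'' d1.u ≠ 0 → Par_j4429 g' g'' := by
    intro g' g'' a1 a2 a3 b1 b2 b3
    obtain ⟨e, he1, he2, he3, he4⟩ := hmain g' a1 a2 a3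
    obtain ⟨e', he1', he2', he3', he4'⟩ := hmain g'' b1 b2 b3
    have := hpar e e' (he1.trans he1'.symm) (hR.trans he3 (hR.symm he3'))
      (hS.trans he4 (hS.symm he4'))
    rwa [he2, he2'] at this
  have hg00 : g0 ≠ 0 := by
    rintro rfl
    simp at h00
  obtain ⟨k, hk⟩ := hk g0 hg00
  have hli : LinearIndependent ℂ ![g0, k] := not_not.1 hk
  rw [LinearIndependent.pair_iff] at hli
  classical
  obtain ⟨t1, ht1⟩ := Infinite.exists_notMem_finset
    ({0, -(g0 u0) / k u0, -(g0 d1.u) / k d1.u} : Finset ℂ)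
  obtain ⟨t2, ht2⟩ := Infinite.exists_notMem_finset
    ({0, -(g0 u0) / k u0, -(g0 d1.u) / k d1.u, t1} : Finset ℂ)
  simp only [Finset.mem_insert, Finset.mem_singleton, not_or] at ht1 ht2
  have hadm : ∀ (t : ℂ) (w : Y), g0 w ≠ 0 → t ≠ -(g0 w) / k w → (g0 + t • k) w ≠ 0 := by
    intro t w hw ht h0
    rw [add_apply, smul_apply, smul_eq_mul] at h0
    by_cases hkw : k w = 0
    · rw [hkw, mul_zero, add_zero] at h0
      exact hw h0
    · apply ht
      field_simp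
      linear_combination h0
  have hnp : ∀ t : ℂ, t ≠ 0 → ¬ Par_j4429 g0 (g0 + t • k) := by
    intro t ht hp
    apply hp
    rw [LinearIndependent.pair_iff]
    intro s r hsr
    have h2 := hli (s + r) (r * t) (by rw [← hsr]; module)
    have h3 : r = 0 := by
      rcases mul_eq_zero.1 h2.2 with h | h
      · exact h
      · exact absurd h ht
    refine ⟨?_, h3⟩
    have := h2.1
    rw [h3, add_zero] at this
    exact this
  have hfin := hall (g0 + t1 • k) (g0 + t2 • k) (hnp t1 ht1.1) (hadm t1 u0 h00 ht1.2.1)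
    (hadm t1 d1.u hd1 ht1.2.2) (hnp t2 ht2.1) (hadm t2 u0 h00 ht2.2.1)
    (hadm t2 d1.u hd1 ht2.2.2.1)
  apply hfin
  rw [LinearIndependent.pair_iff]
  intro s r hsr
  have h2 := hli (s + r) (s * t1 + r * t2) (by rw [← hsr]; module)
  have h3 : s * (t1 - t2) = 0 := by linear_combination h2.2 - t2 * h2.1
  have h4 : s = 0 := by
    rcases mul_eq_zero.1 h3 with h | h
    · exact h
    · exact absurd (sub_eq_zero.1 h).symm ht2.2.2.2
  refine ⟨h4, ?_⟩
  have := h2.1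
  rw [h4, zero_add] at this
  exact this

theorem nondeg_j4429 (h0 : ∀ T, φ T = 0 → T = 0)
    (h1 : ∀ u g, g u ≠ 0 → ∃ x f, Rel φ x f u g) (T : X →L[ℂ] X) (hT : T ≠ 0) (d0 : Dt_j4429 φ)
    (hz : ∀ d : Dt_j4429 φ, d0.g d.u ≠ 0 → d.f (T d.x) = 0) : False := by
  apply hT
  apply h0
  have hA : ∀ u : Y, d0.g u ≠ 0 → φ T u = 0 := by
    intro u hu
    by_contra hne
    have hu0 : u ≠ 0 := by
      rintro rfl
      simp at hu
    obtain ⟨g, hg1, hg2⟩ := SeparatingDual.exists_eq_one_ne_zero_of_ne_zero_pair (R := ℂ) hne hu0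
    obtain ⟨x, f, hr⟩ := h1 u g hg2
    have h3 := hz ⟨u, g, x, f, hg2, hr⟩ hu
    have h4 := hr T
    simp only at h3
    rw [h3, norm_zero, hg1] at h4
    simp at h4
  ext u
  by_cases hu : d0.g u = 0
  · have h2 := hA (u + d0.u) (by rw [map_add, hu, zero_add]; exact d0.hgu)
    rw [map_add, hA d0.u d0.hgu, add_zero] at h2
    rw [h2]
    rfl
  · rw [hA u hu]
    rfl

theorem types (hs : Function.Surjective φ) (h0 : ∀ T, φ T = 0 → T = 0)
    (h1 : ∀ u g, g u ≠ 0 → ∃ x f, Rel φ x f u g) :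
    ((∀ (u : Y) (g g' : Y →L[ℂ] ℂ) (x x' : X) (f f' : X →L[ℂ] ℂ), g u ≠ 0 → g' u ≠ 0 →
        Rel φ x f u g → Rel φ x' f' u g' → ¬ LinearIndependent ℂ ![x, x']) ∧
      (∀ (u u' : Y) (g : Y →L[ℂ] ℂ) (x x' : X) (f f' : X →L[ℂ] ℂ), g u ≠ 0 → g u' ≠ 0 →
        Rel φ x f u g → Rel φ x' f' u' g → ¬ LinearIndependent ℂ ![f, f'])) ∨
    ((∀ (u : Y) (g g' : Y →L[ℂ] ℂ) (x x' : X) (f f' : X →L[ℂ] ℂ), g u ≠ 0 → g' u ≠ 0 →
        Rel φ x f u g → Rel φ x' f' u g' → ¬ LinearIndependent ℂ ![f, f']) ∧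
      (∀ (u u' : Y) (g : Y →L[ℂ] ℂ) (x x' : X) (f f' : X →L[ℂ] ℂ), g u ≠ 0 → g u' ≠ 0 →
        Rel φ x f u g → Rel φ x' f' u' g → ¬ LinearIndependent ℂ ![x, x'])) := by
  by_cases hY : ∀ g g' : Y →L[ℂ] ℂ, Par_j4429 g g'
  · -- all functionals on Y are parallel
    have hYv : ∀ u u' : Y, Par_j4429 u u' := by
      intro u u' hli
      obtain ⟨k, hk1, hk2⟩ := exists_dual_pair_j4429 hli
      obtain ⟨k', hk1', hk2'⟩ := exists_dual_pair_j4429 (LinearIndependent.pair_symm_iff.1 hli)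
      have hk'0 : k' ≠ 0 := by
        rintro rfl
        simp at hk2'
      obtain ⟨c, hc⟩ := (par_iff_j4429 hk'0).1 (hY k' k)
      apply hk2
      rw [hc, smul_apply, hk1', smul_zero]
    left
    refine ⟨?_, ?_⟩
    · intro u g g' x x' f f' hgu hgu' hr hr'
      exact (hr.par_of hs hr' hgu hgu' (par_refl_j4429 u) (hY g g')).1
    · intro u u' g x x' f f' hgu hgu' hr hr'
      exact (hr.par_of hs hr' hgu hgu' (hYv u u') (par_refl_j4429 g)).2
  by_cases hX : ∀ x x' : X, Par_j4429 x x'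
  · have hXf : ∀ f f' : X →L[ℂ] ℂ, Par_j4429 f f' := by
      intro f f' hli
      obtain ⟨a, ha1, ha2⟩ := exists_vec_pair_j4429 hli
      obtain ⟨b, hb1, hb2⟩ := exists_vec_pair_j4429 (LinearIndependent.pair_symm_iff.1 hli)
      have hb0 : b ≠ 0 := by
        rintro rfl
        simp at hb2
      obtain ⟨c, hc⟩ := (par_iff_j4429 hb0).1 (hX b a)
      apply ha2
      rw [hc, map_smul, hb1, smul_zero]
    left
    exact ⟨fun u g g' x x' f f' _ _ _ _ => hX x x', fun u u' g x x' f f' _ _ _ _ => hXf f f'⟩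
  push Not at hY hX
  obtain ⟨k1, k2, hk12⟩ := hY
  obtain ⟨x1, x2, hx12⟩ := hX
  have hk : ∀ g : Y →L[ℂ] ℂ, g ≠ 0 → ∃ k, ¬ Par_j4429 g k := by
    intro g hg
    by_contra hcon
    push Not at hcon
    exact hk12 (par_trans_j4429 hg (par_symm_j4429 (hcon k1)) (hcon k2))
  have hxk : ∀ x : X, x ≠ 0 → ∃ v, ¬ Par_j4429 x v := by
    intro x hx
    by_contra hcon
    push Not at hcon
    exact hx12 (par_trans_j4429 hx (par_symm_j4429 (hcon x1)) (hcon x2))
  -- the two equivalence relations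
  let Rx : Dt_j4429 φ → Dt_j4429 φ → Prop := fun d d' => Par_j4429 d.x d'.x
  let Rf : Dt_j4429 φ → Dt_j4429 φ → Prop := fun d d' => Par_j4429 d.f d'.f
  have hxne : ∀ d : Dt_j4429 φ, d.x ≠ 0 := fun d => (d.rel.ne hs d.hgu).1
  have hfne : ∀ d : Dt_j4429 φ, d.f ≠ 0 := fun d => (d.rel.ne hs d.hgu).2
  have hRx : Equivalence Rx := ⟨fun d => par_refl_j4429 _, fun h => par_symm_j4429 h,
    fun {a b c} h h' => par_trans_j4429 (hxne b) h h'⟩
  have hRf : Equivalence Rf := ⟨fun d => par_refl_j4429 _, fun h => par_symm_j4429 h,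
    fun {a b c} h h' => par_trans_j4429 (hfne b) h h'⟩
  have hu : ∀ d d' : Dt_j4429 φ, d.u = d'.u → Rx d d' ∨ Rf d d' := by
    rintro ⟨u, g, x, f, hgu, hr⟩ ⟨u', g', x', f', hgu', hr'⟩ huu
    simp only at huu
    subst huu
    by_cases hp : Par_j4429 g g'
    · exact Or.inl (hr.par_of hs hr' hgu hgu' (par_refl_j4429 u) hp).1
    · exact hr.dich_g hs h1 hr' hgu hgu' (not_not.1 hp)
  have hg : ∀ d d' : Dt_j4429 φ, d.g = d'.g → Rx d d' ∨ Rf d d' := by
    rintro ⟨u, g, x, f, hgu, hr⟩ ⟨u', g', x', f', hgu', hr'⟩ hgg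
    simp only at hgg
    subst hgg
    by_cases hp : Par_j4429 u u'
    · exact Or.inl (hr.par_of hs hr' hgu hgu' hp (par_refl_j4429 g)).1
    · exact hr.dich_u hs h1 hr' hgu hgu' (not_not.1 hp)
  have hpar : ∀ d d' : Dt_j4429 φ, d.u = d'.u → Rx d d' → Rf d d' → Par_j4429 d.g d'.g := by
    rintro ⟨u, g, x, f, hgu, hr⟩ ⟨u', g', x', f', hgu', hr'⟩ huu h2 h3
    simp only at huu
    subst huu
    exact hr.par_g hs hr' hgu hgu' h2 h3
  have hndx : ∀ d0 : Dt_j4429 φ, ¬ ∀ d : Dt_j4429 φ, d0.g d.u ≠ 0 → Rx d d0 := by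
    intro d0 hall
    obtain ⟨v, hv⟩ := hxk d0.x (hxne d0)
    obtain ⟨k, hk1, hk2⟩ := exists_dual_pair_j4429 (not_not.1 hv)
    refine nondeg_j4429 h0 h1 (rk d0.x k) ?_ d0 ?_
    · intro hz
      have h3 : rk d0.x k v = 0 := by rw [hz]; rfl
      have h4 : k v • d0.x = 0 := h3
      rcases smul_eq_zero.1 h4 with h5 | h5
      · exact hk2 h5
      · exact hxne d0 h5
    · intro d hd
      obtain ⟨c, hc⟩ := (par_iff_j4429 (hxne d0)).1 (par_symm_j4429 (hall d hd))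
      have h3 : rk d0.x k d.x = k d.x • d0.x := rfl
      have h4 : k d.x = 0 := by rw [hc, map_smul, hk1, smul_zero]
      rw [h3, h4, zero_smul, map_zero]
  have hndf : ∀ d0 : Dt_j4429 φ, ¬ ∀ d : Dt_j4429 φ, d0.g d.u ≠ 0 → Rf d d0 := by
    intro d0 hall
    obtain ⟨a, ha0, ha⟩ : ∃ a : X, a ≠ 0 ∧ d0.f a = 0 := by
      by_cases h2 : d0.f x1 = 0
      · refine ⟨x1, ?_, h2⟩
        rintro rfl
        exact hx12 (par_zero_j4429 x2)
      · refine ⟨x2 - (d0.f x2 / d0.f x1) • x1, ?_, ?_⟩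
        · intro h3
          have hx10 : x1 ≠ 0 := by
            rintro rfl
            simp at h2
          exact hx12 ((par_iff_j4429 hx10).2 ⟨_, sub_eq_zero.1 h3⟩)
        · rw [map_sub, map_smul, smul_eq_mul, div_mul_cancel₀ _ h2, sub_self]
    obtain ⟨v, hv⟩ : ∃ v, d0.f v ≠ 0 := by
      by_contra h2
      push Not at h2
      exact hfne d0 (by ext v; exact h2 v)
    refine nondeg_j4429 h0 h1 (rk a d0.f) ?_ d0 ?_
    · intro hz
      have h3 : rk a d0.f v = 0 := by rw [hz]; rfl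
      have h4 : d0.f v • a = 0 := h3
      rcases smul_eq_zero.1 h4 with h5 | h5
      · exact hv h5
      · exact ha0 h5
    · intro d hd
      obtain ⟨c, hc⟩ := (par_iff_j4429 (hfne d0)).1 (par_symm_j4429 (hall d hd))
      have h3 : rk a d0.f d.x = d0.f d.x • a := rfl
      rw [h3, hc, map_smul, smul_apply, ha, smul_zero, smul_zero]
  -- types
  have hno1 : ∀ (u0 : Y) (g0 : Y →L[ℂ] ℂ), g0 u0 ≠ 0 →
      (∀ d d' : Dt_j4429 φ, d.u = u0 → d'.u = u0 → Rx d d') →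
      (∀ d d' : Dt_j4429 φ, d.g = g0 → d'.g = g0 → Rx d d') → False := fun u0 g0 h00 hI hII =>
    absZ_j4429 Rx Rf hRx hRf hu hg hpar h1 hk hndx u0 g0 h00 hI hII
  have hno2 : ∀ (u0 : Y) (g0 : Y →L[ℂ] ℂ), g0 u0 ≠ 0 →
      (∀ d d' : Dt_j4429 φ, d.u = u0 → d'.u = u0 → Rf d d') →
      (∀ d d' : Dt_j4429 φ, d.g = g0 → d'.g = g0 → Rf d d') → False := fun u0 g0 h00 hI hII =>
    absZ_j4429 Rf Rx hRf hRx (fun d d' h => (hu d d' h).symm) (fun d d' h => (hg d d' h).symm)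
      (fun d d' h h2 h3 => hpar d d' h h3 h2) h1 hk hndf u0 g0 h00 hI hII
  have hdu : ∀ u0 : Y, (∀ d d' : Dt_j4429 φ, d.u = u0 → d'.u = u0 → Rx d d') ∨
      (∀ d d' : Dt_j4429 φ, d.u = u0 → d'.u = u0 → Rf d d') := by
    intro u0
    rcases eq_cover_j4429 (ι := {d : Dt_j4429 φ // d.u = u0}) (fun a b => Rx a.1 b.1) (fun a b => Rf a.1 b.1)
      ⟨fun a => hRx.refl a.1, fun h => hRx.symm h, fun h h' => hRx.trans h h'⟩
      ⟨fun a => hRf.refl a.1, fun h => hRf.symm h, fun h h' => hRf.trans h h'⟩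
      (fun a b => hu a.1 b.1 (a.2.trans b.2.symm)) with h | h
    · exact Or.inl fun d d' hd hd' => h ⟨d, hd⟩ ⟨d', hd'⟩
    · exact Or.inr fun d d' hd hd' => h ⟨d, hd⟩ ⟨d', hd'⟩
  have hdg : ∀ g0 : Y →L[ℂ] ℂ, (∀ d d' : Dt_j4429 φ, d.g = g0 → d'.g = g0 → Rx d d') ∨
      (∀ d d' : Dt_j4429 φ, d.g = g0 → d'.g = g0 → Rf d d') := by
    intro g0
    rcases eq_cover_j4429 (ι := {d : Dt_j4429 φ // d.g = g0}) (fun a b => Rx a.1 b.1) (fun a b => Rf a.1 b.1)
      ⟨fun a => hRx.refl a.1, fun h => hRx.symm h, fun h h' => hRx.trans h h'⟩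
      ⟨fun a => hRf.refl a.1, fun h => hRf.symm h, fun h h' => hRf.trans h h'⟩
      (fun a b => hg a.1 b.1 (a.2.trans b.2.symm)) with h | h
    · exact Or.inl fun d d' hd hd' => h ⟨d, hd⟩ ⟨d', hd'⟩
    · exact Or.inr fun d d' hd hd' => h ⟨d, hd⟩ ⟨d', hd'⟩
  have hvec : ∀ g0 : Y →L[ℂ] ℂ, g0 ≠ 0 → ∃ u, g0 u ≠ 0 := by
    intro g0 hg0
    by_contra h2
    push Not at h2
    exact hg0 (by ext v; exact h2 v)
  by_cases hall : ∀ u0 : Y, ∀ d d' : Dt_j4429 φ, d.u = u0 → d'.u = u0 → Rx d d'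
  · left
    refine ⟨?_, ?_⟩
    · intro u g g' x x' f f' hgu hgu' hr hr'
      exact hall u ⟨u, g, x, f, hgu, hr⟩ ⟨u, g', x', f', hgu', hr'⟩ rfl rfl
    · intro u u' g x x' f f' hgu hgu' hr hr'
      rcases hdg g with h2 | h2
      · exact (hno1 u g hgu (hall u) h2).elim
      · exact h2 ⟨u, g, x, f, hgu, hr⟩ ⟨u', g, x', f', hgu', hr'⟩ rfl rfl
  · right
    push Not at hall
    obtain ⟨u1, e, e', he, he', hne⟩ := hall
    have hIIu1 : ∀ d d' : Dt_j4429 φ, d.u = u1 → d'.u = u1 → Rf d d' := by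
      rcases hdu u1 with h2 | h2
      · exact absurd (h2 e e' he he') hne
      · exact h2
    have hu10 : u1 ≠ 0 := by
      rintro rfl
      apply e.hgu
      rw [he, map_zero]
    have hIIg : ∀ g0 : Y →L[ℂ] ℂ, g0 u1 ≠ 0 →
        ∀ d d' : Dt_j4429 φ, d.g = g0 → d'.g = g0 → Rx d d' := by
      intro g0 hg0
      rcases hdg g0 with h2 | h2
      · exact h2
      · exact (hno2 u1 g0 hg0 hIIu1 h2).elim
    have hIIu : ∀ u0 : Y, ∀ d d' : Dt_j4429 φ, d.u = u0 → d'.u = u0 → Rf d d' := by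
      intro u0 d d' hd hd'
      have hu00 : u0 ≠ 0 := by
        rintro rfl
        apply d.hgu
        rw [hd, map_zero]
      obtain ⟨g0, hg1, hg2⟩ := SeparatingDual.exists_eq_one_ne_zero_of_ne_zero_pair (R := ℂ)
        hu10 hu00
      have hg1' : g0 u1 ≠ 0 := by rw [hg1]; exact one_ne_zero
      rcases hdu u0 with h2 | h2
      · exact (hno1 u0 g0 hg2 h2 (hIIg g0 hg1')).elim
      · exact h2 d d' hd hd'
    refine ⟨?_, ?_⟩
    · intro u g g' x x' f f' hgu hgu' hr hr'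
      exact hIIu u ⟨u, g, x, f, hgu, hr⟩ ⟨u, g', x', f', hgu', hr'⟩ rfl rfl
    · intro u u' g x x' f f' hgu hgu' hr hr'
      rcases hdg g with h2 | h2
      · exact h2 ⟨u, g, x, f, hgu, hr⟩ ⟨u', g, x', f', hgu', hr'⟩ rfl rfl
      · exact (hno2 u g hgu (hIIu u) h2).elim

end AB


end j4429

-- part 4430
section j4430
section AB
variable {X Y V : Type*} [NormedAddCommGroup X] [NormedSpace ℂ X]
  [NormedAddCommGroup Y] [NormedSpace ℂ Y] [NormedAddCommGroup V] [NormedSpace ℂ V]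

theorem cmp_aux1_j4430 (a y : Y) (ha : a ≠ 0) (hy : ∀ c : ℂ, y ≠ c • a) :
    ∃ g : Y →L[ℂ] ℂ, g a = 0 ∧ g y ≠ 0 := by
  obtain ⟨g0, h0⟩ := SeparatingDual.exists_ne_zero (R := ℂ) ha
  have hz : y - (g0 y / g0 a) • a ≠ 0 := sub_ne_zero.2 (hy _)
  obtain ⟨g1, h1⟩ := SeparatingDual.exists_ne_zero (R := ℂ) hz
  refine ⟨g1 - (g1 a / g0 a) • g0, ?_, ?_⟩
  · simp only [sub_apply, smul_apply, smul_eq_mul]
    field_simp
    ring
  · intro h
    apply h1
    rw [map_sub, map_smul, smul_eq_mul]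
    simp only [sub_apply, smul_apply, smul_eq_mul] at h
    rw [← h]
    field_simp

theorem cmp_aux2_j4430 (a : Y) (ys : Finset Y) (h : ∀ y ∈ ys, ∃ g : Y →L[ℂ] ℂ, g a = 0 ∧ g y ≠ 0) :
    ∃ g : Y →L[ℂ] ℂ, g a = 0 ∧ ∀ y ∈ ys, g y ≠ 0 := by
  classical
  induction ys using Finset.induction_on with
  | empty => exact ⟨0, by simp, by simp⟩
  | insert y s hys ih =>
    obtain ⟨g, hg0, hg⟩ := ih (fun z hz => h z (Finset.mem_insert_of_mem hz))
    obtain ⟨g', hg0', hg'⟩ := h y (Finset.mem_insert_self _ _)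
    obtain ⟨c, hc⟩ := Infinite.exists_notMem_finset
      ((insert y s).image (fun z => -(g z) / g' z))
    refine ⟨g + c • g', by simp [hg0, hg0'], ?_⟩
    intro z hz h0
    simp only [add_apply, smul_apply, smul_eq_mul] at h0
    by_cases h1 : g' z = 0
    · rcases Finset.mem_insert.1 hz with rfl | hz'
      · exact hg' h1
      · rw [h1, mul_zero, add_zero] at h0
        exact hg z hz' h0
    · apply hc
      refine Finset.mem_image.2 ⟨z, hz, ?_⟩
      field_simp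
      linear_combination -h0

/-- a small finite set of lines is avoided by `y0 + t e` with `t` real -/
theorem cmp_aux3_j4430 (y0 e : Y) (us : Finset Y) (h : ∀ u ∈ us, ∀ c : ℂ, e ≠ c • u) :
    ∃ t : ℝ, t ≠ 0 ∧ ∀ u ∈ us, ∀ c : ℂ, y0 + (t : ℂ) • e ≠ c • u := by
  have hfin : ∀ u ∈ us, {t : ℝ | ∃ c : ℂ, y0 + (t : ℂ) • e = c • u}.Finite := by
    intro u hu
    apply Set.Subsingleton.finite
    rintro s ⟨c, hc⟩ t ⟨d, hd⟩
    by_contra hne
    have h1 : ((s : ℂ) - t) ≠ 0 := by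
      rw [sub_ne_zero]
      exact_mod_cast hne
    apply h u hu ((c - d) / ((s : ℂ) - t))
    have h2 : ((s : ℂ) - t) • e = (c - d) • u := by
      rw [sub_smul, sub_smul, ← hc, ← hd]
      abel
    rw [div_eq_inv_mul, mul_smul, ← h2, smul_smul, inv_mul_cancel₀ h1, one_smul]
  have hF : (({0} : Set ℝ) ∪ ⋃ u ∈ us, {t : ℝ | ∃ c : ℂ, y0 + (t : ℂ) • e = c • u}).Finite := by
    refine (Set.finite_singleton 0).union ?_
    exact us.finite_toSet.biUnion (fun u hu => hfin u hu)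
  obtain ⟨t, ht⟩ := hF.exists_notMem
  simp only [Set.mem_union, Set.mem_singleton_iff, Set.mem_iUnion, not_or, not_exists] at ht
  refine ⟨t, ht.1, ?_⟩
  intro u hu c hc
  exact ht.2 u hu ⟨c, hc⟩

/-- a finite set of lines is avoided -/
theorem cmp_aux4_j4430 (hd : ∃ a b : Y, LinearIndependent ℂ ![a, b]) (us : Finset Y) :
    ∃ y : Y, ∀ u ∈ us, ∀ c : ℂ, y ≠ c • u := by
  obtain ⟨a, b, hab⟩ := hd
  rw [LinearIndependent.pair_iff] at hab
  have hfin : ∀ u ∈ us, {t : ℂ | ∃ c : ℂ, a + t • b = c • u}.Finite := by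
    intro u hu
    apply Set.Subsingleton.finite
    rintro s ⟨c, hc⟩ t ⟨d, hd⟩
    have h1 : (d - c) • a + (d * s - c * t) • b = 0 := by
      have : d • (a + s • b) - c • (a + t • b) = 0 := by
        rw [hc, hd, smul_smul, smul_smul, mul_comm, sub_self]
      rw [← this]
      module
    obtain ⟨h2, h3⟩ := hab _ _ h1
    have h4 : c ≠ 0 := by
      rintro rfl
      rw [zero_smul] at hc
      have h5 : (1 : ℂ) • a + s • b = 0 := by rw [one_smul, hc]
      exact one_ne_zero (hab _ _ h5).1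
    have h5 : d = c := by linear_combination h2
    rw [h5, ← mul_sub] at h3
    rcases mul_eq_zero.1 h3 with h6 | h6
    · exact absurd h6 h4
    · linear_combination h6
  have hF : (⋃ u ∈ us, {t : ℂ | ∃ c : ℂ, a + t • b = c • u}).Finite :=
    us.finite_toSet.biUnion (fun u hu => hfin u hu)
  obtain ⟨t, ht⟩ := hF.exists_notMem
  simp only [Set.mem_iUnion, not_exists] at ht
  exact ⟨a + t • b, fun u hu c hc => ht u hu ⟨c, hc⟩⟩

theorem cmp_aux_real_j4430 {σ : ℂ →+* ℂ} (hσ : σ = RingHom.id ℂ ∨ σ = starRingEnd ℂ) (t : ℝ) :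
    σ (t : ℂ) = t := by
  rcases hσ with rfl | rfl
  · rfl
  · exact Complex.conj_ofReal t

theorem compare {σ σ' : ℂ →+* ℂ} (hσ : σ = RingHom.id ℂ ∨ σ = starRingEnd ℂ)
    (hσ' : σ' = RingHom.id ℂ ∨ σ' = starRingEnd ℂ) (A : V →SL[σ] Y) (A' : V →SL[σ'] Y) {u u0 : Y}
    (hA : Function.Surjective A) (hA' : Function.Surjective A') (hu : u ≠ 0) (hu0 : u0 ≠ 0)
    (hd : ∃ a b : Y, LinearIndependent ℂ ![a, b])
    (h : ∀ g : Y →L[ℂ] ℂ, g u ≠ 0 → g u0 ≠ 0 → ∀ w, g (A w) = 0 → g (A' w) = 0) :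
    σ = σ' ∧ ∃ κ : ℂ, κ ≠ 0 ∧ ∀ w, A' w = κ • A w := by
  classical
  -- generic vectors
  have hne : ∀ w, (∀ c : ℂ, A w ≠ c • u) → A w ≠ 0 := by
    intro w hw h0
    exact hw 0 (by rw [h0, zero_smul])
  have hinv : ∀ w, (∀ c : ℂ, A w ≠ c • u) → ∀ p : Y, p ≠ 0 → (∀ c : ℂ, A w ≠ c • p) →
      ∀ c : ℂ, p ≠ c • A w := by
    intro w hw p hp hwp c hc
    have hc0 : c ≠ 0 := by
      rintro rfl
      rw [zero_smul] at hc
      exact hp hc
    apply hwp c⁻¹
    rw [hc, smul_smul, inv_mul_cancel₀ hc0, one_smul]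
  have hpar : ∀ w, (∀ c : ℂ, A w ≠ c • u) → (∀ c : ℂ, A w ≠ c • u0) → ∃ c : ℂ, A' w = c • A w := by
    intro w hw hw0
    by_contra hcon
    push Not at hcon
    have h1 := cmp_aux1_j4430 (A w) (A' w) (hne w hw) hcon
    have h2 := cmp_aux1_j4430 (A w) u (hne w hw) (hinv w hw u hu hw)
    have h3 := cmp_aux1_j4430 (A w) u0 (hne w hw) (hinv w hw u0 hu0 hw0)
    obtain ⟨g, hg0, hg⟩ := cmp_aux2_j4430 (A w) {A' w, u, u0} (by
      intro y hy
      simp only [Finset.mem_insert, Finset.mem_singleton] at hy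
      rcases hy with rfl | rfl | rfl
      · exact h1
      · exact h2
      · exact h3)
    exact hg (A' w) (by simp) (h g (hg u (by simp)) (hg u0 (by simp)) w hg0)
  -- the factor is the same for independent generic vectors
  have hcst1 : ∀ w w' : V, (∀ c : ℂ, A w ≠ c • u) → (∀ c : ℂ, A w ≠ c • u0) →
      (∀ c : ℂ, A w' ≠ c • u) → (∀ c : ℂ, A w' ≠ c • u0) → (∀ c : ℂ, A w' ≠ c • A w) →
      ∀ c c' : ℂ, A' w = c • A w → A' w' = c' • A w' → c = c' := by
    intro w w' h1 h2 h3 h4 h5 c c' hc hc'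
    obtain ⟨t, ht0, ht⟩ := cmp_aux3_j4430 (A w) (A w') {u, u0} (by
      intro y hy
      simp only [Finset.mem_insert, Finset.mem_singleton] at hy
      rcases hy with rfl | rfl
      · exact h3
      · exact h4)
    have e1 : A (w + (t : ℂ) • w') = A w + (t : ℂ) • A w' := by
      rw [map_add, map_smulₛₗ, cmp_aux_real_j4430 hσ]
    have e2 : A' (w + (t : ℂ) • w') = A' w + (t : ℂ) • A' w' := by
      rw [map_add, map_smulₛₗ, cmp_aux_real_j4430 hσ']
    obtain ⟨d, hd⟩ := hpar (w + (t : ℂ) • w') (by rw [e1]; exact ht u (by simp))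
      (by rw [e1]; exact ht u0 (by simp))
    rw [e1, e2, hc, hc'] at hd
    have ht1 : (t : ℂ) ≠ 0 := by exact_mod_cast ht0
    have h6 : (t * (c' - d)) • A w' = (d - c) • A w := by
      have : (t * (c' - d)) • A w' - (d - c) • A w =
          (c • A w + (t : ℂ) • c' • A w') - d • (A w + (t : ℂ) • A w') := by module
      rw [hd, sub_self] at this
      exact sub_eq_zero.1 this
    have h7 : c' - d = 0 := by
      by_contra h8
      have h9 : (t : ℂ) * (c' - d) ≠ 0 := mul_ne_zero ht1 h8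
      apply h5 ((t * (c' - d))⁻¹ * (d - c))
      rw [mul_smul, ← h6, smul_smul, inv_mul_cancel₀ h9, one_smul]
    rw [h7, mul_zero, zero_smul] at h6
    rcases smul_eq_zero.1 h6.symm with h8 | h8
    · linear_combination -h8 - h7
    · exact absurd h8 (hne w h1)
  have hcst : ∀ w w' : V, (∀ c : ℂ, A w ≠ c • u) → (∀ c : ℂ, A w ≠ c • u0) →
      (∀ c : ℂ, A w' ≠ c • u) → (∀ c : ℂ, A w' ≠ c • u0) →
      ∀ c c' : ℂ, A' w = c • A w → A' w' = c' • A w' → c = c' := by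
    intro w w' h1 h2 h3 h4 c c' hc hc'
    obtain ⟨y, hy⟩ := cmp_aux4_j4430 hd {u, u0, A w, A w'}
    obtain ⟨z, rfl⟩ := hA y
    have k1 := hy u (by simp)
    have k2 := hy u0 (by simp)
    have k3 := hy (A w) (by simp)
    have k4 := hy (A w') (by simp)
    obtain ⟨d, hd'⟩ := hpar z k1 k2
    rw [hcst1 w z h1 h2 k1 k2 k3 c d hc hd', hcst1 w' z h3 h4 k1 k2 k4 c' d hc' hd']
  obtain ⟨y, hy⟩ := cmp_aux4_j4430 hd {u, u0}
  obtain ⟨w1, rfl⟩ := hA y
  have k1 := hy u (by simp)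
  have k2 := hy u0 (by simp)
  obtain ⟨κ, hκ⟩ := hpar w1 k1 k2
  have hgen : ∀ w, (∀ c : ℂ, A w ≠ c • u) → (∀ c : ℂ, A w ≠ c • u0) → A' w = κ • A w := by
    intro w h1 h2
    obtain ⟨c, hc⟩ := hpar w h1 h2
    rw [hc, hcst w w1 h1 h2 k1 k2 c κ hc hκ]
  have hall : ∀ w, A' w = κ • A w := by
    intro w
    obtain ⟨t, ht0, ht⟩ := cmp_aux3_j4430 (A w) (A w1) {u, u0} (by
      intro y hy'
      simp only [Finset.mem_insert, Finset.mem_singleton] at hy'
      rcases hy' with rfl | rfl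
      · exact k1
      · exact k2)
    have ht1 : (t : ℂ) ≠ 0 := by exact_mod_cast ht0
    have e1 : A (w + (t : ℂ) • w1) = A w + (t : ℂ) • A w1 := by
      rw [map_add, map_smulₛₗ, cmp_aux_real_j4430 hσ]
    have e2 : A' (w + (t : ℂ) • w1) = A' w + (t : ℂ) • A' w1 := by
      rw [map_add, map_smulₛₗ, cmp_aux_real_j4430 hσ']
    have h1 := hgen (w + (t : ℂ) • w1) (by rw [e1]; exact ht u (by simp))
      (by rw [e1]; exact ht u0 (by simp))
    rw [e1, e2, hκ] at h1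
    have h2 : A' w - κ • A w = (A' w + (t : ℂ) • κ • A w1) - κ • (A w + (t : ℂ) • A w1) := by
      module
    rw [h1, sub_self] at h2
    exact sub_eq_zero.1 h2
  have hκ0 : κ ≠ 0 := by
    rintro rfl
    obtain ⟨w, hw⟩ := hA' u
    rw [hall w, zero_smul] at hw
    exact hu hw.symm
  refine ⟨?_, κ, hκ0, hall⟩
  have h1 := hall (Complex.I • w1)
  rw [map_smulₛₗ, map_smulₛₗ, hall w1, smul_smul, smul_smul] at h1
  have h2 : σ' Complex.I * κ = κ * σ Complex.I := smul_left_injective ℂ (hne w1 k1) h1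
  have h3 : σ Complex.I = σ' Complex.I := by
    apply mul_left_cancel₀ hκ0
    rw [← h2]
    ring
  have hI : Complex.I ≠ -Complex.I := by
    intro h
    have := congrArg Complex.im h
    simp at this
    norm_num at this
  rcases hσ with rfl | rfl <;> rcases hσ' with rfl | rfl
  · rfl
  · exfalso
    simp only [RingHom.id_apply, Complex.conj_I] at h3
    exact hI h3
  · exfalso
    simp only [RingHom.id_apply, Complex.conj_I] at h3
    exact hI h3.symm
  · rfl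

theorem fs_aux1_j4430 [CompleteSpace V] (W : V → Y) (u : Y) (hu : u ≠ 0)
    (h : ∀ g : Y →L[ℂ] ℂ, g u ≠ 0 → ∃ f : V →L[ℂ] ℂ, ∀ v, ‖g (W v)‖ = ‖f v‖) :
    ∃ (σ : ℂ →+* ℂ) (_ : σ = RingHom.id ℂ ∨ σ = starRingEnd ℂ) (A : V →SL[σ] Y),
      ∀ v, ∃ c : ℂ, ‖c‖ = 1 ∧ W v = c • A v := by
  rcases wigner W u hu h with ⟨A, hA⟩ | ⟨A, hA⟩
  · exact ⟨_, Or.inl rfl, A, hA⟩
  · exact ⟨_, Or.inr rfl, A, hA⟩

theorem fs_aux2_j4430 {σ : ℂ →+* ℂ} (hσ : σ = RingHom.id ℂ ∨ σ = starRingEnd ℂ) (c : ℂ) :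
    ∃ d, σ d = c := by
  rcases hσ with rfl | rfl
  · exact ⟨c, rfl⟩
  · exact ⟨starRingEnd ℂ c, Complex.conj_conj c⟩

theorem fs_aux3_j4430 [CompleteSpace V]
    (φ : (X →L[ℂ] X) → (Y →L[ℂ] Y)) (hs : Function.Surjective φ)
    (τ : (X →L[ℂ] X) → (V →L[ℂ] V)) (hτt : ∀ v w : V, v ≠ 0 → ∃ T, τ T v = w)
    (v : Y → V) (hv : ∀ u, u ≠ 0 → v u ≠ 0)
    (F : Y → (Y →L[ℂ] ℂ) → (V →L[ℂ] ℂ))
    (hF : ∀ u g, g u ≠ 0 → ∀ T, ‖g (φ T u)‖ = ‖F u g (τ T (v u))‖) (u : Y) (hu : u ≠ 0) :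
    ∃ (σ : ℂ →+* ℂ) (_ : σ = RingHom.id ℂ ∨ σ = starRingEnd ℂ) (A : V →SL[σ] Y),
      Function.Surjective A ∧ (∀ g : Y →L[ℂ] ℂ, g u ≠ 0 → ∀ w, ‖g (A w)‖ = ‖F u g w‖) ∧
      ∀ T, ∃ c : ℂ, ‖c‖ = 1 ∧ φ T u = c • A (τ T (v u)) := by
  have hT : ∀ w : V, ∃ T, τ T (v u) = w := fun w => hτt (v u) w (hv u hu)
  choose Tw hTw using hT
  have hW : ∀ g : Y →L[ℂ] ℂ, g u ≠ 0 → ∀ w, ‖g (φ (Tw w) u)‖ = ‖F u g w‖ := by
    intro g hg w
    rw [hF u g hg, hTw]
  obtain ⟨σ, hσ, A, hA⟩ := fs_aux1_j4430 (fun w => φ (Tw w) u) u hu (fun g hg => ⟨F u g, hW g hg⟩)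
  have hAg : ∀ g : Y →L[ℂ] ℂ, g u ≠ 0 → ∀ w, ‖g (A w)‖ = ‖F u g w‖ := by
    intro g hg w
    obtain ⟨c, hc, h1⟩ := hA w
    rw [← hW g hg w]
    rw [show φ (Tw w) u = c • A w from h1, map_smul, norm_smul, hc, one_mul]
  have hph : ∀ T, ∃ c : ℂ, ‖c‖ = 1 ∧ φ T u = c • A (τ T (v u)) := by
    intro T
    apply eq_phase hu
    intro g hg
    rw [hF u g hg, hAg g hg]
  refine ⟨σ, hσ, A, ?_, hAg, hph⟩
  intro y
  obtain ⟨k, hk⟩ := SeparatingDual.exists_eq_one (R := ℂ) hu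
  obtain ⟨T, hT⟩ := hs (rk y k)
  obtain ⟨c, hc, h1⟩ := hph T
  obtain ⟨d, hd⟩ := fs_aux2_j4430 hσ c
  refine ⟨d • τ T (v u), ?_⟩
  rw [map_smulₛₗ, hd, ← h1, hT]
  simp [rk, hk]

theorem fs_aux4_j4430 {a b : Y} (h : ¬ LinearIndependent ℂ ![a, b]) :
    ∃ s t : ℂ, s • a + t • b = 0 ∧ (s = 0 → t ≠ 0) := by
  rw [LinearIndependent.pair_iff] at h
  push Not at h
  exact h

theorem fs_aux5_j4430 [CompleteSpace V] [Nontrivial Y]
    (φ : (X →L[ℂ] X) → (Y →L[ℂ] Y)) (hs : Function.Surjective φ)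
    (τ : (X →L[ℂ] X) → (V →L[ℂ] V)) (hτt : ∀ v w : V, v ≠ 0 → ∃ T, τ T v = w)
    (v : Y → V) (hv : ∀ u, u ≠ 0 → v u ≠ 0)
    (F : Y → (Y →L[ℂ] ℂ) → (V →L[ℂ] ℂ))
    (hF : ∀ u g, g u ≠ 0 → ∀ T, ‖g (φ T u)‖ = ‖F u g (τ T (v u))‖)
    (hpar : ∀ u u' g, g u ≠ 0 → g u' ≠ 0 → ¬ LinearIndependent ℂ ![F u g, F u' g]) :
    ∃ (σ : ℂ →+* ℂ) (_ : σ = RingHom.id ℂ ∨ σ = starRingEnd ℂ) (A : V →SL[σ] Y),
      Function.Surjective A ∧ ∀ u : Y, u ≠ 0 → ∃ κ : ℂ, κ ≠ 0 ∧ ∃ v' : V,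
        ∀ T, ∃ c : ℂ, ‖c‖ = 1 ∧ φ T u = c • κ • A (τ T v') := by
  obtain ⟨u0, hu0⟩ := exists_ne (0 : Y)
  obtain ⟨σ, hσ, A, hA, hAg, hAT⟩ := fs_aux3_j4430 φ hs τ hτt v hv F hF u0 hu0
  refine ⟨σ, hσ, A, hA, ?_⟩
  intro u hu
  by_cases hd : ∃ a b : Y, LinearIndependent ℂ ![a, b]
  · obtain ⟨σ', hσ', A', hA', hAg', hAT'⟩ := fs_aux3_j4430 φ hs τ hτt v hv F hF u hu
    obtain ⟨-, κ, hκ0, hκ⟩ := compare hσ hσ' A A' (u := u) (u0 := u0) hA hA' hu hu0 hd (by
      intro g hgu hgu0 w hw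
      have h1 : F u0 g w = 0 := by
        rw [← norm_eq_zero, ← hAg g hgu0 w, hw, norm_zero]
      have hdep := hpar u u0 g hgu hgu0
      rw [LinearIndependent.pair_iff] at hdep
      push Not at hdep
      obtain ⟨s, t, hst, hs0⟩ := hdep
      have hev : ∀ w', s * F u g w' + t * F u0 g w' = 0 := by
        intro w'
        have h2 := congrArg (fun f : V →L[ℂ] ℂ => f w') hst
        simpa using h2
      have hs1 : s ≠ 0 := by
        intro h2
        have ht := hs0 h2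
        obtain ⟨w', hw'⟩ := hA u0
        have h3 := hev w'
        rw [h2, zero_mul, zero_add] at h3
        rcases mul_eq_zero.1 h3 with h4 | h4
        · exact ht h4
        · have h5 := hAg g hgu0 w'
          rw [hw', h4, norm_zero, norm_eq_zero] at h5
          exact hgu0 h5
      have h5 := hev w
      rw [h1, mul_zero, add_zero] at h5
      have h6 := hAg' g hgu w
      rw [(mul_eq_zero.1 h5).resolve_left hs1, norm_zero, norm_eq_zero] at h6
      exact h6)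
    refine ⟨κ, hκ0, v u, ?_⟩
    intro T
    obtain ⟨c, hc, h⟩ := hAT' T
    exact ⟨c, hc, by rw [h, hκ]⟩
  · push Not at hd
    obtain ⟨s, t, hst, hs0⟩ := fs_aux4_j4430 (hd u u0)
    have hs1 : s ≠ 0 := by
      intro h2
      have ht := hs0 h2
      rw [h2, zero_smul, zero_add] at hst
      rcases smul_eq_zero.1 hst with h3 | h3
      · exact ht h3
      · exact hu0 h3
    have hz : u = (-(s⁻¹ * t)) • u0 := by
      have : s⁻¹ • (s • u + t • u0) = 0 := by rw [hst, smul_zero]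
      rw [smul_add, smul_smul, smul_smul, inv_mul_cancel₀ hs1, one_smul] at this
      rw [neg_smul]
      exact eq_neg_of_add_eq_zero_left this
    refine ⟨-(s⁻¹ * t), ?_, v u0, ?_⟩
    · intro h0
      rw [h0, zero_smul] at hz
      exact hu hz
    · intro T
      obtain ⟨c, hc, h⟩ := hAT T
      refine ⟨c, hc, ?_⟩
      rw [hz, map_smul, h, smul_comm]

theorem FS [CompleteSpace V] [CompleteSpace Y] [Nontrivial Y]
    (φ : (X →L[ℂ] X) → (Y →L[ℂ] Y)) (hs : Function.Surjective φ) (h0 : ∀ T, φ T = 0 → T = 0)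
    (τ : (X →L[ℂ] X) → (V →L[ℂ] V)) (hτ1 : τ 1 = 1) (hτt : ∀ v w : V, v ≠ 0 → ∃ T, τ T v = w)
    (hτr : ∀ ζ : V, ζ ≠ 0 → ∃ T, T ≠ 0 ∧ ∀ v, ∃ c : ℂ, τ T v = c • ζ)
    (v : Y → V) (hv : ∀ u, u ≠ 0 → v u ≠ 0)
    (F : Y → (Y →L[ℂ] ℂ) → (V →L[ℂ] ℂ))
    (hF : ∀ u g, g u ≠ 0 → ∀ T, ‖g (φ T u)‖ = ‖F u g (τ T (v u))‖)
    (hpar : ∀ u u' g, g u ≠ 0 → g u' ≠ 0 → ¬ LinearIndependent ℂ ![F u g, F u' g]) :
    (∃ A : V ≃L[ℂ] Y, ∀ T, ∃ c : ℂ, ‖c‖ = 1 ∧ ∀ y, φ T y = c • A (τ T (A.symm (φ 1 y)))) ∨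
    (∃ A : V ≃SL[starRingEnd ℂ] Y, ∀ T, ∃ c : ℂ, ‖c‖ = 1 ∧
      ∀ y, φ T y = c • A (τ T (A.symm (φ 1 y)))) := by
  obtain ⟨σ, hσ, A, hA, hM⟩ := fs_aux5_j4430 φ hs τ hτt v hv F hF hpar
  have hker : ∀ ζ, A ζ = 0 → ζ = 0 := by
    intro ζ hζ
    by_contra hζ0
    obtain ⟨T, hT0, hT⟩ := hτr ζ hζ0
    apply hT0
    apply h0
    ext y
    by_cases hy : y = 0
    · rw [hy, map_zero, map_zero]
    · obtain ⟨κ, -, v', h1⟩ := hM y hy
      obtain ⟨c, -, h2⟩ := h1 T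
      obtain ⟨d, hd⟩ := hT v'
      rw [h2, hd, map_smulₛₗ, hζ, smul_zero, smul_zero, smul_zero]
      rfl
  have hinj : Function.Injective A := by
    intro a b hab
    have : A (a - b) = 0 := by rw [map_sub, hab, sub_self]
    exact sub_eq_zero.1 (hker _ this)
  have key : ∀ T, ∀ y z, A z = φ 1 y → ∃ c : ℂ, ‖c‖ = 1 ∧ φ T y = c • A (τ T z) := by
    intro T y z hz
    by_cases hy : y = 0
    · subst hy
      rw [map_zero] at hz
      rw [hker z hz]
      exact ⟨1, norm_one, by simp⟩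
    · obtain ⟨κ, hκ, v', h1⟩ := hM y hy
      obtain ⟨c1, hc1, h2⟩ := h1 1
      obtain ⟨c, hc, h3⟩ := h1 T
      obtain ⟨d, hd⟩ := fs_aux2_j4430 hσ (c1 * κ)
      have hz' : z = d • v' := by
        apply hinj
        rw [hz, h2, hτ1, map_smulₛₗ, hd, smul_smul]
        rfl
      have hc10 : c1 ≠ 0 := by
        rintro rfl
        simp at hc1
      refine ⟨c / c1, by rw [norm_div, hc, hc1, div_one], ?_⟩
      rw [hz', map_smul, map_smulₛₗ, hd, h3, smul_smul, smul_smul]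
      congr 1
      field_simp
  rcases hσ with rfl | rfl
  · left
    let e : V ≃L[ℂ] Y := ContinuousLinearEquiv.ofBijective A
      (LinearMap.ker_eq_bot.2 hinj) (LinearMap.range_eq_top.2 hA)
    have he : ∀ z, e z = A z := fun z => rfl
    refine ⟨e, ?_⟩
    intro T
    obtain ⟨c, hc, h⟩ := eq_phase_op (R1 := φ T)
      (R2 := (e : V →L[ℂ] Y).comp ((τ T).comp ((e.symm : Y →L[ℂ] V).comp (φ 1)))) (by
        intro y
        obtain ⟨c, hc, h⟩ := key T y (e.symm (φ 1 y)) (by rw [← he, e.apply_symm_apply])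
        exact ⟨c, hc, h⟩)
    refine ⟨c, hc, ?_⟩
    intro y
    rw [h]
    rfl
  · right
    let e : V ≃SL[starRingEnd ℂ] Y := ContinuousLinearEquiv.ofBijective A
      (LinearMap.ker_eq_bot.2 hinj) (LinearMap.range_eq_top.2 hA)
    have he : ∀ z, e z = A z := fun z => rfl
    refine ⟨e, ?_⟩
    intro T
    obtain ⟨c, hc, h⟩ := eq_phase_op (R1 := φ T)
      (R2 := (e : V →SL[starRingEnd ℂ] Y).comp
        ((τ T).comp ((e.symm : Y →SL[starRingEnd ℂ] V).comp (φ 1)))) (by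
        intro y
        obtain ⟨c, hc, h⟩ := key T y (e.symm (φ 1 y)) (by rw [← he, e.apply_symm_apply])
        exact ⟨c, hc, h⟩)
    refine ⟨c, hc, ?_⟩
    intro y
    rw [h]
    rfl

end AB


end j4430

-- part 4487
section j4487
section AB
variable {X Y V : Type*} [NormedAddCommGroup X] [NormedSpace ℂ X]
  [NormedAddCommGroup Y] [NormedSpace ℂ Y] [NormedAddCommGroup V] [NormedSpace ℂ V]

theorem par_of_j4487 {E : Type*} [NormedAddCommGroup E] [NormedSpace ℂ E] {x y : E} (hx : x ≠ 0)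
    (h : ¬ LinearIndependent ℂ ![x, y]) : ∃ c : ℂ, y = c • x := by
  rw [LinearIndependent.pair_iff' hx] at h
  push Not at h
  obtain ⟨a, ha⟩ := h
  exact ⟨a, ha.symm⟩

theorem par_smul_j4487 {E : Type*} [NormedAddCommGroup E] [NormedSpace ℂ E] {x y : E} (c d : ℂ)
    (h : ¬ LinearIndependent ℂ ![x, y]) : ¬ LinearIndependent ℂ ![c • x, d • y] := by
  intro hl
  apply h
  have hl' := LinearIndependent.pair_iff.1 hl
  have hc : c ≠ 0 := by
    intro hc
    have := (hl' 1 0 (by rw [hc]; simp)).1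
    exact one_ne_zero this
  have hd : d ≠ 0 := by
    intro hd
    have := (hl' 0 1 (by rw [hd]; simp)).2
    exact one_ne_zero this
  rw [LinearIndependent.pair_iff]
  intro s t hst
  have h1 := hl' (s / c) (t / d) (by
    rw [smul_smul, smul_smul, div_mul_cancel₀ _ hc, div_mul_cancel₀ _ hd]; exact hst)
  constructor
  · have := h1.1
    rcases div_eq_zero_iff.1 this with h2 | h2
    · exact h2
    · exact absurd h2 hc
  · have := h1.2
    rcases div_eq_zero_iff.1 this with h2 | h2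
    · exact h2
    · exact absurd h2 hd

theorem AB_structure [CompleteSpace X] [CompleteSpace Y] [Nontrivial Y]
    (φ : (X →L[ℂ] X) → (Y →L[ℂ] Y)) (hs : Function.Surjective φ)
    (h0 : ∀ T, φ T = 0 → T = 0) (h1 : ∀ u g, g u ≠ 0 → ∃ x f, Rel φ x f u g) :
    ((∃ A : X ≃L[ℂ] Y, ∀ T, ∃ c : ℂ, ‖c‖ = 1 ∧ ∀ y, φ T y = c • A (T (A.symm (φ 1 y)))) ∨
    (∃ A : X ≃SL[starRingEnd ℂ] Y, ∀ T, ∃ c : ℂ, ‖c‖ = 1 ∧
      ∀ y, φ T y = c • A (T (A.symm (φ 1 y))))) ∨
    ((∃ A : (X →L[ℂ] ℂ) ≃L[ℂ] Y, ∀ T : X →L[ℂ] X, ∃ c : ℂ, ‖c‖ = 1 ∧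
      ∀ y, φ T y = c • A ((A.symm (φ 1 y)).comp T)) ∨
    (∃ A : (X →L[ℂ] ℂ) ≃SL[starRingEnd ℂ] Y, ∀ T : X →L[ℂ] X, ∃ c : ℂ, ‖c‖ = 1 ∧
      ∀ y, φ T y = c • A ((A.symm (φ 1 y)).comp T))) := by
  classical
  have hex : ∀ u : Y, ∃ x : X, ∃ f : X →L[ℂ] ℂ, ∃ k : Y →L[ℂ] ℂ,
      u ≠ 0 → k u ≠ 0 ∧ Rel φ x f u k := by
    intro u
    by_cases hu : u = 0
    · exact ⟨0, 0, 0, fun h => absurd hu h⟩
    · obtain ⟨k, hk⟩ := SeparatingDual.exists_ne_zero (R := ℂ) hu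
      obtain ⟨x, f, hxf⟩ := h1 u k hk
      exact ⟨x, f, k, fun _ => ⟨hk, hxf⟩⟩
  choose xu fu ku hku using hex
  have hune : ∀ (u : Y) (g : Y →L[ℂ] ℂ), g u ≠ 0 → u ≠ 0 := by
    intro u g hgu hu
    apply hgu
    rw [hu, map_zero]
  rcases types hs h0 h1 with ⟨hA, hB⟩ | ⟨hA, hB⟩
  · left
    have hex2 : ∀ (u : Y) (g : Y →L[ℂ] ℂ), ∃ F' : X →L[ℂ] ℂ, g u ≠ 0 →
        (∀ T : X →L[ℂ] X, ‖g (φ T u)‖ = ‖F' (T (xu u))‖) ∧
        ∃ (x' : X) (f' : X →L[ℂ] ℂ) (c : ℂ), Rel φ x' f' u g ∧ F' = c • f' := by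
      intro u g
      by_cases hgu : g u = 0
      · exact ⟨0, fun h => absurd hgu h⟩
      · obtain ⟨x', f', hr⟩ := h1 u g hgu
        obtain ⟨hk, hr0⟩ := hku u (hune u g hgu)
        have hx0 := (Rel.ne hs hr0 hk).1
        obtain ⟨c, hc⟩ := par_of_j4487 hx0 (hA u (ku u) g (xu u) x' (fu u) f' hk hgu hr0 hr)
        refine ⟨c • f', fun _ => ⟨?_, x', f', c, hr, rfl⟩⟩
        intro T
        rw [hr T, hc, map_smul, map_smul]
        rfl
    choose F hF using hex2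
    refine FS (V := X) φ hs h0 (fun T => T) rfl ?_ ?_ xu ?_ F ?_ ?_
    · intro v w hv
      obtain ⟨k, hk⟩ := SeparatingDual.exists_eq_one (R := ℂ) hv
      refine ⟨rk w k, ?_⟩
      show k v • w = w
      rw [hk, one_smul]
    · intro ζ hζ
      obtain ⟨k, hk⟩ := SeparatingDual.exists_eq_one (R := ℂ) hζ
      refine ⟨rk ζ k, ?_, fun v => ⟨k v, rfl⟩⟩
      intro h
      have h2 : (rk ζ k) ζ = 0 := by rw [h]; rfl
      have h3 : k ζ • ζ = 0 := h2
      rw [hk, one_smul] at h3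
      exact hζ h3
    · intro u hu
      obtain ⟨hk, hr0⟩ := hku u hu
      exact (Rel.ne hs hr0 hk).1
    · intro u g hgu T
      exact (hF u g hgu).1 T
    · intro u u' g hgu hgu'
      obtain ⟨-, x1, f1, c1, hr1, e1⟩ := hF u g hgu
      obtain ⟨-, x2, f2, c2, hr2, e2⟩ := hF u' g hgu'
      rw [e1, e2]
      exact par_smul_j4487 c1 c2 (hB u u' g x1 x2 f1 f2 hgu hgu' hr1 hr2)
  · right
    have hex2 : ∀ (u : Y) (g : Y →L[ℂ] ℂ), ∃ F' : (X →L[ℂ] ℂ) →L[ℂ] ℂ, g u ≠ 0 →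
        (∀ T : X →L[ℂ] X, ‖g (φ T u)‖ = ‖F' ((fu u).comp T)‖) ∧
        ∃ (x' : X) (f' : X →L[ℂ] ℂ) (c : ℂ), Rel φ x' f' u g ∧
          F' = c • ContinuousLinearMap.apply ℂ ℂ x' := by
      intro u g
      by_cases hgu : g u = 0
      · exact ⟨0, fun h => absurd hgu h⟩
      · obtain ⟨x', f', hr⟩ := h1 u g hgu
        obtain ⟨hk, hr0⟩ := hku u (hune u g hgu)
        have hf0 := (Rel.ne hs hr0 hk).2
        obtain ⟨c, hc⟩ := par_of_j4487 hf0 (hA u (ku u) g (xu u) x' (fu u) f' hk hgu hr0 hr)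
        refine ⟨c • ContinuousLinearMap.apply ℂ ℂ x', fun _ => ⟨?_, x', f', c, hr, rfl⟩⟩
        intro T
        rw [hr T, hc]
        rfl
    choose F hF using hex2
    have hcc := FS (V := X →L[ℂ] ℂ) φ hs h0
      (fun T => (ContinuousLinearMap.compL ℂ X X ℂ).flip T) ?_ ?_ ?_ fu ?_ F ?_ ?_
    · exact hcc
    · ext f x
      rfl
    · intro v w hv
      obtain ⟨x0, hx0⟩ : ∃ x0, v x0 ≠ 0 := by
        by_contra hcon
        push Not at hcon
        exact hv (ContinuousLinearMap.ext hcon)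
      refine ⟨rk ((v x0)⁻¹ • x0) w, ?_⟩
      ext x
      show v (w x • ((v x0)⁻¹ • x0)) = w x
      rw [map_smul, map_smul, smul_eq_mul, smul_eq_mul, inv_mul_cancel₀ hx0, mul_one]
    · intro ζ hζ
      obtain ⟨x0, hx0⟩ : ∃ x0, ζ x0 ≠ 0 := by
        by_contra hcon
        push Not at hcon
        exact hζ (ContinuousLinearMap.ext hcon)
      refine ⟨rk x0 ζ, ?_, fun v => ⟨v x0, ?_⟩⟩
      · intro h
        have h2 : (rk x0 ζ) x0 = 0 := by rw [h]; rfl
        have h3 : ζ x0 • x0 = 0 := h2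
        rcases smul_eq_zero.1 h3 with h4 | h4
        · exact hx0 h4
        · apply hx0; rw [h4, map_zero]
      · ext x
        show v (ζ x • x0) = v x0 • ζ x
        rw [map_smul, smul_eq_mul, smul_eq_mul, mul_comm]
    · intro u hu
      obtain ⟨hk, hr0⟩ := hku u hu
      exact (Rel.ne hs hr0 hk).2
    · intro u g hgu T
      exact (hF u g hgu).1 T
    · intro u u' g hgu hgu'
      obtain ⟨-, x1, f1, c1, hr1, e1⟩ := hF u g hgu
      obtain ⟨-, x2, f2, c2, hr2, e2⟩ := hF u' g hgu'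
      rw [e1, e2]
      apply par_smul_j4487 c1 c2
      have hne := hB u u' g x1 x2 f1 f2 hgu hgu' hr1 hr2
      obtain ⟨c, hc⟩ := par_of_j4487 (Rel.ne hs hr1 hgu).1 hne
      intro hli
      have h5 := (LinearIndependent.pair_iff.1 hli) (-c) 1 (by
        rw [hc]
        ext f
        simp)
      exact one_ne_zero h5.2

end AB


end j4487

section cd
variable {X Y : Type*} [NormedAddCommGroup X] [NormedSpace ℂ X] [CompleteSpace X]
  [NormedAddCommGroup Y] [NormedSpace ℂ Y] [CompleteSpace Y]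

theorem sr_conj {σ : ℂ →+* ℂ} [RingHomInvPair σ σ]
    [RingHomIsometric σ] (A : X ≃SL[σ] Y) (T : X →L[ℂ] X) (S : Y →L[ℂ] Y)
    (h : ∀ x, S (A x) = A (T x)) : sr S = sr T := by
  unfold sr
  rw [Pool.Agent.Helper729.SRD.specRad_conj A T S h]

theorem sr_dual {σ : ℂ →+* ℂ} [RingHomInvPair σ σ]
    [RingHomIsometric σ] (A : (X →L[ℂ] ℂ) ≃SL[σ] Y) (T : X →L[ℂ] X) (S : Y →L[ℂ] Y)
    (h : ∀ f : X →L[ℂ] ℂ, S (A f) = A (f.comp T)) : sr S = sr T := by
  unfold sr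
  rw [Pool.Agent.Helper729.SRD.specRad_dual A T S h]

/-- on a reflexive space every operator on the dual is an adjoint -/
theorem adj_surj (hX : Function.Surjective (fun x : X => (ContinuousLinearMap.apply ℂ ℂ x :
      (X →L[ℂ] ℂ) →L[ℂ] ℂ))) (S : (X →L[ℂ] ℂ) →L[ℂ] (X →L[ℂ] ℂ)) :
    ∃ T : X →L[ℂ] X, ∀ f : X →L[ℂ] ℂ, S f = f.comp T := by
  obtain ⟨T, hT⟩ := Pool.Agent.Helper729.SRD.dual_surj (σ := RingHom.id ℂ) hX
    (ContinuousLinearEquiv.refl ℂ (X →L[ℂ] ℂ)) S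
  exact ⟨T, fun f => by simpa using hT f⟩

/-- if every operator on the dual is an adjoint then the space is reflexive -/
theorem reflexive_of_adjoint
    (h : ∀ S : (X →L[ℂ] ℂ) →L[ℂ] (X →L[ℂ] ℂ), ∃ T : X →L[ℂ] X, ∀ f : X →L[ℂ] ℂ,
      S f = f.comp T) : IsRefl X :=
  Pool.Agent.Helper729.SRD.reflexive_of_adjoint h

end cd



-- part 4488
section j4488
section AB
variable {X Y : Type*} [NormedAddCommGroup X] [NormedSpace ℂ X]
  [NormedAddCommGroup Y] [NormedSpace ℂ Y]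

theorem sr_smul' [CompleteSpace X] (c : ℂ) (T : X →L[ℂ] X) : sr (c • T) = ‖c‖ * sr T := by
  by_cases hc : c = 0
  · subst hc
    rw [zero_smul, norm_zero, zero_mul]
    show (spectralRadius ℂ (0 : X →L[ℂ] X)).toReal = 0
    rw [spectrum.spectralRadius_zero]
    rfl
  · have h1 : spectrum ℂ (c • T) = (fun z => c • z) '' spectrum ℂ T :=
      spectrum.unit_smul_eq_smul T (Units.mk0 c hc)
    have h2 : spectralRadius ℂ (c • T) = (‖c‖₊ : ENNReal) * spectralRadius ℂ T := by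
      unfold spectralRadius
      rw [h1, iSup_image, ENNReal.mul_iSup]
      refine iSup_congr fun k => ?_
      rw [ENNReal.mul_iSup]
      refine iSup_congr fun _ => ?_
      rw [smul_eq_mul, nnnorm_mul, ENNReal.coe_mul]
    unfold sr
    rw [h2, ENNReal.toReal_mul]
    rfl

theorem sr_mul_comm' [CompleteSpace X] (S T : X →L[ℂ] X) : sr (S * T) = sr (T * S) := by
  have key : ∀ S T : X →L[ℂ] X, spectralRadius ℂ (S * T) ≤ spectralRadius ℂ (T * S) := by
    intro S T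
    unfold spectralRadius
    refine iSup₂_le ?_
    intro k hk
    by_cases hk0 : k = 0
    · subst hk0
      simp
    · have h1 : k ∈ spectrum ℂ (S * T) \ {0} := ⟨hk, hk0⟩
      rw [spectrum.nonzero_mul_comm] at h1
      exact le_iSup₂ (f := fun (k : ℂ) (_ : k ∈ spectrum ℂ (T * S)) => (‖k‖₊ : ENNReal)) k h1.1
  unfold sr
  rw [le_antisymm (key S T) (key T S)]

theorem j4488_sr_zero_j4488 [CompleteSpace X] : sr (0 : X →L[ℂ] X) = 0 := by
  have := sr_smul' (0 : ℂ) (0 : X →L[ℂ] X)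
  simpa using this

theorem j4488_rk_pow_j4488 (x : X) (f : X →L[ℂ] ℂ) (n : ℕ) :
    (rk x f) ^ (n + 1) = (f x) ^ n • rk x f := by
  induction n with
  | zero => simp
  | succ n ih =>
    rw [pow_succ, ih]
    ext z
    simp only [ContinuousLinearMap.mul_apply, ContinuousLinearMap.smul_apply,
      ContinuousLinearMap.smulRight_apply, map_smul, smul_eq_mul, smul_smul]
    congr 1
    ring

theorem j4488_sr_rk_pow_j4488 [CompleteSpace X] (x : X) (f : X →L[ℂ] ℂ) (n : ℕ) :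
    sr ((rk x f) ^ (n + 1)) = ‖f x‖ ^ (n + 1) := by
  rw [j4488_rk_pow_j4488, sr_smul', sr_rank_one, norm_pow, pow_succ]

theorem j4488_scalar_j4488 {E : Type*} [AddCommGroup E] [Module ℂ E] (D : E →ₗ[ℂ] E)
    (h : ∀ e, ∃ c : ℂ, D e = c • e) : ∃ d : ℂ, ∀ e, D e = d • e := by
  classical
  choose c hc using h
  by_cases hE : ∃ e : E, e ≠ 0
  · obtain ⟨e0, he0⟩ := hE
    refine ⟨c e0, ?_⟩
    intro e
    by_cases hdep : ∃ a : ℂ, e = a • e0
    · obtain ⟨a, rfl⟩ := hdep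
      rw [map_smul, hc e0, smul_comm]
    · -- independent
      have h1 := hc (e + e0)
      rw [map_add, hc e, hc e0, smul_add] at h1
      have h2 : (c e - c (e + e0)) • e = (c (e + e0) - c e0) • e0 := by
        rw [sub_smul, sub_smul]
        have := h1
        rw [← sub_eq_zero] at this ⊢
        rw [← this]
        abel
      have h3 : c e - c (e + e0) = 0 := by
        by_contra hne
        apply hdep
        refine ⟨(c e - c (e + e0))⁻¹ * (c (e + e0) - c e0), ?_⟩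
        rw [mul_smul, ← h2, smul_smul, inv_mul_cancel₀ hne, one_smul]
      have h4 : c (e + e0) - c e0 = 0 := by
        rw [h3, zero_smul] at h2
        by_contra hne
        exact he0 ((smul_eq_zero.1 h2.symm).resolve_left hne)
      rw [hc e]
      congr 1
      linear_combination h3 + h4
  · push Not at hE
    refine ⟨0, ?_⟩
    intro e
    rw [hE e]
    simp

theorem j4488_conj_pow_j4488 {σ : ℂ →+* ℂ} [RingHomInvPair σ σ] [RingHomIsometric σ]
    (A : X ≃SL[σ] Y) (T : X →L[ℂ] X) (S : Y →L[ℂ] Y) (h : ∀ x, S (A x) = A (T x)) (n : ℕ) :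
    ∀ x, (S ^ n) (A x) = A ((T ^ n) x) := by
  induction n with
  | zero => intro x; simp
  | succ n ih =>
    intro x
    rw [pow_succ, pow_succ, ContinuousLinearMap.mul_apply, ContinuousLinearMap.mul_apply, h, ih]

theorem j4488_sigma_j4488 {σ : ℂ →+* ℂ} [RingHomInvPair σ σ] (c : ℂ) : σ (σ c) = c :=
  RingHomInvPair.comp_apply_eq (σ := σ) (σ' := σ)

theorem j4488_direct_j4488 [CompleteSpace X] [CompleteSpace Y] [Nontrivial Y]
    (φ : (X →L[ℂ] X) → (Y →L[ℂ] Y)) (n : ℕ)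
    (h : ∀ T, sr (φ T ^ (n + 1)) = sr (T ^ (n + 1)))
    {σ : ℂ →+* ℂ} [RingHomInvPair σ σ] [RingHomIsometric σ] (A : X ≃SL[σ] Y)
    (hA : ∀ T, ∃ c : ℂ, ‖c‖ = 1 ∧ ∀ y, φ T y = c • A (T (A.symm (φ 1 y)))) :
    ∀ T, ∃ c : ℂ, ‖c‖ = 1 ∧ ∀ y, φ T y = c • A (T (A.symm y)) := by
  let D' : X →L[ℂ] X := (A.symm : Y →SL[σ] X).comp ((φ 1).comp (A : X →SL[σ] Y))
  have hD' : ∀ x, D' x = A.symm (φ 1 (A x)) := fun x => rfl
  have key : ∀ (x : X) (f : X →L[ℂ] ℂ), ‖f (D' x)‖ = ‖f x‖ := by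
    intro x f
    obtain ⟨c, hc, hT⟩ := hA (rk x f)
    let g' : X →L[ℂ] ℂ := σ c • f.comp D'
    have h1 : ∀ z, φ (rk x f) (A z) = A ((rk x g') z) := by
      intro z
      rw [hT (A z), ← hD']
      show c • A (f (D' z) • x) = A ((σ c * f (D' z)) • x)
      rw [map_smulₛₗ, map_smulₛₗ, map_mul, j4488_sigma_j4488, mul_smul]
    have h2 := sr_conj A _ _ (j4488_conj_pow_j4488 A (rk x g') (φ (rk x f)) h1 (n + 1))
    rw [h, j4488_sr_rk_pow_j4488, j4488_sr_rk_pow_j4488] at h2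
    have h3 : ‖f x‖ = ‖g' x‖ := (pow_left_inj₀ (norm_nonneg _) (norm_nonneg _) n.succ_ne_zero).1 h2
    rw [h3]
    show _ = ‖σ c * f (D' x)‖
    rw [norm_mul, RingHomIsometric.norm_map, hc, one_mul]
  have hscal : ∀ x, ∃ c : ℂ, D' x = c • x := by
    intro x
    by_cases hx : x = 0
    · exact ⟨0, by rw [hx]; simp⟩
    · obtain ⟨f, hf⟩ := SeparatingDual.exists_eq_one (R := ℂ) hx
      refine ⟨f (D' x), ?_⟩
      by_contra hne
      have hz : D' x - f (D' x) • x ≠ 0 := sub_ne_zero.2 hne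
      obtain ⟨k, hk⟩ := SeparatingDual.exists_eq_one (R := ℂ) hz
      have e1 : (k - k x • f) x = 0 := by
        simp [hf]
      have e2 : (k - k x • f) (D' x) = 1 := by
        rw [map_sub, map_smul] at hk
        simp only [ContinuousLinearMap.sub_apply, ContinuousLinearMap.smul_apply, smul_eq_mul]
          at hk ⊢
        rw [← hk]
        ring
      have e3 := key x (k - k x • f)
      rw [e1, e2] at e3
      norm_num at e3
  obtain ⟨d, hd⟩ := j4488_scalar_j4488 (D' : X →ₗ[ℂ] X) hscal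
  have hd' : ∀ x, D' x = d • x := hd
  have hnd : ‖d‖ = 1 := by
    obtain ⟨y, hy⟩ := exists_ne (0 : Y)
    have hx : A.symm y ≠ 0 := by
      intro h0
      apply hy
      have := congrArg A h0
      simpa using this
    obtain ⟨f, hf⟩ := SeparatingDual.exists_eq_one (R := ℂ) hx
    have := key (A.symm y) f
    rw [hd', map_smul, hf] at this
    simpa using this
  intro T
  obtain ⟨c, hc, hT⟩ := hA T
  refine ⟨c * σ d, ?_, ?_⟩
  · rw [norm_mul, RingHomIsometric.norm_map, hc, hnd, one_mul]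
  · intro y
    have h1 : A.symm (φ 1 y) = d • A.symm y := by
      have := hd' (A.symm y)
      rw [hD'] at this
      simpa using this
    rw [hT, h1, map_smul, map_smulₛₗ, mul_smul]

theorem j4488_dual_j4488 [CompleteSpace X] [CompleteSpace Y] [Nontrivial Y]
    (φ : (X →L[ℂ] X) → (Y →L[ℂ] Y)) (n : ℕ)
    (h : ∀ T, sr (φ T ^ (n + 1)) = sr (T ^ (n + 1)))
    {σ : ℂ →+* ℂ} [RingHomInvPair σ σ] [RingHomIsometric σ] (A : (X →L[ℂ] ℂ) ≃SL[σ] Y)
    (hA : ∀ T : X →L[ℂ] X, ∃ c : ℂ, ‖c‖ = 1 ∧ ∀ y, φ T y = c • A ((A.symm (φ 1 y)).comp T)) :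
    ∀ T : X →L[ℂ] X, ∃ c : ℂ, ‖c‖ = 1 ∧ ∀ y, φ T y = c • A ((A.symm y).comp T) := by
  let D' : (X →L[ℂ] ℂ) →L[ℂ] (X →L[ℂ] ℂ) :=
    (A.symm : Y →SL[σ] (X →L[ℂ] ℂ)).comp ((φ 1).comp (A : (X →L[ℂ] ℂ) →SL[σ] Y))
  have hD' : ∀ x, D' x = A.symm (φ 1 (A x)) := fun x => rfl
  have key : ∀ (f : X →L[ℂ] ℂ) (x : X), ‖(D' f) x‖ = ‖f x‖ := by
    intro f x
    obtain ⟨c, hc, hT⟩ := hA (rk x f)
    let g' : (X →L[ℂ] ℂ) →L[ℂ] ℂ := σ c • (ContinuousLinearMap.apply ℂ ℂ x).comp D'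
    have h1 : ∀ z, φ (rk x f) (A z) = A ((rk f g') z) := by
      intro z
      rw [hT (A z), ← hD']
      have e1 : (D' z).comp (rk x f) = (D' z) x • f := by
        ext w
        simp [mul_comm]
      have e2 : (rk f g') z = (σ c * (D' z) x) • f := rfl
      rw [e1, e2, map_smulₛₗ, map_smulₛₗ, map_mul, j4488_sigma_j4488, mul_smul]
    have h2 := sr_conj A _ _ (j4488_conj_pow_j4488 A (rk f g') (φ (rk x f)) h1 (n + 1))
    rw [h, j4488_sr_rk_pow_j4488, j4488_sr_rk_pow_j4488] at h2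
    have h3 : ‖f x‖ = ‖g' f‖ := (pow_left_inj₀ (norm_nonneg _) (norm_nonneg _) n.succ_ne_zero).1 h2
    rw [h3]
    show _ = ‖σ c * (D' f) x‖
    rw [norm_mul, RingHomIsometric.norm_map, hc, one_mul]
  have hscal : ∀ f, ∃ c : ℂ, D' f = c • f := by
    intro f
    by_cases hf : f = 0
    · exact ⟨0, by rw [hf, map_zero]; ext z; simp⟩
    · obtain ⟨x0, hx0⟩ : ∃ x0, f x0 ≠ 0 := by
        by_contra hcon
        push Not at hcon
        apply hf
        ext x
        rw [hcon x]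
        rfl
      refine ⟨(f x0)⁻¹ * (D' f) x0, ?_⟩
      ext x
      have e1 := key f (x - (f x * (f x0)⁻¹) • x0)
      have e2 : f (x - (f x * (f x0)⁻¹) • x0) = 0 := by
        rw [map_sub, map_smul, smul_eq_mul, mul_assoc, inv_mul_cancel₀ hx0, mul_one, sub_self]
      rw [e2, norm_zero, norm_eq_zero, map_sub, map_smul, sub_eq_zero, smul_eq_mul] at e1
      rw [e1, ContinuousLinearMap.smul_apply, smul_eq_mul]
      ring
  obtain ⟨d, hd⟩ := j4488_scalar_j4488 (D' : (X →L[ℂ] ℂ) →ₗ[ℂ] (X →L[ℂ] ℂ)) hscal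
  have hd' : ∀ x, D' x = d • x := hd
  have hnd : ‖d‖ = 1 := by
    obtain ⟨y, hy⟩ := exists_ne (0 : Y)
    have hx : A.symm y ≠ 0 := by
      intro h0
      apply hy
      have := congrArg A h0
      simpa using this
    obtain ⟨x0, hx0⟩ : ∃ x0, (A.symm y) x0 ≠ 0 := by
      by_contra hcon
      push Not at hcon
      apply hx
      ext x
      rw [hcon x]
      rfl
    have := key (A.symm y) x0
    rw [hd', ContinuousLinearMap.smul_apply, smul_eq_mul, norm_mul] at this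
    have hpos : ‖(A.symm y) x0‖ ≠ 0 := norm_ne_zero_iff.2 hx0
    exact mul_right_cancel₀ hpos (by rw [this, one_mul])
  intro T
  obtain ⟨c, hc, hT⟩ := hA T
  refine ⟨c * σ d, ?_, ?_⟩
  · rw [norm_mul, RingHomIsometric.norm_map, hc, hnd, one_mul]
  · intro y
    have h1 : A.symm (φ 1 y) = d • A.symm y := by
      have := hd' (A.symm y)
      rw [hD'] at this
      simpa using this
    rw [hT, h1, ContinuousLinearMap.smul_comp, map_smulₛₗ, mul_smul]

theorem j4488_final_j4488 [CompleteSpace X] [CompleteSpace Y] [Nontrivial Y]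
    (φ : (X →L[ℂ] X) → (Y →L[ℂ] Y)) (hs : Function.Surjective φ) (n : ℕ)
    (h : ∀ T, sr (φ T ^ (n + 1)) = sr (T ^ (n + 1)))
    (h0 : ∀ T, φ T = 0 → T = 0) (h1 : ∀ u g, g u ≠ 0 → ∃ x f, Rel φ x f u g) :
    ((∃ A : X ≃L[ℂ] Y, ∀ T, ∃ c : ℂ, ‖c‖ = 1 ∧ ∀ y, φ T y = c • A (T (A.symm y))) ∨
    (∃ A : X ≃SL[starRingEnd ℂ] Y, ∀ T, ∃ c : ℂ, ‖c‖ = 1 ∧
      ∀ y, φ T y = c • A (T (A.symm y)))) ∨
    ((∃ A : (X →L[ℂ] ℂ) ≃L[ℂ] Y, ∀ T : X →L[ℂ] X, ∃ c : ℂ, ‖c‖ = 1 ∧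
      ∀ y, φ T y = c • A ((A.symm y).comp T)) ∨
    (∃ A : (X →L[ℂ] ℂ) ≃SL[starRingEnd ℂ] Y, ∀ T : X →L[ℂ] X, ∃ c : ℂ, ‖c‖ = 1 ∧
      ∀ y, φ T y = c • A ((A.symm y).comp T))) := by
  rcases AB_structure φ hs h0 h1 with (⟨A, hA⟩ | ⟨A, hA⟩) | (⟨A, hA⟩ | ⟨A, hA⟩)
  · exact Or.inl (Or.inl ⟨A, j4488_direct_j4488 φ n h A hA⟩)
  · exact Or.inl (Or.inr ⟨A, j4488_direct_j4488 φ n h A hA⟩)
  · exact Or.inr (Or.inl ⟨A, j4488_dual_j4488 φ n h A hA⟩)
  · exact Or.inr (Or.inr ⟨A, j4488_dual_j4488 φ n h A hA⟩)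

/-- product (a) -/
theorem form_a [CompleteSpace X] [CompleteSpace Y] [Nontrivial Y]
    (φ : (X →L[ℂ] X) → (Y →L[ℂ] Y)) (hs : Function.Surjective φ)
    (h : ∀ T S, sr (φ T * φ S) = sr (T * S)) :
    ((∃ A : X ≃L[ℂ] Y, ∀ T, ∃ c : ℂ, ‖c‖ = 1 ∧ ∀ y, φ T y = c • A (T (A.symm y))) ∨
    (∃ A : X ≃SL[starRingEnd ℂ] Y, ∀ T, ∃ c : ℂ, ‖c‖ = 1 ∧
      ∀ y, φ T y = c • A (T (A.symm y)))) ∨
    ((∃ A : (X →L[ℂ] ℂ) ≃L[ℂ] Y, ∀ T : X →L[ℂ] X, ∃ c : ℂ, ‖c‖ = 1 ∧
      ∀ y, φ T y = c • A ((A.symm y).comp T)) ∨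
    (∃ A : (X →L[ℂ] ℂ) ≃SL[starRingEnd ℂ] Y, ∀ T : X →L[ℂ] X, ∃ c : ℂ, ‖c‖ = 1 ∧
      ∀ y, φ T y = c • A ((A.symm y).comp T))) := by
  have h0 : ∀ T, φ T = 0 → T = 0 := by
    intro T hT
    ext x
    rw [ContinuousLinearMap.zero_apply]
    by_contra hne
    obtain ⟨f, hf⟩ := SeparatingDual.exists_eq_one (R := ℂ) hne
    have h1 := h T (rk x f)
    have h2 : T * rk x f = rk (T x) f := by
      ext z
      simp
    rw [hT, zero_mul, h2, sr_rank_one, hf, j4488_sr_zero_j4488] at h1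
    norm_num at h1
  choose E hE using fun (u : Y) (g : Y →L[ℂ] ℂ) => hs (rk u g)
  have hE' : ∀ u g, g u ≠ 0 → ∀ T, ‖g (φ T u)‖ = sr (T * E u g) := by
    intro u g _ T
    rw [← h, hE]
    have h2 : φ T * rk u g = rk (φ T u) g := by
      ext z
      simp
    rw [h2, sr_rank_one]
  refine j4488_final_j4488 φ hs 1 ?_ h0 ?_
  · intro T
    have := h T T
    rw [show (1 + 1 : ℕ) = 2 from rfl, pow_two, pow_two]
    exact this
  · intro u g hgu
    obtain ⟨x, f, hxf⟩ := rank_one_AB φ h0 E hE' u g hgu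
    refine ⟨x, f, ?_⟩
    intro T
    rw [hE' u g hgu T, hxf]
    have h2 : T * rk x f = rk (T x) f := by
      ext z
      simp
    rw [h2, sr_rank_one]

/-- product (b) -/
theorem form_b [CompleteSpace X] [CompleteSpace Y] [Nontrivial Y]
    (φ : (X →L[ℂ] X) → (Y →L[ℂ] Y)) (hs : Function.Surjective φ)
    (h : ∀ T S, sr (φ S * φ T * φ S) = sr (S * T * S)) :
    ((∃ A : X ≃L[ℂ] Y, ∀ T, ∃ c : ℂ, ‖c‖ = 1 ∧ ∀ y, φ T y = c • A (T (A.symm y))) ∨
    (∃ A : X ≃SL[starRingEnd ℂ] Y, ∀ T, ∃ c : ℂ, ‖c‖ = 1 ∧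
      ∀ y, φ T y = c • A (T (A.symm y)))) ∨
    ((∃ A : (X →L[ℂ] ℂ) ≃L[ℂ] Y, ∀ T : X →L[ℂ] X, ∃ c : ℂ, ‖c‖ = 1 ∧
      ∀ y, φ T y = c • A ((A.symm y).comp T)) ∨
    (∃ A : (X →L[ℂ] ℂ) ≃SL[starRingEnd ℂ] Y, ∀ T : X →L[ℂ] X, ∃ c : ℂ, ‖c‖ = 1 ∧
      ∀ y, φ T y = c • A ((A.symm y).comp T))) := by
  have hrk : ∀ (x : X) (f : X →L[ℂ] ℂ) (T : X →L[ℂ] X),
      rk x f * T * rk x f = f (T x) • rk x f := by
    intro x f T
    ext z
    simp [smul_smul, mul_comm]
  have hrkY : ∀ (x : Y) (f : Y →L[ℂ] ℂ) (T : Y →L[ℂ] Y),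
      rk x f * T * rk x f = f (T x) • rk x f := by
    intro x f T
    ext z
    simp [smul_smul, mul_comm]
  have h0 : ∀ T, φ T = 0 → T = 0 := by
    intro T hT
    ext x
    rw [ContinuousLinearMap.zero_apply]
    by_contra hne
    have hx : x ≠ 0 := by
      intro h0
      apply hne
      rw [h0, map_zero]
    have h3 : ∀ f : X →L[ℂ] ℂ, f x ≠ 0 → f (T x) = 0 := by
      intro f hf
      have h1 := h T (rk x f)
      rw [hT, mul_zero, zero_mul, j4488_sr_zero_j4488, hrk, sr_smul', sr_rank_one] at h1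
      have h4 : ‖f x‖ ≠ 0 := norm_ne_zero_iff.2 hf
      exact norm_eq_zero.1 ((mul_eq_zero.1 h1.symm).resolve_right h4)
    obtain ⟨f1, hf1⟩ := SeparatingDual.exists_eq_one (R := ℂ) hx
    obtain ⟨f2, hf2⟩ := SeparatingDual.exists_eq_one (R := ℂ) hne
    have a1 := h3 f1 (by rw [hf1]; exact one_ne_zero)
    by_cases hf2x : f2 x = 0
    · have a2 := h3 (f1 + f2) (by
        rw [ContinuousLinearMap.add_apply, hf1, hf2x, add_zero]
        exact one_ne_zero)
      rw [ContinuousLinearMap.add_apply, a1, hf2, zero_add] at a2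
      exact one_ne_zero a2
    · have a2 := h3 f2 hf2x
      rw [hf2] at a2
      exact one_ne_zero a2
  choose E0 hE0 using fun (u : Y) (g : Y →L[ℂ] ℂ) => hs (rk u g)
  let E : Y → (Y →L[ℂ] ℂ) → (X →L[ℂ] X) := fun u g =>
    ((‖g u‖⁻¹ : ℝ) : ℂ) • (E0 u g * E0 u g)
  have hE' : ∀ u g, g u ≠ 0 → ∀ T, ‖g (φ T u)‖ = sr (T * E u g) := by
    intro u g hgu T
    have h1 := h T (E0 u g)
    rw [hE0, hrkY, sr_smul', sr_rank_one] at h1
    have h2 : T * E u g = ((‖g u‖⁻¹ : ℝ) : ℂ) • (T * (E0 u g * E0 u g)) := by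
      show T * (((‖g u‖⁻¹ : ℝ) : ℂ) • (E0 u g * E0 u g)) = _
      rw [mul_smul_comm]
    have h3 : sr (E0 u g * T * E0 u g) = sr (T * (E0 u g * E0 u g)) := by
      rw [mul_assoc, sr_mul_comm', mul_assoc]
    have h4 : ‖g u‖ ≠ 0 := norm_ne_zero_iff.2 hgu
    rw [h2, sr_smul', ← h3, ← h1, Complex.norm_real, norm_inv, norm_norm]
    field_simp
  refine j4488_final_j4488 φ hs 2 ?_ h0 ?_
  · intro T
    have := h T T
    rw [show (2 + 1 : ℕ) = 3 from rfl, pow_three', pow_three']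
    exact this
  · intro u g hgu
    obtain ⟨x, f, hxf⟩ := rank_one_AB φ h0 E hE' u g hgu
    refine ⟨x, f, ?_⟩
    intro T
    rw [hE' u g hgu T, hxf]
    have h2 : T * rk x f = rk (T x) f := by
      ext z
      simp
    rw [h2, sr_rank_one]

end AB


end j4488

end Pool.Agent.Helper729.SRP
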