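import Pool.Agent.Helper729.SRP.P1

/-!
# Preservers of the spectral radius of products of operators, part 2
-/

set_option autoImplicit false
open Filter Topology Complex Set Metric
open scoped InnerProductSpace

namespace Pool.Agent.Helper729.SRP


section sm
variable {X : Type*} [NormedAddCommGroup X] [NormedSpace ℂ X] [CompleteSpace X]

theorem sr_smul'' (c : ℂ) (T : X →L[ℂ] X) : sr (c • T) = ‖c‖ * sr T := sr_smul' c T

theorem sr_mul_comm'' (S T : X →L[ℂ] X) : sr (S * T) = sr (T * S) := sr_mul_comm' S T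

end sm



-- part 5102
section j5102
section srbasic
variable {X : Type*} [NormedAddCommGroup X] [NormedSpace ℂ X]

theorem sr_nonneg_j5102 (T : X →L[ℂ] X) : 0 ≤ sr T := ENNReal.toReal_nonneg

variable [CompleteSpace X]

end srbasic

section basic
variable {Z : Type*} [NormedAddCommGroup Z] [NormedSpace ℂ Z]

theorem exists_one_j5102 {z : Z} (hz : z ≠ 0) : ∃ k : Z →L[ℂ] ℂ, k z = 1 :=
  SeparatingDual.exists_eq_one hz

end basic

section JF
variable {X : Type*} [NormedAddCommGroup X] [NormedSpace ℂ X] [CompleteSpace X]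

theorem nontrivial_of_mem_spec_j5102 {T : X →L[ℂ] X} {z : ℂ} (hz : z ∈ spectrum ℂ T) :
    Nontrivial X := by
  by_contra h
  rw [not_nontrivial_iff_subsingleton] at h
  have h2 : Subsingleton (X →L[ℂ] X) := ⟨fun A B => ContinuousLinearMap.ext fun x =>
    Subsingleton.elim _ _⟩
  rw [spectrum.of_subsingleton T] at hz
  exact hz

theorem spectralRadius_lt_top_j5102 (T : X →L[ℂ] X) : spectralRadius ℂ T ≠ ⊤ := by
  rcases subsingleton_or_nontrivial X with h | h
  · have h2 : Subsingleton (X →L[ℂ] X) := ⟨fun A B => ContinuousLinearMap.ext fun x =>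
      Subsingleton.elim _ _⟩
    have h3 : spectralRadius ℂ T = 0 := by
      unfold spectralRadius
      rw [spectrum.of_subsingleton T]
      simp
    rw [h3]
    exact ENNReal.zero_ne_top
  · exact ne_top_of_le_ne_top ENNReal.coe_ne_top (spectrum.spectralRadius_le_nnnorm T)

theorem sr_subsingleton_j5102 [Subsingleton X] (T : X →L[ℂ] X) : sr T = 0 := by
  have h2 : Subsingleton (X →L[ℂ] X) := ⟨fun A B => ContinuousLinearMap.ext fun x =>
    Subsingleton.elim _ _⟩
  have h3 : spectralRadius ℂ T = 0 := by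
    unfold spectralRadius
    rw [spectrum.of_subsingleton T]
    simp
  unfold sr
  rw [h3]
  rfl

/-- a spectral value is bounded by `sr` -/
theorem norm_le_sr {T : X →L[ℂ] X} {z : ℂ} (hz : z ∈ spectrum ℂ T) : ‖z‖ ≤ sr T := by
  have h1 : (‖z‖₊ : ENNReal) ≤ spectralRadius ℂ T := by
    unfold spectralRadius
    exact le_iSup₂ (f := fun (k : ℂ) (_ : k ∈ spectrum ℂ T) => (‖k‖₊ : ENNReal)) z hz
  have h2 := ENNReal.toReal_mono (spectralRadius_lt_top_j5102 T) h1
  simpa [sr] using h2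

theorem sr_le_of_forall {T : X →L[ℂ] X} {r : ℝ} (hr : 0 ≤ r) (h : ∀ z ∈ spectrum ℂ T, ‖z‖ ≤ r) :
    sr T ≤ r := by
  unfold sr
  apply ENNReal.toReal_le_of_le_ofReal hr
  unfold spectralRadius
  refine iSup₂_le fun z hz => ?_
  have h1 : (‖z‖₊ : ENNReal) = ENNReal.ofReal ‖z‖ := by
    rw [← ENNReal.ofReal_coe_nnreal]
    rfl
  rw [h1]
  exact ENNReal.ofReal_le_ofReal (h z hz)

/-- the spectral radius is attained -/
theorem exists_spec_eq_sr [Nontrivial X] (T : X →L[ℂ] X) : ∃ z ∈ spectrum ℂ T, ‖z‖ = sr T := by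
  obtain ⟨z, hz, h⟩ := spectrum.exists_nnnorm_eq_spectralRadius T
  refine ⟨z, hz, ?_⟩
  unfold sr
  rw [← h]
  rfl

theorem sr_sq (T : X →L[ℂ] X) : sr (T * T) = sr T ^ 2 := by
  rcases subsingleton_or_nontrivial X with h | h
  · rw [sr_subsingleton_j5102, sr_subsingleton_j5102]
    norm_num
  · apply le_antisymm
    · obtain ⟨w, hw, hw2⟩ := exists_spec_eq_sr (T * T)
      rw [← hw2]
      rw [← pow_two, spectrum.map_pow_of_pos T (by norm_num)] at hw
      obtain ⟨z, hz, rfl⟩ := hw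
      have h1 := norm_le_sr hz
      simp only [norm_pow]
      exact pow_le_pow_left₀ (norm_nonneg _) h1 2
    · obtain ⟨z, hz, hz2⟩ := exists_spec_eq_sr T
      have h1 : z ^ 2 ∈ spectrum ℂ (T ^ 2) := spectrum.pow_mem_pow T 2 hz
      rw [pow_two T] at h1
      have h2 := norm_le_sr h1
      rw [norm_pow, hz2] at h2
      exact h2

theorem sr_zero'_j5102 : sr (0 : X →L[ℂ] X) = 0 := by
  have h := sr_smul' (X := X) 0 (0 : X →L[ℂ] X)
  rw [norm_zero, zero_mul, zero_smul] at h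
  exact h

theorem sr_eq_zero_of_sq {T : X →L[ℂ] X} (h : T * T = 0) : sr T = 0 := by
  have h1 := sr_sq T
  rw [h, sr_zero'_j5102] at h1
  exact pow_eq_zero_iff (two_ne_zero) |>.1 h1.symm

theorem JF_symm {ε : ℂ} (hε : ε = 1 ∨ ε = -1) (T S : X →L[ℂ] X) : JF ε T S = JF ε S T := by
  unfold JF
  have h1 : T * S + ε • (S * T) = ε • (S * T + ε • (T * S)) := by
    rcases hε with rfl | rfl
    · simp [add_comm]
    · simp only [neg_smul, one_smul]
      abel
  rw [h1, sr_smul']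
  rcases hε with rfl | rfl <;> simp

theorem mul_rk_j5102 (T : X →L[ℂ] X) (x : X) (f : X →L[ℂ] ℂ) : T * rk x f = rk (T x) f := by
  ext v
  simp

theorem rk_mul_j5102 (T : X →L[ℂ] X) (x : X) (f : X →L[ℂ] ℂ) : rk x f * T = rk x (f.comp T) := by
  ext v
  simp

theorem smul_rk_j5102 (c : ℂ) (x : X) (f : X →L[ℂ] ℂ) : c • rk x f = rk (c • x) f := by
  ext v
  simp [smul_smul, mul_comm]

theorem JF_rk (ε : ℂ) (T : X →L[ℂ] X) (x : X) (f : X →L[ℂ] ℂ) :
    JF ε T (rk x f) = R2 ((1 + ε) * f (T x)) (ε * (f (T x) ^ 2 - f x * f (T (T x)))) := by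
  unfold JF
  rw [mul_rk_j5102, rk_mul_j5102, smul_rk_j5102, sr_rank_two]
  simp only [ContinuousLinearMap.comp_apply, map_smul, smul_eq_mul]
  congr 1 <;> ring

theorem R2_zero_neg_j5102 (D : ℂ) : R2 0 (-D) ^ 2 = ‖D‖ := by
  obtain ⟨z, hz⟩ := IsAlgClosed.exists_pow_nat_eq D (n := 2) (by norm_num)
  have h1 := R2_eq z (-z)
  have h2 : z + -z = 0 := by ring
  have h3 : z * -z = -D := by rw [← hz]; ring
  rw [h2, h3, norm_neg, max_self] at h1
  rw [h1, ← norm_pow, hz]

theorem JF_flag {ε : ℂ} (hε : ε = 1 ∨ ε = -1) (T : X →L[ℂ] X) {x : X} {f : X →L[ℂ] ℂ}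
    (hf : f x = 0) : JF ε T (rk x f) = ‖f (T x)‖ := by
  rw [JF_rk, hf, zero_mul, sub_zero]
  rcases hε with rfl | rfl
  · have h1 := R2_scalar (f (T x))
    rw [one_mul, show (1 : ℂ) + 1 = 2 by norm_num]
    exact h1
  · have h1 := R2_eq (f (T x)) (-(f (T x)))
    rw [norm_neg, max_self] at h1
    rw [← h1]
    congr 1 <;> ring

theorem JF_neg_rk_sq (T : X →L[ℂ] X) (x : X) (f : X →L[ℂ] ℂ) :
    JF (-1) T (rk x f) ^ 2 = ‖f (T x) ^ 2 - f x * f (T (T x))‖ := by
  rw [JF_rk, ← R2_zero_neg_j5102]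
  congr 2 <;> ring

theorem JF_smul_right (ε c : ℂ) (T S : X →L[ℂ] X) : JF ε T (c • S) = ‖c‖ * JF ε T S := by
  unfold JF
  rw [← sr_smul']
  congr 1
  rw [mul_smul_comm, smul_mul_assoc, smul_add, smul_comm]

theorem JF_smul_left (ε c : ℂ) (T S : X →L[ℂ] X) : JF ε (c • T) S = ‖c‖ * JF ε T S := by
  unfold JF
  rw [← sr_smul']
  congr 1
  rw [mul_smul_comm, smul_mul_assoc, smul_add, smul_comm]

theorem JF_neg_add_right (T S : X →L[ℂ] X) (d : ℂ) : JF (-1) T (S + d • 1) = JF (-1) T S := by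
  unfold JF
  congr 1
  rw [mul_add, add_mul, mul_smul_comm, smul_mul_assoc, mul_one, one_mul, neg_smul, neg_smul,
    one_smul, one_smul]
  abel

theorem JF_neg_add_left (T S : X →L[ℂ] X) (d : ℂ) : JF (-1) (T + d • 1) S = JF (-1) T S := by
  unfold JF
  congr 1
  rw [mul_add, add_mul, mul_smul_comm, smul_mul_assoc, mul_one, one_mul, neg_smul, neg_smul,
    one_smul, one_smul]
  abel

theorem JF_one_self (T : X →L[ℂ] X) : JF 1 T T = 2 * sr T ^ 2 := by
  unfold JF
  have h1 : T * T + (1 : ℂ) • (T * T) = (2 : ℂ) • (T * T) := by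
    rw [one_smul, two_smul]
  rw [h1, sr_smul', sr_sq]
  norm_num

theorem JF_one_scalar (T : X →L[ℂ] X) (c : ℂ) : JF 1 T (c • 1) = 2 * ‖c‖ * sr T := by
  unfold JF
  have h1 : T * (c • 1) + (1 : ℂ) • ((c • 1) * T) = (2 * c) • T := by
    rw [one_smul, mul_smul_comm, smul_mul_assoc, mul_one, one_mul, two_mul, add_smul]
  rw [h1, sr_smul', norm_mul]
  norm_num

theorem JF_neg_self (T : X →L[ℂ] X) : JF (-1) T T = 0 := by
  unfold JF
  have h1 : T * T + (-1 : ℂ) • (T * T) = 0 := by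
    rw [neg_smul, one_smul, add_neg_cancel]
  rw [h1, sr_zero'_j5102]

omit [CompleteSpace X] in
/-- an operator all of whose vectors are eigenvectors is scalar -/
theorem scalar_of_forall_flag (T : X →L[ℂ] X) (h : ∀ x f, Flag x f → f (T x) = 0) :
    ∃ c : ℂ, T = c • 1 := by
  have key : ∀ x : X, x ≠ 0 → ∃ c : ℂ, T x = c • x := by
    intro x hx
    apply dep_smul hx
    intro hli
    obtain ⟨k, hk1, hk2⟩ := dual_vec hli
    have hk0 : k ≠ 0 := by
      rintro rfl
      simp at hk2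
    have := h x k ⟨hx, hk0, hk1⟩
    rw [this] at hk2
    exact zero_ne_one hk2
  by_cases hX : ∃ x0 : X, x0 ≠ 0
  · obtain ⟨x0, hx0⟩ := hX
    obtain ⟨c0, hc0⟩ := key x0 hx0
    refine ⟨c0, ?_⟩
    ext y
    show T y = (c0 • (1 : X →L[ℂ] X)) y
    have hone : (c0 • (1 : X →L[ℂ] X)) y = c0 • y := rfl
    rw [hone]
    by_cases hli : LinearIndependent ℂ ![x0, y]
    · have hy : y ≠ 0 := by
        rintro rfl
        have := hli.ne_zero 1
        simp at this
      obtain ⟨c1, hc1⟩ := key y hy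
      have hxy : x0 + y ≠ 0 := by
        intro h0
        rw [LinearIndependent.pair_iff] at hli
        have := hli 1 1 (by simpa using h0)
        exact one_ne_zero this.1
      obtain ⟨c2, hc2⟩ := key (x0 + y) hxy
      rw [map_add, hc0, hc1, smul_add] at hc2
      rw [LinearIndependent.pair_iff] at hli
      have h3 := hli (c0 - c2) (c1 - c2) (by
        rw [sub_smul, sub_smul]
        have h4 : c0 • x0 - c2 • x0 + (c1 • y - c2 • y)
            = (c0 • x0 + c1 • y) - (c2 • x0 + c2 • y) := by abel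
        rw [h4, hc2, sub_self])
      have h5 : c1 = c0 := by
        have e1 := sub_eq_zero.1 h3.1
        have e2 := sub_eq_zero.1 h3.2
        rw [e1, e2]
      rw [hc1, h5]
    · obtain ⟨c, rfl⟩ := dep_smul hx0 hli
      rw [map_smul, hc0, smul_comm]
  · push Not at hX
    refine ⟨0, ?_⟩
    ext y
    rw [hX y]
    simp

theorem JF_neg_eq_zero_iff (T : X →L[ℂ] X) : (∀ S, JF (-1) T S = 0) ↔ ∃ c : ℂ, T = c • 1 := by
  constructor
  · intro h
    apply scalar_of_forall_flag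
    intro x f hf
    have h1 := JF_flag (ε := -1) (Or.inr rfl) T hf.2.2
    rw [h] at h1
    exact norm_eq_zero.1 h1.symm
  · rintro ⟨c, rfl⟩ S
    have h1 := JF_neg_add_left (X := X) 0 S c
    rw [zero_add] at h1
    rw [h1]
    unfold JF
    rw [zero_mul, mul_zero, smul_zero, add_zero, sr_zero'_j5102]

theorem JF_one_eq_zero_iff (T : X →L[ℂ] X) : (∀ S, JF 1 T S = 0) ↔ T = 0 := by
  constructor
  · intro h
    obtain ⟨c, hc⟩ := scalar_of_forall_flag T (by
      intro x f hf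
      have h1 := JF_flag (ε := 1) (Or.inl rfl) T hf.2.2
      rw [h] at h1
      exact norm_eq_zero.1 h1.symm)
    by_cases hX : ∃ x0 : X, x0 ≠ 0
    · obtain ⟨x0, hx0⟩ := hX
      obtain ⟨k, hk⟩ := exists_one_j5102 hx0
      have h1 := h (rk x0 k)
      rw [JF_rk, hc] at h1
      have h2 : (c • (1 : X →L[ℂ] X)) x0 = c • x0 := rfl
      have h3 : (c • (1 : X →L[ℂ] X)) (c • x0) = c • c • x0 := rfl
      rw [h2, h3, map_smul, map_smul, map_smul, hk] at h1
      simp only [smul_eq_mul, mul_one, one_mul] at h1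
      have h4 : c ^ 2 - c * c = 0 := by ring
      rw [h4, R2_zero_right] at h1
      have h5 : c = 0 := by
        have := norm_eq_zero.1 h1
        have h6 : (1 + 1 : ℂ) ≠ 0 := by norm_num
        exact (mul_eq_zero.1 this).resolve_left h6
      rw [hc, h5, zero_smul]
    · push Not at hX
      ext y
      rw [hX y]
      simp
  · rintro rfl S
    unfold JF
    rw [zero_mul, mul_zero, smul_zero, add_zero, sr_zero'_j5102]

end JF


end j5102

-- part 5103
section j5103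
section srbasic
variable {X : Type*} [NormedAddCommGroup X] [NormedSpace ℂ X]

theorem sr_nonneg_j5103 (T : X →L[ℂ] X) : 0 ≤ sr T := ENNReal.toReal_nonneg

variable [CompleteSpace X]

end srbasic

section basic
variable {Z : Type*} [NormedAddCommGroup Z] [NormedSpace ℂ Z]

theorem exists_one_j5103 {z : Z} (hz : z ≠ 0) : ∃ k : Z →L[ℂ] ℂ, k z = 1 :=
  SeparatingDual.exists_eq_one hz

end basic


theorem norm_le_sr'_j5103 {X : Type*} [NormedAddCommGroup X] [NormedSpace ℂ X] [CompleteSpace X]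
    {T : X →L[ℂ] X} {z : ℂ} (hz : z ∈ spectrum ℂ T) : ‖z‖ ≤ sr T := by
  rcases subsingleton_or_nontrivial X with h | h
  · haveI : Subsingleton (X →L[ℂ] X) := ⟨fun a b => by ext x; exact Subsingleton.elim _ _⟩
    rw [spectrum.of_subsingleton] at hz
    exact absurd hz (by simp)
  · have h1 : (‖z‖₊ : ENNReal) ≤ spectralRadius ℂ T :=
      le_iSup₂ (f := fun (k : ℂ) (_ : k ∈ spectrum ℂ T) => (‖k‖₊ : ENNReal)) z hz
    have h2 : spectralRadius ℂ T ≤ ‖T‖₊ := spectrum.spectralRadius_le_nnnorm T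
    have h3 : spectralRadius ℂ T ≠ ⊤ := ne_top_of_le_ne_top ENNReal.coe_ne_top h2
    have h4 := ENNReal.toReal_mono h3 h1
    simpa [sr] using h4

theorem sr_le'_j5103 {X : Type*} [NormedAddCommGroup X] [NormedSpace ℂ X] [CompleteSpace X]
    {T : X →L[ℂ] X} {c : ℝ} (hc : 0 ≤ c) (h : ∀ z ∈ spectrum ℂ T, ‖z‖ ≤ c) : sr T ≤ c := by
  unfold sr
  apply ENNReal.toReal_le_of_le_ofReal hc
  unfold spectralRadius
  refine iSup₂_le fun z hz => ?_
  exact ENNReal.coe_le_coe.2 (NNReal.le_toNNReal_of_coe_le (h z hz))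

theorem JF_TT {X : Type*} [NormedAddCommGroup X] [NormedSpace ℂ X] [CompleteSpace X] {ε : ℂ}
    (hε : ε = 1 ∨ ε = -1) (a : Fin 2 → X) (f : Fin 2 → (X →L[ℂ] ℂ)) (M : M2) (S : X →L[ℂ] X)
    (haf : ∀ i j, f i (a j) = 0) :
    JF ε (TT a f M) S = R2 (M * CC a f S).trace (M * CC a f S).det := by
  classical
  have hεn : ‖ε‖ = 1 := by rcases hε with rfl | rfl <;> simp
  rw [← sr_TT_mul]
  set N := TT a f M with hN
  have hNv : ∀ v, N v = ∑ i, ∑ j, M i j • (f j v • a i) := by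
    intro v
    simp [hN, TT, ContinuousLinearMap.sum_apply]
  have hNN : N * N = 0 := by
    ext v
    rw [ContinuousLinearMap.mul_apply, hNv v, map_sum]
    simp only [map_sum, map_smul, hNv, haf, zero_smul, smul_zero, Finset.sum_const_zero,
      ContinuousLinearMap.zero_apply]
  set P : X →L[ℂ] X := N * S with hP
  set Q : X →L[ℂ] X := ε • (S * N) with hQ
  have hQP : Q * P = 0 := by
    rw [hP, hQ, smul_mul_assoc, mul_assoc, ← mul_assoc N N S, hNN, zero_mul, mul_zero, smul_zero]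
  have hfac : ∀ z : ℂ, (algebraMap ℂ (X →L[ℂ] X) z - Q) * (algebraMap ℂ (X →L[ℂ] X) z - P) =
      z • (algebraMap ℂ (X →L[ℂ] X) z - (P + Q)) := by
    intro z
    rw [sub_mul, mul_sub, mul_sub, hQP, Algebra.algebraMap_eq_smul_one]
    simp only [smul_mul_assoc, one_mul, mul_smul_comm, mul_one, smul_sub, smul_add]
    abel
  have hJF : JF ε N S = sr (P + Q) := rfl
  rw [hJF]
  have hsrQ : sr Q = sr P := by
    rw [hQ, sr_smul', hεn, one_mul, sr_mul_comm']
  apply le_antisymm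
  · apply sr_le'_j5103 (sr_nonneg_j5103 _)
    intro z hz
    rcases eq_or_ne z 0 with rfl | hz0
    · simpa using sr_nonneg_j5103 P
    by_cases h1 : z ∈ spectrum ℂ P
    · exact norm_le_sr'_j5103 h1
    by_cases h2 : z ∈ spectrum ℂ Q
    · rw [← hsrQ]; exact norm_le_sr'_j5103 h2
    exfalso
    rw [spectrum.mem_iff, not_not] at h1 h2
    rw [spectrum.mem_iff] at hz
    apply hz
    have h3 : IsUnit (z • (algebraMap ℂ (X →L[ℂ] X) z - (P + Q))) := by
      rw [← hfac]; exact h2.mul h1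
    have h4 := h3.smul (Units.mk0 z hz0)⁻¹
    have h5 : (Units.mk0 z hz0)⁻¹ • (z • (algebraMap ℂ (X →L[ℂ] X) z - (P + Q))) =
        (algebraMap ℂ (X →L[ℂ] X) z - (P + Q)) := by
      rw [Units.smul_def, smul_smul]
      simp [hz0]
    rwa [h5] at h4
  · rw [hP, hN, sr_TT_mul]
    obtain ⟨z1, w1, hzw1, hzw2, hR⟩ := R2_exists (M * CC a f S).trace (M * CC a f S).det
    obtain ⟨z, hz1, hz2⟩ : ∃ z : ℂ, ‖z‖ = R2 (M * CC a f S).trace (M * CC a f S).det ∧
        z ^ 2 - (M * CC a f S).trace * z + (M * CC a f S).det = 0 := by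
      rcases le_total ‖z1‖ ‖w1‖ with h | h
      · refine ⟨w1, by rw [hR, max_eq_right h], ?_⟩
        rw [← hzw1, ← hzw2]; ring
      · refine ⟨z1, by rw [hR, max_eq_left h], ?_⟩
        rw [← hzw1, ← hzw2]; ring
    rw [← hz1]
    rcases eq_or_ne z 0 with rfl | hz0
    · simpa using sr_nonneg_j5103 _
    apply norm_le_sr'_j5103
    set C := CC a f S with hC
    -- eigenvector of C * M
    have hdet : (C * M - z • (1 : M2)).det = 0 := by
      rw [← hz2]
      simp only [Matrix.det_fin_two, Matrix.trace_fin_two, Matrix.sub_apply, Matrix.mul_apply,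
        Fin.sum_univ_two, Matrix.smul_apply, Matrix.one_apply, smul_eq_mul]
      simp
      ring
    obtain ⟨p, hp0, hp⟩ := Matrix.exists_mulVec_eq_zero_iff.2 hdet
    have hp' : (C * M).mulVec p = z • p := by
      rw [Matrix.sub_mulVec, Matrix.smul_mulVec, Matrix.one_mulVec, sub_eq_zero] at hp
      exact hp
    let u : Fin 2 → ℂ := M.mulVec p
    let v : X := ∑ i, u i • a i
    have hfv : ∀ j, f j (S v) = z * p j := by
      intro j
      have h1 : f j (S v) = C.mulVec u j := by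
        simp only [v, map_sum, map_smul, Matrix.mulVec, dotProduct, smul_eq_mul, hC, CC,
          Matrix.of_apply]
        exact Finset.sum_congr rfl fun i _ => mul_comm _ _
      rw [h1]
      have h2 : C.mulVec u = z • p := by
        rw [← hp', ← Matrix.mulVec_mulVec]
      rw [h2]; rfl
    have hPv : P v = z • v := by
      rw [hP, ContinuousLinearMap.mul_apply, hNv]
      simp only [hfv]
      simp only [v, u, Matrix.mulVec, dotProduct, Finset.smul_sum, smul_smul, Finset.sum_smul,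
        Finset.mul_sum]
      refine Finset.sum_congr rfl fun i _ => ?_
      refine Finset.sum_congr rfl fun j _ => ?_
      congr 1
      ring
    have hv0 : v ≠ 0 := by
      intro h
      apply hp0
      funext j
      have := hfv j
      rw [h, map_zero, map_zero] at this
      rcases mul_eq_zero.1 this.symm with h | h
      · exact absurd h hz0
      · exact h
    rw [spectrum.mem_iff]
    intro hu
    have h5 := congrArg (fun T : X →L[ℂ] X => T v) (hfac z)
    simp only [ContinuousLinearMap.mul_apply, ContinuousLinearMap.smul_apply] at h5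
    have h6 : (algebraMap ℂ (X →L[ℂ] X) z - P) v = 0 := by
      rw [Algebra.algebraMap_eq_smul_one]
      simp [hPv]
    rw [h6, map_zero] at h5
    have h7 : (algebraMap ℂ (X →L[ℂ] X) z - (P + Q)) v = 0 := by
      rcases smul_eq_zero.1 h5.symm with h | h
      · exact absurd h hz0
      · exact h
    obtain ⟨U, hU⟩ := hu
    apply hv0
    have h8 : ((↑U⁻¹ : X →L[ℂ] X) * (U : X →L[ℂ] X)) v = v := by
      rw [Units.inv_mul]; rfl
    rw [← h8, ContinuousLinearMap.mul_apply, hU, h7, map_zero]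


end j5103

-- part 5104
section j5104
open Polynomial in
theorem polynomial_mod_aux_j5104 (κ : ℝ) (hκ : 0 < κ) (n : ℕ) : ∀ (P Q : ℂ[X]), Q.natDegree = n →
    (∀ t : ℂ, ‖P.eval t‖ = κ * ‖Q.eval t‖) →
    ∃ θ : ℂ, ‖θ‖ = 1 ∧ P = (θ * κ) • Q := by
  induction n with
  | zero =>
    intro P Q hQ h
    obtain ⟨c, hc⟩ : ∃ c, Q = C c := ⟨Q.coeff 0, Polynomial.eq_C_of_natDegree_eq_zero hQ⟩
    subst hc
    by_cases hc0 : c = 0
    · subst hc0
      refine ⟨1, by simp, ?_⟩
      have : P = 0 := by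
        apply Polynomial.funext
        intro t
        have := h t
        simpa using this
      simp [this]
    · have hP : P.degree = 0 ∨ P.degree ≤ 0 := by
        by_contra hcon
        push Not at hcon
        obtain ⟨z, hz⟩ := Complex.exists_root (f := P) hcon.2
        have := h z
        rw [hz.eq_zero] at this
        simp at this
        rcases this with h1 | h1
        · exact hκ.ne' h1
        · exact hc0 h1
      have hP' : P.degree ≤ 0 := by
        rcases hP with h1 | h1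
        · exact h1.le
        · exact h1
      obtain ⟨a, ha⟩ : ∃ a, P = C a := ⟨P.coeff 0, Polynomial.eq_C_of_degree_le_zero hP'⟩
      subst ha
      have h0 := h 0
      simp only [eval_C] at h0
      have hκc : (κ : ℂ) ≠ 0 := by exact_mod_cast hκ.ne'
      refine ⟨a / (κ * c), ?_, ?_⟩
      · rw [norm_div, norm_mul, h0, Complex.norm_real, Real.norm_of_nonneg hκ.le]
        apply div_self
        exact mul_ne_zero hκ.ne' (norm_ne_zero_iff.mpr hc0)
      · rw [Polynomial.smul_C, smul_eq_mul]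
        congr 1
        field_simp
  | succ n ih =>
    intro P Q hQ h
    have hdeg : 0 < Q.degree := by
      rw [← Polynomial.natDegree_pos_iff_degree_pos]
      omega
    obtain ⟨z, hz⟩ := Complex.exists_root hdeg
    have hPz : P.IsRoot z := by
      have := h z
      rw [hz.eq_zero] at this
      simpa using this
    obtain ⟨P', hP'⟩ := Polynomial.dvd_iff_isRoot.mpr hPz
    obtain ⟨Q', hQ'⟩ := Polynomial.dvd_iff_isRoot.mpr hz
    have hQ'0 : Q' ≠ 0 := by
      rintro rfl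
      simp at hQ'
      simp [hQ'] at hdeg
    have hdQ' : Q'.natDegree = n := by
      have := congrArg Polynomial.natDegree hQ'
      rw [Polynomial.natDegree_mul (Polynomial.X_sub_C_ne_zero z) hQ'0,
        Polynomial.natDegree_X_sub_C] at this
      omega
    have hne : ∀ t : ℂ, t ≠ z → ‖P'.eval t‖ = κ * ‖Q'.eval t‖ := by
      intro t ht
      have := h t
      rw [hP', hQ'] at this
      simp only [eval_mul, eval_sub, eval_X, eval_C, norm_mul] at this
      have h1 : ‖t - z‖ ≠ 0 := norm_ne_zero_iff.mpr (sub_ne_zero.mpr ht)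
      have h2 : ‖t - z‖ * ‖P'.eval t‖ = ‖t - z‖ * (κ * ‖Q'.eval t‖) := by
        rw [this]; ring
      exact mul_left_cancel₀ h1 h2
    have hall : ∀ t : ℂ, ‖P'.eval t‖ = κ * ‖Q'.eval t‖ := by
      have hd : Dense {t : ℂ | t ≠ z} := dense_compl_singleton z
      have hc1 : Continuous fun t : ℂ => ‖P'.eval t‖ := P'.continuous.norm
      have hc2 : Continuous fun t : ℂ => κ * ‖Q'.eval t‖ := continuous_const.mul Q'.continuous.norm
      intro t
      exact congrFun (hc1.ext_on hd hc2 hne) t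
    obtain ⟨θ, hθ, hPQ⟩ := ih P' Q' hdQ' hall
    refine ⟨θ, hθ, ?_⟩
    rw [hP', hPQ, hQ']
    rw [mul_smul_comm]

open Polynomial in
theorem polynomial_mod (κ : ℝ) (P Q : ℂ[X]) (h : ∀ t : ℂ, ‖P.eval t‖ = κ * ‖Q.eval t‖) :
    ∃ θ : ℂ, ‖θ‖ = 1 ∧ P = (θ * κ) • Q := by
  rcases lt_trichotomy κ 0 with hκ | hκ | hκ
  · have hP : P = 0 := by
      apply Polynomial.funext
      intro t
      have h1 := h t
      have h2 : κ * ‖Q.eval t‖ ≤ 0 := mul_nonpos_of_nonpos_of_nonneg hκ.le (norm_nonneg _)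
      have h3 : ‖P.eval t‖ ≤ 0 := h1 ▸ h2
      simpa using norm_le_zero_iff.mp h3
    have hQ : Q = 0 := by
      apply Polynomial.funext
      intro t
      have h1 := h t
      rw [hP] at h1
      simp only [eval_zero, norm_zero] at h1
      have h2 := mul_eq_zero.mp h1.symm
      rcases h2 with h2 | h2
      · exact absurd h2 hκ.ne
      · simpa using h2
    exact ⟨1, by simp, by simp [hP, hQ]⟩
  · subst hκ
    have hP : P = 0 := by
      apply Polynomial.funext
      intro t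
      have h1 := h t
      simpa using h1
    exact ⟨1, by simp, by simp [hP]⟩
  · exact polynomial_mod_aux_j5104 κ hκ _ P Q rfl h

/-- functions which are polynomial on complex lines and have proportional moduli -/
theorem line_mod {E : Type*} [AddCommGroup E] [Module ℂ E] (p q : E → ℂ) (κ : ℝ)
    (hp : ∀ x y, ∃ P : Polynomial ℂ, ∀ t : ℂ, p (x + t • y) = P.eval t)
    (hq : ∀ x y, ∃ Q : Polynomial ℂ, ∀ t : ℂ, q (x + t • y) = Q.eval t)
    (h : ∀ x, ‖p x‖ = κ * ‖q x‖) : ∃ θ : ℂ, ‖θ‖ = 1 ∧ ∀ x, p x = θ * κ * q x := by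
  by_cases hq0 : ∀ x, q x = 0
  · refine ⟨1, by simp, fun x => ?_⟩
    have := h x
    rw [hq0 x] at this ⊢
    simpa using this
  · push Not at hq0
    obtain ⟨x0, hx0⟩ := hq0
    have key : ∀ y, ∃ θ : ℂ, ‖θ‖ = 1 ∧ p x0 = θ * κ * q x0 ∧ p y = θ * κ * q y := by
      intro y
      obtain ⟨P, hP⟩ := hp x0 (y - x0)
      obtain ⟨Q, hQ⟩ := hq x0 (y - x0)
      obtain ⟨θ, hθ, hPQ⟩ := polynomial_mod κ P Q (fun t => by rw [← hP t, ← hQ t]; exact h _)
      refine ⟨θ, hθ, ?_, ?_⟩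
      · have h1 := hP 0
        have h2 := hQ 0
        rw [zero_smul, add_zero] at h1 h2
        rw [h1, h2, hPQ, Polynomial.eval_smul, smul_eq_mul]
      · have h1 := hP 1
        have h2 := hQ 1
        rw [one_smul, add_sub_cancel] at h1 h2
        rw [h1, h2, hPQ, Polynomial.eval_smul, smul_eq_mul]
    obtain ⟨θ, hθ, hθ0, -⟩ := key x0
    refine ⟨θ, hθ, fun y => ?_⟩
    obtain ⟨θ', hθ', h0, hy⟩ := key y
    have h1 : θ * κ = θ' * κ := mul_right_cancel₀ hx0 (hθ0.symm.trans h0)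
    rw [hy, h1]

/-- a product of two nonzero functions polynomial on lines is nonzero -/
theorem line_mul_ne {E : Type*} [AddCommGroup E] [Module ℂ E] (p q : E → ℂ)
    (hp : ∀ x y, ∃ P : Polynomial ℂ, ∀ t : ℂ, p (x + t • y) = P.eval t)
    (hq : ∀ x y, ∃ Q : Polynomial ℂ, ∀ t : ℂ, q (x + t • y) = Q.eval t)
    (h : ∀ x, p x = 0 ∨ q x = 0) : (∀ x, p x = 0) ∨ (∀ x, q x = 0) := by
  by_contra hcon
  push Not at hcon
  obtain ⟨⟨a, ha⟩, ⟨b, hb⟩⟩ := hcon
  obtain ⟨P, hP⟩ := hp a (b - a)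
  obtain ⟨Q, hQ⟩ := hq a (b - a)
  have hPQ : P * Q = 0 := by
    apply Polynomial.funext
    intro t
    rw [Polynomial.eval_mul, ← hP t, ← hQ t]
    rcases h (a + t • (b - a)) with h1 | h1
    · simp [h1]
    · simp [h1]
  rcases mul_eq_zero.mp hPQ with h1 | h1
  · apply ha
    have := hP 0
    rw [zero_smul, add_zero] at this
    rw [this, h1, Polynomial.eval_zero]
  · apply hb
    have := hQ 1
    rw [one_smul, add_sub_cancel] at this
    rw [this, h1, Polynomial.eval_zero]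


end j5104

-- part 5105
section j5105
section basic
variable {Z : Type*} [NormedAddCommGroup Z] [NormedSpace ℂ Z]

theorem exists_one_j5105 {z : Z} (hz : z ≠ 0) : ∃ k : Z →L[ℂ] ℂ, k z = 1 :=
  SeparatingDual.exists_eq_one hz

end basic

noncomputable def phaseFn_j5105 {Y D : Type*} [AddCommGroup Y] [Module ℂ Y] [AddCommGroup D]
    [Module ℂ D] (ev : D →ₗ[ℂ] Y →ₗ[ℂ] ℂ) (P : Y →ₗ[ℂ] Y) (x : Y × Y × D) : ℂ :=
  ev x.2.2 x.2.1 * ev x.2.2 (P x.1) - ev x.2.2 x.1 * ev x.2.2 (P x.2.1)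

theorem phase_poly_j5105 {Y D : Type*} [AddCommGroup Y] [Module ℂ Y] [AddCommGroup D]
    [Module ℂ D] (ev : D →ₗ[ℂ] Y →ₗ[ℂ] ℂ) (P : Y →ₗ[ℂ] Y) (x y : Y × Y × D) :
    ∃ R : Polynomial ℂ, ∀ t : ℂ, phaseFn_j5105 ev P (x + t • y) = R.eval t := by
  obtain ⟨u, v, g⟩ := x
  obtain ⟨u', v', g'⟩ := y
  refine ⟨(Polynomial.C (ev g v) + Polynomial.C (ev g v' + ev g' v) * Polynomial.X
      + Polynomial.C (ev g' v') * Polynomial.X ^ 2)
      * (Polynomial.C (ev g (P u)) + Polynomial.C (ev g (P u') + ev g' (P u)) * Polynomial.X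
      + Polynomial.C (ev g' (P u')) * Polynomial.X ^ 2)
      - (Polynomial.C (ev g u) + Polynomial.C (ev g u' + ev g' u) * Polynomial.X
      + Polynomial.C (ev g' u') * Polynomial.X ^ 2)
      * (Polynomial.C (ev g (P v)) + Polynomial.C (ev g (P v') + ev g' (P v)) * Polynomial.X
      + Polynomial.C (ev g' (P v')) * Polynomial.X ^ 2), fun t => ?_⟩
  simp only [phaseFn_j5105, Prod.smul_mk, Prod.mk_add_mk, LinearMap.add_apply,
    LinearMap.smul_apply, map_add, map_smul, smul_eq_mul, Polynomial.eval_sub,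
    Polynomial.eval_mul, Polynomial.eval_add, Polynomial.eval_C, Polynomial.eval_X,
    Polynomial.eval_pow]
  ring

theorem phase_general_j5105 {Y D : Type*} [AddCommGroup Y] [Module ℂ Y] [AddCommGroup D]
    [Module ℂ D] (ev : D →ₗ[ℂ] Y →ₗ[ℂ] ℂ) (P Q : Y →ₗ[ℂ] Y)
    (h : ∀ x, ‖phaseFn_j5105 ev P x‖ = ‖phaseFn_j5105 ev Q x‖) :
    ∃ θ : ℂ, ‖θ‖ = 1 ∧ ∀ x, phaseFn_j5105 ev P x = θ * phaseFn_j5105 ev Q x := by
  obtain ⟨θ, hθ, H⟩ := line_mod (phaseFn_j5105 ev P) (phaseFn_j5105 ev Q) 1 (phase_poly_j5105 ev P) (phase_poly_j5105 ev Q)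
    (fun x => by rw [one_mul]; exact h x)
  refine ⟨θ, hθ, fun x => ?_⟩
  have := H x
  rwa [Complex.ofReal_one, mul_one] at this

/-- two operators whose off-diagonal entries have the same moduli -/
theorem phase_of_flags {Y : Type*} [NormedAddCommGroup Y] [NormedSpace ℂ Y]
    (P Q : Y →L[ℂ] Y) (h : ∀ u g, Flag u g → ‖g (P u)‖ = ‖g (Q u)‖) :
    ∃ θ d : ℂ, ‖θ‖ = 1 ∧ P = θ • Q + d • 1 := by
  have key : ∀ (R : Y →L[ℂ] Y) (u v : Y) (g : Y →L[ℂ] ℂ),
      g v * g (R u) - g u * g (R v) = g (R (g v • u - g u • v)) := by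
    intro R u v g
    simp only [map_sub, map_smul, smul_eq_mul]
  have key2 : ∀ (R : Y →L[ℂ] Y) (u v : Y) (g : Y →L[ℂ] ℂ),
      phaseFn_j5105 (ContinuousLinearMap.coeLM (R := ℂ) (M := Y) (N₃ := ℂ) ℂ) (R : Y →ₗ[ℂ] Y) (u, v, g)
        = g v * g (R u) - g u * g (R v) := fun R u v g => rfl
  obtain ⟨θ, hθ, H⟩ := phase_general_j5105
    (ContinuousLinearMap.coeLM (R := ℂ) (M := Y) (N₃ := ℂ) ℂ) (P : Y →ₗ[ℂ] Y) (Q : Y →ₗ[ℂ] Y) (by
      rintro ⟨u, v, g⟩
      rw [key2, key2, key P, key Q]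
      by_cases hg : g = 0
      · simp [hg]
      by_cases hu : g v • u - g u • v = 0
      · simp [hu]
      have hfl : g (g v • u - g u • v) = 0 := by
        simp only [map_sub, map_smul, smul_eq_mul]
        ring
      exact h (g v • u - g u • v) g ⟨hu, hg, hfl⟩)
  obtain ⟨d, hd⟩ := scalar_of_forall_flag (P - θ • Q) (by
    intro u g hf
    obtain ⟨hu, hg, hgu⟩ := hf
    obtain ⟨w, hw⟩ : ∃ w, g w ≠ 0 := by
      by_contra hcon
      push Not at hcon
      exact hg (ContinuousLinearMap.ext fun w => by simpa using hcon w)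
    have := H (u, w, g)
    rw [key2, key2] at this
    simp only [hgu, zero_mul, sub_zero] at this
    have h2 : g w * (g (P u) - θ * g (Q u)) = 0 := by
      rw [mul_sub, this]; ring
    have h3 := (mul_eq_zero.mp h2).resolve_left hw
    simpa using h3)
  refine ⟨θ, d, hθ, ?_⟩
  rw [← hd]
  abel


end j5105

-- part 5197
section j5197
section basic
variable {Z : Type*} [NormedAddCommGroup Z] [NormedSpace ℂ Z]

theorem exists_one_j5197 {z : Z} (hz : z ≠ 0) : ∃ k : Z →L[ℂ] ℂ, k z = 1 :=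
  SeparatingDual.exists_eq_one hz

end basic

section JF
variable {X : Type*} [NormedAddCommGroup X] [NormedSpace ℂ X] [CompleteSpace X]

end JF

section dims
variable {X : Type*} [NormedAddCommGroup X] [NormedSpace ℂ X] [CompleteSpace X]

/-- a property characterising dimension two -/
def D2 (ε : ℂ) (X : Type*) [NormedAddCommGroup X] [NormedSpace ℂ X] : Prop :=
  ∃ n : X →L[ℂ] X, (∃ S, JF ε n S ≠ 0) ∧ JF ε n n = 0 ∧ ∀ T1 T2, JF ε T1 n = 0 → JF ε T2 n = 0 →
    JF ε T1 T1 = 0 → JF ε T2 T2 = 0 → JF ε T1 T2 = 0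

theorem flag2_j5197 {v0 v1 : X} (h : LinearIndependent ℂ ![v0, v1]) {ε : ℂ} (hε : ε = 1 ∨ ε = -1) :
    ∃ f : X →L[ℂ] ℂ, f v0 = 0 ∧ f v1 = 1 ∧ JF ε (rk v0 f) (rk v0 f) = 0 ∧
      ∃ S, JF ε (rk v0 f) S ≠ 0 := by
  obtain ⟨f, hf0, hf1⟩ := dual_vec h
  have hv0 : v0 ≠ 0 := by
    have := h.ne_zero 0
    simpa using this
  obtain ⟨k, hk⟩ := exists_one_j5197 hv0
  refine ⟨f, hf0, hf1, ?_, rk v1 k, ?_⟩
  · rw [JF_flag hε _ hf0]
    simp [hf0]
  · rw [JF_symm hε, JF_flag hε _ hf0]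
    simp [hk, hf1]

theorem no_flag_j5197 (h : ¬ ∃ v : Fin 2 → X, LinearIndependent ℂ v) (T : X →L[ℂ] X) :
    ∃ c : ℂ, T = c • 1 := by
  apply scalar_of_forall_flag
  rintro x f ⟨hx, hf, hfx⟩
  exfalso
  apply hf
  ext y
  obtain ⟨c, hc⟩ := dep_smul hx (x' := y) (fun h2 => h ⟨_, h2⟩)
  rw [hc, map_smul, hfx, smul_zero]
  rfl

theorem dim_ge_two_iff {ε : ℂ} (hε : ε = 1 ∨ ε = -1) :
    (∃ n S : X →L[ℂ] X, JF ε n n = 0 ∧ JF ε n S ≠ 0) ↔
      ∃ v : Fin 2 → X, LinearIndependent ℂ v := by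
  constructor
  · rintro ⟨n, S, h1, h2⟩
    by_contra hno
    obtain ⟨c, hc⟩ := no_flag_j5197 hno n
    obtain ⟨d, hd⟩ := no_flag_j5197 hno S
    rcases hε with rfl | rfl
    · rw [JF_one_self] at h1
      have hs : sr n = 0 := by
        have : sr n ^ 2 = 0 := by linarith
        exact pow_eq_zero_iff (two_ne_zero) |>.1 this
      apply h2
      rw [hd, JF_one_scalar, hs, mul_zero]
    · exact h2 ((JF_neg_eq_zero_iff n).2 ⟨c, hc⟩ S)
  · rintro ⟨v, hv⟩
    have hv' : LinearIndependent ℂ ![v 0, v 1] := by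
      have : v = ![v 0, v 1] := by
        funext i
        fin_cases i <;> rfl
      rwa [← this]
    obtain ⟨f, _, _, h1, S, h2⟩ := flag2_j5197 hv' hε
    exact ⟨_, S, h1, h2⟩

theorem not_mem_span2_j5197 {u v x : X} (h : ¬ ∃ c d : ℂ, x = c • u + d • v) :
    ∃ k : X →L[ℂ] ℂ, k u = 0 ∧ k v = 0 ∧ k x ≠ 0 := by
  by_cases huv : LinearIndependent ℂ ![u, v]
  · by_contra hcon
    apply h
    apply span_vec huv
    intro k h1 h2
    by_contra h3
    exact hcon ⟨k, h1, h2, h3⟩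
  · by_cases hu : u = 0
    · have hvx : v = 0 ∨ LinearIndependent ℂ ![v, x] := by
        by_cases hv : v = 0
        · exact Or.inl hv
        · right
          by_contra hd
          obtain ⟨c, hc⟩ := dep_smul hv hd
          exact h ⟨0, c, by rw [hc]; simp⟩
      rcases hvx with hv | hv
      · have hx : x ≠ 0 := by
          rintro rfl
          exact h ⟨0, 0, by simp⟩
        obtain ⟨k, hk⟩ := exists_one_j5197 hx
        exact ⟨k, by rw [hu, map_zero], by rw [hv, map_zero], by rw [hk]; exact one_ne_zero⟩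
      · obtain ⟨k, hk1, hk2⟩ := dual_vec hv
        exact ⟨k, by rw [hu, map_zero], hk1, by rw [hk2]; exact one_ne_zero⟩
    · obtain ⟨c, hc⟩ := dep_smul hu huv
      have hux : LinearIndependent ℂ ![u, x] := by
        by_contra hd
        obtain ⟨d, hd'⟩ := dep_smul hu hd
        exact h ⟨d, 0, by rw [hd']; simp⟩
      obtain ⟨k, hk1, hk2⟩ := dual_vec hux
      exact ⟨k, hk1, by rw [hc, map_smul, hk1, smul_zero], by rw [hk2]; exact one_ne_zero⟩

/-- crossing flags for a nonscalar operator in dimension at least three -/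
theorem cross_flags (hd : ∃ v : Fin 3 → X, LinearIndependent ℂ v) (R : X →L[ℂ] X)
    (hR : ¬ ∃ c : ℂ, R = c • 1) : ∃ (a b : X) (h k : X →L[ℂ] ℂ), h a = 0 ∧ h (R a) = 0 ∧
      k b = 0 ∧ k (R b) = 0 ∧ h b ≠ 0 ∧ k a ≠ 0 := by
  classical
  obtain ⟨v, hv⟩ := hd
  obtain ⟨a, ha⟩ : ∃ a, LinearIndependent ℂ ![a, R a] := by
    by_contra hcon
    apply hR
    apply scalar_of_forall_flag
    rintro x f ⟨hx, _, hfx⟩
    obtain ⟨c, hc⟩ := dep_smul hx (fun h2 => hcon ⟨x, h2⟩)
    rw [hc, map_smul, hfx, smul_zero]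
  have hap := LinearIndependent.pair_iff.1 ha
  have ha0 : a ≠ 0 := by
    have := ha.ne_zero 0
    simpa using this
  -- b outside
  obtain ⟨b, hb⟩ : ∃ b, ¬ ∃ c d : ℂ, b = c • a + d • R a := by
    by_contra hcon
    push Not at hcon
    have hle : Set.range v ⊆ (Submodule.span ℂ ((({a, R a} : Finset X) : Set X)) : Set X) := by
      rintro _ ⟨i, rfl⟩
      obtain ⟨c, d, hcd⟩ := hcon (v i)
      rw [SetLike.mem_coe, Finset.coe_pair, Submodule.mem_span_pair]
      exact ⟨c, d, hcd.symm⟩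
    have h1 := linearIndependent_le_span_aux' v hv _ hle
    rw [Fintype.card_fin] at h1
    have h2 : Fintype.card ↥((({a, R a} : Finset X) : Set X)) = ({a, R a} : Finset X).card := by
      simp
    have h3 : ({a, R a} : Finset X).card ≤ 2 := Finset.card_le_two
    omega
  suffices hmain : ∃ b', (¬ ∃ c d : ℂ, b' = c • a + d • R a) ∧
      (¬ ∃ c d : ℂ, a = c • b' + d • R b') by
    obtain ⟨b', h1, h2⟩ := hmain
    obtain ⟨h, hh1, hh2, hh3⟩ := not_mem_span2_j5197 h1
    obtain ⟨k, hk1, hk2, hk3⟩ := not_mem_span2_j5197 h2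
    exact ⟨a, b', h, k, hh1, hh2, hk1, hk2, hh3, hk3⟩
  -- if a = c b + d R b with b outside, then R b is a combination of a and b
  have hcomb : ∀ y : X, (¬ ∃ c d : ℂ, y = c • a + d • R a) → (∃ c d : ℂ, a = c • y + d • R y) →
      ∃ c d : ℂ, R y = c • a + d • y := by
    rintro y hy ⟨c, d, hcd⟩
    have hd0 : d ≠ 0 := by
      rintro rfl
      rw [zero_smul, add_zero] at hcd
      have hc0 : c ≠ 0 := by
        rintro rfl
        rw [zero_smul] at hcd
        exact ha0 hcd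
      apply hy
      refine ⟨c⁻¹, 0, ?_⟩
      rw [hcd, smul_smul, inv_mul_cancel₀ hc0, one_smul, zero_smul, add_zero]
    refine ⟨d⁻¹, -(d⁻¹ * c), ?_⟩
    have h1 : d • R y = a - c • y := by rw [hcd]; simp
    calc R y = d⁻¹ • (d • R y) := by rw [smul_smul, inv_mul_cancel₀ hd0, one_smul]
      _ = d⁻¹ • a + (-(d⁻¹ * c)) • y := by rw [h1, smul_sub, neg_smul, smul_smul]; abel
  by_cases hcase : ∃ c d : ℂ, a = c • b + d • R b
  · refine ⟨b + a, ?_, ?_⟩
    · rintro ⟨c, d, hcd⟩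
      apply hb
      refine ⟨c - 1, d, ?_⟩
      have : b = (b + a) - a := by abel
      rw [this, hcd, sub_smul, one_smul]
      abel
    · intro hcase2
      have hb' : ¬ ∃ c d : ℂ, b + a = c • a + d • R a := by
        rintro ⟨c, d, hcd⟩
        apply hb
        refine ⟨c - 1, d, ?_⟩
        have : b = (b + a) - a := by abel
        rw [this, hcd, sub_smul, one_smul]
        abel
      obtain ⟨c1, d1, h1⟩ := hcomb b hb hcase
      obtain ⟨c2, d2, h2⟩ := hcomb (b + a) hb' hcase2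
      have h3 : R a = (c2 + d2 - c1) • a + (d2 - d1) • b := by
        have : R a = R (b + a) - R b := by rw [map_add]; abel
        rw [this, h1, h2, smul_add, sub_smul, add_smul, sub_smul]
        abel
      by_cases hz : d2 - d1 = 0
      · rw [hz, zero_smul, add_zero] at h3
        have := hap (c2 + d2 - c1) (-1) (by rw [← h3]; simp)
        exact (neg_ne_zero.2 one_ne_zero) this.2
      · apply hb
        refine ⟨-((d2 - d1)⁻¹ * (c2 + d2 - c1)), (d2 - d1)⁻¹, ?_⟩
        rw [h3, smul_add, smul_smul, smul_smul, inv_mul_cancel₀ hz, one_smul, neg_smul]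
        abel
  · exact ⟨b, hb, hcase⟩

theorem comb_of_no3_j5197 (h3 : ¬ ∃ v : Fin 3 → X, LinearIndependent ℂ v) {v0 v1 : X}
    (h : LinearIndependent ℂ ![v0, v1]) (x : X) : ∃ c d : ℂ, x = c • v0 + d • v1 := by
  by_contra hcon
  apply h3
  refine ⟨![v0, v1, x], ?_⟩
  rw [Fintype.linearIndependent_iff]
  intro g hg
  rw [Fin.sum_univ_three] at hg
  simp only [Matrix.cons_val_zero, Matrix.cons_val_one, Matrix.cons_val] at hg
  have h2 : g 2 = 0 := by
    by_contra hg2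
    apply hcon
    refine ⟨-((g 2)⁻¹ * g 0), -((g 2)⁻¹ * g 1), ?_⟩
    have h4 : g 2 • x = -(g 0 • v0 + g 1 • v1) := by
      rw [eq_neg_iff_add_eq_zero, add_comm]
      exact hg
    calc x = (g 2)⁻¹ • (g 2 • x) := by rw [smul_smul, inv_mul_cancel₀ hg2, one_smul]
      _ = _ := by rw [h4, smul_neg, smul_add, neg_smul, neg_smul, smul_smul, smul_smul]; abel
  rw [h2, zero_smul, add_zero] at hg
  have h5 := LinearIndependent.pair_iff.1 h _ _ hg
  intro i
  fin_cases i
  · exact h5.1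
  · exact h5.2
  · exact h2

theorem two_of_three_j5197 (h : ∃ v : Fin 3 → X, LinearIndependent ℂ v) :
    ∃ v : Fin 2 → X, LinearIndependent ℂ v := by
  obtain ⟨v, hv⟩ := h
  exact ⟨fun i => v (Fin.castSucc i), hv.comp _ (Fin.castSucc_injective 2)⟩

/-- an eigenvalue is in the spectrum -/
theorem eig_mem_j5197 {T : X →L[ℂ] X} {v : X} {c : ℂ} (hv : v ≠ 0) (h : T v = c • v) :
    c ∈ spectrum ℂ T := by
  rw [spectrum.mem_iff]
  intro hu
  obtain ⟨u, hu⟩ := hu
  have h1 : (u : X →L[ℂ] X) v = 0 := by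
    rw [hu]
    simp [Algebra.algebraMap_eq_smul_one, h]
  have h2 : ((u⁻¹ : (X →L[ℂ] X)ˣ) : X →L[ℂ] X) ((u : X →L[ℂ] X) v) = v := by
    rw [← mul_apply_eq_comp, Units.inv_mul]
    rfl
  rw [h1, map_zero] at h2
  exact hv h2.symm

theorem D2_iff {ε : ℂ} (hε : ε = 1 ∨ ε = -1) :
    D2 ε X ↔ (∃ v : Fin 2 → X, LinearIndependent ℂ v) ∧
      ¬ ∃ v : Fin 3 → X, LinearIndependent ℂ v := by
  constructor
  · rintro ⟨n, ⟨S, hS⟩, hn, H⟩
    have hdim2 : ∃ v : Fin 2 → X, LinearIndependent ℂ v := (dim_ge_two_iff hε).1 ⟨n, S, hn, hS⟩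
    refine ⟨hdim2, ?_⟩
    intro hdim3
    have hns : ¬ ∃ c : ℂ, n = c • 1 := by
      rintro ⟨c, hc⟩
      rcases hε with rfl | rfl
      · rw [JF_one_self] at hn
        have hs : sr n = 0 := by
          have : sr n ^ 2 = 0 := by linarith
          exact pow_eq_zero_iff (two_ne_zero) |>.1 this
        obtain ⟨v, hv⟩ := hdim2
        have hv0 : v 0 ≠ 0 := hv.ne_zero 0
        have hcs : c ∈ spectrum ℂ n := eig_mem_j5197 hv0 (by rw [hc]; simp)
        have hc0 : c = 0 := by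
          have := norm_le_sr hcs
          rw [hs] at this
          exact norm_le_zero_iff.1 this
        apply hS
        rw [JF_symm (Or.inl rfl), hc, JF_one_scalar, hc0]
        simp
      · exact hS ((JF_neg_eq_zero_iff n).2 ⟨c, hc⟩ S)
    obtain ⟨a, b, h, k, h1, h2, h3, h4, h5, h6⟩ := cross_flags hdim3 n hns
    have e1 : JF ε (rk a h) n = 0 := by
      rw [JF_symm hε, JF_flag hε _ h1, h2, norm_zero]
    have e2 : JF ε (rk b k) n = 0 := by
      rw [JF_symm hε, JF_flag hε _ h3, h4, norm_zero]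
    have e3 : JF ε (rk a h) (rk a h) = 0 := by
      rw [JF_flag hε _ h1]; simp [h1]
    have e4 : JF ε (rk b k) (rk b k) = 0 := by
      rw [JF_flag hε _ h3]; simp [h3]
    have e5 := H _ _ e1 e2 e3 e4
    rw [JF_flag hε _ h3] at e5
    have e6 : k ((rk a h) b) = h b * k a := by simp
    rw [e6, norm_eq_zero] at e5
    exact mul_ne_zero h5 h6 e5
  · rintro ⟨⟨v, hv⟩, hno3⟩
    have hv' : LinearIndependent ℂ ![v 0, v 1] := by
      have : v = ![v 0, v 1] := by
        funext i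
        fin_cases i <;> rfl
      rwa [← this]
    have hv0 : v 0 ≠ 0 := hv.ne_zero 0
    obtain ⟨f, hf0, hf1, hn, S, hS⟩ := flag2_j5197 hv' hε
    have hcomb := comb_of_no3_j5197 hno3 hv'
    refine ⟨rk (v 0) f, ⟨S, hS⟩, hn, ?_⟩
    intro T1 T2 h1 h2 h11 h22
    have key : ∀ T : X →L[ℂ] X, JF ε T (rk (v 0) f) = 0 → ∃ c : ℂ, T (v 0) = c • v 0 := by
      intro T hT
      rw [JF_flag hε _ hf0, norm_eq_zero] at hT
      obtain ⟨c, d, hcd⟩ := hcomb (T (v 0))
      refine ⟨c, ?_⟩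
      rw [hcd, map_add, map_smul, map_smul, hf0, hf1] at hT
      have hd : d = 0 := by simpa using hT
      rw [hcd, hd, zero_smul, add_zero]
    obtain ⟨l1, hl1⟩ := key T1 h1
    obtain ⟨l2, hl2⟩ := key T2 h2
    obtain ⟨n1, m1, hm1⟩ := hcomb (T1 (v 1))
    obtain ⟨n2, m2, hm2⟩ := hcomb (T2 (v 1))
    have hext : ∀ A B : X →L[ℂ] X, A (v 0) = B (v 0) → A (v 1) = B (v 1) → A = B := by
      intro A B hA hB
      ext x
      obtain ⟨c, d, hcd⟩ := hcomb x
      rw [hcd, map_add, map_smul, map_smul, hA, hB, ← map_smul, ← map_smul, ← map_add]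
    rcases hε with rfl | rfl
    · -- ε = 1
      have hz : ∀ T : X →L[ℂ] X, JF 1 T T = 0 → ∀ (l n m : ℂ), T (v 0) = l • v 0 →
          T (v 1) = n • v 0 + m • v 1 → l = 0 ∧ m = 0 := by
        intro T hT l n m hl hm
        rw [JF_one_self] at hT
        have hs : sr T = 0 := by
          have : sr T ^ 2 = 0 := by linarith
          exact pow_eq_zero_iff (two_ne_zero) |>.1 this
        constructor
        · have := norm_le_sr (eig_mem_j5197 hv0 hl)
          rw [hs] at this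
          exact norm_le_zero_iff.1 this
        · have hmem : m ∈ spectrum ℂ T := by
            rw [spectrum.mem_iff]
            intro hu
            obtain ⟨u, hu⟩ := hu
            -- f ∘ u = c • f-like: u maps v0 to (m - l) v0 and v1 to - n v0
            have hfu : ∀ x, f ((u : X →L[ℂ] X) x) = 0 := by
              intro x
              obtain ⟨c, d, hcd⟩ := hcomb x
              rw [hu, hcd]
              simp only [Algebra.algebraMap_eq_smul_one, sub_apply,
                smul_apply, one_apply_eq_self, map_add, map_smul,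
                map_sub, hl, hm, hf0, hf1, smul_eq_mul]
              ring
            have h3 : (u : X →L[ℂ] X) (((u⁻¹ : (X →L[ℂ] X)ˣ) : X →L[ℂ] X) (v 1)) = v 1 := by
              rw [← mul_apply_eq_comp, Units.mul_inv]
              rfl
            have h4 := hfu (((u⁻¹ : (X →L[ℂ] X)ˣ) : X →L[ℂ] X) (v 1))
            rw [h3, hf1] at h4
            exact one_ne_zero h4
          have := norm_le_sr hmem
          rw [hs] at this
          exact norm_le_zero_iff.1 this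
      obtain ⟨hl1', hm1'⟩ := hz T1 h11 l1 n1 m1 hl1 hm1
      obtain ⟨hl2', hm2'⟩ := hz T2 h22 l2 n2 m2 hl2 hm2
      rw [hl1', zero_smul] at hl1
      rw [hl2', zero_smul] at hl2
      rw [hm1', zero_smul, add_zero] at hm1
      rw [hm2', zero_smul, add_zero] at hm2
      have hK : T1 * T2 + (1:ℂ) • (T2 * T1) = 0 := by
        apply hext
        · simp [hl1, hl2]
        · simp [hm1, hm2, hl1, hl2]
      unfold JF
      rw [hK]
      exact sr_eq_zero_of_sq (by simp)
    · -- ε = -1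
      unfold JF
      apply sr_eq_zero_of_sq
      have hK0 : (T1 * T2 + (-1:ℂ) • (T2 * T1)) (v 0) = 0 := by
        have e1 : (T1 * T2 + (-1:ℂ) • (T2 * T1)) (v 0) = T1 (T2 (v 0)) + (-1:ℂ) • T2 (T1 (v 0)) :=
          rfl
        rw [e1, hl1, hl2, map_smul, map_smul, hl1, hl2, smul_smul, smul_smul, smul_smul,
          ← add_smul]
        have : l2 * l1 + -1 * l1 * l2 = 0 := by ring
        rw [this, zero_smul]
      have hK1 : ∃ c : ℂ, (T1 * T2 + (-1:ℂ) • (T2 * T1)) (v 1) = c • v 0 := by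
        obtain ⟨c, d, hcd⟩ := hcomb ((T1 * T2 + (-1:ℂ) • (T2 * T1)) (v 1))
        refine ⟨c, ?_⟩
        have hfK := congrArg f hcd
        have e1 : (T1 * T2 + (-1:ℂ) • (T2 * T1)) (v 1) = T1 (T2 (v 1)) + (-1:ℂ) • T2 (T1 (v 1)) :=
          rfl
        rw [e1] at hfK
        simp only [hm1, hm2, hl1, hl2, map_smul, map_add,
          hf0, hf1, smul_eq_mul, mul_zero, mul_one, zero_add] at hfK
        have hd : d = 0 := by linear_combination (-1 : ℂ) * hfK
        rw [hcd, hd, zero_smul, add_zero]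
      obtain ⟨c, hc⟩ := hK1
      apply hext
      · rw [mul_apply_eq_comp, hK0, map_zero]
        rfl
      · rw [mul_apply_eq_comp, hc, map_smul, hK0, smul_zero]
        rfl

theorem dims_transfer {Y : Type*} [NormedAddCommGroup Y] [NormedSpace ℂ Y] [CompleteSpace Y]
    {ε : ℂ} (hε : ε = 1 ∨ ε = -1) (φ : (X →L[ℂ] X) → (Y →L[ℂ] Y))
    (hs : Function.Surjective φ) (h : ∀ T S, JF ε (φ T) (φ S) = JF ε T S) :
    ((∃ v : Fin 2 → X, LinearIndependent ℂ v) ↔ (∃ v : Fin 2 → Y, LinearIndependent ℂ v)) ∧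
    ((∃ v : Fin 3 → X, LinearIndependent ℂ v) ↔ (∃ v : Fin 3 → Y, LinearIndependent ℂ v)) := by
  have h2 : (∃ v : Fin 2 → X, LinearIndependent ℂ v) ↔
      (∃ v : Fin 2 → Y, LinearIndependent ℂ v) := by
    rw [← dim_ge_two_iff hε, ← dim_ge_two_iff hε]
    constructor
    · rintro ⟨n, S, h1, h2⟩
      exact ⟨φ n, φ S, by rw [h, h1], by rw [h]; exact h2⟩
    · rintro ⟨n, S, h1, h2⟩
      obtain ⟨n, rfl⟩ := hs n
      obtain ⟨S, rfl⟩ := hs S
      rw [h] at h1 h2
      exact ⟨n, S, h1, h2⟩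
  have hD : D2 ε X ↔ D2 ε Y := by
    constructor
    · rintro ⟨n, ⟨S, hS⟩, hn, H⟩
      refine ⟨φ n, ⟨φ S, by rw [h]; exact hS⟩, by rw [h, hn], ?_⟩
      intro T1 T2 a1 a2 a3 a4
      obtain ⟨T1, rfl⟩ := hs T1
      obtain ⟨T2, rfl⟩ := hs T2
      rw [h] at a1 a2 a3 a4 ⊢
      exact H T1 T2 a1 a2 a3 a4
    · rintro ⟨n, ⟨S, hS⟩, hn, H⟩
      obtain ⟨n, rfl⟩ := hs n
      obtain ⟨S, rfl⟩ := hs S
      rw [h] at hS hn
      refine ⟨n, ⟨S, hS⟩, hn, ?_⟩
      intro T1 T2 a1 a2 a3 a4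
      rw [← h] at a1 a2 a3 a4 ⊢
      exact H _ _ a1 a2 a3 a4
  refine ⟨h2, ?_⟩
  rw [D2_iff hε, D2_iff hε] at hD
  constructor
  · intro h3
    by_contra hcon
    have := hD.2 ⟨h2.1 (two_of_three_j5197 h3), hcon⟩
    exact this.2 h3
  · intro h3
    by_contra hcon
    have := hD.1 ⟨h2.2 (two_of_three_j5197 h3), hcon⟩
    exact this.2 h3

end dims


end j5197

-- part 5198
section j5198
open Matrix

/-- the determinant with rows a, S a, D a -/
noncomputable def dt (S D : Matrix (Fin 3) (Fin 3) ℂ) (a : Fin 3 → ℂ) : ℂ :=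
  (Matrix.of ![a, S *ᵥ a, D *ᵥ a]).det

theorem refl_companion_j5198 (c0 c1 c2 : ℂ) (D : Matrix (Fin 3) (Fin 3) ℂ)
    (h : ∀ a, dt !![0, 0, c0; 1, 0, c1; 0, 1, c2] D a = 0) :
    D = D 1 0 • !![0, 0, c0; 1, 0, c1; 0, 1, c2] + D 0 0 • (1 : Matrix (Fin 3) (Fin 3) ℂ) := by
  have key : ∀ x y z : ℂ,
      (D 0 0 * x + D 0 1 * y + D 0 2 * z) * (y * (y + c2 * z) - z * (x + c1 * z)) +
      (D 1 0 * x + D 1 1 * y + D 1 2 * z) * (c0 * z * z - x * (y + c2 * z)) +
      (D 2 0 * x + D 2 1 * y + D 2 2 * z) * (x * (x + c1 * z) - y * (c0 * z)) = 0 := by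
    intro x y z
    have := h ![x, y, z]
    unfold dt at this
    rw [Matrix.det_fin_three] at this
    simp [Matrix.mulVec, dotProduct, Fin.sum_univ_three] at this
    linear_combination this
  have h1 := key 1 0 0
  have h2 := key 0 1 0
  have h3 := key 0 0 1
  have h4 := key 1 1 0
  have h5 := key 1 (-1) 0
  have h6 := key 1 0 1
  have h7 := key 1 0 (-1)
  have h8 := key 0 1 1
  have h9 := key 0 1 (-1)
  have h10 := key 1 1 1
  have e20 : D 2 0 = 0 := by linear_combination h1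
  have e01 : D 0 1 = 0 := by linear_combination h2
  rw [e20, e01] at h3 h4 h5 h6 h7 h8 h9 h10
  have e21 : D 2 1 = D 1 0 := by linear_combination (h4 - h5) / 2
  have e11 : D 1 1 = D 0 0 := by linear_combination (-h4 - h5) / 2
  rw [e21, e11] at h3 h6 h7 h8 h9 h10
  have e22 : D 2 2 = D 0 0 + c2 * D 1 0 := by linear_combination (h6 - h7) / 2 - h3
  have e02 : D 0 2 = c0 * D 1 0 := by linear_combination (h8 - h9) / 2 - h3
  have e12 : D 1 2 = c1 * D 1 0 := by
    rw [e22, e02] at h3 h6 h7 h8 h9 h10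
    linear_combination -h10 + (h6 + h7) / 2 + (h8 + h9) / 2 + h3
  ext i j
  fin_cases i <;> fin_cases j <;>
    simp [e20, e01, e21, e11, e22, e02, e12] <;> ring

/-- the matrix with rows `P u`, `P v`, `P w` -/
theorem of_mulVec_j5198 (P : Matrix (Fin 3) (Fin 3) ℂ) (u v w : Fin 3 → ℂ) :
    Matrix.of ![P *ᵥ u, P *ᵥ v, P *ᵥ w] = Matrix.of ![u, v, w] * Pᵀ := by
  ext i j
  fin_cases i <;> simp [Matrix.mul_apply, Matrix.mulVec, dotProduct, mul_comm]

/-- reflexivity of span {1, S} for cyclic S -/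
theorem refl_cyclic (S D : Matrix (Fin 3) (Fin 3) ℂ) (e : Fin 3 → ℂ)
    (he : LinearIndependent ℂ ![e, S *ᵥ e, S *ᵥ (S *ᵥ e)]) (h : ∀ a, dt S D a = 0) :
    ∃ s d : ℂ, D = s • S + d • 1 := by
  set P : Matrix (Fin 3) (Fin 3) ℂ := (Matrix.of ![e, S *ᵥ e, S *ᵥ (S *ᵥ e)])ᵀ with hP
  have hunit : IsUnit P := by
    rw [hP, Matrix.isUnit_transpose]
    exact Matrix.linearIndependent_rows_iff_isUnit.1 he
  have hdet : IsUnit P.det := (Matrix.isUnit_iff_isUnit_det P).1 hunit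
  have hP0 : P *ᵥ ![1, 0, 0] = e := by
    ext i
    fin_cases i <;> simp [hP, Matrix.mulVec, dotProduct, Fin.sum_univ_three]
  have hP1 : P *ᵥ ![0, 1, 0] = S *ᵥ e := by
    ext i
    fin_cases i <;> simp [hP, Matrix.mulVec, dotProduct, Fin.sum_univ_three]
  have hP2 : P *ᵥ ![0, 0, 1] = S *ᵥ (S *ᵥ e) := by
    rw [hP]
    generalize S *ᵥ (S *ᵥ e) = w
    ext i
    fin_cases i <;> simp [Matrix.mulVec, dotProduct, Fin.sum_univ_three]
  have hPi : P⁻¹ * P = 1 := Matrix.nonsing_inv_mul P hdet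
  have hPi' : P * P⁻¹ = 1 := Matrix.mul_nonsing_inv P hdet
  set c : Fin 3 → ℂ := P⁻¹ *ᵥ (S *ᵥ (S *ᵥ (S *ᵥ e))) with hc
  have hC : P⁻¹ * S * P = !![0, 0, c 0; 1, 0, c 1; 0, 1, c 2] := by
    have hv : ∀ v : Fin 3 → ℂ, (P⁻¹ * S * P) *ᵥ v =
        !![0, 0, c 0; 1, 0, c 1; 0, 1, c 2] *ᵥ v := by
      have hv0 : (P⁻¹ * S * P) *ᵥ ![1, 0, 0] = ![0, 1, 0] := by
        rw [← Matrix.mulVec_mulVec, ← Matrix.mulVec_mulVec, hP0, ← hP1, Matrix.mulVec_mulVec, hPi,
          Matrix.one_mulVec]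
      have hv1 : (P⁻¹ * S * P) *ᵥ ![0, 1, 0] = ![0, 0, 1] := by
        rw [← Matrix.mulVec_mulVec, ← Matrix.mulVec_mulVec, hP1, ← hP2, Matrix.mulVec_mulVec, hPi,
          Matrix.one_mulVec]
      have hv2 : (P⁻¹ * S * P) *ᵥ ![0, 0, 1] = c := by
        rw [← Matrix.mulVec_mulVec, ← Matrix.mulVec_mulVec, hP2]
      intro v
      have hvv : v = v 0 • ![1, 0, 0] + v 1 • ![0, 1, 0] + v 2 • ![0, 0, 1] := by
        ext i
        fin_cases i <;> simp
      conv_lhs => rw [hvv]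
      rw [Matrix.mulVec_add, Matrix.mulVec_add, Matrix.mulVec_smul, Matrix.mulVec_smul,
        Matrix.mulVec_smul, hv0, hv1, hv2]
      ext i
      fin_cases i <;> simp [Matrix.mulVec, dotProduct, Fin.sum_univ_three] <;> ring
    ext i j
    have := congrFun (hv (Pi.single j 1)) i
    rwa [Matrix.mulVec_single_one, Matrix.mulVec_single_one] at this
  have hD : ∀ a, dt (P⁻¹ * S * P) (P⁻¹ * D * P) a = 0 := by
    intro a
    unfold dt
    have h1 : Matrix.of ![a, (P⁻¹ * S * P) *ᵥ a, (P⁻¹ * D * P) *ᵥ a] =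
        Matrix.of ![P⁻¹ *ᵥ (P *ᵥ a), P⁻¹ *ᵥ (S *ᵥ (P *ᵥ a)), P⁻¹ *ᵥ (D *ᵥ (P *ᵥ a))] := by
      rw [Matrix.mulVec_mulVec, hPi, Matrix.one_mulVec]
      simp only [Matrix.mulVec_mulVec, mul_assoc]
    rw [h1, of_mulVec_j5198, Matrix.det_mul]
    have h2 := h (P *ᵥ a)
    unfold dt at h2
    rw [h2, zero_mul]
  rw [hC] at hD
  have hfin := refl_companion_j5198 (c 0) (c 1) (c 2) (P⁻¹ * D * P) hD
  rw [← hC] at hfin
  refine ⟨(P⁻¹ * D * P) 1 0, (P⁻¹ * D * P) 0 0, ?_⟩
  generalize (P⁻¹ * D * P) 1 0 = s at hfin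
  generalize (P⁻¹ * D * P) 0 0 = d at hfin
  have h3 : D = P * (P⁻¹ * D * P) * P⁻¹ := by
    have : P * (P⁻¹ * D * P) * P⁻¹ = (P * P⁻¹) * D * (P * P⁻¹) := by
      simp only [mul_assoc]
    rw [this, hPi', one_mul, mul_one]
  have h4 : P * (s • (P⁻¹ * S * P) + d • (1 : Matrix (Fin 3) (Fin 3) ℂ)) * P⁻¹ =
      s • S + d • 1 := by
    rw [mul_add, add_mul, mul_smul_comm, smul_mul_assoc, mul_smul_comm, smul_mul_assoc, mul_one,
      hPi']
    congr 2
    have : P * (P⁻¹ * S * P) * P⁻¹ = (P * P⁻¹) * S * (P * P⁻¹) := by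
      simp only [mul_assoc]
    rw [this, hPi', one_mul, mul_one]
  rw [h3, hfin, h4]

theorem dt_poly (S D : Matrix (Fin 3) (Fin 3) ℂ) (x y : Fin 3 → ℂ) :
    ∃ P : Polynomial ℂ, ∀ t : ℂ, dt S D (x + t • y) = P.eval t := by
  refine ⟨(Matrix.of ![fun j => Polynomial.C (x j) + Polynomial.X * Polynomial.C (y j),
    fun j => Polynomial.C ((S *ᵥ x) j) + Polynomial.X * Polynomial.C ((S *ᵥ y) j),
    fun j => Polynomial.C ((D *ᵥ x) j) + Polynomial.X * Polynomial.C ((D *ᵥ y) j)]).det,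
    fun t => ?_⟩
  unfold dt
  rw [Matrix.det_fin_three, Matrix.det_fin_three]
  simp only [Matrix.mulVec_add, Matrix.mulVec_smul]
  simp
  ring

/-- matrices whose off-`S0`-diagonal entries are proportional in modulus -/
theorem pencil_mat (S0 S1 S2 : Matrix (Fin 3) (Fin 3) ℂ) (e : Fin 3 → ℂ)
    (he : LinearIndependent ℂ ![e, S0 *ᵥ e, S0 *ᵥ (S0 *ᵥ e)]) (κ : ℝ)
    (h : ∀ a h : Fin 3 → ℂ, h ⬝ᵥ a = 0 → h ⬝ᵥ (S0 *ᵥ a) = 0 →
      ‖h ⬝ᵥ (S2 *ᵥ a)‖ = κ * ‖h ⬝ᵥ (S1 *ᵥ a)‖) :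
    ∃ θ s d : ℂ, ‖θ‖ = 1 ∧ S2 = (θ * κ) • S1 + s • S0 + d • 1 := by
  have hmain : ∀ a, ‖dt S0 S2 a‖ = κ * ‖dt S0 S1 a‖ := by
    intro a
    set b := S0 *ᵥ a with hb
    have hcr : ∀ D : Matrix (Fin 3) (Fin 3) ℂ, dt S0 D a =
        ![a 1 * b 2 - a 2 * b 1, a 2 * b 0 - a 0 * b 2, a 0 * b 1 - a 1 * b 0] ⬝ᵥ (D *ᵥ a) := by
      intro D
      unfold dt
      rw [Matrix.det_fin_three, ← hb]
      simp [dotProduct, Fin.sum_univ_three]
      ring
    rw [hcr, hcr]
    apply h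
    · simp [dotProduct, Fin.sum_univ_three]
      ring
    · rw [← hb]
      simp [dotProduct, Fin.sum_univ_three]
      ring
  obtain ⟨θ, hθ, hθ2⟩ := line_mod (dt S0 S2) (dt S0 S1) κ (dt_poly S0 S2) (dt_poly S0 S1) hmain
  have hlin : ∀ a, dt S0 (S2 - (θ * κ) • S1) a = 0 := by
    intro a
    have h1 : dt S0 (S2 - (θ * κ) • S1) a = dt S0 S2 a - θ * κ * dt S0 S1 a := by
      unfold dt
      rw [Matrix.det_fin_three, Matrix.det_fin_three, Matrix.det_fin_three]
      simp [Matrix.sub_mulVec, Matrix.smul_mulVec]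
      ring
    rw [h1, hθ2 a, sub_self]
  obtain ⟨s, d, hsd⟩ := refl_cyclic S0 (S2 - (θ * κ) • S1) e he hlin
  refine ⟨θ, s, d, hθ, ?_⟩
  rw [add_assoc, ← hsd]
  abel


end j5198

-- part 5254
section j5254
open Matrix

/-- the determinant with rows a, S a, D a -/
noncomputable def dt_j5254 (S D : Matrix (Fin 3) (Fin 3) ℂ) (a : Fin 3 → ℂ) : ℂ :=
  (Matrix.of ![a, S *ᵥ a, D *ᵥ a]).det

section
variable {X : Type*} [NormedAddCommGroup X] [NormedSpace ℂ X]

theorem aux_fd_j5254 (h4 : ¬ ∃ v : Fin 4 → X, LinearIndependent ℂ v) :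
    FiniteDimensional ℂ X ∧ Module.finrank ℂ X ≤ 3 := by
  have h1 : Module.rank ℂ X < (4 : ℕ) := by
    by_contra hc
    exact h4 (exists_linearIndependent_of_le_rank (not_lt.mp hc))
  have h2 : FiniteDimensional ℂ X := by
    show Module.Finite ℂ X
    rw [← Module.rank_lt_aleph0_iff]
    exact h1.trans (Cardinal.natCast_lt_aleph0)
  refine ⟨h2, ?_⟩
  have h3 := Module.finrank_eq_rank ℂ X
  rw [← h3] at h1
  have : Module.finrank ℂ X < 4 := by exact_mod_cast h1
  omega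

theorem aux_basis_j5254 (h4 : ¬ ∃ v : Fin 4 → X, LinearIndependent ℂ v) {v : Fin 3 → X}
    (hv : LinearIndependent ℂ v) : ∃ b : Module.Basis (Fin 3) ℂ X, ⇑b = v := by
  obtain ⟨hfd, hf⟩ := aux_fd_j5254 h4
  have h1 := hv.fintype_card_le_finrank
  have h2 : Fintype.card (Fin 3) = Module.finrank ℂ X := by
    rw [Fintype.card_fin] at h1 ⊢
    omega
  exact ⟨basisOfLinearIndependentOfCardEqFinrank hv h2, coe_basisOfLinearIndependentOfCardEqFinrank hv h2⟩

theorem aux_map_j5254 {E F : Type*} [AddCommGroup E] [Module ℂ E] [AddCommGroup F] [Module ℂ F]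
    (L : E ≃ₗ[ℂ] F) (a b c : E) :
    LinearIndependent ℂ ![a, b, c] ↔ LinearIndependent ℂ ![L a, L b, L c] := by
  have : ![L a, L b, L c] = L ∘ ![a, b, c] := by
    ext i; fin_cases i <;> rfl
  rw [this]
  constructor
  · intro h
    exact h.map' L.toLinearMap (LinearEquiv.ker L)
  · intro h
    exact LinearIndependent.of_comp L.toLinearMap h

/-- abstract form of `pencil_mat` in dimension three -/
theorem pencil3 (h4 : ¬ ∃ v : Fin 4 → X, LinearIndependent ℂ v) (S0 S1 S2 : X →L[ℂ] X) (e : X)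
    (he : LinearIndependent ℂ ![e, S0 e, S0 (S0 e)]) (κ : ℝ)
    (h : ∀ (a : X) (h : X →L[ℂ] ℂ), h a = 0 → h (S0 a) = 0 → ‖h (S2 a)‖ = κ * ‖h (S1 a)‖) :
    ∃ θ s d : ℂ, ‖θ‖ = 1 ∧ S2 = (θ * κ) • S1 + s • S0 + d • 1 := by
  obtain ⟨hfd, hf⟩ := aux_fd_j5254 h4
  obtain ⟨b, hb⟩ := aux_basis_j5254 h4 he
  set M : (X →L[ℂ] X) → Matrix (Fin 3) (Fin 3) ℂ := fun S => LinearMap.toMatrix b b (S : X →ₗ[ℂ] X)
    with hM
  have hMv : ∀ S : X →L[ℂ] X, ∀ x : X, b.equivFun (S x) = M S *ᵥ (b.equivFun x) := by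
    intro S x
    have := LinearMap.toMatrix_mulVec_repr b b (S : X →ₗ[ℂ] X) x
    exact this.symm
  have he' : LinearIndependent ℂ ![b.equivFun e, M S0 *ᵥ b.equivFun e,
      M S0 *ᵥ (M S0 *ᵥ b.equivFun e)] := by
    rw [← hMv, ← hMv]
    exact (aux_map_j5254 b.equivFun _ _ _).mp he
  have hfun : ∀ hv : Fin 3 → ℂ, ∃ g : X →L[ℂ] ℂ, ∀ x, g x = hv ⬝ᵥ (b.equivFun x) := by
    intro hv
    refine ⟨LinearMap.toContinuousLinearMap
      ({ toFun := fun x => hv ⬝ᵥ (b.equivFun x)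
         map_add' := fun x y => by rw [map_add, dotProduct_add]
         map_smul' := fun c x => by rw [map_smul, dotProduct_smul]; rfl } : X →ₗ[ℂ] ℂ),
      fun x => ?_⟩
    rfl
  obtain ⟨θ, s, d, hθ, hS⟩ := pencil_mat (M S0) (M S1) (M S2) (b.equivFun e) he' κ (by
    intro a hv h1 h2
    obtain ⟨g, hg⟩ := hfun hv
    set x := b.equivFun.symm a with hx
    have hxa : b.equivFun x = a := by rw [hx, LinearEquiv.apply_symm_apply]
    have k0 : g x = hv ⬝ᵥ a := by rw [hg, hxa]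
    have k : ∀ S : X →L[ℂ] X, g (S x) = hv ⬝ᵥ (M S *ᵥ a) := fun S => by rw [hg, hMv, hxa]
    have := h x g (by rw [k0, h1]) (by rw [k, h2])
    rw [k, k] at this
    exact this)
  refine ⟨θ, s, d, hθ, ?_⟩
  ext x
  apply b.equivFun.injective
  rw [hMv, hS]
  simp only [_root_.add_apply, _root_.smul_apply, map_add, map_smul,
    one_apply_eq_self, hMv, Matrix.add_mulVec, Matrix.smul_mulVec, Matrix.one_mulVec]


/-- generic vectors -/
theorem generic3 (h4 : ¬ ∃ v : Fin 4 → X, LinearIndependent ℂ v) (S0 S1 : X →L[ℂ] X) (e : X)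
    (he : LinearIndependent ℂ ![e, S0 e, S0 (S0 e)]) (hS : ¬ ∃ s d : ℂ, S1 = s • S0 + d • 1) :
    ∃ a : X, LinearIndependent ℂ ![a, S0 a, S1 a] ∧ LinearIndependent ℂ ![a, S0 a, S0 (S0 a)] := by
  obtain ⟨hfd, hf⟩ := aux_fd_j5254 h4
  obtain ⟨b, hb⟩ := aux_basis_j5254 h4 he
  set M : (X →L[ℂ] X) → Matrix (Fin 3) (Fin 3) ℂ := fun S => LinearMap.toMatrix b b (S : X →ₗ[ℂ] X)
    with hM
  have hMv : ∀ S : X →L[ℂ] X, ∀ x : X, b.equivFun (S x) = M S *ᵥ (b.equivFun x) := by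
    intro S x
    have := LinearMap.toMatrix_mulVec_repr b b (S : X →ₗ[ℂ] X) x
    exact this.symm
  have hdt : ∀ (A D : Matrix (Fin 3) (Fin 3) ℂ) (a : Fin 3 → ℂ), dt_j5254 A D a ≠ 0 →
      LinearIndependent ℂ ![a, A *ᵥ a, D *ᵥ a] := by
    intro A D a h
    exact Matrix.linearIndependent_rows_of_det_ne_zero h
  have hdt' : ∀ (A D : Matrix (Fin 3) (Fin 3) ℂ) (a : Fin 3 → ℂ),
      LinearIndependent ℂ ![a, A *ᵥ a, D *ᵥ a] → dt_j5254 A D a ≠ 0 := by
    intro A D a h
    have : LinearIndependent ℂ (Matrix.of ![a, A *ᵥ a, D *ᵥ a]).row := h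
    rw [Matrix.linearIndependent_rows_iff_isUnit, Matrix.isUnit_iff_isUnit_det] at this
    exact this.ne_zero
  by_contra hcon
  push Not at hcon
  rcases line_mul_ne (dt_j5254 (M S0) (M S1)) (dt_j5254 (M S0) (M S0 * M S0)) (dt_poly _ _) (dt_poly _ _) (by
    intro x
    by_contra hx
    push Not at hx
    apply hcon (b.equivFun.symm x)
    · rw [aux_map_j5254 b.equivFun, hMv, hMv, LinearEquiv.apply_symm_apply]
      exact hdt _ _ _ hx.1
    · rw [aux_map_j5254 b.equivFun, hMv, hMv, hMv, LinearEquiv.apply_symm_apply]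
      have := hdt _ _ _ hx.2
      rwa [← Matrix.mulVec_mulVec] at this) with h | h
  · have he' : LinearIndependent ℂ ![b.equivFun e, M S0 *ᵥ b.equivFun e,
        M S0 *ᵥ (M S0 *ᵥ b.equivFun e)] := by
      rw [← hMv, ← hMv]
      exact (aux_map_j5254 b.equivFun _ _ _).mp he
    obtain ⟨s, d, hsd⟩ := refl_cyclic (M S0) (M S1) (b.equivFun e) he' h
    apply hS
    refine ⟨s, d, ?_⟩
    ext x
    apply b.equivFun.injective
    rw [hMv, hsd]
    simp only [_root_.add_apply, _root_.smul_apply, map_add, map_smul,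
      one_apply_eq_self, hMv, Matrix.add_mulVec, Matrix.smul_mulVec, Matrix.one_mulVec]
  · have he' : LinearIndependent ℂ ![b.equivFun e, M S0 *ᵥ b.equivFun e,
        (M S0 * M S0) *ᵥ (b.equivFun e)] := by
      rw [← Matrix.mulVec_mulVec, ← hMv, ← hMv]
      exact (aux_map_j5254 b.equivFun _ _ _).mp he
    exact hdt' _ _ _ he' (h _)

/-- functionals with prescribed values at three independent vectors -/
theorem dual3 {a b c : X} (h : LinearIndependent ℂ ![a, b, c]) (p q r : ℂ) :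
    ∃ k : X →L[ℂ] ℂ, k a = p ∧ k b = q ∧ k c = r := by
  set V := Submodule.span ℂ (Set.range ![a, b, c]) with hV
  have : FiniteDimensional ℂ V := FiniteDimensional.span_of_finite ℂ (Set.finite_range _)
  set B := Module.Basis.span h with hB
  set f : V →ₗ[ℂ] ℂ := B.constr ℂ ![p, q, r] with hf
  obtain ⟨g, hg, -⟩ := exists_extension_norm_eq V (LinearMap.toContinuousLinearMap f)
  have hgi : ∀ i, g (![a, b, c] i) = ![p, q, r] i := by
    intro i
    have h1 : (B i : X) = ![a, b, c] i := by rw [hB, Module.Basis.span_apply]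
    rw [← h1, hg]
    show f (B i) = _
    rw [hf, Module.Basis.constr_basis]
  exact ⟨g, hgi 0, hgi 1, hgi 2⟩

theorem aux_trace_j5254 [CompleteSpace X] [Nontrivial X] [FiniteDimensional ℂ X] (S : X →L[ℂ] X) (h0 : sr S = 0) :
    LinearMap.trace ℂ X (S : X →ₗ[ℂ] X) = 0 := by
  have h1 : spectralRadius ℂ S = 0 := by
    unfold sr at h0
    rw [ENNReal.toReal_eq_zero_iff] at h0
    rcases h0 with h | h
    · exact h
    · exfalso
      have hle : spectralRadius ℂ S ≤ ‖S‖₊ := spectrum.spectralRadius_le_nnnorm S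
      rw [h] at hle
      exact absurd (top_le_iff.mp hle) ENNReal.coe_ne_top
  have h2 : ∀ k ∈ spectrum ℂ S, k = 0 := by
    intro k hk
    have h3 : (‖k‖₊ : ENNReal) ≤ spectralRadius ℂ S := le_iSup₂ (f := fun k (_ : k ∈ spectrum ℂ S) => (‖k‖₊ : ENNReal)) k hk
    rw [h1, nonpos_iff_eq_zero] at h3
    simpa using h3
  have h3 : ∀ k ∈ ((S : X →ₗ[ℂ] X)).charpoly.roots, k = 0 := by
    intro k hk
    apply h2
    have h4 := (Polynomial.mem_roots'.mp hk).2
    rw [← Module.End.hasEigenvalue_iff_isRoot_charpoly] at h4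
    obtain ⟨v, hv⟩ := h4.exists_hasEigenvector
    have hv0 := hv.2
    have hv1 : S v = k • v := hv.apply_eq_smul
    rw [spectrum.mem_iff]
    intro hu
    obtain ⟨u, hu⟩ := hu
    apply hv0
    have h5 : (u : X →L[ℂ] X) v = 0 := by
      rw [hu]
      show (algebraMap ℂ (X →L[ℂ] X) k) v - S v = 0
      rw [hv1, Algebra.algebraMap_eq_smul_one]
      simp
    have h6 : ((↑u⁻¹ : X →L[ℂ] X) * (u : X →L[ℂ] X)) v = v := by
      rw [Units.inv_mul]; rfl
    rw [← h6]
    show (↑u⁻¹ : X →L[ℂ] X) ((u : X →L[ℂ] X) v) = 0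
    rw [h5, map_zero]
  rw [Module.End.trace_eq_sum_roots_charpoly_of_splits (IsAlgClosed.splits _)]
  exact Multiset.sum_eq_zero h3

/-- trace zero argument: quasinilpotent operators in dimension three -/
theorem trace3 [CompleteSpace X] (h4 : ¬ ∃ v : Fin 4 → X, LinearIndependent ℂ v) [Nontrivial X]
    (S0 S1 S2 : X →L[ℂ] X) (h0 : sr S0 = 0) (h1 : sr S1 = 0) (h2 : sr S2 = 0) (β s d : ℂ)
    (h : S2 = β • S1 + s • S0 + d • 1) : d = 0 := by
  obtain ⟨hfd, hf⟩ := aux_fd_j5254 h4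
  have t0 := aux_trace_j5254 S0 h0
  have t1 := aux_trace_j5254 S1 h1
  have t2 := aux_trace_j5254 S2 h2
  have e : (S2 : X →ₗ[ℂ] X) = β • (S1 : X →ₗ[ℂ] X) + s • (S0 : X →ₗ[ℂ] X) + d • 1 := by
    rw [h]; ext x; simp
  rw [e, map_add, map_add, map_smul, map_smul, map_smul, t0, t1, LinearMap.trace_one] at t2
  have h5 : (Module.finrank ℂ X : ℂ) ≠ 0 := by
    exact_mod_cast Module.finrank_pos.ne'
  simpa [h5] using t2

theorem aux_rk_j5254 (S : X →L[ℂ] X) (ν : ℂ) (c : X) (h : ∀ x, ∃ t : ℂ, S x - ν • x = t • c) :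
    ∃ (ν : ℂ) (x : X) (f : X →L[ℂ] ℂ), S = ν • 1 + rk x f := by
  by_cases hc : c = 0
  · refine ⟨ν, 0, 0, ?_⟩
    ext x
    obtain ⟨t, ht⟩ := h x
    rw [hc, smul_zero, sub_eq_zero] at ht
    rw [ht]; simp
  · obtain ⟨g, -, hg⟩ := exists_dual_vector ℂ c (norm_ne_zero_iff.mpr hc)
    have hn : (‖c‖ : ℂ) ≠ 0 := by exact_mod_cast (norm_ne_zero_iff.mpr hc)
    refine ⟨ν, c, (‖c‖ : ℂ)⁻¹ • (g.comp (S - ν • 1)), ?_⟩
    ext x
    obtain ⟨t, ht⟩ := h x
    have h1 : g (S x - ν • x) = t * ‖c‖ := by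
      rw [ht, map_smul, hg]; simp
    have h2 : ((‖c‖ : ℂ)⁻¹ • (g.comp (S - ν • 1))) x = t := by
      show (‖c‖ : ℂ)⁻¹ * g (S x - ν • x) = t
      rw [h1]; field_simp
    show S x = ν • x + (((‖c‖ : ℂ)⁻¹ • (g.comp (S - ν • 1))) x) • c
    rw [h2, ← ht]; abel

/-- in dimension three an operator without cyclic vector is scalar plus rank one -/
theorem noncyc3 (h4 : ¬ ∃ v : Fin 4 → X, LinearIndependent ℂ v) (S : X →L[ℂ] X)
    (h : ∀ e, ¬ LinearIndependent ℂ ![e, S e, S (S e)]) :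
    ∃ (ν : ℂ) (x : X) (f : X →L[ℂ] ℂ), S = ν • 1 + rk x f := by
  by_cases hsc : ∀ v, ¬ LinearIndependent ℂ ![v, S v]
  · obtain ⟨ν, hν⟩ := LinearMap.exists_eq_smul_id_of_forall_notLinearIndependent
      (f := (S : X →ₗ[ℂ] X)) hsc
    apply aux_rk_j5254 S ν 0
    intro x
    refine ⟨0, ?_⟩
    have : S x = ν • x := by
      have := congrArg (fun f : X →ₗ[ℂ] X => f x) hν
      simpa using this
    rw [this]; simp
  push Not at hsc
  obtain ⟨a, ha⟩ := hsc
  -- independence criterion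
  have hind : ∀ u, u ∉ Submodule.span ℂ {a, S a} → LinearIndependent ℂ ![a, S a, u] := by
    intro u hu
    rw [Fintype.linearIndependent_iff]
    intro g hg
    rw [Fin.sum_univ_three] at hg
    simp only [Matrix.cons_val_zero, Matrix.cons_val_one, Matrix.cons_val] at hg
    have hg2 : g 2 = 0 := by
      by_contra hne
      apply hu
      rw [Submodule.mem_span_pair]
      refine ⟨-(g 0 / g 2), -(g 1 / g 2), ?_⟩
      have : g 2 • u = -(g 0 • a + g 1 • S a) := by
        rw [← sub_eq_zero, sub_neg_eq_add, ← hg]; abel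
      have h2 : u = (g 2)⁻¹ • (g 2 • u) := by rw [smul_smul, inv_mul_cancel₀ hne, one_smul]
      rw [h2, this]
      simp only [smul_neg, smul_add, smul_smul, neg_smul]
      rw [div_eq_inv_mul, div_eq_inv_mul]
      abel
    rw [hg2, zero_smul, add_zero] at hg
    have := LinearIndependent.pair_iff.mp ha _ _ hg
    intro i; fin_cases i
    · exact this.1
    · exact this.2
    · exact hg2
  have hSS : S (S a) ∈ Submodule.span ℂ {a, S a} := by
    by_contra hc
    exact h a (hind _ hc)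
  obtain ⟨β, α, hβα⟩ := Submodule.mem_span_pair.mp hSS
  by_cases hall : ∀ u, u ∈ Submodule.span ℂ {a, S a}
  · obtain ⟨w, hw⟩ := IsAlgClosed.exists_pow_nat_eq (α ^ 2 + 4 * β) (n := 2) (by norm_num)
    set ν := (α + w) / 2 with hν
    have hν2 : ν ^ 2 = α * ν + β := by
      rw [hν]; linear_combination (1/4) * hw
    apply aux_rk_j5254 S ν (S a - ν • a)
    intro x
    obtain ⟨s, t, hst⟩ := Submodule.mem_span_pair.mp (hall x)
    refine ⟨s + t * (α - ν), ?_⟩
    rw [← hst, map_add, map_smul, map_smul, ← hβα]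
    have : β = ν ^ 2 - α * ν := by rw [hν2]; ring
    rw [this]
    module
  · push Not at hall
    obtain ⟨u, hu⟩ := hall
    have hiu := hind u hu
    obtain ⟨B, hB⟩ := aux_basis_j5254 h4 hiu
    have hB0 : B 0 = a := by rw [hB]; rfl
    have hB1 : B 1 = S a := by rw [hB]; rfl
    have hB2 : B 2 = u := by rw [hB]; rfl
    have hrep : ∀ x, ∃ p q r : ℂ, x = p • a + q • S a + r • u := by
      intro x
      refine ⟨B.repr x 0, B.repr x 1, B.repr x 2, ?_⟩
      conv_lhs => rw [← B.sum_repr x]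
      rw [Fin.sum_univ_three, hB0, hB1, hB2]
    obtain ⟨x1, x2, ν, hSu⟩ := hrep (S u)
    have hli : ∀ c0 c1 c2 : ℂ, c0 • a + c1 • S a + c2 • u = 0 → c0 = 0 ∧ c1 = 0 ∧ c2 = 0 := by
      intro c0 c1 c2 hc
      have := Fintype.linearIndependent_iff.mp hiu ![c0, c1, c2] (by
        rw [Fin.sum_univ_three]; simpa using hc)
      exact ⟨this 0, this 1, this 2⟩
    have hQ : ∀ s : ℂ, (x1 - s * ν) ^ 2 + α * (x1 - s * ν) * (x2 + s) - β * (x2 + s) ^ 2 = 0 := by
      intro s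
      by_contra hne
      apply h (u + s • a)
      rw [Fintype.linearIndependent_iff]
      intro g hg
      rw [Fin.sum_univ_three] at hg
      simp only [Matrix.cons_val_zero, Matrix.cons_val_one, Matrix.cons_val] at hg
      have key : (s * g 0 + x1 * g 1 + (ν * x1 + β * (x2 + s)) * g 2) • a +
          ((x2 + s) * g 1 + (ν * x2 + x1 + α * (x2 + s)) * g 2) • S a +
          (g 0 + ν * g 1 + ν ^ 2 * g 2) • u = 0 := by
        rw [← hg]
        simp only [map_add, map_smul, hSu, ← hβα]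
        module
      obtain ⟨k0, k1, k2⟩ := hli _ _ _ key
      have m2 : ((x1 - s * ν) ^ 2 + α * (x1 - s * ν) * (x2 + s) - β * (x2 + s) ^ 2) * g 2 = 0 := by
        linear_combination (x1 - s * ν) * k1 - (x2 + s) * (k0 - s * k2)
      have m1 : ((x1 - s * ν) ^ 2 + α * (x1 - s * ν) * (x2 + s) - β * (x2 + s) ^ 2) * g 1 = 0 := by
        linear_combination (x1 - s * ν + ν * (x2 + s) + α * (x2 + s)) * (k0 - s * k2) -
          (ν * (x1 - s * ν) + β * (x2 + s)) * k1
      have g2 : g 2 = 0 := (mul_eq_zero.mp m2).resolve_left hne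
      have g1 : g 1 = 0 := (mul_eq_zero.mp m1).resolve_left hne
      have g0 : g 0 = 0 := by
        rw [g1, g2] at k2; simpa using k2
      intro i; fin_cases i
      · exact g0
      · exact g1
      · exact g2
    have q0 := hQ 0
    have q1 := hQ 1
    have q2 := hQ (-1)
    have hχ : β = ν ^ 2 - α * ν := by linear_combination (-(1/2)) * (q1 + q2 - 2 * q0)
    have r1 : (α - 2 * ν) * (x1 + ν * x2) = 0 := by
      rw [hχ] at q1 q2
      linear_combination (1/2) * (q1 - q2)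
    have r2 : (x1 + ν * x2) * (x1 + (α - ν) * x2) = 0 := by
      rw [hχ] at q0
      linear_combination q0
    have hx : x1 + ν * x2 = 0 := by
      rcases mul_eq_zero.mp r1 with h1 | h1
      · rcases mul_eq_zero.mp r2 with h2 | h2
        · exact h2
        · rw [← h2]; linear_combination (-x2) * h1
      · exact h1
    apply aux_rk_j5254 S ν (S a - ν • a)
    intro x
    obtain ⟨p, q, r, hx'⟩ := hrep x
    refine ⟨p + q * (α - ν) + r * x2, ?_⟩
    have e1 : x1 = - ν * x2 := by linear_combination hx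
    rw [hx', map_add, map_add, map_smul, map_smul, map_smul, ← hβα, hSu, hχ, e1]
    module

end


end j5254

-- part 5255
section j5255
section srbasic
variable {X : Type*} [NormedAddCommGroup X] [NormedSpace ℂ X]

theorem sr_nonneg_j5255 (T : X →L[ℂ] X) : 0 ≤ sr T := ENNReal.toReal_nonneg

variable [CompleteSpace X]

end srbasic

section basic
variable {Z : Type*} [NormedAddCommGroup Z] [NormedSpace ℂ Z]

theorem exists_one_j5255 {z : Z} (hz : z ≠ 0) : ∃ k : Z →L[ℂ] ℂ, k z = 1 :=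
  SeparatingDual.exists_eq_one hz

end basic

section JF
variable {X : Type*} [NormedAddCommGroup X] [NormedSpace ℂ X] [CompleteSpace X]

end JF

section
variable {X : Type*} [NormedAddCommGroup X] [NormedSpace ℂ X]

end

section aux
variable {X : Type*} [NormedAddCommGroup X] [NormedSpace ℂ X]

/-- a functional vanishing on three independent vectors of a space of dimension three is zero -/
theorem D3_zero_j5255 (h4 : ¬ ∃ v : Fin 4 → X, LinearIndependent ℂ v) {a b c v : X}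
    (hli : LinearIndependent ℂ ![a, b, c]) {k : X →L[ℂ] ℂ} (ha : k a = 0) (hb : k b = 0)
    (hc : k c = 0) : k v = 0 := by
  by_contra hv
  apply h4
  refine ⟨Fin.cons v ![a, b, c], ?_⟩
  rw [linearIndependent_finCons]
  refine ⟨hli, fun hmem => hv ?_⟩
  have hle : Submodule.span ℂ (Set.range ![a, b, c]) ≤ LinearMap.ker (k : X →ₗ[ℂ] ℂ) := by
    rw [Submodule.span_le]
    rintro _ ⟨i, rfl⟩
    fin_cases i
    · exact ha
    · exact hb
    · exact hc
  exact hle hmem

end aux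

theorem D3_sq_j5255 (u v : ℂ) : ‖u + v‖ ^ 2 = ‖u‖ ^ 2 + ‖v‖ ^ 2 + 2 * (v * (starRingEnd ℂ) u).re := by
  rw [← Complex.normSq_eq_norm_sq, ← Complex.normSq_eq_norm_sq, ← Complex.normSq_eq_norm_sq,
    Complex.normSq_apply, Complex.normSq_apply, Complex.normSq_apply]
  simp only [Complex.add_re, Complex.add_im, Complex.mul_re, Complex.conj_re, Complex.conj_im]
  ring

/-- a pencil containing a cyclic operator in dimension three is impossible -/
theorem D3 {X : Type*} [NormedAddCommGroup X] [NormedSpace ℂ X] [CompleteSpace X] {ε : ℂ}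
    (hε : ε = 1 ∨ ε = -1) (h4 : ¬ ∃ v : Fin 4 → X, LinearIndependent ℂ v)
    (y0 y1 : (X →L[ℂ] X) → ℂ) (Sf : ℂ → (X →L[ℂ] X)) (S1 : X →L[ℂ] X)
    (h : ∀ T w, ‖y0 T + w * y1 T‖ = JF ε T (Sf w)) (h1 : ∀ T, ‖y1 T‖ = JF ε T S1)
    (hq : ε = 1 → (∀ w, sr (Sf w) = 0) ∧ sr S1 = 0) (hr : ∃ T, y0 T = 0 ∧ y1 T ≠ 0)
    (e : X) (he : LinearIndependent ℂ ![e, Sf 0 e, Sf 0 (Sf 0 e)]) : False := by
  set S0 := Sf 0 with hS0
  have hnt : Nontrivial X := ⟨e, 0, he.ne_zero 0⟩
  have h0 : ∀ T, ‖y0 T‖ = JF ε T S0 := fun T => by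
    rw [hS0, ← h T 0, zero_mul, add_zero]
  have hfl : ∀ (a : X) (k : X →L[ℂ] ℂ) (S : X →L[ℂ] X), k a = 0 → JF ε (rk a k) S = ‖k (S a)‖ :=
    fun a k S hk => by rw [JF_symm hε, JF_flag hε S hk]
  -- (i)
  have hpen : ∀ w : ℂ, ∃ b s : ℂ, ‖b‖ = ‖w‖ ∧ (∃ d : ℂ, Sf w = b • S1 + s • S0 + d • 1) ∧
      ∀ T, JF ε T (Sf w) = JF ε T (b • S1 + s • S0) := by
    intro w
    obtain ⟨θ, s, d, hθ, hSw⟩ := pencil3 h4 S0 S1 (Sf w) e he ‖w‖ (by
      intro a k hka hk0
      have e0 : y0 (rk a k) = 0 := by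
        have := h0 (rk a k)
        rw [hfl a k S0 hka, hk0, norm_zero] at this
        exact norm_eq_zero.mp this
      have e1 := h (rk a k) w
      rw [e0, zero_add, norm_mul, h1, hfl a k _ hka, hfl a k _ hka] at e1
      exact e1.symm)
    refine ⟨θ * ‖w‖, s, ?_, ⟨d, hSw⟩, ?_⟩
    · rw [norm_mul, hθ, one_mul, Complex.norm_real, norm_norm]
    · intro T
      rcases hε with rfl | rfl
      · obtain ⟨q1, q2⟩ := hq rfl
        have hd := trace3 h4 S0 S1 (Sf w) (q1 0) q2 (q1 w) _ s d hSw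
        rw [hSw, hd, zero_smul, add_zero]
      · rw [hSw, JF_neg_add_right]
  -- (ii)
  have hS1 : ¬ ∃ s d : ℂ, S1 = s • S0 + d • 1 := by
    rintro ⟨s, d, hsd⟩
    obtain ⟨T, hT0, hT1⟩ := hr
    apply hT1
    have e1 : JF ε T S1 = JF ε T (s • S0) := by
      rcases hε with rfl | rfl
      · obtain ⟨q1, q2⟩ := hq rfl
        have hd := trace3 h4 S0 S0 S1 (q1 0) (q1 0) q2 0 s d (by rw [hsd, zero_smul, zero_add])
        rw [hsd, hd, zero_smul, add_zero]
      · rw [hsd, JF_neg_add_right]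
    have e2 := h1 T
    rw [e1, JF_smul_right, ← h0, hT0, norm_zero, mul_zero] at e2
    exact norm_eq_zero.mp e2
  -- (iii)
  obtain ⟨a, ha1, ha2⟩ := generic3 h4 S0 S1 e he hS1
  -- (iv)
  choose b s hb hd hJ using hpen
  have hval : ∀ (k : X →L[ℂ] ℂ) (w : ℂ), k a = 0 →
      ‖y0 (rk a k) + w * y1 (rk a k)‖ = ‖s w * k (S0 a) + b w * k (S1 a)‖ := by
    intro k w hk
    rw [h, hfl a k _ hk]
    obtain ⟨d, hd⟩ := hd w
    rw [hd]
    simp only [ContinuousLinearMap.add_apply, ContinuousLinearMap.smul_apply,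
      ContinuousLinearMap.one_apply, map_add, map_smul, smul_eq_mul, hk, mul_zero, add_zero]
    rw [add_comm]
  have hk : ∀ p q : ℂ, ∃ u v : ℂ, ‖u‖ = ‖p‖ ∧ ‖v‖ = ‖q‖ ∧
      ∀ w, ‖u + w * v‖ = ‖s w * p + b w * q‖ := by
    intro p q
    obtain ⟨k, g1, g2, g3⟩ := dual3 ha1 0 p q
    refine ⟨y0 (rk a k), y1 (rk a k), ?_, ?_, fun w => ?_⟩
    · rw [h0, hfl a k _ g1, g2]
    · rw [h1, hfl a k _ g1, g3]
    · rw [hval k w g1, g2, g3]
  have hs : ∀ w, ‖s w‖ = 1 := by
    intro w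
    obtain ⟨u, v, g1, g2, g3⟩ := hk 1 0
    have := g3 w
    rw [norm_zero, norm_eq_zero] at g2
    rw [g2, mul_zero, mul_zero, add_zero, add_zero, mul_one, g1, norm_one] at this
    exact this.symm
  obtain ⟨u, v, hu, hv, huv⟩ := hk 1 1
  obtain ⟨u', v', hu', hv', huv'⟩ := hk 1 Complex.I
  rw [norm_one] at hu hv hu'
  rw [Complex.norm_I] at hv'
  have hRe : ∀ w, (b w * (starRingEnd ℂ) (s w)).re = (w * (v * (starRingEnd ℂ) u)).re := by
    intro w
    have e1 := congrArg (fun r : ℝ => r ^ 2) (huv w)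
    simp only [mul_one] at e1
    rw [D3_sq_j5255, D3_sq_j5255, norm_mul, hu, hv, hs, hb, mul_one, mul_assoc] at e1
    linarith
  have hIm : ∀ w, (Complex.I * (b w * (starRingEnd ℂ) (s w))).re =
      (w * (v' * (starRingEnd ℂ) u')).re := by
    intro w
    have e1 := congrArg (fun r : ℝ => r ^ 2) (huv' w)
    simp only [mul_one] at e1
    rw [D3_sq_j5255, D3_sq_j5255, norm_mul, norm_mul, hu', hv', hs, hb, Complex.norm_I, mul_one, mul_assoc,
      mul_comm (b w) Complex.I, mul_assoc] at e1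
    linarith
  have htau := tau_form 0 (fun w => b w * (starRingEnd ℂ) (s w)) (v * (starRingEnd ℂ) u)
    (v' * (starRingEnd ℂ) u') (fun w _ => hRe w) (fun w _ => hIm w) (r := 1) one_pos
    (fun w _ => by
      simp only [norm_mul, RCLike.norm_conj, hb, hs])
  set p1 := v * (starRingEnd ℂ) u with hp1
  have hp1n : ‖p1‖ = 1 := by
    rw [hp1, norm_mul, RCLike.norm_conj, hu, hv, mul_one]
  have hp1c : p1 * (starRingEnd ℂ) p1 = 1 := by
    rw [Complex.mul_conj, Complex.normSq_eq_norm_sq, hp1n]; simp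
  have hsc : ∀ w, s w * (starRingEnd ℂ) (s w) = 1 := fun w => by
    rw [Complex.mul_conj, Complex.normSq_eq_norm_sq, hs]; simp
  have hJ' : ∀ T w, JF ε T (Sf w) = JF ε T (S0 + (b w * (starRingEnd ℂ) (s w)) • S1) := by
    intro T w
    rw [hJ, show b w • S1 + s w • S0 = s w • (S0 + (b w * (starRingEnd ℂ) (s w)) • S1) by
      rw [smul_add, smul_smul, show s w * (b w * (starRingEnd ℂ) (s w)) =
        b w * (s w * (starRingEnd ℂ) (s w)) by ring, hsc, mul_one, add_comm], JF_smul_right, hs,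
      one_mul]
  have hτ0 : b 0 = 0 := by
    have := hb 0
    rwa [norm_zero, norm_eq_zero] at this
  have hab : ∀ T, ∃ α β : ℂ, ∀ z : ℂ, JF ε T (S0 + z • S1) = ‖α + β * z‖ := by
    intro T
    rcases htau with ht | ht
    · refine ⟨y0 T, (starRingEnd ℂ) p1 * y1 T, fun z => ?_⟩
      have hz : b (z * (starRingEnd ℂ) p1) * (starRingEnd ℂ) (s (z * (starRingEnd ℂ) p1)) = z := by
        by_cases h00 : z = 0
        · rw [h00, zero_mul, hτ0, zero_mul]
        · have hne : z * (starRingEnd ℂ) p1 ≠ 0 := by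
            refine mul_ne_zero h00 fun hcon => ?_
            rw [hcon, mul_zero] at hp1c
            exact zero_ne_one hp1c
          have := ht _ hne
          rw [this, mul_assoc, mul_comm ((starRingEnd ℂ) p1), hp1c, mul_one]
      have e1 := hJ' T (z * (starRingEnd ℂ) p1)
      rw [hz, ← h] at e1
      rw [← e1]
      congr 1; ring
    · refine ⟨(starRingEnd ℂ) (y0 T), p1 * (starRingEnd ℂ) (y1 T), fun z => ?_⟩
      have hz : b ((starRingEnd ℂ) z * (starRingEnd ℂ) p1) *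
          (starRingEnd ℂ) (s ((starRingEnd ℂ) z * (starRingEnd ℂ) p1)) = z := by
        by_cases h00 : z = 0
        · rw [h00, map_zero, zero_mul, hτ0, zero_mul]
        · have hne : (starRingEnd ℂ) z * (starRingEnd ℂ) p1 ≠ 0 := by
            refine mul_ne_zero (fun hcon => h00 ?_) fun hcon => ?_
            · rwa [map_eq_zero] at hcon
            · rw [hcon, mul_zero] at hp1c
              exact zero_ne_one hp1c
          have := ht _ hne
          rw [this, mul_assoc, mul_comm ((starRingEnd ℂ) p1), hp1c, mul_one, Complex.conj_conj]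
      have e1 := hJ' T ((starRingEnd ℂ) z * (starRingEnd ℂ) p1)
      rw [hz, ← h] at e1
      rw [← e1, ← RCLike.norm_conj]
      congr 1
      simp only [map_add, map_mul, Complex.conj_conj]
      ring
  rcases hε with rfl | rfl
  · -- `ε = 1`
    obtain ⟨k1, g1, g2, g3⟩ := dual3 ha2 1 0 1
    obtain ⟨k2, g4, g5, g6⟩ := dual3 ha1 0 0 1
    obtain ⟨t, ht1, ht2⟩ : ∃ t : ℂ, 1 + t * k2 (S0 (S0 a)) ≠ 0 ∧ k1 (S1 a) + t ≠ 0 := by
      by_cases hA : k1 (S1 a) = 0
      · by_cases hB : 1 + k2 (S0 (S0 a)) = 0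
        · refine ⟨2, ?_, by rw [hA]; norm_num⟩
          intro hcon
          have : k2 (S0 (S0 a)) = -1 := by linear_combination hB
          rw [this] at hcon
          norm_num at hcon
        · exact ⟨1, by rwa [one_mul], by rw [hA]; norm_num⟩
      · exact ⟨0, by simp, by rwa [add_zero]⟩
    set k := k1 + t • k2 with hkdef
    have f1 : k a = 1 := by
      simp only [hkdef, ContinuousLinearMap.add_apply, ContinuousLinearMap.smul_apply, g1, g4,
        smul_eq_mul, mul_zero, add_zero]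
    have f2 : k (S0 a) = 0 := by
      simp only [hkdef, ContinuousLinearMap.add_apply, ContinuousLinearMap.smul_apply, g2, g5,
        smul_eq_mul, mul_zero, add_zero]
    have f3 : k (S0 (S0 a)) ≠ 0 := by
      simp only [hkdef, ContinuousLinearMap.add_apply, ContinuousLinearMap.smul_apply, g3,
        smul_eq_mul]
      exact ht1
    have f4 : k (S1 a) ≠ 0 := by
      simp only [hkdef, ContinuousLinearMap.add_apply, ContinuousLinearMap.smul_apply, g6,
        smul_eq_mul, mul_one]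
      exact ht2
    clear_value k
    obtain ⟨α, β, hαβ⟩ := hab (rk a k)
    have hR : ∀ z : ℂ, R2 ((1 + 1) * k ((S0 + z • S1) a)) (1 * (k ((S0 + z • S1) a) ^ 2 -
        k a * k ((S0 + z • S1) ((S0 + z • S1) a)))) = ‖α + β * z‖ := by
      intro z
      rw [← hαβ, JF_symm (Or.inl rfl), JF_rk]
    have hα : α ≠ 0 := by
      intro hα
      have := hR 0
      rw [hα, zero_add, mul_zero, norm_zero, R2_eq_zero_iff] at this
      obtain ⟨-, h2⟩ := this
      rw [zero_smul, add_zero, f2, f1] at h2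
      apply f3
      linear_combination -h2
    have hle : ∀ z : ℂ, ‖z‖ * ‖k (S1 a)‖ ≤ ‖α + β * z‖ := by
      intro z
      have := norm_t_le ((1 + 1) * k ((S0 + z • S1) a)) (1 * (k ((S0 + z • S1) a) ^ 2 -
        k a * k ((S0 + z • S1) ((S0 + z • S1) a))))
      rw [hR, ContinuousLinearMap.add_apply, ContinuousLinearMap.smul_apply, map_add, map_smul, f2,
        zero_add, smul_eq_mul, norm_mul, norm_mul] at this
      have h2 : ‖(1 + 1 : ℂ)‖ = 2 := by norm_num
      rw [h2] at this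
      linarith
    have hf4 : 0 < ‖k (S1 a)‖ := norm_pos_iff.mpr f4
    by_cases hβ : β = 0
    · have := hle (((‖α‖ + 1) / ‖k (S1 a)‖ : ℝ) : ℂ)
      rw [hβ, zero_mul, add_zero, Complex.norm_real, Real.norm_of_nonneg (by positivity),
        div_mul_cancel₀ _ hf4.ne'] at this
      linarith
    · have := hle (-α / β)
      rw [mul_div_cancel₀ _ hβ, add_neg_cancel, norm_zero] at this
      have h2 : 0 < ‖-α / β‖ := norm_pos_iff.mpr (div_ne_zero (neg_ne_zero.mpr hα) hβ)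
      have := mul_pos h2 hf4
      linarith
  · -- `ε = -1`
    have hdisc : ∀ k : X →L[ℂ] ℂ,
        (2 * k (S0 a) * k (S1 a) - k a * (k (S0 (S1 a)) + k (S1 (S0 a)))) ^ 2 =
        4 * (k (S0 a) ^ 2 - k a * k (S0 (S0 a))) * (k (S1 a) ^ 2 - k a * k (S1 (S1 a))) := by
      intro k
      obtain ⟨α, β, hαβ⟩ := hab (rk a k)
      have hR : ∀ z : ℂ, ‖(k (S0 a) ^ 2 - k a * k (S0 (S0 a))) +
          (2 * k (S0 a) * k (S1 a) - k a * (k (S0 (S1 a)) + k (S1 (S0 a)))) * z +
          (k (S1 a) ^ 2 - k a * k (S1 (S1 a))) * z ^ 2‖ =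
          1 * ‖α ^ 2 + (2 * α * β) * z + β ^ 2 * z ^ 2‖ := by
        intro z
        have e1 := JF_neg_rk_sq (S0 + z • S1) a k
        rw [← JF_symm (Or.inr rfl), hαβ, ← norm_pow] at e1
        rw [one_mul, show α ^ 2 + (2 * α * β) * z + β ^ 2 * z ^ 2 = (α + β * z) ^ 2 by ring, e1]
        congr 1
        simp only [ContinuousLinearMap.add_apply, ContinuousLinearMap.smul_apply, map_add,
          map_smul, smul_eq_mul]
        ring
      obtain ⟨θ, -, q0, q1, q2⟩ := poly_mod 1 _ _ _ _ _ _ hR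
      rw [q0, q1, q2]
      push_cast
      ring
    obtain ⟨k0, g1, g2, g3⟩ := dual3 ha2 0 0 1
    obtain ⟨k1, g4, g5, -⟩ := dual3 ha2 1 0 0
    have g6 : k0 (S1 a) ≠ 0 := by
      intro hcon
      have := D3_zero_j5255 (v := S0 (S0 a)) h4 ha1 g1 g2 hcon
      rw [g3] at this
      exact one_ne_zero this
    have hf : ∀ t : ℂ, t ≠ 0 →
        t * ((k0 + t • k1) (S0 (S1 a)) + (k0 + t • k1) (S1 (S0 a))) ^ 2 +
        4 * (k0 + t • k1) (S0 (S0 a)) * ((k0 + t • k1) (S1 a) ^ 2 -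
          t * (k0 + t • k1) (S1 (S1 a))) = 0 := by
      intro t ht
      have e1 := hdisc (k0 + t • k1)
      have e2 : (k0 + t • k1) a = t := by
        rw [ContinuousLinearMap.add_apply, ContinuousLinearMap.smul_apply, g1, g4, smul_eq_mul,
          mul_one, zero_add]
      have e3 : (k0 + t • k1) (S0 a) = 0 := by
        rw [ContinuousLinearMap.add_apply, ContinuousLinearMap.smul_apply, g2, g5, smul_eq_mul,
          mul_zero, zero_add]
      rw [e2, e3] at e1
      apply mul_left_cancel₀ ht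
      linear_combination e1
    have hcont : Continuous fun t : ℂ =>
        t * ((k0 + t • k1) (S0 (S1 a)) + (k0 + t • k1) (S1 (S0 a))) ^ 2 +
        4 * (k0 + t • k1) (S0 (S0 a)) * ((k0 + t • k1) (S1 a) ^ 2 -
          t * (k0 + t • k1) (S1 (S1 a))) := by
      simp only [ContinuousLinearMap.add_apply, ContinuousLinearMap.smul_apply, smul_eq_mul]
      fun_prop
    have heq := Continuous.ext_on (dense_compl_singleton (0 : ℂ)) hcont continuous_const
      (fun t ht => hf t ht)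
    have := congrFun heq 0
    have hk00 : k0 + (0 : ℂ) • k1 = k0 := by
      ext v
      rw [ContinuousLinearMap.add_apply, ContinuousLinearMap.smul_apply, smul_eq_mul, zero_mul,
        add_zero]
    simp only [hk00, g3] at this
    apply g6
    have h2 : k0 (S1 a) ^ 2 = 0 := by
      linear_combination (1 / 4 : ℂ) * this
    exact pow_eq_zero_iff (two_ne_zero) |>.mp h2


end j5255

-- part 5334
section j5334
section srbasic
variable {X : Type*} [NormedAddCommGroup X] [NormedSpace ℂ X]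

theorem sr_nonneg_j5334 (T : X →L[ℂ] X) : 0 ≤ sr T := ENNReal.toReal_nonneg

variable [CompleteSpace X]

end srbasic

section basic
variable {Z : Type*} [NormedAddCommGroup Z] [NormedSpace ℂ Z]

theorem exists_one_j5334 {z : Z} (hz : z ≠ 0) : ∃ k : Z →L[ℂ] ℂ, k z = 1 :=
  SeparatingDual.exists_eq_one hz

end basic

section JF
variable {X : Type*} [NormedAddCommGroup X] [NormedSpace ℂ X] [CompleteSpace X]

end JF

/-- a kink cannot be cancelled -/
theorem kink (p1 p2 p3 : ℝ → ℂ) (D E : ℂ) (h1 : DifferentiableAt ℝ p1 0)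
    (h2 : DifferentiableAt ℝ p2 0) (h3 : DifferentiableAt ℝ p3 0) (n1 : p1 0 ≠ 0) (n2 : p2 0 ≠ 0)
    (n3 : p3 0 ≠ 0)
    (h : ∀ t : ℝ, ‖p1 t‖ + ‖p2 t‖ = 2 * ‖D * t + E * t ^ 2‖ + 2 * ‖p3 t‖) : D = 0 := by
  have d1 : DifferentiableAt ℝ (fun t => ‖p1 t‖) 0 := h1.norm ℝ n1
  have d2 : DifferentiableAt ℝ (fun t => ‖p2 t‖) 0 := h2.norm ℝ n2
  have d3 : DifferentiableAt ℝ (fun t => ‖p3 t‖) 0 := h3.norm ℝ n3
  have hg : (fun t : ℝ => ‖D * t + E * t ^ 2‖) =
      fun t : ℝ => (‖p1 t‖ + ‖p2 t‖) * (1 / 2) - ‖p3 t‖ := by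
    funext t
    have := h t
    linarith
  have dg : DifferentiableAt ℝ (fun t : ℝ => ‖D * t + E * t ^ 2‖) 0 := by
    rw [hg]
    exact ((d1.add d2).mul_const _).sub d3
  have hmin : IsLocalMin (fun t : ℝ => ‖D * t + E * t ^ 2‖) 0 := by
    apply Filter.Eventually.of_forall
    intro t
    simp
  have hd0 : HasDerivAt (fun t : ℝ => ‖D * t + E * t ^ 2‖) 0 0 := by
    have h4 := dg.hasDerivAt
    rwa [hmin.deriv_eq_zero] at h4
  rw [hasDerivAt_iff_tendsto_slope] at hd0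
  have h5 := hd0.norm
  rw [norm_zero] at h5
  have h6 : Tendsto (fun t : ℝ => ‖D + E * t‖) (𝓝[≠] 0) (𝓝 0) := by
    refine h5.congr' ?_
    filter_upwards [self_mem_nhdsWithin] with t ht
    have ht0 : t ≠ 0 := ht
    have ht1 : |t| ≠ 0 := abs_ne_zero.2 ht0
    rw [slope_def_field]
    simp only [Complex.ofReal_zero, mul_zero, ne_eq, OfNat.ofNat_ne_zero, not_false_eq_true,
      zero_pow, add_zero, norm_zero, sub_zero]
    rw [norm_div, norm_norm, Real.norm_eq_abs, div_eq_iff ht1]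
    have h7 : D * t + E * t ^ 2 = (D + E * t) * (t : ℂ) := by ring
    rw [h7, norm_mul, Complex.norm_real, Real.norm_eq_abs]
  have h8 : Tendsto (fun t : ℝ => ‖D + E * t‖) (𝓝[≠] 0) (𝓝 ‖D‖) := by
    have hc : Continuous (fun t : ℝ => ‖D + E * t‖) := by fun_prop
    have := (hc.tendsto 0).mono_left (nhdsWithin_le_nhds (s := {0}ᶜ))
    simpa using this
  have h9 := tendsto_nhds_unique h8 h6
  exact norm_eq_zero.1 h9

/-- the quadratic form -/
noncomputable def qq_j5334 {X : Type*} [NormedAddCommGroup X] [NormedSpace ℂ X] (x : X)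
    (f : X →L[ℂ] ℂ) (T : X →L[ℂ] X) : ℂ := f (T x) ^ 2 - f x * f (T (T x))

theorem qq_line_j5334 {X : Type*} [NormedAddCommGroup X] [NormedSpace ℂ X] (x : X)
    (f : X →L[ℂ] ℂ) (T K : X →L[ℂ] X) (s : ℂ) :
    qq_j5334 x f (T + s • K) = qq_j5334 x f T + (2 * f (T x) * f (K x) - f x * f (T (K x)) -
      f x * f (K (T x))) * s + (f (K x) ^ 2 - f x * f (K (K x))) * s ^ 2 := by
  unfold qq_j5334
  simp only [add_apply, smul_apply, map_add, map_smul,
    smul_eq_mul]
  ring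

theorem qq_diff_j5334 {X : Type*} [NormedAddCommGroup X] [NormedSpace ℂ X] (x : X)
    (f : X →L[ℂ] ℂ) (T K : X →L[ℂ] X) :
    DifferentiableAt ℝ (fun t : ℝ => qq_j5334 x f (T + (t : ℂ) • K)) 0 := by
  simp only [qq_line_j5334]
  have h : DifferentiableAt ℝ (fun t : ℝ => (t : ℂ)) 0 := Complex.ofRealCLM.differentiableAt
  fun_prop

theorem qq_cont_j5334 {X : Type*} [NormedAddCommGroup X] [NormedSpace ℂ X] (x : X)
    (f : X →L[ℂ] ℂ) (T K : X →L[ℂ] X) :
    Continuous (fun t : ℂ => qq_j5334 x f (T + t • K)) := by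
  simp only [qq_line_j5334]
  fun_prop

theorem parallelogram_j5334 (a b : ℂ) : ‖a + b‖ ^ 2 + ‖a - b‖ ^ 2 = 2 * ‖a‖ ^ 2 + 2 * ‖b‖ ^ 2 := by
  have := parallelogram_law_with_norm ℝ a b
  nlinarith [this]

theorem no_idem {X : Type*} [NormedAddCommGroup X] [NormedSpace ℂ X] [CompleteSpace X]
    (hd : ∃ v : Fin 2 → X, LinearIndependent ℂ v)
    (y0 y1 : (X →L[ℂ] X) → ℂ) (x0 x1 x2 x3 : X) (f0 f1 f2 f3 : X →L[ℂ] ℂ)
    (h0 : ∀ T, ‖y0 T‖ = JF (-1) T (rk x0 f0)) (h1 : ∀ T, ‖y1 T‖ = JF (-1) T (rk x1 f1))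
    (h2 : ∀ T, ‖y0 T + y1 T‖ = JF (-1) T (rk x2 f2))
    (h3 : ∀ T, ‖y0 T - y1 T‖ = JF (-1) T (rk x3 f3))
    (hr : ∃ T, y0 T = 0 ∧ y1 T ≠ 0) : f0 x0 = 0 := by
  by_contra hc0
  have e0 : ∀ T, ‖y0 T‖ ^ 2 = ‖qq_j5334 x0 f0 T‖ := by
    intro T; rw [h0 T, JF_neg_rk_sq]; rfl
  have e1 : ∀ T, ‖y1 T‖ ^ 2 = ‖qq_j5334 x1 f1 T‖ := by
    intro T; rw [h1 T, JF_neg_rk_sq]; rfl
  have e2 : ∀ T, ‖y0 T + y1 T‖ ^ 2 = ‖qq_j5334 x2 f2 T‖ := by
    intro T; rw [h2 T, JF_neg_rk_sq]; rfl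
  have e3 : ∀ T, ‖y0 T - y1 T‖ ^ 2 = ‖qq_j5334 x3 f3 T‖ := by
    intro T; rw [h3 T, JF_neg_rk_sq]; rfl
  have hpar : ∀ T, ‖qq_j5334 x2 f2 T‖ + ‖qq_j5334 x3 f3 T‖ = 2 * ‖qq_j5334 x0 f0 T‖ + 2 * ‖qq_j5334 x1 f1 T‖ := by
    intro T
    rw [← e0, ← e1, ← e2, ← e3]
    exact parallelogram_j5334 _ _
  have hx0 : x0 ≠ 0 := by rintro rfl; exact hc0 (map_zero f0)
  have hf0 : f0 ≠ 0 := by rintro rfl; exact hc0 rfl
  -- step 1
  have step1 : ∃ T, qq_j5334 x0 f0 T = 0 ∧ qq_j5334 x1 f1 T ≠ 0 ∧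
      (LinearIndependent ℂ ![x0, T x0] ∨ LinearIndependent ℂ ![f0, f0 ∘L T]) := by
    obtain ⟨T0, hT0, hT1⟩ := hr
    have hq0 : qq_j5334 x0 f0 T0 = 0 := by
      have := e0 T0
      rw [hT0, norm_zero] at this
      rw [← norm_eq_zero, ← this]
      norm_num
    have hq1 : qq_j5334 x1 f1 T0 ≠ 0 := by
      have := e1 T0
      rw [← norm_ne_zero_iff, ← this]
      have := norm_ne_zero_iff.2 hT1
      positivity
    by_cases hA : LinearIndependent ℂ ![x0, T0 x0]
    · exact ⟨T0, hq0, hq1, Or.inl hA⟩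
    by_cases hB : LinearIndependent ℂ ![f0, f0 ∘L T0]
    · exact ⟨T0, hq0, hq1, Or.inr hB⟩
    obtain ⟨lam, hlam⟩ := dep_smul hx0 hA
    obtain ⟨mu, hmu⟩ := dep_smul hf0 hB
    -- a vector independent of x0
    obtain ⟨x', hx'⟩ : ∃ x' : X, LinearIndependent ℂ ![x0, x'] := by
      by_contra hcon
      push Not at hcon
      obtain ⟨v, hv⟩ := hd
      obtain ⟨c, hc⟩ := dep_smul hx0 (hcon (v 0))
      obtain ⟨c', hc'⟩ := dep_smul hx0 (hcon (v 1))
      have hv0 : v 0 ≠ 0 := hv.ne_zero 0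
      have hv1 : v 1 ≠ 0 := hv.ne_zero 1
      have hc1 : c ≠ 0 := by rintro rfl; rw [zero_smul] at hc; exact hv0 hc
      have hrel : c' • v 0 + (-c) • v 1 = 0 := by
        rw [hc, hc', smul_smul, smul_smul, ← add_smul]
        have : c' * c + -c * c' = 0 := by ring
        rw [this, zero_smul]
      have hve : v = ![v 0, v 1] := by
        funext i
        fin_cases i <;> rfl
      rw [hve, LinearIndependent.pair_iff] at hv
      have := (hv c' (-c) hrel).2
      exact hc1 (neg_eq_zero.1 this)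
    obtain ⟨k, hk0, hk1⟩ := dual_vec hx'
    have hcont := qq_cont_j5334 x1 f1 T0 (rk x0 k)
    have hev : ∀ᶠ δ : ℂ in 𝓝 0, qq_j5334 x1 f1 (T0 + δ • rk x0 k) ≠ 0 := by
      apply hcont.continuousAt.eventually_ne
      simpa using hq1
    have hev2 : ∀ᶠ δ : ℂ in 𝓝[≠] 0, qq_j5334 x1 f1 (T0 + δ • rk x0 k) ≠ 0 :=
      hev.filter_mono nhdsWithin_le_nhds
    obtain ⟨δ, hδ1, hδ0⟩ := (hev2.and self_mem_nhdsWithin).exists
    have hδ0' : δ ≠ 0 := hδ0
    have hTx : (T0 + δ • rk x0 k) x0 = lam • x0 := by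
      simp [hk0, hlam]
    refine ⟨T0 + δ • rk x0 k, ?_, hδ1, Or.inr ?_⟩
    · unfold qq_j5334
      rw [hTx, map_smul, map_smul, hTx, map_smul, map_smul]
      simp only [smul_eq_mul]
      ring
    · by_contra hdep
      obtain ⟨nu, hnu⟩ := dep_smul hf0 hdep
      have a1 := congrArg (fun g : X →L[ℂ] ℂ => g x0) hnu
      have a2 := congrArg (fun g : X →L[ℂ] ℂ => g x') hnu
      have a3 := congrArg (fun g : X →L[ℂ] ℂ => g x0) hmu
      have a4 := congrArg (fun g : X →L[ℂ] ℂ => g x') hmu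
      simp only [ContinuousLinearMap.comp_apply, add_apply,
        smul_apply, ContinuousLinearMap.smulRight_apply, map_add, map_smul,
        smul_eq_mul, hk0, hk1] at a1 a2 a3 a4
      have a5 : nu = mu := by
        apply mul_right_cancel₀ hc0
        rw [← a1, ← a3]
        ring
      rw [a4, a5] at a2
      have a6 : δ * f0 x0 = 0 := by linear_combination a2
      rcases mul_eq_zero.1 a6 with h | h
      · exact hδ0' h
      · exact hc0 h
  obtain ⟨T, hT0, hT1, hTc⟩ := step1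
  have hy0 : y0 T = 0 := by
    have := e0 T
    rw [hT0, norm_zero] at this
    exact norm_eq_zero.1 (by simpa using this)
  have hy1 : y1 T ≠ 0 := by
    intro h
    have := e1 T
    rw [h, norm_zero] at this
    apply hT1
    rw [← norm_eq_zero, ← this]
    norm_num
  have hq2 : qq_j5334 x2 f2 T ≠ 0 := by
    have := e2 T
    rw [hy0, zero_add] at this
    rw [← norm_ne_zero_iff, ← this]
    have := norm_ne_zero_iff.2 hy1
    positivity
  have hq3 : qq_j5334 x3 f3 T ≠ 0 := by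
    have := e3 T
    rw [hy0, zero_sub, norm_neg] at this
    rw [← norm_ne_zero_iff, ← this]
    have := norm_ne_zero_iff.2 hy1
    positivity
  have hK : ∃ K : X →L[ℂ] X, 2 * f0 (T x0) * f0 (K x0) - f0 x0 * f0 (T (K x0)) -
      f0 x0 * f0 (K (T x0)) ≠ 0 := by
    rcases hTc with hA | hB
    · obtain ⟨k, hk0, hk1⟩ := dual_vec hA
      refine ⟨rk x0 k, ?_⟩
      simp only [ContinuousLinearMap.smulRight_apply, hk0, hk1, zero_smul, one_smul, map_zero,
        mul_zero, sub_zero, zero_sub]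
      exact neg_ne_zero.2 (mul_ne_zero hc0 hc0)
    · obtain ⟨b, hb0, hb1⟩ := dual_fun hB
      obtain ⟨k, hk⟩ := exists_one_j5334 hx0
      refine ⟨rk b k, ?_⟩
      rw [ContinuousLinearMap.comp_apply] at hb1
      simp only [ContinuousLinearMap.smulRight_apply, hk, one_smul, hb0, hb1, map_smul,
        smul_eq_mul, mul_zero, mul_one, sub_zero, zero_sub]
      exact neg_ne_zero.2 hc0
  obtain ⟨K, hK⟩ := hK
  apply hK
  refine kink (fun t : ℝ => qq_j5334 x2 f2 (T + (t : ℂ) • K)) (fun t : ℝ => qq_j5334 x3 f3 (T + (t : ℂ) • K))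
    (fun t : ℝ => qq_j5334 x1 f1 (T + (t : ℂ) • K)) _ (f0 (K x0) ^ 2 - f0 x0 * f0 (K (K x0)))
    (qq_diff_j5334 _ _ _ _) (qq_diff_j5334 _ _ _ _) (qq_diff_j5334 _ _ _ _) ?_ ?_ ?_ ?_
  · simpa using hq2
  · simpa using hq3
  · simpa using hT1
  · intro t
    have h4 := hpar (T + (t : ℂ) • K)
    rw [qq_line_j5334 x0 f0, hT0, zero_add] at h4
    exact h4


end j5334

end Pool.Agent.Helper729.SRP
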