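import Pool.Agent.Helper729.SRP.P2

/-!
# Preservers of the spectral radius of products of operators, part 3
-/

set_option autoImplicit false
open Filter Topology Complex Set Metric
open scoped InnerProductSpace

namespace Pool.Agent.Helper729.SRP


-- part 5335
section j5335
section srbasic
variable {X : Type*} [NormedAddCommGroup X] [NormedSpace ℂ X]

theorem sr_nonneg_j5335 (T : X →L[ℂ] X) : 0 ≤ sr T := ENNReal.toReal_nonneg

variable [CompleteSpace X]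

end srbasic

section basic
variable {Z : Type*} [NormedAddCommGroup Z] [NormedSpace ℂ Z]

theorem exists_one_j5335 {z : Z} (hz : z ≠ 0) : ∃ k : Z →L[ℂ] ℂ, k z = 1 :=
  SeparatingDual.exists_eq_one hz

end basic

section JF
variable {X : Type*} [NormedAddCommGroup X] [NormedSpace ℂ X] [CompleteSpace X]

end JF

section
variable {X Y : Type*} [NormedAddCommGroup X] [NormedSpace ℂ X]
  [NormedAddCommGroup Y] [NormedSpace ℂ Y]

theorem J35_eig_j5335 [CompleteSpace X] {T : X →L[ℂ] X} {ν : ℂ} {v : X} (hv : v ≠ 0) (h : T v = ν • v) :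
    ν ∈ spectrum ℂ T := by
  rw [spectrum.mem_iff]
  rintro ⟨w, hw⟩
  apply hv
  have h1 : ((w⁻¹ : (X →L[ℂ] X)ˣ) : X →L[ℂ] X) * (w : X →L[ℂ] X) = 1 := w.inv_mul
  have h2 := congrArg (fun A : X →L[ℂ] X => A v) h1
  have h3 : (w : X →L[ℂ] X) v = 0 := by
    rw [hw]
    show (algebraMap ℂ (X →L[ℂ] X) ν) v - T v = 0
    rw [h, Algebra.algebraMap_eq_smul_one]
    show ν • v - ν • v = 0
    exact sub_self _
  have h4 : ((w⁻¹ : (X →L[ℂ] X)ˣ) : X →L[ℂ] X) ((w : X →L[ℂ] X) v) = v := h2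
  rw [h3, map_zero] at h4
  exact h4.symm

theorem J35_ker_j5335 (hX : ∃ v : Fin 3 → X, LinearIndependent ℂ v) (f : X →L[ℂ] ℂ) :
    ∃ v : X, v ≠ 0 ∧ f v = 0 := by
  obtain ⟨v, hv⟩ := hX
  by_cases h0 : f (v 0) = 0
  · exact ⟨v 0, hv.ne_zero 0, h0⟩
  · refine ⟨f (v 1) • v 0 - f (v 0) • v 1, ?_, ?_⟩
    · intro h
      have h1 := linearIndependent_iff'.1 hv {0, 1} (fun i => if i = 0 then f (v 1) else - f (v 0)) (by
        rw [Finset.sum_pair (by decide)]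
        simp only [if_true, one_ne_zero, if_false, neg_smul]
        rw [← sub_eq_add_neg]; exact h) 1 (by simp)
      simp only [one_ne_zero, if_false, neg_eq_zero] at h1
      exact h0 h1
    · rw [map_sub, map_smul, map_smul, smul_eq_mul, smul_eq_mul]; ring

theorem J35_g1_j5335 (hY : ∃ v : Fin 3 → Y, LinearIndependent ℂ v) {u : Y} {g : Y →L[ℂ] ℂ}
    (hug : Flag u g) : ∃ g1 : Y →L[ℂ] ℂ, g1 u = 0 ∧ LinearIndependent ℂ ![g, g1] := by
  obtain ⟨hu, hg, hgu⟩ := hug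
  obtain ⟨v, hv⟩ : ∃ v, g v ≠ 0 := by
    by_contra hcon
    push Not at hcon
    exact hg (ContinuousLinearMap.ext hcon)
  have huv : LinearIndependent ℂ ![u, v] := by
    rw [LinearIndependent.pair_iff]
    intro s t hst
    have h1 := congrArg g hst
    rw [map_add, map_smul, map_smul, hgu, smul_zero, zero_add, map_zero, smul_eq_mul] at h1
    have ht : t = 0 := (mul_eq_zero.1 h1).resolve_right hv
    rw [ht, zero_smul, add_zero] at hst
    exact ⟨(smul_eq_zero.1 hst).resolve_right hu, ht⟩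
  obtain ⟨w, hw⟩ : ∃ w : Y, ¬ ∃ c d : ℂ, w = c • u + d • v := by
    by_contra hcon
    push Not at hcon
    obtain ⟨V, hV⟩ := hY
    classical
    have hle := linearIndependent_le_span' V hV (({u, v} : Finset Y) : Set Y) (by
      rintro _ ⟨i, rfl⟩
      obtain ⟨c, d, h⟩ := hcon (V i)
      rw [h]
      exact Submodule.add_mem _ (Submodule.smul_mem _ _ (Submodule.subset_span (by simp)))
        (Submodule.smul_mem _ _ (Submodule.subset_span (by simp))))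
    simp only [Cardinal.mk_fin, Nat.cast_ofNat] at hle
    have h3 : Fintype.card ((({u, v} : Finset Y) : Set Y)) ≤ 2 := by
      simp only [Finset.coe_sort_coe, Fintype.card_coe]
      exact Finset.card_le_two
    have h4 : (3 : Cardinal) ≤ 2 := by
      refine hle.trans ?_
      exact_mod_cast h3
    have h5 : (3 : ℕ) ≤ 2 := by exact_mod_cast h4
    omega
  obtain ⟨k, hk1, hk2, hk3⟩ : ∃ k : Y →L[ℂ] ℂ, k u = 0 ∧ k v = 0 ∧ k w ≠ 0 := by
    by_contra hcon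
    push Not at hcon
    exact hw (span_vec huv hcon)
  refine ⟨k, hk1, ?_⟩
  rw [LinearIndependent.pair_iff]
  intro s t hst
  have h1 := congrArg (fun A : Y →L[ℂ] ℂ => A v) hst
  have h2 := congrArg (fun A : Y →L[ℂ] ℂ => A w) hst
  have h1' : s * g v + t * k v = 0 := h1
  have h2' : s * g w + t * k w = 0 := h2
  rw [hk2, mul_zero, add_zero] at h1'
  have hs : s = 0 := (mul_eq_zero.1 h1').resolve_right hv
  rw [hs, zero_mul, zero_add] at h2'
  exact ⟨hs, (mul_eq_zero.1 h2').resolve_right hk3⟩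

theorem J35_hr_j5335 (Φ : (X →L[ℂ] X) → (Y →L[ℂ] Y))
    (hs : ∀ R : Y →L[ℂ] Y, ∃ T, ∀ (u : Y) (g : Y →L[ℂ] ℂ), g u = 0 → ‖g (Φ T u)‖ = ‖g (R u)‖)
    {u : Y} (hu : u ≠ 0) {g g1 : Y →L[ℂ] ℂ} (hg : g u = 0) (hg1 : g1 u = 0)
    (hli : LinearIndependent ℂ ![g, g1]) : ∃ T, g (Φ T u) = 0 ∧ g1 (Φ T u) ≠ 0 := by
  obtain ⟨v, hv0, hv1⟩ := dual_fun hli
  obtain ⟨k, hk⟩ := exists_one_j5335 hu
  obtain ⟨T, hT⟩ := hs (rk v k)
  have hR : (rk v k) u = v := by
    show k u • v = v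
    rw [hk, one_smul]
  refine ⟨T, ?_, ?_⟩
  · have := hT u g hg
    rw [hR, hv0, norm_zero] at this
    exact norm_eq_zero.1 this
  · have := hT u g1 hg1
    rw [hR, hv1, norm_one] at this
    intro h
    rw [h, norm_zero] at this
    exact zero_ne_one this

theorem J35_A_j5335 [CompleteSpace X] {ε : ℂ} (hε : ε = 1 ∨ ε = -1)
    (hY : ∃ v : Fin 3 → Y, LinearIndependent ℂ v)
    (Φ : (X →L[ℂ] X) → (Y →L[ℂ] Y)) (S : Y → (Y →L[ℂ] ℂ) → (X →L[ℂ] X))
    (hS : ∀ u g, g u = 0 → ∀ T, ‖g (Φ T u)‖ = JF ε T (S u g))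
    (h0 : ∀ T, (∃ c : ℂ, Φ T = c • 1) → ∃ c : ℂ, T = c • 1)
    (hq : ε = 1 → ∀ u g, g u = 0 → sr (S u g) = 0)
    (hs : ∀ R : Y →L[ℂ] Y, ∃ T, ∀ (u : Y) (g : Y →L[ℂ] ℂ), g u = 0 → ‖g (Φ T u)‖ = ‖g (R u)‖)
    (u : Y) (g : Y →L[ℂ] ℂ) (hug : Flag u g) :
    ∃ (ν : ℂ) (x : X) (f : X →L[ℂ] ℂ), S u g = ν • 1 + rk x f := by
  by_cases h4 : ∃ v : Fin 4 → X, LinearIndependent ℂ v
  · apply RK4 h4
    intro a f haf
    refine special_N ?_ Φ h0 S ?_ u g hug.2.2 a f haf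
    · obtain ⟨v, hv⟩ := hY
      refine ⟨v 0, v 1, v 2, ?_⟩
      convert hv using 1
      ext i
      fin_cases i <;> rfl
    · intro u' g' hg' a' f' haf' M
      rw [hS u' g' hg', JF_TT hε a' f' M _ haf']
  · by_cases hcyc : ∃ e, LinearIndependent ℂ ![e, (S u g) e, (S u g) ((S u g) e)]
    · exfalso
      obtain ⟨e, he⟩ := hcyc
      obtain ⟨g1, hg1, hli⟩ := J35_g1_j5335 hY hug
      obtain ⟨T0, hT0⟩ := J35_hr_j5335 Φ hs hug.1 hug.2.2 hg1 hli
      have hker : ∀ w : ℂ, (g + w • g1) u = 0 := by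
        intro w
        show g u + w * g1 u = 0
        rw [hug.2.2, hg1, mul_zero, add_zero]
      refine D3 hε h4 (fun T => g (Φ T u)) (fun T => g1 (Φ T u)) (fun w => S u (g + w • g1))
        (S u g1) ?_ (hS u g1 hg1) ?_ ⟨T0, hT0⟩ e ?_
      · intro T w
        exact hS u (g + w • g1) (hker w) T
      · intro h1
        exact ⟨fun w => hq h1 u _ (hker w), hq h1 u g1 hg1⟩
      · have e0 : g + (0 : ℂ) • g1 = g := by
          ext z
          show g z + 0 * g1 z = g z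
          ring
        simp only [e0]
        exact he
    · push Not at hcyc
      exact noncyc3 h4 (S u g) hcyc

theorem J35_nu_j5335 [CompleteSpace X] (hX : ∃ v : Fin 3 → X, LinearIndependent ℂ v) {ν : ℂ} {x : X}
    {f : X →L[ℂ] ℂ} (h : sr (ν • (1 : X →L[ℂ] X) + rk x f) = 0) : ν = 0 := by
  obtain ⟨v, hv, hfv⟩ := J35_ker_j5335 hX f
  have h1 : (ν • (1 : X →L[ℂ] X) + rk x f) v = ν • v := by
    show ν • v + f v • x = ν • v
    rw [hfv, zero_smul, add_zero]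
  have h2 := norm_le_sr (J35_eig_j5335 hv h1)
  rw [h] at h2
  exact norm_le_zero_iff.1 h2

theorem stepR [CompleteSpace X] {ε : ℂ} (hε : ε = 1 ∨ ε = -1)
    (hX : ∃ v : Fin 3 → X, LinearIndependent ℂ v) (hY : ∃ v : Fin 3 → Y, LinearIndependent ℂ v)
    (Φ : (X →L[ℂ] X) → (Y →L[ℂ] Y)) (S : Y → (Y →L[ℂ] ℂ) → (X →L[ℂ] X))
    (hS : ∀ u g, g u = 0 → ∀ T, ‖g (Φ T u)‖ = JF ε T (S u g))
    (h0 : ∀ T, (∃ c : ℂ, Φ T = c • 1) → ∃ c : ℂ, T = c • 1)
    (hq : ε = 1 → ∀ u g, g u = 0 → sr (S u g) = 0)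
    (hs : ∀ R : Y →L[ℂ] Y, ∃ T, ∀ (u : Y) (g : Y →L[ℂ] ℂ), g u = 0 → ‖g (Φ T u)‖ = ‖g (R u)‖)
    (u : Y) (g : Y →L[ℂ] ℂ) (hug : Flag u g) :
    ∃ (ν : ℂ) (x : X) (f : X →L[ℂ] ℂ), Flag x f ∧ S u g = ν • 1 + rk x f ∧ (ε = 1 → ν = 0) := by
  obtain ⟨hu, hg, hgu⟩ := hug
  have hA := J35_A_j5335 hε hY Φ S hS h0 hq hs
  obtain ⟨ν, x, f, hSug⟩ := hA u g ⟨hu, hg, hgu⟩
  -- Step B
  have hB : rk x f ≠ 0 := by
    intro hrk
    obtain ⟨v, hv⟩ : ∃ v, g v ≠ 0 := by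
      by_contra hcon
      push Not at hcon
      exact hg (ContinuousLinearMap.ext hcon)
    obtain ⟨k, hk⟩ := exists_one_j5335 hu
    obtain ⟨T, hT⟩ := hs (rk v k)
    have hR : (rk v k) u = v := by
      show k u • v = v
      rw [hk, one_smul]
    have h1 := hT u g hgu
    rw [hR, hS u g hgu T, hSug, hrk, add_zero] at h1
    rcases hε with rfl | rfl
    · have h2 := hq rfl u g hgu
      rw [hSug] at h2
      have h3 := J35_nu_j5335 hX h2
      rw [JF_one_scalar, h3, norm_zero, mul_zero, zero_mul] at h1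
      exact hv (norm_eq_zero.1 h1.symm)
    · rw [JF_symm (Or.inr rfl), (JF_neg_eq_zero_iff (ν • (1 : X →L[ℂ] X))).2 ⟨ν, rfl⟩ T] at h1
      exact hv (norm_eq_zero.1 h1.symm)
  have hx : x ≠ 0 := by
    rintro rfl
    apply hB
    ext z
    show f z • (0 : X) = 0
    rw [smul_zero]
  have hf : f ≠ 0 := by
    rintro rfl
    apply hB
    ext z
    show (0 : ℂ) • x = 0
    rw [zero_smul]
  rcases hε with rfl | rfl
  · have h2 := hq rfl u g hgu
    rw [hSug] at h2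
    have h3 := J35_nu_j5335 hX h2
    rw [h3, zero_smul, zero_add, sr_rank_one] at h2
    exact ⟨ν, x, f, ⟨hx, hf, norm_eq_zero.1 h2⟩, hSug, fun _ => h3⟩
  · obtain ⟨g1, hg1, hli⟩ := J35_g1_j5335 hY ⟨hu, hg, hgu⟩
    have hli' := LinearIndependent.pair_iff.1 hli
    have hg1ne : g1 ≠ 0 := by
      rintro rfl
      have := (hli' 0 1 (by simp)).2
      exact one_ne_zero this
    have hplus : g + g1 ≠ 0 := by
      intro h
      have := (hli' 1 1 (by rw [one_smul, one_smul]; exact h)).2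
      exact one_ne_zero this
    have hminus : g - g1 ≠ 0 := by
      intro h
      have := (hli' 1 (-1) (by rw [one_smul, neg_smul, one_smul, ← sub_eq_add_neg]; exact h)).1
      exact one_ne_zero this
    have hpu : (g + g1) u = 0 := by
      show g u + g1 u = 0
      rw [hgu, hg1, add_zero]
    have hmu : (g - g1) u = 0 := by
      show g u - g1 u = 0
      rw [hgu, hg1, sub_zero]
    obtain ⟨ν1, x1, f1, hS1⟩ := hA u g1 ⟨hu, hg1ne, hg1⟩
    obtain ⟨ν2, x2, f2, hS2⟩ := hA u (g + g1) ⟨hu, hplus, hpu⟩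
    obtain ⟨ν3, x3, f3, hS3⟩ := hA u (g - g1) ⟨hu, hminus, hmu⟩
    have hJ : ∀ (T : X →L[ℂ] X) (ν : ℂ) (x : X) (f : X →L[ℂ] ℂ),
        JF (-1) T (ν • 1 + rk x f) = JF (-1) T (rk x f) := by
      intro T ν x f
      rw [add_comm, JF_neg_add_right]
    have hd : ∃ v : Fin 2 → X, LinearIndependent ℂ v := by
      obtain ⟨v, hv⟩ := hX
      exact ⟨v ∘ Fin.castSucc, hv.comp _ (Fin.castSucc_injective 2)⟩
    have h00 : f x = 0 := by
      refine no_idem hd (fun T => g (Φ T u)) (fun T => g1 (Φ T u)) x x1 x2 x3 f f1 f2 f3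
        ?_ ?_ ?_ ?_ (J35_hr_j5335 Φ hs hu hgu hg1 hli)
      · intro T
        show ‖g (Φ T u)‖ = _
        rw [hS u g hgu T, hSug, hJ]
      · intro T
        show ‖g1 (Φ T u)‖ = _
        rw [hS u g1 hg1 T, hS1, hJ]
      · intro T
        have := hS u (g + g1) hpu T
        rw [hS2, hJ] at this
        exact this
      · intro T
        have := hS u (g - g1) hmu T
        rw [hS3, hJ] at this
        exact this
    refine ⟨ν, x, f, ⟨hx, hf, h00⟩, hSug, ?_⟩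
    intro h
    norm_num at h

end


end j5335

-- part 5336
section j5336
section srbasic
variable {X : Type*} [NormedAddCommGroup X] [NormedSpace ℂ X]

theorem sr_nonneg_j5336 (T : X →L[ℂ] X) : 0 ≤ sr T := ENNReal.toReal_nonneg

variable [CompleteSpace X]

end srbasic

section basic
variable {Z : Type*} [NormedAddCommGroup Z] [NormedSpace ℂ Z]

theorem exists_one_j5336 {z : Z} (hz : z ≠ 0) : ∃ k : Z →L[ℂ] ℂ, k z = 1 :=
  SeparatingDual.exists_eq_one hz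

end basic

section JF
variable {X : Type*} [NormedAddCommGroup X] [NormedSpace ℂ X] [CompleteSpace X]

end JF

section dim2
variable {X : Type*} [NormedAddCommGroup X] [NormedSpace ℂ X] [CompleteSpace X]

omit [CompleteSpace X] in
theorem mem_span2_j5336 (h3 : ¬ ∃ v : Fin 3 → X, LinearIndependent ℂ v) {a b : X}
    (h : LinearIndependent ℂ ![a, b]) (x : X) : ∃ p q : ℂ, x = p • a + q • b := by
  by_contra hcon
  apply h3
  refine ⟨Fin.cons x ![a, b], ?_⟩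
  rw [linearIndependent_fin_cons]
  refine ⟨h, fun hx => hcon ?_⟩
  have : Set.range ![a, b] = {a, b} := by
    ext z
    simp [eq_comm]
    exact or_comm
  rw [this, Submodule.mem_span_pair] at hx
  obtain ⟨p, q, hpq⟩ := hx
  exact ⟨p, q, hpq.symm⟩

omit [CompleteSpace X] in
theorem li_of_j5336 {x y : X} (H : ∀ p q : ℂ, p • x + q • y = 0 → p = 0 ∧ q = 0) :
    LinearIndependent ℂ ![x, y] := by
  rw [LinearIndependent.pair_iff]
  exact fun s t h => H s t h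

theorem norm_le_sr_of_eigen_j5336 {S : X →L[ℂ] X} {z : ℂ} {v : X} (hv : v ≠ 0) (h : S v = z • v) :
    ‖z‖ ≤ sr S := by
  apply norm_le_sr
  rw [spectrum.mem_iff]
  intro hu
  obtain ⟨u, hu⟩ := hu
  have h1 : (↑(u⁻¹) : X →L[ℂ] X) * (algebraMap ℂ (X →L[ℂ] X) z - S) = 1 := by
    rw [← hu]; exact u.inv_mul
  have h2 := congrArg (fun T : X →L[ℂ] X => T v) h1
  have h3 : (algebraMap ℂ (X →L[ℂ] X) z - S) v = 0 := by
    rw [ContinuousLinearMap.sub_apply, Algebra.algebraMap_eq_smul_one,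
      ContinuousLinearMap.smul_apply, ContinuousLinearMap.one_apply, h, sub_self]
  simp only [ContinuousLinearMap.mul_apply, h3, map_zero, ContinuousLinearMap.one_apply] at h2
  exact hv h2.symm

theorem nonscalar_form_j5336 (h3 : ¬ ∃ v : Fin 3 → X, LinearIndependent ℂ v) (S : X →L[ℂ] X)
    (hS : ¬ ∃ c : ℂ, S = c • 1) :
    ∃ (ν : ℂ) (x : X) (f : X →L[ℂ] ℂ) (y : X), x ≠ 0 ∧ f ≠ 0 ∧ y ≠ 0 ∧ f y = 0 ∧
      S = ν • 1 + rk x f := by
  have h1 : ∃ a, LinearIndependent ℂ ![a, S a] := by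
    by_contra hcon
    push Not at hcon
    apply hS
    apply scalar_of_forall_flag
    intro x f hxf
    obtain ⟨c, hc⟩ := dep_smul hxf.1 (hcon x)
    rw [hc, map_smul, hxf.2.2, smul_zero]
  obtain ⟨a, ha⟩ := h1
  have hpair := LinearIndependent.pair_iff.mp ha
  obtain ⟨β, α, hαβ⟩ := mem_span2_j5336 h3 ha (S (S a))
  obtain ⟨ν, μ, hsum, hprod, -⟩ := R2_exists α (-β)
  have hc : LinearIndependent ℂ ![S a - μ • a, a] := by
    apply li_of_j5336
    intro p q hpq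
    have h4 : (q - p * μ) • a + p • S a = 0 := by
      rw [← hpq]; module
    obtain ⟨h5, h6⟩ := hpair _ _ h4
    rw [h6, zero_mul, sub_zero] at h5
    exact ⟨h6, h5⟩
  obtain ⟨k, hk1, hk2⟩ := dual_vec hc
  have hSc : S (S a - μ • a) = ν • (S a - μ • a) := by
    rw [map_sub, map_smul, hαβ, ← hsum]
    have : β = -(ν * μ) := by rw [hprod]; ring
    rw [this]
    module
  refine ⟨ν, S a - ν • a, k, S a - μ • a, ?_, ?_, ?_, hk1, ?_⟩
  · intro h0
    have h4 : (-ν) • a + (1 : ℂ) • S a = 0 := by rw [← h0]; module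
    exact one_ne_zero (hpair _ _ h4).2
  · rintro rfl
    simp at hk2
  · intro h0
    have h4 : (-μ) • a + (1 : ℂ) • S a = 0 := by rw [← h0]; module
    exact one_ne_zero (hpair _ _ h4).2
  · ext v
    obtain ⟨p, q, hv⟩ := mem_span2_j5336 h3 hc v
    have hkv : k v = q := by
      rw [hv, map_add, map_smul, map_smul, hk1, hk2]; simp
    have e1 : (ν • 1 + rk (S a - ν • a) k : X →L[ℂ] X) v = ν • v + k v • (S a - ν • a) := rfl
    rw [e1, hkv, hv, map_add, map_smul, map_smul, hSc]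
    module

theorem nil2_one (h2 : ∃ v : Fin 2 → X, LinearIndependent ℂ v)
    (h3 : ¬ ∃ v : Fin 3 → X, LinearIndependent ℂ v) (S : X →L[ℂ] X) (hS : sr S = 0) (h0 : S ≠ 0) :
    ∃ x f, Flag x f ∧ S = rk x f := by
  have hns : ¬ ∃ c : ℂ, S = c • 1 := by
    rintro ⟨c, hc⟩
    obtain ⟨v, hv⟩ := h2
    have hv0 : v 0 ≠ 0 := hv.ne_zero 0
    have h4 : ‖c‖ ≤ sr S := norm_le_sr_of_eigen_j5336 hv0 (by
      rw [hc, ContinuousLinearMap.smul_apply, ContinuousLinearMap.one_apply])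
    rw [hS] at h4
    have h5 : c = 0 := norm_eq_zero.mp (le_antisymm h4 (norm_nonneg _))
    exact h0 (by rw [hc, h5, zero_smul])
  obtain ⟨ν, x, f, y, hx, hf, hy, hfy, hSe⟩ := nonscalar_form_j5336 h3 S hns
  have hSy : S y = ν • y := by
    have e1 : (ν • 1 + rk x f : X →L[ℂ] X) y = ν • y + f y • x := rfl
    rw [hSe, e1, hfy, zero_smul, add_zero]
  have h4 : ‖ν‖ ≤ sr S := norm_le_sr_of_eigen_j5336 hy hSy
  rw [hS] at h4
  have h5 : ν = 0 := norm_eq_zero.mp (le_antisymm h4 (norm_nonneg _))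
  have h6 : S = rk x f := by rw [hSe, h5, zero_smul, zero_add]
  refine ⟨x, f, ⟨hx, hf, ?_⟩, h6⟩
  rw [h6, sr_rank_one] at hS
  exact norm_eq_zero.mp hS

theorem nil2_neg (h2 : ∃ v : Fin 2 → X, LinearIndependent ℂ v)
    (h3 : ¬ ∃ v : Fin 3 → X, LinearIndependent ℂ v) (S : X →L[ℂ] X)
    (hS : ¬ ∃ c : ℂ, S = c • 1) :
    (∀ T1 T2, JF (-1) T1 S = 0 → JF (-1) T2 S = 0 → JF (-1) T1 T2 = 0) ↔
      ∃ (ν : ℂ) (x : X) (f : X →L[ℂ] ℂ), Flag x f ∧ S = ν • 1 + rk x f := by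
  constructor
  · intro H
    obtain ⟨ν, x, f, y, hx, hf, hy, hfy, hSe⟩ := nonscalar_form_j5336 h3 S hS
    refine ⟨ν, x, f, ⟨hx, hf, ?_⟩, hSe⟩
    by_contra hfx
    have hSv : ∀ v, S v = ν • v + f v • x := fun v => by rw [hSe]; rfl
    have hxy : LinearIndependent ℂ ![x, y] := by
      apply li_of_j5336
      intro p q hpq
      have h4 := congrArg f hpq
      rw [map_add, map_smul, map_smul, hfy, smul_zero, add_zero, map_zero, smul_eq_mul,
        mul_eq_zero] at h4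
      have hp : p = 0 := h4.resolve_right hfx
      rw [hp, zero_smul, zero_add, smul_eq_zero] at hpq
      exact ⟨hp, hpq.resolve_right hy⟩
    obtain ⟨k, hk1, hk2⟩ := dual_vec hxy
    have hε : (-1 : ℂ) = 1 ∨ (-1 : ℂ) = -1 := Or.inr rfl
    have e1 : JF (-1) (rk x k) S = 0 := by
      rw [JF_symm hε, JF_flag hε S hk1, hSv, map_add, map_smul, map_smul, hk1]
      simp
    have e2 : JF (-1) (rk y f) S = 0 := by
      rw [JF_symm hε, JF_flag hε S hfy, hSv, map_add, map_smul, map_smul, hfy]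
      simp
    have e3 := H _ _ e1 e2
    rw [JF_flag hε (rk x k) hfy] at e3
    have e4 : (rk x k) y = k y • x := rfl
    rw [e4, hk2, one_smul] at e3
    exact hfx (norm_eq_zero.mp e3)
  · rintro ⟨ν, x, f, ⟨hx, hf, hfx⟩, hSe⟩ T1 T2 h1 h4
    have hε : (-1 : ℂ) = 1 ∨ (-1 : ℂ) = -1 := Or.inr rfl
    have key : ∀ T : X →L[ℂ] X, JF (-1) T S = 0 → f (T x) = 0 := by
      intro T hT
      rw [hSe, add_comm, JF_neg_add_right, JF_flag hε T hfx] at hT
      exact norm_eq_zero.mp hT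
    obtain ⟨y, hy⟩ : ∃ y, f y = 1 := by
      have : ∃ v, f v ≠ 0 := by
        by_contra hcon
        push Not at hcon
        exact hf (ContinuousLinearMap.ext hcon)
      obtain ⟨v, hv⟩ := this
      exact ⟨(f v)⁻¹ • v, by rw [map_smul, smul_eq_mul, inv_mul_cancel₀ hv]⟩
    have hxy : LinearIndependent ℂ ![x, y] := by
      apply li_of_j5336
      intro p q hpq
      have h5 := congrArg f hpq
      rw [map_add, map_smul, map_smul, hfx, smul_zero, zero_add, map_zero, hy, smul_eq_mul,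
        mul_one] at h5
      rw [h5, zero_smul, add_zero, smul_eq_zero] at hpq
      exact ⟨hpq.resolve_right hx, h5⟩
    have hspan : ∀ v, ∃ p : ℂ, v = p • x + f v • y := by
      intro v
      obtain ⟨p, q, hv⟩ := mem_span2_j5336 h3 hxy v
      have : f v = q := by rw [hv, map_add, map_smul, map_smul, hfx, hy]; simp
      exact ⟨p, by rw [this]; exact hv⟩
    have hker : ∀ v, f v = 0 → ∃ p : ℂ, v = p • x := by
      intro v hv
      obtain ⟨p, hp⟩ := hspan v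
      rw [hv, zero_smul, add_zero] at hp
      exact ⟨p, hp⟩
    have hfT : ∀ T : X →L[ℂ] X, f (T x) = 0 → ∀ v, f (T v) = f v * f (T y) := by
      intro T hT v
      obtain ⟨p, hp⟩ := hspan v
      have : T v = p • T x + f v • T y := by
        conv_lhs => rw [hp]
        rw [map_add, map_smul, map_smul]
      rw [this, map_add, map_smul, map_smul, hT]
      simp
    have hx1 := key T1 h1
    have hx2 := key T2 h4
    obtain ⟨p1, hp1⟩ := hker _ hx1
    obtain ⟨p2, hp2⟩ := hker _ hx2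
    have hKx : (T1 * T2 + (-1 : ℂ) • (T2 * T1)) x = 0 := by
      have : (T1 * T2 + (-1 : ℂ) • (T2 * T1)) x = T1 (T2 x) + (-1 : ℂ) • T2 (T1 x) := rfl
      rw [this, hp1, hp2, map_smul, map_smul, hp1, hp2]
      module
    have hKf : ∀ v, f ((T1 * T2 + (-1 : ℂ) • (T2 * T1)) v) = 0 := by
      intro v
      have : (T1 * T2 + (-1 : ℂ) • (T2 * T1)) v = T1 (T2 v) + (-1 : ℂ) • T2 (T1 v) := rfl
      rw [this, map_add, map_smul, hfT T1 hx1 (T2 v), hfT T2 hx2 v, hfT T2 hx2 (T1 v),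
        hfT T1 hx1 v, smul_eq_mul]
      ring
    unfold JF
    apply sr_eq_zero_of_sq
    ext v
    rw [ContinuousLinearMap.mul_apply]
    obtain ⟨p, hp⟩ := hker _ (hKf v)
    rw [hp, map_smul, hKx, smul_zero]
    rfl

end dim2


end j5336

-- part 5337
section j5337
section srbasic
variable {X : Type*} [NormedAddCommGroup X] [NormedSpace ℂ X]

theorem sr_nonneg_j5337 (T : X →L[ℂ] X) : 0 ≤ sr T := ENNReal.toReal_nonneg

variable [CompleteSpace X]

end srbasic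

section basic
variable {Z : Type*} [NormedAddCommGroup Z] [NormedSpace ℂ Z]

theorem exists_one_j5337 {z : Z} (hz : z ≠ 0) : ∃ k : Z →L[ℂ] ℂ, k z = 1 :=
  SeparatingDual.exists_eq_one hz

end basic

section JF
variable {X : Type*} [NormedAddCommGroup X] [NormedSpace ℂ X] [CompleteSpace X]

end JF

section
variable {X Y : Type*} [NormedAddCommGroup X] [NormedSpace ℂ X] [CompleteSpace X]
  [NormedAddCommGroup Y] [NormedSpace ℂ Y]

theorem rk_ne_zero_j5337 {Z : Type*} [NormedAddCommGroup Z] [NormedSpace ℂ Z] {u : Z} {g : Z →L[ℂ] ℂ}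
    (h : Flag u g) : rk u g ≠ 0 := by
  intro h0
  apply h.2.1
  ext a
  have h1 := congrArg (fun A : Z →L[ℂ] Z => A a) h0
  simp only [ContinuousLinearMap.smulRight_apply, ContinuousLinearMap.zero_apply, smul_eq_zero] at h1
  rcases h1 with h1 | h1
  · simpa using h1
  · exact absurd h1 h.1

theorem rk_not_scalar_j5337 {Z : Type*} [NormedAddCommGroup Z] [NormedSpace ℂ Z] {u : Z}
    {g : Z →L[ℂ] ℂ} (h : Flag u g) : ¬ ∃ c : ℂ, rk u g = c • 1 := by
  rintro ⟨c, hc⟩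
  have h1 := congrArg (fun A : Z →L[ℂ] Z => A u) hc
  simp only [ContinuousLinearMap.smulRight_apply, ContinuousLinearMap.smul_apply,
    ContinuousLinearMap.one_apply, h.2.2, zero_smul] at h1
  have h2 : c = 0 := by
    rcases smul_eq_zero.1 h1.symm with h2 | h2
    · exact h2
    · exact absurd h2 h.1
  rw [h2, zero_smul] at hc
  exact rk_ne_zero_j5337 h hc

theorem sr_pres_j5337 [CompleteSpace Y] (φ : (X →L[ℂ] X) → (Y →L[ℂ] Y))
    (h : ∀ T S, JF 1 (φ T) (φ S) = JF 1 T S) (T : X →L[ℂ] X) : sr (φ T) = sr T := by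
  have h1 := h T T
  rw [JF_one_self, JF_one_self] at h1
  have h2 := sr_nonneg_j5337 (φ T)
  have h3 := sr_nonneg_j5337 T
  nlinarith

theorem scal_back_j5337 [CompleteSpace Y] {ε : ℂ} (hε : ε = 1 ∨ ε = -1)
    (φ : (X →L[ℂ] X) → (Y →L[ℂ] Y)) (hs : Function.Surjective φ)
    (h : ∀ T S, JF ε (φ T) (φ S) = JF ε T S) (T : X →L[ℂ] X) (hT : ∃ c : ℂ, φ T = c • 1) :
    ∃ c : ℂ, T = c • 1 := by
  rcases hε with rfl | rfl
  · obtain ⟨c, hc⟩ := hT
    apply scalar_of_forall_flag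
    intro a k hak
    have h1 := JF_flag (Or.inl rfl : (1 : ℂ) = 1 ∨ (1 : ℂ) = -1) T hak.2.2
    rw [← h, hc, JF_symm (Or.inl rfl), JF_one_scalar, sr_pres_j5337 φ h, sr_rank_one, hak.2.2, norm_zero,
      mul_zero] at h1
    exact norm_eq_zero.1 h1.symm
  · rw [← JF_neg_eq_zero_iff]
    rw [← JF_neg_eq_zero_iff] at hT
    intro S
    rw [← h]
    exact hT _

theorem scal_fwd_j5337 [CompleteSpace Y] {ε : ℂ} (hε : ε = 1 ∨ ε = -1)
    (φ : (X →L[ℂ] X) → (Y →L[ℂ] Y)) (hs : Function.Surjective φ)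
    (h : ∀ T S, JF ε (φ T) (φ S) = JF ε T S) (T : X →L[ℂ] X) (hT : ∃ c : ℂ, T = c • 1) :
    ∃ c : ℂ, φ T = c • 1 := by
  rcases hε with rfl | rfl
  · obtain ⟨c, hc⟩ := hT
    apply scalar_of_forall_flag
    intro a k hak
    obtain ⟨S, hS⟩ := hs (rk a k)
    have h1 := JF_flag (Or.inl rfl : (1 : ℂ) = 1 ∨ (1 : ℂ) = -1) (φ T) hak.2.2
    rw [← hS, h, hc, JF_symm (Or.inl rfl), JF_one_scalar, ← sr_pres_j5337 φ h, hS, sr_rank_one, hak.2.2,
      norm_zero, mul_zero, ← hc] at h1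
    exact norm_eq_zero.1 h1.symm
  · rw [← JF_neg_eq_zero_iff]
    rw [← JF_neg_eq_zero_iff] at hT
    intro R
    obtain ⟨S, rfl⟩ := hs R
    rw [h]
    exact hT _

theorem zero_iff_j5337 [CompleteSpace Y] (φ : (X →L[ℂ] X) → (Y →L[ℂ] Y)) (hs : Function.Surjective φ)
    (h : ∀ T S, JF 1 (φ T) (φ S) = JF 1 T S) (T : X →L[ℂ] X) : φ T = 0 ↔ T = 0 := by
  rw [← JF_one_eq_zero_iff, ← JF_one_eq_zero_iff]
  constructor
  · intro h1 S
    rw [← h]; exact h1 _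
  · intro h1 R
    obtain ⟨S, rfl⟩ := hs R
    rw [h]; exact h1 _

theorem JF_drop_j5337 {Z : Type*} [NormedAddCommGroup Z] [NormedSpace ℂ Z] [CompleteSpace Z] {ε : ℂ}
    (hε : ε = 1 ∨ ε = -1) (T S : Z →L[ℂ] Z) (ν : ℂ) (hν : ε = 1 → ν = 0) :
    JF ε T (ν • 1 + S) = JF ε T S := by
  rcases hε with rfl | rfl
  · rw [hν rfl, zero_smul, zero_add]
  · rw [add_comm, JF_neg_add_right]

theorem flag_back [CompleteSpace Y] {ε : ℂ} (hε : ε = 1 ∨ ε = -1)
    (h2 : ∃ v : Fin 2 → X, LinearIndependent ℂ v) (φ : (X →L[ℂ] X) → (Y →L[ℂ] Y))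
    (hs : Function.Surjective φ) (h : ∀ T S, JF ε (φ T) (φ S) = JF ε T S)
    (u : Y) (g : Y →L[ℂ] ℂ) (hug : Flag u g) (S : X →L[ℂ] X) (hS : φ S = rk u g) :
    ∃ (ν : ℂ) (x : X) (f : X →L[ℂ] ℂ), Flag x f ∧ S = ν • 1 + rk x f ∧ (ε = 1 → ν = 0) := by
  classical
  obtain ⟨-, hd3⟩ := dims_transfer hε φ hs h
  by_cases h3 : ∃ v : Fin 3 → X, LinearIndependent ℂ v
  · let S' : Y → (Y →L[ℂ] ℂ) → (X →L[ℂ] X) := fun u' g' =>
      if u' = u ∧ g' = g then S else Function.surjInv hs (rk u' g')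
    have hS' : ∀ u' g', φ (S' u' g') = rk u' g' := by
      intro u' g'
      simp only [S']
      split_ifs with hc
      · rw [hc.1, hc.2]; exact hS
      · exact Function.surjInv_eq hs _
    have key := stepR hε h3 (hd3.1 h3) φ S' (fun u' g' hug' T => by
      rw [← h, hS', JF_flag hε _ hug']) (fun T hT => scal_back_j5337 hε φ hs h T hT)
      (fun he u' g' hug' => by
        subst he
        rw [← sr_pres_j5337 φ h, hS', sr_rank_one, hug', norm_zero])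
      (fun R => ⟨Function.surjInv hs R, fun u' g' _ => by rw [Function.surjInv_eq hs]⟩) u g hug
    have hSS : S' u g = S := by simp [S']
    rwa [hSS] at key
  · rcases hε with rfl | rfl
    · have h1 : sr S = 0 := by rw [← sr_pres_j5337 φ h, hS, sr_rank_one, hug.2.2, norm_zero]
      have h2' : S ≠ 0 := by
        intro h0
        have := (zero_iff_j5337 φ hs h S).2 h0
        rw [hS] at this
        exact rk_ne_zero_j5337 hug this
      obtain ⟨x, f, hxf, hSxf⟩ := nil2_one h2 h3 S h1 h2'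
      exact ⟨0, x, f, hxf, by rw [zero_smul, zero_add]; exact hSxf, fun _ => rfl⟩
    · have hns : ¬ ∃ c : ℂ, S = c • 1 := by
        intro h0
        have := scal_fwd_j5337 (Or.inr rfl) φ hs h S h0
        rw [hS] at this
        exact rk_not_scalar_j5337 hug this
      obtain ⟨hd2, -⟩ := dims_transfer (Or.inr rfl) φ hs h
      have htot := (nil2_neg (hd2.1 h2) (fun h3' => h3 (hd3.2 h3')) (rk u g) (rk_not_scalar_j5337 hug)).2
        ⟨0, u, g, hug, by rw [zero_smul, zero_add]⟩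
      obtain ⟨ν, x, f, hxf, hSxf⟩ := (nil2_neg h2 h3 S hns).1 (fun T1 T2 h1 h2' => by
        rw [← h] at h1 h2' ⊢
        rw [hS] at h1 h2'
        exact htot _ _ h1 h2')
      exact ⟨ν, x, f, hxf, hSxf, fun he => by norm_num at he⟩

theorem flag_fwd [CompleteSpace Y] {ε : ℂ} (hε : ε = 1 ∨ ε = -1)
    (h2 : ∃ v : Fin 2 → X, LinearIndependent ℂ v) (φ : (X →L[ℂ] X) → (Y →L[ℂ] Y))
    (hs : Function.Surjective φ) (h : ∀ T S, JF ε (φ T) (φ S) = JF ε T S)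
    (x : X) (f : X →L[ℂ] ℂ) (hxf : Flag x f) :
    ∃ (ν : ℂ) (u : Y) (g : Y →L[ℂ] ℂ), Flag u g ∧ φ (rk x f) = ν • 1 + rk u g ∧
      (ε = 1 → ν = 0) := by
  classical
  obtain ⟨hd2, hd3⟩ := dims_transfer hε φ hs h
  by_cases h3 : ∃ v : Fin 3 → X, LinearIndependent ℂ v
  · have hψ : ∀ R, φ (Function.surjInv hs R) = R := fun R => Function.surjInv_eq hs R
    exact stepR hε (hd3.1 h3) h3 (Function.surjInv hs) (fun x' f' => φ (rk x' f'))
      (fun x' f' hxf' R => by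
        rw [← JF_flag hε _ hxf', ← h, hψ])
      (fun R hR => by
        have := scal_fwd_j5337 hε φ hs h _ hR
        rwa [hψ] at this)
      (fun he x' f' hxf' => by
        subst he
        rw [sr_pres_j5337 φ h, sr_rank_one, hxf', norm_zero])
      (fun T => ⟨φ T, fun x' f' hxf' => by
        rw [← JF_flag hε _ hxf', ← h, hψ, h, JF_flag hε _ hxf']⟩) x f hxf
  · rcases hε with rfl | rfl
    · have h1 : sr (φ (rk x f)) = 0 := by rw [sr_pres_j5337 φ h, sr_rank_one, hxf.2.2, norm_zero]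
      have h2' : φ (rk x f) ≠ 0 := by
        intro h0
        exact rk_ne_zero_j5337 hxf ((zero_iff_j5337 φ hs h _).1 h0)
      obtain ⟨u, g, hug, hSug⟩ := nil2_one (hd2.1 h2) (fun h3' => h3 (hd3.2 h3')) _ h1 h2'
      exact ⟨0, u, g, hug, by rw [zero_smul, zero_add]; exact hSug, fun _ => rfl⟩
    · have hns : ¬ ∃ c : ℂ, φ (rk x f) = c • 1 := by
        intro h0
        exact rk_not_scalar_j5337 hxf (scal_back_j5337 (Or.inr rfl) φ hs h _ h0)
      have htot := (nil2_neg h2 h3 (rk x f) (rk_not_scalar_j5337 hxf)).2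
        ⟨0, x, f, hxf, by rw [zero_smul, zero_add]⟩
      obtain ⟨ν, u, g, hug, hSug⟩ := (nil2_neg (hd2.1 h2) (fun h3' => h3 (hd3.2 h3')) _ hns).1
        (fun R1 R2 h1 h2' => by
          obtain ⟨T1, rfl⟩ := hs R1
          obtain ⟨T2, rfl⟩ := hs R2
          rw [h] at h1 h2' ⊢
          exact htot _ _ h1 h2')
      exact ⟨ν, u, g, hug, hSug, fun he => by norm_num at he⟩

/-- the correspondence of flags -/
theorem flag_rel [CompleteSpace Y] {ε : ℂ} (hε : ε = 1 ∨ ε = -1)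
    (h2 : ∃ v : Fin 2 → X, LinearIndependent ℂ v) (φ : (X →L[ℂ] X) → (Y →L[ℂ] Y))
    (hs : Function.Surjective φ) (h : ∀ T S, JF ε (φ T) (φ S) = JF ε T S) :
    (∀ u g, Flag u g → ∃ x f, Flag x f ∧ Rel φ x f u g) ∧
    (∀ x f, Flag x f → ∃ u g, Flag u g ∧ Rel φ x f u g) ∧
    (∀ x f u g y k v l, Flag x f → Flag u g → Flag y k → Flag v l → Rel φ x f u g →
      Rel φ y k v l → ‖f y‖ * ‖k x‖ = ‖g v‖ * ‖l u‖) := by
  have hback : ∀ u g, Flag u g → ∃ x f, Flag x f ∧ Rel φ x f u g := by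
    intro u g hug
    obtain ⟨S, hS⟩ := hs (rk u g)
    obtain ⟨ν, x, f, hxf, hSxf, hν⟩ := flag_back hε h2 φ hs h u g hug S hS
    refine ⟨x, f, hxf, fun T => ?_⟩
    rw [← JF_flag hε (φ T) hug.2.2, ← hS, h, hSxf, JF_drop_j5337 hε _ _ _ hν, JF_flag hε _ hxf.2.2]
  have hfwd : ∀ x f, Flag x f → ∃ (ν : ℂ) (u : Y) (g : Y →L[ℂ] ℂ), Flag u g ∧
      φ (rk x f) = ν • 1 + rk u g ∧ Rel φ x f u g := by
    intro x f hxf
    obtain ⟨ν, u, g, hug, hSug, hν⟩ := flag_fwd hε h2 φ hs h x f hxf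
    refine ⟨ν, u, g, hug, hSug, fun T => ?_⟩
    rw [← JF_flag hε (φ T) hug.2.2, ← JF_drop_j5337 hε _ _ _ hν, ← hSug, h, JF_flag hε _ hxf.2.2]
  refine ⟨hback, fun x f hxf => ?_, ?_⟩
  · obtain ⟨ν, u, g, hug, -, hrel⟩ := hfwd x f hxf
    exact ⟨u, g, hug, hrel⟩
  · intro x f u g y k v l hxf hug hyk hvl hr1 hr2
    obtain ⟨ν, v', l', hvl', hφ, hr3⟩ := hfwd y k hyk
    have e1 := hr1 (rk y k)
    rw [hφ] at e1
    simp only [ContinuousLinearMap.add_apply, ContinuousLinearMap.smul_apply,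
      ContinuousLinearMap.one_apply, ContinuousLinearMap.smulRight_apply, map_add, map_smul,
      hug.2.2, smul_zero, zero_add, smul_eq_mul, norm_mul] at e1
    obtain ⟨T, hT⟩ := hs (rk u g)
    have e2 := hr2 T
    have e3 := hr3 T
    rw [hT] at e2 e3
    simp only [ContinuousLinearMap.smulRight_apply, map_smul, smul_eq_mul, norm_mul] at e2 e3
    rw [← e3] at e2
    rw [mul_zero, zero_add, norm_mul] at e1
    rw [mul_comm ‖f y‖, ← e1, mul_comm ‖l' u‖, e2]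

end


end j5337

-- part 5410
section j5410
section basic
variable {Z : Type*} [NormedAddCommGroup Z] [NormedSpace ℂ Z]

theorem exists_one_j5410 {z : Z} (hz : z ≠ 0) : ∃ k : Z →L[ℂ] ℂ, k z = 1 :=
  SeparatingDual.exists_eq_one hz

end basic

section
variable {X Y : Type*} [NormedAddCommGroup X] [NormedSpace ℂ X]
  [NormedAddCommGroup Y] [NormedSpace ℂ Y]

variable {φ : (X →L[ℂ] X) → (Y →L[ℂ] Y)}

/-- parallel vectors -/
abbrev Par_j5410 {E : Type*} [AddCommGroup E] [Module ℂ E] (x y : E) : Prop :=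
  ¬ LinearIndependent ℂ ![x, y]

theorem par_of_smul_j5410 {E : Type*} [AddCommGroup E] [Module ℂ E] {x y : E} {c : ℂ} (h : y = c • x) :
    Par_j5410 x y := by
  intro hli
  rw [LinearIndependent.pair_iff] at hli
  have := (hli c (-1) (by rw [h]; simp)).2
  norm_num at this

theorem par_symm_j5410 {Z : Type*} [NormedAddCommGroup Z] [NormedSpace ℂ Z] {x y : Z} (h : Par_j5410 x y) :
    Par_j5410 y x := fun h' => h (li_swap h')

theorem par_trans_j5410 {Z : Type*} [NormedAddCommGroup Z] [NormedSpace ℂ Z] {x y z : Z} (hx : x ≠ 0)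
    (hy : y ≠ 0) (h : Par_j5410 x y) (h' : Par_j5410 y z) : Par_j5410 x z := by
  obtain ⟨c, hc⟩ := dep_smul hx h
  obtain ⟨d, hd⟩ := dep_smul hy h'
  exact par_of_smul_j5410 (c := d * c) (by rw [hd, hc, smul_smul])

theorem par_aux_j5410 {Z : Type*} [NormedAddCommGroup Z] [NormedSpace ℂ Z] {x x' : Z}
    {f f' : Z →L[ℂ] ℂ} (hx' : x' ≠ 0) (hf' : f' ≠ 0) {κ : ℝ}
    (h : ∀ T : Z →L[ℂ] Z, ‖f' (T x')‖ = κ * ‖f (T x)‖) : Par_j5410 x x' ∧ Par_j5410 f f' := by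
  constructor
  · intro hli
    obtain ⟨k, hk, hk'⟩ := dual_vec hli
    obtain ⟨v, hv⟩ : ∃ v, f' v ≠ 0 := by
      by_contra hcon
      push Not at hcon
      exact hf' (ContinuousLinearMap.ext hcon)
    have h1 := h (rk v k)
    simp only [ContinuousLinearMap.smulRight_apply, hk, hk', zero_smul, one_smul, map_zero,
      norm_zero, mul_zero, norm_eq_zero] at h1
    exact hv h1
  · intro hli
    obtain ⟨v, hv, hv'⟩ := dual_fun hli
    obtain ⟨k, hk⟩ := exists_one_j5410 hx'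
    have h1 := h (rk v k)
    simp only [ContinuousLinearMap.smulRight_apply, hk, one_smul, map_smul, hv, hv', smul_zero,
      norm_zero, mul_zero, norm_one] at h1
    exact one_ne_zero h1

/-- relation version of `Rel` -/
def RelP_j5410 (P : (X →L[ℂ] X) → (Y →L[ℂ] Y) → Prop) (x : X) (f : X →L[ℂ] ℂ) (u : Y)
    (g : Y →L[ℂ] ℂ) : Prop := ∀ T R, P T R → ‖g (R u)‖ = ‖f (T x)‖

variable {P : (X →L[ℂ] X) → (Y →L[ℂ] Y) → Prop}

theorem RelP_j5410.par_j5410 (hL : ∀ T, ∃ R, P T R) {x x' : X} {f f' : X →L[ℂ] ℂ} {u u' : Y}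
    {g g' : Y →L[ℂ] ℂ} (h : RelP_j5410 P x f u g) (h' : RelP_j5410 P x' f' u' g') (hx' : Flag x' f')
    {a b : ℂ} (h1 : u' = a • u) (h2 : g' = b • g) : Par_j5410 x x' ∧ Par_j5410 f f' := by
  refine par_aux_j5410 (κ := ‖b‖ * ‖a‖) hx'.1 hx'.2.1 fun T => ?_
  obtain ⟨R, hR⟩ := hL T
  rw [← h T R hR, ← h' T R hR, h1, h2]
  simp only [ContinuousLinearMap.smul_apply, map_smul, norm_smul, smul_eq_mul, norm_mul]
  ring

theorem RelP_j5410.dg_j5410 (hL : ∀ T, ∃ R, P T R) (hR : ∀ R, ∃ T, P T R)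
    (H1 : ∀ u g, Flag u g → ∃ x f, Flag x f ∧ RelP_j5410 P x f u g)
    {x x' : X} {f f' : X →L[ℂ] ℂ} {u u' : Y} {g g' : Y →L[ℂ] ℂ}
    (h : RelP_j5410 P x f u g) (h' : RelP_j5410 P x' f' u' g') (hx' : Flag x' f')
    (hu : Flag u g) (hu' : Flag u' g') (h1 : Par_j5410 u u') : Par_j5410 x x' ∨ Par_j5410 f f' := by
  by_contra hcon
  rw [not_or, Par_j5410, Par_j5410, not_not, not_not] at hcon
  obtain ⟨hlx, hlf⟩ := hcon
  obtain ⟨c, hc⟩ := dep_smul hu.1 h1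
  have hc0 : c ≠ 0 := by
    rintro rfl
    exact hu'.1 (by rw [hc, zero_smul])
  -- replace `g'` by `c • g'`
  have h'' : RelP_j5410 P x' f' u (c • g') := by
    intro T R hTR
    rw [← h' T R hTR, hc]
    simp
  have hli : LinearIndependent ℂ ![g, c • g'] := by
    by_contra hcon
    obtain ⟨b, hb⟩ := dep_smul hu.2.1 hcon
    exact (RelP_j5410.par_j5410 hL h h'' hx' (a := 1) (by rw [one_smul]) hb).1 hlx
  obtain ⟨G, hG⟩ : ∃ G, G = c • g' := ⟨_, rfl⟩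
  rw [← hG] at h'' hli
  have hGu : G u = 0 := by
    have := hu'.2.2
    rw [hc, map_smul, smul_eq_mul] at this
    rw [hG, ContinuousLinearMap.smul_apply, (mul_eq_zero.1 this).resolve_left hc0, smul_zero]
  obtain ⟨v1, hv1, hv1'⟩ := dual_fun hli
  obtain ⟨v2, hv2, hv2'⟩ := dual_fun (li_swap hli)
  obtain ⟨k, hk⟩ := exists_one_j5410 hu.1
  have hfl : Flag u (g + G) := by
    refine ⟨hu.1, ?_, ?_⟩
    · intro h0
      have := DFunLike.congr_fun h0 v1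
      simp [hv1, hv1'] at this
    · simp [hu.2.2, hGu]
  obtain ⟨x2, f2, hx2, h2⟩ := H1 _ _ hfl
  rcases core hlx hlf hx2.1 hx2.2.1 (by
    intro T hT hT'
    obtain ⟨R, hTR⟩ := hL T
    have e1 := h T R hTR
    have e2 := h'' T R hTR
    have e3 := h2 T R hTR
    rw [hT, norm_zero, norm_eq_zero] at e1
    rw [hT', norm_zero, norm_eq_zero] at e2
    rw [ContinuousLinearMap.add_apply, e1, e2, add_zero, norm_zero] at e3
    exact norm_eq_zero.1 e3.symm) with ⟨κ, hκ⟩ | ⟨κ, hκ⟩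
  · obtain ⟨T, hT⟩ := hR (rk v1 k)
    have e := hκ T
    rw [← h T _ hT, ← h2 T _ hT] at e
    simp [hk, hv1, hv1'] at e
  · obtain ⟨T, hT⟩ := hR (rk v2 k)
    have e := hκ T
    rw [← h'' T _ hT, ← h2 T _ hT] at e
    simp [hk, hv2, hv2'] at e

theorem RelP_j5410.du_j5410 (hL : ∀ T, ∃ R, P T R) (hR : ∀ R, ∃ T, P T R)
    (H1 : ∀ u g, Flag u g → ∃ x f, Flag x f ∧ RelP_j5410 P x f u g)
    {x x' : X} {f f' : X →L[ℂ] ℂ} {u u' : Y} {g g' : Y →L[ℂ] ℂ}
    (h : RelP_j5410 P x f u g) (h' : RelP_j5410 P x' f' u' g') (hx' : Flag x' f')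
    (hu : Flag u g) (hu' : Flag u' g') (h1 : Par_j5410 g g') : Par_j5410 x x' ∨ Par_j5410 f f' := by
  by_contra hcon
  rw [not_or, Par_j5410, Par_j5410, not_not, not_not] at hcon
  obtain ⟨hlx, hlf⟩ := hcon
  obtain ⟨c, hc⟩ := dep_smul hu.2.1 h1
  have hc0 : c ≠ 0 := by
    rintro rfl
    exact hu'.2.1 (by rw [hc]; ext v; simp)
  -- replace `u'` by `c • u'`
  have h'' : RelP_j5410 P x' f' (c • u') g := by
    intro T R hTR
    rw [← h' T R hTR, hc]
    simp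
  have hli : LinearIndependent ℂ ![u, c • u'] := by
    by_contra hcon
    obtain ⟨b, hb⟩ := dep_smul hu.1 hcon
    exact (RelP_j5410.par_j5410 hL h h'' hx' (b := 1) hb (by rw [one_smul])).1 hlx
  obtain ⟨U, hU⟩ : ∃ U, U = c • u' := ⟨_, rfl⟩
  rw [← hU] at h'' hli
  have hgU : g U = 0 := by
    have := hu'.2.2
    rw [hc, ContinuousLinearMap.smul_apply, smul_eq_mul] at this
    rw [hU, map_smul, (mul_eq_zero.1 this).resolve_left hc0, smul_zero]
  obtain ⟨k1, hk1, hk1'⟩ := dual_vec hli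
  obtain ⟨k2, hk2, hk2'⟩ := dual_vec (li_swap hli)
  obtain ⟨v, hv⟩ : ∃ v, g v ≠ 0 := by
    by_contra hcon
    push Not at hcon
    exact hu.2.1 (ContinuousLinearMap.ext hcon)
  have hfl : Flag (u + U) g := by
    refine ⟨?_, hu.2.1, ?_⟩
    · intro h0
      have := congrArg k1 h0
      simp [hk1, hk1'] at this
    · simp [hu.2.2, hgU]
  obtain ⟨x2, f2, hx2, h2⟩ := H1 _ _ hfl
  rcases core hlx hlf hx2.1 hx2.2.1 (by
    intro T hT hT'
    obtain ⟨R, hTR⟩ := hL T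
    have e1 := h T R hTR
    have e2 := h'' T R hTR
    have e3 := h2 T R hTR
    rw [hT, norm_zero, norm_eq_zero] at e1
    rw [hT', norm_zero, norm_eq_zero] at e2
    rw [map_add, map_add, e1, e2, add_zero, norm_zero] at e3
    exact norm_eq_zero.1 e3.symm) with ⟨κ, hκ⟩ | ⟨κ, hκ⟩
  · obtain ⟨T, hT⟩ := hR (rk v k1)
    have e := hκ T
    rw [← h T _ hT, ← h2 T _ hT] at e
    simp [hk1, hk1', hv] at e
  · obtain ⟨T, hT⟩ := hR (rk v k2)
    have e := hκ T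
    rw [← h'' T _ hT, ← h2 T _ hT] at e
    simp [hk2, hk2', hv] at e

/-- the combinatorial lemma -/
theorem comb_j5410 {ι : Type*} {ra rb rc rd : ι → ι → Prop} (Ea : Equivalence ra) (Eb : Equivalence rb)
    (Ec : Equivalence rc) (Ed : Equivalence rd)
    (uL : ∀ i j, rc i j → rd i j → ra i j ∧ rb i j) (uR : ∀ i j, ra i j → rb i j → rc i j ∧ rd i j)
    (dC : ∀ i j, rc i j → ra i j ∨ rb i j) (dD : ∀ i j, rd i j → ra i j ∨ rb i j)
    (dA : ∀ i j, ra i j → rc i j ∨ rd i j) (dB : ∀ i j, rb i j → rc i j ∨ rd i j)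
    (eC : ∀ i, ∃ j, rc i j ∧ ¬ rd i j) (eD : ∀ i, ∃ j, rd i j ∧ ¬ rc i j)
    (cC : ∀ i j, ∃ k l, rc i k ∧ rc j l ∧ rd k l) :
    (∀ i j, (ra i j ↔ rc i j) ∧ (rb i j ↔ rd i j)) ∨
      (∀ i j, (ra i j ↔ rd i j) ∧ (rb i j ↔ rc i j)) := by
  -- types
  have t1 : ∀ i, (∀ k, rc i k → ra i k) ∨ (∀ k, rc i k → rb i k) := by
    intro i
    by_contra hcon
    push Not at hcon
    obtain ⟨⟨j, hj, hj'⟩, ⟨k, hk, hk'⟩⟩ := hcon
    have h1 : rb i j := (dC i j hj).resolve_left hj'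
    have h2 : ra i k := (dC i k hk).resolve_right hk'
    rcases dC j k (Ec.trans (Ec.symm hj) hk) with h | h
    · exact hj' (Ea.trans h2 (Ea.symm h))
    · exact hk' (Eb.trans h1 h)
  have t2 : ∀ i, (∀ k, rd i k → rb i k) ∨ (∀ k, rd i k → ra i k) := by
    intro i
    by_contra hcon
    push Not at hcon
    obtain ⟨⟨j, hj, hj'⟩, ⟨k, hk, hk'⟩⟩ := hcon
    have h1 : ra i j := (dD i j hj).resolve_right hj'
    have h2 : rb i k := (dD i k hk).resolve_left hk'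
    rcases dD j k (Ed.trans (Ed.symm hj) hk) with h | h
    · exact hk' (Ea.trans h1 h)
    · exact hj' (Eb.trans h2 (Eb.symm h))
  have n1 : ∀ i, (∀ k, rc i k → ra i k) → ¬ (∀ k, rd i k → ra i k) := by
    intro i h1 h2
    obtain ⟨j, hj, hj'⟩ := eC i
    obtain ⟨k, hk, hk'⟩ := eD i
    rcases dA j k (Ea.trans (Ea.symm (h1 j hj)) (h2 k hk)) with h | h
    · exact hk' (Ec.trans hj h)
    · exact hj' (Ed.trans hk (Ed.symm h))
  have n2 : ∀ i, (∀ k, rc i k → rb i k) → ¬ (∀ k, rd i k → rb i k) := by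
    intro i h1 h2
    obtain ⟨j, hj, hj'⟩ := eC i
    obtain ⟨k, hk, hk'⟩ := eD i
    rcases dB j k (Eb.trans (Eb.symm (h1 j hj)) (h2 k hk)) with h | h
    · exact hk' (Ec.trans hj h)
    · exact hj' (Ed.trans hk (Ed.symm h))
  -- `I` and `Ig` are equivalent
  have i1 : ∀ i, (∀ k, rc i k → ra i k) → (∀ k, rd i k → rb i k) := fun i h =>
    (t2 i).resolve_right (n1 i h)
  have i2 : ∀ i, (∀ k, rd i k → rb i k) → (∀ k, rc i k → ra i k) := fun i h =>
    (t1 i).resolve_right fun h' => n2 i h' h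
  -- transfer
  have tr1 : ∀ i j, rc i j → (∀ k, rc i k → ra i k) → (∀ k, rc j k → ra j k) :=
    fun i j hij h k hjk => Ea.trans (Ea.symm (h j hij)) (h k (Ec.trans hij hjk))
  have tr2 : ∀ i j, rd i j → (∀ k, rd i k → rb i k) → (∀ k, rd j k → rb j k) :=
    fun i j hij h k hjk => Eb.trans (Eb.symm (h j hij)) (h k (Ed.trans hij hjk))
  have all : ∀ i j, (∀ k, rc i k → ra i k) → (∀ k, rc j k → ra j k) := by
    intro i j h
    obtain ⟨k, l, hk, hl, hkl⟩ := cC i j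
    exact tr1 l j (Ec.symm hl) (i2 l (tr2 k l hkl (i1 k (tr1 i k hk h))))
  by_cases hI : ∀ i, (∀ k, rc i k → ra i k)
  · left
    intro i j
    have a1 := hI i
    have a2 := i1 i a1
    refine ⟨⟨fun h => ?_, a1 j⟩, ⟨fun h => ?_, a2 j⟩⟩
    · rcases dA i j h with h' | h'
      · exact h'
      · exact (uR i j h (a2 j h')).1
    · rcases dB i j h with h' | h'
      · exact (uR i j (a1 j h') h).2
      · exact h'
  · right
    rw [not_forall] at hI
    obtain ⟨i0, hi0⟩ := hI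
    intro i j
    have b0 : ¬ (∀ k, rc i k → ra i k) := fun h => hi0 (all i i0 h)
    have b1 : (∀ k, rc i k → rb i k) := (t1 i).resolve_left b0
    have b2 : (∀ k, rd i k → ra i k) := (t2 i).resolve_left fun h => b0 (i2 i h)
    refine ⟨⟨fun h => ?_, b2 j⟩, ⟨fun h => ?_, b1 j⟩⟩
    · rcases dA i j h with h' | h'
      · exact (uR i j h (b1 j h')).2
      · exact h'
    · rcases dB i j h with h' | h'
      · exact h'
      · exact (uR i j (b2 j h') h).1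

/-- a nonzero functional killing two vectors -/
theorem kill_two_j5410 {Z : Type*} [NormedAddCommGroup Z] [NormedSpace ℂ Z]
    (hZ : ∃ v : Fin 3 → Z, LinearIndependent ℂ v) (u u' : Z) :
    ∃ g : Z →L[ℂ] ℂ, g ≠ 0 ∧ g u = 0 ∧ g u' = 0 := by
  classical
  obtain ⟨v, hv⟩ := hZ
  obtain ⟨S, hS⟩ : ∃ S : Submodule ℂ Z, S = Submodule.span ℂ (({u, u'} : Finset Z) : Set Z) :=
    ⟨_, rfl⟩
  have hfin : FiniteDimensional ℂ S := by rw [hS]; infer_instance
  have hne : S ≠ ⊤ := by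
    intro htop
    have hfd : Module.Finite ℂ Z := by
      rw [Module.finite_def, ← htop, hS]
      exact ⟨_, rfl⟩
    have h1 := hv.fintype_card_le_finrank
    rw [Fintype.card_fin, ← finrank_top ℂ Z, ← htop, hS] at h1
    have h2 := finrank_span_finset_le_card (R := ℂ) ({u, u'} : Finset Z)
    have h3 := Finset.card_le_two (a := u) (b := u')
    rw [Set.finrank] at h2
    omega
  obtain ⟨w, -, hw⟩ := SetLike.exists_of_lt (lt_top_iff_ne_top.2 hne)
  haveI hcl : IsClosed (S : Set Z) := S.closed_of_finiteDimensional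
  have hq : (Submodule.Quotient.mk w : Z ⧸ S) ≠ 0 := by
    rw [Ne, Submodule.Quotient.mk_eq_zero]
    exact hw
  obtain ⟨k, hk⟩ := exists_one_j5410 hq
  refine ⟨k.comp S.mkQL, ?_, ?_, ?_⟩
  · intro h0
    have := DFunLike.congr_fun h0 w
    have h1 : k (Submodule.Quotient.mk w) = 0 := this
    rw [hk] at h1
    exact one_ne_zero h1
  · show k (Submodule.Quotient.mk u) = 0
    have : (Submodule.Quotient.mk u : Z ⧸ S) = 0 := by
      rw [Submodule.Quotient.mk_eq_zero, hS]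
      exact Submodule.subset_span (by simp)
    rw [this, map_zero]
  · show k (Submodule.Quotient.mk u') = 0
    have : (Submodule.Quotient.mk u' : Z ⧸ S) = 0 := by
      rw [Submodule.Quotient.mk_eq_zero, hS]
      exact Submodule.subset_span (by simp)
    rw [this, map_zero]

theorem ex_fun_j5410 {Z : Type*} [NormedAddCommGroup Z] [NormedSpace ℂ Z]
    (hZ : ∃ v : Fin 3 → Z, LinearIndependent ℂ v) {u : Z} {g : Z →L[ℂ] ℂ} (h : Flag u g) :
    ∃ g', Flag u g' ∧ LinearIndependent ℂ ![g, g'] := by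
  obtain ⟨w, hw⟩ : ∃ v, g v ≠ 0 := by
    by_contra hcon
    push Not at hcon
    exact h.2.1 (ContinuousLinearMap.ext hcon)
  obtain ⟨g', h0, h1, h2⟩ := kill_two_j5410 hZ u w
  refine ⟨g', ⟨h.1, h0, h1⟩, ?_⟩
  by_contra hcon
  obtain ⟨c, hc⟩ := dep_smul h.2.1 hcon
  rw [hc, ContinuousLinearMap.smul_apply, smul_eq_mul] at h2
  apply h0
  rw [hc, (mul_eq_zero.1 h2).resolve_right hw]
  ext v
  simp

theorem ex_vec_j5410 {Z : Type*} [NormedAddCommGroup Z] [NormedSpace ℂ Z]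
    (hZ : ∃ v : Fin 3 → Z, LinearIndependent ℂ v) {u : Z} {g : Z →L[ℂ] ℂ} (h : Flag u g) :
    ∃ u', Flag u' g ∧ LinearIndependent ℂ ![u, u'] := by
  obtain ⟨g', hg', hli⟩ := ex_fun_j5410 hZ h
  obtain ⟨v, hv, hv'⟩ := dual_fun hli
  refine ⟨v, ⟨?_, h.2.1, hv⟩, ?_⟩
  · rintro rfl
    simp at hv'
  · by_contra hcon
    obtain ⟨c, hc⟩ := dep_smul h.1 hcon
    rw [hc, map_smul, hg'.2.2, smul_zero] at hv'
    exact zero_ne_one hv'

/-- parallel data have parallel data on the other side -/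
theorem RelN.par_left (hs : Function.Surjective φ) {x x' f f' u u' g g'} (h : Rel φ x f u g)
    (h' : Rel φ x' f' u' g') (hx : Flag x f) (hx' : Flag x' f') (hu : Flag u g) (hu' : Flag u' g')
    (h1 : ¬ LinearIndependent ℂ ![u, u']) (h2 : ¬ LinearIndependent ℂ ![g, g']) :
    ¬ LinearIndependent ℂ ![x, x'] ∧ ¬ LinearIndependent ℂ ![f, f'] := by
  obtain ⟨a, ha⟩ := dep_smul hu.1 h1
  obtain ⟨b, hb⟩ := dep_smul hu.2.1 h2
  exact RelP_j5410.par_j5410 (P := fun T R => φ T = R) (fun T => ⟨_, rfl⟩) (fun T R hTR => by rw [← hTR, h T])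
    (fun T R hTR => by rw [← hTR, h' T]) hx' ha hb

theorem RelN.par_right (hs : Function.Surjective φ) {x x' f f' u u' g g'} (h : Rel φ x f u g)
    (h' : Rel φ x' f' u' g') (hx : Flag x f) (hx' : Flag x' f') (hu : Flag u g) (hu' : Flag u' g')
    (h1 : ¬ LinearIndependent ℂ ![x, x']) (h2 : ¬ LinearIndependent ℂ ![f, f']) :
    ¬ LinearIndependent ℂ ![u, u'] ∧ ¬ LinearIndependent ℂ ![g, g'] := by
  obtain ⟨a, ha⟩ := dep_smul hx.1 h1
  obtain ⟨b, hb⟩ := dep_smul hx.2.1 h2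
  exact RelP_j5410.par_j5410 (P := fun R T => φ T = R) hs (fun R T hTR => by rw [← hTR, h T])
    (fun R T hTR => by rw [← hTR, h' T]) hu' ha hb

theorem typesN (hs : Function.Surjective φ)
    (hX : ∃ v : Fin 3 → X, LinearIndependent ℂ v) (hY : ∃ v : Fin 3 → Y, LinearIndependent ℂ v)
    (H1 : ∀ u g, Flag u g → ∃ x f, Flag x f ∧ Rel φ x f u g)
    (H2 : ∀ x f, Flag x f → ∃ u g, Flag u g ∧ Rel φ x f u g) :
    (∀ x f u g x' f' u' g', Flag x f → Flag u g → Flag x' f' → Flag u' g' → Rel φ x f u g →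
      Rel φ x' f' u' g' → (¬ LinearIndependent ℂ ![x, x'] ↔ ¬ LinearIndependent ℂ ![u, u']) ∧
        (¬ LinearIndependent ℂ ![f, f'] ↔ ¬ LinearIndependent ℂ ![g, g'])) ∨
    (∀ x f u g x' f' u' g', Flag x f → Flag u g → Flag x' f' → Flag u' g' → Rel φ x f u g →
      Rel φ x' f' u' g' → (¬ LinearIndependent ℂ ![x, x'] ↔ ¬ LinearIndependent ℂ ![g, g']) ∧
        (¬ LinearIndependent ℂ ![f, f'] ↔ ¬ LinearIndependent ℂ ![u, u'])) := by
  -- relational form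
  have toP : ∀ {x f u g}, Rel φ x f u g → RelP_j5410 (fun T R => φ T = R) x f u g :=
    fun h T R hTR => by rw [← hTR, h T]
  have toQ : ∀ {x f u g}, Rel φ x f u g → RelP_j5410 (fun R T => φ T = R) u g x f :=
    fun h R T hTR => by rw [← hTR, h T]
  have H1' : ∀ u g, Flag u g → ∃ x f, Flag x f ∧ RelP_j5410 (fun T R => φ T = R) x f u g := fun u g h =>
    let ⟨x, f, h1, h2⟩ := H1 u g h
    ⟨x, f, h1, toP h2⟩
  have H2' : ∀ x f, Flag x f → ∃ u g, Flag u g ∧ RelP_j5410 (fun R T => φ T = R) u g x f := fun x f h =>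
    let ⟨u, g, h1, h2⟩ := H2 x f h
    ⟨u, g, h1, toQ h2⟩
  have tL : ∀ T, ∃ R, (fun T R => φ T = R) T R := fun T => ⟨φ T, rfl⟩
  have tR : ∀ R, ∃ T, (fun T R => φ T = R) T R := hs
  let ι := {q : X × (X →L[ℂ] ℂ) × Y × (Y →L[ℂ] ℂ) //
    Flag q.1 q.2.1 ∧ Flag q.2.2.1 q.2.2.2 ∧ Rel φ q.1 q.2.1 q.2.2.1 q.2.2.2}
  have key := comb_j5410 (ι := ι) (ra := fun i j => Par_j5410 i.1.1 j.1.1) (rb := fun i j => Par_j5410 i.1.2.1 j.1.2.1)
    (rc := fun i j => Par_j5410 i.1.2.2.1 j.1.2.2.1) (rd := fun i j => Par_j5410 i.1.2.2.2 j.1.2.2.2)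
    ⟨fun i => par_of_smul_j5410 (c := 1) (one_smul _ _).symm, fun h => par_symm_j5410 h,
      fun {i j k} h h' => par_trans_j5410 i.2.1.1 j.2.1.1 h h'⟩
    ⟨fun i => par_of_smul_j5410 (c := 1) (one_smul _ _).symm, fun h => par_symm_j5410 h,
      fun {i j k} h h' => par_trans_j5410 i.2.1.2.1 j.2.1.2.1 h h'⟩
    ⟨fun i => par_of_smul_j5410 (c := 1) (one_smul _ _).symm, fun h => par_symm_j5410 h,
      fun {i j k} h h' => par_trans_j5410 i.2.2.1.1 j.2.2.1.1 h h'⟩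
    ⟨fun i => par_of_smul_j5410 (c := 1) (one_smul _ _).symm, fun h => par_symm_j5410 h,
      fun {i j k} h h' => par_trans_j5410 i.2.2.1.2.1 j.2.2.1.2.1 h h'⟩
    (fun i j h1 h2 => RelN.par_left hs i.2.2.2 j.2.2.2 i.2.1 j.2.1 i.2.2.1 j.2.2.1 h1 h2)
    (fun i j h1 h2 => RelN.par_right hs i.2.2.2 j.2.2.2 i.2.1 j.2.1 i.2.2.1 j.2.2.1 h1 h2)
    (fun i j h => RelP_j5410.dg_j5410 tL tR H1' (toP i.2.2.2) (toP j.2.2.2) j.2.1 i.2.2.1 j.2.2.1 h)
    (fun i j h => RelP_j5410.du_j5410 tL tR H1' (toP i.2.2.2) (toP j.2.2.2) j.2.1 i.2.2.1 j.2.2.1 h)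
    (fun i j h => RelP_j5410.dg_j5410 tR tL H2' (toQ i.2.2.2) (toQ j.2.2.2) j.2.2.1 i.2.1 j.2.1 h)
    (fun i j h => RelP_j5410.du_j5410 tR tL H2' (toQ i.2.2.2) (toQ j.2.2.2) j.2.2.1 i.2.1 j.2.1 h)
    (fun i => by
      obtain ⟨g', hg', hli⟩ := ex_fun_j5410 hY i.2.2.1
      obtain ⟨x, f, hxf, hrel⟩ := H1 _ _ hg'
      exact ⟨⟨(x, f, i.1.2.2.1, g'), hxf, hg', hrel⟩, par_of_smul_j5410 (c := 1) (one_smul _ _).symm,
        fun h => h hli⟩)
    (fun i => by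
      obtain ⟨u', hu', hli⟩ := ex_vec_j5410 hY i.2.2.1
      obtain ⟨x, f, hxf, hrel⟩ := H1 _ _ hu'
      exact ⟨⟨(x, f, u', i.1.2.2.2), hxf, hu', hrel⟩, par_of_smul_j5410 (c := 1) (one_smul _ _).symm,
        fun h => h hli⟩)
    (fun i j => by
      obtain ⟨g, h0, h1, h2⟩ := kill_two_j5410 hY i.1.2.2.1 j.1.2.2.1
      obtain ⟨x, f, hxf, hrel⟩ := H1 i.1.2.2.1 g ⟨i.2.2.1.1, h0, h1⟩
      obtain ⟨x', f', hxf', hrel'⟩ := H1 j.1.2.2.1 g ⟨j.2.2.1.1, h0, h2⟩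
      exact ⟨⟨(x, f, i.1.2.2.1, g), hxf, ⟨i.2.2.1.1, h0, h1⟩, hrel⟩,
        ⟨(x', f', j.1.2.2.1, g), hxf', ⟨j.2.2.1.1, h0, h2⟩, hrel'⟩,
        par_of_smul_j5410 (c := 1) (one_smul _ _).symm, par_of_smul_j5410 (c := 1) (one_smul _ _).symm,
        par_of_smul_j5410 (c := 1) (one_smul _ _).symm⟩)
  rcases key with key | key
  · left
    intro x f u g x' f' u' g' h1 h2 h3 h4 h5 h6
    exact key ⟨(x, f, u, g), h1, h2, h5⟩ ⟨(x', f', u', g'), h3, h4, h6⟩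
  · right
    intro x f u g x' f' u' g' h1 h2 h3 h4 h5 h6
    exact key ⟨(x, f, u, g), h1, h2, h5⟩ ⟨(x', f', u', g'), h3, h4, h6⟩

end


end j5410

-- part 5411
section j5411
section basic
variable {Z : Type*} [NormedAddCommGroup Z] [NormedSpace ℂ Z]

theorem exists_one_j5411 {z : Z} (hz : z ≠ 0) : ∃ k : Z →L[ℂ] ℂ, k z = 1 :=
  SeparatingDual.exists_eq_one hz

end basic


theorem dep2_j5411 {Z : Type*} [AddCommGroup Z] [Module ℂ Z] {x x' : Z} (hx : x ≠ 0) (hx' : x' ≠ 0)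
    (h : ¬ LinearIndependent ℂ ![x, x']) : ∃ c : ℂ, c ≠ 0 ∧ x' = c • x := by
  rw [LinearIndependent.pair_iff] at h
  push Not at h
  obtain ⟨s, t, hst, hne⟩ := h
  have ht : t ≠ 0 := by
    intro ht
    rw [ht, zero_smul, add_zero] at hst
    rcases smul_eq_zero.1 hst with h1 | h1
    · exact hne h1 ht
    · exact hx h1
  have hx2 : x' = (-(t⁻¹ * s)) • x := by
    have h2 : t • x' = -(s • x) := by
      rw [eq_neg_iff_add_eq_zero, add_comm]; exact hst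
    calc x' = t⁻¹ • (t • x') := by rw [smul_smul, inv_mul_cancel₀ ht, one_smul]
      _ = _ := by rw [h2, smul_neg, smul_smul, neg_smul]
  refine ⟨_, ?_, hx2⟩
  intro h0
  rw [h0, zero_smul] at hx2
  exact hx' hx2

theorem not_li_self_j5411 {Z : Type*} [AddCommGroup Z] [Module ℂ Z] (x : Z) :
    ¬ LinearIndependent ℂ ![x, x] := by
  rw [LinearIndependent.pair_iff]
  intro h
  have := h 1 (-1) (by simp)
  exact one_ne_zero this.1

section
variable {X Y V W : Type*} [NormedAddCommGroup X] [NormedSpace ℂ X]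
    [NormedAddCommGroup Y] [NormedSpace ℂ Y] [NormedAddCommGroup V] [NormedSpace ℂ V]
    [AddCommGroup W] [Module ℂ W]

theorem corr_exists (φ : (X →L[ℂ] X) → (Y →L[ℂ] Y)) (hY : ∃ v : Fin 2 → Y, LinearIndependent ℂ v)
    (J : W →ₗ[ℂ] (V →L[ℂ] ℂ)) (τ : (X →L[ℂ] X) → (V →L[ℂ] V))
    (hV : ∀ v : V, v ≠ 0 → ∃ η : W, η ≠ 0 ∧ J η v = 0)
    (hW : ∀ η : W, η ≠ 0 → ∃ v : V, v ≠ 0 ∧ J η v = 0)
    (A1 : ∀ u g, Flag u g → ∃ v η, v ≠ 0 ∧ η ≠ 0 ∧ J η v = 0 ∧
      ∀ T, ‖g (φ T u)‖ = ‖J η (τ T v)‖)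
    (A2 : ∀ v η, v ≠ 0 → η ≠ 0 → J η v = 0 → ∃ u g, Flag u g ∧ ∀ T, ‖g (φ T u)‖ = ‖J η (τ T v)‖)
    (A3 : ∀ v η u g v' η' u' g', v ≠ 0 → η ≠ 0 → J η v = 0 → Flag u g → v' ≠ 0 → η' ≠ 0 →
      J η' v' = 0 → Flag u' g' → (∀ T, ‖g (φ T u)‖ = ‖J η (τ T v)‖) →
      (∀ T, ‖g' (φ T u')‖ = ‖J η' (τ T v')‖) →
      (¬ LinearIndependent ℂ ![v, v'] ↔ ¬ LinearIndependent ℂ ![u, u']) ∧
        (¬ LinearIndependent ℂ ![η, η'] ↔ ¬ LinearIndependent ℂ ![g, g'])) :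
    ∃ U G, Corr φ J τ U G := by
  have hU : ∀ v : V, ∃ (η : W) (u : Y) (g : Y →L[ℂ] ℂ), v ≠ 0 →
      (η ≠ 0 ∧ J η v = 0 ∧ Flag u g ∧ ∀ T, ‖g (φ T u)‖ = ‖J η (τ T v)‖) := by
    intro v
    by_cases hv : v = 0
    · exact ⟨0, 0, 0, fun h => absurd hv h⟩
    · obtain ⟨η, h1, h2⟩ := hV v hv
      obtain ⟨u, g, h3, h4⟩ := A2 v η hv h1 h2
      exact ⟨η, u, g, fun _ => ⟨h1, h2, h3, h4⟩⟩
  have hG : ∀ η : W, ∃ (v : V) (u : Y) (g : Y →L[ℂ] ℂ), η ≠ 0 →
      (v ≠ 0 ∧ J η v = 0 ∧ Flag u g ∧ ∀ T, ‖g (φ T u)‖ = ‖J η (τ T v)‖) := by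
    intro η
    by_cases hη : η = 0
    · exact ⟨0, 0, 0, fun h => absurd hη h⟩
    · obtain ⟨v, h1, h2⟩ := hW η hη
      obtain ⟨u, g, h3, h4⟩ := A2 v η h1 hη h2
      exact ⟨v, u, g, fun _ => ⟨h1, h2, h3, h4⟩⟩
  choose ηf U gf hU using hU
  choose vf uf G hG using hG
  -- comparison with the chosen flags
  have cU : ∀ v η u g, v ≠ 0 → η ≠ 0 → J η v = 0 → Flag u g →
      (∀ T, ‖g (φ T u)‖ = ‖J η (τ T v)‖) → ∃ a : ℂ, a ≠ 0 ∧ U v = a • u := by
    intro v η u g hv hη hJ hF hT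
    obtain ⟨h1, h2, h3, h4⟩ := hU v hv
    have := (A3 v η u g v (ηf v) (U v) (gf v) hv hη hJ hF hv h1 h2 h3 hT h4).1.1 (not_li_self_j5411 v)
    exact dep2_j5411 hF.1 h3.1 this
  have cG : ∀ v η u g, v ≠ 0 → η ≠ 0 → J η v = 0 → Flag u g →
      (∀ T, ‖g (φ T u)‖ = ‖J η (τ T v)‖) → ∃ b : ℂ, b ≠ 0 ∧ G η = b • g := by
    intro v η u g hv hη hJ hF hT
    obtain ⟨h1, h2, h3, h4⟩ := hG η hη
    have := (A3 v η u g (vf η) η (uf η) (G η) hv hη hJ hF h1 hη h2 h3 hT h4).2.1 (not_li_self_j5411 η)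
    exact dep2_j5411 hF.2.1 h3.2.1 this
  obtain ⟨y, hy⟩ := hY
  have hy2 : ∀ s t : ℂ, s • y 0 + t • y 1 = 0 → s = 0 ∧ t = 0 := by
    have h : LinearIndependent ℂ ![y 0, y 1] := by
      have : ![y 0, y 1] = y := by
        funext i; fin_cases i <;> rfl
      rw [this]; exact hy
    exact LinearIndependent.pair_iff.1 h
  refine ⟨U, G, ?_, ?_, ?_, ?_, ?_, ?_⟩
  · exact fun v hv => (hU v hv).2.2.1.1
  · exact fun η hη => (hG η hη).2.2.1.2.1
  · intro v η hv hη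
    constructor
    · intro hJ
      obtain ⟨u, g, hF, hT⟩ := A2 v η hv hη hJ
      obtain ⟨a, -, ha⟩ := cU v η u g hv hη hJ hF hT
      obtain ⟨b, -, hb⟩ := cG v η u g hv hη hJ hF hT
      rw [ha, hb, map_smul]
      simp [hF.2.2]
    · intro h0
      obtain ⟨h1, h2, h3, h4⟩ := hU v hv
      obtain ⟨k1, k2, k3, k4⟩ := hG η hη
      have hF : Flag (U v) (G η) := ⟨h3.1, k3.2.1, h0⟩
      obtain ⟨v', η', hv', hη', hJ', hT'⟩ := A1 _ _ hF
      have e1 := (A3 v' η' (U v) (G η) v (ηf v) (U v) (gf v) hv' hη' hJ' hF hv h1 h2 h3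
        hT' h4).1.2 (not_li_self_j5411 _)
      have e2 := (A3 v' η' (U v) (G η) (vf η) η (uf η) (G η) hv' hη' hJ' hF k1 hη k2 k3
        hT' k4).2.2 (not_li_self_j5411 _)
      obtain ⟨a, -, ha⟩ := dep2_j5411 hv' hv e1
      obtain ⟨b, -, hb⟩ := dep2_j5411 hη' hη e2
      rw [ha, hb, map_smul, map_smul]
      simp [hJ']
  · intro v η hv hη hJ
    obtain ⟨u, g, hF, hT⟩ := A2 v η hv hη hJ
    obtain ⟨a, ha0, ha⟩ := cU v η u g hv hη hJ hF hT
    obtain ⟨b, hb0, hb⟩ := cG v η u g hv hη hJ hF hT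
    refine ⟨‖b‖ * ‖a‖, mul_pos (norm_pos_iff.2 hb0) (norm_pos_iff.2 ha0), fun T => ?_⟩
    rw [← hT T, ha, hb, map_smul, map_smul, norm_smul]
    have : (b • g) ((φ T) u) = b * g (φ T u) := by simp
    rw [this, norm_mul]
    ring
  · intro u hu
    have hw : ∃ w : Y, LinearIndependent ℂ ![u, w] := by
      by_contra hcon
      push Not at hcon
      obtain ⟨c, hc⟩ := dep_smul hu (hcon (y 0))
      obtain ⟨d, hd⟩ := dep_smul hu (hcon (y 1))
      have h0 : d • y 0 + (-c) • y 1 = 0 := by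
        rw [hc, hd, smul_smul, smul_smul, ← add_smul]
        have : d * c + -c * d = 0 := by ring
        rw [this, zero_smul]
      have h1 := hy2 _ _ h0
      have hc0 : c = 0 := by simpa using h1.2
      have h2 : (1 : ℂ) • y 0 + (0 : ℂ) • y 1 = 0 := by
        rw [hc, hc0]; simp
      exact one_ne_zero (hy2 _ _ h2).1
    obtain ⟨w, hw⟩ := hw
    obtain ⟨g, hg1, hg2⟩ := dual_vec hw
    have hF : Flag u g := ⟨hu, by rintro rfl; simp at hg2, hg1⟩
    obtain ⟨v, η, hv, hη, hJ, hT⟩ := A1 u g hF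
    obtain ⟨a, ha0, ha⟩ := cU v η u g hv hη hJ hF hT
    refine ⟨v, hv, a⁻¹, inv_ne_zero ha0, ?_⟩
    rw [ha, smul_smul, inv_mul_cancel₀ ha0, one_smul]
  · intro g hg
    have hw : ∃ u : Y, u ≠ 0 ∧ g u = 0 := by
      by_cases h0 : g (y 0) = 0
      · exact ⟨y 0, hy.ne_zero 0, h0⟩
      · refine ⟨g (y 1) • y 0 + (-g (y 0)) • y 1, ?_, ?_⟩
        · intro hc
          have := (hy2 _ _ hc).2
          exact h0 (by simpa using this)
        · rw [map_add, map_smul, map_smul, smul_eq_mul, smul_eq_mul]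
          ring
    obtain ⟨u, hu, hgu⟩ := hw
    have hF : Flag u g := ⟨hu, hg, hgu⟩
    obtain ⟨v, η, hv, hη, hJ, hT⟩ := A1 u g hF
    obtain ⟨b, hb0, hb⟩ := cG v η u g hv hη hJ hF hT
    refine ⟨η, hη, b⁻¹, inv_ne_zero hb0, ?_⟩
    rw [hb, smul_smul, inv_mul_cancel₀ hb0, one_smul]

end


end j5411

-- part 5450
section j5450
section basic
variable {Z : Type*} [NormedAddCommGroup Z] [NormedSpace ℂ Z]

theorem exists_one_j5450 {z : Z} (hz : z ≠ 0) : ∃ k : Z →L[ℂ] ℂ, k z = 1 :=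
  SeparatingDual.exists_eq_one hz

end basic

section
variable {X Y V W : Type*} [NormedAddCommGroup X] [NormedSpace ℂ X]
    [NormedAddCommGroup Y] [NormedSpace ℂ Y] [NormedAddCommGroup V] [NormedSpace ℂ V]
    [AddCommGroup W] [Module ℂ W]

/-- on a hyperplane the map `U` is induced by a (conjugate) linear map -/
theorem hyper [CompleteSpace V] {φ : (X →L[ℂ] X) → (Y →L[ℂ] Y)} (hs : Function.Surjective φ)
    {J : W →ₗ[ℂ] (V →L[ℂ] ℂ)} {τ : (X →L[ℂ] X) → (V →L[ℂ] V)} {U : V → Y}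
    {G : W → (Y →L[ℂ] ℂ)} (hC : Corr φ J τ U G) (η : W) (hη : η ≠ 0) (hJ : J η ≠ 0) :
    (∃ A : V →L[ℂ] Y, ∀ v, v ≠ 0 → J η v = 0 → ∃ c : ℂ, c ≠ 0 ∧ U v = c • A v) ∨
    (∃ A : V →SL[starRingEnd ℂ] Y, ∀ v, v ≠ 0 → J η v = 0 → ∃ c : ℂ, c ≠ 0 ∧ U v = c • A v) := by
  classical
  by_cases hK : ∀ v, J η v = 0 → v = 0
  · left
    exact ⟨0, fun v hv h0 => absurd (hK v h0) hv⟩
  push Not at hK
  obtain ⟨v1, hv1, hv1'⟩ := hK
  have hc : ∀ v : V, ∃ c : ℝ, 0 < c ∧ (v ≠ 0 → J η v = 0 → ∀ T, ‖G η (φ T (U v))‖ = c * ‖J η (τ T v)‖) := by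
    intro v
    by_cases h : v ≠ 0 ∧ J η v = 0
    · obtain ⟨c, h1, h2⟩ := hC.rel v η h.1 hη h.2
      exact ⟨c, h1, fun _ _ => h2⟩
    · exact ⟨1, one_pos, fun h1 h2 => absurd ⟨h1, h2⟩ h⟩
  choose c hcpos hcrel using hc
  obtain ⟨b, hb⟩ : ∃ b : Y, G η b = 1 := by
    have h1 := hC.G_ne η hη
    obtain ⟨b0, hb0⟩ : ∃ b0, G η b0 ≠ 0 := by
      by_contra hcon
      push Not at hcon
      exact h1 (ContinuousLinearMap.ext hcon)
    exact ⟨(G η b0)⁻¹ • b0, by rw [map_smul, smul_eq_mul, inv_mul_cancel₀ hb0]⟩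
  obtain ⟨v0, hv0⟩ : ∃ v : V, J η v = 1 := by
    obtain ⟨b0, hb0⟩ : ∃ b0, J η b0 ≠ 0 := by
      by_contra hcon
      push Not at hcon
      exact hJ (ContinuousLinearMap.ext hcon)
    exact ⟨(J η b0)⁻¹ • b0, by rw [map_smul, smul_eq_mul, inv_mul_cancel₀ hb0]⟩
  let K : Submodule ℂ V := LinearMap.ker (J η : V →ₗ[ℂ] ℂ)
  have hKc : IsClosed (K : Set V) := (J η).isClosed_ker
  haveI : CompleteSpace K := hKc.completeSpace_coe
  have hKmem : ∀ v, v ∈ K ↔ J η v = 0 := fun v => LinearMap.mem_ker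
  let W' : K → Y := fun v => if (v : V) = 0 then 0 else ((c v)⁻¹ : ℂ) • U v
  have hW' : ∀ g : Y →L[ℂ] ℂ, g (U v1) ≠ 0 → ∃ f : K →L[ℂ] ℂ, ∀ v, ‖g (W' v)‖ = ‖f v‖ := by
    intro g _
    obtain ⟨T, hT⟩ := hs (rk b g)
    refine ⟨((J η).comp (τ T)).comp K.subtypeL, fun v => ?_⟩
    by_cases h0 : (v : V) = 0
    · have hv0 : v = 0 := Subtype.ext h0
      subst hv0
      simp [W']
    · have h1 := hcrel v h0 ((hKmem v).1 v.2) T
      have h2 : G η (φ T (U v)) = g (U v) := by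
        rw [hT]
        simp [hb]
      rw [h2] at h1
      have h3 : W' v = ((c v)⁻¹ : ℂ) • U v := if_neg h0
      rw [h3, map_smul, norm_smul, h1]
      have h4 : ‖((c v)⁻¹ : ℂ)‖ = (c v)⁻¹ := by
        rw [norm_inv, Complex.norm_real, Real.norm_of_nonneg (hcpos v).le]
      rw [h4, ← mul_assoc, inv_mul_cancel₀ (hcpos v).ne', one_mul]
      rfl
  -- projection
  let P : V →L[ℂ] K := (ContinuousLinearMap.id ℂ V - (J η).smulRight v0).codRestrict K (by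
    intro v
    rw [hKmem]
    simp [hv0])
  have hP : ∀ v : K, P v = v := by
    intro v
    apply Subtype.ext
    have : J η (v : V) = 0 := (hKmem v).1 v.2
    simp [P, this]
  have hfin : ∀ v : V, v ≠ 0 → (hv : J η v = 0) → ∀ (c' : ℂ) (a : Y), ‖c'‖ = 1 →
      W' ⟨v, (hKmem v).2 hv⟩ = c' • a → ∃ c'' : ℂ, c'' ≠ 0 ∧ U v = c'' • a := by
    intro v hv0' hv c' a hc' h
    have h1 : W' ⟨v, (hKmem v).2 hv⟩ = ((c v)⁻¹ : ℂ) • U v := if_neg hv0'
    have h2 : ((c v : ℝ) : ℂ) ≠ 0 := by exact_mod_cast (hcpos v).ne'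
    have hc'0 : c' ≠ 0 := by
      intro h0; rw [h0] at hc'; simp at hc'
    refine ⟨(c v : ℂ) * c', mul_ne_zero h2 hc'0, ?_⟩
    rw [mul_smul, ← h, h1, smul_smul, mul_inv_cancel₀ h2, one_smul]
  rcases wigner W' (U v1) (hC.U_ne v1 hv1') hW' with ⟨A, hA⟩ | ⟨A, hA⟩
  · left
    refine ⟨A.comp P, fun v hv0' hv => ?_⟩
    obtain ⟨c', h1, h2⟩ := hA ⟨v, (hKmem v).2 hv⟩
    have h3 : (A.comp P) v = A ⟨v, (hKmem v).2 hv⟩ := by
      have := hP ⟨v, (hKmem v).2 hv⟩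
      rw [ContinuousLinearMap.comp_apply]
      exact congrArg A this
    rw [h3]
    exact hfin v hv0' hv c' _ h1 h2
  · right
    refine ⟨A.comp P, fun v hv0' hv => ?_⟩
    obtain ⟨c', h1, h2⟩ := hA ⟨v, (hKmem v).2 hv⟩
    have h3 : (A.comp P) v = A ⟨v, (hKmem v).2 hv⟩ := by
      have := hP ⟨v, (hKmem v).2 hv⟩
      rw [ContinuousLinearMap.comp_apply]
      exact congrArg A this
    rw [h3]
    exact hfin v hv0' hv c' _ h1 h2

end


end j5450

end Pool.Agent.Helper729.SRP
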