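import Pool.Agent.Helper729.SRP.P3

/-!
# Preservers of the spectral radius of products of operators, part 4
-/

set_option autoImplicit false
open Filter Topology Complex Set Metric
open scoped InnerProductSpace

namespace Pool.Agent.Helper729.SRP


-- part 5451
section j5451
section basic
variable {Z : Type*} [NormedAddCommGroup Z] [NormedSpace ℂ Z]

theorem exists_one_j5451 {z : Z} (hz : z ≠ 0) : ∃ k : Z →L[ℂ] ℂ, k z = 1 :=
  SeparatingDual.exists_eq_one hz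

end basic

section
variable {X Y V W : Type*} [NormedAddCommGroup X] [NormedSpace ℂ X]
    [NormedAddCommGroup Y] [NormedSpace ℂ Y] [NormedAddCommGroup V] [NormedSpace ℂ V]
    [AddCommGroup W] [Module ℂ W]

/-- images of sums -/
theorem corr_span {φ : (X →L[ℂ] X) → (Y →L[ℂ] Y)} {J : W →ₗ[ℂ] (V →L[ℂ] ℂ)}
    {τ : (X →L[ℂ] X) → (V →L[ℂ] V)} {U : V → Y} {G : W → (Y →L[ℂ] ℂ)} (hC : Corr φ J τ U G)
    {p q : V} (hp : p ≠ 0) (hq : q ≠ 0) (hpq : p + q ≠ 0)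
    (hU : LinearIndependent ℂ ![U p, U q]) : ∃ α β : ℂ, U (p + q) = α • U p + β • U q := by
  apply span_vec hU
  intro k hk1 hk2
  by_cases hk : k = 0
  · rw [hk]
    rfl
  · obtain ⟨η, hη, c, hc, rfl⟩ := hC.G_surj k hk
    rw [ContinuousLinearMap.smul_apply, smul_eq_mul] at hk1 hk2 ⊢
    have g1 : G η (U p) = 0 := (mul_eq_zero.1 hk1).resolve_left hc
    have g2 : G η (U q) = 0 := (mul_eq_zero.1 hk2).resolve_left hc
    have j1 := (hC.inc p η hp hη).2 g1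
    have j2 := (hC.inc q η hq hη).2 g2
    have j3 : J η (p + q) = 0 := by rw [map_add, j1, j2, add_zero]
    rw [(hC.inc (p + q) η hpq hη).1 j3, mul_zero]

theorem glue_norm_j5451
    {φ : (X →L[ℂ] X) → (Y →L[ℂ] Y)} {J : W →ₗ[ℂ] (V →L[ℂ] ℂ)}
    {τ : (X →L[ℂ] X) → (V →L[ℂ] V)} {U : V → Y} {G : W → (Y →L[ℂ] ℂ)} (hC : Corr φ J τ U G)
    (η0 η1 : W) (hη : LinearIndependent ℂ ![J η0, J η1]) {σ0 σ1 : ℂ →+* ℂ}
    [RingHomIsometric σ0]
    (A0 : V →SL[σ0] Y) (A1 : V →SL[σ1] Y)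
    (h0 : ∀ v, v ≠ 0 → J η0 v = 0 → ∃ c : ℂ, c ≠ 0 ∧ U v = c • A0 v)
    (h1 : ∀ v, v ≠ 0 → J η1 v = 0 → ∃ c : ℂ, c ≠ 0 ∧ U v = c • A1 v)
    (z0 : V) (hz0 : z0 ≠ 0) (hz00 : J η0 z0 = 0) (hz01 : J η1 z0 = 0) (hA : A1 z0 = A0 z0) :
    ∃ A : V →SL[σ0] Y, ∀ v, v ≠ 0 → ∃ c : ℂ, c ≠ 0 ∧ U v = c • A v := by
  have hη0 : η0 ≠ 0 := by
    rintro rfl
    have := hη.ne_zero 0
    simp at this
  have hη1 : η1 ≠ 0 := by
    rintro rfl
    have := hη.ne_zero 1
    simp at this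
  obtain ⟨p0, hp00, hp01⟩ := dual_fun hη
  obtain ⟨q0, hq01, hq00⟩ := dual_fun (li_swap hη)
  have a0ne : ∀ v, v ≠ 0 → J η0 v = 0 → A0 v ≠ 0 := by
    intro v hv hj h
    obtain ⟨c, hc, hU⟩ := h0 v hv hj
    rw [h, smul_zero] at hU
    exact hC.U_ne v hv hU
  have g0 : ∀ v, v ≠ 0 → ∀ η, η ≠ 0 → J η0 v = 0 → (G η (A0 v) = 0 ↔ J η v = 0) := by
    intro v hv η hη' hj
    obtain ⟨c, hc, hU⟩ := h0 v hv hj
    rw [hC.inc v η hv hη', hU, map_smul, smul_eq_mul, mul_eq_zero]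
    exact ⟨Or.inr, fun h => h.resolve_left hc⟩
  have g1 : ∀ v, v ≠ 0 → ∀ η, η ≠ 0 → J η1 v = 0 → (G η (A1 v) = 0 ↔ J η v = 0) := by
    intro v hv η hη' hj
    obtain ⟨c, hc, hU⟩ := h1 v hv hj
    rw [hC.inc v η hv hη', hU, map_smul, smul_eq_mul, mul_eq_zero]
    exact ⟨Or.inr, fun h => h.resolve_left hc⟩
  have ind3 : ∀ p q z, J η0 p = 0 → J η1 p ≠ 0 → J η1 q = 0 → J η0 q ≠ 0 → z ≠ 0 → J η0 z = 0 →
      J η1 z = 0 → ∀ a b c : ℂ, a • A0 p + b • A1 q + c • A0 z = 0 → a = 0 ∧ b = 0 ∧ c = 0 := by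
    intro p q z hp0 hp1 hq1 hq0' hz hz0' hz1' a b c h
    have hp : p ≠ 0 := by
      rintro rfl
      exact hp1 (map_zero _)
    have hq : q ≠ 0 := by
      rintro rfl
      exact hq0' (map_zero _)
    have hb : b = 0 := by
      have h2 := congrArg (G η0) h
      rw [map_add, map_add, map_smul, map_smul, map_smul, map_zero, (g0 p hp η0 hη0 hp0).2 hp0,
        (g0 z hz η0 hη0 hz0').2 hz0', smul_zero, smul_zero, zero_add, add_zero, smul_eq_mul,
        mul_eq_zero] at h2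
      exact h2.resolve_right (fun h3 => hq0' ((g1 q hq η0 hη0 hq1).1 h3))
    have ha : a = 0 := by
      have h2 := congrArg (G η1) h
      rw [hb, zero_smul, add_zero, map_add, map_smul, map_smul, map_zero,
        (g0 z hz η1 hη1 hz0').2 hz1', smul_zero, add_zero, smul_eq_mul,
        mul_eq_zero] at h2
      exact h2.resolve_right (fun h3 => hp1 ((g0 p hp η1 hη1 hp0).1 h3))
    rw [ha, hb, zero_smul, zero_smul, zero_add, zero_add, smul_eq_zero] at h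
    exact ⟨ha, hb, h.resolve_right (a0ne z hz hz0')⟩
  have sp : ∀ p q, J η0 p = 0 → J η1 p ≠ 0 → J η1 q = 0 → J η0 q ≠ 0 →
      ∃ α β : ℂ, U (p + q) = α • A0 p + β • A1 q := by
    intro p q hp0 hp1 hq1 hq0'
    have hp : p ≠ 0 := by
      rintro rfl
      exact hp1 (map_zero _)
    have hq : q ≠ 0 := by
      rintro rfl
      exact hq0' (map_zero _)
    have hpq : p + q ≠ 0 := by
      intro h
      apply hp1
      have := congrArg (J η1) h
      rwa [map_add, hq1, add_zero, map_zero] at this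
    have hli : LinearIndependent ℂ ![U p, U q] := by
      rw [LinearIndependent.pair_iff]
      intro s t hst
      have t0 : t = 0 := by
        have h2 := congrArg (G η0) hst
        rw [map_add, map_smul, map_smul, map_zero, (hC.inc p η0 hp hη0).1 hp0, smul_zero, zero_add,
          smul_eq_mul, mul_eq_zero] at h2
        exact h2.resolve_right (fun h3 => hq0' ((hC.inc q η0 hq hη0).2 h3))
      have s0 : s = 0 := by
        have h2 := congrArg (G η1) hst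
        rw [map_add, map_smul, map_smul, map_zero, (hC.inc q η1 hq hη1).1 hq1, smul_zero, add_zero,
          smul_eq_mul, mul_eq_zero] at h2
        exact h2.resolve_right (fun h3 => hp1 ((hC.inc p η1 hp hη1).2 h3))
      exact ⟨s0, t0⟩
    obtain ⟨α, β, h⟩ := corr_span hC hp hq hpq hli
    obtain ⟨c, _, hc2⟩ := h0 p hp hp0
    obtain ⟨c', _, hc2'⟩ := h1 q hq hq1
    refine ⟨α * c, β * c', ?_⟩
    rw [h, hc2, hc2', smul_smul, smul_smul]
  -- main comparison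
  have cmp : ∀ p q z, J η0 p = 0 → J η1 p ≠ 0 → J η1 q = 0 → J η0 q ≠ 0 → z ≠ 0 → J η0 z = 0 →
      J η1 z = 0 → ∀ α β : ℂ, U (p + q) = α • A0 p + β • A1 q → ∀ c : ℂ, A1 z = c • A0 z →
      α = β * c := by
    intro p q z hp0 hp1 hq1 hq0' hz hz0' hz1' α β hαβ c hc
    obtain ⟨γ, δ, hγδ⟩ := sp (p + z) (q - z) (by rw [map_add, hp0, hz0', add_zero])
      (by rw [map_add, hz1', add_zero]; exact hp1) (by rw [map_sub, hq1, hz1', sub_zero])
      (by rw [map_sub, hz0', sub_zero]; exact hq0')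
    have e : p + z + (q - z) = p + q := by abel
    rw [e, hαβ, map_add, map_sub, hc] at hγδ
    have h3 : (γ - α) • A0 p + (δ - β) • A1 q + (γ - δ * c) • A0 z = 0 := by
      have h4 : α • A0 p + β • A1 q - (γ • (A0 p + A0 z) + δ • (A1 q - c • A0 z)) = 0 := by
        rw [hγδ, sub_self]
      have h5 : (γ - α) • A0 p + (δ - β) • A1 q + (γ - δ * c) • A0 z =
          -(α • A0 p + β • A1 q - (γ • (A0 p + A0 z) + δ • (A1 q - c • A0 z))) := by
        module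
      rw [h5, h4, neg_zero]
    obtain ⟨e1, e2, e3⟩ := ind3 p q z hp0 hp1 hq1 hq0' hz hz0' hz1' _ _ _ h3
    have e1' : γ = α := sub_eq_zero.1 e1
    have e2' : δ = β := sub_eq_zero.1 e2
    rw [e1', e2'] at e3
    exact sub_eq_zero.1 e3
  have sp2 : ∀ p q, J η0 p = 0 → J η1 p ≠ 0 → J η1 q = 0 → J η0 q ≠ 0 →
      ∃ α : ℂ, α ≠ 0 ∧ U (p + q) = α • (A0 p + A1 q) := by
    intro p q hp0 hp1 hq1 hq0'
    obtain ⟨α, β, h⟩ := sp p q hp0 hp1 hq1 hq0'
    have h2 := cmp p q z0 hp0 hp1 hq1 hq0' hz0 hz00 hz01 α β h 1 (by rw [one_smul, hA])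
    rw [mul_one] at h2
    refine ⟨α, ?_, ?_⟩
    · intro hα
      have hpq : p + q ≠ 0 := by
        intro h
        apply hp1
        have := congrArg (J η1) h
        rwa [map_add, hq1, add_zero, map_zero] at this
      apply hC.U_ne _ hpq
      rw [h, ← h2, hα, zero_smul, zero_smul, add_zero]
    · rw [h, ← h2, smul_add]
  have onK : ∀ z, J η0 z = 0 → J η1 z = 0 → A1 z = A0 z := by
    intro z hz0' hz1'
    by_cases hz : z = 0
    · rw [hz, map_zero, map_zero]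
    · obtain ⟨c, hc, hU⟩ := h0 z hz hz0'
      obtain ⟨c', hc', hU'⟩ := h1 z hz hz1'
      have hA1 : A1 z = (c'⁻¹ * c) • A0 z := by
        rw [mul_smul, ← hU, hU', smul_smul, inv_mul_cancel₀ hc', one_smul]
      have hp1 : J η1 p0 ≠ 0 := by rw [hp01]; exact one_ne_zero
      have hq0' : J η0 q0 ≠ 0 := by rw [hq00]; exact one_ne_zero
      obtain ⟨α, hα, h⟩ := sp2 p0 q0 hp00 hp1 hq01 hq0'
      rw [smul_add] at h
      have h2 := cmp p0 q0 z hp00 hp1 hq01 hq0' hz hz0' hz1' α α h _ hA1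
      have h3 : c'⁻¹ * c = 1 := by
        have h4 : α * (c'⁻¹ * c) = α * 1 := by rw [← h2, mul_one]
        exact mul_left_cancel₀ hα h4
      rw [hA1, h3, one_smul]
  have hσ : ∀ t, σ1 t = σ0 t := by
    intro t
    have h2 := onK (t • z0) (by rw [map_smul, hz00, smul_zero]) (by rw [map_smul, hz01, smul_zero])
    rw [ContinuousLinearMap.map_smulₛₗ, ContinuousLinearMap.map_smulₛₗ, hA, ← sub_eq_zero, ← sub_smul,
      smul_eq_zero] at h2
    exact sub_eq_zero.1 (h2.resolve_right (a0ne z0 hz0 hz00))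
  -- the glued map
  obtain ⟨B, hB⟩ : ∃ B : V →SL[σ0] Y, ∀ v, B v = σ0 (J η0 v) • A1 q0 := by
    refine ⟨LinearMap.mkContinuous
      ({ toFun := fun v => σ0 (J η0 v) • A1 q0
         map_add' := ?_
         map_smul' := ?_ } : V →ₛₗ[σ0] Y) (‖J η0‖ * ‖A1 q0‖) ?_, ?_⟩
    · intro x y
      show σ0 (J η0 (x + y)) • A1 q0 = σ0 (J η0 x) • A1 q0 + σ0 (J η0 y) • A1 q0
      rw [map_add, map_add, add_smul]
    · intro c x
      show σ0 (J η0 (c • x)) • A1 q0 = σ0 c • (σ0 (J η0 x) • A1 q0)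
      rw [map_smul, smul_eq_mul, map_mul, mul_smul]
    · intro x
      show ‖σ0 (J η0 x) • A1 q0‖ ≤ ‖J η0‖ * ‖A1 q0‖ * ‖x‖
      rw [norm_smul, RingHomIsometric.norm_map]
      have h2 := (J η0).le_opNorm x
      calc ‖J η0 x‖ * ‖A1 q0‖ ≤ (‖J η0‖ * ‖x‖) * ‖A1 q0‖ :=
            mul_le_mul_of_nonneg_right h2 (norm_nonneg _)
        _ = _ := by ring
    · intro v
      rfl
  obtain ⟨P, hP⟩ : ∃ P : V →L[ℂ] V, ∀ v, P v = v - J η0 v • q0 :=
    ⟨ContinuousLinearMap.id ℂ V - (J η0).smulRight q0, fun v => rfl⟩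
  refine ⟨A0.comp P + B, ?_⟩
  intro v hv
  have hAv : (A0.comp P + B) v = A0 (v - J η0 v • q0) + σ0 (J η0 v) • A1 q0 := by
    rw [ContinuousLinearMap.add_apply, ContinuousLinearMap.comp_apply, hP, hB]
  rw [hAv]
  by_cases hs : J η0 v = 0
  · rw [hs, zero_smul, sub_zero, map_zero, zero_smul, add_zero]
    exact h0 v hv hs
  · obtain ⟨s, hs'⟩ : ∃ s, s = J η0 v := ⟨_, rfl⟩
    obtain ⟨p', hp'⟩ : ∃ p', p' = v - J η0 v • q0 := ⟨_, rfl⟩
    rw [← hp']
    have hp'0 : J η0 p' = 0 := by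
      rw [hp', map_sub, map_smul, hq00, smul_eq_mul, mul_one, sub_self]
    have hv' : v = p' + s • q0 := by
      rw [hp', hs']
      abel
    rw [← hs'] at hs ⊢
    by_cases hj : J η1 p' = 0
    · have hv1 : J η1 v = 0 := by
        rw [hv', map_add, hj, map_smul, hq01, smul_zero, add_zero]
      obtain ⟨c, hc, hU⟩ := h1 v hv hv1
      refine ⟨c, hc, ?_⟩
      rw [hU]
      congr 1
      conv_lhs => rw [hv']
      rw [map_add, ContinuousLinearMap.map_smulₛₗ, onK p' hp'0 hj, hσ]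
    · obtain ⟨α, hα, h⟩ := sp2 p' (s • q0) hp'0 hj (by rw [map_smul, hq01, smul_zero])
        (by rw [map_smul, hq00, smul_eq_mul, mul_one]; exact hs)
      refine ⟨α, hα, ?_⟩
      rw [← hv', ContinuousLinearMap.map_smulₛₗ, hσ] at h
      exact h

/-- gluing the maps of two hyperplanes -/
theorem glue (hV : ∃ v : Fin 3 → V, LinearIndependent ℂ v)
    {φ : (X →L[ℂ] X) → (Y →L[ℂ] Y)} {J : W →ₗ[ℂ] (V →L[ℂ] ℂ)}
    {τ : (X →L[ℂ] X) → (V →L[ℂ] V)} {U : V → Y} {G : W → (Y →L[ℂ] ℂ)} (hC : Corr φ J τ U G)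
    (η0 η1 : W) (hη : LinearIndependent ℂ ![J η0, J η1]) {σ0 σ1 : ℂ →+* ℂ}
    [RingHomIsometric σ0]
    (A0 : V →SL[σ0] Y) (A1 : V →SL[σ1] Y)
    (h0 : ∀ v, v ≠ 0 → J η0 v = 0 → ∃ c : ℂ, c ≠ 0 ∧ U v = c • A0 v)
    (h1 : ∀ v, v ≠ 0 → J η1 v = 0 → ∃ c : ℂ, c ≠ 0 ∧ U v = c • A1 v) :
    ∃ A : V →SL[σ0] Y, ∀ v, v ≠ 0 → ∃ c : ℂ, c ≠ 0 ∧ U v = c • A v := by
  -- a common kernel vector
  obtain ⟨z0, hz0, hz00, hz01⟩ : ∃ z0 : V, z0 ≠ 0 ∧ J η0 z0 = 0 ∧ J η1 z0 = 0 := by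
    obtain ⟨v, hv⟩ := hV
    obtain ⟨L, hL⟩ : ∃ L : (Fin 3 → ℂ) →ₗ[ℂ] (Fin 2 → ℂ), ∀ c, L c =
        ![J η0 (∑ i, c i • v i), J η1 (∑ i, c i • v i)] := by
      refine ⟨{ toFun := fun c => ![J η0 (∑ i, c i • v i), J η1 (∑ i, c i • v i)], map_add' := ?_,
                map_smul' := ?_ }, fun c => rfl⟩
      · intro x y
        have e : ∑ i, (x + y) i • v i = ∑ i, x i • v i + ∑ i, y i • v i := by
          rw [← Finset.sum_add_distrib]
          apply Finset.sum_congr rfl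
          intro i _
          rw [Pi.add_apply, add_smul]
        rw [e, map_add, map_add]
        ext i
        fin_cases i <;> simp
      · intro a x
        have e : ∑ i, (a • x) i • v i = a • ∑ i, x i • v i := by
          rw [Finset.smul_sum]
          apply Finset.sum_congr rfl
          intro i _
          rw [Pi.smul_apply, smul_eq_mul, mul_smul]
        rw [e, map_smul, map_smul]
        ext i
        fin_cases i <;> simp
    have hker : LinearMap.ker L ≠ ⊥ := by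
      apply LinearMap.ker_ne_bot_of_finrank_lt
      rw [Module.finrank_fin_fun, Module.finrank_fin_fun]
      norm_num
    obtain ⟨c, hc, hc0⟩ := (Submodule.ne_bot_iff _).1 hker
    rw [LinearMap.mem_ker, hL] at hc
    refine ⟨∑ i, c i • v i, ?_, ?_, ?_⟩
    · intro h
      apply hc0
      funext i
      exact Fintype.linearIndependent_iff.1 hv c h i
    · have := congrFun hc 0
      simpa using this
    · have := congrFun hc 1
      simpa using this
  obtain ⟨c, hc, hU⟩ := h0 z0 hz0 hz00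
  obtain ⟨c', hc', hU'⟩ := h1 z0 hz0 hz01
  apply glue_norm_j5451 hC η0 η1 hη A0 ((c⁻¹ * c') • A1) h0 ?_ z0 hz0 hz00 hz01 ?_
  · intro v hv hj
    obtain ⟨e, he, hUe⟩ := h1 v hv hj
    refine ⟨e * (c⁻¹ * c')⁻¹, ?_, ?_⟩
    · apply mul_ne_zero he
      apply inv_ne_zero
      exact mul_ne_zero (inv_ne_zero hc) hc'
    · rw [hUe, ContinuousLinearMap.smul_apply, smul_smul, mul_assoc, inv_mul_cancel₀
        (mul_ne_zero (inv_ne_zero hc) hc'), mul_one]
  · rw [ContinuousLinearMap.smul_apply, mul_smul, ← hU', hU, smul_smul, inv_mul_cancel₀ hc, one_smul]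

end


end j5451

-- part 5452
section j5452
section srbasic
variable {X : Type*} [NormedAddCommGroup X] [NormedSpace ℂ X]

theorem sr_nonneg_j5452 (T : X →L[ℂ] X) : 0 ≤ sr T := ENNReal.toReal_nonneg

variable [CompleteSpace X]

end srbasic

section basic
variable {Z : Type*} [NormedAddCommGroup Z] [NormedSpace ℂ Z]

theorem exists_one_j5452 {z : Z} (hz : z ≠ 0) : ∃ k : Z →L[ℂ] ℂ, k z = 1 :=
  SeparatingDual.exists_eq_one hz

end basic

section JF
variable {X : Type*} [NormedAddCommGroup X] [NormedSpace ℂ X] [CompleteSpace X]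

end JF

section
variable {X Y : Type*} [NormedAddCommGroup X] [NormedSpace ℂ X] [CompleteSpace X]
    [NormedAddCommGroup Y] [NormedSpace ℂ Y] [CompleteSpace Y]

/-- three flags pairwise crossing -/
theorem three_flags (hY : ∃ v : Fin 2 → Y, LinearIndependent ℂ v) (u : Y) (g : Y →L[ℂ] ℂ)
    (h : Flag u g) : ∃ (v w : Y) (k l : Y →L[ℂ] ℂ), Flag v k ∧ Flag w l ∧ g v ≠ 0 ∧ k u ≠ 0 ∧
      g w ≠ 0 ∧ l u ≠ 0 ∧ k w ≠ 0 ∧ l v ≠ 0 := by
  obtain ⟨hu, hg, hgu⟩ := h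
  obtain ⟨v1, hv1⟩ : ∃ v1 : Y, g v1 = 1 := by
    obtain ⟨y, hy⟩ : ∃ y, g y ≠ 0 := by
      by_contra hc
      push Not at hc
      exact hg (ContinuousLinearMap.ext hc)
    exact ⟨(g y)⁻¹ • y, by rw [map_smul, smul_eq_mul, inv_mul_cancel₀ hy]⟩
  obtain ⟨f0, hf0⟩ := exists_one_j5452 hu
  have e1 : (f0 - f0 v1 • g) u = 1 := by simp [hf0, hgu]
  have e2 : (f0 - f0 v1 • g) v1 = 0 := by simp [hv1]
  set k := f0 - f0 v1 • g with hk
  refine ⟨v1, u + v1, k, k - g, ⟨?_, ?_, e2⟩, ⟨?_, ?_, ?_⟩, ?_, ?_, ?_, ?_, ?_, ?_⟩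
  · intro h0; rw [h0, map_zero] at hv1; exact zero_ne_one hv1
  · intro h0; rw [h0] at e1; simp at e1
  · intro h0
    have : g (u + v1) = 1 := by rw [map_add, hgu, hv1, zero_add]
    rw [h0, map_zero] at this; exact zero_ne_one this
  · intro h0
    have : (k - g) u = 1 := by rw [ContinuousLinearMap.sub_apply, e1, hgu, sub_zero]
    rw [h0] at this; simp at this
  · rw [ContinuousLinearMap.sub_apply, map_add, map_add, e1, e2, hgu, hv1]; ring
  · rw [hv1]; exact one_ne_zero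
  · rw [e1]; exact one_ne_zero
  · rw [map_add, hgu, hv1, zero_add]; exact one_ne_zero
  · rw [ContinuousLinearMap.sub_apply, e1, hgu, sub_zero]; exact one_ne_zero
  · rw [map_add, e1, e2, add_zero]; exact one_ne_zero
  · rw [ContinuousLinearMap.sub_apply, e2, hv1, zero_sub]; exact neg_ne_zero.2 one_ne_zero

theorem flag_const_j5452 {ε : ℂ} (hε : ε = 1 ∨ ε = -1)
    (φ ρ : (X →L[ℂ] X) → (Y →L[ℂ] Y)) (hs : Function.Surjective φ) (hρ : Function.Surjective ρ)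
    (h : ∀ T S, JF ε (φ T) (φ S) = JF ε T S) (hρJ : ∀ T S, JF ε (ρ T) (ρ S) = JF ε T S)
    {u v : Y} {g l : Y →L[ℂ] ℂ} (hug : Flag u g) (hvl : Flag v l) (hgv : g v ≠ 0) (hlu : l u ≠ 0)
    {c c' : ℝ} (hc : ∀ T, ‖g (φ T u)‖ = c * ‖g (ρ T u)‖)
    (hc' : ∀ T, ‖l (φ T v)‖ = c' * ‖l (ρ T v)‖) : c * c' = 1 := by
  obtain ⟨T, hT⟩ := hρ (rk v l)
  obtain ⟨S, hS⟩ := hs (rk u g)
  have h1 : JF ε (φ T) (φ S) = c * (‖l u‖ * ‖g v‖) := by
    rw [hS, JF_flag hε _ hug.2.2, hc T, hT]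
    simp [rk]
  have h2 : JF ε (φ T) (φ S) = ‖l (ρ S v)‖ := by
    rw [h, ← hρJ, JF_symm hε, hT, JF_flag hε _ hvl.2.2]
  have h3 : c' * ‖l (ρ S v)‖ = ‖g v‖ * ‖l u‖ := by
    rw [← hc' S, hS]
    simp [rk]
  have hp : 0 < ‖g v‖ * ‖l u‖ := mul_pos (norm_pos_iff.2 hgv) (norm_pos_iff.2 hlu)
  have h4 : (c * c') * (‖g v‖ * ‖l u‖) = 1 * (‖g v‖ * ‖l u‖) := by
    rw [one_mul]
    calc (c * c') * (‖g v‖ * ‖l u‖) = c' * (c * (‖l u‖ * ‖g v‖)) := by ring
      _ = c' * ‖l (ρ S v)‖ := by rw [← h1, h2]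
      _ = _ := h3
  exact mul_right_cancel₀ hp.ne' h4

/-- if the flag functionals agree up to constants with those of a model map, then `φ` is the model
map up to phases and scalars -/
theorem phase_model {ε : ℂ} (hε : ε = 1 ∨ ε = -1)
    (hY : ∃ v : Fin 2 → Y, LinearIndependent ℂ v)
    (φ ρ : (X →L[ℂ] X) → (Y →L[ℂ] Y)) (hs : Function.Surjective φ) (hρ : Function.Surjective ρ)
    (h : ∀ T S, JF ε (φ T) (φ S) = JF ε T S) (hρJ : ∀ T S, JF ε (ρ T) (ρ S) = JF ε T S)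
    (hc : ∀ u g, Flag u g → ∃ c : ℝ, 0 < c ∧ ∀ T, ‖g (φ T u)‖ = c * ‖g (ρ T u)‖) (T : X →L[ℂ] X) :
    ∃ θ d : ℂ, ‖θ‖ = 1 ∧ φ T = θ • ρ T + d • 1 := by
  apply phase_of_flags
  intro u g hug
  obtain ⟨v, w, k, l, hvk, hwl, h1, h2, h3, h4, h5, h6⟩ := three_flags hY u g hug
  obtain ⟨c1, hc1, e1⟩ := hc u g hug
  obtain ⟨c2, hc2, e2⟩ := hc v k hvk
  obtain ⟨c3, hc3, e3⟩ := hc w l hwl
  have p12 := flag_const_j5452 hε φ ρ hs hρ h hρJ hug hvk h1 h2 e1 e2
  have p13 := flag_const_j5452 hε φ ρ hs hρ h hρJ hug hwl h3 h4 e1 e3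
  have p23 := flag_const_j5452 hε φ ρ hs hρ h hρJ hvk hwl h5 h6 e2 e3
  have hc1' : c1 = 1 := by
    have q : c1 * c1 = 1 := by
      calc c1 * c1 = (c1 * c1) * (c2 * c3) := by rw [p23, mul_one]
        _ = (c1 * c2) * (c1 * c3) := by ring
        _ = 1 := by rw [p12, p13, mul_one]
    nlinarith
  rw [e1 T, hc1', one_mul]

end


end j5452

-- part 5559
section j5559
section srbasic
variable {X : Type*} [NormedAddCommGroup X] [NormedSpace ℂ X]

theorem sr_nonneg_j5559 (T : X →L[ℂ] X) : 0 ≤ sr T := ENNReal.toReal_nonneg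

variable [CompleteSpace X]

end srbasic

section basic
variable {Z : Type*} [NormedAddCommGroup Z] [NormedSpace ℂ Z]

theorem exists_one_j5559 {z : Z} (hz : z ≠ 0) : ∃ k : Z →L[ℂ] ℂ, k z = 1 :=
  SeparatingDual.exists_eq_one hz

end basic

section JF
variable {X : Type*} [NormedAddCommGroup X] [NormedSpace ℂ X] [CompleteSpace X]

end JF

section cd
variable {X Y : Type*} [NormedAddCommGroup X] [NormedSpace ℂ X] [CompleteSpace X]
  [NormedAddCommGroup Y] [NormedSpace ℂ Y] [CompleteSpace Y]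

end cd

section
variable {X Y V W : Type*} [NormedAddCommGroup X] [NormedSpace ℂ X] [CompleteSpace X]
    [NormedAddCommGroup Y] [NormedSpace ℂ Y] [CompleteSpace Y]
    [NormedAddCommGroup V] [NormedSpace ℂ V]
    [AddCommGroup W] [Module ℂ W]

/-- the ring homomorphism as a semilinear map -/
noncomputable def sgL_j5559 (σ : ℂ →+* ℂ) [RingHomIsometric σ] : ℂ →SL[σ] ℂ :=
  LinearMap.mkContinuous (σ := σ)
    { toFun := σ, map_add' := map_add σ, map_smul' := fun a b => by simp } 1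
    (fun x => by simp)

theorem sgL_apply_j5559 (σ : ℂ →+* ℂ) [RingHomIsometric σ] (z : ℂ) : sgL_j5559 σ z = σ z := rfl

/-- functionals with nested kernels are proportional -/
theorem prop_of_ker_j5559 {Z : Type*} [NormedAddCommGroup Z] [NormedSpace ℂ Z] {f g : Z →L[ℂ] ℂ}
    (hf : f ≠ 0) (h : ∀ v, f v = 0 → g v = 0) : ∃ c : ℂ, g = c • f := by
  refine dep_smul hf fun hli => ?_
  obtain ⟨v, hv, hv'⟩ := dual_fun hli
  rw [h v hv] at hv'
  exact zero_ne_one hv'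

theorem ex_ne_j5559 {Z : Type*} [NormedAddCommGroup Z] [NormedSpace ℂ Z] {f : Z →L[ℂ] ℂ}
    (hf : f ≠ 0) : ∃ v, f v ≠ 0 := by
  by_contra hcon
  push Not at hcon
  exact hf (ContinuousLinearMap.ext hcon)

theorem struct_aux [CompleteSpace V] {ε : ℂ} (hε : ε = 1 ∨ ε = -1)
    (hY : ∃ v : Fin 2 → Y, LinearIndependent ℂ v)
    {φ : (X →L[ℂ] X) → (Y →L[ℂ] Y)} (hs : Function.Surjective φ)
    (h : ∀ T S, JF ε (φ T) (φ S) = JF ε T S)
    {J : W →ₗ[ℂ] (V →L[ℂ] ℂ)} {τ : (X →L[ℂ] X) → (V →L[ℂ] V)}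
    (hτs : Function.Surjective J → Function.Surjective τ)
    (hτJ : ∀ T S, JF ε (τ T) (τ S) = JF ε T S)
    {U : V → Y} {G : W → (Y →L[ℂ] ℂ)} (hC : Corr φ J τ U G)
    {σ : ℂ →+* ℂ} [RingHomInvPair σ σ] [RingHomIsometric σ]
    (A : V →SL[σ] Y) (hA : ∀ v, v ≠ 0 → ∃ c : ℂ, c ≠ 0 ∧ U v = c • A v) :
    Function.Surjective J ∧ ∃ B : V ≃SL[σ] Y, ∀ T, ∃ θ d : ℂ, ‖θ‖ = 1 ∧
      ∀ y, φ T y = θ • B (τ T (B.symm y)) + d • y := by
  have hσσ : ∀ z : ℂ, σ (σ z) = z := fun z => RingHomInvPair.comp_apply_eq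
  have hσ0 : ∀ z : ℂ, σ z = 0 → z = 0 := fun z hz => by rw [← hσσ z, hz, map_zero]
  have hinj : ∀ v, A v = 0 → v = 0 := by
    intro v hv
    by_contra hne
    obtain ⟨c, -, hc⟩ := hA v hne
    exact hC.U_ne v hne (by rw [hc, hv, smul_zero])
  have hsurj : ∀ y, ∃ v, A v = y := by
    intro y
    rcases eq_or_ne y 0 with rfl | hy
    · exact ⟨0, map_zero _⟩
    · obtain ⟨v, hv, c, -, hc⟩ := hC.U_surj y hy
      obtain ⟨c', -, hc'⟩ := hA v hv
      refine ⟨σ (c * c') • v, ?_⟩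
      rw [ContinuousLinearMap.map_smulₛₗ, hσσ, hc, hc', smul_smul]
  obtain ⟨B, hB⟩ : ∃ B : V ≃SL[σ] Y, ∀ v, B v = A v := by
    refine ⟨ContinuousLinearEquiv.ofBijective A ?_ ?_, fun v => ?_⟩
    · exact LinearMap.ker_eq_bot'.2 hinj
    · exact LinearMap.range_eq_top.2 hsurj
    · rw [ContinuousLinearEquiv.coeFn_ofBijective]
  -- `J` is surjective
  have hJ : Function.Surjective J := by
    intro ξ
    rcases eq_or_ne ξ 0 with rfl | hξ
    · exact ⟨0, map_zero _⟩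
    · obtain ⟨v0, hv0⟩ := ex_ne_j5559 hξ
      obtain ⟨g, hg⟩ : ∃ g : Y →L[ℂ] ℂ, ∀ v, g (A v) = σ (ξ v) := by
        refine ⟨(sgL_j5559 σ).comp (ξ.comp (B.symm : Y →SL[σ] V)), fun v => ?_⟩
        rw [← hB]
        simp [sgL_apply_j5559]
      have hg0 : g ≠ 0 := by
        rintro rfl
        apply hv0
        apply hσ0
        rw [← hg v0]
        rfl
      obtain ⟨η, hη, c, hc, hgc⟩ := hC.G_surj g hg0
      have hker : ∀ v, v ≠ 0 → (J η v = 0 ↔ ξ v = 0) := by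
        intro v hv
        obtain ⟨c', hc', hUv⟩ := hA v hv
        rw [hC.inc v η hv hη]
        have e1 : g (U v) = c * G η (U v) := by rw [hgc]; rfl
        have e2 : g (U v) = c' * σ (ξ v) := by rw [hUv, map_smul, hg, smul_eq_mul]
        constructor
        · intro h0
          rw [h0, mul_zero] at e1
          rw [e1] at e2
          exact hσ0 _ ((mul_eq_zero.1 e2.symm).resolve_left hc')
        · intro h0
          rw [h0, map_zero, mul_zero] at e2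
          rw [e2] at e1
          exact (mul_eq_zero.1 e1.symm).resolve_left hc
      have hv0' : v0 ≠ 0 := by
        rintro rfl
        exact hv0 (map_zero _)
      have hJη : J η ≠ 0 := by
        intro h0
        apply hv0
        rw [← hker v0 hv0', h0]
        rfl
      obtain ⟨c', hc'⟩ := prop_of_ker_j5559 hJη (g := ξ) (fun v hv => by
        rcases eq_or_ne v 0 with rfl | hv'
        · exact map_zero _
        · exact (hker v hv').1 hv)
      exact ⟨c' • η, by rw [map_smul, hc']⟩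
  refine ⟨hJ, B, ?_⟩
  -- the model map
  obtain ⟨ρ, hρ⟩ : ∃ ρ : (X →L[ℂ] X) → (Y →L[ℂ] Y), ∀ T y, ρ T y = B (τ T (B.symm y)) :=
    ⟨fun T => (B : V →SL[σ] Y).comp ((τ T).comp (B.symm : Y →SL[σ] V)), fun T y => rfl⟩
  have hρs : Function.Surjective ρ := by
    intro R
    obtain ⟨T, hT⟩ := hτs hJ ((B.symm : Y →SL[σ] V).comp (R.comp (B : V →SL[σ] Y)))
    refine ⟨T, ?_⟩
    ext y
    rw [hρ, hT]
    simp
  have hσε : σ ε = ε := by
    rcases hε with rfl | rfl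
    · exact map_one σ
    · rw [map_neg, map_one]
  have hρJ : ∀ T S, JF ε (ρ T) (ρ S) = JF ε T S := by
    intro T S
    rw [← hτJ T S]
    unfold JF
    refine sr_conj B _ _ fun x => ?_
    show ρ T (ρ S (B x)) + ε • ρ S (ρ T (B x)) = B (τ T (τ S x) + ε • τ S (τ T x))
    simp only [hρ, ContinuousLinearEquiv.symm_apply_apply, map_add]
    rw [ContinuousLinearEquiv.map_smulₛₗ, hσε]
  have hc : ∀ u g, Flag u g → ∃ c : ℝ, 0 < c ∧ ∀ T, ‖g (φ T u)‖ = c * ‖g (ρ T u)‖ := by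
    rintro u g ⟨hu, hg, hgu⟩
    obtain ⟨v, hv, c1, hc1, hu1⟩ := hC.U_surj u hu
    obtain ⟨η, hη, c2, hc2, hg2⟩ := hC.G_surj g hg
    have hGU : G η (U v) = 0 := by
      rw [hu1, hg2, map_smul, smul_eq_mul] at hgu
      have h1 := (mul_eq_zero.1 hgu).resolve_left hc1
      have h2 : c2 * G η (U v) = 0 := h1
      exact (mul_eq_zero.1 h2).resolve_left hc2
    have hJv : J η v = 0 := (hC.inc v η hv hη).2 hGU
    obtain ⟨c, hc, hrel⟩ := hC.rel v η hv hη hJv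
    -- functional identity
    obtain ⟨F, hF⟩ : ∃ F : V →L[ℂ] ℂ, ∀ w, F w = σ (G η (A w)) :=
      ⟨(sgL_j5559 σ).comp ((G η).comp A), fun w => rfl⟩
    have hker : ∀ w, w ≠ 0 → (F w = 0 ↔ J η w = 0) := by
      intro w hw
      obtain ⟨c', hc', hUw⟩ := hA w hw
      rw [hC.inc w η hw hη, hUw, map_smul, smul_eq_mul, hF]
      constructor
      · intro h0
        rw [hσ0 _ h0, mul_zero]
      · intro h0
        rw [(mul_eq_zero.1 h0).resolve_left hc', map_zero]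
    obtain ⟨y0, hy0⟩ := ex_ne_j5559 (hC.G_ne η hη)
    obtain ⟨w0, hw0⟩ := hsurj y0
    have hw0' : w0 ≠ 0 := by
      rintro rfl
      rw [map_zero] at hw0
      rw [← hw0, map_zero] at hy0
      exact hy0 rfl
    have hFw0 : F w0 ≠ 0 := by
      rw [hF, hw0]
      exact fun h0 => hy0 (hσ0 _ h0)
    have hJη : J η ≠ 0 := by
      intro h0
      apply hFw0
      rw [hker w0 hw0', h0]
      rfl
    obtain ⟨κ, hκ⟩ := prop_of_ker_j5559 hJη (g := F) (fun w hw => by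
      rcases eq_or_ne w 0 with rfl | hw'
      · exact map_zero _
      · exact (hker w hw').2 hw)
    have hκ0 : κ ≠ 0 := by
      rintro rfl
      apply hFw0
      rw [hκ]
      simp
    have hnorm : ∀ w, ‖G η (A w)‖ = ‖κ‖ * ‖J η w‖ := by
      intro w
      have h1 : ‖F w‖ = ‖G η (A w)‖ := by rw [hF]; exact RingHomIsometric.norm_map
      rw [← h1, hκ]
      simp
    obtain ⟨c3, hc3, hUv⟩ := hA v hv
    have hκn : 0 < ‖κ‖ := norm_pos_iff.2 hκ0
    have hc3n : 0 < ‖c3‖ := norm_pos_iff.2 hc3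
    refine ⟨c / (‖c3‖ * ‖κ‖), by positivity, fun T => ?_⟩
    have e1 : ‖g (φ T u)‖ = ‖c2‖ * (‖c1‖ * (c * ‖J η (τ T v)‖)) := by
      rw [← hrel T, hu1, hg2, map_smul]
      simp only [map_smul, smul_eq_mul, norm_mul]
      have : ‖(c2 • G η) (φ T (U v))‖ = ‖c2‖ * ‖G η (φ T (U v))‖ := by
        rw [show (c2 • G η) (φ T (U v)) = c2 * G η (φ T (U v)) from rfl, norm_mul]
      rw [this]
      ring
    have e2 : ‖g (ρ T u)‖ = ‖c2‖ * (‖c1‖ * (‖c3‖ * (‖κ‖ * ‖J η (τ T v)‖))) := by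
      have h1 : ρ T u = c1 • c3 • A (τ T v) := by
        rw [hu1, hUv, map_smul, map_smul, hρ, ← hB v, ContinuousLinearEquiv.symm_apply_apply, hB]
      rw [h1, map_smul, map_smul, ← hnorm, hg2]
      rw [show (c2 • G η) (A (τ T v)) = c2 * G η (A (τ T v)) from rfl]
      simp only [smul_eq_mul, norm_mul]
      ring
    rw [e1, e2]
    field_simp
  intro T
  obtain ⟨θ, d, hθ, hφ⟩ := phase_model hε hY φ ρ hs hρs h hρJ hc T
  refine ⟨θ, d, hθ, fun y => ?_⟩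
  rw [hφ, ← hρ]
  rfl

theorem structV [CompleteSpace V] {ε : ℂ} (hε : ε = 1 ∨ ε = -1)
    (hV : ∃ v : Fin 3 → V, LinearIndependent ℂ v)
    (hY : ∃ v : Fin 2 → Y, LinearIndependent ℂ v)
    {φ : (X →L[ℂ] X) → (Y →L[ℂ] Y)} (hs : Function.Surjective φ)
    (h : ∀ T S, JF ε (φ T) (φ S) = JF ε T S)
    {J : W →ₗ[ℂ] (V →L[ℂ] ℂ)} {τ : (X →L[ℂ] X) → (V →L[ℂ] V)}
    (hτs : Function.Surjective J → Function.Surjective τ)
    (hτJ : ∀ T S, JF ε (τ T) (τ S) = JF ε T S)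
    {U : V → Y} {G : W → (Y →L[ℂ] ℂ)} (hC : Corr φ J τ U G) :
    Function.Surjective J ∧
    ((∃ B : V ≃L[ℂ] Y, ∀ T, ∃ θ d : ℂ, ‖θ‖ = 1 ∧
      ∀ y, φ T y = θ • B (τ T (B.symm y)) + d • y) ∨
    (∃ B : V ≃SL[starRingEnd ℂ] Y, ∀ T, ∃ θ d : ℂ, ‖θ‖ = 1 ∧
      ∀ y, φ T y = θ • B (τ T (B.symm y)) + d • y)) := by
  obtain ⟨v, hv⟩ := hY
  have hv2 : LinearIndependent ℂ ![v 0, v 1] := by
    convert hv using 1
    ext i
    fin_cases i <;> rfl
  obtain ⟨g1, h10, h11⟩ := dual_vec hv2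
  obtain ⟨g0, h01, h00⟩ := dual_vec (li_swap hv2)
  have hg0 : g0 ≠ 0 := by rintro rfl; simp at h00
  have hg1 : g1 ≠ 0 := by rintro rfl; simp at h11
  have hv1 : v 1 ≠ 0 := by
    intro h0
    rw [h0, map_zero] at h11
    exact zero_ne_one h11
  obtain ⟨η0, hη0, c0, hc0, he0⟩ := hC.G_surj g0 hg0
  obtain ⟨η1, hη1, c1, hc1, he1⟩ := hC.G_surj g1 hg1
  have hJne : ∀ η, η ≠ 0 → J η ≠ 0 := by
    intro η hη h0
    obtain ⟨y, hy⟩ := ex_ne_j5559 (hC.G_ne η hη)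
    have hy0 : y ≠ 0 := by
      rintro rfl
      exact hy (map_zero _)
    obtain ⟨w, hw, c, hc, hyw⟩ := hC.U_surj y hy0
    apply hy
    rw [hyw, map_smul, (hC.inc w η hw hη).1 (by rw [h0]; rfl), smul_zero]
  have hli : LinearIndependent ℂ ![J η0, J η1] := by
    by_contra hcon
    obtain ⟨c, hc⟩ := dep_smul (hJne η0 hη0) hcon
    obtain ⟨w, hw, a, ha, hva⟩ := hC.U_surj (v 1) hv1
    have e0 : G η0 (U w) = 0 := by
      have h1 : c0 * (a * G η0 (U w)) = 0 := by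
        rw [← h01, he0, hva, map_smul]
        simp
        ring
      exact (mul_eq_zero.1 ((mul_eq_zero.1 h1).resolve_left hc0)).resolve_left ha
    have e1 : J η0 w = 0 := (hC.inc w η0 hw hη0).2 e0
    have e2 : J η1 w = 0 := by
      rw [hc]
      simp [e1]
    have e3 : G η1 (U w) = 0 := (hC.inc w η1 hw hη1).1 e2
    have e4 : g1 (v 1) = 0 := by
      rw [he1, hva, map_smul]
      simp [e3]
    rw [e4] at h11
    exact zero_ne_one h11
  have hY' : ∃ v : Fin 2 → Y, LinearIndependent ℂ v := ⟨v, hv⟩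
  rcases hyper hs hC η0 hη0 (hJne η0 hη0) with ⟨A0, hA0⟩ | ⟨A0, hA0⟩
  · obtain ⟨A, hA⟩ : ∃ A : V →SL[RingHom.id ℂ] Y, ∀ v, v ≠ 0 → ∃ c : ℂ, c ≠ 0 ∧ U v = c • A v := by
      rcases hyper hs hC η1 hη1 (hJne η1 hη1) with ⟨A1, hA1⟩ | ⟨A1, hA1⟩
      · exact glue hV hC η0 η1 hli A0 A1 hA0 hA1
      · exact glue hV hC η0 η1 hli A0 A1 hA0 hA1
    obtain ⟨h1, h2⟩ := struct_aux hε hY' hs h hτs hτJ hC A hA
    exact ⟨h1, Or.inl h2⟩
  · obtain ⟨A, hA⟩ : ∃ A : V →SL[starRingEnd ℂ] Y,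
        ∀ v, v ≠ 0 → ∃ c : ℂ, c ≠ 0 ∧ U v = c • A v := by
      rcases hyper hs hC η1 hη1 (hJne η1 hη1) with ⟨A1, hA1⟩ | ⟨A1, hA1⟩
      · exact glue hV hC η0 η1 hli A0 A1 hA0 hA1
      · exact glue hV hC η0 η1 hli A0 A1 hA0 hA1
    obtain ⟨h1, h2⟩ := struct_aux hε hY' hs h hτs hτJ hC A hA
    exact ⟨h1, Or.inr h2⟩

end


end j5559

-- part 5560
section j5560
section srbasic
variable {X : Type*} [NormedAddCommGroup X] [NormedSpace ℂ X]

theorem sr_nonneg_j5560 (T : X →L[ℂ] X) : 0 ≤ sr T := ENNReal.toReal_nonneg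

variable [CompleteSpace X]

end srbasic

section basic
variable {Z : Type*} [NormedAddCommGroup Z] [NormedSpace ℂ Z]

theorem exists_one_j5560 {z : Z} (hz : z ≠ 0) : ∃ k : Z →L[ℂ] ℂ, k z = 1 :=
  SeparatingDual.exists_eq_one hz

end basic

section JF
variable {X : Type*} [NormedAddCommGroup X] [NormedSpace ℂ X] [CompleteSpace X]

end JF

section cd
variable {X Y : Type*} [NormedAddCommGroup X] [NormedSpace ℂ X] [CompleteSpace X]
  [NormedAddCommGroup Y] [NormedSpace ℂ Y] [CompleteSpace Y]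

end cd

section
variable {X Y V W : Type*} [NormedAddCommGroup X] [NormedSpace ℂ X] [CompleteSpace X]
    [NormedAddCommGroup Y] [NormedSpace ℂ Y] [CompleteSpace Y]
    [NormedAddCommGroup V] [NormedSpace ℂ V]
    [AddCommGroup W] [Module ℂ W]

theorem aux_indep_j5560 {Z : Type*} [NormedAddCommGroup Z] [NormedSpace ℂ Z]
    (h2 : ∃ v : Fin 2 → Z, LinearIndependent ℂ v) {x : Z} (hx : x ≠ 0) :
    ∃ f : Z →L[ℂ] ℂ, f ≠ 0 ∧ f x = 0 := by
  obtain ⟨a, ha⟩ := h2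
  have key : ∃ y, LinearIndependent ℂ ![x, y] := by
    by_contra hcon
    push Not at hcon
    obtain ⟨c, hc⟩ := dep_smul hx (hcon (a 0))
    obtain ⟨d, hd⟩ := dep_smul hx (hcon (a 1))
    have hc0 : c ≠ 0 := by
      rintro rfl
      apply ha.ne_zero 0
      rw [hc, zero_smul]
    have hz : d • a 0 + (-c) • a 1 = 0 := by
      rw [hc, hd, smul_smul, smul_smul, ← add_smul]
      have : d * c + -c * d = 0 := by ring
      rw [this, zero_smul]
    have h2 := Fintype.linearIndependent_iff.mp ha ![d, -c] (by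
      rw [Fin.sum_univ_two]; simpa using hz) 1
    simp at h2
    exact hc0 h2
  obtain ⟨y, hy⟩ := key
  obtain ⟨k, hk1, hk2⟩ := dual_vec hy
  refine ⟨k, ?_, hk1⟩
  rintro rfl
  simp at hk2

theorem aux_ker_j5560 {Z : Type*} [NormedAddCommGroup Z] [NormedSpace ℂ Z]
    (h2 : ∃ v : Fin 2 → Z, LinearIndependent ℂ v) (f : Z →L[ℂ] ℂ) :
    ∃ x : Z, x ≠ 0 ∧ f x = 0 := by
  obtain ⟨a, ha⟩ := h2
  by_cases h0 : f (a 0) = 0
  · exact ⟨a 0, ha.ne_zero 0, h0⟩
  · refine ⟨f (a 1) • a 0 + (-f (a 0)) • a 1, ?_, ?_⟩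
    · intro hz
      have h2 := Fintype.linearIndependent_iff.mp ha ![f (a 1), -f (a 0)] (by
        rw [Fin.sum_univ_two]; simpa using hz) 1
      simp at h2
      exact h0 h2
    · rw [map_add, map_smul, map_smul, smul_eq_mul, smul_eq_mul]; ring

theorem aux_dual3_j5560 {Z : Type*} [NormedAddCommGroup Z] [NormedSpace ℂ Z]
    (h3 : ∃ v : Fin 3 → Z, LinearIndependent ℂ v) :
    ∃ v : Fin 3 → (Z →L[ℂ] ℂ), LinearIndependent ℂ v := by
  obtain ⟨v, hv⟩ := h3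
  have hinj : Function.Injective (Fintype.linearCombination ℂ v) := by
    exact linearIndependent_iff_injective_fintypeLinearCombination.mp hv
  have hsurj := (SeparatingDual.dualMap_surjective_iff (R := ℂ)
    (f := Fintype.linearCombination ℂ v)).2 hinj
  choose k hk using fun i : Fin 3 => hsurj (LinearMap.proj i)
  have hkv : ∀ i j, k i (v j) = if i = j then 1 else 0 := by
    intro i j
    have h1 := congrArg (fun F : Module.Dual ℂ (Fin 3 → ℂ) => F (Pi.single j 1)) (hk i)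
    simp [Fintype.linearCombination_apply_single] at h1
    rw [h1, Pi.single_apply]
  refine ⟨k, ?_⟩
  rw [Fintype.linearIndependent_iff]
  intro g hg j
  have h1 := congrArg (fun F : Z →L[ℂ] ℂ => F (v j)) hg
  simp [hkv] at h1
  exact h1

/-- the form of the preservers for the Jordan and Lie products in dimension at least three -/
theorem form_ge3 {ε : ℂ} (hε : ε = 1 ∨ ε = -1)
    (hX : ∃ v : Fin 3 → X, LinearIndependent ℂ v) (φ : (X →L[ℂ] X) → (Y →L[ℂ] Y))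
    (hs : Function.Surjective φ) (h : ∀ T S, JF ε (φ T) (φ S) = JF ε T S) :
    ((∃ A : X ≃L[ℂ] Y, ∀ T, ∃ θ d : ℂ, ‖θ‖ = 1 ∧ ∀ y, φ T y = θ • A (T (A.symm y)) + d • y) ∨
    (∃ A : X ≃SL[starRingEnd ℂ] Y, ∀ T, ∃ θ d : ℂ, ‖θ‖ = 1 ∧
      ∀ y, φ T y = θ • A (T (A.symm y)) + d • y)) ∨
    (Function.Surjective (fun x : X => (ContinuousLinearMap.apply ℂ ℂ x :
      (X →L[ℂ] ℂ) →L[ℂ] ℂ)) ∧
    ((∃ A : (X →L[ℂ] ℂ) ≃L[ℂ] Y, ∀ T : X →L[ℂ] X, ∃ θ d : ℂ, ‖θ‖ = 1 ∧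
      ∀ y, φ T y = θ • A ((A.symm y).comp T) + d • y) ∨
    (∃ A : (X →L[ℂ] ℂ) ≃SL[starRingEnd ℂ] Y, ∀ T : X →L[ℂ] X, ∃ θ d : ℂ, ‖θ‖ = 1 ∧
      ∀ y, φ T y = θ • A ((A.symm y).comp T) + d • y))) := by
  have hX2 : ∃ v : Fin 2 → X, LinearIndependent ℂ v := by
    obtain ⟨v, hv⟩ := hX
    exact ⟨v ∘ Fin.castSucc, hv.comp _ (Fin.castSucc_injective 2)⟩
  obtain ⟨d2, d3⟩ := dims_transfer hε φ hs h
  have hY2 := d2.1 hX2
  have hY3 := d3.1 hX
  obtain ⟨H1, H2, -⟩ := flag_rel hε hX2 φ hs h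
  rcases typesN hs hX hY3 H1 H2 with HT | HT
  · left
    obtain ⟨U, G, hC⟩ := corr_exists (V := X) (W := X →L[ℂ] ℂ) φ hY2 LinearMap.id id
      (fun v hv => aux_indep_j5560 hX2 hv) (fun η _ => aux_ker_j5560 hX2 η)
      (fun u g hug => by
        obtain ⟨x, f, ⟨hx, hf, hfx⟩, hr⟩ := H1 u g hug
        exact ⟨x, f, hx, hf, hfx, hr⟩)
      (fun v η hv hη hvη => H2 v η ⟨hv, hη, hvη⟩)
      (fun v η u g v' η' u' g' hv hη hvη hug hv' hη' hvη' hug' hr hr' =>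
        HT v η u g v' η' u' g' ⟨hv, hη, hvη⟩ hug ⟨hv', hη', hvη'⟩ hug' hr hr')
    exact (structV hε hX hY2 hs h (fun _ => Function.surjective_id) (fun _ _ => rfl) hC).2
  · right
    let J : X →ₗ[ℂ] ((X →L[ℂ] ℂ) →L[ℂ] ℂ) :=
      (ContinuousLinearMap.apply ℂ ℂ : X →L[ℂ] ((X →L[ℂ] ℂ) →L[ℂ] ℂ)).toLinearMap
    let τ : (X →L[ℂ] X) → ((X →L[ℂ] ℂ) →L[ℂ] (X →L[ℂ] ℂ)) := fun T =>
      (ContinuousLinearMap.compL ℂ X X ℂ).flip T
    have hJ : ∀ x f, J x f = f x := fun x f => rfl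
    have hτ : ∀ T f, τ T f = f.comp T := fun T f => rfl
    obtain ⟨U, G, hC⟩ := corr_exists (V := X →L[ℂ] ℂ) (W := X) φ hY2 J τ
      (fun f _ => aux_ker_j5560 hX2 f) (fun x hx => aux_indep_j5560 hX2 hx)
      (fun u g hug => by
        obtain ⟨x, f, ⟨hx, hf, hfx⟩, hr⟩ := H1 u g hug
        exact ⟨f, x, hf, hx, hfx, hr⟩)
      (fun f x hf hx hfx => H2 x f ⟨hx, hf, hfx⟩)
      (fun f x u g f' x' u' g' hf hx hfx hug hf' hx' hfx' hug' hr hr' =>
        (HT x f u g x' f' u' g' ⟨hx, hf, hfx⟩ hug ⟨hx', hf', hfx'⟩ hug' hr hr').symm)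
    have hτs : Function.Surjective J → Function.Surjective τ := by
      intro hJs S
      obtain ⟨T, hT⟩ := adj_surj hJs S
      refine ⟨T, ?_⟩
      ext1 f
      rw [hτ, hT]
    have hτJ : ∀ T S, JF ε (τ T) (τ S) = JF ε T S := by
      intro T S
      rw [JF_symm hε T S]
      unfold JF
      refine sr_dual (ContinuousLinearEquiv.refl ℂ (X →L[ℂ] ℂ)) (S * T + ε • (T * S)) _ ?_
      intro f
      ext x
      simp [hτ]
    exact structV hε (aux_dual3_j5560 hX) hY2 hs h hτs hτJ hC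

end


end j5560

-- part 5608
section j5608
section srbasic
variable {X : Type*} [NormedAddCommGroup X] [NormedSpace ℂ X]

theorem sr_nonneg_j5608 (T : X →L[ℂ] X) : 0 ≤ sr T := ENNReal.toReal_nonneg

variable [CompleteSpace X]

end srbasic

section basic
variable {Z : Type*} [NormedAddCommGroup Z] [NormedSpace ℂ Z]

theorem exists_one_j5608 {z : Z} (hz : z ≠ 0) : ∃ k : Z →L[ℂ] ℂ, k z = 1 :=
  SeparatingDual.exists_eq_one hz

end basic

section JF
variable {X : Type*} [NormedAddCommGroup X] [NormedSpace ℂ X] [CompleteSpace X]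

end JF

section cd
variable {X Y : Type*} [NormedAddCommGroup X] [NormedSpace ℂ X] [CompleteSpace X]
  [NormedAddCommGroup Y] [NormedSpace ℂ Y] [CompleteSpace Y]

end cd

section
variable {X Y : Type*} [NormedAddCommGroup X] [NormedSpace ℂ X] [CompleteSpace X]
    [NormedAddCommGroup Y] [NormedSpace ℂ Y] [CompleteSpace Y]

omit [CompleteSpace X] in
theorem exists_form_j5608 (h2 : ∃ v : Fin 2 → X, LinearIndependent ℂ v)
    (h3 : ¬ ∃ v : Fin 3 → X, LinearIndependent ℂ v) :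
    ∃ ω : X →ₗ[ℂ] (X →L[ℂ] ℂ), (∀ x, ω x x = 0) ∧ (∀ x, ω x = 0 → x = 0) ∧
      (∀ (x : X) (f : X →L[ℂ] ℂ), x ≠ 0 → f x = 0 → ∃ c : ℂ, f = c • ω x) ∧
      (∀ g : X →L[ℂ] ℂ, ∃ u, g = ω u) := by
  obtain ⟨v, hv⟩ := h2
  have hv' : LinearIndependent ℂ ![v 0, v 1] := by
    have : v = ![v 0, v 1] := by ext i; fin_cases i <;> rfl
    rwa [← this]
  obtain ⟨E2, h20, h21⟩ := dual_vec hv'
  obtain ⟨E1, h11, h10⟩ := dual_vec (li_swap hv')
  have hdec : ∀ x, x = E1 x • v 0 + E2 x • v 1 := by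
    intro x
    have hx : x ∈ Submodule.span ℂ (Set.range v) := by
      by_contra hx
      exact h3 ⟨Fin.cons x v, linearIndependent_finCons.2 ⟨hv, hx⟩⟩
    rw [Submodule.mem_span_range_iff_exists_fun] at hx
    obtain ⟨c, rfl⟩ := hx
    rw [Fin.sum_univ_two]
    simp [map_add, map_smul, h11, h10, h20, h21]
  have hfun : ∀ f : X →L[ℂ] ℂ, f = f (v 0) • E1 + f (v 1) • E2 := by
    intro f
    ext x
    conv_lhs => rw [hdec x]
    simp only [map_add, map_smul, ContinuousLinearMap.add_apply, ContinuousLinearMap.smul_apply,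
      smul_eq_mul]
    ring
  let ω : X →ₗ[ℂ] (X →L[ℂ] ℂ) :=
    { toFun := fun x => E1 x • E2 - E2 x • E1
      map_add' := by
        intro x y
        ext z
        simp only [map_add, ContinuousLinearMap.sub_apply, ContinuousLinearMap.add_apply,
          ContinuousLinearMap.smul_apply, smul_eq_mul]
        ring
      map_smul' := by
        intro c x
        ext z
        simp only [map_smul, ContinuousLinearMap.sub_apply,
          ContinuousLinearMap.smul_apply, smul_eq_mul, RingHom.id_apply]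
        ring }
  have hω : ∀ x y, ω x y = E1 x * E2 y - E2 x * E1 y := by
    intro x y
    show (E1 x • E2 - E2 x • E1) y = _
    simp only [ContinuousLinearMap.sub_apply, ContinuousLinearMap.smul_apply, smul_eq_mul]
  refine ⟨ω, ?_, ?_, ?_, ?_⟩
  · intro x
    rw [hω]; ring
  · intro x hx
    have e1 : E1 x = 0 := by
      have := hω x (v 1)
      rw [hx, h21, h11] at this
      simpa using this.symm
    have e2 : E2 x = 0 := by
      have := hω x (v 0)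
      rw [hx, h20, h10] at this
      simpa using this.symm
    rw [hdec x, e1, e2]
    simp
  · intro x f hx hf
    have h0 : f (v 0) * E1 x + f (v 1) * E2 x = 0 := by
      have := congrArg (fun g : X →L[ℂ] ℂ => g x) (hfun f)
      simp only [ContinuousLinearMap.add_apply, ContinuousLinearMap.smul_apply,
        smul_eq_mul] at this
      rw [← this, hf]
    by_cases e1 : E1 x = 0
    · have e2 : E2 x ≠ 0 := by
        intro e2
        apply hx
        rw [hdec x, e1, e2]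
        simp
      have h5 : f (v 1) = 0 := by
        rw [e1, mul_zero, zero_add] at h0
        exact (mul_eq_zero.1 h0).resolve_right e2
      refine ⟨- (f (v 0)) / E2 x, ?_⟩
      ext y
      rw [ContinuousLinearMap.smul_apply, smul_eq_mul, hω, e1]
      conv_lhs => rw [hfun f]
      simp only [ContinuousLinearMap.add_apply, ContinuousLinearMap.smul_apply, smul_eq_mul]
      rw [h5]
      field_simp
      ring
    · refine ⟨f (v 1) / E1 x, ?_⟩
      ext y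
      rw [ContinuousLinearMap.smul_apply, smul_eq_mul, hω]
      conv_lhs => rw [hfun f]
      simp only [ContinuousLinearMap.add_apply, ContinuousLinearMap.smul_apply, smul_eq_mul]
      field_simp
      linear_combination (E1 y) * h0
  · intro g
    refine ⟨g (v 1) • v 0 - g (v 0) • v 1, ?_⟩
    ext y
    rw [hω]
    conv_lhs => rw [hfun g]
    simp only [map_sub, map_smul, ContinuousLinearMap.add_apply, ContinuousLinearMap.smul_apply,
      smul_eq_mul, h11, h10, h20, h21]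
    ring

omit [CompleteSpace X] in
theorem form_antisymm_j5608 {ω : X →ₗ[ℂ] (X →L[ℂ] ℂ)} (h : ∀ x, ω x x = 0) (x y : X) :
    ω x y = - ω y x := by
  have h1 := h (x + y)
  simp only [map_add, ContinuousLinearMap.add_apply, h x, h y] at h1
  linear_combination h1

omit [CompleteSpace X] in
theorem form_span_j5608 {ω : X →ₗ[ℂ] (X →L[ℂ] ℂ)} (h : ∀ x, ω x x = 0) (h' : ∀ x, ω x = 0 → x = 0)
    (h'' : ∀ (x : X) (f : X →L[ℂ] ℂ), x ≠ 0 → f x = 0 → ∃ c : ℂ, f = c • ω x) {u1 u2 : X}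
    (h12 : ω u1 u2 ≠ 0) (y : X) : ∃ a b : ℂ, y = a • u1 + b • u2 := by
  have hu1 : u1 ≠ 0 := by
    rintro rfl
    simp at h12
  refine ⟨ω y u2 / ω u1 u2, ω u1 y / ω u1 u2, ?_⟩
  set a := ω y u2 / ω u1 u2 with ha
  set b := ω u1 y / ω u1 u2 with hb
  have e1 : ω (y - (a • u1 + b • u2)) u2 = 0 := by
    simp only [map_sub, map_add, map_smul, ContinuousLinearMap.sub_apply,
      ContinuousLinearMap.add_apply, ContinuousLinearMap.smul_apply, smul_eq_mul, h u2, ha]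
    field_simp
    ring
  have e2 : ω (y - (a • u1 + b • u2)) u1 = 0 := by
    rw [form_antisymm_j5608 h]
    simp only [map_sub, map_add, map_smul, smul_eq_mul, h u1, hb]
    field_simp
    ring
  obtain ⟨c, hc⟩ := h'' u1 _ hu1 e2
  have hc0 : c = 0 := by
    rw [hc, ContinuousLinearMap.smul_apply, smul_eq_mul] at e1
    exact (mul_eq_zero.1 e1).resolve_right h12
  have hc' : ω (y - (a • u1 + b • u2)) = 0 := by
    rw [hc, hc0]
    ext z
    simp
  exact sub_eq_zero.1 (h' _ hc')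

theorem form_finish_j5608 {σ : ℂ →+* ℂ} [RingHomInvPair σ σ] [RingHomIsometric σ]
    {ε : ℂ} (hε : ε = 1 ∨ ε = -1)
    (hX2 : ∃ v : Fin 2 → X, LinearIndependent ℂ v) (hY2 : ∃ v : Fin 2 → Y, LinearIndependent ℂ v)
    (φ : (X →L[ℂ] X) → (Y →L[ℂ] Y))
    (hs : Function.Surjective φ) (h : ∀ T S, JF ε (φ T) (φ S) = JF ε T S)
    (ωX : X →ₗ[ℂ] (X →L[ℂ] ℂ)) (ωY : Y →ₗ[ℂ] (Y →L[ℂ] ℂ))
    (hX0 : ∀ x, ωX x x = 0) (hX1 : ∀ x, ωX x = 0 → x = 0)
    (hY0 : ∀ x, ωY x x = 0) (hY1 : ∀ x, ωY x = 0 → x = 0)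
    (hY3 : ∀ (x : Y) (f : Y →L[ℂ] ℂ), x ≠ 0 → f x = 0 → ∃ c : ℂ, f = c • ωY x)
    (W : X → Y) (hW : ∀ x y, ‖ωY (W x) (W y)‖ = ‖ωX x y‖)
    (hR : ∀ x, x ≠ 0 → Rel φ x (ωX x) (W x) (ωY (W x)))
    (A : X →SL[σ] Y) (hA : ∀ v, ∃ c : ℂ, ‖c‖ = 1 ∧ W v = c • A v) :
    ∃ B : X ≃SL[σ] Y, ∀ T, ∃ θ d : ℂ, ‖θ‖ = 1 ∧ ∀ y, φ T y = θ • B (T (B.symm y)) + d • y := by
  have hAω : ∀ x y, ‖ωY (A x) (A y)‖ = ‖ωX x y‖ := by
    intro x y
    obtain ⟨c, hc, hc'⟩ := hA x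
    obtain ⟨d, hd, hd'⟩ := hA y
    have := hW x y
    rw [hc', hd'] at this
    simp only [map_smul, ContinuousLinearMap.smul_apply, smul_eq_mul, norm_mul, hc, hd,
      one_mul] at this
    exact this
  have hinj : ∀ x, A x = 0 → x = 0 := by
    intro x hx
    apply hX1
    ext y
    have := hAω x y
    rw [hx, map_zero, ContinuousLinearMap.zero_apply, norm_zero] at this
    exact norm_eq_zero.1 this.symm
  have hsurj : ∀ y, ∃ x, A x = y := by
    intro y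
    obtain ⟨v, hv⟩ := hX2
    have hv0 : v 0 ≠ 0 := hv.ne_zero 0
    obtain ⟨z, hz⟩ : ∃ z, ωX (v 0) z ≠ 0 := by
      by_contra hcon
      push Not at hcon
      exact hv0 (hX1 _ (by ext z; exact hcon z))
    have h12 : ωY (A (v 0)) (A z) ≠ 0 := by
      intro h0
      have := hAω (v 0) z
      rw [h0, norm_zero] at this
      exact hz (norm_eq_zero.1 this.symm)
    obtain ⟨a, b, hab⟩ := form_span_j5608 hY0 hY1 hY3 h12 y
    refine ⟨σ a • v 0 + σ b • z, ?_⟩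
    rw [map_add, map_smulₛₗ, map_smulₛₗ, hab]
    have e : ∀ c : ℂ, σ (σ c) = c := fun c => RingHomInvPair.comp_apply_eq
    rw [e, e]
  let B : X ≃SL[σ] Y := ContinuousLinearEquiv.ofBijective A
    (by
      rw [LinearMap.ker_eq_bot']
      exact hinj)
    (by
      rw [LinearMap.range_eq_top]
      exact hsurj)
  have hB : ∀ x, B x = A x := fun x => rfl
  let ρ : (X →L[ℂ] X) → (Y →L[ℂ] Y) := fun T =>
    (B : X →SL[σ] Y).comp (T.comp (B.symm : Y →SL[σ] X))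
  have hρ : ∀ T y, ρ T y = B (T (B.symm y)) := fun T y => rfl
  have hρs : Function.Surjective ρ := by
    intro S
    refine ⟨(B.symm : Y →SL[σ] X).comp (S.comp (B : X →SL[σ] Y)), ?_⟩
    ext y
    rw [hρ]
    show B (B.symm (S (B (B.symm y)))) = S y
    rw [ContinuousLinearEquiv.apply_symm_apply, ContinuousLinearEquiv.apply_symm_apply]
  have hσε : σ ε = ε := by
    rcases hε with rfl | rfl
    · exact map_one σ
    · rw [map_neg, map_one]
  have hρJ : ∀ T S, JF ε (ρ T) (ρ S) = JF ε T S := by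
    intro T S
    unfold JF
    refine sr_conj B _ _ ?_
    intro x
    simp only [ContinuousLinearMap.add_apply, ContinuousLinearMap.smul_apply,
      ContinuousLinearMap.mul_apply, hρ, ContinuousLinearEquiv.symm_apply_apply]
    rw [map_add, map_smulₛₗ, hσε]
  have hc : ∀ u g, Flag u g → ∃ c : ℝ, 0 < c ∧ ∀ T, ‖g (φ T u)‖ = c * ‖g (ρ T u)‖ := by
    rintro u g ⟨hu, hg, hgu⟩
    refine ⟨1, one_pos, fun T => ?_⟩
    rw [one_mul]
    obtain ⟨a, rfl⟩ := hY3 u g hu hgu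
    obtain ⟨x, rfl⟩ : ∃ x, B x = u := ⟨B.symm u, B.apply_symm_apply u⟩
    have hx : x ≠ 0 := by
      rintro rfl
      exact hu (map_zero B)
    rw [ContinuousLinearMap.smul_apply, ContinuousLinearMap.smul_apply, norm_smul, norm_smul]
    congr 1
    rw [hρ, ContinuousLinearEquiv.symm_apply_apply, hB, hB, hAω]
    have h1 := hR x hx T
    obtain ⟨c, hc, hc'⟩ := hA x
    rw [hc'] at h1
    simp only [map_smul, ContinuousLinearMap.smul_apply, smul_eq_mul, norm_mul, hc,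
      one_mul] at h1
    exact h1
  refine ⟨B, fun T => ?_⟩
  obtain ⟨θ, d, hθ, hd⟩ := phase_model hε hY2 φ ρ hs hρs h hρJ hc T
  refine ⟨θ, d, hθ, fun y => ?_⟩
  rw [hd]
  simp only [ContinuousLinearMap.add_apply, ContinuousLinearMap.smul_apply,
    ContinuousLinearMap.one_apply, hρ]

/-- the form of the preservers for the Jordan and Lie products in dimension two -/
theorem form_2 {ε : ℂ} (hε : ε = 1 ∨ ε = -1)
    (h2 : ∃ v : Fin 2 → X, LinearIndependent ℂ v)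
    (h3 : ¬ ∃ v : Fin 3 → X, LinearIndependent ℂ v) (φ : (X →L[ℂ] X) → (Y →L[ℂ] Y))
    (hs : Function.Surjective φ) (h : ∀ T S, JF ε (φ T) (φ S) = JF ε T S) :
    (∃ A : X ≃L[ℂ] Y, ∀ T, ∃ θ d : ℂ, ‖θ‖ = 1 ∧ ∀ y, φ T y = θ • A (T (A.symm y)) + d • y) ∨
    (∃ A : X ≃SL[starRingEnd ℂ] Y, ∀ T, ∃ θ d : ℂ, ‖θ‖ = 1 ∧
      ∀ y, φ T y = θ • A (T (A.symm y)) + d • y) := by
  obtain ⟨d2, d3⟩ := dims_transfer hε φ hs h
  have hY2 := d2.1 h2
  have hY3' : ¬ ∃ v : Fin 3 → Y, LinearIndependent ℂ v := fun h' => h3 (d3.2 h')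
  obtain ⟨ωX, hX0, hX1, hX3, hX4⟩ := exists_form_j5608 h2 h3
  obtain ⟨ωY, hY0, hY1, hY3, hY4⟩ := exists_form_j5608 hY2 hY3'
  obtain ⟨r1, r2, r3⟩ := flag_rel hε h2 φ hs h
  have hflX : ∀ x, x ≠ 0 → Flag x (ωX x) := fun x hx => ⟨hx, fun h' => hx (hX1 x h'), hX0 x⟩
  have hflY : ∀ x, x ≠ 0 → Flag x (ωY x) := fun x hx => ⟨hx, fun h' => hx (hY1 x h'), hY0 x⟩
  have hWex : ∀ x : X, ∃ w : Y, (x = 0 → w = 0) ∧
      (x ≠ 0 → w ≠ 0 ∧ Rel φ x (ωX x) w (ωY w)) := by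
    intro x
    by_cases hx : x = 0
    · exact ⟨0, fun _ => rfl, fun h' => absurd hx h'⟩
    · obtain ⟨u, g, ⟨hu, hg, hgu⟩, hrel⟩ := r2 x (ωX x) (hflX x hx)
      obtain ⟨c, hc⟩ := hY3 u g hu hgu
      have hc0 : c ≠ 0 := by
        rintro rfl
        exact hg (by rw [hc]; ext z; simp)
      obtain ⟨s, hs2⟩ : ∃ s : ℂ, s * s = c := by
        obtain ⟨s, hs2⟩ := IsAlgClosed.exists_pow_nat_eq c (n := 2) (by norm_num)
        exact ⟨s, by rw [← hs2]; ring⟩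
      have hs0 : s ≠ 0 := by
        rintro rfl
        exact hc0 (by rw [← hs2, mul_zero])
      refine ⟨s • u, fun h' => absurd h' hx, fun _ => ⟨smul_ne_zero hs0 hu, ?_⟩⟩
      intro T
      rw [← hrel T, hc]
      simp only [map_smul, ContinuousLinearMap.smul_apply, smul_eq_mul]
      rw [← hs2, mul_assoc]
  choose W hW0 hW1 using hWex
  have hWn : ∀ x y, ‖ωY (W x) (W y)‖ = ‖ωX x y‖ := by
    intro x y
    by_cases hx : x = 0
    · rw [hW0 x hx, hx]; simp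
    by_cases hy : y = 0
    · rw [hW0 y hy, hy]; simp
    obtain ⟨w1, w2⟩ := hW1 x hx
    obtain ⟨w3, w4⟩ := hW1 y hy
    have e := r3 x (ωX x) (W x) (ωY (W x)) y (ωX y) (W y) (ωY (W y)) (hflX x hx) (hflY _ w1)
      (hflX y hy) (hflY _ w3) w2 w4
    rw [form_antisymm_j5608 hX0 y x, form_antisymm_j5608 hY0 (W y) (W x), norm_neg, norm_neg] at e
    have e' : ‖ωY (W x) (W y)‖ ^ 2 = ‖ωX x y‖ ^ 2 := by rw [pow_two, pow_two, e]
    exact (pow_left_inj₀ (norm_nonneg _) (norm_nonneg _) (by norm_num)).1 e'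
  have hwig : ∀ g : Y →L[ℂ] ℂ, g ≠ 0 → ∃ f : X →L[ℂ] ℂ, ∀ v, ‖g (W v)‖ = ‖f v‖ := by
    intro g hg
    obtain ⟨u0, rfl⟩ := hY4 g
    have hu0 : u0 ≠ 0 := by
      rintro rfl
      exact hg (map_zero _)
    obtain ⟨x, f, hxf, hrel⟩ := r1 u0 (ωY u0) (hflY u0 hu0)
    obtain ⟨c, hc⟩ := hX3 x f hxf.1 hxf.2.2
    refine ⟨((Real.sqrt ‖c‖ : ℝ) : ℂ) • ωX x, fun y => ?_⟩
    by_cases hy : y = 0
    · rw [hW0 y hy, hy]; simp
    obtain ⟨w3, w4⟩ := hW1 y hy
    have e := r3 y (ωX y) (W y) (ωY (W y)) x f u0 (ωY u0) (hflX y hy) (hflY _ w3) hxf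
      (hflY u0 hu0) w4 hrel
    rw [form_antisymm_j5608 hX0 y x, form_antisymm_j5608 hY0 (W y) u0, norm_neg, norm_neg, hc,
      ContinuousLinearMap.smul_apply, norm_smul] at e
    have e' : ‖ωY u0 (W y)‖ ^ 2 = ‖(((Real.sqrt ‖c‖ : ℝ) : ℂ) • ωX x) y‖ ^ 2 := by
      rw [ContinuousLinearMap.smul_apply, norm_smul, Complex.norm_real, Real.norm_of_nonneg
        (Real.sqrt_nonneg _), mul_pow, Real.sq_sqrt (norm_nonneg c), pow_two, ← e]
      ring
    exact (pow_left_inj₀ (norm_nonneg _) (norm_nonneg _) (by norm_num)).1 e'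
  obtain ⟨v, hv⟩ := id hY2
  rcases wigner W (v 0) (hv.ne_zero 0) (fun g hg => hwig g (by rintro rfl; simp at hg)) with
    ⟨A, hA⟩ | ⟨A, hA⟩
  · left
    exact form_finish_j5608 hε h2 hY2 φ hs h ωX ωY hX0 hX1 hY0 hY1 hY3 W hWn (fun x hx => (hW1 x hx).2)
      A hA
  · right
    exact form_finish_j5608 hε h2 hY2 φ hs h ωX ωY hX0 hX1 hY0 hY1 hY3 W hWn (fun x hx => (hW1 x hx).2)
      A hA

end


end j5608

-- part 5609
section j5609
section srbasic
variable {X : Type*} [NormedAddCommGroup X] [NormedSpace ℂ X]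

theorem sr_nonneg_j5609 (T : X →L[ℂ] X) : 0 ≤ sr T := ENNReal.toReal_nonneg

variable [CompleteSpace X]

end srbasic

section basic
variable {Z : Type*} [NormedAddCommGroup Z] [NormedSpace ℂ Z]

theorem exists_one_j5609 {z : Z} (hz : z ≠ 0) : ∃ k : Z →L[ℂ] ℂ, k z = 1 :=
  SeparatingDual.exists_eq_one hz

end basic

section JF
variable {X : Type*} [NormedAddCommGroup X] [NormedSpace ℂ X] [CompleteSpace X]

end JF

theorem max_prod_j5609 {a b a' b' : ℝ} (ha : 0 ≤ a) (hb : 0 ≤ b) (ha' : 0 ≤ a') (hb' : 0 ≤ b')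
    (h1 : a * b = a' * b') (h2 : max a b = max a' b') : a ^ 2 + b ^ 2 = a' ^ 2 + b' ^ 2 := by
  have key : ∀ x y x' y' : ℝ, 0 ≤ x → 0 ≤ x' → x ≤ y → x' ≤ y' → x * y = x' * y' → y = y' →
      x ^ 2 + y ^ 2 = x' ^ 2 + y' ^ 2 := by
    intro x y x' y' hx hx' hxy hxy' h1 h2
    subst h2
    rcases eq_or_ne y 0 with h0 | h0
    · subst h0
      have e1 : x = 0 := le_antisymm hxy hx
      have e2 : x' = 0 := le_antisymm hxy' hx'
      rw [e1, e2]
    · rw [mul_right_cancel₀ h0 h1]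
  rcases le_total a b with h | h <;> rcases le_total a' b' with h' | h'
  · rw [max_eq_right h, max_eq_right h'] at h2
    exact key a b a' b' ha ha' h h' h1 h2
  · rw [max_eq_right h, max_eq_left h'] at h2
    have := key a b b' a' ha hb' h h' (by rw [h1, mul_comm]) h2
    linarith
  · rw [max_eq_left h, max_eq_right h'] at h2
    have := key b a a' b' hb ha' h h' (by rw [← h1, mul_comm]) h2
    linarith
  · rw [max_eq_left h, max_eq_left h'] at h2
    have := key b a b' a' hb hb' h h' (by rw [mul_comm b a, h1, mul_comm]) h2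
    linarith

/-- same determinant and same larger modulus -/
theorem R2_same_det {t t' d : ℂ} (h : R2 t d = R2 t' d) :
    ‖t‖ ^ 2 + ‖t ^ 2 - 4 * d‖ = ‖t'‖ ^ 2 + ‖t' ^ 2 - 4 * d‖ := by
  obtain ⟨z, w, h1, h2, h3⟩ := R2_exists t d
  obtain ⟨z', w', h1', h2', h3'⟩ := R2_exists t' d
  have e1 := R2_sq_add z w
  have e2 := R2_sq_add z' w'
  rw [h1, h2] at e1
  rw [h1', h2'] at e2
  have e3 := max_prod_j5609 (norm_nonneg z) (norm_nonneg w) (norm_nonneg z') (norm_nonneg w')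
    (by rw [← norm_mul, ← norm_mul, h2, h2']) (by rw [← h3, ← h3', h])
  linarith

theorem asym_kill (s0 s1 q0 q1 d : ℂ)
    (h : ∀ t : ℂ, ‖s0 + t * s1‖ ^ 2 + ‖q0 + t * q1‖ =
      ‖s0 + t * s1 + d‖ ^ 2 + ‖q0 + t * q1 + 2 * d * (s0 + t * s1) + d ^ 2‖) : s1 * d = 0 := by
  -- the main limit statement
  have key : ∀ ω : ℂ, ‖ω‖ = 1 →
      2 * (ω * s1 * (starRingEnd ℂ) d).re + ‖q1 + 2 * d * s1‖ - ‖q1‖ = 0 := by
    intro ω hω
    set L := 2 * (ω * s1 * (starRingEnd ℂ) d).re + ‖q1 + 2 * d * s1‖ - ‖q1‖ with hL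
    set C := |2 * (s0 * (starRingEnd ℂ) d).re| + ‖d‖ ^ 2 + ‖q0 + 2 * d * s0 + d ^ 2‖ + ‖q0‖ with hC
    have hbd : ∀ R : ℝ, 0 < R → R * |L| ≤ C := by
      intro R hR
      have h1 := h ((R : ℂ) * ω)
      have h2 : ‖s0 + (R : ℂ) * ω * s1 + d‖ ^ 2 = ‖s0 + (R : ℂ) * ω * s1‖ ^ 2 +
          (2 * (s0 * (starRingEnd ℂ) d).re + R * (2 * (ω * s1 * (starRingEnd ℂ) d).re)) + ‖d‖ ^ 2 := by
        rw [← Complex.normSq_eq_norm_sq, ← Complex.normSq_eq_norm_sq, ← Complex.normSq_eq_norm_sq,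
          Complex.normSq_add]
        have : ((s0 + (R : ℂ) * ω * s1) * (starRingEnd ℂ) d).re =
            (s0 * (starRingEnd ℂ) d).re + R * (ω * s1 * (starRingEnd ℂ) d).re := by
          rw [show (s0 + (R : ℂ) * ω * s1) * (starRingEnd ℂ) d =
            s0 * (starRingEnd ℂ) d + (R : ℂ) * (ω * s1 * (starRingEnd ℂ) d) by ring, Complex.add_re,
            Complex.re_ofReal_mul]
        rw [this]; ring
      have h3 : |‖q0 + (R : ℂ) * ω * q1 + 2 * d * (s0 + (R : ℂ) * ω * s1) + d ^ 2‖ - R * ‖q1 + 2 * d * s1‖| ≤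
          ‖q0 + 2 * d * s0 + d ^ 2‖ := by
        have e1 : R * ‖q1 + 2 * d * s1‖ = ‖(R : ℂ) * ω * (q1 + 2 * d * s1)‖ := by
          rw [norm_mul, norm_mul, hω, Complex.norm_real, Real.norm_of_nonneg hR.le, mul_one]
        rw [e1]
        refine (abs_norm_sub_norm_le _ _).trans (le_of_eq ?_)
        congr 1
        ring
      have h4 : |‖q0 + (R : ℂ) * ω * q1‖ - R * ‖q1‖| ≤ ‖q0‖ := by
        have e1 : R * ‖q1‖ = ‖(R : ℂ) * ω * q1‖ := by
          rw [norm_mul, norm_mul, hω, Complex.norm_real, Real.norm_of_nonneg hR.le, mul_one]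
        rw [e1]
        refine (abs_norm_sub_norm_le _ _).trans (le_of_eq ?_)
        congr 1
        ring
      rw [h2] at h1
      have h5 : R * L = -(2 * (s0 * (starRingEnd ℂ) d).re) - ‖d‖ ^ 2
          - (‖q0 + (R : ℂ) * ω * q1 + 2 * d * (s0 + (R : ℂ) * ω * s1) + d ^ 2‖ - R * ‖q1 + 2 * d * s1‖)
          + (‖q0 + (R : ℂ) * ω * q1‖ - R * ‖q1‖) := by
        rw [hL]; linarith
      rw [← abs_of_pos hR, ← abs_mul, h5]
      have h6 := abs_le.1 h3
      have h7 := abs_le.1 h4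
      have h8 := neg_abs_le (2 * (s0 * (starRingEnd ℂ) d).re)
      have h9 := le_abs_self (2 * (s0 * (starRingEnd ℂ) d).re)
      have h10 := sq_nonneg ‖d‖
      rw [abs_le]
      constructor <;> linarith [h6.1, h6.2, h7.1, h7.2]
    by_contra hne
    have hpos : 0 < |L| := abs_pos.2 hne
    have hC0 : 0 ≤ C := by positivity
    have := hbd ((C + 1) / |L|) (by positivity)
    rw [div_mul_cancel₀ _ hpos.ne'] at this
    linarith
  have k1 := key 1 (by simp)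
  have k2 := key (-1) (by simp)
  have k3 := key Complex.I (by simp)
  rw [one_mul] at k1
  rw [neg_one_mul, neg_mul, Complex.neg_re] at k2
  have k4 : (Complex.I * s1 * (starRingEnd ℂ) d).re = -(s1 * (starRingEnd ℂ) d).im := by
    rw [mul_assoc, Complex.I_mul_re]
  rw [k4] at k3
  have r1 : (s1 * (starRingEnd ℂ) d).re = 0 := by linarith
  have r2 : (s1 * (starRingEnd ℂ) d).im = 0 := by linarith
  have r3 : s1 * (starRingEnd ℂ) d = 0 := Complex.ext r1 r2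
  rcases mul_eq_zero.1 r3 with h1 | h1
  · rw [h1, zero_mul]
  · rw [map_eq_zero] at h1
    rw [h1, mul_zero]

section
variable {Y : Type*} [NormedAddCommGroup Y] [NormedSpace ℂ Y] [CompleteSpace Y]

/-- a shift which vanishes on idempotents of rank one vanishes at all nonscalar operators -/
theorem kill_of_idem (δ : (Y →L[ℂ] Y) → ℂ)
    (h : ∀ R R', JF 1 (R + δ R • 1) (R' + δ R' • 1) = JF 1 R R')
    (hP : ∀ x f, f x = 1 → δ (rk x f) = 0) (R : Y →L[ℂ] Y) (hR : ¬ ∃ c : ℂ, R = c • 1) :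
    δ R = 0 := by
  obtain ⟨x, k, ⟨hx, hk, hkx⟩, hne⟩ : ∃ x k, Flag x k ∧ k (R x) ≠ 0 := by
    by_contra hc
    push Not at hc
    exact hR (scalar_of_forall_flag R hc)
  obtain ⟨f0, hf0⟩ := exists_one_j5609 hx
  have key : ∀ f : Y →L[ℂ] ℂ, f x = 1 → ‖f (R x)‖ ^ 2 + ‖f (R (R x))‖ =
      ‖f (R x) + δ R‖ ^ 2 + ‖f (R (R x)) + 2 * δ R * f (R x) + δ R ^ 2‖ := by
    intro f hf
    have h1 := h R (rk x f)
    rw [hP x f hf, zero_smul, add_zero, JF_rk, JF_rk] at h1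
    have e1 : f ((R + δ R • (1 : Y →L[ℂ] Y)) x) = f (R x) + δ R := by
      simp [hf]
    have e2 : f ((R + δ R • (1 : Y →L[ℂ] Y)) ((R + δ R • (1 : Y →L[ℂ] Y)) x)) =
        f (R (R x)) + 2 * δ R * f (R x) + δ R ^ 2 := by
      simp [hf]; ring
    rw [e1, e2, hf] at h1
    have e3 : (1 : ℂ) * ((f (R x) + δ R) ^ 2 - 1 * (f (R (R x)) + 2 * δ R * f (R x) + δ R ^ 2)) =
        1 * (f (R x) ^ 2 - 1 * f (R (R x))) := by ring
    rw [e3] at h1
    have h2 := R2_same_det h1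
    have e4 : ((1 + 1) * (f (R x) + δ R)) ^ 2 - 4 * (1 * (f (R x) ^ 2 - 1 * f (R (R x)))) =
        4 * (f (R (R x)) + 2 * δ R * f (R x) + δ R ^ 2) := by ring
    have e5 : ((1 + 1) * f (R x)) ^ 2 - 4 * (1 * (f (R x) ^ 2 - 1 * f (R (R x)))) = 4 * f (R (R x)) := by ring
    rw [e4, e5, norm_mul, norm_mul, norm_mul, norm_mul] at h2
    have n1 : ‖(1 + 1 : ℂ)‖ = 2 := by norm_num
    have n2 : ‖(4 : ℂ)‖ = 4 := by norm_num
    rw [n1, n2] at h2
    nlinarith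
  have h3 := asym_kill (f0 (R x)) (k (R x)) (f0 (R (R x))) (k (R (R x))) (δ R) (by
    intro t
    have := key (f0 + t • k) (by simp [hf0, hkx])
    simpa using this)
  exact (mul_eq_zero.1 h3).resolve_left hne

theorem spec_of_eig_j5609 {T : Y →L[ℂ] Y} {z : ℂ} {v : Y} (hv : v ≠ 0) (h : T v = z • v) :
    z ∈ spectrum ℂ T := by
  rw [spectrum.mem_iff]
  rintro ⟨u, hu⟩
  apply hv
  have h1 : (u : Y →L[ℂ] Y) v = 0 := by
    rw [hu]; simp [Algebra.algebraMap_eq_smul_one, h]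
  have h2 : ((u⁻¹ : (Y →L[ℂ] Y)ˣ) : Y →L[ℂ] Y) ((u : Y →L[ℂ] Y) v) = v := by
    rw [← ContinuousLinearMap.mul_apply, Units.inv_mul]; rfl
  rw [h1, map_zero] at h2
  exact h2.symm

theorem sr_zero'_j5609 : sr (0 : Y →L[ℂ] Y) = 0 := sr_eq_zero_of_sq (by simp)

theorem exists_ker_j5609 (h2 : ∃ v : Fin 2 → Y, LinearIndependent ℂ v) (f : Y →L[ℂ] ℂ) :
    ∃ v : Y, v ≠ 0 ∧ f v = 0 := by
  obtain ⟨v, hv⟩ := h2
  have hv' : LinearIndependent ℂ ![v 0, v 1] := by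
    convert hv using 1
    ext i; fin_cases i <;> rfl
  by_cases h0 : f (v 0) = 0
  · exact ⟨v 0, hv.ne_zero 0, h0⟩
  · refine ⟨f (v 1) • v 0 + (-f (v 0)) • v 1, ?_, ?_⟩
    · intro hc
      have := (LinearIndependent.pair_iff.1 hv' _ _ hc).2
      exact h0 (neg_eq_zero.1 this)
    · simp; ring

theorem idem01_j5609 (h2 : ∃ v : Fin 2 → Y, LinearIndependent ℂ v) (δ : (Y →L[ℂ] Y) → ℂ)
    (h : ∀ R R', JF 1 (R + δ R • 1) (R' + δ R' • 1) = JF 1 R R') (x : Y) (f : Y →L[ℂ] ℂ) (hf : f x = 1) :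
    δ (rk x f) = 0 ∨ δ (rk x f) = -1 := by
  set P := rk x f with hP
  have hx : x ≠ 0 := by rintro rfl; simp at hf
  have hPx : P x = x := by simp [hP, hf]
  have hPP : P * P = P := by
    ext v; simp [hP, hf]
  have h0 : JF 1 P (1 - P) = 0 := by
    unfold JF
    have : P * (1 - P) + (1 : ℂ) • ((1 - P) * P) = 0 := by
      rw [one_smul, mul_sub, sub_mul, mul_one, one_mul, hPP]; simp
    rw [this, sr_zero'_j5609]
  have h1 := h P (1 - P)
  rw [h0] at h1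
  set d := δ P
  set e := δ (1 - P)
  unfold JF at h1
  have k1 : (2 * (1 + d) * e) ∈ spectrum ℂ ((P + d • 1) * (1 - P + e • 1) + (1 : ℂ) • ((1 - P + e • 1) * (P + d • 1))) := by
    apply spec_of_eig_j5609 hx
    have a1 : (P + d • (1 : Y →L[ℂ] Y)) x = (1 + d) • x := by simp [hPx, add_smul]
    have a2 : (1 - P + e • (1 : Y →L[ℂ] Y)) x = e • x := by simp [hPx]
    rw [one_smul, ContinuousLinearMap.add_apply, ContinuousLinearMap.mul_apply, ContinuousLinearMap.mul_apply, a1, a2,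
      map_smul, map_smul, a1, a2, smul_smul, smul_smul, ← add_smul]
    congr 1; ring
  obtain ⟨v, hv, hfv⟩ := exists_ker_j5609 h2 f
  have hPv : P v = 0 := by simp [hP, hfv]
  have k2 : (2 * d * (1 + e)) ∈ spectrum ℂ ((P + d • 1) * (1 - P + e • 1) + (1 : ℂ) • ((1 - P + e • 1) * (P + d • 1))) := by
    apply spec_of_eig_j5609 hv
    have a1 : (P + d • (1 : Y →L[ℂ] Y)) v = d • v := by simp [hPv]
    have a2 : (1 - P + e • (1 : Y →L[ℂ] Y)) v = (1 + e) • v := by simp [hPv, add_smul]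
    rw [one_smul, ContinuousLinearMap.add_apply, ContinuousLinearMap.mul_apply, ContinuousLinearMap.mul_apply, a1, a2,
      map_smul, map_smul, a1, a2, smul_smul, smul_smul, ← add_smul]
    congr 1; ring
  have n1 := norm_le_sr k1
  have n2 := norm_le_sr k2
  rw [h1] at n1 n2
  have m1 := norm_le_zero_iff.1 n1
  have m2 := norm_le_zero_iff.1 n2
  by_cases he : e = 0
  · rw [he] at m2
    left
    simpa using m2
  · right
    have : 2 * (1 + d) = 0 := (mul_eq_zero.1 m1).resolve_right he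
    linear_combination this / 2

theorem idem_step_j5609 (δ : (Y →L[ℂ] Y) → ℂ)
    (h : ∀ R R', JF 1 (R + δ R • 1) (R' + δ R' • 1) = JF 1 R R') (P Q : Y →L[ℂ] Y)
    (hP : δ P = 0 ∨ δ P = -1) (hQ : δ Q = 0 ∨ δ Q = -1) (hPQ : P * Q + Q * P = P + Q)
    (hsr : sr (Q - P) = 0) (h2 : sr (P + Q) = 2) : δ P = δ Q := by
  have h1 := h P Q
  unfold JF at h1
  rw [one_smul, one_smul, hPQ, h2] at h1
  have hsr' : sr (P - Q) = 0 := by
    have : P - Q = (-1 : ℂ) • (Q - P) := by simp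
    rw [this, sr_smul', hsr, mul_zero]
  rcases hP with hP | hP <;> rcases hQ with hQ | hQ
  · rw [hP, hQ]
  · exfalso
    rw [hP, hQ] at h1
    have e : (P + (0 : ℂ) • 1) * (Q + (-1 : ℂ) • 1) + (Q + (-1 : ℂ) • 1) * (P + (0 : ℂ) • 1) = Q - P := by
      rw [zero_smul, add_zero, neg_one_smul, ← sub_eq_add_neg, mul_sub, sub_mul, mul_one, one_mul,
        show P * Q - P + (Q * P - P) = (P * Q + Q * P) - P - P by abel, hPQ]
      abel
    rw [e, hsr] at h1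
    norm_num at h1
  · exfalso
    rw [hP, hQ] at h1
    have e : (P + (-1 : ℂ) • 1) * (Q + (0 : ℂ) • 1) + (Q + (0 : ℂ) • 1) * (P + (-1 : ℂ) • 1) = P - Q := by
      rw [zero_smul, add_zero, neg_one_smul, ← sub_eq_add_neg, mul_sub, sub_mul, mul_one, one_mul,
        show P * Q - Q + (Q * P - Q) = (P * Q + Q * P) - Q - Q by abel, hPQ]
      abel
    rw [e, hsr'] at h1
    norm_num at h1
  · rw [hP, hQ]

theorem idem_same_vec_j5609 (h2 : ∃ v : Fin 2 → Y, LinearIndependent ℂ v) (δ : (Y →L[ℂ] Y) → ℂ)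
    (h : ∀ R R', JF 1 (R + δ R • 1) (R' + δ R' • 1) = JF 1 R R') (x : Y) (f k : Y →L[ℂ] ℂ)
    (hf : f x = 1) (hk : k x = 1) : δ (rk x f) = δ (rk x k) := by
  apply idem_step_j5609 δ h _ _ (idem01_j5609 h2 δ h x f hf) (idem01_j5609 h2 δ h x k hk)
  · ext v; simp [hf, hk]; abel
  · have : rk x k - rk x f = rk x (k - f) := by ext v; simp [sub_smul]
    rw [this, sr_rank_one]; simp [hf, hk]
  · have : rk x f + rk x k = rk x (f + k) := by ext v; simp [add_smul]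
    rw [this, sr_rank_one]; simp [hf, hk]; norm_num

theorem idem_same_fun_j5609 (h2 : ∃ v : Fin 2 → Y, LinearIndependent ℂ v) (δ : (Y →L[ℂ] Y) → ℂ)
    (h : ∀ R R', JF 1 (R + δ R • 1) (R' + δ R' • 1) = JF 1 R R') (x y : Y) (f : Y →L[ℂ] ℂ)
    (hf : f x = 1) (hk : f y = 1) : δ (rk x f) = δ (rk y f) := by
  apply idem_step_j5609 δ h _ _ (idem01_j5609 h2 δ h x f hf) (idem01_j5609 h2 δ h y f hk)
  · ext v; simp [hf, hk]
  · have : rk y f - rk x f = rk (y - x) f := by ext v; simp [smul_sub]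
    rw [this, sr_rank_one]; simp [hf, hk]
  · have : rk x f + rk y f = rk (x + y) f := by ext v; simp [smul_add]
    rw [this, sr_rank_one]; simp [hf, hk]; norm_num

theorem idem_eq_j5609 (h2 : ∃ v : Fin 2 → Y, LinearIndependent ℂ v) (δ : (Y →L[ℂ] Y) → ℂ)
    (h : ∀ R R', JF 1 (R + δ R • 1) (R' + δ R' • 1) = JF 1 R R') (x y : Y) (f l : Y →L[ℂ] ℂ)
    (hf : f x = 1) (hl : l y = 1) : δ (rk x f) = δ (rk y l) := by
  obtain ⟨k, hkx, hky⟩ : ∃ k : Y →L[ℂ] ℂ, k x ≠ 0 ∧ k y ≠ 0 := by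
    by_cases h1 : f y = 0
    · by_cases h3 : l x = 0
      · exact ⟨f + l, by simp [hf, h3], by simp [h1, hl]⟩
      · exact ⟨l, h3, by rw [hl]; exact one_ne_zero⟩
    · exact ⟨f, by rw [hf]; exact one_ne_zero, h1⟩
  have e1 : rk x ((k x)⁻¹ • k) = rk ((k x)⁻¹ • x) k := by
    ext v; simp [smul_smul, mul_comm]
  have e2 : rk y ((k y)⁻¹ • k) = rk ((k y)⁻¹ • y) k := by
    ext v; simp [smul_smul, mul_comm]
  rw [idem_same_vec_j5609 h2 δ h x f ((k x)⁻¹ • k) hf (by simp [hkx]), e1,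
    idem_same_fun_j5609 h2 δ h ((k x)⁻¹ • x) ((k y)⁻¹ • y) k (by simp [hkx]) (by simp [hky]), ← e2]
  exact (idem_same_vec_j5609 h2 δ h y l ((k y)⁻¹ • k) hl (by simp [hky])).symm

/-- values of the shift at idempotents of rank one -/
theorem idem_val (h2 : ∃ v : Fin 2 → Y, LinearIndependent ℂ v) (δ : (Y →L[ℂ] Y) → ℂ)
    (h : ∀ R R', JF 1 (R + δ R • 1) (R' + δ R' • 1) = JF 1 R R') :
    (∀ x f, f x = 1 → δ (rk x f) = 0) ∨ (∀ x f, f x = 1 → δ (rk x f) = -1) := by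
  by_contra hc
  push Not at hc
  obtain ⟨⟨x, f, hf, h1⟩, ⟨y, l, hl, h3⟩⟩ := hc
  have e1 := (idem01_j5609 h2 δ h x f hf).resolve_left h1
  have e2 := (idem01_j5609 h2 δ h y l hl).resolve_right h3
  have := idem_eq_j5609 h2 δ h x y f l hf hl
  rw [e1, e2] at this
  norm_num at this

theorem idem_val3 (h3 : ∃ v : Fin 3 → Y, LinearIndependent ℂ v) (δ : (Y →L[ℂ] Y) → ℂ)
    (h : ∀ R R', JF 1 (R + δ R • 1) (R' + δ R' • 1) = JF 1 R R') :
    ∀ x f, f x = 1 → δ (rk x f) = 0 := by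
  obtain ⟨v, hv⟩ := h3
  have h2 : ∃ v : Fin 2 → Y, LinearIndependent ℂ v :=
    ⟨v ∘ Fin.castSucc, hv.comp _ (Fin.castSucc_injective 2)⟩
  rcases idem_val h2 δ h with h4 | h4
  · exact h4
  · exfalso
    have hdual : ∀ i j k : Fin 3, i ≠ j → i ≠ k → j ≠ k →
        ∃ g : Y →L[ℂ] ℂ, g (v j) = 0 ∧ g (v k) = 0 ∧ g (v i) = 1 := by
      intro i j k hij hik hjk
      have hjk' : LinearIndependent ℂ ![v j, v k] := by
        have := hv.comp ![j, k] (by
          intro a b hab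
          fin_cases a <;> fin_cases b <;> simp_all)
        convert this using 1
        ext a; fin_cases a <;> rfl
      by_contra hc
      push Not at hc
      obtain ⟨c, d, hcd⟩ := span_vec (x2 := v i) hjk' (by
        intro g hg1 hg2
        by_contra hne
        exact hc ((g (v i))⁻¹ • g) (by simp [hg1]) (by simp [hg2]) (by simp [hne]))
      have hlin := Fintype.linearIndependent_iff.1 hv
        (fun a => if a = i then -1 else if a = j then c else d) (by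
          have hsum : ∑ a : Fin 3, (if a = i then (-1 : ℂ) else if a = j then c else d) • v a =
              (-1 : ℂ) • v i + c • v j + d • v k := by
            have huniv : (Finset.univ : Finset (Fin 3)) = {i, j, k} := by
              apply Eq.symm
              rw [Finset.eq_univ_iff_forall]
              intro a
              fin_cases a <;> fin_cases i <;> fin_cases j <;> fin_cases k <;> simp_all
            rw [huniv, Finset.sum_insert (by simp [hij, hik]), Finset.sum_insert (by simp [hjk]),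
              Finset.sum_singleton]
            simp [hij.symm, hik.symm, hjk.symm]
            abel
          rw [hsum, hcd]; simp) i
      simp at hlin
    obtain ⟨f0, a1, a2, a0⟩ := hdual 0 1 2 (by decide) (by decide) (by decide)
    obtain ⟨f1, b0, b2, b1⟩ := hdual 1 0 2 (by decide) (by decide) (by decide)
    have h5 := h (rk (v 0) f0) (rk (v 1) f1)
    rw [h4 _ _ a0, h4 _ _ b1] at h5
    have e0 : JF 1 (rk (v 0) f0) (rk (v 1) f1) = 0 := by
      unfold JF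
      have : rk (v 0) f0 * rk (v 1) f1 + (1 : ℂ) • (rk (v 1) f1 * rk (v 0) f0) = 0 := by
        ext u; simp [a1, b0]
      rw [this, sr_zero'_j5609]
    rw [e0] at h5
    unfold JF at h5
    have k1 : (2 : ℂ) ∈ spectrum ℂ ((rk (v 0) f0 + (-1 : ℂ) • 1) * (rk (v 1) f1 + (-1 : ℂ) • 1) +
        (1 : ℂ) • ((rk (v 1) f1 + (-1 : ℂ) • 1) * (rk (v 0) f0 + (-1 : ℂ) • 1))) := by
      apply spec_of_eig_j5609 (hv.ne_zero 2)
      simp [a2, b2]
      rw [two_smul]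
    have := norm_le_sr k1
    rw [h5] at this
    norm_num at this

theorem M2_adj_j5609 (A B : M2) : (A.trace • (1 : M2) - A) * (B.trace • (1 : M2) - B) +
    (B.trace • (1 : M2) - B) * (A.trace • (1 : M2) - A) =
    (A * B + B * A).trace • (1 : M2) - (A * B + B * A) := by
  ext i j
  fin_cases i <;> fin_cases j <;>
    simp [Matrix.mul_apply, Matrix.trace, Fin.sum_univ_two] <;> ring

theorem M2_spec_j5609 (A : M2) : spectrum ℂ (A.trace • (1 : M2) - A) = spectrum ℂ A := by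
  ext z
  rw [spectrum.mem_iff, spectrum.mem_iff, not_iff_not, Matrix.isUnit_iff_isUnit_det, Matrix.isUnit_iff_isUnit_det]
  have : (algebraMap ℂ M2 z - (A.trace • (1 : M2) - A)).det = (algebraMap ℂ M2 z - A).det := by
    simp only [Algebra.algebraMap_eq_smul_one, Matrix.det_fin_two, Matrix.trace, Fin.sum_univ_two, Matrix.sub_apply,
      Matrix.smul_apply, Matrix.diag_apply, Matrix.one_apply_eq, smul_eq_mul, mul_one]
    simp
    ring
  rw [this]

/-- the shift in dimension two -/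
theorem kill_2 (h2 : ∃ v : Fin 2 → Y, LinearIndependent ℂ v)
    (h3 : ¬ ∃ v : Fin 3 → Y, LinearIndependent ℂ v) (δ : (Y →L[ℂ] Y) → ℂ)
    (h : ∀ R R', JF 1 (R + δ R • 1) (R' + δ R' • 1) = JF 1 R R') :
    (∀ R, (¬ ∃ c : ℂ, R = c • 1) → δ R = 0) ∨
    (∀ R : Y →L[ℂ] Y, (¬ ∃ c : ℂ, R = c • 1) →
      δ R = -LinearMap.trace ℂ Y (R : Y →ₗ[ℂ] Y)) := by
  rcases idem_val h2 δ h with h4 | h4
  · left; exact fun R hR => kill_of_idem δ h h4 R hR
  · right
    obtain ⟨v, hv⟩ := h2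
    have hspan : ⊤ ≤ Submodule.span ℂ (Set.range v) := by
      intro y _
      by_contra hy
      exact h3 ⟨Fin.cons y v, hv.finCons hy⟩
    let b : Module.Basis (Fin 2) ℂ Y := Module.Basis.mk hv hspan
    haveI : FiniteDimensional ℂ Y := Module.Finite.of_basis b
    let Φ : (Y →L[ℂ] Y) ≃ₐ[ℂ] M2 :=
      (Module.End.toContinuousLinearMap Y).symm.trans (LinearMap.toMatrixAlgEquiv b)
    have htr : ∀ R : Y →L[ℂ] Y, LinearMap.trace ℂ Y (R : Y →ₗ[ℂ] Y) = (Φ R).trace := by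
      intro R
      rw [LinearMap.trace_eq_matrix_trace ℂ b]
      rfl
    have hadj : ∀ A B : Y →L[ℂ] Y, ((Φ A).trace • (1 : Y →L[ℂ] Y) - A) * ((Φ B).trace • (1 : Y →L[ℂ] Y) - B) +
        ((Φ B).trace • (1 : Y →L[ℂ] Y) - B) * ((Φ A).trace • (1 : Y →L[ℂ] Y) - A) =
        (Φ (A * B + B * A)).trace • (1 : Y →L[ℂ] Y) - (A * B + B * A) := by
      intro A B
      apply Φ.injective
      simp only [map_add, map_mul, map_sub, map_smul, map_one]
      exact M2_adj_j5609 (Φ A) (Φ B)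
    have hspec : ∀ A : Y →L[ℂ] Y, spectrum ℂ ((Φ A).trace • (1 : Y →L[ℂ] Y) - A) = spectrum ℂ A := by
      intro A
      rw [← AlgEquiv.spectrum_eq Φ, ← AlgEquiv.spectrum_eq Φ A]
      simp only [map_sub, map_smul, map_one]
      exact M2_spec_j5609 (Φ A)
    have hsr : ∀ A : Y →L[ℂ] Y, sr ((Φ A).trace • (1 : Y →L[ℂ] Y) - A) = sr A := by
      intro A
      unfold sr spectralRadius
      rw [hspec A]
    have hJ : ∀ A B : Y →L[ℂ] Y, JF 1 ((Φ A).trace • (1 : Y →L[ℂ] Y) - A) ((Φ B).trace • (1 : Y →L[ℂ] Y) - B) =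
        JF 1 A B := by
      intro A B
      unfold JF
      rw [one_smul, one_smul, hadj, hsr]
    have htrace1 : ((1 : M2)).trace = 2 := by simp [Matrix.trace]
    have hshift : ∀ (A : Y →L[ℂ] Y) (c : ℂ), (Φ (A + c • 1)).trace = (Φ A).trace + 2 * c := by
      intro A c
      rw [map_add, map_smul, map_one, Matrix.trace_add, Matrix.trace_smul, htrace1, smul_eq_mul]
      ring
    have hkill := kill_of_idem (fun R => -(Φ R).trace - δ R) (by
      intro R R'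
      have e : ∀ A : Y →L[ℂ] Y, A + (-(Φ A).trace - δ A) • (1 : Y →L[ℂ] Y) =
          (-1 : ℂ) • ((Φ (A + δ A • 1)).trace • (1 : Y →L[ℂ] Y) - (A + δ A • 1)) := by
        intro A
        rw [hshift]
        module
      show JF 1 (R + (-(Φ R).trace - δ R) • 1) (R' + (-(Φ R').trace - δ R') • 1) = JF 1 R R'
      rw [e R, e R', JF_smul_left, JF_smul_right, hJ, h]
      simp) (by
      intro x f hf
      show -(Φ (rk x f)).trace - δ (rk x f) = 0
      rw [h4 x f hf, ← htr]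
      have : LinearMap.trace ℂ Y ((rk x f : Y →L[ℂ] Y) : Y →ₗ[ℂ] Y) = f x := by
        have e : ((rk x f : Y →L[ℂ] Y) : Y →ₗ[ℂ] Y) = LinearMap.smulRight (f : Y →ₗ[ℂ] ℂ) x := by
          ext v; rfl
        rw [e, LinearMap.trace_smulRight]
        rfl
      rw [this, hf]; ring)
    intro R hR
    have := hkill R hR
    rw [htr]
    have h5 : -(Φ R).trace - δ R = 0 := this
    linear_combination -h5

end


end j5609

-- part 5623
section j5623
section srbasic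
variable {X : Type*} [NormedAddCommGroup X] [NormedSpace ℂ X]

theorem sr_nonneg_j5623 (T : X →L[ℂ] X) : 0 ≤ sr T := ENNReal.toReal_nonneg

variable [CompleteSpace X]

end srbasic

section basic
variable {Z : Type*} [NormedAddCommGroup Z] [NormedSpace ℂ Z]

theorem exists_one_j5623 {z : Z} (hz : z ≠ 0) : ∃ k : Z →L[ℂ] ℂ, k z = 1 :=
  SeparatingDual.exists_eq_one hz

end basic

section JF
variable {X : Type*} [NormedAddCommGroup X] [NormedSpace ℂ X] [CompleteSpace X]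

end JF

section cd
variable {X Y : Type*} [NormedAddCommGroup X] [NormedSpace ℂ X] [CompleteSpace X]
  [NormedAddCommGroup Y] [NormedSpace ℂ Y] [CompleteSpace Y]

end cd

section
variable {X Y : Type*} [NormedAddCommGroup X] [NormedSpace ℂ X] [CompleteSpace X]
    [NormedAddCommGroup Y] [NormedSpace ℂ Y] [CompleteSpace Y]

lemma sr_one'_j5623 [Nontrivial Y] : sr (1 : Y →L[ℂ] Y) = 1 := by
  obtain ⟨z, hz, hz2⟩ := exists_spec_eq_sr (1 : Y →L[ℂ] Y)
  rw [spectrum.one_eq] at hz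
  rw [← hz2, Set.mem_singleton_iff.1 hz, norm_one]

lemma sr_scalar_j5623 [Nontrivial Y] (c : ℂ) : sr (c • (1 : Y →L[ℂ] Y)) = ‖c‖ := by
  rw [sr_smul', sr_one'_j5623, mul_one]

lemma exists_unit_of_scalar_j5623 [Nontrivial Y] (T : X →L[ℂ] X) (φT ρT : Y →L[ℂ] Y)
    (h1 : JF 1 φT φT = JF 1 T T) (h2 : JF 1 ρT ρT = JF 1 T T) (c e : ℂ) (hc : ρT = c • 1)
    (he : φT = e • 1) : ∃ u : ℂ, ‖u‖ = 1 ∧ φT = u • (c • (1 : Y →L[ℂ] Y)) := by
  have h3 : ‖e‖ = ‖c‖ := by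
    rw [← h2, JF_one_self, JF_one_self, hc, he, sr_scalar_j5623, sr_scalar_j5623] at h1
    have h4 : ‖e‖ ^ 2 = ‖c‖ ^ 2 := by linarith
    exact (pow_left_inj₀ (norm_nonneg _) (norm_nonneg _) two_ne_zero).1 h4
  by_cases hc0 : c = 0
  · refine ⟨1, norm_one, ?_⟩
    rw [hc0, norm_zero, norm_eq_zero] at h3
    rw [he, h3, hc0]; simp
  · refine ⟨e / c, ?_, ?_⟩
    · rw [norm_div, h3, div_self]
      exact norm_ne_zero_iff.2 hc0
    · rw [he, smul_smul, div_mul_cancel₀ _ hc0]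

/-- the function `δ` -/
lemma delta_ex_j5623 (φ ρ : (X →L[ℂ] X) → (Y →L[ℂ] Y)) (hρ : Function.Bijective ρ)
    (hJ : ∀ T S, JF 1 (ρ T) (ρ S) = JF 1 T S)
    (h : ∀ T S, JF 1 (φ T) (φ S) = JF 1 T S) (θ d : (X →L[ℂ] X) → ℂ) (hθ : ∀ T, ‖θ T‖ = 1)
    (hφ : ∀ T, φ T = θ T • ρ T + d T • 1) :
    ∃ δ : (Y →L[ℂ] Y) → ℂ, (∀ R R', JF 1 (R + δ R • 1) (R' + δ R' • 1) = JF 1 R R') ∧
      ∀ T, δ (ρ T) = d T / θ T := by
  have hθ0 : ∀ T, θ T ≠ 0 := fun T h0 => by
    have := hθ T; rw [h0, norm_zero] at this; exact zero_ne_one this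
  let r := Function.surjInv hρ.2
  have hr : ∀ R, ρ (r R) = R := Function.surjInv_eq hρ.2
  have hr2 : ∀ T, r (ρ T) = T := fun T => hρ.1 (hr (ρ T))
  refine ⟨fun R => d (r R) / θ (r R), ?_, ?_⟩
  · intro R R'
    have e : ∀ R, R + (d (r R) / θ (r R)) • (1 : Y →L[ℂ] Y) = (θ (r R))⁻¹ • φ (r R) := by
      intro R
      rw [hφ, hr, smul_add, smul_smul, smul_smul, inv_mul_cancel₀ (hθ0 _), one_smul,
        inv_mul_eq_div]
    simp only [e]
    rw [JF_smul_left, JF_smul_right, h, ← hJ, hr, hr]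
    simp [hθ]
  · intro T
    simp only [hr2]

lemma finish_j5623 (φ ρ : (X →L[ℂ] X) → (Y →L[ℂ] Y)) (hρ : Function.Bijective ρ)
    (hJ : ∀ T S, JF 1 (ρ T) (ρ S) = JF 1 T S)
    (h : ∀ T S, JF 1 (φ T) (φ S) = JF 1 T S) (θ d : (X →L[ℂ] X) → ℂ) (hθ : ∀ T, ‖θ T‖ = 1)
    (hφ : ∀ T, φ T = θ T • ρ T + d T • 1) (hnt : Nontrivial Y)
    (hδ : ∀ δ : (Y →L[ℂ] Y) → ℂ, (∀ R R', JF 1 (R + δ R • 1) (R' + δ R' • 1) = JF 1 R R') →
      ∀ R, (¬ ∃ c : ℂ, R = c • 1) → δ R = 0) (T : X →L[ℂ] X) :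
    ∃ c : ℂ, ‖c‖ = 1 ∧ φ T = c • ρ T := by
  have hθ0 : ∀ T, θ T ≠ 0 := fun T h0 => by
    have := hθ T; rw [h0, norm_zero] at this; exact zero_ne_one this
  obtain ⟨δ, h1, h2⟩ := delta_ex_j5623 φ ρ hρ hJ h θ d hθ hφ
  by_cases hs : ∃ c : ℂ, ρ T = c • 1
  · obtain ⟨c, hc⟩ := hs
    obtain ⟨u, hu, hu2⟩ := exists_unit_of_scalar_j5623 T (φ T) (ρ T) (h T T) (hJ T T) c
      (θ T * c + d T) hc (by rw [hφ, hc, smul_smul, add_smul])
    exact ⟨u, hu, by rw [hu2, hc]⟩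
  · have h3 := hδ δ h1 (ρ T) hs
    rw [h2, div_eq_zero_iff, or_iff_left (hθ0 T)] at h3
    refine ⟨θ T, hθ T, ?_⟩
    rw [hφ, h3]; simp

section rho
variable {σ : ℂ →+* ℂ} [RingHomInvPair σ σ] [RingHomIsometric σ]

noncomputable def rho1_j5623 (A : X ≃SL[σ] Y) (T : X →L[ℂ] X) : Y →L[ℂ] Y :=
  (A : X →SL[σ] Y).comp (T.comp (A.symm : Y →SL[σ] X))

omit [CompleteSpace X] [CompleteSpace Y] [RingHomIsometric σ] in
lemma rho1_apply_j5623 (A : X ≃SL[σ] Y) (T : X →L[ℂ] X) (y : Y) : rho1_j5623 A T y = A (T (A.symm y)) := rfl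

omit [CompleteSpace X] [CompleteSpace Y] [RingHomIsometric σ] in
lemma rho1_bij_j5623 (A : X ≃SL[σ] Y) : Function.Bijective (rho1_j5623 A) := by
  constructor
  · intro T S hTS
    ext x
    have := congrArg (fun R : Y →L[ℂ] Y => R (A x)) hTS
    simpa [rho1_apply_j5623] using this
  · intro R
    refine ⟨(A.symm : Y →SL[σ] X).comp (R.comp (A : X →SL[σ] Y)), ?_⟩
    ext y
    rw [rho1_apply_j5623]
    simp

lemma rho1_JF_j5623 (A : X ≃SL[σ] Y) (T S : X →L[ℂ] X) : JF 1 (rho1_j5623 A T) (rho1_j5623 A S) = JF 1 T S := by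
  unfold JF
  refine sr_conj A _ _ (fun x => ?_)
  simp [rho1_apply_j5623]

noncomputable def rho2_j5623 (A : (X →L[ℂ] ℂ) ≃SL[σ] Y) (T : X →L[ℂ] X) : Y →L[ℂ] Y :=
  (A : (X →L[ℂ] ℂ) →SL[σ] Y).comp
    (((ContinuousLinearMap.compL ℂ X X ℂ).flip T).comp (A.symm : Y →SL[σ] (X →L[ℂ] ℂ)))

omit [CompleteSpace X] [CompleteSpace Y] [RingHomIsometric σ] in
lemma rho2_apply_j5623 (A : (X →L[ℂ] ℂ) ≃SL[σ] Y) (T : X →L[ℂ] X) (y : Y) :
    rho2_j5623 A T y = A ((A.symm y).comp T) := rfl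

omit [CompleteSpace X] [CompleteSpace Y] [RingHomIsometric σ] in
lemma rho2_bij_j5623 (hX : IsRefl X) (A : (X →L[ℂ] ℂ) ≃SL[σ] Y) : Function.Bijective (rho2_j5623 A) := by
  have sep : ∀ x y : X, (∀ f : X →L[ℂ] ℂ, f x = f y) → x = y := by
    intro x y hxy
    by_contra hne
    obtain ⟨f, hf⟩ := SeparatingDual.exists_separating_of_ne (R := ℂ) hne
    exact hf (hxy f)
  constructor
  · intro T S hTS
    ext x
    apply sep
    intro f
    have := congrArg (fun R : Y →L[ℂ] Y => A.symm (R (A f))) hTS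
    simp only [rho2_apply_j5623, ContinuousLinearEquiv.symm_apply_apply] at this
    exact congrArg (fun g : X →L[ℂ] ℂ => g x) this
  · intro R
    let S : (X →L[ℂ] ℂ) →L[ℂ] (X →L[ℂ] ℂ) :=
      (A.symm : Y →SL[σ] (X →L[ℂ] ℂ)).comp (R.comp (A : (X →L[ℂ] ℂ) →SL[σ] Y))
    have hS : ∀ f, S f = A.symm (R (A f)) := fun f => rfl
    have hex : ∀ x : X, ∃ x' : X, ∀ f : X →L[ℂ] ℂ, f x' = (S f) x := by
      intro x
      obtain ⟨x', hx'⟩ := hX ((ContinuousLinearMap.apply ℂ ℂ x).comp S)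
      refine ⟨x', fun f => ?_⟩
      have := congrArg (fun F : (X →L[ℂ] ℂ) →L[ℂ] ℂ => F f) hx'
      simpa using this
    choose T0 hT0 using hex
    let T1 : X →ₗ[ℂ] X :=
      { toFun := T0
        map_add' := fun x y => by
          apply sep
          intro f
          rw [map_add, hT0, hT0, hT0, map_add]
        map_smul' := fun c x => by
          apply sep
          intro f
          rw [map_smul, hT0, hT0, map_smul]; rfl }
    let T : X →L[ℂ] X := T1.mkContinuous ‖S‖ (by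
      intro x
      obtain ⟨g, hg1, hg2⟩ := exists_dual_vector'' ℂ (T0 x)
      have h1 : ‖g (T0 x)‖ ≤ ‖S‖ * ‖x‖ := by
        rw [hT0]
        calc ‖(S g) x‖ ≤ ‖S g‖ * ‖x‖ := (S g).le_opNorm x
          _ ≤ (‖S‖ * ‖g‖) * ‖x‖ := mul_le_mul_of_nonneg_right (S.le_opNorm g) (norm_nonneg _)
          _ ≤ (‖S‖ * 1) * ‖x‖ := by gcongr
          _ = ‖S‖ * ‖x‖ := by ring
      rw [hg2] at h1
      simpa [T1] using h1)
    refine ⟨T, ?_⟩
    ext y
    rw [rho2_apply_j5623]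
    have h1 : (A.symm y).comp T = S (A.symm y) := by
      ext x
      exact hT0 x _
    rw [h1, hS]
    simp

lemma rho2_JF_j5623 (A : (X →L[ℂ] ℂ) ≃SL[σ] Y) (T S : X →L[ℂ] X) :
    JF 1 (rho2_j5623 A T) (rho2_j5623 A S) = JF 1 T S := by
  unfold JF
  refine sr_dual A _ _ (fun f => ?_)
  simp only [add_apply, mul_apply_eq_comp, one_smul, rho2_apply_j5623,
    ContinuousLinearEquiv.symm_apply_apply]
  rw [← map_add]
  congr 1
  ext x
  simp only [add_apply, ContinuousLinearMap.comp_apply,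
    mul_apply_eq_comp, map_add]
  ring

end rho

lemma formS_of_formT_j5623 (φ : (X →L[ℂ] X) → (Y →L[ℂ] Y))
    (h : ∀ T S, JF 1 (φ T) (φ S) = JF 1 T S) (hnt : Nontrivial Y)
    (hδ : ∀ δ : (Y →L[ℂ] Y) → ℂ, (∀ R R', JF 1 (R + δ R • 1) (R' + δ R' • 1) = JF 1 R R') →
      ∀ R, (¬ ∃ c : ℂ, R = c • 1) → δ R = 0) (hF : FormT φ) : FormS φ := by
  rcases hF with (⟨A, hA⟩ | ⟨A, hA⟩) | ⟨hR, ⟨A, hA⟩ | ⟨A, hA⟩⟩
  · choose θ d hθ hφ using hA
    refine Or.inl (Or.inl ⟨A, fun T => ?_⟩)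
    obtain ⟨c, hc, hc2⟩ := finish_j5623 φ (rho1_j5623 A) (rho1_bij_j5623 A) (rho1_JF_j5623 A) h θ d hθ
      (fun T => by ext y; rw [hφ]; rfl) hnt hδ T
    exact ⟨c, hc, fun y => by rw [hc2]; rfl⟩
  · choose θ d hθ hφ using hA
    refine Or.inl (Or.inr ⟨A, fun T => ?_⟩)
    obtain ⟨c, hc, hc2⟩ := finish_j5623 φ (rho1_j5623 A) (rho1_bij_j5623 A) (rho1_JF_j5623 A) h θ d hθ
      (fun T => by ext y; rw [hφ]; rfl) hnt hδ T
    exact ⟨c, hc, fun y => by rw [hc2]; rfl⟩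
  · choose θ d hθ hφ using hA
    refine Or.inr ⟨hR, Or.inl ⟨A, fun T => ?_⟩⟩
    obtain ⟨c, hc, hc2⟩ := finish_j5623 φ (rho2_j5623 A) (rho2_bij_j5623 hR A) (rho2_JF_j5623 A) h θ d hθ
      (fun T => by ext y; rw [hφ]; rfl) hnt hδ T
    exact ⟨c, hc, fun y => by rw [hc2]; rfl⟩
  · choose θ d hθ hφ using hA
    refine Or.inr ⟨hR, Or.inr ⟨A, fun T => ?_⟩⟩
    obtain ⟨c, hc, hc2⟩ := finish_j5623 φ (rho2_j5623 A) (rho2_bij_j5623 hR A) (rho2_JF_j5623 A) h θ d hθ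
      (fun T => by ext y; rw [hφ]; rfl) hnt hδ T
    exact ⟨c, hc, fun y => by rw [hc2]; rfl⟩

omit [CompleteSpace X] in
lemma basis2_j5623 (h2 : ∃ v : Fin 2 → X, LinearIndependent ℂ v)
    (h3 : ¬ ∃ v : Fin 3 → X, LinearIndependent ℂ v) : Nonempty (Module.Basis (Fin 2) ℂ X) := by
  obtain ⟨v, hv⟩ := h2
  refine ⟨Module.Basis.mk hv ?_⟩
  intro x _
  by_contra hx
  exact h3 ⟨Fin.cons x v, (linearIndependent_finCons).2 ⟨hv, hx⟩⟩

omit [CompleteSpace X] in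
lemma trace2_j5623 (b : Module.Basis (Fin 2) ℂ X) (R : X →L[ℂ] X) :
    LinearMap.trace ℂ X (R : X →ₗ[ℂ] X) = b.repr (R (b 0)) 0 + b.repr (R (b 1)) 1 := by
  rw [LinearMap.trace_eq_matrix_trace ℂ b, Matrix.trace_fin_two, LinearMap.toMatrix_apply,
    LinearMap.toMatrix_apply]
  rfl

omit [CompleteSpace X] in
lemma repr_T_j5623 (b : Module.Basis (Fin 2) ℂ X) (T : X →L[ℂ] X) (y : X) (i : Fin 2) :
    b.repr (T y) i = b.repr y 0 * b.repr (T (b 0)) i + b.repr y 1 * b.repr (T (b 1)) i := by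
  have h := b.sum_repr y
  rw [Fin.sum_univ_two] at h
  conv_lhs => rw [← h]
  simp only [map_add, map_smul, Finsupp.add_apply, Finsupp.smul_apply, smul_eq_mul]

omit [CompleteSpace X] in
lemma adj2_j5623 (b : Module.Basis (Fin 2) ℂ X) (T : X →L[ℂ] X) (x y : X) :
    b.repr x 0 * b.repr (T y) 1 - b.repr x 1 * b.repr (T y) 0 =
      b.repr (LinearMap.trace ℂ X (T : X →ₗ[ℂ] X) • x - T x) 0 * b.repr y 1 -
      b.repr (LinearMap.trace ℂ X (T : X →ₗ[ℂ] X) • x - T x) 1 * b.repr y 0 := by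
  rw [trace2_j5623 b]
  simp only [map_sub, map_smul, Finsupp.sub_apply, Finsupp.smul_apply, smul_eq_mul]
  rw [repr_T_j5623 b T y 1, repr_T_j5623 b T y 0, repr_T_j5623 b T x 0, repr_T_j5623 b T x 1]
  ring

/-- the wedge equivalence -/
lemma exists_wedge_j5623 (b : Module.Basis (Fin 2) ℂ X) : ∃ J : X ≃L[ℂ] (X →L[ℂ] ℂ),
    ∀ x y, J x y = b.repr x 0 * b.repr y 1 - b.repr x 1 * b.repr y 0 := by
  haveI : FiniteDimensional ℂ X := Module.Basis.finiteDimensional_of_finite b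
  let c : Fin 2 → (X →L[ℂ] ℂ) := fun i => LinearMap.toContinuousLinearMap (b.coord i)
  have hc : ∀ i y, c i y = b.repr y i := fun i y => rfl
  let J0 : X ≃ₗ[ℂ] (X →L[ℂ] ℂ) :=
    { toFun := fun x => b.repr x 0 • c 1 - b.repr x 1 • c 0
      map_add' := fun x y => by
        ext z
        simp only [map_add, Finsupp.add_apply, sub_apply, smul_apply, add_apply, smul_eq_mul]
        ring
      map_smul' := fun a x => by
        simp only [map_smul, Finsupp.smul_apply, smul_eq_mul, mul_smul, RingHom.id_apply, smul_sub]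
      invFun := fun f => f (b 1) • b 0 - f (b 0) • b 1
      left_inv := fun x => by
        have h := b.sum_repr x
        rw [Fin.sum_univ_two] at h
        simp only [sub_apply, smul_apply, hc,
          Module.Basis.repr_self, smul_eq_mul, Finsupp.single_eq_same]
        conv_rhs => rw [← h]
        simp
      right_inv := fun f => by
        ext y
        have h := b.sum_repr y
        rw [Fin.sum_univ_two] at h
        conv_rhs => rw [← h]
        simp only [sub_apply, smul_apply, hc, map_sub,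
          map_smul, Finsupp.sub_apply, Finsupp.smul_apply,
          Module.Basis.repr_self, smul_eq_mul, map_add]
        simp
        ring }
  refine ⟨J0.toContinuousLinearEquiv, fun x y => ?_⟩
  simp [J0, hc]

omit [CompleteSpace X] in
lemma refl2_j5623 (b : Module.Basis (Fin 2) ℂ X) : IsRefl X := by
  haveI : FiniteDimensional ℂ X := Module.Basis.finiteDimensional_of_finite b
  let c : Fin 2 → (X →L[ℂ] ℂ) := fun i => LinearMap.toContinuousLinearMap (b.coord i)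
  have hc : ∀ i y, c i y = b.repr y i := fun i y => rfl
  intro F
  refine ⟨F (c 0) • b 0 + F (c 1) • b 1, ?_⟩
  ext f
  have hf : f = f (b 0) • c 0 + f (b 1) • c 1 := by
    ext y
    have h := b.sum_repr y
    rw [Fin.sum_univ_two] at h
    conv_lhs => rw [← h]
    simp only [map_add, map_smul, smul_eq_mul]
    simp [hc]
    ring
  conv_rhs => rw [hf]
  simp only [map_add, map_smul, smul_eq_mul, add_apply, smul_apply, ContinuousLinearMap.apply_apply]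
  ring

section tr
variable {σ : ℂ →+* ℂ} [RingHomInvPair σ σ] [RingHomIsometric σ]

omit [CompleteSpace X] [CompleteSpace Y] [RingHomIsometric σ] in
lemma trace_rho1_j5623 (b : Module.Basis (Fin 2) ℂ X) (A : X ≃SL[σ] Y) (T : X →L[ℂ] X) :
    LinearMap.trace ℂ Y (rho1_j5623 A T : Y →ₗ[ℂ] Y) = σ (LinearMap.trace ℂ X (T : X →ₗ[ℂ] X)) := by
  have hσ : ∀ z, σ (σ z) = z := fun z => RingHomInvPair.comp_apply_eq
  let e : Y ≃ₗ[ℂ] (Fin 2 → ℂ) :=
    { toFun := fun y i => σ (b.repr (A.symm y) i)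
      map_add' := fun x y => by
        funext i
        simp only [map_add, Finsupp.add_apply, Pi.add_apply]
      map_smul' := fun c x => by
        funext i
        simp only [map_smulₛₗ, RingHom.id_apply, Finsupp.smul_apply, Pi.smul_apply, smul_eq_mul,
          map_mul, hσ]
      invFun := fun v => A (b.equivFun.symm (fun i => σ (v i)))
      left_inv := fun y => by
        simp only [hσ]
        have : b.equivFun.symm (fun i => b.repr (A.symm y) i) = A.symm y :=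
          b.equivFun.symm_apply_apply (A.symm y)
        rw [this]; simp
      right_inv := fun v => by
        funext i
        fin_cases i <;> simp [hσ] }
  let bY := Module.Basis.ofEquivFun e
  have h1 : ∀ y i, bY.repr y i = σ (b.repr (A.symm y) i) := fun y i => by
    simp [bY, e]
  have h2 : ∀ i, bY i = A (b i) := by
    intro i
    apply e.injective
    funext j
    have : e (bY i) = Pi.single i 1 := by simp [bY]
    rw [this]
    simp only [e, LinearEquiv.coe_mk, LinearMap.coe_mk, AddHom.coe_mk]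
    simp [Pi.single_apply, Finsupp.single_apply, eq_comm]
  rw [trace2_j5623 bY, trace2_j5623 b]
  simp only [h1, h2, rho1_apply_j5623, map_add, ContinuousLinearEquiv.symm_apply_apply]

end tr

section two
variable {σ : ℂ →+* ℂ} [RingHomInvPair σ σ] [RingHomIsometric σ]

lemma dim2_case_j5623 (b : Module.Basis (Fin 2) ℂ X) (h2 : ∃ v : Fin 2 → Y, LinearIndependent ℂ v)
    (h3 : ¬ ∃ v : Fin 3 → Y, LinearIndependent ℂ v) (hnt : Nontrivial Y) (A : X ≃SL[σ] Y)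
    (φ : (X →L[ℂ] X) → (Y →L[ℂ] Y)) (h : ∀ T S, JF 1 (φ T) (φ S) = JF 1 T S)
    (hA : ∀ T, ∃ θ d : ℂ, ‖θ‖ = 1 ∧ ∀ y, φ T y = θ • A (T (A.symm y)) + d • y) :
    (∀ T, ∃ c : ℂ, ‖c‖ = 1 ∧ ∀ y, φ T y = c • A (T (A.symm y))) ∨
    (∃ B : (X →L[ℂ] ℂ) ≃SL[σ] Y, ∀ T : X →L[ℂ] X, ∃ c : ℂ, ‖c‖ = 1 ∧
      ∀ y, φ T y = c • B ((B.symm y).comp T)) := by
  choose θ d hθ hφ0 using hA
  have hφ : ∀ T, φ T = θ T • rho1_j5623 A T + d T • 1 := fun T => by ext y; rw [hφ0]; rfl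
  have hθ0 : ∀ T, θ T ≠ 0 := fun T h0 => by
    have := hθ T; rw [h0, norm_zero] at this; exact zero_ne_one this
  obtain ⟨δ, h1, h2'⟩ := delta_ex_j5623 φ (rho1_j5623 A) (rho1_bij_j5623 A) (rho1_JF_j5623 A) h θ d hθ hφ
  have hsc : ∀ (T : X →L[ℂ] X) (c : ℂ), rho1_j5623 A T = c • (1 : Y →L[ℂ] Y) →
      ∃ u : ℂ, ‖u‖ = 1 ∧ φ T = u • (c • (1 : Y →L[ℂ] Y)) := by
    intro T c hc
    exact exists_unit_of_scalar_j5623 T (φ T) (rho1_j5623 A T) (h T T) (rho1_JF_j5623 A T T) c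
      (θ T * c + d T) hc (by rw [hφ, hc, smul_smul, add_smul])
  rcases kill_2 h2 h3 δ h1 with hk | hk
  · left
    intro T
    by_cases hs : ∃ c : ℂ, rho1_j5623 A T = c • 1
    · obtain ⟨c, hc⟩ := hs
      obtain ⟨u, hu, hu2⟩ := hsc T c hc
      exact ⟨u, hu, fun y => by rw [hu2, ← hc]; rfl⟩
    · have h4 := hk (rho1_j5623 A T) hs
      rw [h2', div_eq_zero_iff, or_iff_left (hθ0 T)] at h4
      refine ⟨θ T, hθ T, fun y => ?_⟩
      rw [hφ0, h4]; simp
  · right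
    obtain ⟨J, hJ⟩ := exists_wedge_j5623 b
    obtain ⟨bY⟩ := basis2_j5623 h2 h3
    refine ⟨J.symm.trans A, fun T => ?_⟩
    have key : ∀ y, (J.symm.trans A) (((J.symm.trans A).symm y).comp T) =
        LinearMap.trace ℂ Y (rho1_j5623 A T : Y →ₗ[ℂ] Y) • y - rho1_j5623 A T y := by
      intro y
      have e1 : (J (A.symm y)).comp T =
          J (LinearMap.trace ℂ X (T : X →ₗ[ℂ] X) • (A.symm y) - T (A.symm y)) := by
        ext z
        rw [ContinuousLinearMap.comp_apply, hJ, hJ]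
        exact adj2_j5623 b T (A.symm y) z
      have e2 : (J.symm.trans A).symm y = J (A.symm y) := rfl
      rw [e2, e1, trace_rho1_j5623 b]
      change A (J.symm (J _)) = _
      rw [J.symm_apply_apply, map_sub, map_smulₛₗ, A.apply_symm_apply, rho1_apply_j5623]
    by_cases hs : ∃ c : ℂ, rho1_j5623 A T = c • 1
    · obtain ⟨c, hc⟩ := hs
      obtain ⟨u, hu, hu2⟩ := hsc T c hc
      have ht : LinearMap.trace ℂ Y (rho1_j5623 A T : Y →ₗ[ℂ] Y) = c + c := by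
        rw [trace2_j5623 bY, hc]
        simp
      refine ⟨u, hu, fun y => ?_⟩
      rw [key, ht, hc, hu2]
      simp [add_smul]
    · have h4 := hk (rho1_j5623 A T) hs
      rw [h2', div_eq_iff (hθ0 T)] at h4
      refine ⟨-θ T, by rw [norm_neg, hθ], fun y => ?_⟩
      rw [key, hφ0, h4, rho1_apply_j5623, smul_sub, smul_smul]
      rw [neg_mul, neg_smul, neg_mul, neg_smul, neg_smul, mul_comm (θ T)]
      abel

end two

omit [CompleteSpace X] in
lemma dim1_vec_j5623 (h : ¬ ∃ v : Fin 2 → X, LinearIndependent ℂ v) {x0 : X} (hx0 : x0 ≠ 0) (x : X) :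
    ∃ c : ℂ, x = c • x0 :=
  dep_smul hx0 (fun hv => h ⟨_, hv⟩)

omit [CompleteSpace X] in
lemma dim1_scalar_j5623 (h : ¬ ∃ v : Fin 2 → X, LinearIndependent ℂ v) (T : X →L[ℂ] X) :
    ∃ c : ℂ, T = c • 1 := by
  by_cases hs : ∃ x0 : X, x0 ≠ 0
  · obtain ⟨x0, hx0⟩ := hs
    obtain ⟨c, hc⟩ := dim1_vec_j5623 h hx0 (T x0)
    refine ⟨c, ?_⟩
    ext x
    obtain ⟨a, rfl⟩ := dim1_vec_j5623 h hx0 x
    rw [map_smul, hc]
    change a • c • x0 = c • (a • x0)
    exact smul_comm _ _ _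
  · push Not at hs
    refine ⟨0, ?_⟩
    ext x
    rw [hs x]; simp

omit [CompleteSpace X] [CompleteSpace Y] in
lemma dim1_equiv_j5623 (hX : Nontrivial X) (hY : Nontrivial Y)
    (h : ¬ ∃ v : Fin 2 → X, LinearIndependent ℂ v)
    (h' : ¬ ∃ v : Fin 2 → Y, LinearIndependent ℂ v) : Nonempty (X ≃L[ℂ] Y) := by
  obtain ⟨x0, hx0⟩ := exists_ne (0 : X)
  obtain ⟨y0, hy0⟩ := exists_ne (0 : Y)
  obtain ⟨k, hk⟩ := exists_one_j5623 hx0
  obtain ⟨l, hl⟩ := exists_one_j5623 hy0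
  refine ⟨ContinuousLinearEquiv.equivOfInverse (k.smulRight y0) (l.smulRight x0) ?_ ?_⟩
  · intro x
    obtain ⟨a, rfl⟩ := dim1_vec_j5623 h hx0 x
    simp [hk, hl]
  · intro y
    obtain ⟨a, rfl⟩ := dim1_vec_j5623 h' hy0 y
    simp [hk, hl]

omit [CompleteSpace X] [CompleteSpace Y] in
lemma subs_transfer_j5623 (φ : (X →L[ℂ] X) → (Y →L[ℂ] Y))
    (hs : Function.Surjective φ) (hX : Subsingleton X) : Subsingleton Y := by
  obtain ⟨T1, h1⟩ := hs 1
  obtain ⟨T2, h2⟩ := hs 0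
  have h3 : T1 = T2 := by ext x; exact Subsingleton.elim _ _
  have h4 : (1 : Y →L[ℂ] Y) = 0 := by rw [← h1, ← h2, h3]
  refine ⟨fun a b => ?_⟩
  have ha : ∀ y : Y, y = 0 := fun y => by
    have := congrArg (fun R : Y →L[ℂ] Y => R y) h4
    simpa using this
  rw [ha a, ha b]

theorem form_c (φ : (X →L[ℂ] X) → (Y →L[ℂ] Y))
    (hs : Function.Surjective φ) (h : ∀ T S, JF 1 (φ T) (φ S) = JF 1 T S) : FormS φ := by
  rcases subsingleton_or_nontrivial X with hX | hX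
  · have hY := subs_transfer_j5623 φ hs hX
    refine Or.inl (Or.inl ⟨ContinuousLinearEquiv.equivOfInverse 0 0
      (fun x => Subsingleton.elim _ _) (fun y => Subsingleton.elim _ _), fun T =>
      ⟨1, norm_one, fun y => Subsingleton.elim _ _⟩⟩)
  have hY : Nontrivial Y := by
    rcases subsingleton_or_nontrivial Y with hY | hY
    · exfalso
      have h0 : ∀ R : Y →L[ℂ] Y, R = 0 := fun R => by ext y; exact Subsingleton.elim _ _
      have h1 : ∀ S : X →L[ℂ] X, JF 1 (1 : X →L[ℂ] X) S = 0 := by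
        intro S
        rw [← h, h0 (φ 1)]
        exact (JF_one_eq_zero_iff (0 : Y →L[ℂ] Y)).2 rfl (φ S)
      have h2 := (JF_one_eq_zero_iff (1 : X →L[ℂ] X)).1 h1
      obtain ⟨x, hx⟩ := exists_ne (0 : X)
      apply hx
      have := congrArg (fun R : X →L[ℂ] X => R x) h2
      simpa using this
    · exact hY
  obtain ⟨hd2, hd3⟩ := dims_transfer (Or.inl rfl) φ hs h
  by_cases h3 : ∃ v : Fin 3 → X, LinearIndependent ℂ v
  · refine formS_of_formT_j5623 φ h hY ?_ (form_ge3 (Or.inl rfl) h3 φ hs h)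
    intro δ hδ R hR
    exact kill_of_idem δ hδ (idem_val3 (hd3.1 h3) δ hδ) R hR
  by_cases h2 : ∃ v : Fin 2 → X, LinearIndependent ℂ v
  · obtain ⟨b⟩ := basis2_j5623 h2 h3
    have h3' : ¬ ∃ v : Fin 3 → Y, LinearIndependent ℂ v := fun hh => h3 (hd3.2 hh)
    rcases form_2 (Or.inl rfl) h2 h3 φ hs h with ⟨A, hA⟩ | ⟨A, hA⟩
    · rcases dim2_case_j5623 b (hd2.1 h2) h3' hY A φ h hA with h4 | ⟨B, hB⟩
      · exact Or.inl (Or.inl ⟨A, h4⟩)
      · exact Or.inr ⟨refl2_j5623 b, Or.inl ⟨B, hB⟩⟩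
    · rcases dim2_case_j5623 b (hd2.1 h2) h3' hY A φ h hA with h4 | ⟨B, hB⟩
      · exact Or.inl (Or.inr ⟨A, h4⟩)
      · exact Or.inr ⟨refl2_j5623 b, Or.inr ⟨B, hB⟩⟩
  have h2' : ¬ ∃ v : Fin 2 → Y, LinearIndependent ℂ v := fun hh => h2 (hd2.2 hh)
  obtain ⟨A⟩ := dim1_equiv_j5623 hX hY h2 h2'
  refine Or.inl (Or.inl ⟨A, fun T => ?_⟩)
  obtain ⟨c, hc⟩ := dim1_scalar_j5623 h2 T
  obtain ⟨e, he⟩ := dim1_scalar_j5623 h2' (φ T)
  have hr : rho1_j5623 A T = c • 1 := by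
    ext y
    rw [rho1_apply_j5623, hc]; simp
  obtain ⟨u, hu, hu2⟩ := exists_unit_of_scalar_j5623 T (φ T) (rho1_j5623 A T) (h T T) (rho1_JF_j5623 A T T) c e hr he
  exact ⟨u, hu, fun y => by rw [hu2, ← hr]; rfl⟩

theorem form_d (φ : (X →L[ℂ] X) → (Y →L[ℂ] Y))
    (hs : Function.Surjective φ) (h : ∀ T S, JF (-1) (φ T) (φ S) = JF (-1) T S) :
    FormT φ ∨ (Subsingleton Y ∧ ¬ ∃ v : Fin 2 → X, LinearIndependent ℂ v) := by
  obtain ⟨hd2, hd3⟩ := dims_transfer (Or.inr rfl) φ hs h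
  by_cases h3 : ∃ v : Fin 3 → X, LinearIndependent ℂ v
  · exact Or.inl (form_ge3 (Or.inr rfl) h3 φ hs h)
  by_cases h2 : ∃ v : Fin 2 → X, LinearIndependent ℂ v
  · left
    rcases form_2 (Or.inr rfl) h2 h3 φ hs h with ⟨A, hA⟩ | ⟨A, hA⟩
    · exact Or.inl (Or.inl ⟨A, hA⟩)
    · exact Or.inl (Or.inr ⟨A, hA⟩)
  rcases subsingleton_or_nontrivial Y with hY | hY
  · exact Or.inr ⟨hY, h2⟩
  have hX : Nontrivial X := by
    rcases subsingleton_or_nontrivial X with hX | hX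
    · exact absurd (subs_transfer_j5623 φ hs hX) (not_subsingleton_iff_nontrivial.2 hY)
    · exact hX
  have h2' : ¬ ∃ v : Fin 2 → Y, LinearIndependent ℂ v := fun hh => h2 (hd2.2 hh)
  obtain ⟨A⟩ := dim1_equiv_j5623 hX hY h2 h2'
  refine Or.inl (Or.inl (Or.inl ⟨A, fun T => ?_⟩))
  obtain ⟨c, hc⟩ := dim1_scalar_j5623 h2 T
  obtain ⟨e, he⟩ := dim1_scalar_j5623 h2' (φ T)
  refine ⟨1, e - c, norm_one, fun y => ?_⟩
  rw [he, hc]
  simp [sub_smul]

end


end j5623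

-- part 5624
section j5624
section cd
variable {X Y : Type*} [NormedAddCommGroup X] [NormedSpace ℂ X] [CompleteSpace X]
  [NormedAddCommGroup Y] [NormedSpace ℂ Y] [CompleteSpace Y]

end cd

section
variable {X Y : Type*} [NormedAddCommGroup X] [NormedSpace ℂ X] [CompleteSpace X]
    [NormedAddCommGroup Y] [NormedSpace ℂ Y] [CompleteSpace Y]

section aux
variable {σ : ℂ →+* ℂ} [RingHomInvPair σ σ] [RingHomIsometric σ]

omit [CompleteSpace X] [CompleteSpace Y] in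
theorem tw_smul_j5624 (A : X ≃SL[σ] Y) (c : ℂ) (v : X) : c • A v = A (σ c • v) := by
  rw [map_smulₛₗ]
  congr 1
  exact (RingHomInvPair.comp_apply_eq (σ := σ) (σ' := σ)).symm

/-- direct form: `φ T A = A (e T • T) + d T • A` -/
def Dir_j5624 (φ : (X →L[ℂ] X) → (Y →L[ℂ] Y)) : Prop :=
  ∃ (σ : ℂ →+* ℂ) (_ : RingHomInvPair σ σ) (_ : RingHomIsometric σ) (A : X ≃SL[σ] Y)
    (e d : (X →L[ℂ] X) → ℂ), (∀ T, ‖e T‖ = 1) ∧
    ∀ T x, φ T (A x) = A ((e T • T) x) + d T • A x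

/-- adjoint form -/
def Adj_j5624 (φ : (X →L[ℂ] X) → (Y →L[ℂ] Y)) : Prop :=
  ∃ (σ : ℂ →+* ℂ) (_ : RingHomInvPair σ σ) (_ : RingHomIsometric σ) (A : (X →L[ℂ] ℂ) ≃SL[σ] Y)
    (e d : (X →L[ℂ] X) → ℂ), (∀ T, ‖e T‖ = 1) ∧
    ∀ T f, φ T (A f) = A (f.comp (e T • T)) + d T • A f

/-- the same with `d = 0` -/
def Dir0_j5624 (φ : (X →L[ℂ] X) → (Y →L[ℂ] Y)) : Prop :=
  ∃ (σ : ℂ →+* ℂ) (_ : RingHomInvPair σ σ) (_ : RingHomIsometric σ) (A : X ≃SL[σ] Y)
    (e : (X →L[ℂ] X) → ℂ), (∀ T, ‖e T‖ = 1) ∧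
    ∀ T x, φ T (A x) = A ((e T • T) x)

/-- adjoint form -/
def Adj0_j5624 (φ : (X →L[ℂ] X) → (Y →L[ℂ] Y)) : Prop :=
  ∃ (σ : ℂ →+* ℂ) (_ : RingHomInvPair σ σ) (_ : RingHomIsometric σ) (A : (X →L[ℂ] ℂ) ≃SL[σ] Y)
    (e : (X →L[ℂ] X) → ℂ), (∀ T, ‖e T‖ = 1) ∧
    ∀ T f, φ T (A f) = A (f.comp (e T • T))

theorem nrm_tw_j5624 (σ : ℂ →+* ℂ) [RingHomIsometric σ] (c : ℂ) : ‖σ c‖ = ‖c‖ :=
  RingHomIsometric.norm_map

omit [CompleteSpace X] [CompleteSpace Y] in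
theorem dir0_of_j5624 (φ : (X →L[ℂ] X) → (Y →L[ℂ] Y)) (A : X ≃SL[σ] Y)
    (h : ∀ T, ∃ c : ℂ, ‖c‖ = 1 ∧ ∀ y, φ T y = c • A (T (A.symm y))) : Dir0_j5624 φ := by
  choose c hc1 hc2 using h
  refine ⟨σ, inferInstance, inferInstance, A, fun T => σ (c T), fun T => by
    rw [nrm_tw_j5624]; exact hc1 T, fun T x => ?_⟩
  rw [hc2, A.symm_apply_apply, tw_smul_j5624]
  rfl

omit [CompleteSpace X] [CompleteSpace Y] in
theorem adj0_of_j5624 (φ : (X →L[ℂ] X) → (Y →L[ℂ] Y)) (A : (X →L[ℂ] ℂ) ≃SL[σ] Y)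
    (h : ∀ T : X →L[ℂ] X, ∃ c : ℂ, ‖c‖ = 1 ∧ ∀ y, φ T y = c • A ((A.symm y).comp T)) :
    Adj0_j5624 φ := by
  choose c hc1 hc2 using h
  refine ⟨σ, inferInstance, inferInstance, A, fun T => σ (c T), fun T => by
    rw [nrm_tw_j5624]; exact hc1 T, fun T f => ?_⟩
  rw [hc2, A.symm_apply_apply, tw_smul_j5624]
  congr 1
  ext x
  simp

omit [CompleteSpace X] [CompleteSpace Y] in
theorem dir_of_j5624 (φ : (X →L[ℂ] X) → (Y →L[ℂ] Y)) (A : X ≃SL[σ] Y)
    (h : ∀ T, ∃ c d : ℂ, ‖c‖ = 1 ∧ ∀ y, φ T y = c • A (T (A.symm y)) + d • y) : Dir_j5624 φ := by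
  choose c d hc1 hc2 using h
  refine ⟨σ, inferInstance, inferInstance, A, fun T => σ (c T), d, fun T => by
    rw [nrm_tw_j5624]; exact hc1 T, fun T x => ?_⟩
  rw [hc2, A.symm_apply_apply, tw_smul_j5624]
  rfl

omit [CompleteSpace X] [CompleteSpace Y] in
theorem adj_of_j5624 (φ : (X →L[ℂ] X) → (Y →L[ℂ] Y)) (A : (X →L[ℂ] ℂ) ≃SL[σ] Y)
    (h : ∀ T : X →L[ℂ] X, ∃ c d : ℂ, ‖c‖ = 1 ∧
      ∀ y, φ T y = c • A ((A.symm y).comp T) + d • y) : Adj_j5624 φ := by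
  choose c d hc1 hc2 using h
  refine ⟨σ, inferInstance, inferInstance, A, fun T => σ (c T), d, fun T => by
    rw [nrm_tw_j5624]; exact hc1 T, fun T f => ?_⟩
  rw [hc2, A.symm_apply_apply, tw_smul_j5624]
  congr 2
  ext x
  simp

end aux

omit [CompleteSpace X] [CompleteSpace Y] in
theorem formS_cases_j5624 {φ : (X →L[ℂ] X) → (Y →L[ℂ] Y)} (h : FormS φ) : Dir0_j5624 φ ∨ Adj0_j5624 φ := by
  rcases h with (⟨A, h⟩ | ⟨A, h⟩) | ⟨_, ⟨A, h⟩ | ⟨A, h⟩⟩
  · exact Or.inl (dir0_of_j5624 φ A h)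
  · exact Or.inl (dir0_of_j5624 φ A h)
  · exact Or.inr (adj0_of_j5624 φ A h)
  · exact Or.inr (adj0_of_j5624 φ A h)

omit [CompleteSpace X] [CompleteSpace Y] in
theorem formT_cases_j5624 {φ : (X →L[ℂ] X) → (Y →L[ℂ] Y)} (h : FormT φ) : Dir_j5624 φ ∨ Adj_j5624 φ := by
  rcases h with (⟨A, h⟩ | ⟨A, h⟩) | ⟨_, ⟨A, h⟩ | ⟨A, h⟩⟩
  · exact Or.inl (dir_of_j5624 φ A h)
  · exact Or.inl (dir_of_j5624 φ A h)
  · exact Or.inr (adj_of_j5624 φ A h)
  · exact Or.inr (adj_of_j5624 φ A h)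

theorem sr_unim_j5624 (c : ℂ) (hc : ‖c‖ = 1) (T : X →L[ℂ] X) : sr (c • T) = sr T := by
  rw [sr_smul'', hc, one_mul]

section refl
variable {σ : ℂ →+* ℂ} [RingHomInvPair σ σ] [RingHomIsometric σ]

omit [CompleteSpace Y] in
theorem refl_of_j5624 (φ : (X →L[ℂ] X) → (Y →L[ℂ] Y)) (hs : Function.Surjective φ)
    (A : (X →L[ℂ] ℂ) ≃SL[σ] Y)
    (h : ∀ T : X →L[ℂ] X, ∃ c : ℂ, ‖c‖ = 1 ∧ ∀ y, φ T y = c • A ((A.symm y).comp T)) :
    IsRefl X := by
  apply reflexive_of_adjoint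
  intro S
  obtain ⟨T, hT⟩ := hs (((A : (X →L[ℂ] ℂ) →SL[σ] Y).comp
    (S.comp (A.symm : Y →SL[σ] (X →L[ℂ] ℂ)))))
  obtain ⟨c, _, hc⟩ := h T
  refine ⟨σ c • T, fun f => ?_⟩
  have h1 := hc (A f)
  rw [hT, A.symm_apply_apply, tw_smul_j5624] at h1
  have h2 : A (S f) = A (σ c • f.comp T) := by
    rw [← h1]
    simp
  have h3 := A.injective h2
  rw [h3]
  ext x
  simp

end refl

theorem triv_case_j5624 [Subsingleton Y] (φ : (X →L[ℂ] X) → (Y →L[ℂ] Y))
    (h : sr (1 : X →L[ℂ] X) = 0) : FormS φ := by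
  have hX : Subsingleton X := by
    by_contra hX
    rw [not_subsingleton_iff_nontrivial] at hX
    have h1 : sr (1 : X →L[ℂ] X) = 1 := by
      unfold sr
      rw [spectrum.spectralRadius_one]
      simp
    rw [h1] at h
    norm_num at h
  refine Or.inl (Or.inl ⟨ContinuousLinearEquiv.equivOfInverse 0 0
    (fun x => Subsingleton.elim _ _) (fun y => Subsingleton.elim _ _), fun T => ⟨1, by simp,
    fun y => Subsingleton.elim _ _⟩⟩)

theorem sr_zero_of_subsingleton_j5624 [Subsingleton Y] (T : Y →L[ℂ] Y) : sr T = 0 := by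
  have h1 : T = (0 : ℂ) • T := Subsingleton.elim _ _
  rw [h1, sr_smul'', norm_zero, zero_mul]

theorem full_a (φ : (X →L[ℂ] X) → (Y →L[ℂ] Y)) (hs : Function.Surjective φ)
    (h : ∀ T S, sr (φ T * φ S) = sr (T * S)) : FormS φ := by
  rcases subsingleton_or_nontrivial Y with hY | hY
  · apply triv_case_j5624
    have h1 := h 1 1
    rw [sr_zero_of_subsingleton_j5624, mul_one] at h1
    exact h1.symm
  · rcases form_a φ hs h with h1 | ⟨A, h1⟩ | ⟨A, h1⟩
    · exact Or.inl h1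
    · exact Or.inr ⟨refl_of_j5624 φ hs A h1, Or.inl ⟨A, h1⟩⟩
    · exact Or.inr ⟨refl_of_j5624 φ hs A h1, Or.inr ⟨A, h1⟩⟩

theorem full_b (φ : (X →L[ℂ] X) → (Y →L[ℂ] Y)) (hs : Function.Surjective φ)
    (h : ∀ T S, sr (φ T * φ S * φ T) = sr (T * S * T)) : FormS φ := by
  rcases subsingleton_or_nontrivial Y with hY | hY
  · apply triv_case_j5624
    have h1 := h 1 1
    rw [sr_zero_of_subsingleton_j5624, mul_one, mul_one] at h1
    exact h1.symm
  · rcases form_b φ hs (fun T S => h S T) with h1 | ⟨A, h1⟩ | ⟨A, h1⟩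
    · exact Or.inl h1
    · exact Or.inr ⟨refl_of_j5624 φ hs A h1, Or.inl ⟨A, h1⟩⟩
    · exact Or.inr ⟨refl_of_j5624 φ hs A h1, Or.inr ⟨A, h1⟩⟩

theorem conv_a (φ : (X →L[ℂ] X) → (Y →L[ℂ] Y)) (h : FormS φ) (T S : X →L[ℂ] X) :
    sr (φ T * φ S) = sr (T * S) := by
  rcases formS_cases_j5624 h with ⟨σ, i1, i2, A, e, he, hφ⟩ | ⟨σ, i1, i2, A, e, he, hφ⟩
  · rw [sr_conj A ((e T * e S) • (T * S)) (φ T * φ S) (fun x => by
      rw [ContinuousLinearMap.mul_apply, hφ, hφ]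
      congr 1
      simp [smul_smul, mul_comm (e S) (e T)]), sr_unim_j5624 _ (by rw [norm_mul, he, he, one_mul])]
  · rw [sr_dual A ((e T * e S) • (S * T)) (φ T * φ S) (fun f => by
      rw [ContinuousLinearMap.mul_apply, hφ, hφ]
      congr 1
      ext x
      simp [mul_assoc]
      try ring), sr_unim_j5624 _ (by rw [norm_mul, he, he, one_mul]), sr_mul_comm'']

theorem conv_b (φ : (X →L[ℂ] X) → (Y →L[ℂ] Y)) (h : FormS φ) (T S : X →L[ℂ] X) :
    sr (φ T * φ S * φ T) = sr (T * S * T) := by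
  rcases formS_cases_j5624 h with ⟨σ, i1, i2, A, e, he, hφ⟩ | ⟨σ, i1, i2, A, e, he, hφ⟩
  · rw [sr_conj A ((e T * e S * e T) • (T * S * T)) (φ T * φ S * φ T) (fun x => by
      rw [ContinuousLinearMap.mul_apply, ContinuousLinearMap.mul_apply, hφ, hφ, hφ]
      congr 1
      simp [smul_smul, mul_assoc]), sr_unim_j5624 _ (by simp [he])]
  · rw [sr_dual A ((e T * e S * e T) • (T * S * T)) (φ T * φ S * φ T) (fun f => by
      rw [ContinuousLinearMap.mul_apply, ContinuousLinearMap.mul_apply, hφ, hφ, hφ]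
      congr 1
      ext x
      simp [mul_assoc]
      try ring), sr_unim_j5624 _ (by simp [he])]

theorem conv_c (φ : (X →L[ℂ] X) → (Y →L[ℂ] Y)) (h : FormS φ) (T S : X →L[ℂ] X) :
    sr (φ T * φ S + φ S * φ T) = sr (T * S + S * T) := by
  rcases formS_cases_j5624 h with ⟨σ, i1, i2, A, e, he, hφ⟩ | ⟨σ, i1, i2, A, e, he, hφ⟩
  · rw [sr_conj A ((e T * e S) • (T * S + S * T)) (φ T * φ S + φ S * φ T) (fun x => by
      rw [ContinuousLinearMap.add_apply, ContinuousLinearMap.mul_apply,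
        ContinuousLinearMap.mul_apply, hφ, hφ, hφ, hφ, ← map_add]
      congr 1
      simp [smul_smul, mul_comm (e S) (e T)]), sr_unim_j5624 _ (by simp [he])]
  · rw [sr_dual A ((e T * e S) • (T * S + S * T)) (φ T * φ S + φ S * φ T) (fun f => by
      rw [ContinuousLinearMap.add_apply, ContinuousLinearMap.mul_apply,
        ContinuousLinearMap.mul_apply, hφ, hφ, hφ, hφ, ← map_add]
      congr 1
      ext x
      simp
      ring), sr_unim_j5624 _ (by simp [he])]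

theorem conv_d (φ : (X →L[ℂ] X) → (Y →L[ℂ] Y)) (h : FormT φ) (T S : X →L[ℂ] X) :
    sr (φ T * φ S - φ S * φ T) = sr (T * S - S * T) := by
  rcases formT_cases_j5624 h with ⟨σ, i1, i2, A, e, d, he, hφ⟩ | ⟨σ, i1, i2, A, e, d, he, hφ⟩
  · rw [sr_conj A ((e T * e S) • (T * S - S * T)) (φ T * φ S - φ S * φ T) (fun x => by
      rw [ContinuousLinearMap.sub_apply, ContinuousLinearMap.mul_apply,
        ContinuousLinearMap.mul_apply, hφ, hφ, map_add, map_add, map_smul, map_smul, hφ, hφ, hφ, hφ]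
      have h1 : ((e T * e S) • (T * S - S * T)) x =
          (e T • T) ((e S • S) x) - (e S • S) ((e T • T) x) := by
        simp [smul_smul, mul_comm (e S) (e T), smul_sub]
      rw [h1, map_sub, smul_add, smul_add, smul_smul, smul_smul, mul_comm (d T) (d S)]
      abel), sr_unim_j5624 _ (by simp [he])]
  · rw [sr_dual A ((-(e T * e S)) • (T * S - S * T)) (φ T * φ S - φ S * φ T) (fun f => by
      rw [ContinuousLinearMap.sub_apply, ContinuousLinearMap.mul_apply,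
        ContinuousLinearMap.mul_apply, hφ, hφ, map_add, map_add, map_smul, map_smul, hφ, hφ, hφ, hφ]
      have h1 : f.comp ((-(e T * e S)) • (T * S - S * T)) =
          (f.comp (e S • S)).comp (e T • T) - (f.comp (e T • T)).comp (e S • S) := by
        ext x
        simp
        ring
      rw [h1, map_sub, smul_add, smul_add, smul_smul, smul_smul, mul_comm (d T) (d S)]
      abel), sr_unim_j5624 _ (by simp [he])]

end


end j5624

end Pool.Agent.Helper729.SRP
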