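import Pool.Agent.Helper729.SRP.P4

/-!
# Preservers of the spectral radius of products of operators, part 5
-/

set_option autoImplicit false
open Filter Topology Complex Set Metric
open scoped InnerProductSpace

namespace Pool.Agent.Helper729.SRP


-- part 6058
section j6058
section srbasic
variable {X : Type*} [NormedAddCommGroup X] [NormedSpace ℂ X]

theorem sr_nonneg_j6058 (T : X →L[ℂ] X) : 0 ≤ sr T := ENNReal.toReal_nonneg

variable [CompleteSpace X]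

end srbasic

section sk
variable {H : Type*} [NormedAddCommGroup H] [InnerProductSpace ℂ H] [CompleteSpace H]


theorem ro_apply (x y v : H) : ro x y v = ⟪y, v⟫_ℂ • x := by
  rfl

theorem star_ro (x y : H) : star (ro x y) = ro y x := by
  rw [ContinuousLinearMap.star_eq_adjoint]
  ext v
  apply ext_inner_left ℂ
  intro w
  rw [ContinuousLinearMap.adjoint_inner_right, ro_apply, ro_apply, inner_smul_left, inner_smul_right,
    inner_conj_symm]
  ring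

theorem mul_ro (T : H →L[ℂ] H) (x y : H) : T * ro x y = ro (T x) y := by
  ext v
  rw [mul_apply_eq_comp, ro_apply, ro_apply, map_smul]

theorem ro_mul (T : H →L[ℂ] H) (x y : H) : ro x y * T = ro x (star T y) := by
  ext v
  rw [mul_apply_eq_comp, ro_apply, ro_apply, ContinuousLinearMap.star_eq_adjoint,
    ContinuousLinearMap.adjoint_inner_left]

theorem sr_star_le_j6058 (T : H →L[ℂ] H) : sr (star T) ≤ sr T := by
  apply sr_le_of_forall (sr_nonneg_j6058 T)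
  intro z hz
  have h1 : star z ∈ spectrum ℂ T := by
    rw [spectrum.map_star, Set.mem_star] at hz
    exact hz
  have h2 := norm_le_sr h1
  rwa [norm_star] at h2

theorem sr_star (T : H →L[ℂ] H) : sr (star T) = sr T := by
  apply le_antisymm (sr_star_le_j6058 T)
  have := sr_star_le_j6058 (star T)
  rwa [star_star] at this

theorem sr_normal {T : H →L[ℂ] H} (hT : T * star T = star T * T) : sr T = ‖T‖ := by
  haveI : IsStarNormal T := ⟨hT.symm⟩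
  unfold sr
  rw [IsStarNormal.spectralRadius_eq_nnnorm]
  rfl

theorem SK_smul (T S : H →L[ℂ] H) (c : ℂ) : SK T (c • S) = ‖c‖ * SK T S := by
  unfold SK
  rw [mul_smul_comm, smul_mul_assoc, ← smul_sub, sr_smul']

theorem SK_star (T S : H →L[ℂ] H) : SK T (star S) = SK T S := by
  unfold SK
  have h1 : T * star S - star S * star T = (-1 : ℂ) • star (T * S - S * star T) := by
    rw [star_sub, star_mul, star_mul, star_star, neg_smul, one_smul]
    abel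
  rw [h1, sr_smul', sr_star]
  simp

theorem SK_neg (T S : H →L[ℂ] H) : SK (-T) S = SK T S := by
  unfold SK
  have h1 : -T * S - S * star (-T) = (-1 : ℂ) • (T * S - S * star T) := by
    rw [star_neg, neg_smul, one_smul, neg_mul, mul_neg]
    abel
  rw [h1, sr_smul']
  simp

theorem star_real_smul_j6058 (r : ℝ) : star ((r : ℂ) • (1 : H →L[ℂ] H)) = (r : ℂ) • (1 : H →L[ℂ] H) := by
  rw [star_smul, star_one]
  congr 1
  exact Complex.conj_ofReal r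

theorem SK_add_real (T S : H →L[ℂ] H) (r : ℝ) : SK (T + (r : ℂ) • 1) S = SK T S := by
  unfold SK
  congr 1
  rw [star_add, star_real_smul_j6058, add_mul, mul_add, smul_mul_assoc, one_mul, mul_smul_comm, mul_one]
  abel

theorem SK_scalar (T : H →L[ℂ] H) (c : ℂ) : SK T (c • 1) = ‖c‖ * ‖T - star T‖ := by
  unfold SK
  have h1 : T * (c • 1) - (c • 1) * star T = c • (T - star T) := by
    rw [mul_smul_comm, smul_mul_assoc, mul_one, one_mul, smul_sub]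
  rw [h1, sr_smul', sr_normal]
  rw [star_sub, star_star]
  noncomm_ring

theorem SK_scalar_left (S : H →L[ℂ] H) (c : ℂ) : SK (c • 1) S = 2 * |c.im| * sr S := by
  unfold SK
  have h1 : (c • 1) * S - S * star (c • (1 : H →L[ℂ] H)) = (c - star c) • S := by
    rw [star_smul, star_one, mul_smul_comm, smul_mul_assoc, mul_one, one_mul, sub_smul]
  rw [h1, sr_smul']
  congr 1
  have h2 : c - star c = ((2 * c.im : ℝ) : ℂ) * Complex.I := Complex.sub_conj c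
  rw [h2, norm_mul, Complex.norm_I, mul_one, Complex.norm_real, Real.norm_eq_abs, abs_mul]
  norm_num

theorem SK_selfAdjoint (T A : H →L[ℂ] H) (hA : IsSelfAdjoint A) :
    SK T A = ‖T * A - A * star T‖ := by
  unfold SK
  apply sr_normal
  have h1 : star (T * A - A * star T) = -(T * A - A * star T) := by
    rw [star_sub, star_mul, star_mul, star_star, hA.star_eq]
    abel
  rw [h1]
  noncomm_ring

theorem ro_sub_ro_j6058 (x y x' y' : H) : ro x y - ro x' y' = rk x (innerSL ℂ y) + rk (-x') (innerSL ℂ y') := by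
  ext v
  simp only [sub_apply, add_apply, ro_apply,
    ContinuousLinearMap.smulRight_apply, innerSL_apply_apply, smul_neg]
  abel

theorem SK_ro_right (T : H →L[ℂ] H) (x y : H) :
    SK T (ro x y) = R2 (⟪y, T x⟫_ℂ - ⟪T y, x⟫_ℂ) (⟪y, x⟫_ℂ * ⟪T y, T x⟫_ℂ - ⟪y, T x⟫_ℂ * ⟪T y, x⟫_ℂ) := by
  unfold SK
  rw [mul_ro, ro_mul, star_star, ro_sub_ro_j6058, sr_rank_two]
  simp only [innerSL_apply_apply, inner_neg_right]
  congr 1
  ring

theorem SK_ro_left (S : H →L[ℂ] H) (x y : H) :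
    SK (ro x y) S = R2 (⟪y, S x⟫_ℂ - ⟪x, S y⟫_ℂ) (⟪x, x⟫_ℂ * ⟪y, S (S y)⟫_ℂ - ⟪y, S x⟫_ℂ * ⟪x, S y⟫_ℂ) := by
  unfold SK
  rw [star_ro, mul_ro, ro_mul, ro_sub_ro_j6058, sr_rank_two]
  simp only [innerSL_apply_apply, inner_neg_right, ContinuousLinearMap.star_eq_adjoint,
    ContinuousLinearMap.adjoint_inner_left]
  congr 1
  ring

/-- left slot: multiples of rank one projections -/
theorem SK_proj_left (S : H →L[ℂ] H) (x : H) (hx : ‖x‖ = 1) (c : ℂ) (hc : ‖c‖ = 1) :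
    SK (c • ro x x) S = R2 ((c - (starRingEnd ℂ) c) * ⟪x, S x⟫_ℂ) (⟪x, S (S x)⟫_ℂ - ⟪x, S x⟫_ℂ ^ 2) := by
  unfold SK
  have h1 : (c • ro x x) * S - S * star (c • ro x x) =
      rk (c • x) (innerSL ℂ (star S x)) + rk (-((starRingEnd ℂ) c • S x)) (innerSL ℂ x) := by
    rw [star_smul, star_ro, smul_mul_assoc, mul_smul_comm, mul_ro, ro_mul]
    ext v
    simp only [sub_apply, add_apply, smul_apply,
      ro_apply, ContinuousLinearMap.smulRight_apply, innerSL_apply_apply, smul_neg, Complex.star_def]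
    rw [smul_comm c, smul_comm ((starRingEnd ℂ) c)]
    abel
  have hcc : c * (starRingEnd ℂ) c = 1 := by
    rw [Complex.mul_conj, Complex.normSq_eq_norm_sq, hc]
    norm_num
  have hxx : ⟪x, x⟫_ℂ = 1 := by
    rw [inner_self_eq_norm_sq_to_K, hx]
    norm_num
  rw [h1, sr_rank_two]
  simp only [innerSL_apply_apply, inner_neg_right, inner_smul_right, ContinuousLinearMap.star_eq_adjoint,
    ContinuousLinearMap.adjoint_inner_left, hxx]
  congr 1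
  · ring
  · linear_combination (⟪x, S (S x)⟫_ℂ - ⟪x, S x⟫_ℂ ^ 2) * hcc

/-- right slot: rank one projections -/
theorem SK_proj_right (T : H →L[ℂ] H) (x : H) (hx : ‖x‖ = 1) :
    SK T (ro x x) = |(⟪x, T x⟫_ℂ).im| + Real.sqrt (‖T x‖ ^ 2 - (⟪x, T x⟫_ℂ).re ^ 2) := by
  rw [SK_ro_right]
  set a : ℂ := ⟪x, T x⟫_ℂ with ha
  have hconj : ⟪T x, x⟫_ℂ = (starRingEnd ℂ) a := by rw [ha, inner_conj_symm]
  have hxx : ⟪x, x⟫_ℂ = 1 := by
    rw [inner_self_eq_norm_sq_to_K, hx]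
    norm_num
  have hTT : ⟪T x, T x⟫_ℂ = ((‖T x‖ ^ 2 : ℝ) : ℂ) := by
    rw [inner_self_eq_norm_sq_to_K]
    push_cast
    rfl
  have hcs : ‖a‖ ≤ ‖T x‖ := by
    have := norm_inner_le_norm (𝕜 := ℂ) x (T x)
    rwa [hx, one_mul, ← ha] at this
  have hre : a.re ^ 2 ≤ ‖T x‖ ^ 2 := by
    have h1 : |a.re| ≤ ‖T x‖ := (Complex.abs_re_le_norm a).trans hcs
    rw [← sq_abs]
    exact pow_le_pow_left₀ (abs_nonneg _) h1 2
  set s : ℝ := Real.sqrt (‖T x‖ ^ 2 - a.re ^ 2) with hs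
  have hs0 : 0 ≤ s := Real.sqrt_nonneg _
  have hs2 : s ^ 2 = ‖T x‖ ^ 2 - a.re ^ 2 := Real.sq_sqrt (by linarith)
  have h1 : a - (starRingEnd ℂ) a = Complex.I * ((a.im + s : ℝ) : ℂ) + Complex.I * ((a.im - s : ℝ) : ℂ) := by
    rw [Complex.sub_conj]
    push_cast
    ring
  have h2 : (1 : ℂ) * ((‖T x‖ ^ 2 : ℝ) : ℂ) - a * (starRingEnd ℂ) a =
      (Complex.I * ((a.im + s : ℝ) : ℂ)) * (Complex.I * ((a.im - s : ℝ) : ℂ)) := by
    rw [Complex.mul_conj, Complex.normSq_apply]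
    have h3 : (Complex.I * ((a.im + s : ℝ) : ℂ)) * (Complex.I * ((a.im - s : ℝ) : ℂ)) =
        Complex.I ^ 2 * (((a.im + s) * (a.im - s) : ℝ) : ℂ) := by
      push_cast
      ring
    rw [h3, Complex.I_sq, one_mul, ← Complex.ofReal_sub, neg_one_mul, ← Complex.ofReal_neg]
    congr 1
    nlinarith
  rw [hconj, hxx, hTT, h1, h2, R2_eq]
  rw [norm_mul, norm_mul, Complex.norm_I, one_mul, one_mul, Complex.norm_real, Complex.norm_real,
    Real.norm_eq_abs, Real.norm_eq_abs]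
  rcases le_total 0 a.im with h | h
  · rw [abs_of_nonneg h, abs_of_nonneg (by linarith : 0 ≤ a.im + s)]
    apply max_eq_left
    rw [abs_le]
    constructor <;> linarith
  · rw [abs_of_nonpos h, abs_of_nonpos (by linarith : a.im - s ≤ 0)]
    rw [max_eq_right]
    · ring
    · rw [abs_le]
      constructor <;> linarith

end sk


end j6058

-- part 6059
section j6059
theorem R2_aux_j6059 {a b a' b' : ℝ} (ha : 0 ≤ a) (hb : 0 ≤ b) (ha' : 0 ≤ a') (hb' : 0 ≤ b')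
    (h : max a b = max a' b') (hd : a * b = a' * b') : a ^ 2 + b ^ 2 = a' ^ 2 + b' ^ 2 := by
  have key : ∀ a b : ℝ, (max a b) ^ 2 * (a ^ 2 + b ^ 2) = (max a b) ^ 4 + (a * b) ^ 2 := by
    intro a b
    rcases le_total a b with h | h
    · rw [max_eq_right h]; ring
    · rw [max_eq_left h]; ring
  have h1 := key a b
  have h2 := key a' b'
  rw [← h, ← hd, ← h1] at h2
  rcases eq_or_ne (max a b) 0 with h0 | h0
  · have e1 : a = 0 := le_antisymm (h0 ▸ le_max_left a b) ha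
    have e2 : b = 0 := le_antisymm (h0 ▸ le_max_right a b) hb
    rw [h] at h0
    have e3 : a' = 0 := le_antisymm (h0 ▸ le_max_left a' b') ha'
    have e4 : b' = 0 := le_antisymm (h0 ▸ le_max_right a' b') hb'
    rw [e1, e2, e3, e4]
  · exact (mul_left_cancel₀ (pow_ne_zero 2 h0) h2).symm

/-- same modulus of the determinant and same larger modulus -/
theorem R2_same {t t' d d' : ℂ} (h : R2 t d = R2 t' d') (hd : ‖d‖ = ‖d'‖) :
    ‖t‖ ^ 2 + ‖t ^ 2 - 4 * d‖ = ‖t'‖ ^ 2 + ‖t' ^ 2 - 4 * d'‖ := by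
  obtain ⟨z, w, h1, h2, h3⟩ := R2_exists t d
  obtain ⟨z', w', h1', h2', h3'⟩ := R2_exists t' d'
  have e1 := R2_sq_add z w
  have e2 := R2_sq_add z' w'
  rw [h1, h2] at e1
  rw [h1', h2'] at e2
  have e3 := R2_aux_j6059 (norm_nonneg z) (norm_nonneg w) (norm_nonneg z') (norm_nonneg w')
    (by rw [← h3, ← h3', h]) (by rw [← norm_mul, ← norm_mul, h2, h2', hd])
  linarith

section RPs
variable {E : Type*} [AddCommGroup E] [Module ℂ E]

theorem RP_const (c : ℂ) : RP (fun _ : E => c) := by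
  intro x y
  exact ⟨Polynomial.C c, fun t => by rw [Polynomial.eval_C]⟩

theorem RP_add {p q : E → ℂ} (hp : RP p) (hq : RP q) : RP (fun x => p x + q x) := by
  intro x y
  obtain ⟨P, hP⟩ := hp x y
  obtain ⟨Q, hQ⟩ := hq x y
  exact ⟨P + Q, fun t => by rw [Polynomial.eval_add, ← hP, ← hQ]⟩

theorem RP_sub {p q : E → ℂ} (hp : RP p) (hq : RP q) : RP (fun x => p x - q x) := by
  intro x y
  obtain ⟨P, hP⟩ := hp x y
  obtain ⟨Q, hQ⟩ := hq x y
  exact ⟨P - Q, fun t => by rw [Polynomial.eval_sub, ← hP, ← hQ]⟩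

theorem RP_mul {p q : E → ℂ} (hp : RP p) (hq : RP q) : RP (fun x => p x * q x) := by
  intro x y
  obtain ⟨P, hP⟩ := hp x y
  obtain ⟨Q, hQ⟩ := hq x y
  exact ⟨P * Q, fun t => by rw [Polynomial.eval_mul, ← hP, ← hQ]⟩

theorem RP_mul_zero {p q : E → ℂ} (hp : RP p) (hq : RP q) (h : ∀ x, p x = 0 ∨ q x = 0) :
    (∀ x, p x = 0) ∨ (∀ x, q x = 0) := by
  by_contra hcon
  rw [not_or, not_forall, not_forall] at hcon
  obtain ⟨⟨a, ha⟩, ⟨b, hb⟩⟩ := hcon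
  obtain ⟨P, hP⟩ := hp a (b - a)
  obtain ⟨Q, hQ⟩ := hq a (b - a)
  have hP0 : P.eval 0 ≠ 0 := by
    have := hP 0
    rw [Complex.ofReal_zero, zero_smul, add_zero] at this
    rwa [← this]
  have hQ1 : Q.eval 1 ≠ 0 := by
    have := hQ 1
    rw [Complex.ofReal_one, one_smul, add_sub_cancel] at this
    rwa [← this]
  have hPQ : P * Q = 0 := by
    apply Polynomial.eq_zero_of_infinite_isRoot
    refine Set.infinite_of_injective_forall_mem (f := fun n : ℕ => ((n : ℝ) : ℂ)) ?_ ?_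
    · intro m n hmn
      have h' : ((m : ℝ) : ℂ) = ((n : ℝ) : ℂ) := hmn
      exact_mod_cast h'
    · intro n
      show (P * Q).eval ((n : ℝ) : ℂ) = 0
      rw [Polynomial.eval_mul, ← hP, ← hQ]
      exact mul_eq_zero.2 (h _)
  rcases mul_eq_zero.1 hPQ with h0 | h0
  · rw [h0] at hP0; simp at hP0
  · rw [h0] at hQ1; simp at hQ1

end RPs

section forms
variable {H : Type*} [NormedAddCommGroup H] [InnerProductSpace ℂ H]


theorem RP_form2 (A B : H →L[ℂ] H) : RP (fun x : H => ⟪A x, B x⟫_ℂ) := by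
  intro x y
  refine ⟨Polynomial.C ⟪A x, B x⟫_ℂ + Polynomial.C (⟪A x, B y⟫_ℂ + ⟪A y, B x⟫_ℂ) * Polynomial.X +
    Polynomial.C ⟪A y, B y⟫_ℂ * Polynomial.X ^ 2, fun t => ?_⟩
  simp only [map_add, map_smul, inner_add_left, inner_add_right, inner_smul_left, inner_smul_right,
    Complex.conj_ofReal, Polynomial.eval_add, Polynomial.eval_mul, Polynomial.eval_C,
    Polynomial.eval_X, Polynomial.eval_pow]
  ring

theorem RP_form (A : H →L[ℂ] H) : RP (fun x : H => ⟪x, A x⟫_ℂ) :=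
  RP_form2 (ContinuousLinearMap.id ℂ H) A

/-- polarization of identities between products of `k` quadratic forms -/
theorem polarize {ι : Type*} (s : Finset ι) (k : ℕ) (c : ι → ℂ) (A : ι → Fin k → (H →L[ℂ] H))
    (h : ∀ x : H, ∑ i ∈ s, c i * ∏ j, ⟪x, A i j x⟫_ℂ = 0) (x y : H) :
    ∑ i ∈ s, c i * ∏ j, ⟪y, A i j x⟫_ℂ = 0 := by
  set P : Polynomial ℂ := ∑ i ∈ s, Polynomial.C (c i) * ∏ j, (Polynomial.C ⟪y, A i j x⟫_ℂ +
    Polynomial.C (⟪x, A i j x⟫_ℂ + ⟪y, A i j y⟫_ℂ) * Polynomial.X +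
    Polynomial.C ⟪x, A i j y⟫_ℂ * Polynomial.X ^ 2) with hP
  have hev : ∀ ω : ℂ, P.eval ω = ∑ i ∈ s, c i * ∏ j, (⟪y, A i j x⟫_ℂ +
      (⟪x, A i j x⟫_ℂ + ⟪y, A i j y⟫_ℂ) * ω + ⟪x, A i j y⟫_ℂ * ω ^ 2) := by
    intro ω
    rw [hP, Polynomial.eval_finsetSum]
    refine Finset.sum_congr rfl (fun i _ => ?_)
    rw [Polynomial.eval_mul, Polynomial.eval_C, Polynomial.eval_prod]
    congr 1
    refine Finset.prod_congr rfl (fun j _ => ?_)
    simp only [Polynomial.eval_add, Polynomial.eval_mul, Polynomial.eval_C,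
      Polynomial.eval_X, Polynomial.eval_pow]
  have hP0 : P = 0 := by
    apply Polynomial.eq_zero_of_infinite_isRoot
    have hpre : IsPreconnected (Metric.sphere (0 : ℂ) 1) := by
      apply isPreconnected_sphere
      rw [Complex.rank_real_complex]
      exact_mod_cast Nat.one_lt_two
    have hnt : (Metric.sphere (0 : ℂ) 1).Nontrivial := by
      refine ⟨1, by simp, -1, by simp, ?_⟩
      intro h
      have := congrArg Complex.re h
      norm_num at this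
    refine (hpre.infinite_of_nontrivial hnt).mono ?_
    intro ω hω
    rw [mem_sphere_zero_iff_norm] at hω
    show P.eval ω = 0
    have hωc : (starRingEnd ℂ) ω * ω = 1 := by
      rw [mul_comm, Complex.mul_conj, Complex.normSq_eq_norm_sq, hω]
      norm_num
    rw [hev]
    have h1 := h (x + ω • y)
    have h2 : ∑ i ∈ s, c i * ∏ j, (⟪y, A i j x⟫_ℂ +
      (⟪x, A i j x⟫_ℂ + ⟪y, A i j y⟫_ℂ) * ω + ⟪x, A i j y⟫_ℂ * ω ^ 2) =
        ω ^ k * ∑ i ∈ s, c i * ∏ j, ⟪x + ω • y, A i j (x + ω • y)⟫_ℂ := by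
      rw [Finset.mul_sum]
      refine Finset.sum_congr rfl (fun i _ => ?_)
      have h3 : ∏ j, (⟪y, A i j x⟫_ℂ + (⟪x, A i j x⟫_ℂ + ⟪y, A i j y⟫_ℂ) * ω + ⟪x, A i j y⟫_ℂ * ω ^ 2) =
          ∏ j : Fin k, (ω * ⟪x + ω • y, A i j (x + ω • y)⟫_ℂ) := by
        refine Finset.prod_congr rfl (fun j _ => ?_)
        simp only [map_add, map_smul, inner_add_left, inner_add_right, inner_smul_left,
          inner_smul_right]
        linear_combination (-⟪y, A i j x⟫_ℂ - ω * ⟪y, A i j y⟫_ℂ) * hωc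
      rw [h3, Finset.prod_mul_distrib, Finset.prod_const, Finset.card_univ, Fintype.card_fin]
      ring
    rw [h2, h1, mul_zero]
  have h0 := hev 0
  rw [hP0, Polynomial.eval_zero] at h0
  rw [h0]
  refine Finset.sum_congr rfl (fun i _ => ?_)
  congr 1
  refine Finset.prod_congr rfl (fun j _ => ?_)
  ring

/-- products of two quadratic forms -/
theorem polarize2 (A B C D : H →L[ℂ] H) (h : ∀ x : H, ⟪x, A x⟫_ℂ * ⟪x, B x⟫_ℂ = ⟪x, C x⟫_ℂ * ⟪x, D x⟫_ℂ)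
    (x y : H) : ⟪y, A x⟫_ℂ * ⟪y, B x⟫_ℂ = ⟪y, C x⟫_ℂ * ⟪y, D x⟫_ℂ := by
  have h1 := polarize (Finset.univ : Finset (Fin 2)) 2 ![1, -1] ![![A, B], ![C, D]]
    (by
      intro x
      simp only [Fin.sum_univ_two, Fin.prod_univ_two, Matrix.cons_val_zero, Matrix.cons_val_one]
      rw [h x]
      ring) x y
  simp only [Fin.sum_univ_two, Fin.prod_univ_two, Matrix.cons_val_zero, Matrix.cons_val_one] at h1
  linear_combination h1

/-- products of three quadratic forms -/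
theorem polarize3 (A B C A' B' C' : H →L[ℂ] H)
    (h : ∀ x : H, ⟪x, A x⟫_ℂ * ⟪x, B x⟫_ℂ * ⟪x, C x⟫_ℂ = ⟪x, A' x⟫_ℂ * ⟪x, B' x⟫_ℂ * ⟪x, C' x⟫_ℂ)
    (x y : H) : ⟪y, A x⟫_ℂ * ⟪y, B x⟫_ℂ * ⟪y, C x⟫_ℂ = ⟪y, A' x⟫_ℂ * ⟪y, B' x⟫_ℂ * ⟪y, C' x⟫_ℂ := by
  have h1 := polarize (Finset.univ : Finset (Fin 2)) 3 ![1, -1] ![![A, B, C], ![A', B', C']]
    (by
      intro x
      simp only [Fin.sum_univ_two, Fin.prod_univ_three, Matrix.cons_val_zero, Matrix.cons_val_one,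
        Matrix.cons_val]
      rw [h x]
      ring) x y
  simp only [Fin.sum_univ_two, Fin.prod_univ_three, Matrix.cons_val_zero, Matrix.cons_val_one,
    Matrix.cons_val] at h1
  linear_combination h1

end forms


end j6059

-- part 6095
section j6095
section srbasic
variable {X : Type*} [NormedAddCommGroup X] [NormedSpace ℂ X]

theorem sr_nonneg_j6095 (T : X →L[ℂ] X) : 0 ≤ sr T := ENNReal.toReal_nonneg

variable [CompleteSpace X]

end srbasic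

section sk
variable {H : Type*} [NormedAddCommGroup H] [InnerProductSpace ℂ H] [CompleteSpace H]


end sk

section RPs
variable {E : Type*} [AddCommGroup E] [Module ℂ E]

end RPs

section forms
variable {H : Type*} [NormedAddCommGroup H] [InnerProductSpace ℂ H]


end forms

section e1
variable {H K : Type*} [NormedAddCommGroup H] [InnerProductSpace ℂ H] [CompleteSpace H]
  [NormedAddCommGroup K] [InnerProductSpace ℂ K] [CompleteSpace K]


/-- an operator all of whose vectors are eigenvectors is scalar -/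
theorem scalar_of_orth (T : H →L[ℂ] H) (h : ∀ x y : H, ⟪y, x⟫_ℂ = 0 → ⟪y, T x⟫_ℂ = 0) :
    ∃ c : ℂ, T = c • 1 := by
  have hev : ∀ x : H, ∃ c : ℂ, T x = c • x := by
    intro x
    by_cases hx : x = 0
    · exact ⟨0, by simp [hx]⟩
    have hxx : ⟪x, x⟫_ℂ ≠ 0 := inner_self_ne_zero.mpr hx
    refine ⟨⟪x, T x⟫_ℂ / ⟪x, x⟫_ℂ, ?_⟩
    set c := ⟪x, T x⟫_ℂ / ⟪x, x⟫_ℂ with hc
    have h1 : ⟪x, T x - c • x⟫_ℂ = 0 := by
      rw [inner_sub_right, inner_smul_right, hc, div_mul_cancel₀ _ hxx, sub_self]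
    have h2 : ⟪T x - c • x, x⟫_ℂ = 0 := inner_eq_zero_symm.mp h1
    have h3 := h x (T x - c • x) h2
    have h4 : ⟪T x - c • x, T x - c • x⟫_ℂ = 0 := by
      rw [inner_sub_right, inner_smul_right, h3, h2]; simp
    exact sub_eq_zero.mp (inner_self_eq_zero.mp h4)
  by_cases hT : ∀ x : H, x = 0
  · refine ⟨0, ?_⟩
    ext x
    rw [hT (T x)]
    simp
  push Not at hT
  obtain ⟨x0, hx0⟩ := hT
  obtain ⟨b, hb⟩ := hev x0
  refine ⟨b, ?_⟩
  ext x
  show T x = b • x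
  obtain ⟨a, ha⟩ := hev x
  by_cases hlin : ∃ t : ℂ, x = t • x0
  · obtain ⟨t, rfl⟩ := hlin
    rw [map_smul, hb, smul_comm]
  · obtain ⟨c, hc⟩ := hev (x + x0)
    rw [map_add, ha, hb] at hc
    have h1 : (a - c) • x = (c - b) • x0 := by
      rw [sub_smul, sub_smul, sub_eq_sub_iff_add_eq_add, hc, smul_add]
      abel
    have hac : a = c := by
      by_contra hne
      apply hlin
      have hne' : a - c ≠ 0 := sub_ne_zero.mpr hne
      refine ⟨(a - c)⁻¹ * (c - b), ?_⟩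
      rw [mul_smul, ← h1, smul_smul, inv_mul_cancel₀ hne', one_smul]
    rw [hac, sub_self, zero_smul] at h1
    have hcb : c = b := by
      rcases smul_eq_zero.mp h1.symm with h2 | h2
      · exact sub_eq_zero.mp h2
      · exact absurd h2 hx0
    rw [ha, hac, hcb]

theorem SK_zero_left_iff (T : H →L[ℂ] H) :
    (∀ S, SK T S = 0) ↔ ∃ r : ℝ, T = (r : ℂ) • 1 := by
  constructor
  · intro h
    have hunit : ∀ x : H, ‖x‖ = 1 → (⟪x, T x⟫_ℂ).im = 0 ∧ T x = ⟪x, T x⟫_ℂ • x := by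
      intro x hx
      have h1 := h (ro x x)
      rw [SK_proj_right T x hx] at h1
      have h2 : 0 ≤ |(⟪x, T x⟫_ℂ).im| := abs_nonneg _
      have h3 : 0 ≤ Real.sqrt (‖T x‖ ^ 2 - (⟪x, T x⟫_ℂ).re ^ 2) := Real.sqrt_nonneg _
      have h4 : |(⟪x, T x⟫_ℂ).im| = 0 := by linarith
      have h5 : Real.sqrt (‖T x‖ ^ 2 - (⟪x, T x⟫_ℂ).re ^ 2) = 0 := by linarith
      have him : (⟪x, T x⟫_ℂ).im = 0 := abs_eq_zero.mp h4
      refine ⟨him, ?_⟩
      have h6 : ‖T x‖ ^ 2 - (⟪x, T x⟫_ℂ).re ^ 2 ≤ 0 := Real.sqrt_eq_zero'.mp h5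
      have h7 : ‖⟪x, T x⟫_ℂ‖ ^ 2 = (⟪x, T x⟫_ℂ).re ^ 2 := by
        rw [Complex.sq_norm, Complex.normSq_apply, him]; ring
      have h8 : ‖T x - ⟪x, T x⟫_ℂ • x‖ ^ 2 = ‖T x‖ ^ 2 - ‖⟪x, T x⟫_ℂ‖ ^ 2 := by
        rw [@norm_sub_sq ℂ, inner_smul_right, norm_smul, hx, mul_one]
        have : ⟪x, T x⟫_ℂ * ⟪T x, x⟫_ℂ = ((‖⟪x, T x⟫_ℂ‖ ^ 2 : ℝ) : ℂ) := by
          rw [← inner_conj_symm (T x) x, Complex.mul_conj, Complex.normSq_eq_norm_sq]
        rw [this]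
        simp only [RCLike.re_to_complex, Complex.ofReal_re]
        ring
      have h9 : ‖T x - ⟪x, T x⟫_ℂ • x‖ ^ 2 ≤ 0 := by rw [h8, h7]; exact h6
      have h10 : ‖T x - ⟪x, T x⟫_ℂ • x‖ = 0 := by
        have := sq_nonneg ‖T x - ⟪x, T x⟫_ℂ • x‖
        exact pow_eq_zero_iff (two_ne_zero) |>.mp (le_antisymm h9 this)
      exact sub_eq_zero.mp (norm_eq_zero.mp h10)
    have hev : ∀ x : H, ∃ c : ℂ, T x = c • x := by
      intro x
      by_cases hx : x = 0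
      · exact ⟨0, by simp [hx]⟩
      have hn : ‖x‖ ≠ 0 := norm_ne_zero_iff.mpr hx
      have hnc : ((‖x‖ : ℝ) : ℂ) ≠ 0 := by exact_mod_cast hn
      have hu : ‖((‖x‖ : ℝ) : ℂ)⁻¹ • x‖ = 1 := by
        rw [norm_smul, norm_inv, Complex.norm_real, norm_norm, inv_mul_cancel₀ hn]
      obtain ⟨-, h2⟩ := hunit _ hu
      set c := ⟪((‖x‖ : ℝ) : ℂ)⁻¹ • x, T (((‖x‖ : ℝ) : ℂ)⁻¹ • x)⟫_ℂ
      refine ⟨c, ?_⟩
      have h3 : T x = ((‖x‖ : ℝ) : ℂ) • T (((‖x‖ : ℝ) : ℂ)⁻¹ • x) := by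
        rw [map_smul, smul_smul, mul_inv_cancel₀ hnc, one_smul]
      rw [h3, h2, smul_smul, smul_smul]
      congr 1
      field_simp
    obtain ⟨c, hc⟩ := scalar_of_orth T (by
      intro x y hxy
      obtain ⟨c, hc⟩ := hev x
      rw [hc, inner_smul_right, hxy, mul_zero])
    by_cases hT : ∀ x : H, x = 0
    · refine ⟨0, ?_⟩
      ext x
      rw [hT (T x)]
      simp
    push Not at hT
    obtain ⟨x0, hx0⟩ := hT
    have hn : ‖x0‖ ≠ 0 := norm_ne_zero_iff.mpr hx0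
    have hu : ‖((‖x0‖ : ℝ) : ℂ)⁻¹ • x0‖ = 1 := by
      rw [norm_smul, norm_inv, Complex.norm_real, norm_norm, inv_mul_cancel₀ hn]
    obtain ⟨h1, -⟩ := hunit _ hu
    set x := ((‖x0‖ : ℝ) : ℂ)⁻¹ • x0
    have h2 : ⟪x, T x⟫_ℂ = c := by
      rw [hc]
      show ⟪x, c • x⟫_ℂ = c
      rw [inner_smul_right, inner_self_eq_norm_sq_to_K, hu]
      simp
    rw [h2] at h1
    refine ⟨c.re, ?_⟩
    rw [hc]
    congr 1
    apply Complex.ext
    · simp
    · simpa using h1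
  · rintro ⟨r, rfl⟩ S
    rw [SK_scalar_left]
    simp

theorem SK_zero_right_iff (S : H →L[ℂ] H) : (∀ T, SK T S = 0) ↔ S = 0 := by
  constructor
  · intro h
    have h1 : ∀ x y : H, ⟪y, S x⟫_ℂ = ⟪x, S y⟫_ℂ := by
      intro x y
      have := h (ro x y)
      rw [SK_ro_left, R2_eq_zero_iff] at this
      exact sub_eq_zero.mp this.1
    have h2 : ∀ x y : H, ⟪y, S x⟫_ℂ = 0 := by
      intro x y
      have h3 := h1 (I • x) y
      rw [map_smul, inner_smul_right, inner_smul_left, ← h1 x y, Complex.conj_I] at h3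
      have h4 : (2 * I) * ⟪y, S x⟫_ℂ = 0 := by linear_combination h3
      rcases mul_eq_zero.mp h4 with h5 | h5
      · exact absurd h5 (mul_ne_zero two_ne_zero Complex.I_ne_zero)
      · exact h5
    ext x
    have := h2 x (S x)
    simpa using inner_self_eq_zero.mp this
  · rintro rfl T
    have := SK_smul T 0 0
    simpa using this

theorem scalar_char (J : H →L[ℂ] H) (κ : ℝ) (h : ∀ R, SK R J = κ * ‖R - star R‖) :
    ∃ j : ℂ, J = j • 1 := by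
  have h1 : ∀ x : H, ⟪x, (1 : H →L[ℂ] H) x⟫_ℂ * ⟪x, (J * J) x⟫_ℂ = ⟪x, J x⟫_ℂ * ⟪x, J x⟫_ℂ := by
    intro x
    have h2 := h (ro x x)
    rw [star_ro, sub_self, norm_zero, mul_zero, SK_ro_left, R2_eq_zero_iff] at h2
    have h3 := sub_eq_zero.mp h2.2
    exact h3
  have h2 := polarize2 1 (J * J) J J h1
  apply scalar_of_orth
  intro x y hxy
  have h3 := h2 x y
  have h4 : ⟪y, (1 : H →L[ℂ] H) x⟫_ℂ = 0 := hxy
  rw [h4, zero_mul] at h3
  exact mul_self_eq_zero.mp h3.symm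

theorem norm_one_op_j6095 [Nontrivial H] : ‖(1 : H →L[ℂ] H)‖ = 1 := norm_one

theorem sr_one_op_j6095 [Nontrivial H] : sr (1 : H →L[ℂ] H) = 1 := by
  rw [sr_normal (by simp), norm_one_op_j6095]

theorem norm_I_sub_j6095 [Nontrivial H] :
    ‖(I • (1 : H →L[ℂ] H)) - star (I • (1 : H →L[ℂ] H))‖ = 2 := by
  have : (I • (1 : H →L[ℂ] H)) - star (I • (1 : H →L[ℂ] H)) = (2 * I) • (1 : H →L[ℂ] H) := by
    rw [star_smul, star_one]
    simp only [RCLike.star_def, Complex.conj_I, neg_smul, sub_neg_eq_add]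
    rw [← add_smul]; congr 1; ring
  rw [this, norm_smul, norm_one_op_j6095]
  simp

theorem skew_basic [Nontrivial H] (φ : (H →L[ℂ] H) → (K →L[ℂ] K)) (hs : Function.Surjective φ)
    (h : ∀ T S, SK (φ T) (φ S) = SK T S) :
    Nontrivial K ∧ (∀ S, sr (φ S) = sr S) ∧ (∀ T, ‖φ T - star (φ T)‖ = ‖T - star T‖) ∧
      (∀ T, φ T = 0 ↔ T = 0) ∧
      (∀ c : ℂ, ∃ c' : ℂ, φ (c • 1) = c' • 1 ∧ ‖c'‖ = ‖c‖ ∧ |c'.im| = |c.im|) := by
  have hreal : ∀ T, (∃ r : ℝ, φ T = (r : ℂ) • 1) ↔ (∃ r : ℝ, T = (r : ℂ) • 1) := by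
    intro T
    rw [← SK_zero_left_iff, ← SK_zero_left_iff]
    constructor
    · intro h1 S
      rw [← h]; exact h1 _
    · intro h1 S'
      obtain ⟨S, rfl⟩ := hs S'
      rw [h]; exact h1 _
  have hzero : ∀ S, φ S = 0 ↔ S = 0 := by
    intro S
    rw [← SK_zero_right_iff, ← SK_zero_right_iff]
    constructor
    · intro h1 T
      rw [← h]; exact h1 _
    · intro h1 T'
      obtain ⟨T, rfl⟩ := hs T'
      rw [h]; exact h1 _
  have hK : Nontrivial K := by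
    by_contra hK
    rw [not_nontrivial_iff_subsingleton] at hK
    have h1 : φ 1 = 0 := by
      ext x
      exact Subsingleton.elim _ _
    exact one_ne_zero ((hzero 1).mp h1)
  obtain ⟨κ, hκ⟩ := (hreal 1).mpr ⟨1, by simp⟩
  have hκ0 : κ ≠ 0 := by
    rintro rfl
    have h1 : φ 1 = 0 := by rw [hκ]; simp
    exact one_ne_zero ((hzero 1).mp h1)
  have hκa : 0 < |κ| := abs_pos.mpr hκ0
  have e1 : ∀ T, |κ| * ‖φ T - star (φ T)‖ = ‖T - star T‖ := by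
    intro T
    have h1 := h T 1
    rw [hκ, SK_scalar, Complex.norm_real, Real.norm_eq_abs] at h1
    rw [h1]
    have := SK_scalar T 1
    rw [one_smul, norm_one, one_mul] at this
    exact this
  have e2 : ∀ R, SK R (φ (I • 1)) = |κ| * ‖R - star R‖ := by
    intro R
    obtain ⟨T, rfl⟩ := hs R
    rw [h, SK_scalar, e1, Complex.norm_I, one_mul]
  obtain ⟨j, hj⟩ := scalar_char _ _ e2
  have hj1 : ‖j‖ = |κ| := by
    have := e2 (I • 1)
    rw [hj, SK_scalar, norm_I_sub_j6095] at this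
    linarith
  have e3 : ∀ S, sr S = |j.im| * sr (φ S) := by
    intro S
    have h1 := h (I • 1) S
    rw [hj, SK_scalar_left, SK_scalar_left, Complex.I_im, abs_one] at h1
    linarith
  obtain ⟨J', hJ'⟩ := hs (I • 1)
  have e4 : ∀ T, SK T J' = |κ|⁻¹ * ‖T - star T‖ := by
    intro T
    rw [← h, hJ', SK_scalar, Complex.norm_I, one_mul, ← e1 T, ← mul_assoc,
      inv_mul_cancel₀ hκa.ne', one_mul]
  obtain ⟨j', hj'⟩ := scalar_char _ _ e4
  have hj1' : ‖j'‖ = |κ|⁻¹ := by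
    have := e4 (I • 1)
    rw [hj', SK_scalar, norm_I_sub_j6095] at this
    linarith
  have e5 : ∀ S, sr (φ S) = |j'.im| * sr S := by
    intro S
    have h1 := h J' S
    rw [hJ', hj', SK_scalar_left, SK_scalar_left, Complex.I_im, abs_one] at h1
    linarith
  have e6 : |j.im| * |j'.im| = 1 := by
    have h1 := e3 1
    rw [e5 1, sr_one_op_j6095] at h1
    linarith
  have hjle : |j.im| ≤ |κ| := by rw [← hj1]; exact Complex.abs_im_le_norm j
  have hjle' : |j'.im| ≤ |κ|⁻¹ := by rw [← hj1']; exact Complex.abs_im_le_norm j'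
  have e7 : |j.im| = |κ| := by
    apply le_antisymm hjle
    have h1 : 0 ≤ |j.im| := abs_nonneg _
    have h2 : |j.im| * |j'.im| ≤ |j.im| * |κ|⁻¹ := mul_le_mul_of_nonneg_left hjle' h1
    rw [e6] at h2
    have h3 := mul_le_mul_of_nonneg_right h2 hκa.le
    rw [one_mul, mul_assoc, inv_mul_cancel₀ hκa.ne', mul_one] at h3
    exact h3
  have e8 : |κ| = 1 := by
    have h1 := e3 1
    rw [hκ, sr_smul', sr_one_op_j6095, sr_one_op_j6095, Complex.norm_real, Real.norm_eq_abs, e7, mul_one] at h1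
    nlinarith
  have hsr : ∀ S, sr (φ S) = sr S := by
    intro S
    rw [e3 S, e7, e8, one_mul]
  have hnorm : ∀ T, ‖φ T - star (φ T)‖ = ‖T - star T‖ := by
    intro T
    rw [← e1 T, e8, one_mul]
  refine ⟨hK, hsr, hnorm, hzero, ?_⟩
  intro c
  have e9 : ∀ R, SK R (φ (c • 1)) = ‖c‖ * ‖R - star R‖ := by
    intro R
    obtain ⟨T, rfl⟩ := hs R
    rw [h, SK_scalar, hnorm]
  obtain ⟨c', hc'⟩ := scalar_char _ _ e9
  refine ⟨c', hc', ?_, ?_⟩
  · have := e9 (I • 1)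
    rw [hc', SK_scalar, norm_I_sub_j6095] at this
    linarith
  · have h1 := h (c • 1) 1
    rw [hc', SK_scalar_left, SK_scalar_left, hsr, sr_one_op_j6095] at h1
    linarith

end e1


end j6095

-- part 6097
section j6097
section srbasic
variable {X : Type*} [NormedAddCommGroup X] [NormedSpace ℂ X]

theorem sr_nonneg_j6097 (T : X →L[ℂ] X) : 0 ≤ sr T := ENNReal.toReal_nonneg

variable [CompleteSpace X]

end srbasic

section sk
variable {H : Type*} [NormedAddCommGroup H] [InnerProductSpace ℂ H] [CompleteSpace H]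


end sk

section RPs
variable {E : Type*} [AddCommGroup E] [Module ℂ E]

end RPs

section forms
variable {H : Type*} [NormedAddCommGroup H] [InnerProductSpace ℂ H]


end forms

section e1
variable {H K : Type*} [NormedAddCommGroup H] [InnerProductSpace ℂ H] [CompleteSpace H]
  [NormedAddCommGroup K] [InnerProductSpace ℂ K] [CompleteSpace K]


theorem prop_vec_j6097 {H : Type*} [NormedAddCommGroup H] [InnerProductSpace ℂ H] (a b q : H)
    (h : ∀ y : H, ⟪y, a⟫_ℂ * ⟪y, b⟫_ℂ = ⟪y, q⟫_ℂ * ⟪y, q⟫_ℂ) (hq : q ≠ 0) : ∃ c : ℂ, a = c • q := by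
  have ha : a ≠ 0 := by
    rintro rfl
    have h1 := h q
    rw [inner_zero_right, zero_mul] at h1
    have h2 := mul_self_eq_zero.1 h1.symm
    exact hq (inner_self_eq_zero.1 h2)
  have haa : ⟪a, a⟫_ℂ ≠ 0 := fun h0 => ha (inner_self_eq_zero.1 h0)
  set y : H := ⟪a, a⟫_ℂ • q - ⟪a, q⟫_ℂ • a with hy
  have h1 : ⟪a, y⟫_ℂ = 0 := by
    rw [hy, inner_sub_right, inner_smul_right, inner_smul_right]; ring
  have h2 : ⟪y, a⟫_ℂ = 0 := inner_eq_zero_symm.1 h1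
  have h3 : ⟪y, q⟫_ℂ = 0 := by
    have h4 := h y
    rw [h2, zero_mul] at h4
    exact mul_self_eq_zero.1 h4.symm
  have h5 : ⟪y, y⟫_ℂ = 0 := by
    have : ⟪y, y⟫_ℂ = ⟪a, a⟫_ℂ * ⟪y, q⟫_ℂ - ⟪a, q⟫_ℂ * ⟪y, a⟫_ℂ := by
      conv_lhs => rw [hy, inner_sub_right, inner_smul_right, inner_smul_right]
    rw [this, h2, h3]; ring
  have h6 : y = 0 := inner_self_eq_zero.1 h5
  have h7 : ⟪a, a⟫_ℂ • q = ⟪a, q⟫_ℂ • a := sub_eq_zero.1 h6
  have haq : ⟪a, q⟫_ℂ ≠ 0 := by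
    intro h0
    rw [h0, zero_smul] at h7
    rcases smul_eq_zero.1 h7 with h8 | h8
    · exact haa h8
    · exact hq h8
  refine ⟨⟪a, a⟫_ℂ / ⟪a, q⟫_ℂ, ?_⟩
  rw [div_eq_inv_mul, mul_smul, h7, smul_smul, inv_mul_cancel₀ haq, one_smul]

/-- operators which are pointwise proportional, with the quadratic forms of equal modulus -/
theorem prop_of_sq (P Q : H →L[ℂ] H) (hQ : IsSelfAdjoint Q)
    (h : ∀ y : H, ‖⟪y, P y⟫_ℂ‖ = ‖⟪y, Q y⟫_ℂ‖) : ∃ c : ℂ, ‖c‖ = 1 ∧ P = c • Q := by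

  classical
  have hadj : ∀ (T : H →L[ℂ] H) (u v : H), ⟪u, (star T) v⟫_ℂ = ⟪T u, v⟫_ℂ := by
    intro T u v
    rw [ContinuousLinearMap.star_eq_adjoint]
    exact ContinuousLinearMap.adjoint_inner_right T u v
  have hadj' : ∀ (T : H →L[ℂ] H) (u v : H), ⟪(star T) u, v⟫_ℂ = ⟪u, T v⟫_ℂ := by
    intro T u v
    rw [ContinuousLinearMap.star_eq_adjoint]
    exact ContinuousLinearMap.adjoint_inner_left T v u
  have hQs : ∀ u v : H, ⟪Q u, v⟫_ℂ = ⟪u, Q v⟫_ℂ := by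
    intro u v
    have := hadj' Q u v
    rwa [hQ.star_eq] at this
  have hsq : ∀ y : H, ⟪y, P y⟫_ℂ * ⟪y, (star P) y⟫_ℂ = ⟪y, Q y⟫_ℂ * ⟪y, Q y⟫_ℂ := by
    intro y
    have h1 : ⟪y, (star P) y⟫_ℂ = (starRingEnd ℂ) ⟪y, P y⟫_ℂ := by
      rw [hadj, inner_conj_symm]
    have h2 : (starRingEnd ℂ) ⟪y, Q y⟫_ℂ = ⟪y, Q y⟫_ℂ := by
      rw [inner_conj_symm, hQs]
    have h3 : ⟪y, Q y⟫_ℂ * ⟪y, Q y⟫_ℂ = ⟪y, Q y⟫_ℂ * (starRingEnd ℂ) ⟪y, Q y⟫_ℂ := by rw [h2]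
    rw [h1, h3, Complex.mul_conj, Complex.mul_conj, Complex.normSq_eq_norm_sq,
      Complex.normSq_eq_norm_sq, h y]
  have hpol : ∀ x y : H, ⟪y, P x⟫_ℂ * ⟪y, (star P) x⟫_ℂ = ⟪y, Q x⟫_ℂ * ⟪y, Q x⟫_ℂ := by
    intro x y
    exact polarize2 P (star P) Q Q hsq x y
  by_cases hQ0 : Q = 0
  · refine ⟨1, by simp, ?_⟩
    have h1 : ∀ y : H, ⟪P y, y⟫_ℂ = 0 := by
      intro y
      have h2 := h y
      rw [hQ0] at h2
      simp only [ContinuousLinearMap.zero_apply, inner_zero_right, norm_zero] at h2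
      exact inner_eq_zero_symm.1 (norm_eq_zero.1 h2)
    have h3 := (inner_map_self_eq_zero (P : H →ₗ[ℂ] H)).1 h1
    rw [hQ0, smul_zero]
    ext y
    exact congrArg (fun f : H →ₗ[ℂ] H => f y) h3
  -- pointwise constants
  have hPc : ∀ x, Q x ≠ 0 → ∃ c : ℂ, P x = c • Q x := fun x hx =>
    prop_vec_j6097 (P x) ((star P) x) (Q x) (fun y => hpol x y) hx
  have hPsc : ∀ x, Q x ≠ 0 → ∃ c : ℂ, (star P) x = c • Q x := fun x hx =>
    prop_vec_j6097 ((star P) x) (P x) (Q x) (fun y => by rw [mul_comm]; exact hpol x y) hx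
  -- compatibility
  have hcomp : ∀ x y : H, ∀ c c' : ℂ, P x = c • Q x → (star P) y = c' • Q y → ⟪y, Q x⟫_ℂ ≠ 0 →
      c = (starRingEnd ℂ) c' := by
    intro x y c c' h1 h2 h3
    have h4 : ⟪y, P x⟫_ℂ = c * ⟪y, Q x⟫_ℂ := by rw [h1, inner_smul_right]
    have h5 : ⟪y, P x⟫_ℂ = (starRingEnd ℂ) c' * ⟪y, Q x⟫_ℂ := by
      rw [← hadj', h2, inner_smul_left, hQs]
    rw [h4] at h5
    exact mul_right_cancel₀ h3 h5
  obtain ⟨x0, hx0⟩ : ∃ x0, Q x0 ≠ 0 := by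
    by_contra hcon
    push Not at hcon
    exact hQ0 (by ext y; simpa using hcon y)
  obtain ⟨c, hc⟩ := hPc x0 hx0
  have hall : ∀ x, Q x ≠ 0 → P x = c • Q x := by
    intro x hx
    obtain ⟨c1, hc1⟩ := hPc x hx
    obtain ⟨y, hy1, hy2⟩ : ∃ y, ⟪y, Q x⟫_ℂ ≠ 0 ∧ ⟪y, Q x0⟫_ℂ ≠ 0 := by
      by_cases h1 : ⟪Q x, Q x0⟫_ℂ = 0
      · refine ⟨Q x + Q x0, ?_, ?_⟩
        · rw [inner_add_left, inner_eq_zero_symm.1 h1, add_zero]
          exact fun h0 => hx (inner_self_eq_zero.1 h0)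
        · rw [inner_add_left, h1, zero_add]
          exact fun h0 => hx0 (inner_self_eq_zero.1 h0)
      · exact ⟨Q x, fun h0 => hx (inner_self_eq_zero.1 h0), h1⟩
    have hQy : Q y ≠ 0 := by
      intro h0
      rw [← hQs, h0, inner_zero_left] at hy1
      exact hy1 rfl
    obtain ⟨c', hc'⟩ := hPsc y hQy
    have e1 := hcomp x y c1 c' hc1 hc' hy1
    have e2 := hcomp x0 y c c' hc hc' hy2
    rw [hc1, e1, ← e2]
  have hker : ∀ x, Q x = 0 → P x = 0 := by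
    intro x hx
    have h1 : ∀ y, Q y ≠ 0 → ⟪y, P x⟫_ℂ = 0 := by
      intro y hy
      obtain ⟨c', hc'⟩ := hPsc y hy
      rw [← hadj', hc', inner_smul_left, hQs, hx, inner_zero_right, mul_zero]
    have h2 : ∀ y, ⟪y, P x⟫_ℂ = 0 := by
      intro y
      by_cases hy : Q y = 0
      · have h3 : Q (y + x0) ≠ 0 := by rw [map_add, hy, zero_add]; exact hx0
        have h4 := h1 _ h3
        rw [inner_add_left, h1 x0 hx0, add_zero] at h4
        exact h4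
      · exact h1 y hy
    exact inner_self_eq_zero.1 (h2 (P x))
  have hPQ : P = c • Q := by
    ext x
    by_cases hx : Q x = 0
    · rw [ContinuousLinearMap.smul_apply, hx, smul_zero]; exact hker x hx
    · rw [ContinuousLinearMap.smul_apply]; exact hall x hx
  refine ⟨c, ?_, hPQ⟩
  obtain ⟨y, hy⟩ : ∃ y, ⟪Q y, y⟫_ℂ ≠ 0 := by
    by_contra hcon
    push Not at hcon
    have h3 := (inner_map_self_eq_zero (Q : H →ₗ[ℂ] H)).1 hcon
    apply hQ0
    ext y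
    exact congrArg (fun f : H →ₗ[ℂ] H => f y) h3
  have hy' : ⟪y, Q y⟫_ℂ ≠ 0 := by rw [← hQs]; exact hy
  have h1 := h y
  rw [hPQ, ContinuousLinearMap.smul_apply, inner_smul_right, norm_mul] at h1
  have h2 : ‖⟪y, Q y⟫_ℂ‖ ≠ 0 := norm_ne_zero_iff.2 hy'
  have h3 : ‖c‖ * ‖⟪y, Q y⟫_ℂ‖ = 1 * ‖⟪y, Q y⟫_ℂ‖ := by rw [one_mul]; exact h1
  exact mul_right_cancel₀ h2 h3

/-- left slot equivalence with a selfadjoint operator -/
theorem left_selfAdjoint (B Z : H →L[ℂ] H) (hB : IsSelfAdjoint B)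
    (h : ∀ x y : H, SK (ro x y) Z = SK (ro x y) B) : ∃ c : ℂ, ‖c‖ = 1 ∧ Z = c • B := by

  classical
  have hadj : ∀ (T : H →L[ℂ] H) (u v : H), ⟪u, (star T) v⟫_ℂ = ⟪T u, v⟫_ℂ := by
    intro T u v
    rw [ContinuousLinearMap.star_eq_adjoint]
    exact ContinuousLinearMap.adjoint_inner_right T u v
  have hBs : ∀ u v : H, ⟪B u, v⟫_ℂ = ⟪u, B v⟫_ℂ := by
    intro u v
    have := hadj B u v
    rw [hB.star_eq] at this
    exact this.symm
  -- test 1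
  have hz : ∀ x y : H, SK (ro x y) B = 0 →
      ⟪y, Z x⟫_ℂ = ⟪x, Z y⟫_ℂ ∧ ⟪x, x⟫_ℂ * ⟪y, Z (Z y)⟫_ℂ = ⟪y, Z x⟫_ℂ * ⟪x, Z y⟫_ℂ := by
    intro x y h0
    rw [← h x y, SK_ro_left, R2_eq_zero_iff] at h0
    exact ⟨sub_eq_zero.1 h0.1, sub_eq_zero.1 h0.2⟩
  have ht1 : ∀ y : H, ⟪y, Z (B y)⟫_ℂ = ⟪B y, Z y⟫_ℂ ∧
      ⟪B y, B y⟫_ℂ * ⟪y, Z (Z y)⟫_ℂ = ⟪y, Z (B y)⟫_ℂ * ⟪B y, Z y⟫_ℂ := by
    intro y
    apply hz (B y) y
    rw [SK_ro_left, R2_eq_zero_iff]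
    rw [hBs y (B y)]
    constructor <;> ring
  have hcomm : Z * B = B * Z := by
    have h1 : ∀ y : H, ⟪(Z * B - B * Z) y, y⟫_ℂ = 0 := by
      intro y
      apply inner_eq_zero_symm.1
      have h2 := (ht1 y).1
      rw [hBs] at h2
      simp only [ContinuousLinearMap.sub_apply, ContinuousLinearMap.mul_apply, inner_sub_right, h2,
        sub_self]
    have h3 := (inner_map_self_eq_zero ((Z * B - B * Z : H →L[ℂ] H) : H →ₗ[ℂ] H)).1 h1
    apply sub_eq_zero.1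
    ext y
    exact congrArg (fun f : H →ₗ[ℂ] H => f y) h3
  have hcomm' : ∀ y, Z (B y) = B (Z y) := fun y => congrArg (fun f : H →L[ℂ] H => f y) hcomm
  -- test 2
  have hnorm : ∀ y : H, ‖⟪y, (B * Z) y⟫_ℂ‖ = ‖⟪y, (B * B) y⟫_ℂ‖ := by
    intro y
    have h1 := h (Complex.I • B y) y
    rw [SK_ro_left, SK_ro_left] at h1
    have e1 : ⟪y, Z (Complex.I • B y)⟫_ℂ = Complex.I * ⟪y, B (Z y)⟫_ℂ := by
      rw [map_smul, inner_smul_right, hcomm']
    have e2 : ⟪Complex.I • B y, Z y⟫_ℂ = - Complex.I * ⟪y, B (Z y)⟫_ℂ := by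
      rw [inner_smul_left, Complex.conj_I, hBs]
    have e3 : ⟪y, B (Complex.I • B y)⟫_ℂ = Complex.I * ⟪y, B (B y)⟫_ℂ := by
      rw [map_smul, inner_smul_right]
    have e4 : ⟪Complex.I • B y, B y⟫_ℂ = - Complex.I * ⟪y, B (B y)⟫_ℂ := by
      rw [inner_smul_left, Complex.conj_I, hBs]
    have e5 : ⟪Complex.I • B y, Complex.I • B y⟫_ℂ = ⟪y, B (B y)⟫_ℂ := by
      rw [inner_smul_left, inner_smul_right, Complex.conj_I, hBs]
      ring_nf
      rw [Complex.I_sq]; ring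
    have e6 : ⟪y, B (B y)⟫_ℂ * ⟪y, Z (Z y)⟫_ℂ = ⟪y, B (Z y)⟫_ℂ * ⟪y, B (Z y)⟫_ℂ := by
      have := (ht1 y).2
      rw [hcomm', hBs, hBs] at this
      exact this
    rw [e1, e2, e3, e4, e5] at h1
    have hI : Complex.I * Complex.I = -1 := Complex.I_mul_I
    have d1 : ⟪y, B (B y)⟫_ℂ * ⟪y, Z (Z y)⟫_ℂ - Complex.I * ⟪y, B (Z y)⟫_ℂ * (-Complex.I * ⟪y, B (Z y)⟫_ℂ)
        = (2 * Complex.I * ⟪y, B (Z y)⟫_ℂ) * 0 := by
      rw [e6]
      linear_combination (⟪y, B (Z y)⟫_ℂ * ⟪y, B (Z y)⟫_ℂ) * hI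
    have d2 : ⟪y, B (B y)⟫_ℂ * ⟪y, B (B y)⟫_ℂ - Complex.I * ⟪y, B (B y)⟫_ℂ * (-Complex.I * ⟪y, B (B y)⟫_ℂ)
        = (2 * Complex.I * ⟪y, B (B y)⟫_ℂ) * 0 := by
      linear_combination (⟪y, B (B y)⟫_ℂ * ⟪y, B (B y)⟫_ℂ) * hI
    have d3 : Complex.I * ⟪y, B (Z y)⟫_ℂ - -Complex.I * ⟪y, B (Z y)⟫_ℂ
        = (2 * Complex.I * ⟪y, B (Z y)⟫_ℂ) + 0 := by ring
    have d4 : Complex.I * ⟪y, B (B y)⟫_ℂ - -Complex.I * ⟪y, B (B y)⟫_ℂ
        = (2 * Complex.I * ⟪y, B (B y)⟫_ℂ) + 0 := by ring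
    rw [d1, d2, d3, d4, R2_eq, R2_eq, norm_zero, max_eq_left (norm_nonneg _),
      max_eq_left (norm_nonneg _), norm_mul, norm_mul, norm_mul, norm_mul] at h1
    have h2 : ‖(2:ℂ)‖ * ‖Complex.I‖ ≠ 0 := by
      rw [Complex.norm_I]; norm_num
    have h3 := mul_left_cancel₀ h2 h1
    simpa only [ContinuousLinearMap.mul_apply] using h3
  have hBB : IsSelfAdjoint (B * B) := by
    rw [IsSelfAdjoint, star_mul, hB.star_eq]
  obtain ⟨c, hc, hcBB⟩ := prop_of_sq (B * Z) (B * B) hBB hnorm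
  -- kernel
  have hker : ∀ y, B y = 0 → Z y = 0 := by
    intro y hy
    have h0 : ∀ x, SK (ro x y) B = 0 := by
      intro x
      rw [SK_ro_left, R2_eq_zero_iff, ← hBs y x, hy, map_zero]
      simp
    have h1 : ∀ x, ⟪x, Z y⟫_ℂ = 0 := by
      intro x
      have e1 := (hz x y (h0 x)).1
      have e2 := (hz (Complex.I • x) y (h0 _)).1
      rw [map_smul, inner_smul_right, inner_smul_left, Complex.conj_I, e1] at e2
      have e3 : (2 * Complex.I) * ⟪x, Z y⟫_ℂ = 0 := by linear_combination e2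
      rcases mul_eq_zero.1 e3 with h | h
      · simp at h
      · exact h
    exact inner_self_eq_zero.1 (h1 (Z y))
  refine ⟨c, hc, ?_⟩
  set W : H →L[ℂ] H := Z - c • B with hW
  have hWB : W * B = 0 := by
    rw [hW, sub_mul, smul_mul_assoc, hcomm, hcBB, sub_self]
  have hBW : B * star W = 0 := by
    have := congrArg star hWB
    rwa [star_mul, hB.star_eq, star_zero] at this
  have hWker : ∀ y, B y = 0 → W y = 0 := by
    intro y hy
    rw [hW, ContinuousLinearMap.sub_apply, ContinuousLinearMap.smul_apply, hy, hker y hy, smul_zero,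
      sub_zero]
  have hWs : star W = 0 := by
    ext u
    have h1 : B ((star W) u) = 0 := congrArg (fun f : H →L[ℂ] H => f u) hBW
    have h2 := hWker _ h1
    have h3 : ⟪(star W) u, (star W) u⟫_ℂ = 0 := by
      rw [hadj, h2, inner_zero_left]
    rw [ContinuousLinearMap.zero_apply]
    exact inner_self_eq_zero.1 h3
  have hW0 : W = 0 := by
    have := congrArg star hWs
    rwa [star_star, star_zero] at this
  exact sub_eq_zero.1 hW0

theorem skew_sa [Nontrivial H] (φ : (H →L[ℂ] H) → (K →L[ℂ] K)) (hs : Function.Surjective φ)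
    (h : ∀ T S, SK (φ T) (φ S) = SK T S) (A : H →L[ℂ] H) (hA : IsSelfAdjoint A) :
    IsSelfAdjoint (φ A) ∧ ‖φ A‖ = ‖A‖ ∧
      ∀ c : ℂ, ∃ c' : ℂ, φ (c • A) = c' • φ A ∧ ‖c'‖ = ‖c‖ ∧ |c'.im| = |c.im| := by

  classical
  obtain ⟨hK, hsr, hnorm, hzero, hscal⟩ := skew_basic φ hs h
  have hsa : IsSelfAdjoint (φ A) := by
    have h1 := hnorm A
    rw [hA.star_eq, sub_self, norm_zero, norm_eq_zero, sub_eq_zero] at h1
    exact h1.symm
  have hn : ‖φ A‖ = ‖A‖ := by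
    rw [← sr_normal (T := φ A) (by rw [hsa.star_eq]), ← sr_normal (T := A) (by rw [hA.star_eq]), hsr]
  refine ⟨hsa, hn, ?_⟩
  intro c
  have hφ0 : φ 0 = 0 := (hzero 0).2 rfl
  by_cases hA0 : A = 0
  · refine ⟨c, ?_, rfl, rfl⟩
    rw [hA0, smul_zero, hφ0, smul_zero]
  by_cases hc0 : c = 0
  · refine ⟨0, ?_, ?_, ?_⟩
    · rw [hc0, zero_smul, hφ0, zero_smul]
    · rw [hc0]
    · rw [hc0]
  have hBsa : IsSelfAdjoint ((‖c‖ : ℂ) • φ A) := by
    rw [IsSelfAdjoint, star_smul, hsa.star_eq]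
    congr 1
    exact Complex.conj_ofReal _
  obtain ⟨c1, hc1, hc1e⟩ := left_selfAdjoint ((‖c‖ : ℂ) • φ A) (φ (c • A)) hBsa (by
    intro x y
    obtain ⟨T, hT⟩ := hs (ro x y)
    rw [← hT, h, SK_smul, SK_smul, h]
    simp)
  have hform : φ (c • A) = (c1 * (‖c‖ : ℂ)) • φ A := by rw [hc1e, smul_smul]
  refine ⟨c1 * (‖c‖ : ℂ), hform, ?_, ?_⟩
  · rw [norm_mul, hc1, one_mul, Complex.norm_real, norm_norm]
  · have h1 := hnorm (c • A)
    rw [hform, star_smul, star_smul, hsa.star_eq, hA.star_eq, ← sub_smul, ← sub_smul, norm_smul,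
      norm_smul, hn] at h1
    have h2 := mul_right_cancel₀ (norm_ne_zero_iff.2 hA0) h1
    have h3 : ∀ z : ℂ, ‖z - star z‖ = 2 * |z.im| := by
      intro z
      have : z - star z = ((2 * z.im : ℝ) : ℂ) * Complex.I := by
        apply Complex.ext <;> simp
        ring
      rw [this, norm_mul, Complex.norm_I, mul_one, Complex.norm_real, Real.norm_eq_abs, abs_mul]
      simp
    rw [h3, h3] at h2
    linarith

end e1


end j6097

-- part 6141
section j6141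
section srbasic
variable {X : Type*} [NormedAddCommGroup X] [NormedSpace ℂ X]

theorem sr_nonneg_j6141 (T : X →L[ℂ] X) : 0 ≤ sr T := ENNReal.toReal_nonneg

variable [CompleteSpace X]

end srbasic

section sk
variable {H : Type*} [NormedAddCommGroup H] [InnerProductSpace ℂ H] [CompleteSpace H]


end sk

section RPs
variable {E : Type*} [AddCommGroup E] [Module ℂ E]

end RPs

section forms
variable {H : Type*} [NormedAddCommGroup H] [InnerProductSpace ℂ H]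


end forms

section e1
variable {H K : Type*} [NormedAddCommGroup H] [InnerProductSpace ℂ H] [CompleteSpace H]
  [NormedAddCommGroup K] [InnerProductSpace ℂ K] [CompleteSpace K]


theorem m5_sa_ro_j6141 (x : H) : IsSelfAdjoint (ro x x) := star_ro x x

theorem m5_inner_sa_j6141 {A : H →L[ℂ] H} (hA : IsSelfAdjoint A) (x y : H) : ⟪A x, y⟫_ℂ = ⟪x, A y⟫_ℂ := by
  have h1 : star A = A := hA
  have h2 : ContinuousLinearMap.adjoint A = A := h1
  calc ⟪A x, y⟫_ℂ = ⟪ContinuousLinearMap.adjoint A x, y⟫_ℂ := by rw [h2]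
    _ = ⟪x, A y⟫_ℂ := ContinuousLinearMap.adjoint_inner_left A y x

theorem m5_inner_real_j6141 {A : H →L[ℂ] H} (hA : IsSelfAdjoint A) (x : H) :
    ⟪x, A x⟫_ℂ = (((⟪x, A x⟫_ℂ).re : ℝ) : ℂ) := by
  have h1 : (starRingEnd ℂ) ⟪x, A x⟫_ℂ = ⟪x, A x⟫_ℂ := by
    rw [inner_conj_symm, m5_inner_sa_j6141 hA]
  exact (Complex.conj_eq_iff_re.1 h1).symm

theorem m5_norm_ro_j6141 (x : H) (hx : ‖x‖ = 1) : ‖ro x x‖ = 1 := by
  unfold ro rk
  rw [ContinuousLinearMap.norm_smulRight_apply, innerSL_apply_norm, hx, one_mul]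

/-- `‖P A + A P‖` for a rank one projection `P` -/
theorem norm_anticomm' (x : H) (hx : ‖x‖ = 1) (A : H →L[ℂ] H) (hA : IsSelfAdjoint A) :
    ‖ro x x * A + A * ro x x‖ = ‖⟪x, A x⟫_ℂ‖ + ‖A x‖ := by
  have hA' : star A = A := hA
  have e1 : ro x x * A + A * ro x x = ro x (A x) + ro (A x) x := by
    rw [ro_mul, mul_ro, hA']
  have hsa : star (ro x (A x) + ro (A x) x) = ro x (A x) + ro (A x) x := by
    rw [star_add, star_ro, star_ro, add_comm]
  have hn : (ro x (A x) + ro (A x) x) * star (ro x (A x) + ro (A x) x) =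
      star (ro x (A x) + ro (A x) x) * (ro x (A x) + ro (A x) x) := by rw [hsa]
  rw [e1, ← sr_normal hn]
  unfold ro
  rw [sr_rank_two]
  simp only [innerSL_apply_apply]
  rw [m5_inner_sa_j6141 hA x x, m5_inner_real_j6141 hA x]
  set r : ℝ := (⟪x, A x⟫_ℂ).re with hr
  have e2 : ⟪A x, A x⟫_ℂ = (((‖A x‖ : ℝ) : ℂ)) ^ 2 := inner_self_eq_norm_sq_to_K (A x)
  have e3 : ⟪x, x⟫_ℂ = 1 := by
    have : ⟪x, x⟫_ℂ = (((‖x‖ : ℝ) : ℂ)) ^ 2 := inner_self_eq_norm_sq_to_K x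
    rw [this, hx]; norm_num
  rw [e2, e3]
  have e4 : (r : ℂ) + (r : ℂ) = ((r + ‖A x‖ : ℝ) : ℂ) + ((r - ‖A x‖ : ℝ) : ℂ) := by
    push_cast; ring
  have e5 : (r : ℂ) * (r : ℂ) - ((‖A x‖ : ℝ) : ℂ) ^ 2 * 1 =
      ((r + ‖A x‖ : ℝ) : ℂ) * ((r - ‖A x‖ : ℝ) : ℂ) := by
    push_cast; ring
  rw [e4, e5, R2_eq, Complex.norm_real, Complex.norm_real, Complex.norm_real, Real.norm_eq_abs,
    Real.norm_eq_abs, Real.norm_eq_abs]
  have hn0 : 0 ≤ ‖A x‖ := norm_nonneg _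
  rcases le_total 0 r with h | h
  · rw [abs_of_nonneg h, abs_of_nonneg (by linarith : 0 ≤ r + ‖A x‖)]
    apply max_eq_left
    rw [abs_le]
    constructor <;> linarith
  · rw [abs_of_nonpos h, abs_of_nonpos (by linarith : r - ‖A x‖ ≤ 0)]
    have : max |r + ‖A x‖| (-(r - ‖A x‖)) = -(r - ‖A x‖) := by
      apply max_eq_right
      rw [abs_le]
      constructor <;> linarith
    rw [this]; ring

theorem norm_anticomm (x y : H) (hx : ‖x‖ = 1) (hy : ‖y‖ = 1) :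
    ‖ro x x * ro y y + ro y y * ro x x‖ = ‖⟪x, y⟫_ℂ‖ ^ 2 + ‖⟪x, y⟫_ℂ‖ := by
  rw [norm_anticomm' x hx (ro y y) (m5_sa_ro_j6141 y), ro_apply, inner_smul_right, norm_mul, norm_smul,
    hy, mul_one, norm_inner_symm y x]
  ring

/-- `‖P A - A P‖` for a rank one projection `P` -/
theorem norm_comm' (x : H) (hx : ‖x‖ = 1) (A : H →L[ℂ] H) (hA : IsSelfAdjoint A) :
    ‖ro x x * A - A * ro x x‖ ^ 2 = ‖A x‖ ^ 2 - ‖⟪x, A x⟫_ℂ‖ ^ 2 := by
  have hA' : star A = A := hA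
  have e1 : ro x x * A - A * ro x x = ro x (A x) - ro (A x) x := by
    rw [ro_mul, mul_ro, hA']
  have hsa : star (ro x (A x) - ro (A x) x) = -(ro x (A x) - ro (A x) x) := by
    rw [star_sub, star_ro, star_ro, neg_sub]
  have hn : (ro x (A x) - ro (A x) x) * star (ro x (A x) - ro (A x) x) =
      star (ro x (A x) - ro (A x) x) * (ro x (A x) - ro (A x) x) := by
    rw [hsa, mul_neg, neg_mul]
  have e0 : ro x (A x) - ro (A x) x = rk x (innerSL ℂ (A x)) + rk (-(A x)) (innerSL ℂ x) := by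
    ext v
    simp [ro, rk, sub_eq_add_neg]
  rw [e1, ← sr_normal hn, e0, sr_rank_two]
  simp only [innerSL_apply_apply]
  rw [inner_neg_right, inner_neg_right, m5_inner_sa_j6141 hA x x, m5_inner_real_j6141 hA x]
  set r : ℝ := (⟪x, A x⟫_ℂ).re with hr
  have e2 : ⟪A x, A x⟫_ℂ = (((‖A x‖ : ℝ) : ℂ)) ^ 2 := inner_self_eq_norm_sq_to_K (A x)
  have e3 : ⟪x, x⟫_ℂ = 1 := by
    have : ⟪x, x⟫_ℂ = (((‖x‖ : ℝ) : ℂ)) ^ 2 := inner_self_eq_norm_sq_to_K x
    rw [this, hx]; norm_num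
  have hCS : |r| ≤ ‖A x‖ := by
    have h1 : ‖⟪x, A x⟫_ℂ‖ ≤ ‖x‖ * ‖A x‖ := norm_inner_le_norm x (A x)
    rw [hx, one_mul, m5_inner_real_j6141 hA x, Complex.norm_real, Real.norm_eq_abs] at h1
    exact h1
  have hge : 0 ≤ ‖A x‖ ^ 2 - r ^ 2 := by
    have := abs_nonneg r
    nlinarith [sq_abs r]
  set s : ℝ := Real.sqrt (‖A x‖ ^ 2 - r ^ 2) with hs
  have hs2 : s ^ 2 = ‖A x‖ ^ 2 - r ^ 2 := Real.sq_sqrt hge
  have hs0 : 0 ≤ s := Real.sqrt_nonneg _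
  rw [e2, e3]
  have e4 : (r : ℂ) + -(r : ℂ) = (s : ℂ) * Complex.I + -((s : ℂ) * Complex.I) := by ring
  have e5 : (r : ℂ) * -(r : ℂ) - -((‖A x‖ : ℝ) : ℂ) ^ 2 * 1 =
      ((s : ℂ) * Complex.I) * (-((s : ℂ) * Complex.I)) := by
    have e6 : ((s : ℂ)) ^ 2 = ((‖A x‖ : ℝ) : ℂ) ^ 2 - (r : ℂ) ^ 2 := by
      rw [← Complex.ofReal_pow, hs2]; push_cast; ring
    have e7 : ((s : ℂ) * Complex.I) * (-((s : ℂ) * Complex.I)) = (s : ℂ) ^ 2 := by
      have : Complex.I ^ 2 = -1 := Complex.I_sq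
      calc ((s : ℂ) * Complex.I) * (-((s : ℂ) * Complex.I)) = -(s : ℂ) ^ 2 * Complex.I ^ 2 := by ring
        _ = _ := by rw [this]; ring
    rw [e7, e6]; ring
  rw [e4, e5, R2_eq, norm_neg, max_self, norm_mul, Complex.norm_I, mul_one, Complex.norm_real,
    Complex.norm_real, Real.norm_eq_abs, Real.norm_eq_abs, sq_abs, sq_abs, hs2]

theorem skew_anticomm [Nontrivial H] (φ : (H →L[ℂ] H) → (K →L[ℂ] K))
    (hs : Function.Surjective φ)
    (h : ∀ T S, SK (φ T) (φ S) = SK T S) (A B : H →L[ℂ] H) (hA : IsSelfAdjoint A)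
    (hB : IsSelfAdjoint B) : ‖φ A * φ B + φ B * φ A‖ = ‖A * B + B * A‖ ∧
      ‖φ A * φ B - φ B * φ A‖ = ‖A * B - B * A‖ := by
  obtain ⟨hφA, -, hc⟩ := skew_sa φ hs h A hA
  obtain ⟨hφB, -, -⟩ := skew_sa φ hs h B hB
  have hA' : star A = A := hA
  have hφA' : star (φ A) = φ A := hφA
  constructor
  · obtain ⟨c', h1, h2, h3⟩ := hc Complex.I
    have e1 := h (Complex.I • A) B
    rw [SK_selfAdjoint _ _ hB, SK_selfAdjoint _ _ hφB, h1, star_smul, star_smul, hA', hφA'] at e1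
    rw [Complex.norm_I] at h2
    rw [Complex.I_im, abs_one] at h3
    have hre : c'.re = 0 := by
      have h4 : Complex.normSq c' = 1 := by rw [Complex.normSq_eq_norm_sq, h2]; norm_num
      rw [Complex.normSq_apply] at h4
      have h5 : c'.im * c'.im = 1 := by
        have := sq_abs c'.im
        rw [h3] at this
        nlinarith
      nlinarith
    have hstar : star c' = -c' := by
      apply Complex.ext
      · rw [Complex.star_def, Complex.conj_re, Complex.neg_re, hre, neg_zero]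
      · rw [Complex.star_def, Complex.conj_im, Complex.neg_im]
    have hI : star Complex.I = -Complex.I := Complex.conj_I
    rw [hstar, hI] at e1
    have e2 : c' • φ A * φ B - φ B * (-c') • φ A = c' • (φ A * φ B + φ B * φ A) := by
      rw [smul_mul_assoc, mul_smul_comm, neg_smul, sub_neg_eq_add, smul_add]
    have e3 : Complex.I • A * B - B * (-Complex.I) • A = Complex.I • (A * B + B * A) := by
      rw [smul_mul_assoc, mul_smul_comm, neg_smul, sub_neg_eq_add, smul_add]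
    rw [e2, e3, norm_smul, norm_smul, h2, Complex.norm_I, one_mul, one_mul] at e1
    exact e1
  · have e1 := h A B
    rw [SK_selfAdjoint _ _ hB, SK_selfAdjoint _ _ hφB, hA', hφA'] at e1
    exact e1

theorem m5_zero_iff_j6141 {X Y : H →L[ℂ] H} (hX : IsSelfAdjoint X) (hY : IsSelfAdjoint Y) :
    X * Y = 0 ↔ ‖X * Y + Y * X‖ = 0 ∧ ‖X * Y - Y * X‖ = 0 := by
  have hX' : star X = X := hX
  have hY' : star Y = Y := hY
  constructor
  · intro h0
    have h1 : Y * X = 0 := by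
      have := congrArg star h0
      rwa [star_mul, star_zero, hX', hY'] at this
    rw [h0, h1]; simp
  · rintro ⟨h1, h2⟩
    rw [norm_eq_zero] at h1 h2
    have h3 : (2 : ℂ) • (X * Y) = 0 := by
      calc (2 : ℂ) • (X * Y) = (X * Y + Y * X) + (X * Y - Y * X) := by rw [two_smul]; abel
        _ = 0 := by rw [h1, h2, add_zero]
    exact (smul_eq_zero.1 h3).resolve_left two_ne_zero

theorem skew_zero_prod [Nontrivial H] (φ : (H →L[ℂ] H) → (K →L[ℂ] K))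
    (hs : Function.Surjective φ)
    (h : ∀ T S, SK (φ T) (φ S) = SK T S) (A B : H →L[ℂ] H) (hA : IsSelfAdjoint A)
    (hB : IsSelfAdjoint B) : φ A * φ B = 0 ↔ A * B = 0 := by
  obtain ⟨hφA, -, -⟩ := skew_sa φ hs h A hA
  obtain ⟨hφB, -, -⟩ := skew_sa φ hs h B hB
  obtain ⟨h1, h2⟩ := skew_anticomm φ hs h A B hA hB
  rw [m5_zero_iff_j6141 hφA hφB, m5_zero_iff_j6141 hA hB, h1, h2]

theorem m5_unit_j6141 {B : H →L[ℂ] H} (hB : B ≠ 0) : ∃ u : H, ‖u‖ = 1 ∧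
    ∀ A : H →L[ℂ] H, A * B = 0 → A * ro u u = 0 := by
  have hex : ∃ v, B v ≠ 0 := by
    by_contra hcon
    push Not at hcon
    exact hB (ContinuousLinearMap.ext hcon)
  obtain ⟨v, hv⟩ := hex
  have hne : ‖B v‖ ≠ 0 := norm_ne_zero_iff.2 hv
  refine ⟨((‖B v‖⁻¹ : ℝ) : ℂ) • B v, ?_, ?_⟩
  · rw [norm_smul, Complex.norm_real, norm_inv, norm_norm, inv_mul_cancel₀ hne]
  · intro A hA
    rw [mul_ro, map_smul]
    have h1 : A (B v) = (A * B) v := rfl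
    rw [h1, hA]
    ext w
    simp [ro_apply]

theorem m5_ro_zero_j6141 {w z : H} (hw : ro w z = 0) : w = 0 ∨ z = 0 := by
  have h1 := congrArg (fun T : H →L[ℂ] H => T z) hw
  simp only [ro_apply, ContinuousLinearMap.zero_apply] at h1
  rcases smul_eq_zero.1 h1 with h | h
  · right; exact inner_self_eq_zero.1 h
  · left; exact h

/-- first part of `skew_proj` -/
theorem m5_proj1_j6141 [Nontrivial H] (φ : (H →L[ℂ] H) → (K →L[ℂ] K))
    (hs : Function.Surjective φ)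
    (h : ∀ T S, SK (φ T) (φ S) = SK T S) (x : H) (hx : ‖x‖ = 1) :
    ∃ u : K, ‖u‖ = 1 ∧ (φ (ro x x) = ro u u ∨ φ (ro x x) = -ro u u) := by
  obtain ⟨-, -, hb3, hb4, -⟩ := skew_basic φ hs h
  have hx0 : x ≠ 0 := by rintro rfl; simp at hx
  have hP : IsSelfAdjoint (ro x x) := m5_sa_ro_j6141 x
  obtain ⟨hBs, hBn, hBc⟩ := skew_sa φ hs h (ro x x) hP
  rw [m5_norm_ro_j6141 x hx] at hBn
  have hB0 : φ (ro x x) ≠ 0 := by
    intro h0
    rw [h0, norm_zero] at hBn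
    exact zero_ne_one hBn
  obtain ⟨u, hu, hu2⟩ := m5_unit_j6141 hB0
  obtain ⟨C, hC⟩ := hs (ro u u)
  have hCs : IsSelfAdjoint C := by
    have h1 := hb3 C
    have h2 : star (ro u u) = ro u u := star_ro u u
    rw [hC, h2, sub_self, norm_zero] at h1
    exact (sub_eq_zero.1 (norm_eq_zero.1 h1.symm)).symm
  have hCs' : star C = C := hCs
  have hkey : ∀ w : H, ⟪x, w⟫_ℂ = 0 → C w = 0 := by
    intro w hw
    by_cases hw0 : w = 0
    · rw [hw0, map_zero]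
    have h1 : ro w w * ro x x = 0 := by
      rw [ro_mul, star_ro, ro_apply, hw, zero_smul]
      ext v
      simp [ro_apply]
    have h2 : φ (ro w w) * φ (ro x x) = 0 :=
      (skew_zero_prod φ hs h _ _ (m5_sa_ro_j6141 w) hP).2 h1
    have h3 : φ (ro w w) * φ C = 0 := by rw [hC]; exact hu2 _ h2
    have h4 : ro w w * C = 0 := (skew_zero_prod φ hs h _ _ (m5_sa_ro_j6141 w) hCs).1 h3
    rw [ro_mul, hCs'] at h4
    exact (m5_ro_zero_j6141 h4).resolve_left hw0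
  have hxx : ⟪x, x⟫_ℂ = 1 := by
    have : ⟪x, x⟫_ℂ = (((‖x‖ : ℝ) : ℂ)) ^ 2 := inner_self_eq_norm_sq_to_K x
    rw [this, hx]; norm_num
  have hC1 : C = ro (C x) x := by
    ext v
    rw [ro_apply]
    have h1 := hkey (v - ⟪x, v⟫_ℂ • x) (by
      rw [inner_sub_right, inner_smul_right, hxx, mul_one, sub_self])
    rw [map_sub, map_smul, sub_eq_zero] at h1
    exact h1
  have hC2 : C = ro x (C x) := by
    calc C = star C := hCs'.symm
      _ = star (ro (C x) x) := by rw [← hC1]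
      _ = ro x (C x) := star_ro _ _
  have hC3 : C = ⟪C x, x⟫_ℂ • ro x x := by
    have h1 : C x = ⟪C x, x⟫_ℂ • x := by
      calc C x = ro x (C x) x := by rw [← hC2]
        _ = _ := ro_apply _ _ _
    ext v
    have h2 : C v = ro (C x) x v := by rw [← hC1]
    rw [h2, ro_apply, ContinuousLinearMap.smul_apply, ro_apply, smul_comm, ← h1]
  obtain ⟨c', hc1, hc2, -⟩ := hBc ⟪C x, x⟫_ℂ
  rw [← hC3, hC] at hc1
  have hcn : ‖c'‖ = 1 := by
    have := congrArg norm hc1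
    rw [m5_norm_ro_j6141 u hu, norm_smul, hBn, mul_one] at this
    exact this.symm
  have hcr : star c' = c' := by
    have h1 := congrArg star hc1
    have hBs' : star (φ (ro x x)) = φ (ro x x) := hBs
    rw [star_ro, star_smul, hBs', hc1] at h1
    have h2 : (star c' - c') • φ (ro x x) = 0 := by rw [sub_smul, ← h1, sub_self]
    exact sub_eq_zero.1 ((smul_eq_zero.1 h2).resolve_right hB0)
  have hcre : c' = (c'.re : ℂ) := (Complex.conj_eq_iff_re.1 hcr).symm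
  have hcabs : |c'.re| = 1 := by
    rw [hcre, Complex.norm_real, Real.norm_eq_abs] at hcn
    exact hcn
  refine ⟨u, hu, ?_⟩
  rcases (abs_eq (zero_le_one)).1 hcabs with h1 | h1
  · left
    rw [hc1, hcre, h1, Complex.ofReal_one, one_smul]
  · right
    rw [hc1, hcre, h1]
    simp

theorem skew_proj [Nontrivial H] (φ : (H →L[ℂ] H) → (K →L[ℂ] K))
    (hs : Function.Surjective φ)
    (h : ∀ T S, SK (φ T) (φ S) = SK T S) :
    (∀ x : H, ‖x‖ = 1 → ∃ u : K, ‖u‖ = 1 ∧ (φ (ro x x) = ro u u ∨ φ (ro x x) = -ro u u)) ∧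
    (∀ u : K, ‖u‖ = 1 → ∃ x : H, ‖x‖ = 1 ∧ (φ (ro x x) = ro u u ∨ φ (ro x x) = -ro u u)) := by
  refine ⟨fun x hx => m5_proj1_j6141 φ hs h x hx, ?_⟩
  intro u hu
  obtain ⟨-, -, hb3, hb4, -⟩ := skew_basic φ hs h
  have hsa : ∀ A : H →L[ℂ] H, IsSelfAdjoint (φ A) → IsSelfAdjoint A := by
    intro A hA
    have h1 := hb3 A
    have h2 : star (φ A) = φ A := hA
    rw [h2, sub_self, norm_zero] at h1
    exact (sub_eq_zero.1 (norm_eq_zero.1 h1.symm)).symm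
  obtain ⟨C, hC⟩ := hs (ro u u)
  have hCs : IsSelfAdjoint C := hsa C (by rw [hC]; exact m5_sa_ro_j6141 u)
  have hC0 : C ≠ 0 := by
    intro h0
    have h1 := (hb4 C).2 h0
    rw [hC] at h1
    have := m5_norm_ro_j6141 u hu
    rw [h1, norm_zero] at this
    exact zero_ne_one this
  obtain ⟨x, hx, hx2⟩ := m5_unit_j6141 hC0
  obtain ⟨u', hu', hu2⟩ := m5_proj1_j6141 φ hs h x hx
  have hkey : ∀ w : K, ⟪u, w⟫_ℂ = 0 → ⟪u', w⟫_ℂ = 0 := by
    intro w hw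
    obtain ⟨A, hA⟩ := hs (ro w w)
    have hAs : IsSelfAdjoint A := hsa A (by rw [hA]; exact m5_sa_ro_j6141 w)
    have h1 : φ A * φ C = 0 := by
      rw [hA, hC, ro_mul, star_ro, ro_apply, hw, zero_smul]
      ext v
      simp [ro_apply]
    have h2 : A * C = 0 := (skew_zero_prod φ hs h _ _ hAs hCs).1 h1
    have h3 : A * ro x x = 0 := hx2 A h2
    have h4 : φ A * φ (ro x x) = 0 := (skew_zero_prod φ hs h _ _ hAs (m5_sa_ro_j6141 x)).2 h3
    have h5 : ro w w * ro u' u' = 0 := by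
      rcases hu2 with h6 | h6
      · rw [hA, h6] at h4; exact h4
      · rw [hA, h6, mul_neg, neg_eq_zero] at h4; exact h4
    rw [ro_mul, star_ro, ro_apply] at h5
    rcases m5_ro_zero_j6141 h5 with h6 | h6
    · rw [h6, inner_zero_right]
    · rcases smul_eq_zero.1 h6 with h7 | h7
      · exact h7
      · rw [h7, inner_zero_left]
  have huu : ⟪u, u⟫_ℂ = 1 := by
    have : ⟪u, u⟫_ℂ = (((‖u‖ : ℝ) : ℂ)) ^ 2 := inner_self_eq_norm_sq_to_K u
    rw [this, hu]; norm_num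
  have hw1 : ⟪u, u' - ⟪u, u'⟫_ℂ • u⟫_ℂ = 0 := by
    rw [inner_sub_right, inner_smul_right, huu, mul_one, sub_self]
  have hw2 := hkey _ hw1
  have hw3 : u' - ⟪u, u'⟫_ℂ • u = 0 := by
    rw [← inner_self_eq_zero (𝕜 := ℂ)]
    rw [inner_sub_left, inner_smul_left, hw2, hw1, mul_zero, sub_self]
  have hw4 : u' = ⟪u, u'⟫_ℂ • u := sub_eq_zero.1 hw3
  have hmu : ‖⟪u, u'⟫_ℂ‖ = 1 := by
    have := congrArg norm hw4
    rw [norm_smul, hu', hu, mul_one] at this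
    exact this.symm
  have hro : ro u' u' = ro u u := by
    ext v
    rw [ro_apply, ro_apply]
    conv_lhs => rw [hw4]
    rw [inner_smul_left, smul_smul]
    congr 1
    have h1 : (starRingEnd ℂ) ⟪u, u'⟫_ℂ * ⟪u, u'⟫_ℂ = 1 := by
      rw [mul_comm, Complex.mul_conj, Complex.normSq_eq_norm_sq, hmu]; norm_num
    calc (starRingEnd ℂ) ⟪u, u'⟫_ℂ * ⟪u, v⟫_ℂ * ⟪u, u'⟫_ℂ =
        ((starRingEnd ℂ) ⟪u, u'⟫_ℂ * ⟪u, u'⟫_ℂ) * ⟪u, v⟫_ℂ := by ring
      _ = ⟪u, v⟫_ℂ := by rw [h1, one_mul]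
  exact ⟨x, hx, by rw [← hro]; exact hu2⟩

end e1


end j6141

-- part 6142
section j6142
section srbasic
variable {X : Type*} [NormedAddCommGroup X] [NormedSpace ℂ X]

theorem sr_nonneg_j6142 (T : X →L[ℂ] X) : 0 ≤ sr T := ENNReal.toReal_nonneg

variable [CompleteSpace X]

end srbasic

section sk
variable {H : Type*} [NormedAddCommGroup H] [InnerProductSpace ℂ H] [CompleteSpace H]


end sk

section RPs
variable {E : Type*} [AddCommGroup E] [Module ℂ E]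

end RPs

section forms
variable {H : Type*} [NormedAddCommGroup H] [InnerProductSpace ℂ H]


end forms

section e1
variable {H K : Type*} [NormedAddCommGroup H] [InnerProductSpace ℂ H] [CompleteSpace H]
  [NormedAddCommGroup K] [InnerProductSpace ℂ K] [CompleteSpace K]


theorem aux833_ro_smul_j6142 (c : ℂ) (hc : ‖c‖ = 1) (x : K) : ro (c • x) (c • x) = ro x x := by
  ext v
  rw [ro_apply, ro_apply, inner_smul_left, smul_smul]
  congr 1
  have h1 : (starRingEnd ℂ) c * c = 1 := by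
    rw [← Complex.normSq_eq_conj_mul_self, Complex.normSq_eq_norm_sq, hc]
    norm_num
  calc (starRingEnd ℂ) c * ⟪x, v⟫_ℂ * c = ((starRingEnd ℂ) c * c) * ⟪x, v⟫_ℂ := by ring
    _ = ⟪x, v⟫_ℂ := by rw [h1, one_mul]

theorem aux833_ro_self_j6142 (x : H) : IsSelfAdjoint (ro x x) := star_ro x x

theorem aux833_inj_j6142 {a b : ℝ} (ha : 0 ≤ a) (hb : 0 ≤ b) (h : a ^ 2 + a = b ^ 2 + b) : a = b := by
  have h1 : (a - b) * (a + b + 1) = 0 := by linear_combination h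
  rcases mul_eq_zero.1 h1 with h2 | h2
  · linarith
  · linarith

/-- equality of projections up to sign -/
theorem aux833_range_j6142 {u v : K} (hu : ‖u‖ = 1) (hv : ‖v‖ = 1) (T : K →L[ℂ] K)
    (h1 : T = ro u u ∨ T = -ro u u) (h2 : T = ro v v ∨ T = -ro v v) :
    ∃ c : ℂ, ‖c‖ = 1 ∧ u = c • v := by
  have huu : ⟪u, u⟫_ℂ = 1 := by
    rw [inner_self_eq_norm_sq_to_K, hu]; norm_num
  have h3 : T u = u ∨ T u = -u := by
    rcases h1 with h | h
    · left; rw [h, ro_apply, huu, one_smul]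
    · right; rw [h, _root_.neg_apply, ro_apply, huu, one_smul]
  have h4 : ∃ c : ℂ, T u = c • v := by
    rcases h2 with h | h
    · exact ⟨⟪v, u⟫_ℂ, by rw [h, ro_apply]⟩
    · exact ⟨-⟪v, u⟫_ℂ, by rw [h, _root_.neg_apply, ro_apply, neg_smul]⟩
  obtain ⟨c, hc⟩ := h4
  have h5 : ∃ c : ℂ, u = c • v := by
    rcases h3 with h | h
    · exact ⟨c, by rw [← hc, h]⟩
    · exact ⟨-c, by rw [neg_smul, ← hc, h, neg_neg]⟩
  obtain ⟨c, hc⟩ := h5
  refine ⟨c, ?_, hc⟩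
  have h6 := congrArg norm hc
  rw [norm_smul, hu, hv, mul_one] at h6
  exact h6.symm

theorem aux833_equiv_j6142 {σ σ' : ℂ →+* ℂ} [RingHomInvPair σ σ'] [RingHomInvPair σ' σ]
    (A : H →SL[σ] K) (hA : ∀ v, ‖A v‖ = ‖v‖) (hs : Function.Surjective A) :
    ∃ U : H ≃ₛₗᵢ[σ] K, ∀ v, U v = A v := by
  refine ⟨LinearIsometryEquiv.ofSurjective ⟨A.toLinearMap, hA⟩ hs, fun v => rfl⟩

theorem skew_unitary [Nontrivial H] (φ : (H →L[ℂ] H) → (K →L[ℂ] K))
    (hs : Function.Surjective φ)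
    (h : ∀ T S, SK (φ T) (φ S) = SK T S) :
    (∃ U : H ≃ₗᵢ[ℂ] K, ∀ x : H, ‖x‖ = 1 → φ (ro x x) = ro (U x) (U x) ∨
      φ (ro x x) = -ro (U x) (U x)) ∨
    (∃ U : H ≃ₛₗᵢ[starRingEnd ℂ] K, ∀ x : H, ‖x‖ = 1 → φ (ro x x) = ro (U x) (U x) ∨
      φ (ro x x) = -ro (U x) (U x)) := by
  classical
  obtain ⟨hp1, hp2⟩ := skew_proj φ hs h
  have hexu : ∃ u : H → K, ∀ x : H, ‖x‖ = 1 → ‖u x‖ = 1 ∧
      (φ (ro x x) = ro (u x) (u x) ∨ φ (ro x x) = -ro (u x) (u x)) := by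
    refine ⟨fun x => if hx : ‖x‖ = 1 then Classical.choose (hp1 x hx) else 0, ?_⟩
    intro x hx
    simp only [dif_pos hx]
    exact Classical.choose_spec (hp1 x hx)
  obtain ⟨u, hu⟩ := hexu
  have hinner : ∀ x y : H, ‖x‖ = 1 → ‖y‖ = 1 → ‖⟪u x, u y⟫_ℂ‖ = ‖⟪x, y⟫_ℂ‖ := by
    intro x y hx hy
    have h1 := (skew_anticomm φ hs h (ro x x) (ro y y) (aux833_ro_self_j6142 x) (aux833_ro_self_j6142 y)).1
    rw [norm_anticomm x y hx hy] at h1
    have h2 : ‖φ (ro x x) * φ (ro y y) + φ (ro y y) * φ (ro x x)‖ =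
        ‖ro (u x) (u x) * ro (u y) (u y) + ro (u y) (u y) * ro (u x) (u x)‖ := by
      rcases (hu x hx).2 with e1 | e1 <;> rcases (hu y hy).2 with e2 | e2
      · rw [e1, e2]
      · rw [e1, e2, mul_neg, neg_mul, ← neg_add, norm_neg]
      · rw [e1, e2, mul_neg, neg_mul, ← neg_add, norm_neg]
      · rw [e1, e2, neg_mul_neg, neg_mul_neg]
    rw [h2, norm_anticomm _ _ (hu x hx).1 (hu y hy).1] at h1
    exact aux833_inj_j6142 (norm_nonneg _) (norm_nonneg _) h1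
  obtain ⟨W, hW⟩ : ∃ W : H → K, ∀ v, W v = ((‖v‖ : ℝ) : ℂ) • u (((‖v‖⁻¹ : ℝ) : ℂ) • v) :=
    ⟨_, fun v => rfl⟩
  have hnormal : ∀ v : H, v ≠ 0 → ‖(((‖v‖⁻¹ : ℝ) : ℂ) • v)‖ = 1 := by
    intro v hv
    have : ‖v‖ ≠ 0 := norm_ne_zero_iff.2 hv
    rw [norm_smul, Complex.norm_real, norm_inv, norm_norm, inv_mul_cancel₀ this]
  have hW0 : W 0 = 0 := by rw [hW]; simp
  have hWn : ∀ v, ‖W v‖ = ‖v‖ := by
    intro v
    by_cases hv : v = 0
    · rw [hv, hW0, norm_zero, norm_zero]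
    · rw [hW, norm_smul, (hu _ (hnormal v hv)).1, mul_one, Complex.norm_real, norm_norm]
  have hW1 : ∀ x : H, ‖x‖ = 1 → W x = u x := by
    intro x hx
    rw [hW, hx]
    simp
  have hWi : ∀ y v : H, ‖y‖ = 1 → ‖⟪u y, W v⟫_ℂ‖ = ‖⟪y, v⟫_ℂ‖ := by
    intro y v hy
    by_cases hv : v = 0
    · rw [hv, hW0, inner_zero_right, inner_zero_right]
    · have h0 : ‖v‖ ≠ 0 := norm_ne_zero_iff.2 hv
      rw [hW, inner_smul_right, norm_mul, hinner y _ hy (hnormal v hv), inner_smul_right,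
        norm_mul, Complex.norm_real, Complex.norm_real, norm_norm, norm_inv, norm_norm,
        ← mul_assoc, mul_inv_cancel₀ h0, one_mul]
  -- unit vectors of K are multiples of values
  have hback : ∀ u0 : K, ‖u0‖ = 1 → ∃ y : H, ‖y‖ = 1 ∧ ∃ c : ℂ, ‖c‖ = 1 ∧ u y = c • u0 := by
    intro u0 hu0
    obtain ⟨y, hy, hy2⟩ := hp2 u0 hu0
    obtain ⟨c, hc, hc2⟩ := aux833_range_j6142 (hu y hy).1 hu0 (φ (ro y y)) (hu y hy).2 hy2
    exact ⟨y, hy, c, hc, hc2⟩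
  obtain ⟨x0, hx0⟩ : ∃ x0 : H, ‖x0‖ = 1 := exists_norm_eq H zero_le_one
  have hk0 : u x0 ≠ 0 := by
    intro h0
    have := (hu x0 hx0).1
    rw [h0, norm_zero] at this
    exact zero_ne_one this
  have hwig : ∀ g : K →L[ℂ] ℂ, g (u x0) ≠ 0 → ∃ f : H →L[ℂ] ℂ, ∀ v, ‖g (W v)‖ = ‖f v‖ := by
    intro g _
    obtain ⟨k, hk⟩ : ∃ k : K, ∀ w, g w = ⟪k, w⟫_ℂ := by
      refine ⟨(InnerProductSpace.toDual ℂ K).symm g, fun w => ?_⟩
      rw [InnerProductSpace.toDual_symm_apply]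
    by_cases hk1 : k = 0
    · refine ⟨0, fun v => ?_⟩
      rw [hk, hk1, inner_zero_left]
      simp
    · have h0 : ‖k‖ ≠ 0 := norm_ne_zero_iff.2 hk1
      obtain ⟨u0, hu0⟩ : ∃ u0 : K, u0 = ((‖k‖⁻¹ : ℝ) : ℂ) • k := ⟨_, rfl⟩
      have hu01 : ‖u0‖ = 1 := by
        rw [hu0, norm_smul, Complex.norm_real, norm_inv, norm_norm, inv_mul_cancel₀ h0]
      have hku : k = ((‖k‖ : ℝ) : ℂ) • u0 := by
        rw [hu0, smul_smul, ← Complex.ofReal_mul, mul_inv_cancel₀ h0, Complex.ofReal_one, one_smul]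
      obtain ⟨y, hy, c, hc, hyc⟩ := hback u0 hu01
      refine ⟨((‖k‖ : ℝ) : ℂ) • innerSL ℂ y, fun v => ?_⟩
      have h1 : ‖⟪u0, W v⟫_ℂ‖ = ‖⟪u y, W v⟫_ℂ‖ := by
        rw [hyc, inner_smul_left, norm_mul, RCLike.norm_conj, hc, one_mul]
      have h2 : ‖g (W v)‖ = ‖k‖ * ‖⟪u0, W v⟫_ℂ‖ := by
        rw [hk]
        conv_lhs => rw [hku]
        rw [inner_smul_left, norm_mul, RCLike.norm_conj, Complex.norm_real, norm_norm]
      rw [h2, h1, hWi y v hy, _root_.smul_apply, norm_smul, Complex.norm_real, norm_norm]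
      rfl
  have hfin : ∀ {σ σ' : ℂ →+* ℂ} [RingHomInvPair σ σ'] [RingHomInvPair σ' σ]
      (hσ : ∀ c : ℂ, ∃ c' : ℂ, σ c' = c)
      (A : H →SL[σ] K), (∀ v, ∃ c : ℂ, ‖c‖ = 1 ∧ W v = c • A v) →
      ∃ U : H ≃ₛₗᵢ[σ] K, ∀ x : H, ‖x‖ = 1 → φ (ro x x) = ro (U x) (U x) ∨
      φ (ro x x) = -ro (U x) (U x) := by
    intro σ σ' _ _ hσ A hA
    have hAn : ∀ v, ‖A v‖ = ‖v‖ := by
      intro v
      obtain ⟨c, hc, hcv⟩ := hA v
      rw [← hWn v, hcv, norm_smul, hc, one_mul]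
    have hAs : Function.Surjective A := by
      intro w
      by_cases hw : w = 0
      · exact ⟨0, by rw [map_zero, hw]⟩
      · have h0 : ‖w‖ ≠ 0 := norm_ne_zero_iff.2 hw
        obtain ⟨u0, hu0⟩ : ∃ u0 : K, u0 = ((‖w‖⁻¹ : ℝ) : ℂ) • w := ⟨_, rfl⟩
        have hu01 : ‖u0‖ = 1 := by
          rw [hu0, norm_smul, Complex.norm_real, norm_inv, norm_norm, inv_mul_cancel₀ h0]
        have hwu : w = ((‖w‖ : ℝ) : ℂ) • u0 := by
          rw [hu0, smul_smul, ← Complex.ofReal_mul, mul_inv_cancel₀ h0, Complex.ofReal_one,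
            one_smul]
        obtain ⟨y, hy, c, hc, hyc⟩ := hback u0 hu01
        obtain ⟨c2, hc2, hyc2⟩ := hA y
        have hcn : c ≠ 0 := by
          intro h0
          rw [h0, norm_zero] at hc
          exact zero_ne_one hc
        rw [hW1 y hy, hyc] at hyc2
        have hu0A : u0 = (c⁻¹ * c2) • A y := by
          rw [mul_smul, ← hyc2, smul_smul, inv_mul_cancel₀ hcn, one_smul]
        obtain ⟨c', hc'⟩ := hσ (((‖w‖ : ℝ) : ℂ) * (c⁻¹ * c2))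
        refine ⟨c' • y, ?_⟩
        rw [map_smulₛₗ, hc', mul_smul, ← hu0A, ← hwu]
    obtain ⟨U, hU⟩ := aux833_equiv_j6142 A hAn hAs
    refine ⟨U, fun x hx => ?_⟩
    obtain ⟨c, hc, hcv⟩ := hA x
    rw [hW1 x hx] at hcv
    have h1 : ro (u x) (u x) = ro (U x) (U x) := by
      rw [hcv, aux833_ro_smul_j6142 c hc, hU]
    rw [← h1]
    exact (hu x hx).2
  rcases wigner W (u x0) hk0 hwig with ⟨A, hA⟩ | ⟨A, hA⟩
  · left
    exact hfin (fun c => ⟨c, rfl⟩) A hA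
  · right
    exact hfin (fun c => ⟨(starRingEnd ℂ) c, by simp⟩) A hA

end e1


end j6142

-- part 6191
section j6191
section srbasic
variable {X : Type*} [NormedAddCommGroup X] [NormedSpace ℂ X]

theorem sr_nonneg_j6191 (T : X →L[ℂ] X) : 0 ≤ sr T := ENNReal.toReal_nonneg

variable [CompleteSpace X]

end srbasic

section sk
variable {H : Type*} [NormedAddCommGroup H] [InnerProductSpace ℂ H] [CompleteSpace H]


end sk

section RPs
variable {E : Type*} [AddCommGroup E] [Module ℂ E]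

end RPs

section forms
variable {H : Type*} [NormedAddCommGroup H] [InnerProductSpace ℂ H]


end forms

section e1
variable {H K : Type*} [NormedAddCommGroup H] [InnerProductSpace ℂ H] [CompleteSpace H]
  [NormedAddCommGroup K] [InnerProductSpace ℂ K] [CompleteSpace K]


theorem form_zero_aux_j6191 (A : H →L[ℂ] H) (h : ∀ x : H, ⟪x, A x⟫_ℂ = 0) : A = 0 := by
  have h2 : (A : H →ₗ[ℂ] H) = 0 := by
    apply (inner_map_self_eq_zero (A : H →ₗ[ℂ] H)).1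
    intro x
    have := h x
    rw [← inner_conj_symm]
    simp [this]
  ext x
  have := congrArg (fun f : H →ₗ[ℂ] H => f x) h2
  simpa using this

/-- a product of quadratic forms vanishes only if one factor vanishes -/
theorem form_mul_zero (A B : H →L[ℂ] H) (h : ∀ x : H, ⟪x, A x⟫_ℂ = 0 ∨ ⟪x, B x⟫_ℂ = 0) :
    A = 0 ∨ B = 0 := by
  rcases RP_mul_zero (RP_form A) (RP_form B) h with h1 | h1
  · left; exact form_zero_aux_j6191 A h1
  · right; exact form_zero_aux_j6191 B h1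

theorem form_mul_zero4 (A B C D : H →L[ℂ] H)
    (h : ∀ x : H, ⟪x, A x⟫_ℂ = 0 ∨ ⟪x, B x⟫_ℂ = 0 ∨ ⟪x, C x⟫_ℂ = 0 ∨ ⟪x, D x⟫_ℂ = 0) :
    A = 0 ∨ B = 0 ∨ C = 0 ∨ D = 0 := by
  have h2 : ∀ x : H, ⟪x, A x⟫_ℂ * ⟪x, B x⟫_ℂ = 0 ∨ ⟪x, C x⟫_ℂ * ⟪x, D x⟫_ℂ = 0 := by
    intro x
    rcases h x with h1 | h1 | h1 | h1 <;> simp [h1]
  rcases RP_mul_zero (RP_mul (RP_form A) (RP_form B)) (RP_mul (RP_form C) (RP_form D)) h2
    with h1 | h1
  · rcases form_mul_zero A B (fun x => mul_eq_zero.1 (h1 x)) with h3 | h3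
    · exact Or.inl h3
    · exact Or.inr (Or.inl h3)
  · rcases form_mul_zero C D (fun x => mul_eq_zero.1 (h1 x)) with h3 | h3
    · exact Or.inr (Or.inr (Or.inl h3))
    · exact Or.inr (Or.inr (Or.inr h3))

/-- every vector is a real multiple of a unit vector, when it is nonzero -/
theorem unit_scale_aux_j6191 (x : H) (hx : x ≠ 0) :
    ∃ u : H, ∃ r : ℂ, ‖u‖ = 1 ∧ x = r • u := by
  have hn : ‖x‖ ≠ 0 := norm_ne_zero_iff.2 hx
  refine ⟨((‖x‖ : ℂ)⁻¹) • x, (‖x‖ : ℂ), ?_, ?_⟩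
  · rw [norm_smul, norm_inv, Complex.norm_real, norm_norm, inv_mul_cancel₀ hn]
  · rw [smul_smul, mul_inv_cancel₀ (by exact_mod_cast hn), one_smul]

theorem form_scale_aux_j6191 (A : H →L[ℂ] H) (u : H) (r : ℂ) (h : ⟪u, A u⟫_ℂ = 0) :
    ⟪r • u, A (r • u)⟫_ℂ = 0 := by
  rw [map_smul, inner_smul_left, inner_smul_right, h]; simp

theorem sa_real_aux_j6191 (A : H →L[ℂ] H) (hA : IsSelfAdjoint A) (x : H) :
    (starRingEnd ℂ) ⟪x, A x⟫_ℂ = ⟪x, A x⟫_ℂ := by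
  rw [inner_conj_symm]
  have : star A = A := hA
  rw [ContinuousLinearMap.star_eq_adjoint] at this
  calc ⟪A x, x⟫_ℂ = ⟪x, (ContinuousLinearMap.adjoint A) x⟫_ℂ := by
        rw [ContinuousLinearMap.adjoint_inner_right]
    _ = ⟪x, A x⟫_ℂ := by rw [this]

/-- selfadjoint operators are determined up to sign by the norms with rank one projections -/
theorem sa_sign (A A' : H →L[ℂ] H) (hA : IsSelfAdjoint A) (hA' : IsSelfAdjoint A')
    (h1 : ∀ x : H, ‖x‖ = 1 → ‖ro x x * A' + A' * ro x x‖ = ‖ro x x * A + A * ro x x‖)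
    (h2 : ∀ x : H, ‖x‖ = 1 → ‖ro x x * A' - A' * ro x x‖ = ‖ro x x * A - A * ro x x‖) :
    A' = A ∨ A' = -A := by
  have key : ∀ x : H, ⟪x, (A' - A) x⟫_ℂ = 0 ∨ ⟪x, (A' + A) x⟫_ℂ = 0 := by
    intro x
    by_cases hx0 : x = 0
    · left; rw [hx0]; simp
    obtain ⟨u, r, hu, rfl⟩ := unit_scale_aux_j6191 x hx0
    have e1 := h1 u hu
    have e2 := h2 u hu
    rw [norm_anticomm' u hu A' hA', norm_anticomm' u hu A hA] at e1
    have e3 : ‖A' u‖ ^ 2 - ‖⟪u, A' u⟫_ℂ‖ ^ 2 = ‖A u‖ ^ 2 - ‖⟪u, A u⟫_ℂ‖ ^ 2 := by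
      rw [← norm_comm' u hu A' hA', ← norm_comm' u hu A hA, e2]
    have p0 := norm_nonneg ⟪u, A' u⟫_ℂ
    have p1 := norm_nonneg ⟪u, A u⟫_ℂ
    have q0 := norm_nonneg (A' u)
    have q1 := norm_nonneg (A u)
    have e4 : ‖⟪u, A' u⟫_ℂ‖ = ‖⟪u, A u⟫_ℂ‖ := by
      by_cases hs : ‖⟪u, A u⟫_ℂ‖ + ‖A u‖ = 0
      · have : ‖⟪u, A u⟫_ℂ‖ = 0 := by linarith
        have : ‖⟪u, A' u⟫_ℂ‖ = 0 := by linarith
        linarith
      · have : (‖⟪u, A u⟫_ℂ‖ + ‖A u‖) * ((‖A' u‖ - ‖⟪u, A' u⟫_ℂ‖) - (‖A u‖ - ‖⟪u, A u⟫_ℂ‖)) = 0 := by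
          have : (‖⟪u, A' u⟫_ℂ‖ + ‖A' u‖) * (‖A' u‖ - ‖⟪u, A' u⟫_ℂ‖)
              = (‖⟪u, A u⟫_ℂ‖ + ‖A u‖) * (‖A u‖ - ‖⟪u, A u⟫_ℂ‖) := by nlinarith
          rw [e1] at this
          linarith
        rcases mul_eq_zero.1 this with h | h
        · exact absurd h hs
        · linarith
    have r1 := sa_real_aux_j6191 A hA u
    have r2 := sa_real_aux_j6191 A' hA' u
    have e5 : ⟪u, A' u⟫_ℂ * ⟪u, A' u⟫_ℂ = ⟪u, A u⟫_ℂ * ⟪u, A u⟫_ℂ := by
      have a1 : ⟪u, A' u⟫_ℂ * ⟪u, A' u⟫_ℂ = ((‖⟪u, A' u⟫_ℂ‖ ^ 2 : ℝ) : ℂ) := by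
        have := Complex.mul_conj' ⟪u, A' u⟫_ℂ
        rw [r2] at this
        rw [this]; push_cast; rfl
      have a2 : ⟪u, A u⟫_ℂ * ⟪u, A u⟫_ℂ = ((‖⟪u, A u⟫_ℂ‖ ^ 2 : ℝ) : ℂ) := by
        have := Complex.mul_conj' ⟪u, A u⟫_ℂ
        rw [r1] at this
        rw [this]; push_cast; rfl
      rw [a1, a2, e4]
    have e6 : (⟪u, A' u⟫_ℂ - ⟪u, A u⟫_ℂ) * (⟪u, A' u⟫_ℂ + ⟪u, A u⟫_ℂ) = 0 := by linear_combination e5
    rcases mul_eq_zero.1 e6 with h | h
    · left; apply form_scale_aux_j6191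
      rw [ContinuousLinearMap.sub_apply, inner_sub_right, h]
    · right; apply form_scale_aux_j6191
      rw [ContinuousLinearMap.add_apply, inner_add_right, h]
  rcases form_mul_zero _ _ key with h | h
  · left; exact sub_eq_zero.1 h
  · right; exact eq_neg_of_add_eq_zero_left h

theorem sqrt_aux_j6191 {a b r s : ℝ} (h0 : r < s) (hs : s ≤ a) (hb : s ≤ b) :
    Real.sqrt (a - s) + Real.sqrt (b - s) < Real.sqrt (a - r) + Real.sqrt (b - r) := by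
  apply add_lt_add
  · apply Real.sqrt_lt_sqrt <;> linarith
  · apply Real.sqrt_lt_sqrt <;> linarith

/-- right slot tests, first case -/
theorem right_alpha (T : H →L[ℂ] H) (c : ℂ) (hc : ‖c‖ = 1)
    (h : ∀ x : H, ‖x‖ = 1 → SK (c • T) (ro x x) = SK T (ro x x)) :
    c • T = T ∨ c • T = -T ∨ c • T = star T ∨ c • T = -star T := by
  have key : ∀ x : H, ⟪x, (c • T - T) x⟫_ℂ = 0 ∨ ⟪x, (c • T + T) x⟫_ℂ = 0 ∨
      ⟪x, (c • T - star T) x⟫_ℂ = 0 ∨ ⟪x, (c • T + star T) x⟫_ℂ = 0 := by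
    intro x
    by_cases hx0 : x = 0
    · left; rw [hx0]; simp
    obtain ⟨u, r, hu, rfl⟩ := unit_scale_aux_j6191 x hx0
    have e1 := h u hu
    rw [SK_proj_right _ u hu, SK_proj_right _ u hu] at e1
    have e2 : ⟪u, (c • T) u⟫_ℂ = c * ⟪u, T u⟫_ℂ := by
      rw [ContinuousLinearMap.smul_apply, inner_smul_right]
    have e3 : ‖(c • T) u‖ = ‖T u‖ := by
      rw [ContinuousLinearMap.smul_apply, norm_smul, hc, one_mul]
    rw [e2, e3] at e1
    set a := ⟪u, T u⟫_ℂ with ha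
    have hstar : ⟪u, (star T) u⟫_ℂ = (starRingEnd ℂ) a := by
      rw [ha, inner_conj_symm, ContinuousLinearMap.star_eq_adjoint,
        ContinuousLinearMap.adjoint_inner_right]
    have hna : ‖a‖ ≤ ‖T u‖ := by
      have := norm_inner_le_norm (𝕜 := ℂ) u (T u)
      rw [hu, one_mul] at this
      exact this
    have hna2 : ‖a‖ ^ 2 ≤ ‖T u‖ ^ 2 := by
      have := norm_nonneg a
      nlinarith
    have i1 : a.re ^ 2 + a.im ^ 2 = ‖a‖ ^ 2 := by
      rw [← Complex.normSq_eq_norm_sq, Complex.normSq_apply]; ring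
    have i2 : (c * a).re ^ 2 + (c * a).im ^ 2 = ‖a‖ ^ 2 := by
      have : ‖c * a‖ ^ 2 = ‖a‖ ^ 2 := by rw [norm_mul, hc, one_mul]
      rw [← this, ← Complex.normSq_eq_norm_sq, Complex.normSq_apply]; ring
    have j1 : |a.im| = Real.sqrt (‖a‖ ^ 2 - a.re ^ 2) := by
      rw [← i1, show a.re ^ 2 + a.im ^ 2 - a.re ^ 2 = a.im ^ 2 by ring, Real.sqrt_sq_eq_abs]
    have j2 : |(c * a).im| = Real.sqrt (‖a‖ ^ 2 - (c * a).re ^ 2) := by
      rw [← i2, show (c * a).re ^ 2 + (c * a).im ^ 2 - (c * a).re ^ 2 = (c * a).im ^ 2 by ring,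
        Real.sqrt_sq_eq_abs]
    rw [j1, j2] at e1
    have b1 : a.re ^ 2 ≤ ‖a‖ ^ 2 := by nlinarith [sq_nonneg a.im]
    have b2 : (c * a).re ^ 2 ≤ ‖a‖ ^ 2 := by nlinarith [sq_nonneg (c * a).im]
    have hre : (c * a).re ^ 2 = a.re ^ 2 := by
      rcases lt_trichotomy ((c * a).re ^ 2) (a.re ^ 2) with hlt | heq | hlt
      · have := sqrt_aux_j6191 hlt b1 (b1.trans hna2)
        linarith
      · exact heq
      · have := sqrt_aux_j6191 hlt b2 (b2.trans hna2)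
        linarith
    have him : (c * a).im ^ 2 = a.im ^ 2 := by linarith
    rcases sq_eq_sq_iff_eq_or_eq_neg.1 hre with hr | hr <;>
    rcases sq_eq_sq_iff_eq_or_eq_neg.1 him with hi | hi
    · left; apply form_scale_aux_j6191
      rw [ContinuousLinearMap.sub_apply, inner_sub_right, e2, ← ha, sub_eq_zero]
      exact Complex.ext hr hi
    · right; right; left; apply form_scale_aux_j6191
      rw [ContinuousLinearMap.sub_apply, inner_sub_right, e2, hstar, sub_eq_zero]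
      apply Complex.ext
      · simpa using hr
      · simpa using hi
    · right; right; right; apply form_scale_aux_j6191
      rw [ContinuousLinearMap.add_apply, inner_add_right, e2, hstar, ← eq_neg_iff_add_eq_zero]
      apply Complex.ext
      · simpa using hr
      · simpa using hi
    · right; left; apply form_scale_aux_j6191
      rw [ContinuousLinearMap.add_apply, inner_add_right, e2, ← ha, ← eq_neg_iff_add_eq_zero]
      apply Complex.ext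
      · simpa using hr
      · simpa using hi
  rcases form_mul_zero4 _ _ _ _ key with h | h | h | h
  · left; exact sub_eq_zero.1 h
  · right; left; exact eq_neg_of_add_eq_zero_left h
  · right; right; left; exact sub_eq_zero.1 h
  · right; right; right; exact eq_neg_of_add_eq_zero_left h

/-- a vector whose two forms agree with two others -/
theorem fact_aux_j6191 (u v a b : H) (h : ∀ y : H, ⟪y, u⟫_ℂ * ⟪y, v⟫_ℂ = ⟪y, a⟫_ℂ * ⟪y, b⟫_ℂ) :
    (⟪u, a⟫_ℂ * ⟪a, u⟫_ℂ = ⟪u, u⟫_ℂ * ⟪a, a⟫_ℂ) ∨ (⟪u, b⟫_ℂ * ⟪b, u⟫_ℂ = ⟪u, u⟫_ℂ * ⟪b, b⟫_ℂ) := by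
  by_cases hu : u = 0
  · left; simp [hu]
  have hu2 : ⟪u, u⟫_ℂ ≠ 0 := inner_self_ne_zero.2 hu
  -- the components orthogonal to `u`
  set a' := ⟪u, u⟫_ℂ • a - ⟪u, a⟫_ℂ • u with ha'
  set b' := ⟪u, u⟫_ℂ • b - ⟪u, b⟫_ℂ • u with hb'
  have oa : ⟪u, a'⟫_ℂ = 0 := by
    rw [ha', inner_sub_right, inner_smul_right, inner_smul_right]; ring
  have ob : ⟪u, b'⟫_ℂ = 0 := by
    rw [hb', inner_sub_right, inner_smul_right, inner_smul_right]; ring
  have oa' : ⟪a', u⟫_ℂ = 0 := by rw [← inner_conj_symm, oa]; simp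
  have ob' : ⟪b', u⟫_ℂ = 0 := by rw [← inner_conj_symm, ob]; simp
  have sa : ⟪u, u⟫_ℂ * ⟪a', a⟫_ℂ = ⟪a', a'⟫_ℂ := by
    have : ⟪a', a'⟫_ℂ = ⟪u, u⟫_ℂ * ⟪a', a⟫_ℂ - ⟪u, a⟫_ℂ * ⟪a', u⟫_ℂ := by
      conv_lhs => rw [ha']
      rw [← ha', inner_sub_right, inner_smul_right, inner_smul_right]
    rw [this, oa']; ring
  have sb : ⟪u, u⟫_ℂ * ⟪b', b⟫_ℂ = ⟪b', b'⟫_ℂ := by
    have : ⟪b', b'⟫_ℂ = ⟪u, u⟫_ℂ * ⟪b', b⟫_ℂ - ⟪u, b⟫_ℂ * ⟪b', u⟫_ℂ := by
      conv_lhs => rw [hb']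
      rw [← hb', inner_sub_right, inner_smul_right, inner_smul_right]
    rw [this, ob']; ring
  have fin : ∀ w : H, ⟪u, u⟫_ℂ • w - ⟪u, w⟫_ℂ • u = 0 → ⟪u, w⟫_ℂ * ⟪w, u⟫_ℂ = ⟪u, u⟫_ℂ * ⟪w, w⟫_ℂ := by
    intro w hw
    have h1 : ⟪w, ⟪u, u⟫_ℂ • w - ⟪u, w⟫_ℂ • u⟫_ℂ = 0 := by rw [hw]; simp
    rw [inner_sub_right, inner_smul_right, inner_smul_right] at h1
    linear_combination -h1
  by_cases ha0 : a' = 0
  · left; exact fin a ha0
  by_cases hb0 : b' = 0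
  · right; exact fin b hb0
  exfalso
  have na : ⟪a', a'⟫_ℂ ≠ 0 := inner_self_ne_zero.2 ha0
  have nb : ⟪b', b'⟫_ℂ ≠ 0 := inner_self_ne_zero.2 hb0
  have na1 : ⟪a', a⟫_ℂ ≠ 0 := by
    intro h0; rw [h0, mul_zero] at sa; exact na sa.symm
  have nb1 : ⟪b', b⟫_ℂ ≠ 0 := by
    intro h0; rw [h0, mul_zero] at sb; exact nb sb.symm
  have h1 := h a'
  rw [oa', zero_mul] at h1
  have h1' : ⟪a', b⟫_ℂ = 0 := (mul_eq_zero.1 h1.symm).resolve_left na1
  have h2 := h b'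
  rw [ob', zero_mul] at h2
  have h2' : ⟪b', a⟫_ℂ = 0 := (mul_eq_zero.1 h2.symm).resolve_right nb1
  have h3 := h (a' + b')
  rw [inner_add_left, inner_add_left, inner_add_left, inner_add_left, oa', ob', h1', h2'] at h3
  simp only [add_zero, zero_add, zero_mul] at h3
  exact (mul_ne_zero na1 nb1) h3.symm

/-- equality in Cauchy-Schwarz -/
theorem cs_aux_j6191 (u a : H) (h : ⟪u, a⟫_ℂ * ⟪a, u⟫_ℂ = ⟪u, u⟫_ℂ * ⟪a, a⟫_ℂ) :
    ⟪a, a⟫_ℂ • u = ⟪a, u⟫_ℂ • a := by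
  have : ⟪⟪a, a⟫_ℂ • u - ⟪a, u⟫_ℂ • a, ⟪a, a⟫_ℂ • u - ⟪a, u⟫_ℂ • a⟫_ℂ = 0 := by
    rw [inner_sub_left, inner_sub_right, inner_sub_right]
    simp only [inner_smul_left, inner_smul_right, inner_conj_symm]
    linear_combination (-⟪a, a⟫_ℂ) * h
  exact sub_eq_zero.1 (inner_self_eq_zero.1 this)

theorem par_dir_aux_j6191 (Z T : H →L[ℂ] H)
    (hp : ∀ x : H, ⟪T x, T x⟫_ℂ • Z x = ⟪T x, Z x⟫_ℂ • T x)
    (hq : ∀ x : H, ⟪Z x, Z x⟫_ℂ • T x = ⟪Z x, T x⟫_ℂ • Z x)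
    (h : ∀ x : H, ‖⟪x, Z x⟫_ℂ‖ = ‖⟪x, T x⟫_ℂ‖) : ∃ c : ℂ, ‖c‖ = 1 ∧ Z = c • T := by
  by_cases hT : T = 0
  · refine ⟨1, by simp, ?_⟩
    have : Z = 0 := by
      apply form_zero_aux_j6191
      intro x
      have := h x
      rw [hT] at this
      simpa using this
    rw [this, hT]; simp
  -- a vector with nonzero form
  obtain ⟨x0, hx0⟩ : ∃ x0 : H, ⟪x0, T x0⟫_ℂ ≠ 0 := by
    by_contra hcon
    push Not at hcon
    exact hT (form_zero_aux_j6191 T hcon)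
  have hTx0 : T x0 ≠ 0 := by
    intro h0; apply hx0; rw [h0]; simp
  set e := T x0 with he
  have hee : ⟪e, e⟫_ℂ ≠ 0 := inner_self_ne_zero.2 hTx0
  set c : ℂ := ⟪e, Z x0⟫_ℂ / ⟪e, e⟫_ℂ with hc
  have hZ0 : Z x0 = c • e := by
    have h1 := hp x0
    rw [← he] at h1
    rw [hc, div_eq_inv_mul, mul_smul, ← h1, smul_smul, inv_mul_cancel₀ hee, one_smul]
  have hc1 : ‖c‖ = 1 := by
    have h1 := h x0
    rw [hZ0, inner_smul_right, norm_mul, ← he] at h1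
    have h2 : ‖⟪x0, e⟫_ℂ‖ ≠ 0 := norm_ne_zero_iff.2 hx0
    exact mul_right_cancel₀ h2 (by rw [h1, one_mul])
  have hc0 : c ≠ 0 := by
    intro h0; rw [h0] at hc1; simp at hc1
  refine ⟨c, hc1, ?_⟩
  -- pairwise parallelism as bilinear identities
  have hpar : ∀ x y z : H, ⟪y, Z x⟫_ℂ * ⟪z, T x⟫_ℂ = ⟪z, Z x⟫_ℂ * ⟪y, T x⟫_ℂ := by
    intro x y z
    by_cases hTx : T x = 0
    · rw [hTx]; simp
    have hn : ⟪T x, T x⟫_ℂ ≠ 0 := inner_self_ne_zero.2 hTx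
    have h1 : ∀ w : H, ⟪T x, T x⟫_ℂ * ⟪w, Z x⟫_ℂ = ⟪T x, Z x⟫_ℂ * ⟪w, T x⟫_ℂ := by
      intro w
      rw [← inner_smul_right, ← inner_smul_right, hp x]
    apply mul_left_cancel₀ hn
    linear_combination ⟪z, T x⟫_ℂ * h1 y - ⟪y, T x⟫_ℂ * h1 z
  -- polarise with `x0`
  have hpol : ∀ x y z : H, ⟪y, Z x⟫_ℂ * ⟪z, e⟫_ℂ + ⟪y, Z x0⟫_ℂ * ⟪z, T x⟫_ℂ
      = ⟪z, Z x⟫_ℂ * ⟪y, e⟫_ℂ + ⟪z, Z x0⟫_ℂ * ⟪y, T x⟫_ℂ := by
    intro x y z
    have h1 := hpar (x + x0) y z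
    have h2 := hpar x y z
    have h3 := hpar x0 y z
    rw [map_add, map_add, inner_add_right, inner_add_right, inner_add_right, inner_add_right] at h1
    rw [← he] at h1 h3
    linear_combination h1 - h2 - h3
  -- the difference is a multiple of `e`
  have hD : ∀ x y : H, ⟪e, e⟫_ℂ * (⟪y, Z x⟫_ℂ - c * ⟪y, T x⟫_ℂ)
      = (⟪e, Z x⟫_ℂ - c * ⟪e, T x⟫_ℂ) * ⟪y, e⟫_ℂ := by
    intro x y
    have h1 := hpol x y e
    rw [hZ0, inner_smul_right, inner_smul_right] at h1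
    linear_combination h1
  by_contra hne
  -- some x1 has nonzero difference
  obtain ⟨x1, hx1⟩ : ∃ x1 : H, ⟪e, Z x1⟫_ℂ - c * ⟪e, T x1⟫_ℂ ≠ 0 := by
    by_contra hcon
    push Not at hcon
    apply hne
    ext x
    have h2 : ∀ y : H, ⟪y, Z x - (c • T) x⟫_ℂ = 0 := by
      intro y
      have h1 := hD x y
      rw [hcon x, zero_mul] at h1
      have h3 := (mul_eq_zero.1 h1).resolve_left hee
      rw [inner_sub_right, ContinuousLinearMap.smul_apply, inner_smul_right]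
      exact h3
    exact sub_eq_zero.1 (inner_self_eq_zero.1 (h2 _))
  -- then `T x` is a multiple of `e`
  have hTe1 : ∀ x : H, ⟪e, Z x⟫_ℂ - c * ⟪e, T x⟫_ℂ ≠ 0 → ∀ y : H,
      ⟪e, e⟫_ℂ * ⟪y, T x⟫_ℂ = ⟪e, T x⟫_ℂ * ⟪y, e⟫_ℂ := by
    intro x hx y
    have h1 := hpar x y e
    have h2 := hD x y
    -- δ (⟪y,e⟫_ℂ⟪e,Tx⟫_ℂ - ⟪e,e⟫_ℂ⟪y,Tx⟫_ℂ) = 0
    apply mul_left_cancel₀ hx
    linear_combination (-⟪e, e⟫_ℂ) * h1 + ⟪e, T x⟫_ℂ * h2
  have hTe : ∀ x y : H, ⟪e, e⟫_ℂ * ⟪y, T x⟫_ℂ = ⟪e, T x⟫_ℂ * ⟪y, e⟫_ℂ := by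
    intro x y
    by_cases hx : ⟪e, Z x⟫_ℂ - c * ⟪e, T x⟫_ℂ = 0
    · have h1 := hTe1 (x + x1) (by
        rw [map_add, map_add, inner_add_right, inner_add_right]
        intro h0
        apply hx1
        linear_combination h0 - hx) y
      have h2 := hTe1 x1 hx1 y
      rw [map_add, inner_add_right, inner_add_right] at h1
      linear_combination h1 - h2
    · exact hTe1 x hx y
  have hZe : ∀ x y : H, ⟪e, e⟫_ℂ * ⟪y, Z x⟫_ℂ = ⟪e, Z x⟫_ℂ * ⟪y, e⟫_ℂ := by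
    intro x y
    have h1 := hD x y
    have h2 := hTe x y
    linear_combination h1 + c * h2
  -- compare the functionals
  set w := star T e with hw
  set w' := star Z e with hw'
  have iw : ∀ x : H, ⟪w, x⟫_ℂ = ⟪e, T x⟫_ℂ := by
    intro x
    rw [hw, ContinuousLinearMap.star_eq_adjoint, ContinuousLinearMap.adjoint_inner_left]
  have iw' : ∀ x : H, ⟪w', x⟫_ℂ = ⟪e, Z x⟫_ℂ := by
    intro x
    rw [hw', ContinuousLinearMap.star_eq_adjoint, ContinuousLinearMap.adjoint_inner_left]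
  have hfin : ∀ x : H, ⟪x, (ro e e) x⟫_ℂ = 0 ∨ ⟪x, (ro w' w' - ro w w) x⟫_ℂ = 0 := by
    intro x
    by_cases hxe : ⟪x, e⟫_ℂ = 0
    · left
      rw [ro_apply, inner_smul_right, hxe, mul_zero]
    · right
      have h1 : ‖⟪e, Z x⟫_ℂ‖ = ‖⟪e, T x⟫_ℂ‖ := by
        have a1 := hZe x x
        have a2 := hTe x x
        have a3 : ‖⟪e, Z x⟫_ℂ‖ * ‖⟪x, e⟫_ℂ‖ = ‖⟪e, T x⟫_ℂ‖ * ‖⟪x, e⟫_ℂ‖ := by
          rw [← norm_mul, ← norm_mul, ← a1, ← a2, norm_mul, norm_mul, h x]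
        exact mul_right_cancel₀ (norm_ne_zero_iff.2 hxe) a3
      rw [ContinuousLinearMap.sub_apply, inner_sub_right, ro_apply, ro_apply, inner_smul_right,
        inner_smul_right, ← inner_conj_symm x w', ← inner_conj_symm x w, iw, iw',
        Complex.mul_conj', Complex.mul_conj', h1, sub_self]
  rcases form_mul_zero _ _ hfin with h1 | h1
  · have h2 : (ro e e) e = 0 := by rw [h1]; simp
    rw [ro_apply] at h2
    rcases smul_eq_zero.1 h2 with h3 | h3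
    · exact hee h3
    · exact hTx0 h3
  · have h2 : (ro w' w' - ro w w) x0 = 0 := by rw [h1]; simp
    rw [ContinuousLinearMap.sub_apply, ro_apply, ro_apply, iw, iw', hZ0, ← he,
      inner_smul_right] at h2
    -- (c * ⟪e,e⟫_ℂ) • w' = ⟪e,e⟫_ℂ • w
    have h3 : c • w' = w := by
      have : ⟪e, e⟫_ℂ • (c • w' - w) = 0 := by
        rw [smul_sub, smul_smul, mul_comm]
        exact h2
      exact sub_eq_zero.1 ((smul_eq_zero.1 this).resolve_left hee)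
    apply hx1
    have h4 : ⟪e, T x1⟫_ℂ = (starRingEnd ℂ) c * ⟪e, Z x1⟫_ℂ := by
      rw [← iw, ← iw', ← h3, inner_smul_left]
    have h5 : c * (starRingEnd ℂ) c = 1 := by
      rw [Complex.mul_conj', hc1]; simp
    rw [h4, ← mul_assoc, h5, one_mul, sub_self]

/-- two operators that are everywhere parallel -/
theorem parallel_form (Z T : H →L[ℂ] H)
    (h : ∀ x : H, ‖⟪x, Z x⟫_ℂ‖ = ‖⟪x, T x⟫_ℂ‖) : ∃ c : ℂ, ‖c‖ = 1 ∧ (Z = c • T ∨ Z = c • star T) := by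
  have hst : ∀ (A : H →L[ℂ] H) (x : H), ⟪x, (star A) x⟫_ℂ = (starRingEnd ℂ) ⟪x, A x⟫_ℂ := by
    intro A x
    rw [inner_conj_symm, ContinuousLinearMap.star_eq_adjoint,
      ContinuousLinearMap.adjoint_inner_right]
  have h1 : ∀ x : H, ⟪x, Z x⟫_ℂ * ⟪x, (star Z) x⟫_ℂ = ⟪x, T x⟫_ℂ * ⟪x, (star T) x⟫_ℂ := by
    intro x
    rw [hst, hst, Complex.mul_conj', Complex.mul_conj', h x]
  have h2 : ∀ x y : H, ⟪y, Z x⟫_ℂ * ⟪y, (star Z) x⟫_ℂ = ⟪y, T x⟫_ℂ * ⟪y, (star T) x⟫_ℂ :=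
    polarize2 Z (star Z) T (star T) h1
  have h3 : ∀ x : H, (⟪Z x, T x⟫_ℂ * ⟪T x, Z x⟫_ℂ - ⟪Z x, Z x⟫_ℂ * ⟪T x, T x⟫_ℂ = 0) ∨
      (⟪Z x, (star T) x⟫_ℂ * ⟪(star T) x, Z x⟫_ℂ - ⟪Z x, Z x⟫_ℂ * ⟪(star T) x, (star T) x⟫_ℂ = 0) := by
    intro x
    rcases fact_aux_j6191 (Z x) ((star Z) x) (T x) ((star T) x) (fun y => h2 x y) with h | h
    · left; rw [h, sub_self]
    · right; rw [h, sub_self]
  have rp : ∀ A : H →L[ℂ] H, RP (fun x : H => ⟪Z x, A x⟫_ℂ * ⟪A x, Z x⟫_ℂ - ⟪Z x, Z x⟫_ℂ * ⟪A x, A x⟫_ℂ) := by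
    intro A
    exact RP_sub (RP_mul (RP_form2 Z A) (RP_form2 A Z)) (RP_mul (RP_form2 Z Z) (RP_form2 A A))
  have main : ∀ A : H →L[ℂ] H,
      (∀ x : H, ⟪Z x, A x⟫_ℂ * ⟪A x, Z x⟫_ℂ - ⟪Z x, Z x⟫_ℂ * ⟪A x, A x⟫_ℂ = 0) →
      (∀ x : H, ‖⟪x, Z x⟫_ℂ‖ = ‖⟪x, A x⟫_ℂ‖) → ∃ c : ℂ, ‖c‖ = 1 ∧ Z = c • A := by
    intro A hA hn
    apply par_dir_aux_j6191 Z A _ _ hn
    · intro x
      exact cs_aux_j6191 (Z x) (A x) (sub_eq_zero.1 (hA x))
    · intro x
      apply cs_aux_j6191 (A x) (Z x)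
      have := hA x
      linear_combination this
  rcases RP_mul_zero (rp T) (rp (star T)) h3 with h4 | h4
  · obtain ⟨c, hc, hz⟩ := main T h4 h
    exact ⟨c, hc, Or.inl hz⟩
  · obtain ⟨c, hc, hz⟩ := main (star T) h4 (fun x => by rw [hst, Complex.norm_conj, h x])
    exact ⟨c, hc, Or.inr hz⟩

end e1


end j6191

end Pool.Agent.Helper729.SRP
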