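import Pool.Agent.Helper729.SRP.P5

/-!
# Preservers of the spectral radius of products of operators, part 6
-/

set_option autoImplicit false
open Filter Topology Complex Set Metric
open scoped InnerProductSpace

namespace Pool.Agent.Helper729.SRP


-- part 6192
section j6192
section srbasic
variable {X : Type*} [NormedAddCommGroup X] [NormedSpace ℂ X]

theorem sr_nonneg_j6192 (T : X →L[ℂ] X) : 0 ≤ sr T := ENNReal.toReal_nonneg

variable [CompleteSpace X]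

end srbasic

section sk
variable {H : Type*} [NormedAddCommGroup H] [InnerProductSpace ℂ H] [CompleteSpace H]


end sk

section RPs
variable {E : Type*} [AddCommGroup E] [Module ℂ E]

end RPs

section forms
variable {H : Type*} [NormedAddCommGroup H] [InnerProductSpace ℂ H]


end forms

section e1
variable {H K : Type*} [NormedAddCommGroup H] [InnerProductSpace ℂ H] [CompleteSpace H]


/-- the scalar function determined by left slot tests with multiples of projections -/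
theorem left_fun (Z T : H →L[ℂ] H)
    (h : ∀ (x : H) (c : ℂ), ‖x‖ = 1 → ‖c‖ = 1 → SK (c • ro x x) Z = SK (c • ro x x) T)
    (x : H) (hx : ‖x‖ = 1) (κ : ℝ) (h0 : 0 ≤ κ) (h1 : κ ≤ 1) :
    (1 - κ) * ‖⟪x, Z x⟫_ℂ‖ ^ 2 + ‖⟪x, Z (Z x)⟫_ℂ - κ * ⟪x, Z x⟫_ℂ ^ 2‖ =
      (1 - κ) * ‖⟪x, T x⟫_ℂ‖ ^ 2 + ‖⟪x, T (T x)⟫_ℂ - κ * ⟪x, T x⟫_ℂ ^ 2‖ := by
  have hR2 : ∀ d : ℂ, R2 0 d ^ 2 = ‖d‖ := by
    intro d
    obtain ⟨z, w, hzw, hd, hR⟩ := R2_exists 0 d
    have hw : w = -z := by linear_combination hzw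
    rw [hR, hw, norm_neg, max_self, ← hd, hw, norm_mul, norm_neg]; ring
  have hR2n : ∀ d : ℂ, 0 ≤ R2 0 d := by
    intro d
    obtain ⟨z, w, hzw, hd, hR⟩ := R2_exists 0 d
    rw [hR]; exact le_max_of_le_left (norm_nonneg z)
  obtain ⟨s, hs⟩ : ∃ s : ℂ, s = ⟪x, T x⟫_ℂ := ⟨_, rfl⟩
  obtain ⟨q, hq⟩ : ∃ q : ℂ, q = ⟪x, T (T x)⟫_ℂ := ⟨_, rfl⟩
  obtain ⟨s', hs'⟩ : ∃ s' : ℂ, s' = ⟪x, Z x⟫_ℂ := ⟨_, rfl⟩
  obtain ⟨q', hq'⟩ : ∃ q' : ℂ, q' = ⟪x, Z (Z x)⟫_ℂ := ⟨_, rfl⟩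
  have e1 : ∀ c : ℂ, ‖c‖ = 1 → R2 ((c - (starRingEnd ℂ) c) * s') (q' - s' ^ 2) =
      R2 ((c - (starRingEnd ℂ) c) * s) (q - s ^ 2) := by
    intro c hc
    rw [hs, hq, hs', hq', ← SK_proj_left Z x hx c hc, ← SK_proj_left T x hx c hc]
    exact h x c hx hc
  rw [← hs, ← hq, ← hs', ← hq']
  have e2 : ‖q' - s' ^ 2‖ = ‖q - s ^ 2‖ := by
    have h2 := e1 1 norm_one
    rw [map_one, sub_self, zero_mul, zero_mul] at h2
    rw [← hR2, ← hR2, h2]
  obtain ⟨m, hm⟩ : ∃ m : ℂ, m = 2 * Complex.I * (Real.sqrt (1 - κ) : ℂ) := ⟨_, rfl⟩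
  have hκ' : Real.sqrt (1 - κ) ^ 2 = 1 - κ := Real.sq_sqrt (by linarith)
  have hκ : Real.sqrt κ ^ 2 = κ := Real.sq_sqrt h0
  have hm2 : m ^ 2 = -4 * (1 - (κ : ℂ)) := by
    have : ((Real.sqrt (1 - κ) : ℝ) : ℂ) ^ 2 = 1 - (κ : ℂ) := by
      rw [← Complex.ofReal_pow, hκ']; push_cast; ring
    rw [hm, mul_pow, mul_pow, Complex.I_sq, this]; ring
  have hmn : ‖m‖ ^ 2 = 4 * (1 - κ) := by
    rw [hm, norm_mul, norm_mul, Complex.norm_I, Complex.norm_real, Real.norm_eq_abs,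
      abs_of_nonneg (Real.sqrt_nonneg _)]
    simp only [Complex.norm_ofNat, mul_one, mul_pow, hκ']
    norm_num
  have hc : ‖((Real.sqrt κ : ℝ) : ℂ) + Complex.I * (Real.sqrt (1 - κ) : ℂ)‖ = 1 := by
    have h3 : ‖((Real.sqrt κ : ℝ) : ℂ) + Complex.I * (Real.sqrt (1 - κ) : ℂ)‖ ^ 2 = 1 := by
      rw [Complex.sq_norm, Complex.normSq_apply]
      simp
      nlinarith [Real.mul_self_sqrt h0, Real.mul_self_sqrt (show 0 ≤ 1 - κ by linarith)]
    have h4 := norm_nonneg (((Real.sqrt κ : ℝ) : ℂ) + Complex.I * (Real.sqrt (1 - κ) : ℂ))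
    nlinarith
  have hcc : ((Real.sqrt κ : ℝ) : ℂ) + Complex.I * (Real.sqrt (1 - κ) : ℂ) -
      (starRingEnd ℂ) (((Real.sqrt κ : ℝ) : ℂ) + Complex.I * (Real.sqrt (1 - κ) : ℂ)) = m := by
    rw [hm, map_add, map_mul, Complex.conj_ofReal, Complex.conj_ofReal, Complex.conj_I]
    ring
  have e3 := e1 _ hc
  rw [hcc] at e3
  have e4 := R2_same e3 e2
  have e5 : ∀ a b : ℂ, ‖m * a‖ ^ 2 + ‖(m * a) ^ 2 - 4 * (b - a ^ 2)‖ =
      4 * ((1 - κ) * ‖a‖ ^ 2 + ‖b - κ * a ^ 2‖) := by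
    intro a b
    have h5 : (m * a) ^ 2 - 4 * (b - a ^ 2) = -4 * (b - κ * a ^ 2) := by
      rw [mul_pow, hm2]; ring
    rw [h5, norm_mul, norm_mul, mul_pow, hmn]
    have : ‖(-4 : ℂ)‖ = 4 := by simp
    rw [this]; ring
  rw [e5, e5] at e4
  linarith


/-- scalar lemma -/
theorem kappa_lemma (s q s' q' : ℂ) (hq : (q * (starRingEnd ℂ) s ^ 2).im ≠ 0)
    (h : ∀ κ : ℝ, 0 ≤ κ → κ ≤ 1 → (1 - κ) * ‖s'‖ ^ 2 + ‖q' - κ * s' ^ 2‖ =
      (1 - κ) * ‖s‖ ^ 2 + ‖q - κ * s ^ 2‖) : ‖s'‖ = ‖s‖ := by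
  have hsq : ∀ (q s : ℂ) (κ : ℝ), ‖q - κ * s ^ 2‖ ^ 2 =
      (‖s‖ ^ 2) ^ 2 * κ ^ 2 - 2 * (q * (starRingEnd ℂ) s ^ 2).re * κ + ‖q‖ ^ 2 := by
    intro q s κ
    rw [Complex.sq_norm, Complex.sq_norm, Complex.sq_norm, Complex.normSq_apply,
      Complex.normSq_apply, Complex.normSq_apply]
    simp only [Complex.sub_re, Complex.sub_im, Complex.mul_re, Complex.mul_im, Complex.ofReal_re,
      Complex.ofReal_im, pow_two, Complex.conj_re, Complex.conj_im]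
    ring
  by_contra hne
  obtain ⟨δ, hδ⟩ : ∃ δ : ℝ, δ = ‖s‖ ^ 2 - ‖s'‖ ^ 2 := ⟨_, rfl⟩
  have hδ0 : δ ≠ 0 := by
    intro h0
    apply hne
    have h1 : ‖s'‖ ^ 2 = ‖s‖ ^ 2 := by linarith
    exact (pow_left_inj₀ (norm_nonneg _) (norm_nonneg _) two_ne_zero).mp h1
  obtain ⟨A, hA⟩ : ∃ A : ℝ, A = (‖s‖ ^ 2) ^ 2 := ⟨_, rfl⟩
  obtain ⟨B, hB⟩ : ∃ B : ℝ, B = (q * (starRingEnd ℂ) s ^ 2).re := ⟨_, rfl⟩
  obtain ⟨D, hD⟩ : ∃ D : ℝ, D = ‖q‖ ^ 2 := ⟨_, rfl⟩
  obtain ⟨A', hA'⟩ : ∃ A' : ℝ, A' = (‖s'‖ ^ 2) ^ 2 := ⟨_, rfl⟩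
  obtain ⟨B', hB'⟩ : ∃ B' : ℝ, B' = (q' * (starRingEnd ℂ) s' ^ 2).re := ⟨_, rfl⟩
  obtain ⟨D', hD'⟩ : ∃ D' : ℝ, D' = ‖q'‖ ^ 2 := ⟨_, rfl⟩
  -- the polynomial identity on [0,1]
  obtain ⟨a, ha⟩ : ∃ a : ℝ, a = (A' - A - δ ^ 2) / (2 * δ) := ⟨_, rfl⟩
  obtain ⟨b, hb⟩ : ∃ b : ℝ, b = (-2 * B' + 2 * B + 2 * δ ^ 2) / (2 * δ) := ⟨_, rfl⟩
  obtain ⟨c, hc⟩ : ∃ c : ℝ, c = (D' - D - δ ^ 2) / (2 * δ) := ⟨_, rfl⟩
  have key : ∀ κ : ℝ, 0 ≤ κ → κ ≤ 1 →
      (1 - κ) ^ 2 * (A * κ ^ 2 - 2 * B * κ + D) = (a * κ ^ 2 + b * κ + c) ^ 2 := by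
    intro κ h0 h1
    have h2 := h κ h0 h1
    have h3 : ‖q' - κ * s' ^ 2‖ = ‖q - κ * s ^ 2‖ + δ * (1 - κ) := by rw [hδ]; linarith
    have h4 := hsq q s κ
    have h5 := hsq q' s' κ
    rw [h3, ← hA', ← hB', ← hD'] at h5
    rw [← hA, ← hB, ← hD] at h4
    have h6 : (1 - κ) * ‖q - κ * s ^ 2‖ = a * κ ^ 2 + b * κ + c := by
      have h7 : 2 * δ * ((1 - κ) * ‖q - κ * s ^ 2‖) = 2 * δ * (a * κ ^ 2 + b * κ + c) := by
        have e1 : 2 * δ * a = A' - A - δ ^ 2 := by rw [ha]; field_simp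
        have e2 : 2 * δ * b = -2 * B' + 2 * B + 2 * δ ^ 2 := by rw [hb]; field_simp
        have e3 : 2 * δ * c = D' - D - δ ^ 2 := by rw [hc]; field_simp
        have e4 : 2 * δ * (a * κ ^ 2 + b * κ + c) =
            (2 * δ * a) * κ ^ 2 + (2 * δ * b) * κ + 2 * δ * c := by ring
        rw [e4, e1, e2, e3]
        linear_combination h5 - h4
      exact mul_left_cancel₀ (mul_ne_zero two_ne_zero hδ0) h7
    rw [← h6, mul_pow, ← h4]
  have k0 := key 0 le_rfl zero_le_one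
  have k1 := key 1 zero_le_one le_rfl
  have k2 := key (1 / 2) (by norm_num) (by norm_num)
  have k3 := key (1 / 3) (by norm_num) (by norm_num)
  have k4 := key (2 / 3) (by norm_num) (by norm_num)
  have hsum : a + b + c = 0 := by
    have : (a + b + c) ^ 2 = 0 := by
      have e : (a + b + c) ^ 2 = (a * 1 ^ 2 + b * 1 + c) ^ 2 := by ring
      rw [e, ← k1]; ring
    exact pow_eq_zero_iff (two_ne_zero) |>.mp this
  have hb' : b = -a - c := by linarith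
  rw [hb'] at k0 k2 k3 k4
  have r0 : D = c ^ 2 := by linarith
  -- A κ² - 2 B κ + D = (c - a κ)² at κ = 1/2, 1/3
  have r2 : A * (1 / 2) ^ 2 - 2 * B * (1 / 2) + D = (c - a * (1 / 2)) ^ 2 := by
    linarith
  have r3 : A * (1 / 3) ^ 2 - 2 * B * (1 / 3) + D = (c - a * (1 / 3)) ^ 2 := by
    linarith
  have rA : A = a ^ 2 := by rw [r0] at r2 r3; linarith
  have rB : B = a * c := by rw [r0] at r2 r3; linarith
  have hfin : B ^ 2 = A * D := by rw [rA, rB, r0]; ring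
  apply hq
  have h8 : ‖q * (starRingEnd ℂ) s ^ 2‖ ^ 2 = A * D := by
    rw [norm_mul, norm_pow, RCLike.norm_conj, hA, hD]; ring
  rw [Complex.sq_norm, Complex.normSq_apply, ← hB, ← hfin] at h8
  have h9 : (q * (starRingEnd ℂ) s ^ 2).im * (q * (starRingEnd ℂ) s ^ 2).im = 0 := by linarith
  exact mul_self_eq_zero.mp h9


theorem rp_lin_j6192 (u : H) (A : H →L[ℂ] H) : RP (fun x : H => ⟪u, A x⟫_ℂ) := by
  intro x y
  refine ⟨Polynomial.C ⟪u, A x⟫_ℂ + Polynomial.C ⟪u, A y⟫_ℂ * Polynomial.X, fun t => ?_⟩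
  simp only [map_add, map_smul, inner_add_right, inner_smul_right, Polynomial.eval_add,
    Polynomial.eval_mul, Polynomial.eval_C, Polynomial.eval_X]
  ring

theorem rp_orth_j6192 (v b : H) : ⟪v, b - (⟪v, b⟫_ℂ / ⟪v, v⟫_ℂ) • v⟫_ℂ = 0 := by
  by_cases hv : v = 0
  · rw [hv, inner_zero_left]
  · have : ⟪v, v⟫_ℂ ≠ 0 := by rwa [Ne, inner_self_eq_zero]
    rw [inner_sub_right, inner_smul_right, div_mul_cancel₀ _ this, sub_self]

theorem rp_flip_j6192 {v b : H} (h : ⟪v, b⟫_ℂ = 0) : ⟪b, v⟫_ℂ = 0 := by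
  rw [← inner_conj_symm, h, map_zero]

theorem rp_dual_j6192 (u v : H) (hu : ∀ c : ℂ, u ≠ c • v) : ∃ p : H, ⟪p, v⟫_ℂ = 0 ∧ ⟪p, u⟫_ℂ ≠ 0 := by
  obtain ⟨c, hc⟩ : ∃ c : ℂ, c = ⟪v, u⟫_ℂ / ⟪v, v⟫_ℂ := ⟨_, rfl⟩
  have h1 := rp_orth_j6192 v u
  rw [← hc] at h1
  have h2 := rp_flip_j6192 h1
  refine ⟨u - c • v, h2, ?_⟩
  have h3 : ⟪u - c • v, u⟫_ℂ = ⟪u - c • v, u - c • v⟫_ℂ := by
    conv_rhs => rw [inner_sub_right, inner_smul_right, h2, mul_zero, sub_zero]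
  rw [h3, Ne, inner_self_eq_zero, sub_eq_zero]
  exact hu c

theorem rp_L_j6192 (u v b : H) (hu : ∀ c : ℂ, u ≠ c • v)
    (h : ∀ y : H, ⟪y, v⟫_ℂ = 0 → ⟪y, b⟫_ℂ * ⟪y, u⟫_ℂ ^ 2 = 0) : ∃ β : ℂ, b = β • v := by
  obtain ⟨c, hc⟩ : ∃ c : ℂ, c = ⟪v, u⟫_ℂ / ⟪v, v⟫_ℂ := ⟨_, rfl⟩
  obtain ⟨β, hβ⟩ : ∃ β : ℂ, β = ⟪v, b⟫_ℂ / ⟪v, v⟫_ℂ := ⟨_, rfl⟩
  obtain ⟨p, hp⟩ : ∃ p : H, p = u - c • v := ⟨_, rfl⟩
  obtain ⟨b', hb'⟩ : ∃ b' : H, b' = b - β • v := ⟨_, rfl⟩
  have p1 : ⟪p, v⟫_ℂ = 0 := by rw [hp, hc]; exact rp_flip_j6192 (rp_orth_j6192 v u)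
  have b1 : ⟪b', v⟫_ℂ = 0 := by rw [hb', hβ]; exact rp_flip_j6192 (rp_orth_j6192 v b)
  have hp0 : p ≠ 0 := by rw [hp, Ne, sub_eq_zero]; exact hu c
  have hyb : ∀ y : H, ⟪y, v⟫_ℂ = 0 → ⟪y, b⟫_ℂ = ⟪y, b'⟫_ℂ := by
    intro y hy
    rw [hb', inner_sub_right, inner_smul_right, hy, mul_zero, sub_zero]
  have hyu : ∀ y : H, ⟪y, v⟫_ℂ = 0 → ⟪y, u⟫_ℂ = ⟪y, p⟫_ℂ := by
    intro y hy
    rw [hp, inner_sub_right, inner_smul_right, hy, mul_zero, sub_zero]
  have h' : ∀ y : H, ⟪y, v⟫_ℂ = 0 → ⟪y, b'⟫_ℂ * ⟪y, p⟫_ℂ ^ 2 = 0 := by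
    intro y hy
    rw [← hyb y hy, ← hyu y hy]; exact h y hy
  refine ⟨β, ?_⟩
  by_contra hne
  have hb0 : b' ≠ 0 := by rw [hb', Ne, sub_eq_zero]; exact hne
  have hbb : ⟪b', b'⟫_ℂ ≠ 0 := by rwa [Ne, inner_self_eq_zero]
  have hpp : ⟪p, p⟫_ℂ ≠ 0 := by rwa [Ne, inner_self_eq_zero]
  have h1 := h' b' b1
  have h2 : ⟪b', p⟫_ℂ = 0 := by
    rcases mul_eq_zero.mp h1 with h3 | h3
    · exact absurd h3 hbb
    · exact pow_eq_zero_iff (two_ne_zero) |>.mp h3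
  have h3 := h' (b' + p) (by rw [inner_add_left, b1, p1, add_zero])
  rw [inner_add_left, inner_add_left, rp_flip_j6192 h2, h2, add_zero, zero_add] at h3
  rcases mul_eq_zero.mp h3 with h4 | h4
  · exact hbb h4
  · exact hpp (pow_eq_zero_iff (two_ne_zero) |>.mp h4)

theorem rp_step2_j6192 (u v a b : H) (hu : ∀ c : ℂ, u ≠ c • v) (hv : ∀ c : ℂ, v ≠ c • u)
    (h : ∀ y : H, ⟪y, a⟫_ℂ * ⟪y, v⟫_ℂ ^ 2 = ⟪y, b⟫_ℂ * ⟪y, u⟫_ℂ ^ 2) : a = 0 := by
  obtain ⟨β, hβ⟩ := rp_L_j6192 u v b hu (fun y hy => by rw [← h y, hy]; ring)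
  obtain ⟨α, hα⟩ := rp_L_j6192 v u a hv (fun y hy => by rw [h y, hy]; ring)
  obtain ⟨p, p1, p2⟩ := rp_dual_j6192 u v hu
  obtain ⟨r, r1, r2⟩ := rp_dual_j6192 v u hv
  have h1 := h (p + r)
  have h2 := h (p - r)
  rw [hα, hβ] at h1 h2
  simp only [inner_add_left, inner_sub_left, inner_smul_right, p1, r1, add_zero, zero_add,
    sub_zero, zero_sub] at h1 h2
  have h3 : α * ⟪r, v⟫_ℂ = β * ⟪p, u⟫_ℂ := by
    have : (⟪p, u⟫_ℂ * ⟪r, v⟫_ℂ) * (α * ⟪r, v⟫_ℂ - β * ⟪p, u⟫_ℂ) = 0 := by linear_combination h1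
    rcases mul_eq_zero.mp this with h4 | h4
    · exact absurd h4 (mul_ne_zero p2 r2)
    · exact sub_eq_zero.mp h4
  have h4 : α * ⟪r, v⟫_ℂ = -(β * ⟪p, u⟫_ℂ) := by
    have : (⟪p, u⟫_ℂ * ⟪r, v⟫_ℂ) * (α * ⟪r, v⟫_ℂ + β * ⟪p, u⟫_ℂ) = 0 := by linear_combination h2
    rcases mul_eq_zero.mp this with h4 | h4
    · exact absurd h4 (mul_ne_zero p2 r2)
    · exact eq_neg_of_add_eq_zero_left h4
  have h5 : α * ⟪r, v⟫_ℂ = 0 := by linear_combination (1 / 2) * h3 + (1 / 2) * h4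
  rcases mul_eq_zero.mp h5 with h6 | h6
  · rw [hα, h6, zero_smul]
  · exact absurd h6 r2

theorem rp_star_j6192 (T : H →L[ℂ] H) (x y : H) : ⟪x, star T y⟫_ℂ = ⟪T x, y⟫_ℂ := by
  rw [ContinuousLinearMap.star_eq_adjoint, ContinuousLinearMap.adjoint_inner_right]

theorem rp_conj1_j6192 (T : H →L[ℂ] H) (x : H) : ⟪x, star T x⟫_ℂ = (starRingEnd ℂ) ⟪x, T x⟫_ℂ := by
  rw [rp_star_j6192, inner_conj_symm]

theorem rp_conj2_j6192 (T : H →L[ℂ] H) (x : H) :
    ⟪x, star T (star T x)⟫_ℂ = (starRingEnd ℂ) ⟪x, T (T x)⟫_ℂ := by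
  rw [rp_star_j6192, rp_star_j6192, inner_conj_symm]

/-- parallel images -/
theorem rp_par_j6192 (T : H →L[ℂ] H)
    (h : ∀ u v x : H, ⟪u, T x⟫_ℂ * ⟪v, star T x⟫_ℂ = ⟪v, T x⟫_ℂ * ⟪u, star T x⟫_ℂ) :
    ∃ (c : ℂ) (A : H →L[ℂ] H), IsSelfAdjoint A ∧ T = c • A := by
  by_cases h0 : ∀ x : H, ⟪x, T x⟫_ℂ = 0
  · have hT : T = 0 := by
      rcases form_mul_zero T T (fun x => Or.inl (h0 x)) with h1 | h1 <;> exact h1
    exact ⟨1, 0, IsSelfAdjoint.zero _, by rw [hT, smul_zero]⟩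
  · push Not at h0
    obtain ⟨x0, hx0⟩ := h0
    obtain ⟨s, hs⟩ : ∃ s : ℂ, s = ⟪x0, T x0⟫_ℂ := ⟨_, rfl⟩
    rw [← hs] at hx0
    have hsc : (starRingEnd ℂ) s ≠ 0 := by
      intro h1; apply hx0; exact (map_eq_zero _).mp h1
    obtain ⟨c1, hc1⟩ : ∃ c1 : ℂ, c1 = (starRingEnd ℂ) s / s := ⟨_, rfl⟩
    have hc1s : c1 * s = (starRingEnd ℂ) s := by rw [hc1, div_mul_cancel₀ _ hx0]
    have hcc : (starRingEnd ℂ) c1 * c1 = 1 := by
      rw [hc1, map_div₀, Complex.conj_conj]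
      field_simp
    have hTx0 : star T x0 = c1 • T x0 := by
      have h1 : ∀ v : H, s * ⟪v, star T x0⟫_ℂ = (starRingEnd ℂ) s * ⟪v, T x0⟫_ℂ := by
        intro v
        have h2 := h x0 v x0
        rw [rp_conj1_j6192, ← hs] at h2
        rw [h2]; ring
      refine ext_inner_left ℂ fun v => ?_
      rw [inner_smul_right]
      have h3 := h1 v
      rw [← hc1s] at h3
      have h4 : s * (⟪v, star T x0⟫_ℂ - c1 * ⟪v, T x0⟫_ℂ) = 0 := by linear_combination h3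
      rcases mul_eq_zero.mp h4 with h5 | h5
      · exact absurd h5 hx0
      · exact sub_eq_zero.mp h5
    -- star T = c1 T
    have hall : ∀ x' : H, star T x' = c1 • T x' := by
      intro x'
      refine ext_inner_left ℂ fun u => ?_
      rw [inner_smul_right]
      -- polarization with v = x0
      have e1 := h u x0 (x0 + x')
      have e2 := h u x0 x0
      have e3 := h u x0 x'
      simp only [map_add, inner_add_right] at e1
      have e4 : ⟪u, T x0⟫_ℂ * ⟪x0, star T x'⟫_ℂ + ⟪u, T x'⟫_ℂ * ⟪x0, star T x0⟫_ℂ =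
          ⟪x0, T x0⟫_ℂ * ⟪u, star T x'⟫_ℂ + ⟪x0, T x'⟫_ℂ * ⟪u, star T x0⟫_ℂ := by
        linear_combination e1 - e2 - e3
      have e5 : ⟪x0, star T x'⟫_ℂ = c1 * ⟪x0, T x'⟫_ℂ := by
        -- ⟪x0, T* x'⟫_ℂ = ⟪T x0, x'⟫_ℂ = ⟪conj c1 ... ⟫_ℂ
        have f1 : T x0 = (starRingEnd ℂ) c1 • star T x0 := by
          rw [hTx0, smul_smul, hcc, one_smul]
        rw [rp_star_j6192, f1, inner_smul_left, Complex.conj_conj]
        congr 1
        have f2 := rp_star_j6192 (star T) x0 x'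
        rw [star_star] at f2
        exact f2.symm
      rw [e5, hTx0, inner_smul_right, inner_smul_right, ← hs] at e4
      have e6 : s * (⟪u, star T x'⟫_ℂ - c1 * ⟪u, T x'⟫_ℂ) = 0 := by linear_combination -e4
      rcases mul_eq_zero.mp e6 with h5 | h5
      · exact absurd h5 hx0
      · exact sub_eq_zero.mp h5
    obtain ⟨μ, hμ⟩ : ∃ μ : ℂ, μ ^ 2 = c1 := ⟨c1 ^ (1 / 2 : ℂ), by
      rw [← Complex.cpow_nat_mul]; norm_num⟩
    have hc1n : ‖c1‖ = 1 := by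
      rw [hc1, norm_div, RCLike.norm_conj, div_self (norm_ne_zero_iff.mpr hx0)]
    have hμn : ‖μ‖ = 1 := by
      have h1 : ‖μ‖ ^ 2 = 1 := by rw [← norm_pow, hμ, hc1n]
      have h2 := norm_nonneg μ
      nlinarith
    have hμc : (starRingEnd ℂ) μ * μ = 1 := by
      rw [mul_comm, Complex.mul_conj, Complex.normSq_eq_norm_sq, hμn]; simp
    refine ⟨(starRingEnd ℂ) μ, μ • T, ?_, ?_⟩
    · rw [isSelfAdjoint_iff, star_smul]
      ext x'
      rw [ContinuousLinearMap.smul_apply, ContinuousLinearMap.smul_apply, hall x', smul_smul]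
      congr 1
      have : star μ = (starRingEnd ℂ) μ := rfl
      rw [this, ← hμ]
      linear_combination μ * hμc
    · rw [smul_smul, hμc, one_smul]

/-- operators for which the phase of `⟪x, T² x⟫_ℂ conj ⟪x, T x⟫_ℂ²` is trivial -/
theorem real_phase (T : H →L[ℂ] H)
    (h : ∀ x : H, (⟪x, T (T x)⟫_ℂ * (starRingEnd ℂ) ⟪x, T x⟫_ℂ ^ 2).im = 0) :
    T * T = 0 ∨ ∃ (c : ℂ) (A : H →L[ℂ] H), IsSelfAdjoint A ∧ T = c • A := by
  have hx : ∀ x : H, ⟪x, (T * T) x⟫_ℂ * ⟪x, star T x⟫_ℂ * ⟪x, star T x⟫_ℂ =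
      ⟪x, (star T * star T) x⟫_ℂ * ⟪x, T x⟫_ℂ * ⟪x, T x⟫_ℂ := by
    intro x
    have h1 := Complex.conj_eq_iff_im.mpr (h x)
    have e1 : (T * T) x = T (T x) := rfl
    have e2 : (star T * star T) x = star T (star T x) := rfl
    rw [e1, e2, rp_conj1_j6192, rp_conj2_j6192]
    rw [map_mul, map_pow, Complex.conj_conj] at h1
    linear_combination -h1
  have hpol : ∀ x y : H, ⟪y, T (T x)⟫_ℂ * ⟪y, star T x⟫_ℂ ^ 2 =
      ⟪y, star T (star T x)⟫_ℂ * ⟪y, T x⟫_ℂ ^ 2 := by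
    intro x y
    have h2 := polarize3 (T * T) (star T) (star T) (star T * star T) T T hx x y
    have e1 : (T * T) x = T (T x) := rfl
    have e2 : (star T * star T) x = star T (star T x) := rfl
    rw [e1, e2] at h2
    linear_combination h2
  have hdich : ∀ x : H, T (T x) = 0 ∨
      ∀ u v : H, ⟪u, T x⟫_ℂ * ⟪v, star T x⟫_ℂ - ⟪v, T x⟫_ℂ * ⟪u, star T x⟫_ℂ = 0 := by
    intro x
    by_cases h1 : ∃ c : ℂ, T x = c • star T x
    · obtain ⟨c, hc⟩ := h1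
      right
      intro u v
      rw [hc, inner_smul_right, inner_smul_right]; ring
    · by_cases h2 : ∃ c : ℂ, star T x = c • T x
      · obtain ⟨c, hc⟩ := h2
        right
        intro u v
        rw [hc, inner_smul_right, inner_smul_right]; ring
      · push Not at h1 h2
        left
        exact rp_step2_j6192 (T x) (star T x) (T (T x)) (star T (star T x)) h1 h2 (hpol x)
  by_cases hTT : T * T = 0
  · exact Or.inl hTT
  · right
    have hex : ∃ x w : H, ⟪w, (T * T) x⟫_ℂ ≠ 0 := by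
      by_contra hcon
      push Not at hcon
      apply hTT
      ext x
      refine ext_inner_left ℂ fun w => ?_
      rw [hcon x w]
      simp
    obtain ⟨x1, w, hw⟩ := hex
    apply rp_par_j6192
    intro u v x
    have hRP1 : RP (fun x : H => ⟪u, T x⟫_ℂ * ⟪v, star T x⟫_ℂ - ⟪v, T x⟫_ℂ * ⟪u, star T x⟫_ℂ) :=
      RP_sub (RP_mul (rp_lin_j6192 u T) (rp_lin_j6192 v (star T))) (RP_mul (rp_lin_j6192 v T) (rp_lin_j6192 u (star T)))
    have hRP2 : RP (fun x : H => ⟪w, (T * T) x⟫_ℂ) := rp_lin_j6192 w (T * T)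
    rcases RP_mul_zero hRP1 hRP2 (by
      intro x
      rcases hdich x with h1 | h1
      · right
        have : (T * T) x = T (T x) := rfl
        rw [this, h1, inner_zero_right]
      · left; exact h1 u v) with h1 | h1
    · exact sub_eq_zero.mp (h1 x)
    · exact absurd (h1 x1) hw


theorem rc_hom_j6192 (A : H →L[ℂ] H) (r : ℝ) (y : H) :
    ⟪(r : ℂ) • y, A ((r : ℂ) • y)⟫_ℂ = (r : ℂ) ^ 2 * ⟪y, A y⟫_ℂ := by
  rw [map_smul, inner_smul_left, inner_smul_right, Complex.conj_ofReal]; ring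

theorem rc_unit_j6192 {x : H} (hx : x ≠ 0) : ∃ (r : ℝ) (y : H), 0 < r ∧ ‖y‖ = 1 ∧ x = (r : ℂ) • y := by
  have hn : 0 < ‖x‖ := norm_pos_iff.mpr hx
  have hnC : ((‖x‖ : ℝ) : ℂ) ≠ 0 := by exact_mod_cast hn.ne'
  refine ⟨‖x‖, ((‖x‖ : ℝ) : ℂ)⁻¹ • x, hn, ?_, ?_⟩
  · rw [norm_smul, norm_inv, Complex.norm_real, norm_norm, inv_mul_cancel₀ hn.ne']
  · rw [smul_smul, mul_inv_cancel₀ hnC, one_smul]

theorem rc_norm_j6192 (Z T : H →L[ℂ] H) (h : ∀ y : H, ‖y‖ = 1 → ‖⟪y, Z y⟫_ℂ‖ = ‖⟪y, T y⟫_ℂ‖) (x : H) :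
    ‖⟪x, Z x⟫_ℂ‖ = ‖⟪x, T x⟫_ℂ‖ := by
  by_cases hx : x = 0
  · rw [hx, inner_zero_left, inner_zero_left]
  · obtain ⟨r, y, hr, hy, rfl⟩ := rc_unit_j6192 hx
    rw [rc_hom_j6192, rc_hom_j6192, norm_mul, norm_mul, h y hy]

theorem rc_sq_j6192 (q s : ℂ) (κ : ℝ) : ‖q - κ * s ^ 2‖ ^ 2 =
      (‖s‖ ^ 2) ^ 2 * κ ^ 2 - 2 * (q * (starRingEnd ℂ) s ^ 2).re * κ + ‖q‖ ^ 2 := by
  rw [Complex.sq_norm, Complex.sq_norm, Complex.sq_norm, Complex.normSq_apply,
    Complex.normSq_apply, Complex.normSq_apply]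
  simp only [Complex.sub_re, Complex.sub_im, Complex.mul_re, Complex.mul_im, Complex.ofReal_re,
    Complex.ofReal_im, pow_two, Complex.conj_re, Complex.conj_im]
  ring

theorem rc_tri_j6192 (q s : ℂ) (h : ‖q - s ^ 2‖ = ‖q‖ + ‖s‖ ^ 2) :
    (q * (starRingEnd ℂ) s ^ 2).re = -(‖q‖ * ‖s‖ ^ 2) ∧ (q * (starRingEnd ℂ) s ^ 2).im = 0 := by
  have h1 := rc_sq_j6192 q s 1
  rw [Complex.ofReal_one, one_mul, h] at h1
  have h2 : (q * (starRingEnd ℂ) s ^ 2).re = -(‖q‖ * ‖s‖ ^ 2) := by linarith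
  refine ⟨h2, ?_⟩
  have h3 : ‖q * (starRingEnd ℂ) s ^ 2‖ ^ 2 = (‖q‖ * ‖s‖ ^ 2) ^ 2 := by
    rw [norm_mul, norm_pow, RCLike.norm_conj]
  rw [Complex.sq_norm, Complex.normSq_apply, h2] at h3
  have h4 : (q * (starRingEnd ℂ) s ^ 2).im * (q * (starRingEnd ℂ) s ^ 2).im = 0 := by
    linear_combination h3
  exact mul_self_eq_zero.mp h4

theorem rc_sa_j6192 {A : H →L[ℂ] H} (hA : IsSelfAdjoint A) (x y : H) : ⟪x, A y⟫_ℂ = ⟪A x, y⟫_ℂ := by
  have h1 := rp_star_j6192 A x y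
  rw [hA.star_eq] at h1
  exact h1

theorem left_char (Z T : H →L[ℂ] H)
    (h : ∀ (x : H) (c : ℂ), ‖x‖ = 1 → ‖c‖ = 1 → SK (c • ro x x) Z = SK (c • ro x x) T) :
    (∃ (c : ℂ) (A : H →L[ℂ] H), IsSelfAdjoint A ∧ T = c • A) ∨
      ∃ c : ℂ, ‖c‖ = 1 ∧ (Z = c • T ∨ Z = c • star T) := by
  have hlf := left_fun Z T h
  -- unit vectors
  have hu : ∀ y : H, ‖y‖ = 1 →
      ⟪y, (T * T) y⟫_ℂ * ⟪y, star T y⟫_ℂ * ⟪y, star T y⟫_ℂ -
        ⟪y, (star T * star T) y⟫_ℂ * ⟪y, T y⟫_ℂ * ⟪y, T y⟫_ℂ = 0 ∨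
      ⟪y, Z y⟫_ℂ * ⟪y, star Z y⟫_ℂ - ⟪y, T y⟫_ℂ * ⟪y, star T y⟫_ℂ = 0 := by
    intro y hy
    by_cases him : (⟪y, T (T y)⟫_ℂ * (starRingEnd ℂ) ⟪y, T y⟫_ℂ ^ 2).im = 0
    · left
      have h1 := Complex.conj_eq_iff_im.mpr him
      have e1 : (T * T) y = T (T y) := rfl
      have e2 : (star T * star T) y = star T (star T y) := rfl
      rw [e1, e2, rp_conj1_j6192, rp_conj2_j6192]
      rw [map_mul, map_pow, Complex.conj_conj] at h1
      linear_combination -h1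
    · right
      have h1 := kappa_lemma _ _ _ _ him (fun κ h0 h1 => hlf y hy κ h0 h1)
      rw [rp_conj1_j6192, rp_conj1_j6192, Complex.mul_conj, Complex.mul_conj, Complex.normSq_eq_norm_sq,
        Complex.normSq_eq_norm_sq, h1, sub_self]
  have hdich : ∀ x : H,
      ⟪x, (T * T) x⟫_ℂ * ⟪x, star T x⟫_ℂ * ⟪x, star T x⟫_ℂ -
        ⟪x, (star T * star T) x⟫_ℂ * ⟪x, T x⟫_ℂ * ⟪x, T x⟫_ℂ = 0 ∨
      ⟪x, Z x⟫_ℂ * ⟪x, star Z x⟫_ℂ - ⟪x, T x⟫_ℂ * ⟪x, star T x⟫_ℂ = 0 := by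
    intro x
    by_cases hx : x = 0
    · right; rw [hx]; simp
    · obtain ⟨r, y, hr, hy, rfl⟩ := rc_unit_j6192 hx
      rcases hu y hy with h1 | h1
      · left
        simp only [rc_hom_j6192]
        linear_combination ((r : ℂ) ^ 2) ^ 3 * h1
      · right
        simp only [rc_hom_j6192]
        linear_combination ((r : ℂ) ^ 2) ^ 2 * h1
  have hRP1 : RP (fun x : H => ⟪x, (T * T) x⟫_ℂ * ⟪x, star T x⟫_ℂ * ⟪x, star T x⟫_ℂ -
        ⟪x, (star T * star T) x⟫_ℂ * ⟪x, T x⟫_ℂ * ⟪x, T x⟫_ℂ) :=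
    RP_sub (RP_mul (RP_mul (RP_form _) (RP_form _)) (RP_form _))
      (RP_mul (RP_mul (RP_form _) (RP_form _)) (RP_form _))
  have hRP2 : RP (fun x : H => ⟪x, Z x⟫_ℂ * ⟪x, star Z x⟫_ℂ - ⟪x, T x⟫_ℂ * ⟪x, star T x⟫_ℂ) :=
    RP_sub (RP_mul (RP_form _) (RP_form _)) (RP_mul (RP_form _) (RP_form _))
  rcases RP_mul_zero hRP1 hRP2 hdich with hA | hB
  · have hre : ∀ x : H, (⟪x, T (T x)⟫_ℂ * (starRingEnd ℂ) ⟪x, T x⟫_ℂ ^ 2).im = 0 := by
      intro x
      have h1 := hA x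
      have e1 : (T * T) x = T (T x) := rfl
      have e2 : (star T * star T) x = star T (star T x) := rfl
      rw [e1, e2, rp_conj1_j6192, rp_conj2_j6192] at h1
      rw [← Complex.conj_eq_iff_im, map_mul, map_pow, Complex.conj_conj]
      linear_combination -h1
    rcases real_phase T hre with hTT | hcA
    · -- T T = 0
      have hq : ∀ x : H, ⟪x, T (T x)⟫_ℂ = 0 := by
        intro x
        have e1 : (T * T) x = T (T x) := rfl
        rw [← e1, hTT]; simp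
      have k0 : ∀ y : H, ‖y‖ = 1 → ‖⟪y, Z y⟫_ℂ‖ ^ 2 + ‖⟪y, Z (Z y)⟫_ℂ‖ = ‖⟪y, T y⟫_ℂ‖ ^ 2 := by
        intro y hy
        have h1 := hlf y hy 0 le_rfl zero_le_one
        rw [hq y] at h1
        simpa using h1
      have k1 : ∀ y : H, ‖y‖ = 1 →
          ‖⟪y, Z (Z y)⟫_ℂ - ⟪y, Z y⟫_ℂ ^ 2‖ = ‖⟪y, Z (Z y)⟫_ℂ‖ + ‖⟪y, Z y⟫_ℂ‖ ^ 2 := by
        intro y hy
        have h1 := hlf y hy 1 zero_le_one le_rfl
        rw [hq y] at h1
        have h2 := k0 y hy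
        have h3 : ‖⟪y, Z (Z y)⟫_ℂ - ⟪y, Z y⟫_ℂ ^ 2‖ = ‖⟪y, T y⟫_ℂ‖ ^ 2 := by simpa using h1
        rw [h3]; linarith
      have hreZ : ∀ x : H, (⟪x, Z (Z x)⟫_ℂ * (starRingEnd ℂ) ⟪x, Z x⟫_ℂ ^ 2).im = 0 := by
        intro x
        by_cases hx : x = 0
        · rw [hx]; simp
        · obtain ⟨r, y, hr, hy, rfl⟩ := rc_unit_j6192 hx
          have h1 := (rc_tri_j6192 _ _ (k1 y hy)).2
          have e1 : ⟪(r : ℂ) • y, Z (Z ((r : ℂ) • y))⟫_ℂ = (r : ℂ) ^ 2 * ⟪y, Z (Z y)⟫_ℂ :=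
            rc_hom_j6192 (Z * Z) r y
          rw [e1, rc_hom_j6192, map_mul, map_pow, Complex.conj_ofReal]
          have e2 : (r : ℂ) ^ 2 * ⟪y, Z (Z y)⟫_ℂ * ((r : ℂ) ^ 2 * (starRingEnd ℂ) ⟪y, Z y⟫_ℂ) ^ 2 =
              ((r ^ 6 : ℝ) : ℂ) * (⟪y, Z (Z y)⟫_ℂ * (starRingEnd ℂ) ⟪y, Z y⟫_ℂ ^ 2) := by
            push_cast; ring
          rw [e2, Complex.im_ofReal_mul, h1, mul_zero]
      rcases real_phase Z hreZ with hZZ | ⟨c, A, hAsa, hZ⟩
      · right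
        apply parallel_form Z T
        apply rc_norm_j6192
        intro y hy
        have h1 := k0 y hy
        have h2 : ⟪y, Z (Z y)⟫_ℂ = 0 := by
          have e1 : (Z * Z) y = Z (Z y) := rfl
          rw [← e1, hZZ]; simp
        rw [h2, norm_zero, add_zero] at h1
        exact (pow_left_inj₀ (norm_nonneg _) (norm_nonneg _) two_ne_zero).mp h1
      · left
        -- Z = c A, so Z = 0
        have hs0 : ∀ y : H, ‖y‖ = 1 → ⟪y, Z y⟫_ℂ = 0 := by
          intro y hy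
          obtain ⟨h1, h2⟩ := rc_tri_j6192 _ _ (k1 y hy)
          obtain ⟨α, hα⟩ : ∃ α : ℝ, ⟪y, A y⟫_ℂ = (α : ℂ) := by
            have h3 : (starRingEnd ℂ) ⟪y, A y⟫_ℂ = ⟪y, A y⟫_ℂ := by
              rw [inner_conj_symm, rc_sa_j6192 hAsa]
            exact ⟨_, (Complex.conj_eq_iff_re.mp h3).symm⟩
          have e1 : ⟪y, Z y⟫_ℂ = c * (α : ℂ) := by
            rw [hZ, ContinuousLinearMap.smul_apply, inner_smul_right, hα]
          have e2 : ⟪y, Z (Z y)⟫_ℂ = c ^ 2 * ((‖A y‖ ^ 2 : ℝ) : ℂ) := by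
            have e0 : ⟪A y, A y⟫_ℂ = ((‖A y‖ ^ 2 : ℝ) : ℂ) := by
              rw [inner_self_eq_norm_sq_to_K]; push_cast; rfl
            rw [hZ, ContinuousLinearMap.smul_apply, ContinuousLinearMap.smul_apply, map_smul,
              inner_smul_right, inner_smul_right, rc_sa_j6192 hAsa, e0]
            ring
          by_contra hne
          have hc0 : c ≠ 0 := by rintro rfl; apply hne; rw [e1, zero_mul]
          have hα0 : (α : ℂ) ≠ 0 := by intro h3; apply hne; rw [e1, h3, mul_zero]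
          have hAy : A y ≠ 0 := by
            intro h3
            rw [h3, inner_zero_right] at hα
            exact hα0 hα.symm
          have e3 : ⟪y, Z (Z y)⟫_ℂ * (starRingEnd ℂ) ⟪y, Z y⟫_ℂ ^ 2 =
              (((‖c‖ ^ 2) ^ 2 * ‖A y‖ ^ 2 * α ^ 2 : ℝ) : ℂ) := by
            rw [e1, e2, map_mul, Complex.conj_ofReal]
            have e4 : c * (starRingEnd ℂ) c = ((‖c‖ ^ 2 : ℝ) : ℂ) := by
              rw [Complex.mul_conj, Complex.normSq_eq_norm_sq]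
            push_cast at e4 ⊢
            linear_combination (((‖A y‖ : ℝ) : ℂ) ^ 2 * (α : ℂ) ^ 2) *
              (c * (starRingEnd ℂ) c + ((‖c‖ : ℝ) : ℂ) ^ 2) * e4
          rw [e3, Complex.ofReal_re] at h1
          have p1 : 0 < ‖c‖ := norm_pos_iff.mpr hc0
          have p2 : 0 < ‖A y‖ := norm_pos_iff.mpr hAy
          have p3 : 0 < α ^ 2 := by
            have : α ≠ 0 := by intro h3; apply hα0; rw [h3]; simp
            positivity
          have p4 : 0 < (‖c‖ ^ 2) ^ 2 * ‖A y‖ ^ 2 * α ^ 2 := by positivity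
          have p5 : 0 ≤ ‖⟪y, Z (Z y)⟫_ℂ‖ * ‖⟪y, Z y⟫_ℂ‖ ^ 2 := by positivity
          linarith
        have hT0 : ∀ y : H, ‖y‖ = 1 → ‖⟪y, T y⟫_ℂ‖ = 0 := by
          have hZ0 : Z = 0 := by
            have hall : ∀ x : H, ⟪x, Z x⟫_ℂ = 0 := by
              intro x
              by_cases hx : x = 0
              · rw [hx, inner_zero_left]
              · obtain ⟨r, y, hr, hy, rfl⟩ := rc_unit_j6192 hx
                rw [rc_hom_j6192, hs0 y hy, mul_zero]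
            rcases form_mul_zero Z Z (fun x => Or.inl (hall x)) with h1 | h1 <;> exact h1
          intro y hy
          have h1 := k0 y hy
          have h2 : ⟪y, Z y⟫_ℂ = 0 := hs0 y hy
          have h3 : ⟪y, Z (Z y)⟫_ℂ = 0 := by rw [hZ0]; simp
          rw [h2, h3, norm_zero] at h1
          have h4 : ‖⟪y, T y⟫_ℂ‖ ^ 2 = 0 := by rw [← h1]; norm_num
          exact (pow_eq_zero_iff two_ne_zero).mp h4
        have hT : T = 0 := by
          have hall : ∀ x : H, ⟪x, T x⟫_ℂ = 0 := by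
            intro x
            by_cases hx : x = 0
            · rw [hx, inner_zero_left]
            · obtain ⟨r, y, hr, hy, rfl⟩ := rc_unit_j6192 hx
              rw [rc_hom_j6192, norm_eq_zero.mp (hT0 y hy), mul_zero]
          rcases form_mul_zero T T (fun x => Or.inl (hall x)) with h1 | h1 <;> exact h1
        exact ⟨1, 0, IsSelfAdjoint.zero _, by rw [hT, smul_zero]⟩
    · exact Or.inl hcA
  · right
    apply parallel_form Z T
    intro x
    have h1 := sub_eq_zero.mp (hB x)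
    rw [rp_conj1_j6192, rp_conj1_j6192, Complex.mul_conj, Complex.mul_conj, Complex.normSq_eq_norm_sq,
      Complex.normSq_eq_norm_sq] at h1
    have h2 : ‖⟪x, Z x⟫_ℂ‖ ^ 2 = ‖⟪x, T x⟫_ℂ‖ ^ 2 := by exact_mod_cast h1
    exact (pow_left_inj₀ (norm_nonneg _) (norm_nonneg _) two_ne_zero).mp h2


end e1


end j6192

-- part 6260
section j6260
section srbasic
variable {X : Type*} [NormedAddCommGroup X] [NormedSpace ℂ X]

theorem sr_nonneg_j6260 (T : X →L[ℂ] X) : 0 ≤ sr T := ENNReal.toReal_nonneg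

variable [CompleteSpace X]

end srbasic

section sk
variable {H : Type*} [NormedAddCommGroup H] [InnerProductSpace ℂ H] [CompleteSpace H]


end sk

section RPs
variable {E : Type*} [AddCommGroup E] [Module ℂ E]

end RPs

section forms
variable {H : Type*} [NormedAddCommGroup H] [InnerProductSpace ℂ H]


end forms

section e1
variable {H : Type*} [NormedAddCommGroup H] [InnerProductSpace ℂ H] [CompleteSpace H]


omit [CompleteSpace H] in
theorem scalar_of_prod_RP_j6260 {E : Type*} [AddCommGroup E] [Module ℂ E] (f g : E →ₗ[ℂ] H) :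
    RP (fun v => ⟪f v, g v⟫_ℂ) := by
  intro x y
  refine ⟨Polynomial.C ⟪f x, g x⟫_ℂ + Polynomial.C (⟪f y, g x⟫_ℂ + ⟪f x, g y⟫_ℂ) * Polynomial.X +
    Polynomial.C ⟪f y, g y⟫_ℂ * Polynomial.X ^ 2, fun t => ?_⟩
  simp only [map_add, map_smul, inner_add_left, inner_add_right, inner_smul_left, inner_smul_right,
    Polynomial.eval_add, Polynomial.eval_mul, Polynomial.eval_C, Polynomial.eval_X,
    Polynomial.eval_pow, Complex.conj_ofReal]
  ring

theorem scalar_of_prod_one_j6260 (A : H →L[ℂ] H)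
    (h : ∀ v : H × H, ⟪v.1, v.1⟫_ℂ * ⟪v.2, A v.1⟫_ℂ - ⟪v.2, v.1⟫_ℂ * ⟪v.1, A v.1⟫_ℂ = 0) :
    ∃ c : ℂ, A = c • 1 := by
  apply scalar_of_orth
  intro x y hxy
  have := h (x, y)
  simp only at this
  rw [hxy, zero_mul, sub_zero] at this
  rcases mul_eq_zero.1 this with h1 | h1
  · have : x = 0 := inner_self_eq_zero.1 h1
    rw [this, map_zero, inner_zero_right]
  · exact h1

/-- if three (conjugate) linear forms have product zero on `x^⊥` for every `x`, one of the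
operators is scalar -/
theorem scalar_of_prod (E A B : H →L[ℂ] H)
    (h : ∀ x y : H, ⟪y, x⟫_ℂ = 0 → ⟪y, E x⟫_ℂ = 0 ∨ ⟪y, A x⟫_ℂ = 0 ∨ ⟪y, B x⟫_ℂ = 0) :
    (∃ c : ℂ, E = c • 1) ∨ (∃ c : ℂ, A = c • 1) ∨ (∃ c : ℂ, B = c • 1) := by
  have hRP : ∀ A : H →L[ℂ] H, RP (fun v : H × H =>
      ⟪v.1, v.1⟫_ℂ * ⟪v.2, A v.1⟫_ℂ - ⟪v.2, v.1⟫_ℂ * ⟪v.1, A v.1⟫_ℂ) := by
    intro A
    have h1 := scalar_of_prod_RP_j6260 (H := H) (LinearMap.fst ℂ H H) (LinearMap.fst ℂ H H)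
    have h2 := scalar_of_prod_RP_j6260 (H := H) (LinearMap.snd ℂ H H)
      ((A : H →ₗ[ℂ] H) ∘ₗ LinearMap.fst ℂ H H)
    have h3 := scalar_of_prod_RP_j6260 (H := H) (LinearMap.snd ℂ H H) (LinearMap.fst ℂ H H)
    have h4 := scalar_of_prod_RP_j6260 (H := H) (LinearMap.fst ℂ H H)
      ((A : H →ₗ[ℂ] H) ∘ₗ LinearMap.fst ℂ H H)
    exact RP_sub (RP_mul h1 h2) (RP_mul h3 h4)
  have key : ∀ v : H × H,
      (⟪v.1, v.1⟫_ℂ * ⟪v.2, E v.1⟫_ℂ - ⟪v.2, v.1⟫_ℂ * ⟪v.1, E v.1⟫_ℂ = 0) ∨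
      ((⟪v.1, v.1⟫_ℂ * ⟪v.2, A v.1⟫_ℂ - ⟪v.2, v.1⟫_ℂ * ⟪v.1, A v.1⟫_ℂ) *
      (⟪v.1, v.1⟫_ℂ * ⟪v.2, B v.1⟫_ℂ - ⟪v.2, v.1⟫_ℂ * ⟪v.1, B v.1⟫_ℂ) = 0) := by
    rintro ⟨x, u⟩
    simp only
    have hy : ∀ w : H, ⟪⟪x, x⟫_ℂ • u - ⟪x, u⟫_ℂ • x, w⟫_ℂ = ⟪x, x⟫_ℂ * ⟪u, w⟫_ℂ - ⟪u, x⟫_ℂ * ⟪x, w⟫_ℂ := by
      intro w
      rw [inner_sub_left, inner_smul_left, inner_smul_left, inner_conj_symm, inner_conj_symm]
    have h0 := h x (⟪x, x⟫_ℂ • u - ⟪x, u⟫_ℂ • x) (by rw [hy]; ring)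
    rw [hy, hy, hy] at h0
    rcases h0 with h0 | h0 | h0
    · left; exact h0
    · right; rw [h0, zero_mul]
    · right; rw [h0, mul_zero]
  rcases RP_mul_zero (hRP E) (RP_mul (hRP A) (hRP B)) key with h1 | h1
  · left; exact scalar_of_prod_one_j6260 E h1
  · right
    rcases RP_mul_zero (hRP A) (hRP B) (fun v => mul_eq_zero.1 (h1 v)) with h2 | h2
    · left; exact scalar_of_prod_one_j6260 A h2
    · right; exact scalar_of_prod_one_j6260 B h2

/-- the key polynomial identity implies normality -/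
theorem normal_of_identity (T : H →L[ℂ] H) (c : ℂ) (hc : ‖c‖ = 1) (hc' : c.im ≠ 0) (σ : ℂ)
    (hσ : σ = 1 ∨ σ = -1) (D E F : H →L[ℂ] H)
    (hD : D = star T * T - T * star T)
    (hF : F = (σ / (2 * Complex.I)) • (T - star T))
    (hE : E = (1 / (2 * Complex.I)) • ((starRingEnd ℂ) c • T - c • star T) - F)
    (h : ∀ x : H, ⟪x, x⟫_ℂ ^ 2 * ⟪x, D x⟫_ℂ ^ 2 = 4 * ⟪x, E x⟫_ℂ * (⟪x, x⟫_ℂ * ⟪x, D x⟫_ℂ * ⟪x, F x⟫_ℂ +
      ⟪x, E x⟫_ℂ * (⟪x, x⟫_ℂ * ⟪x, (star T * T) x⟫_ℂ - ⟪x, T x⟫_ℂ * ⟪x, star T x⟫_ℂ))) :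
    T * star T = star T * T := by
  have hpol := polarize (Finset.univ : Finset (Fin 4)) 4 ![1, -4, -4, 4]
    ![![1, 1, D, D], ![E, 1, D, F], ![E, E, 1, star T * T], ![E, E, T, star T]] (by
      intro x
      simp only [Fin.sum_univ_four, Fin.prod_univ_four, Matrix.cons_val, 
        one_apply_eq_self]
      linear_combination h x)
  simp only [Fin.sum_univ_four, Fin.prod_univ_four, Matrix.cons_val,
        one_apply_eq_self] at hpol
  have h3 : ∀ x y : H, ⟪y, x⟫_ℂ = 0 → ⟪y, E x⟫_ℂ = 0 ∨ ⟪y, T x⟫_ℂ = 0 ∨ ⟪y, star T x⟫_ℂ = 0 := by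
    intro x y hxy
    have := hpol x y
    rw [hxy] at this
    have h4 : ⟪y, E x⟫_ℂ * ⟪y, E x⟫_ℂ * ⟪y, T x⟫_ℂ * ⟪y, star T x⟫_ℂ = 0 := by
      linear_combination this / 4
    rcases mul_eq_zero.1 h4 with h4 | h4
    · rcases mul_eq_zero.1 h4 with h4 | h4
      · left; exact mul_self_eq_zero.1 h4
      · right; left; exact h4
    · right; right; exact h4
  rcases scalar_of_prod E T (star T) h3 with ⟨e, he⟩ | ⟨e, he⟩ | ⟨e, he⟩
  · have hcσ : c - σ ≠ 0 := by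
      intro h0
      apply hc'
      have : c = σ := sub_eq_zero.1 h0
      rcases hσ with hσ | hσ <;> rw [this, hσ] <;> simp
    have h5 : (c - σ) • star T = ((starRingEnd ℂ) c - σ) • T - (2 * Complex.I * e) • 1 := by
      have h6 : (2 * Complex.I) • E = (2 * Complex.I * e) • (1 : H →L[ℂ] H) := by
        rw [he, smul_smul]
      rw [← h6, hE, hF, smul_sub, smul_smul, smul_smul]
      have e1 : 2 * Complex.I * (1 / (2 * Complex.I)) = 1 := by
        field_simp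
      have e2 : 2 * Complex.I * (σ / (2 * Complex.I)) = σ := by
        field_simp
      rw [e1, e2]
      module
    have h6 : star T = ((c - σ)⁻¹ * ((starRingEnd ℂ) c - σ)) • T -
        ((c - σ)⁻¹ * (2 * Complex.I * e)) • 1 := by
      rw [← smul_smul, ← smul_smul, ← smul_sub, ← h5, smul_smul, inv_mul_cancel₀ hcσ, one_smul]
    rw [h6]
    simp only [mul_sub, sub_mul, mul_smul_comm, smul_mul_assoc, mul_one, one_mul]
  · rw [he]; simp only [star_smul, star_one, smul_mul_assoc, mul_smul_comm, mul_one]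
    rw [smul_comm]
  · have h7 : T = (starRingEnd ℂ) e • 1 := by
      rw [← star_star T, he, star_smul, star_one]; rfl
    rw [he, h7]; simp only [smul_mul_assoc, mul_smul_comm, mul_one]
    rw [smul_comm]

theorem right_beta_real_j6260 {n1 n2 p q p' q' s s' : ℝ} (h1 : s ^ 2 = n1 - p ^ 2)
    (h2 : s' ^ 2 = n2 - p' ^ 2) (h3 : p ^ 2 + q ^ 2 = p' ^ 2 + q' ^ 2)
    (h4 : |q| + s = |q'| + s') : ∃ σ : ℝ, (σ = 1 ∨ σ = -1) ∧
      (n1 - n2) ^ 2 = 4 * (-q' - σ * q) * ((n1 - n2) * (σ * q) + (-q' - σ * q) *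
        (n1 - (p ^ 2 + q ^ 2))) := by
  have hν : n1 - n2 = s ^ 2 - s' ^ 2 - q ^ 2 + q' ^ 2 := by linarith
  have hn : n1 - (p ^ 2 + q ^ 2) = s ^ 2 - q ^ 2 := by linarith
  rw [hν, hn]
  rcases abs_choice q with hq | hq <;> rcases abs_choice q' with hq' | hq' <;>
    rw [hq, hq'] at h4
  · obtain rfl : s' = s + q - q' := by linarith
    exact ⟨-1, Or.inr rfl, by ring⟩
  · obtain rfl : s' = s + q + q' := by linarith
    exact ⟨1, Or.inl rfl, by ring⟩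
  · obtain rfl : s' = s - q - q' := by linarith
    exact ⟨1, Or.inl rfl, by ring⟩
  · obtain rfl : s' = s - q + q' := by linarith
    exact ⟨-1, Or.inr rfl, by ring⟩

theorem right_beta_abs_j6260 {n1 n2 p q p' q' s s' : ℝ} (hs : 0 ≤ s) (hs' : 0 ≤ s')
    (h1 : s ^ 2 = n1 - p ^ 2)
    (h2 : s' ^ 2 = n2 - p' ^ 2) (h3 : p ^ 2 + q ^ 2 = p' ^ 2 + q' ^ 2)
    (h4 : |q| + s = |q'| + s') (h5 : n1 = n2) : |q| = |q'| := by
  have h6 : |q| ^ 2 = q ^ 2 := sq_abs q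
  have h7 : |q'| ^ 2 = q' ^ 2 := sq_abs q'
  have h8 : (|q| + s) * (|q| - |q'|) = 0 := by
    have : s' = |q| + s - |q'| := by linarith
    rw [this] at h2
    linear_combination (h2 - h1 - h5 + h3 + h6 - h7) / 2
  rcases mul_eq_zero.1 h8 with h | h
  · have a1 := abs_nonneg q
    have a2 := abs_nonneg q'
    have : |q| = 0 := by linarith
    have : |q'| = 0 := by linarith
    linarith
  · linarith

theorem right_beta_conj_j6260 (z : ℂ) : (starRingEnd ℂ) z = (z.re : ℂ) - z.im * Complex.I := by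
  apply Complex.ext <;> simp

/-- data at a unit vector -/
theorem right_beta_data_j6260 (T : H →L[ℂ] H) (c : ℂ) (hc : ‖c‖ = 1) (x : H) (hx : ‖x‖ = 1)
    (h : SK (c • star T) (ro x x) = SK T (ro x x)) :
    ∃ p q p' q' n1 n2 s s' : ℝ, ⟪x, T x⟫_ℂ = (p : ℂ) + q * Complex.I ∧
      ⟪x, star T x⟫_ℂ = (p : ℂ) - q * Complex.I ∧
      c * ⟪x, star T x⟫_ℂ = (p' : ℂ) + q' * Complex.I ∧
      (starRingEnd ℂ) c * ⟪x, T x⟫_ℂ = (p' : ℂ) - q' * Complex.I ∧
      ⟪x, (star T * T) x⟫_ℂ = (n1 : ℂ) ∧ ⟪x, (T * star T) x⟫_ℂ = (n2 : ℂ) ∧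
      0 ≤ s ∧ 0 ≤ s' ∧ s ^ 2 = n1 - p ^ 2 ∧ s' ^ 2 = n2 - p' ^ 2 ∧
      p ^ 2 + q ^ 2 = p' ^ 2 + q' ^ 2 ∧ |q| + s = |q'| + s' := by
  have hconj : ⟪x, star T x⟫_ℂ = (starRingEnd ℂ) ⟪x, T x⟫_ℂ := by
    rw [ContinuousLinearMap.star_eq_adjoint, ContinuousLinearMap.adjoint_inner_right,
      inner_conj_symm]
  have hn1 : ⟪x, (star T * T) x⟫_ℂ = ((‖T x‖ ^ 2 : ℝ) : ℂ) := by
    rw [mul_apply_eq_comp, ContinuousLinearMap.star_eq_adjoint,
      ContinuousLinearMap.adjoint_inner_right, inner_self_eq_norm_sq_to_K]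
    push_cast; rfl
  have hn2 : ⟪x, (T * star T) x⟫_ℂ = ((‖star T x‖ ^ 2 : ℝ) : ℂ) := by
    rw [mul_apply_eq_comp, ContinuousLinearMap.star_eq_adjoint,
      ← ContinuousLinearMap.adjoint_inner_left, inner_self_eq_norm_sq_to_K]
    push_cast; rfl
  rw [SK_proj_right _ x hx, SK_proj_right _ x hx] at h
  have hcx : ⟪x, (c • star T) x⟫_ℂ = c * ⟪x, star T x⟫_ℂ := by
    rw [smul_apply, inner_smul_right]
  have hnc : ‖(c • star T) x‖ = ‖star T x‖ := by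
    rw [smul_apply, norm_smul, hc, one_mul]
  rw [hcx, hnc] at h
  have hb1 : (⟪x, T x⟫_ℂ).re ^ 2 ≤ ‖T x‖ ^ 2 := by
    have h1 : |(⟪x, T x⟫_ℂ).re| ≤ ‖T x‖ := by
      calc |(⟪x, T x⟫_ℂ).re| ≤ ‖⟪x, T x⟫_ℂ‖ := Complex.abs_re_le_norm _
        _ ≤ ‖x‖ * ‖T x‖ := norm_inner_le_norm _ _
        _ = ‖T x‖ := by rw [hx, one_mul]
    rw [← sq_abs]
    exact pow_le_pow_left₀ (abs_nonneg _) h1 2
  have hb2 : (c * ⟪x, star T x⟫_ℂ).re ^ 2 ≤ ‖star T x‖ ^ 2 := by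
    have h1 : |(c * ⟪x, star T x⟫_ℂ).re| ≤ ‖star T x‖ := by
      calc |(c * ⟪x, star T x⟫_ℂ).re| ≤ ‖c * ⟪x, star T x⟫_ℂ‖ := Complex.abs_re_le_norm _
        _ = ‖⟪x, star T x⟫_ℂ‖ := by rw [norm_mul, hc, one_mul]
        _ ≤ ‖x‖ * ‖star T x‖ := norm_inner_le_norm _ _
        _ = ‖star T x‖ := by rw [hx, one_mul]
    rw [← sq_abs]
    exact pow_le_pow_left₀ (abs_nonneg _) h1 2
  refine ⟨(⟪x, T x⟫_ℂ).re, (⟪x, T x⟫_ℂ).im, (c * ⟪x, star T x⟫_ℂ).re, (c * ⟪x, star T x⟫_ℂ).im,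
    ‖T x‖ ^ 2, ‖star T x‖ ^ 2, Real.sqrt (‖T x‖ ^ 2 - (⟪x, T x⟫_ℂ).re ^ 2),
    Real.sqrt (‖star T x‖ ^ 2 - (c * ⟪x, star T x⟫_ℂ).re ^ 2), (Complex.re_add_im _).symm, ?_,
    (Complex.re_add_im _).symm, ?_, hn1, hn2, Real.sqrt_nonneg _, Real.sqrt_nonneg _,
    Real.sq_sqrt (by linarith), Real.sq_sqrt (by linarith), ?_, h.symm⟩
  · rw [hconj, right_beta_conj_j6260]
  · have : (starRingEnd ℂ) c * ⟪x, T x⟫_ℂ = (starRingEnd ℂ) (c * ⟪x, star T x⟫_ℂ) := by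
      rw [hconj, map_mul, Complex.conj_conj]
    rw [this, right_beta_conj_j6260]
  · have h1 : Complex.normSq (c * ⟪x, star T x⟫_ℂ) = Complex.normSq (⟪x, T x⟫_ℂ) := by
      rw [Complex.normSq_mul, hconj, Complex.normSq_conj, Complex.normSq_eq_norm_sq, hc]
      ring
    rw [Complex.normSq_apply, Complex.normSq_apply] at h1
    linarith [h1]

/-- right slot tests, second case -/
theorem right_beta (T : H →L[ℂ] H) (c : ℂ) (hc : ‖c‖ = 1)
    (h : ∀ x : H, ‖x‖ = 1 → SK (c • star T) (ro x x) = SK T (ro x x)) :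
    c • star T = T ∨ c • star T = -T ∨ c • star T = star T ∨ c • star T = -star T := by
  by_cases hci : c.im = 0
  · have hre : c.re ^ 2 = 1 := by
      have := Complex.sq_norm c
      rw [hc, Complex.normSq_apply, hci] at this
      nlinarith
    have hcr : c = (c.re : ℂ) := by
      apply Complex.ext <;> simp [hci]
    rcases (mul_self_eq_one_iff.1 ((sq c.re).symm.trans hre)) with h1 | h1
    · right; right; left
      rw [hcr, h1]; simp
    · right; right; right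
      rw [hcr, h1]; simp
  · -- the two polynomial functions
    have hunit : ∀ x : H, x ≠ 0 → ∃ (r : ℝ) (u : H), ‖u‖ = 1 ∧ x = (r : ℂ) • u := by
      intro x hx
      have hn : ‖x‖ ≠ 0 := norm_ne_zero_iff.2 hx
      refine ⟨‖x‖, ((‖x‖⁻¹ : ℝ) : ℂ) • x, ?_, ?_⟩
      · rw [norm_smul, Complex.norm_real, Real.norm_eq_abs, abs_inv, abs_norm, inv_mul_cancel₀ hn]
      · rw [smul_smul, ← Complex.ofReal_mul, mul_inv_cancel₀ hn]; simp
    let D : H →L[ℂ] H := star T * T - T * star T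
    let F : ℂ → (H →L[ℂ] H) := fun σ => (σ / (2 * Complex.I)) • (T - star T)
    let E : ℂ → (H →L[ℂ] H) := fun σ =>
      (1 / (2 * Complex.I)) • ((starRingEnd ℂ) c • T - c • star T) - F σ
    let G : ℂ → H → ℂ := fun σ x => ⟪x, x⟫_ℂ ^ 2 * ⟪x, D x⟫_ℂ ^ 2 - 4 * ⟪x, E σ x⟫_ℂ *
      (⟪x, x⟫_ℂ * ⟪x, D x⟫_ℂ * ⟪x, F σ x⟫_ℂ +
      ⟪x, E σ x⟫_ℂ * (⟪x, x⟫_ℂ * ⟪x, (star T * T) x⟫_ℂ - ⟪x, T x⟫_ℂ * ⟪x, star T x⟫_ℂ))
    have hGRP : ∀ σ, RP (G σ) := by
      intro σ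
      have q0 : RP (fun x : H => ⟪x, x⟫_ℂ) := scalar_of_prod_RP_j6260 LinearMap.id LinearMap.id
      have e1 : G σ = fun x => (⟪x, x⟫_ℂ * ⟪x, x⟫_ℂ) * (⟪x, D x⟫_ℂ * ⟪x, D x⟫_ℂ) - (4 * ⟪x, E σ x⟫_ℂ) *
        (⟪x, x⟫_ℂ * ⟪x, D x⟫_ℂ * ⟪x, F σ x⟫_ℂ +
        ⟪x, E σ x⟫_ℂ * (⟪x, x⟫_ℂ * ⟪x, (star T * T) x⟫_ℂ - ⟪x, T x⟫_ℂ * ⟪x, star T x⟫_ℂ)) := by
        funext x
        simp only [G, pow_two]
      rw [e1]
      exact RP_sub (RP_mul (RP_mul q0 q0) (RP_mul (RP_form D) (RP_form D)))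
        (RP_mul (RP_mul (RP_const 4) (RP_form (E σ)))
          (RP_add (RP_mul (RP_mul q0 (RP_form D)) (RP_form (F σ)))
            (RP_mul (RP_form (E σ)) (RP_sub (RP_mul q0 (RP_form (star T * T)))
              (RP_mul (RP_form T) (RP_form (star T)))))))
    have hGhom : ∀ σ (r : ℝ) (u : H), G σ ((r : ℂ) • u) = (r : ℂ) ^ 8 * G σ u := by
      intro σ r u
      simp only [G, map_smul, inner_smul_left, inner_smul_right, Complex.conj_ofReal]
      ring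
    have hG : ∀ x, G 1 x = 0 ∨ G (-1) x = 0 := by
      intro x
      by_cases hx0 : x = 0
      · left; simp [G, hx0]
      obtain ⟨r, u, hu, rfl⟩ := hunit x hx0
      obtain ⟨p, q, p', q', n1, n2, s, s', h1, h2, h3, h4, h5, h6, h7, h8, h9, h10, h11, h12⟩ :=
        right_beta_data_j6260 T c hc u hu (h u hu)
      obtain ⟨σ, hσ, hkey⟩ := right_beta_real_j6260 h9 h10 h11 h12
      have huu : ⟪u, u⟫_ℂ = 1 := by rw [inner_self_eq_norm_sq_to_K, hu]; simp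
      have hDu : ⟪u, D u⟫_ℂ = (n1 : ℂ) - n2 := by
        simp only [D, sub_apply, inner_sub_right, h5, h6]
      have hFu : ⟪u, F (σ : ℂ) u⟫_ℂ = (σ : ℂ) * q := by
        simp only [F, smul_apply, sub_apply, inner_sub_right, inner_smul_right, h1, h2]
        field_simp
        ring
      have hEu : ⟪u, E (σ : ℂ) u⟫_ℂ = -(q' : ℂ) - σ * q := by
        simp only [E, smul_apply, sub_apply, inner_sub_right, inner_smul_right, hFu]
        rw [h4, h3]
        field_simp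
        ring
      have hGu : G (σ : ℂ) u = 0 := by
        simp only [G, huu, hDu, hFu, hEu, h5, h1, h2]
        have hk2 : (((n1 - n2) ^ 2 : ℝ) : ℂ) = ((4 * (-q' - σ * q) * ((n1 - n2) * (σ * q) +
          (-q' - σ * q) * (n1 - (p ^ 2 + q ^ 2))) : ℝ) : ℂ) := by rw [hkey]
        push_cast at hk2
        linear_combination hk2 - 4 * (-(q' : ℂ) - σ * q) ^ 2 * (q : ℂ) ^ 2 * Complex.I_sq
      rcases hσ with hσ | hσ
      · left
        rw [hGhom]
        rw [hσ, Complex.ofReal_one] at hGu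
        rw [hGu, mul_zero]
      · right
        rw [hGhom]
        rw [hσ, Complex.ofReal_neg, Complex.ofReal_one] at hGu
        rw [hGu, mul_zero]
    have hnorm : T * star T = star T * T := by
      rcases RP_mul_zero (hGRP 1) (hGRP (-1)) hG with hG | hG
      · exact normal_of_identity T c hc hci 1 (Or.inl rfl) D (E 1) (F 1) rfl rfl rfl
          (fun x => sub_eq_zero.1 (hG x))
      · exact normal_of_identity T c hc hci (-1) (Or.inr rfl) D (E (-1)) (F (-1)) rfl rfl rfl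
          (fun x => sub_eq_zero.1 (hG x))
    have h4' : ∀ x : H, ⟪x, (c • star T - T) x⟫_ℂ = 0 ∨ ⟪x, (c • star T + T) x⟫_ℂ = 0 ∨
        ⟪x, (c • star T - star T) x⟫_ℂ = 0 ∨ ⟪x, (c • star T + star T) x⟫_ℂ = 0 := by
      intro x
      by_cases hx0 : x = 0
      · left; simp [hx0]
      obtain ⟨r, u, hu, rfl⟩ := hunit x hx0
      obtain ⟨p, q, p', q', n1, n2, s, s', h1, h2, h3, h4, h5, h6, h7, h8, h9, h10, h11, h12⟩ :=
        right_beta_data_j6260 T c hc u hu (h u hu)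
      have hn12 : n1 = n2 := by
        have : (n1 : ℂ) = n2 := by rw [← h5, ← h6, hnorm]
        exact_mod_cast this
      have habs := right_beta_abs_j6260 h7 h8 h9 h10 h11 h12 hn12
      have hq : q = q' ∨ q = -q' := abs_eq_abs.1 habs
      have hp : p = p' ∨ p = -p' := by
        apply sq_eq_sq_iff_eq_or_eq_neg.1
        rcases hq with hq | hq <;> rw [hq] at h11 <;> linarith
      have hsm : ∀ A : H →L[ℂ] H, ⟪u, A u⟫_ℂ = 0 → ⟪(r : ℂ) • u, A ((r : ℂ) • u)⟫_ℂ = 0 := by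
        intro A hA
        rw [map_smul, inner_smul_left, inner_smul_right, hA]; simp
      have hcu : ⟪u, (c • star T) u⟫_ℂ = (p' : ℂ) + q' * Complex.I := by
        rw [smul_apply, inner_smul_right, h3]
      rcases hp with hp | hp <;> rcases hq with hq | hq
      · left; apply hsm
        rw [sub_apply, inner_sub_right, hcu, h1, hp, hq]; ring
      · right; right; left; apply hsm
        rw [sub_apply, inner_sub_right, hcu, h2, hp, hq]; push_cast; ring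
      · right; right; right; apply hsm
        rw [add_apply, inner_add_right, hcu, h2, hp, hq]; push_cast; ring
      · right; left; apply hsm
        rw [add_apply, inner_add_right, hcu, h1, hp, hq]; push_cast; ring
    rcases form_mul_zero4 _ _ _ _ h4' with h1 | h1 | h1 | h1
    · left; exact sub_eq_zero.1 h1
    · right; left; exact eq_neg_of_add_eq_zero_left h1
    · right; right; left; exact sub_eq_zero.1 h1
    · right; right; right; exact eq_neg_of_add_eq_zero_left h1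

end e1


end j6260

-- part 6283
section j6283
section srbasic
variable {X : Type*} [NormedAddCommGroup X] [NormedSpace ℂ X]

theorem sr_nonneg_j6283 (T : X →L[ℂ] X) : 0 ≤ sr T := ENNReal.toReal_nonneg

variable [CompleteSpace X]

end srbasic

section sk
variable {H : Type*} [NormedAddCommGroup H] [InnerProductSpace ℂ H] [CompleteSpace H]


end sk

section RPs
variable {E : Type*} [AddCommGroup E] [Module ℂ E]

end RPs

section forms
variable {H : Type*} [NormedAddCommGroup H] [InnerProductSpace ℂ H]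


end forms

section e1
variable {H : Type*} [NormedAddCommGroup H] [InnerProductSpace ℂ H] [CompleteSpace H]


/-- the easy direction: `T` and `T*` are equivalent in the left slot -/
theorem SK_star_left_of_line (A : H →L[ℂ] H) (hA : IsSelfAdjoint A) (l : ℝ) (S : H →L[ℂ] H) :
    SK (star ((l : ℂ) • 1 + Complex.I • A)) S = SK ((l : ℂ) • 1 + Complex.I • A) S := by
  have e : star ((l : ℂ) • (1 : H →L[ℂ] H) + Complex.I • A) =
      -((l : ℂ) • 1 + Complex.I • A) + ((2 * l : ℝ) : ℂ) • 1 := by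
    rw [star_add, star_smul, star_smul, star_one, hA.star_eq]
    have h1 : star (l : ℂ) = l := Complex.conj_ofReal l
    have h2 : star Complex.I = -Complex.I := Complex.conj_I
    rw [h1, h2]
    push_cast
    rw [two_mul, add_smul, neg_smul]
    abel
  rw [e, SK_add_real, SK_neg]

theorem sk_sr_congr_j6283 {K K' : H →L[ℂ] H} (h : spectrum ℂ K = spectrum ℂ K') : sr K = sr K' := by
  unfold sr spectralRadius
  rw [h]

theorem sk_sr_neg_j6283 (K : H →L[ℂ] H) : sr (-K) = sr K := by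
  have := sr_smul' (-1) K
  rw [neg_one_smul] at this
  rw [this]
  simp

theorem SK_star_left_of_circle (U : H →L[ℂ] H) (hU : U ∈ unitary (H →L[ℂ] H)) (l R : ℝ)
    (S : H →L[ℂ] H) :
    SK (star ((l : ℂ) • 1 + (R : ℂ) • U)) S = SK ((l : ℂ) • 1 + (R : ℂ) • U) S := by
  have h1 : star (l : ℂ) = l := Complex.conj_ofReal l
  have h2 : star (R : ℂ) = R := Complex.conj_ofReal R
  have e : star ((l : ℂ) • (1 : H →L[ℂ] H) + (R : ℂ) • U) = (R : ℂ) • star U + (l : ℂ) • 1 := by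
    rw [star_add, star_smul, star_smul, star_one, h1, h2, add_comm]
  rw [e, SK_add_real, add_comm ((l : ℂ) • (1 : H →L[ℂ] H)), SK_add_real]
  unfold SK
  rw [star_smul, star_smul, star_star, h2, smul_mul_assoc, mul_smul_comm, ← smul_sub,
    smul_mul_assoc, mul_smul_comm, ← smul_sub, sr_smul', sr_smul']
  congr 1
  have hUU : star U * U = 1 := Unitary.star_mul_self_of_mem hU
  have e2 : star U * (U * S - S * star U) * U = -(star U * S - S * U) := by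
    rw [mul_sub, sub_mul, ← mul_assoc (star U) U S, hUU, one_mul, neg_sub,
      ← mul_assoc (star U) S (star U), mul_assoc (star U * S) (star U) U, hUU, mul_one]
  have e3 := Unitary.spectrum_star_left_conjugate (R := ℂ) (a := U * S - S * star U)
    (U := ⟨U, hU⟩)
  have e4 : sr (star U * (U * S - S * star U) * U) = sr (U * S - S * star U) :=
    sk_sr_congr_j6283 e3
  rw [← e4, e2, sk_sr_neg_j6283]

/-- `T` is normal -/
theorem normal_of_SK_star (T : H →L[ℂ] H)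
    (h : ∀ x : H, ‖x‖ = 1 → SK (star T) (ro x x) = SK T (ro x x)) :
    T * star T = star T * T := by
  have hunit : ∀ x : H, ‖x‖ = 1 → ‖T x‖ = ‖(star T) x‖ := by
    intro x hx
    have h1 := h x hx
    rw [SK_proj_right _ x hx, SK_proj_right _ x hx] at h1
    have e : ⟪x, (star T) x⟫_ℂ = (starRingEnd ℂ) ⟪x, T x⟫_ℂ := by
      rw [ContinuousLinearMap.star_eq_adjoint, ContinuousLinearMap.adjoint_inner_right,
        inner_conj_symm]
    rw [e, Complex.conj_im, Complex.conj_re, abs_neg] at h1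
    have h2 := add_left_cancel h1
    have hb : ∀ v : H, (⟪x, T x⟫_ℂ).re ^ 2 ≤ ‖v‖ ^ 2 ∨ True := fun v => Or.inr trivial
    have hb1 : (⟪x, T x⟫_ℂ).re ^ 2 ≤ ‖T x‖ ^ 2 := by
      have h3 : |(⟪x, T x⟫_ℂ).re| ≤ ‖T x‖ := by
        refine (Complex.abs_re_le_norm _).trans ((norm_inner_le_norm x (T x)).trans ?_)
        rw [hx, one_mul]
      rw [← sq_abs]
      exact pow_le_pow_left₀ (abs_nonneg _) h3 2
    have hb2 : (⟪x, T x⟫_ℂ).re ^ 2 ≤ ‖(star T) x‖ ^ 2 := by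
      have h3 : |(⟪x, T x⟫_ℂ).re| ≤ ‖(star T) x‖ := by
        have h4 : (⟪x, T x⟫_ℂ).re = (⟪x, (star T) x⟫_ℂ).re := by
          rw [e, Complex.conj_re]
        rw [h4]
        refine (Complex.abs_re_le_norm _).trans ((norm_inner_le_norm x ((star T) x)).trans ?_)
        rw [hx, one_mul]
      rw [← sq_abs]
      exact pow_le_pow_left₀ (abs_nonneg _) h3 2
    have h5 := (Real.sqrt_inj (by linarith) (by linarith)).1 h2
    have h6 : ‖T x‖ ^ 2 = ‖(star T) x‖ ^ 2 := by linarith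
    exact (pow_left_inj₀ (norm_nonneg _) (norm_nonneg _) two_ne_zero).1 h6
  have hall : ∀ v : H, ‖T v‖ = ‖ContinuousLinearMap.adjoint T v‖ := by
    intro v
    by_cases hv : v = 0
    · rw [hv]
      simp
    · have hn : (‖v‖ : ℝ) ≠ 0 := norm_ne_zero_iff.2 hv
      have h1 := hunit (((‖v‖⁻¹ : ℝ) : ℂ) • v) (by
        rw [norm_smul, Complex.norm_real, norm_inv, norm_norm, inv_mul_cancel₀ hn])
      rw [map_smul, map_smul, norm_smul, norm_smul] at h1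
      have h2 : ‖((‖v‖⁻¹ : ℝ) : ℂ)‖ ≠ 0 := by
        rw [Complex.norm_real, norm_inv, norm_norm]
        exact inv_ne_zero hn
      exact mul_left_cancel₀ h2 h1
  have h3 := ContinuousLinearMap.isStarNormal_iff_norm_eq_adjoint.2 hall
  exact h3.star_comm_self.symm

/-- approximate eigenvectors of a normal operator -/
theorem approx_eig (T : H →L[ℂ] H) (hT : T * star T = star T * T) (a : ℂ)
    (ha : a ∈ spectrum ℂ T) (δ : ℝ) (hδ : 0 < δ) :
    ∃ e : H, ‖e‖ = 1 ∧ ‖T e - a • e‖ ≤ δ ∧ ‖star T e - (starRingEnd ℂ) a • e‖ ≤ δ := by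
  obtain ⟨S, hS⟩ : ∃ S : H →L[ℂ] H, S = T - a • 1 := ⟨_, rfl⟩
  have hstar : star S = star T - (starRingEnd ℂ) a • 1 := by
    rw [hS, star_sub, star_smul, star_one]
    rfl
  have hnorm : IsStarNormal S := by
    constructor
    show star S * S = S * star S
    rw [hstar, hS]
    rw [sub_mul, sub_mul, mul_sub, mul_sub, mul_sub, mul_sub, hT]
    simp only [smul_mul_assoc, mul_smul_comm, one_mul, mul_one]
    rw [smul_comm ((starRingEnd ℂ) a) a]
    abel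
  have hadj := ContinuousLinearMap.isStarNormal_iff_norm_eq_adjoint.1 hnorm
  have hSe : ∀ e, S e = T e - a • e := by
    intro e
    rw [hS]
    rfl
  have hSe' : ∀ e, (star S) e = star T e - (starRingEnd ℂ) a • e := by
    intro e
    rw [hstar]
    rfl
  by_contra hcon
  push Not at hcon
  have hlow : ∀ e : H, ‖e‖ = 1 → δ ≤ ‖S e‖ := by
    intro e he
    by_contra hlt
    push Not at hlt
    have h1 := hcon e he (by rw [← hSe]; exact hlt.le)
    rw [← hSe', ContinuousLinearMap.star_eq_adjoint, ← hadj] at h1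
    linarith
  have hlow2 : ∀ x : H, δ * ‖x‖ ≤ ‖S x‖ := by
    intro x
    by_cases hx : x = 0
    · rw [hx]
      simp
    · have hn : 0 < ‖x‖ := norm_pos_iff.2 hx
      have h1 := hlow (((‖x‖⁻¹ : ℝ) : ℂ) • x) (by
        rw [norm_smul, Complex.norm_real, norm_inv, norm_norm, inv_mul_cancel₀ hn.ne'])
      rw [map_smul, norm_smul, Complex.norm_real, norm_inv, norm_norm] at h1
      calc δ * ‖x‖ ≤ (‖x‖⁻¹ * ‖S x‖) * ‖x‖ := mul_le_mul_of_nonneg_right h1 hn.le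
        _ = ‖S x‖ := by field_simp
  have hunit : IsUnit S := by
    rw [ContinuousLinearMap.isUnit_iff_bijective,
      ContinuousLinearMap.bijective_iff_dense_range_and_antilipschitz]
    constructor
    · rw [Submodule.topologicalClosure_eq_top_iff, ContinuousLinearMap.orthogonal_range]
      rw [Submodule.eq_bot_iff]
      intro x hx
      have h1 : ContinuousLinearMap.adjoint S x = 0 := hx
      have h2 := hlow2 x
      rw [hadj, h1, norm_zero] at h2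
      by_contra hx0
      have : 0 < ‖x‖ := norm_pos_iff.2 hx0
      have := mul_pos hδ this
      linarith
    · refine ⟨(Real.toNNReal δ)⁻¹, S.antilipschitz_of_bound ?_⟩
      intro x
      rw [NNReal.coe_inv, Real.coe_toNNReal δ hδ.le, inv_mul_eq_div, le_div_iff₀ hδ, mul_comm]
      exact hlow2 x
  apply ha
  rw [← IsUnit.neg_iff] at hunit
  have e : algebraMap ℂ (H →L[ℂ] H) a - T = -S := by
    rw [hS, Algebra.algebraMap_eq_smul_one]
    abel
  show IsUnit (algebraMap ℂ (H →L[ℂ] H) a - T)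
  rw [e]
  exact hunit

/-- almost orthogonality -/
theorem approx_orth (T : H →L[ℂ] H) (a b : ℂ) (δ : ℝ) (e f : H) (he : ‖e‖ = 1)
    (hf : ‖f‖ = 1) (h1 : ‖T e - a • e‖ ≤ δ) (h2 : ‖star T f - (starRingEnd ℂ) b • f‖ ≤ δ) :
    ‖a - b‖ * ‖⟪f, e⟫_ℂ‖ ≤ 2 * δ := by
  have e1 : ⟪f, T e - a • e⟫_ℂ = ⟪f, T e⟫_ℂ - a * ⟪f, e⟫_ℂ := by
    rw [inner_sub_right, inner_smul_right]
  have e2 : ⟪star T f - (starRingEnd ℂ) b • f, e⟫_ℂ = ⟪f, T e⟫_ℂ - b * ⟪f, e⟫_ℂ := by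
    rw [inner_sub_left, inner_smul_left, Complex.conj_conj, ContinuousLinearMap.star_eq_adjoint,
      ContinuousLinearMap.adjoint_inner_left]
  have e3 : (a - b) * ⟪f, e⟫_ℂ = ⟪star T f - (starRingEnd ℂ) b • f, e⟫_ℂ - ⟪f, T e - a • e⟫_ℂ := by
    rw [e1, e2]
    ring
  rw [← norm_mul, e3]
  calc ‖⟪star T f - (starRingEnd ℂ) b • f, e⟫_ℂ - ⟪f, T e - a • e⟫_ℂ‖
      ≤ ‖⟪star T f - (starRingEnd ℂ) b • f, e⟫_ℂ‖ + ‖⟪f, T e - a • e⟫_ℂ‖ := norm_sub_le _ _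
    _ ≤ ‖star T f - (starRingEnd ℂ) b • f‖ * ‖e‖ + ‖f‖ * ‖T e - a • e‖ :=
        add_le_add (norm_inner_le_norm _ _) (norm_inner_le_norm _ _)
    _ ≤ 2 * δ := by
        rw [he, hf]
        linarith

end e1

/-- norm of a hermitian matrix is up to sign an eigenvalue -/
theorem tm_eig_j6283 (W : Matrix (Fin 3) (Fin 3) ℂ) (hW : W.IsHermitian) (lam : ℝ)
    (hl : lam = ‖Matrix.toEuclideanCLM (n := Fin 3) (𝕜 := ℂ) W‖) :
    (((lam : ℝ) : ℂ) • (1 : Matrix (Fin 3) (Fin 3) ℂ) - W).det = 0 ∨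
      (((-lam : ℝ) : ℂ) • (1 : Matrix (Fin 3) (Fin 3) ℂ) - W).det = 0 := by
  obtain ⟨T, hT⟩ : ∃ T, T = Matrix.toEuclideanCLM (n := Fin 3) (𝕜 := ℂ) W := ⟨_, rfl⟩
  have hTsa : IsSelfAdjoint T := by
    rw [hT]
    show star (Matrix.toEuclideanCLM (n := Fin 3) (𝕜 := ℂ) W) = _
    rw [← map_star]
    congr 1
  obtain ⟨z, hz, hzn⟩ := spectrum.exists_nnnorm_eq_spectralRadius T
  rw [hTsa.spectralRadius_eq_nnnorm] at hzn
  have hzn' : ‖z‖ = lam := by
    have h1 : ‖z‖₊ = ‖T‖₊ := by exact_mod_cast hzn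
    have h2 : ‖z‖ = ‖T‖ := congrArg NNReal.toReal h1
    rw [h2, hl, hT]
  have hzre := hTsa.mem_spectrum_eq_re hz
  have hdet : (z • (1 : Matrix (Fin 3) (Fin 3) ℂ) - W).det = 0 := by
    rw [hT, AlgEquiv.spectrum_eq] at hz
    by_contra hne
    apply hz
    show IsUnit (algebraMap ℂ (Matrix (Fin 3) (Fin 3) ℂ) z - W)
    rw [Algebra.algebraMap_eq_smul_one, Matrix.isUnit_iff_isUnit_det]
    exact isUnit_iff_ne_zero.2 hne
  rw [hzre] at hdet hzn'
  rw [Complex.norm_real, Real.norm_eq_abs] at hzn'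
  rcases le_total 0 z.re with h | h
  · left
    rw [abs_of_nonneg h] at hzn'
    rw [← hzn']
    exact hdet
  · right
    rw [abs_of_nonpos h] at hzn'
    rw [← hzn', neg_neg]
    exact hdet

/-- lower bound for the norm -/
theorem tm_norm_ge_j6283 (W : Matrix (Fin 3) (Fin 3) ℂ) :
    ‖W 0 0‖ ≤ ‖Matrix.toEuclideanCLM (n := Fin 3) (𝕜 := ℂ) W‖ := by
  have h1 := (Matrix.toEuclideanCLM (n := Fin 3) (𝕜 := ℂ) W).le_opNorm
    (EuclideanSpace.single (0 : Fin 3) (1 : ℂ))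
  have h2 : ‖(EuclideanSpace.single (0 : Fin 3) (1 : ℂ) : EuclideanSpace ℂ (Fin 3))‖ = 1 := by simp
  rw [h2, mul_one] at h1
  refine le_trans ?_ h1
  have h3 := PiLp.norm_apply_le (p := 2) (Matrix.toEuclideanCLM (n := Fin 3) (𝕜 := ℂ) W
    (EuclideanSpace.single (0 : Fin 3) (1 : ℂ))) 0
  refine le_trans (le_of_eq ?_) h3
  congr 1
  show W 0 0 = (W.mulVec (EuclideanSpace.single (0 : Fin 3) (1 : ℂ)).ofLp) 0
  simp [Matrix.mulVec, dotProduct, Fin.sum_univ_three]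

/-- the special hermitian matrix -/
def tmW_j6283 (w : ℝ) (p q r : ℂ) : Matrix (Fin 3) (Fin 3) ℂ :=
  !![(w : ℂ), p, r; (starRingEnd ℂ) p, 0, q; (starRingEnd ℂ) r, (starRingEnd ℂ) q, 0]

theorem tmW_herm_j6283 (w : ℝ) (p q r : ℂ) : (tmW_j6283 w p q r).IsHermitian := by
  unfold tmW_j6283 Matrix.IsHermitian
  ext i j
  fin_cases i <;> fin_cases j <;> simp [Matrix.conjTranspose_apply]

theorem tmW_det_j6283 (w : ℝ) (p q r : ℂ) (x : ℝ) :
    (((x : ℝ) : ℂ) • (1 : Matrix (Fin 3) (Fin 3) ℂ) - tmW_j6283 w p q r).det =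
      ((x ^ 3 - w * x ^ 2 - (‖p‖ ^ 2 + ‖q‖ ^ 2 + ‖r‖ ^ 2) * x + w * ‖q‖ ^ 2 -
        2 * (p * q * (starRingEnd ℂ) r).re : ℝ) : ℂ) := by
  have hp : p * (starRingEnd ℂ) p = ((‖p‖ ^ 2 : ℝ) : ℂ) := by
    rw [Complex.mul_conj, Complex.normSq_eq_norm_sq]
  have hq : q * (starRingEnd ℂ) q = ((‖q‖ ^ 2 : ℝ) : ℂ) := by
    rw [Complex.mul_conj, Complex.normSq_eq_norm_sq]
  have hr : r * (starRingEnd ℂ) r = ((‖r‖ ^ 2 : ℝ) : ℂ) := by
    rw [Complex.mul_conj, Complex.normSq_eq_norm_sq]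
  have hre : ((2 * (p * q * (starRingEnd ℂ) r).re : ℝ) : ℂ) =
      p * q * (starRingEnd ℂ) r + (starRingEnd ℂ) p * (starRingEnd ℂ) q * r := by
    have h1 := Complex.add_conj (p * q * (starRingEnd ℂ) r)
    rw [map_mul, map_mul, Complex.conj_conj] at h1
    rw [h1]
  obtain ⟨c, hc⟩ : ∃ c : ℝ, c = (p * q * (starRingEnd ℂ) r).re := ⟨_, rfl⟩
  rw [← hc] at hre ⊢
  rw [Matrix.det_fin_three]
  unfold tmW_j6283
  simp only [Matrix.sub_apply, Matrix.smul_apply, Matrix.one_apply, Matrix.of_apply,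
    Matrix.cons_val', Matrix.cons_val_zero, Matrix.cons_val_one, Matrix.cons_val,
    Matrix.cons_val_fin_one, smul_eq_mul]
  simp
  push_cast at hp hq hr hre ⊢
  linear_combination ((w : ℂ) - x) * hq - x * hp - x * hr + hre

/-- the positive norm is an eigenvalue -/
theorem tmW_eig_j6283 {w : ℝ} (hw : 0 < w) (p q r : ℂ)
    (h1 : ‖p‖ ^ 2 + ‖q‖ ^ 2 + ‖r‖ ^ 2 < w ^ 2)
    (h2 : w * ‖q‖ ^ 2 + 2 * (‖p‖ * ‖q‖ * ‖r‖) < w ^ 3) (lam : ℝ)
    (hl : lam = ‖Matrix.toEuclideanCLM (n := Fin 3) (𝕜 := ℂ) (tmW_j6283 w p q r)‖) :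
    lam ^ 3 - w * lam ^ 2 - (‖p‖ ^ 2 + ‖q‖ ^ 2 + ‖r‖ ^ 2) * lam + w * ‖q‖ ^ 2 -
        2 * (p * q * (starRingEnd ℂ) r).re = 0 := by
  have hlw : w ≤ lam := by
    have h3 := tm_norm_ge_j6283 (tmW_j6283 w p q r)
    rw [← hl] at h3
    have h4 : tmW_j6283 w p q r 0 0 = (w : ℂ) := rfl
    rw [h4, Complex.norm_real, Real.norm_eq_abs, abs_of_pos hw] at h3
    exact h3
  rcases tm_eig_j6283 _ (tmW_herm_j6283 w p q r) lam hl with h3 | h3
  · rw [tmW_det_j6283] at h3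
    exact_mod_cast h3
  · exfalso
    rw [tmW_det_j6283] at h3
    have h4 : (-lam) ^ 3 - w * (-lam) ^ 2 - (‖p‖ ^ 2 + ‖q‖ ^ 2 + ‖r‖ ^ 2) * (-lam) + w * ‖q‖ ^ 2 -
        2 * (p * q * (starRingEnd ℂ) r).re = 0 := by exact_mod_cast h3
    have h5 : |(p * q * (starRingEnd ℂ) r).re| ≤ ‖p‖ * ‖q‖ * ‖r‖ := by
      refine (Complex.abs_re_le_norm _).trans ?_
      rw [norm_mul, norm_mul, Complex.norm_conj]
    have h6 := (abs_le.1 h5).1
    have hl0 : 0 < lam := hw.trans_le hlw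
    have h7 : w ^ 2 ≤ lam ^ 2 := pow_le_pow_left₀ hw.le hlw 2
    have h8 : (‖p‖ ^ 2 + ‖q‖ ^ 2 + ‖r‖ ^ 2) * lam < lam ^ 2 * lam :=
      mul_lt_mul_of_pos_right (h1.trans_le h7) hl0
    have h9 : w * w ^ 2 ≤ w * lam ^ 2 := mul_le_mul_of_nonneg_left h7 hw.le
    nlinarith

/-- three by three matrices -/
theorem three_matrix (a : Fin 3 → ℂ) (ha : (a 0).im ≠ 0)
    (h : ∀ S : Matrix (Fin 3) (Fin 3) ℂ, S.IsHermitian →
      ‖Matrix.toEuclideanCLM (n := Fin 3) (𝕜 := ℂ)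
        (Matrix.of fun i j => (a i - (starRingEnd ℂ) (a j)) * S i j)‖ =
      ‖Matrix.toEuclideanCLM (n := Fin 3) (𝕜 := ℂ)
        (Matrix.of fun i j => ((starRingEnd ℂ) (a i) - a j) * S i j)‖) :
    ((a 0 - (starRingEnd ℂ) (a 1)) * (a 1 - (starRingEnd ℂ) (a 2)) *
      (a 2 - (starRingEnd ℂ) (a 0))).re = 0 := by
  obtain ⟨w, hw⟩ : ∃ w : ℝ, w = 2 * |(a 0).im| := ⟨_, rfl⟩
  have hw0 : 0 < w := by
    rw [hw]
    have := abs_pos.2 ha
    linarith
  obtain ⟨s0, hs0, hs0'⟩ : ∃ s0 : ℝ, s0 * (a 0).im = |(a 0).im| ∧ True := by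
    rcases le_total 0 (a 0).im with h1 | h1
    · exact ⟨1, by rw [abs_of_nonneg h1, one_mul], trivial⟩
    · exact ⟨-1, by rw [abs_of_nonpos h1]; ring, trivial⟩
  obtain ⟨u, hu⟩ : ∃ u, u = a 0 - (starRingEnd ℂ) (a 1) := ⟨_, rfl⟩
  obtain ⟨v, hv⟩ : ∃ v, v = a 1 - (starRingEnd ℂ) (a 2) := ⟨_, rfl⟩
  obtain ⟨y, hy⟩ : ∃ y, y = a 0 - (starRingEnd ℂ) (a 2) := ⟨_, rfl⟩
  -- small t
  have hev : ∀ᶠ t : ℝ in 𝓝 0, (‖u‖ ^ 2 + ‖v‖ ^ 2 + ‖y‖ ^ 2) * t ^ 2 < w ^ 2 ∧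
      w * ‖v‖ ^ 2 * t ^ 2 + 2 * (‖u‖ * ‖v‖ * ‖y‖) * t ^ 3 < w ^ 3 := by
    apply Filter.Eventually.and
    · have hc : Continuous (fun t : ℝ => (‖u‖ ^ 2 + ‖v‖ ^ 2 + ‖y‖ ^ 2) * t ^ 2) := by fun_prop
      have := hc.tendsto 0
      apply this.eventually (gt_mem_nhds _)
      simp only [ne_eq, OfNat.ofNat_ne_zero, not_false_eq_true, zero_pow, mul_zero]
      positivity
    · have hc : Continuous (fun t : ℝ => w * ‖v‖ ^ 2 * t ^ 2 + 2 * (‖u‖ * ‖v‖ * ‖y‖) * t ^ 3) := by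
        fun_prop
      have := hc.tendsto 0
      apply this.eventually (gt_mem_nhds _)
      simp only [ne_eq, OfNat.ofNat_ne_zero, not_false_eq_true, zero_pow, mul_zero, add_zero]
      positivity
  obtain ⟨t, ⟨ht1, ht2⟩, ht0⟩ : ∃ t : ℝ, ((‖u‖ ^ 2 + ‖v‖ ^ 2 + ‖y‖ ^ 2) * t ^ 2 < w ^ 2 ∧
      w * ‖v‖ ^ 2 * t ^ 2 + 2 * (‖u‖ * ‖v‖ * ‖y‖) * t ^ 3 < w ^ 3) ∧ 0 < t :=
    ((hev.filter_mono nhdsWithin_le_nhds).and
      (eventually_mem_nhdsWithin (s := Set.Ioi (0 : ℝ)) (a := 0))).exists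
  obtain ⟨S, hS⟩ : ∃ S : Matrix (Fin 3) (Fin 3) ℂ, S = !![(s0 : ℂ), (t : ℂ), -Complex.I * t;
    (t : ℂ), 0, (t : ℂ); Complex.I * t, (t : ℂ), 0] := ⟨_, rfl⟩
  have hSh : S.IsHermitian := by
    rw [hS]
    unfold Matrix.IsHermitian
    ext i j
    fin_cases i <;> fin_cases j <;> simp [Matrix.conjTranspose_apply]
  have hS' := h S hSh
  -- first matrix
  have hI : Complex.I * Complex.I = -1 := Complex.I_mul_I
  have h00 : (s0 : ℂ) * (a 0 - (starRingEnd ℂ) (a 0)) = (w : ℂ) * Complex.I := by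
    rw [Complex.sub_conj, hw, ← hs0]
    push_cast
    ring
  have hW : (-Complex.I) • (Matrix.of fun i j => (a i - (starRingEnd ℂ) (a j)) * S i j) =
      tmW_j6283 w (-Complex.I * u * t) (-Complex.I * v * t) (-(y * t)) := by
    rw [hS, hu, hv, hy]
    unfold tmW_j6283
    ext i j
    fin_cases i <;> fin_cases j
    · show -Complex.I * ((a 0 - (starRingEnd ℂ) (a 0)) * (s0 : ℂ)) = (w : ℂ)
      linear_combination (-Complex.I) * h00 - (w : ℂ) * hI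
    · show -Complex.I * ((a 0 - (starRingEnd ℂ) (a 1)) * (t : ℂ)) = _
      simp
      ring
    · show -Complex.I * ((a 0 - (starRingEnd ℂ) (a 2)) * (-Complex.I * t)) =
        -((a 0 - (starRingEnd ℂ) (a 2)) * t)
      linear_combination ((a 0 - (starRingEnd ℂ) (a 2)) * t) * hI
    · show -Complex.I * ((a 1 - (starRingEnd ℂ) (a 0)) * (t : ℂ)) =
        (starRingEnd ℂ) (-Complex.I * (a 0 - (starRingEnd ℂ) (a 1)) * t)
      simp only [map_mul, map_neg, map_sub, Complex.conj_I, Complex.conj_conj, Complex.conj_ofReal]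
      ring
    · show -Complex.I * ((a 1 - (starRingEnd ℂ) (a 1)) * (0 : ℂ)) = 0
      ring
    · show -Complex.I * ((a 1 - (starRingEnd ℂ) (a 2)) * (t : ℂ)) =
        -Complex.I * (a 1 - (starRingEnd ℂ) (a 2)) * t
      ring
    · show -Complex.I * ((a 2 - (starRingEnd ℂ) (a 0)) * (Complex.I * t)) =
        (starRingEnd ℂ) (-((a 0 - (starRingEnd ℂ) (a 2)) * t))
      simp only [map_mul, map_neg, map_sub, Complex.conj_I, Complex.conj_conj, Complex.conj_ofReal]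
      linear_combination (-(a 2 - (starRingEnd ℂ) (a 0)) * t) * hI
    · show -Complex.I * ((a 2 - (starRingEnd ℂ) (a 1)) * (t : ℂ)) =
        (starRingEnd ℂ) (-Complex.I * (a 1 - (starRingEnd ℂ) (a 2)) * t)
      simp only [map_mul, map_neg, map_sub, Complex.conj_I, Complex.conj_conj, Complex.conj_ofReal]
      ring
    · show -Complex.I * ((a 2 - (starRingEnd ℂ) (a 2)) * (0 : ℂ)) = 0
      ring
  have hW' : Complex.I • (Matrix.of fun i j => ((starRingEnd ℂ) (a i) - a j) * S i j) =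
      tmW_j6283 w (Complex.I * (starRingEnd ℂ) u * t) (Complex.I * (starRingEnd ℂ) v * t)
        ((starRingEnd ℂ) y * t) := by
    rw [hS, hu, hv, hy]
    unfold tmW_j6283
    ext i j
    fin_cases i <;> fin_cases j
    · show Complex.I * (((starRingEnd ℂ) (a 0) - a 0) * (s0 : ℂ)) = (w : ℂ)
      linear_combination (-Complex.I) * h00 - (w : ℂ) * hI
    · show Complex.I * (((starRingEnd ℂ) (a 0) - a 1) * (t : ℂ)) =
        Complex.I * (starRingEnd ℂ) (a 0 - (starRingEnd ℂ) (a 1)) * t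
      simp only [map_sub, Complex.conj_conj]
      ring
    · show Complex.I * (((starRingEnd ℂ) (a 0) - a 2) * (-Complex.I * t)) =
        (starRingEnd ℂ) (a 0 - (starRingEnd ℂ) (a 2)) * t
      simp only [map_sub, Complex.conj_conj]
      linear_combination (-((starRingEnd ℂ) (a 0) - a 2) * t) * hI
    · show Complex.I * (((starRingEnd ℂ) (a 1) - a 0) * (t : ℂ)) =
        (starRingEnd ℂ) (Complex.I * (starRingEnd ℂ) (a 0 - (starRingEnd ℂ) (a 1)) * t)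
      simp only [map_mul, map_neg, map_sub, Complex.conj_I, Complex.conj_conj, Complex.conj_ofReal]
      ring
    · show Complex.I * (((starRingEnd ℂ) (a 1) - a 1) * (0 : ℂ)) = 0
      ring
    · show Complex.I * (((starRingEnd ℂ) (a 1) - a 2) * (t : ℂ)) =
        Complex.I * (starRingEnd ℂ) (a 1 - (starRingEnd ℂ) (a 2)) * t
      simp only [map_sub, Complex.conj_conj]
      ring
    · show Complex.I * (((starRingEnd ℂ) (a 2) - a 0) * (Complex.I * t)) =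
        (starRingEnd ℂ) ((starRingEnd ℂ) (a 0 - (starRingEnd ℂ) (a 2)) * t)
      simp only [map_mul, map_neg, map_sub, Complex.conj_I, Complex.conj_conj, Complex.conj_ofReal]
      linear_combination (((starRingEnd ℂ) (a 2) - a 0) * t) * hI
    · show Complex.I * (((starRingEnd ℂ) (a 2) - a 1) * (t : ℂ)) =
        (starRingEnd ℂ) (Complex.I * (starRingEnd ℂ) (a 1 - (starRingEnd ℂ) (a 2)) * t)
      simp only [map_mul, map_neg, map_sub, Complex.conj_I, Complex.conj_conj, Complex.conj_ofReal]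
      ring
    · show Complex.I * (((starRingEnd ℂ) (a 2) - a 2) * (0 : ℂ)) = 0
      ring
  have hnorm1 : ‖Matrix.toEuclideanCLM (n := Fin 3) (𝕜 := ℂ)
      (tmW_j6283 w (-Complex.I * u * t) (-Complex.I * v * t) (-(y * t)))‖ =
      ‖Matrix.toEuclideanCLM (n := Fin 3) (𝕜 := ℂ)
        (Matrix.of fun i j => (a i - (starRingEnd ℂ) (a j)) * S i j)‖ := by
    rw [← hW, map_smul, norm_smul, norm_neg, Complex.norm_I, one_mul]
  have hnorm2 : ‖Matrix.toEuclideanCLM (n := Fin 3) (𝕜 := ℂ)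
      (tmW_j6283 w (Complex.I * (starRingEnd ℂ) u * t) (Complex.I * (starRingEnd ℂ) v * t)
        ((starRingEnd ℂ) y * t))‖ =
      ‖Matrix.toEuclideanCLM (n := Fin 3) (𝕜 := ℂ)
        (Matrix.of fun i j => ((starRingEnd ℂ) (a i) - a j) * S i j)‖ := by
    rw [← hW', map_smul, norm_smul, Complex.norm_I, one_mul]
  obtain ⟨lam, hlam⟩ : ∃ lam : ℝ, lam = ‖Matrix.toEuclideanCLM (n := Fin 3) (𝕜 := ℂ)
      (tmW_j6283 w (-Complex.I * u * t) (-Complex.I * v * t) (-(y * t)))‖ := ⟨_, rfl⟩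
  have hlam2 : lam = ‖Matrix.toEuclideanCLM (n := Fin 3) (𝕜 := ℂ)
      (tmW_j6283 w (Complex.I * (starRingEnd ℂ) u * t) (Complex.I * (starRingEnd ℂ) v * t)
        ((starRingEnd ℂ) y * t))‖ := by
    rw [hlam, hnorm1, hnorm2, hS']
  have nt : ‖(t : ℂ)‖ = t := by rw [Complex.norm_real, Real.norm_eq_abs, abs_of_pos ht0]
  have n1 : ‖-Complex.I * u * t‖ = ‖u‖ * t := by
    rw [norm_mul, norm_mul, norm_neg, Complex.norm_I, one_mul, nt]
  have n2 : ‖-Complex.I * v * t‖ = ‖v‖ * t := by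
    rw [norm_mul, norm_mul, norm_neg, Complex.norm_I, one_mul, nt]
  have n3 : ‖-(y * t)‖ = ‖y‖ * t := by
    rw [norm_neg, norm_mul, nt]
  have n1' : ‖Complex.I * (starRingEnd ℂ) u * t‖ = ‖u‖ * t := by
    rw [norm_mul, norm_mul, Complex.norm_I, one_mul, nt, Complex.norm_conj]
  have n2' : ‖Complex.I * (starRingEnd ℂ) v * t‖ = ‖v‖ * t := by
    rw [norm_mul, norm_mul, Complex.norm_I, one_mul, nt, Complex.norm_conj]
  have n3' : ‖(starRingEnd ℂ) y * t‖ = ‖y‖ * t := by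
    rw [norm_mul, nt, Complex.norm_conj]
  have k1 : (‖u‖ * t) ^ 2 + (‖v‖ * t) ^ 2 + (‖y‖ * t) ^ 2 < w ^ 2 := by
    calc (‖u‖ * t) ^ 2 + (‖v‖ * t) ^ 2 + (‖y‖ * t) ^ 2 =
        (‖u‖ ^ 2 + ‖v‖ ^ 2 + ‖y‖ ^ 2) * t ^ 2 := by ring
      _ < w ^ 2 := ht1
  have k2 : w * (‖v‖ * t) ^ 2 + 2 * ((‖u‖ * t) * (‖v‖ * t) * (‖y‖ * t)) < w ^ 3 := by
    calc w * (‖v‖ * t) ^ 2 + 2 * ((‖u‖ * t) * (‖v‖ * t) * (‖y‖ * t)) =
        w * ‖v‖ ^ 2 * t ^ 2 + 2 * (‖u‖ * ‖v‖ * ‖y‖) * t ^ 3 := by ring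
      _ < w ^ 3 := ht2
  have q1 := tmW_eig_j6283 hw0 (-Complex.I * u * t) (-Complex.I * v * t) (-(y * t))
    (by rw [n1, n2, n3]; exact k1) (by rw [n1, n2, n3]; exact k2) lam hlam
  have q2 := tmW_eig_j6283 hw0 (Complex.I * (starRingEnd ℂ) u * t) (Complex.I * (starRingEnd ℂ) v * t)
    ((starRingEnd ℂ) y * t)
    (by rw [n1', n2', n3']; exact k1) (by rw [n1', n2', n3']; exact k2) lam hlam2
  rw [n1, n2, n3] at q1
  rw [n1', n2', n3'] at q2
  have r1 : -Complex.I * u * t * (-Complex.I * v * t) * (starRingEnd ℂ) (-(y * t)) =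
      ((t ^ 3 : ℝ) : ℂ) * (u * v * (starRingEnd ℂ) y) := by
    simp only [map_mul, map_neg, Complex.conj_ofReal]
    push_cast
    linear_combination (-u * v * (starRingEnd ℂ) y * t ^ 3) * hI
  have r2 : Complex.I * (starRingEnd ℂ) u * t * (Complex.I * (starRingEnd ℂ) v * t) *
      (starRingEnd ℂ) ((starRingEnd ℂ) y * t) =
      ((t ^ 3 : ℝ) : ℂ) * (-(starRingEnd ℂ) (u * v * (starRingEnd ℂ) y)) := by
    simp only [map_mul, map_neg, Complex.conj_ofReal, Complex.conj_conj]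
    push_cast
    linear_combination ((starRingEnd ℂ) u * (starRingEnd ℂ) v * y * t ^ 3) * hI
  rw [r1, Complex.re_ofReal_mul] at q1
  rw [r2, Complex.re_ofReal_mul, Complex.neg_re, Complex.conj_re] at q2
  have ht3 : 0 < t ^ 3 := by positivity
  have hzero : (u * v * (starRingEnd ℂ) y).re = 0 := by
    have h4 : t ^ 3 * (u * v * (starRingEnd ℂ) y).re = 0 := by linarith
    exact (mul_eq_zero.1 h4).resolve_left ht3.ne'
  have hfin : (a 0 - (starRingEnd ℂ) (a 1)) * (a 1 - (starRingEnd ℂ) (a 2)) *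
      (a 2 - (starRingEnd ℂ) (a 0)) = -(u * v * (starRingEnd ℂ) y) := by
    rw [hu, hv, hy]
    simp only [map_sub, Complex.conj_conj]
    ring
  rw [hfin, Complex.neg_re, hzero, neg_zero]


end j6283

-- part 6284
section j6284
section srbasic
variable {X : Type*} [NormedAddCommGroup X] [NormedSpace ℂ X]

theorem sr_nonneg_j6284 (T : X →L[ℂ] X) : 0 ≤ sr T := ENNReal.toReal_nonneg

variable [CompleteSpace X]

end srbasic

section sk
variable {H : Type*} [NormedAddCommGroup H] [InnerProductSpace ℂ H] [CompleteSpace H]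


end sk

section RPs
variable {E : Type*} [AddCommGroup E] [Module ℂ E]

end RPs

section forms
variable {H : Type*} [NormedAddCommGroup H] [InnerProductSpace ℂ H]


end forms

section e1
variable {H : Type*} [NormedAddCommGroup H] [InnerProductSpace ℂ H] [CompleteSpace H]


/-- the synthesis operator of a triple -/
noncomputable def m11_V_j6284 (e : Fin 3 → H) : EuclideanSpace ℂ (Fin 3) →L[ℂ] H :=
  ∑ i, (EuclideanSpace.proj i : EuclideanSpace ℂ (Fin 3) →L[ℂ] ℂ).smulRight (e i)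

theorem m11_V_apply_j6284 (e : Fin 3 → H) (z : EuclideanSpace ℂ (Fin 3)) :
    m11_V_j6284 e z = ∑ i, z i • e i := by
  unfold m11_V_j6284
  rw [ContinuousLinearMap.sum_apply]
  refine Finset.sum_congr rfl fun i _ => ?_
  simp

theorem m11_W_apply_j6284 (e : Fin 3 → H) (v : H) (i : Fin 3) :
    (ContinuousLinearMap.adjoint (m11_V_j6284 e) v) i = ⟪e i, v⟫_ℂ := by
  have h1 : (ContinuousLinearMap.adjoint (m11_V_j6284 e) v) i =
      ⟪(EuclideanSpace.single i (1 : ℂ)), ContinuousLinearMap.adjoint (m11_V_j6284 e) v⟫_ℂ := by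
    rw [EuclideanSpace.inner_single_left]
    simp
  rw [h1, ContinuousLinearMap.adjoint_inner_right, m11_V_apply_j6284]
  congr 1
  rw [Finset.sum_eq_single i]
  · simp
  · intro j _ hj
    simp [hj]
  · simp

theorem m11_eq_j6284 (e : Fin 3 → H) (C : Matrix (Fin 3) (Fin 3) ℂ) :
    ∑ i, ∑ j, C i j • ro (e i) (e j) = (m11_V_j6284 e).comp
      ((Matrix.toEuclideanCLM (n := Fin 3) (𝕜 := ℂ) C).comp
        (ContinuousLinearMap.adjoint (m11_V_j6284 e))) := by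
  ext v
  rw [ContinuousLinearMap.comp_apply, ContinuousLinearMap.comp_apply, m11_V_apply_j6284,
    ContinuousLinearMap.sum_apply]
  refine Finset.sum_congr rfl fun i _ => ?_
  rw [ContinuousLinearMap.sum_apply]
  have h1 : (Matrix.toEuclideanCLM (n := Fin 3) (𝕜 := ℂ) C
      (ContinuousLinearMap.adjoint (m11_V_j6284 e) v)) i = ∑ j, C i j * ⟪e j, v⟫_ℂ := by
    rw [Matrix.ofLp_toEuclideanCLM]
    simp only [Matrix.mulVec, dotProduct]
    refine Finset.sum_congr rfl fun j _ => ?_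
    rw [← m11_W_apply_j6284 e v j]
  rw [h1, Finset.sum_smul]
  refine Finset.sum_congr rfl fun j _ => ?_
  rw [ContinuousLinearMap.smul_apply, ro_apply, smul_smul]

theorem m11_gram_j6284 (e : Fin 3 → H) (he : ∀ i, ‖e i‖ = 1) (δ : ℝ) (hδ : 0 ≤ δ)
    (ho : ∀ i j, i ≠ j → ‖⟪e i, e j⟫_ℂ‖ ≤ δ) :
    ‖(ContinuousLinearMap.adjoint (m11_V_j6284 e)).comp (m11_V_j6284 e) - 1‖ ≤ 9 * δ := by
  refine ContinuousLinearMap.opNorm_le_bound _ (by positivity) fun z => ?_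
  have h1 : ∀ i, ‖(((ContinuousLinearMap.adjoint (m11_V_j6284 e)).comp (m11_V_j6284 e) - 1) z) i‖ ≤
      3 * δ * ‖z‖ := by
    intro i
    have h2 : (((ContinuousLinearMap.adjoint (m11_V_j6284 e)).comp (m11_V_j6284 e) - 1) z) i =
        ∑ j, z j * (⟪e i, e j⟫_ℂ - if j = i then 1 else 0) := by
      rw [ContinuousLinearMap.sub_apply, ContinuousLinearMap.comp_apply, PiLp.sub_apply,
        m11_W_apply_j6284, m11_V_apply_j6284, inner_sum]
      simp only [inner_smul_right, mul_sub, Finset.sum_sub_distrib, mul_ite, mul_one, mul_zero,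
        Finset.sum_ite_eq', Finset.mem_univ, if_true]
      rfl
    rw [h2]
    have h3 : ∀ j ∈ Finset.univ, ‖z j * (⟪e i, e j⟫_ℂ - if j = i then 1 else 0)‖ ≤ δ * ‖z‖ := by
      intro j _
      rw [norm_mul, mul_comm]
      have hz : ‖z j‖ ≤ ‖z‖ := PiLp.norm_apply_le z j
      have h4 : ‖⟪e i, e j⟫_ℂ - if j = i then 1 else 0‖ ≤ δ := by
        split_ifs with hji
        · subst hji
          rw [inner_self_eq_norm_sq_to_K, he j]
          simpa using hδ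
        · rw [sub_zero]
          exact ho i j (Ne.symm hji)
      exact mul_le_mul h4 hz (norm_nonneg _) hδ
    refine (norm_sum_le _ _).trans ((Finset.sum_le_sum h3).trans (le_of_eq ?_))
    rw [Finset.sum_const, Finset.card_univ, Fintype.card_fin, nsmul_eq_mul]
    push_cast
    ring
  have h5 : ‖((ContinuousLinearMap.adjoint (m11_V_j6284 e)).comp (m11_V_j6284 e) - 1) z‖ ^ 2 ≤
      (9 * δ * ‖z‖) ^ 2 := by
    rw [EuclideanSpace.norm_sq_eq]
    have h6 : ∀ i ∈ (Finset.univ : Finset (Fin 3)),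
        ‖(((ContinuousLinearMap.adjoint (m11_V_j6284 e)).comp (m11_V_j6284 e) - 1) z) i‖ ^ 2 ≤
        (3 * δ * ‖z‖) ^ 2 := fun i _ => pow_le_pow_left₀ (norm_nonneg _) (h1 i) 2
    refine (Finset.sum_le_sum h6).trans ?_
    rw [Finset.sum_const, Finset.card_univ, Fintype.card_fin, nsmul_eq_mul]
    push_cast
    nlinarith [sq_nonneg (δ * ‖z‖)]
  exact (abs_le_of_sq_le_sq' h5 (by positivity)).2

/-- norms of finite rank operators built from an almost orthonormal triple -/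
theorem almost_orth_norm (C : Matrix (Fin 3) (Fin 3) ℂ) (ε : ℝ) (hε : 0 < ε) :
    ∃ δ : ℝ, 0 < δ ∧ ∀ e : Fin 3 → H, (∀ i, ‖e i‖ = 1) → (∀ i j, i ≠ j → ‖⟪e i, e j⟫_ℂ‖ ≤ δ) →
      |‖∑ i, ∑ j, C i j • ro (e i) (e j)‖ - ‖Matrix.toEuclideanCLM (n := Fin 3) (𝕜 := ℂ) C‖| ≤ ε := by
  obtain ⟨c, hc⟩ : ∃ c, c = Matrix.toEuclideanCLM (n := Fin 3) (𝕜 := ℂ) C := ⟨_, rfl⟩
  have hc0 : 0 ≤ ‖c‖ := norm_nonneg _
  refine ⟨min (1 / 9) (ε / (45 * (‖c‖ + 1))), by positivity, ?_⟩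
  intro e he ho
  obtain ⟨δ, hδ⟩ : ∃ δ, δ = min (1 / 9) (ε / (45 * (‖c‖ + 1))) := ⟨_, rfl⟩
  rw [← hδ] at ho
  have hδ0 : 0 ≤ δ := by rw [hδ]; positivity
  have hδ1 : δ ≤ 1 / 9 := by rw [hδ]; exact min_le_left _ _
  have hδ2 : δ * (45 * (‖c‖ + 1)) ≤ ε := by
    have h1 : δ ≤ ε / (45 * (‖c‖ + 1)) := by rw [hδ]; exact min_le_right _ _
    rwa [le_div_iff₀ (by positivity)] at h1
  obtain ⟨V, hV⟩ : ∃ V, V = m11_V_j6284 e := ⟨_, rfl⟩
  obtain ⟨G, hG⟩ : ∃ G, G = (ContinuousLinearMap.adjoint V).comp V := ⟨_, rfl⟩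
  have hG1 : ‖G - 1‖ ≤ 9 * δ := by
    rw [hG, hV]; exact m11_gram_j6284 e he δ hδ0 ho
  rw [m11_eq_j6284 e C, ← hc, ← hV]
  obtain ⟨t, ht⟩ : ∃ t, t = 9 * δ := ⟨_, rfl⟩
  rw [← ht] at hG1
  have ht0 : 0 ≤ t := by rw [ht]; positivity
  have ht1 : t ≤ 1 := by rw [ht]; linarith
  have hGn : ‖G‖ ≤ 1 + t := by
    have h1 : G = 1 + (G - 1) := by abel
    rw [h1]
    refine (norm_add_le _ _).trans (add_le_add ?_ hG1)
    exact ContinuousLinearMap.norm_id_le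
  have hVG : ‖V‖ * ‖V‖ = ‖G‖ := by
    rw [hG]
    exact (ContinuousLinearMap.norm_adjoint_comp_self V).symm
  have hWn : ‖ContinuousLinearMap.adjoint V‖ = ‖V‖ := by simp
  obtain ⟨Φ, hΦ⟩ : ∃ Φ, Φ = V.comp (c.comp (ContinuousLinearMap.adjoint V)) := ⟨_, rfl⟩
  rw [← hΦ]
  have hup : ‖Φ‖ ≤ (1 + t) * ‖c‖ := by
    rw [hΦ]
    calc ‖V.comp (c.comp (ContinuousLinearMap.adjoint V))‖
        ≤ ‖V‖ * (‖c‖ * ‖ContinuousLinearMap.adjoint V‖) :=
          (ContinuousLinearMap.opNorm_comp_le _ _).trans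
            (mul_le_mul_of_nonneg_left (ContinuousLinearMap.opNorm_comp_le _ _) (norm_nonneg _))
      _ = (‖V‖ * ‖V‖) * ‖c‖ := by rw [hWn]; ring
      _ = ‖G‖ * ‖c‖ := by rw [hVG]
      _ ≤ (1 + t) * ‖c‖ := mul_le_mul_of_nonneg_right hGn hc0
  have hlow : ‖G * c * G‖ ≤ (1 + t) * ‖Φ‖ := by
    have h1 : G * c * G = (ContinuousLinearMap.adjoint V).comp (Φ.comp V) := by
      rw [hΦ, hG]; rfl
    rw [h1]
    calc ‖(ContinuousLinearMap.adjoint V).comp (Φ.comp V)‖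
        ≤ ‖ContinuousLinearMap.adjoint V‖ * (‖Φ‖ * ‖V‖) :=
          (ContinuousLinearMap.opNorm_comp_le _ _).trans
            (mul_le_mul_of_nonneg_left (ContinuousLinearMap.opNorm_comp_le _ _) (norm_nonneg _))
      _ = (‖V‖ * ‖V‖) * ‖Φ‖ := by rw [hWn]; ring
      _ = ‖G‖ * ‖Φ‖ := by rw [hVG]
      _ ≤ (1 + t) * ‖Φ‖ := mul_le_mul_of_nonneg_right hGn (norm_nonneg _)
  have hdiff : ‖c - G * c * G‖ ≤ 3 * t * ‖c‖ := by
    have h1 : c - G * c * G = -((G - 1) * c) - G * c * (G - 1) := by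
      rw [sub_mul, mul_sub, one_mul, mul_one]
      abel
    rw [h1]
    have h2 : ‖(G - 1) * c‖ ≤ t * ‖c‖ :=
      (norm_mul_le _ _).trans (mul_le_mul_of_nonneg_right hG1 hc0)
    have h3 : ‖G * c * (G - 1)‖ ≤ 2 * ‖c‖ * t := by
      refine (norm_mul_le _ _).trans ?_
      refine mul_le_mul ?_ hG1 (norm_nonneg _) (by positivity)
      refine (norm_mul_le _ _).trans ?_
      exact mul_le_mul_of_nonneg_right (by linarith) hc0
    refine (norm_sub_le _ _).trans ?_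
    rw [norm_neg]
    linarith
  have htri : ‖c‖ ≤ ‖G * c * G‖ + ‖c - G * c * G‖ := by
    have h1 : c = G * c * G + (c - G * c * G) := by abel
    conv_lhs => rw [h1]
    exact norm_add_le _ _
  have htc : 0 ≤ t * ‖c‖ := mul_nonneg ht0 hc0
  have htt : t * t * ‖c‖ ≤ t * ‖c‖ := by
    have := mul_le_mul_of_nonneg_right ht1 htc
    linarith
  have hfin : 5 * t * ‖c‖ ≤ ε := by
    rw [ht]
    nlinarith
  have htΦ : t * ‖Φ‖ ≤ 2 * (t * ‖c‖) := by
    have := mul_le_mul_of_nonneg_left hup ht0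
    nlinarith
  rw [abs_le]
  constructor
  · linarith
  · linarith

theorem m11_ro_norm_j6284 (x y : H) : ‖ro x y‖ ≤ ‖x‖ * ‖y‖ := by
  refine ContinuousLinearMap.opNorm_le_bound _ (by positivity) fun v => ?_
  rw [ro_apply, norm_smul]
  have := norm_inner_le_norm (𝕜 := ℂ) y v
  have h2 := mul_le_mul_of_nonneg_right this (norm_nonneg x)
  linarith

theorem m11_ro_sub_left_j6284 (x x' y : H) : ro (x - x') y = ro x y - ro x' y := by
  ext v
  rw [ContinuousLinearMap.sub_apply, ro_apply, ro_apply, ro_apply, smul_sub]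

theorem m11_ro_sub_right_j6284 (x y y' : H) : ro x (y - y') = ro x y - ro x y' := by
  ext v
  rw [ContinuousLinearMap.sub_apply, ro_apply, ro_apply, ro_apply, inner_sub_left, sub_smul]

theorem m11_ro_smul_left_j6284 (c : ℂ) (x y : H) : ro (c • x) y = c • ro x y := by
  ext v
  rw [ContinuousLinearMap.smul_apply, ro_apply, ro_apply, smul_comm]

theorem m11_ro_smul_right_j6284 (c : ℂ) (x y : H) : ro x (c • y) = (starRingEnd ℂ) c • ro x y := by
  ext v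
  rw [ContinuousLinearMap.smul_apply, ro_apply, ro_apply, inner_smul_left, smul_smul]

/-- the skew Lie product of an operator and of a finite rank operator built from approximate
eigenvectors -/
theorem m11_approx_j6284 (U : H →L[ℂ] H) (b : Fin 3 → ℂ) (e : Fin 3 → H) (δ : ℝ)
    (he : ∀ i, ‖e i‖ = 1) (hb : ∀ i, ‖U (e i) - b i • e i‖ ≤ δ)
    (S : Matrix (Fin 3) (Fin 3) ℂ) :
    ‖(U * (∑ i, ∑ j, S i j • ro (e i) (e j)) - (∑ i, ∑ j, S i j • ro (e i) (e j)) * star U) -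
      ∑ i, ∑ j, ((Matrix.of fun i j => (b i - (starRingEnd ℂ) (b j)) * S i j) i j) •
        ro (e i) (e j)‖ ≤ 2 * δ * ∑ i, ∑ j, ‖S i j‖ := by
  have h1 : (U * (∑ i, ∑ j, S i j • ro (e i) (e j)) -
      (∑ i, ∑ j, S i j • ro (e i) (e j)) * star U) -
      ∑ i, ∑ j, ((Matrix.of fun i j => (b i - (starRingEnd ℂ) (b j)) * S i j) i j) •
        ro (e i) (e j) = ∑ i, ∑ j, S i j • (ro (U (e i) - b i • e i) (e j) -
          ro (e i) (U (e j) - b j • e j)) := by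
    simp only [Finset.mul_sum, Finset.sum_mul, ← Finset.sum_sub_distrib]
    refine Finset.sum_congr rfl fun i _ => Finset.sum_congr rfl fun j _ => ?_
    rw [mul_smul_comm, smul_mul_assoc, mul_ro, ro_mul, star_star, m11_ro_sub_left_j6284,
      m11_ro_sub_right_j6284, m11_ro_smul_left_j6284, m11_ro_smul_right_j6284, Matrix.of_apply]
    module
  rw [h1, Finset.mul_sum]
  refine (norm_sum_le _ _).trans (Finset.sum_le_sum fun i _ => ?_)
  rw [Finset.mul_sum]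
  refine (norm_sum_le _ _).trans (Finset.sum_le_sum fun j _ => ?_)
  rw [norm_smul, mul_comm]
  refine mul_le_mul_of_nonneg_right ?_ (norm_nonneg _)
  refine (norm_sub_le _ _).trans ?_
  have h2 := m11_ro_norm_j6284 (U (e i) - b i • e i) (e j)
  have h3 := m11_ro_norm_j6284 (e i) (U (e j) - b j • e j)
  rw [he, mul_one] at h2
  rw [he, one_mul] at h3
  have h4 := hb i
  have h5 := hb j
  linarith

theorem three_spec (T : H →L[ℂ] H) (hT : T * star T = star T * T)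
    (h : ∀ A : H →L[ℂ] H, IsSelfAdjoint A → SK (star T) A = SK T A) (a : Fin 3 → ℂ)
    (ha : ∀ i, a i ∈ spectrum ℂ T) (hne : Function.Injective a) (S : Matrix (Fin 3) (Fin 3) ℂ)
    (hS : S.IsHermitian) :
    ‖Matrix.toEuclideanCLM (n := Fin 3) (𝕜 := ℂ)
        (Matrix.of fun i j => (a i - (starRingEnd ℂ) (a j)) * S i j)‖ =
      ‖Matrix.toEuclideanCLM (n := Fin 3) (𝕜 := ℂ)
        (Matrix.of fun i j => ((starRingEnd ℂ) (a i) - a j) * S i j)‖ := by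
  obtain ⟨M, hM⟩ : ∃ M : Matrix (Fin 3) (Fin 3) ℂ,
      M = Matrix.of fun i j => (a i - (starRingEnd ℂ) (a j)) * S i j := ⟨_, rfl⟩
  obtain ⟨M', hM'⟩ : ∃ M' : Matrix (Fin 3) (Fin 3) ℂ,
      M' = Matrix.of fun i j => ((starRingEnd ℂ) (a i) - a j) * S i j := ⟨_, rfl⟩
  rw [← hM, ← hM']
  obtain ⟨s, hs⟩ : ∃ s : ℝ, s = ∑ i, ∑ j, ‖S i j‖ := ⟨_, rfl⟩
  have hs0 : 0 ≤ s := by
    rw [hs]
    exact Finset.sum_nonneg fun _ _ => Finset.sum_nonneg fun _ _ => norm_nonneg _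
  have hm : ∃ m : ℝ, 0 < m ∧ ∀ i j, i ≠ j → m ≤ ‖a j - a i‖ := by
    have h01 : a 0 - a 1 ≠ 0 := sub_ne_zero.2 fun h => by simpa using hne h
    have h02 : a 0 - a 2 ≠ 0 := sub_ne_zero.2 fun h => by simpa using hne h
    have h12 : a 1 - a 2 ≠ 0 := sub_ne_zero.2 fun h => by simpa using hne h
    refine ⟨min (min ‖a 0 - a 1‖ ‖a 0 - a 2‖) ‖a 1 - a 2‖,
      lt_min (lt_min (norm_pos_iff.2 h01) (norm_pos_iff.2 h02)) (norm_pos_iff.2 h12), ?_⟩
    have k01 : min (min ‖a 0 - a 1‖ ‖a 0 - a 2‖) ‖a 1 - a 2‖ ≤ ‖a 0 - a 1‖ :=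
      (min_le_left _ _).trans (min_le_left _ _)
    have k02 : min (min ‖a 0 - a 1‖ ‖a 0 - a 2‖) ‖a 1 - a 2‖ ≤ ‖a 0 - a 2‖ :=
      (min_le_left _ _).trans (min_le_right _ _)
    have k12 : min (min ‖a 0 - a 1‖ ‖a 0 - a 2‖) ‖a 1 - a 2‖ ≤ ‖a 1 - a 2‖ := min_le_right _ _
    have k10 := k01.trans (le_of_eq (norm_sub_rev (a 0) (a 1)))
    have k20 := k02.trans (le_of_eq (norm_sub_rev (a 0) (a 2)))
    have k21 := k12.trans (le_of_eq (norm_sub_rev (a 1) (a 2)))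
    intro i j hij
    fin_cases i <;> fin_cases j
    · exact absurd rfl hij
    · exact k10
    · exact k20
    · exact k01
    · exact absurd rfl hij
    · exact k21
    · exact k02
    · exact k12
    · exact absurd rfl hij
  obtain ⟨m, hm0, hm⟩ := hm
  have key : ∀ ε : ℝ, 0 < ε → |‖Matrix.toEuclideanCLM (n := Fin 3) (𝕜 := ℂ) M‖ -
      ‖Matrix.toEuclideanCLM (n := Fin 3) (𝕜 := ℂ) M'‖| ≤ ε := by
    intro ε hε
    obtain ⟨δ₁, hδ₁, h1⟩ := almost_orth_norm (H := H) M (ε / 4) (by positivity)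
    obtain ⟨δ₂, hδ₂, h2⟩ := almost_orth_norm (H := H) M' (ε / 4) (by positivity)
    obtain ⟨δ₀, hδ₀⟩ : ∃ δ₀, δ₀ = min δ₁ δ₂ := ⟨_, rfl⟩
    have hδ₀p : 0 < δ₀ := by rw [hδ₀]; exact lt_min hδ₁ hδ₂
    obtain ⟨δ, hδ⟩ : ∃ δ, δ = min (m * δ₀ / 2) (ε / (8 * (s + 1))) := ⟨_, rfl⟩
    have hδp : 0 < δ := by rw [hδ]; positivity
    have hd1 : 2 * δ ≤ m * δ₀ := by
      have : δ ≤ m * δ₀ / 2 := by rw [hδ]; exact min_le_left _ _
      linarith
    have hd2 : δ * (8 * (s + 1)) ≤ ε := by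
      have h3 : δ ≤ ε / (8 * (s + 1)) := by rw [hδ]; exact min_le_right _ _
      rwa [le_div_iff₀ (by positivity)] at h3
    have hex := fun i => approx_eig T hT (a i) (ha i) δ hδp
    choose e he he1 he2 using hex
    have hort : ∀ i j, i ≠ j → ‖⟪e i, e j⟫_ℂ‖ ≤ δ₀ := by
      intro i j hij
      have h3 := approx_orth T (a j) (a i) δ (e j) (e i) (he j) (he i) (he1 j) (he2 i)
      have h4 := hm i j hij
      have h5 : m * ‖⟪e i, e j⟫_ℂ‖ ≤ m * δ₀ :=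
        ((mul_le_mul_of_nonneg_right h4 (norm_nonneg _)).trans h3).trans hd1
      exact le_of_mul_le_mul_left h5 hm0
    have n1 := h1 e he fun i j hij => (hort i j hij).trans (by rw [hδ₀]; exact min_le_left _ _)
    have n2 := h2 e he fun i j hij => (hort i j hij).trans (by rw [hδ₀]; exact min_le_right _ _)
    obtain ⟨A, hA⟩ : ∃ A, A = ∑ i, ∑ j, S i j • ro (e i) (e j) := ⟨_, rfl⟩
    have hAs : IsSelfAdjoint A := by
      unfold IsSelfAdjoint
      rw [hA, star_sum]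
      simp only [star_sum, star_smul, star_ro]
      rw [Finset.sum_comm]
      refine Finset.sum_congr rfl fun j _ => Finset.sum_congr rfl fun i _ => ?_
      rw [hS.apply]
    have h3 := h A hAs
    rw [SK_selfAdjoint _ _ hAs, SK_selfAdjoint _ _ hAs] at h3
    have h4 := m11_approx_j6284 T a e δ he he1 S
    have h5 := m11_approx_j6284 (star T) (fun i => (starRingEnd ℂ) (a i)) e δ he he2 S
    simp only [starRingEnd_self_apply] at h5
    rw [← hA, ← hM, ← hs] at h4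
    rw [← hA, ← hM', ← hs] at h5
    have h6 := (abs_norm_sub_norm_le _ _).trans h4
    have h7 := (abs_norm_sub_norm_le _ _).trans h5
    have h8 : 2 * δ * s ≤ ε / 4 := by nlinarith
    rw [h3] at h7
    rw [abs_le] at *
    constructor <;> linarith [n1.1, n1.2, n2.1, n2.2, h6.1, h6.2, h7.1, h7.2]
  have h0 : |‖Matrix.toEuclideanCLM (n := Fin 3) (𝕜 := ℂ) M‖ -
      ‖Matrix.toEuclideanCLM (n := Fin 3) (𝕜 := ℂ) M'‖| ≤ 0 :=
    le_of_forall_pos_le_add fun ε hε => by rw [zero_add]; exact key ε hε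
  exact sub_eq_zero.1 (abs_nonpos_iff.1 h0)

end e1


end j6284

-- part 6289
section j6289
section srbasic
variable {X : Type*} [NormedAddCommGroup X] [NormedSpace ℂ X]

theorem sr_nonneg_j6289 (T : X →L[ℂ] X) : 0 ≤ sr T := ENNReal.toReal_nonneg

variable [CompleteSpace X]

end srbasic

section sk
variable {H : Type*} [NormedAddCommGroup H] [InnerProductSpace ℂ H] [CompleteSpace H]


end sk

section RPs
variable {E : Type*} [AddCommGroup E] [Module ℂ E]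

end RPs

section forms
variable {H : Type*} [NormedAddCommGroup H] [InnerProductSpace ℂ H]


end forms

section e1
variable {H : Type*} [NormedAddCommGroup H] [InnerProductSpace ℂ H] [CompleteSpace H]


end e1

theorem M12_ident_j6289 (a b z : ℂ) :
    ((b - (starRingEnd ℂ) a) * (a - (starRingEnd ℂ) z) * (z - (starRingEnd ℂ) b)).re =
      -(b.re - a.re) * (z.re ^ 2 + z.im ^ 2) +
      ((b.re ^ 2 + b.im ^ 2) - (a.re ^ 2 + a.im ^ 2)) * z.re -
      (b.re ^ 2 + b.im ^ 2) * a.re + (a.re ^ 2 + a.im ^ 2) * b.re := by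
  simp only [Complex.mul_re, Complex.mul_im, Complex.sub_re, Complex.sub_im, Complex.conj_re,
    Complex.conj_im]
  ring

theorem M12_norm_j6289 (z : ℂ) (l : ℝ) : ‖z - l‖ ^ 2 = (z.re ^ 2 + z.im ^ 2) - 2 * l * z.re + l ^ 2 := by
  rw [← Complex.normSq_eq_norm_sq, Complex.normSq_apply]
  simp only [Complex.sub_re, Complex.sub_im, Complex.ofReal_re, Complex.ofReal_im]
  ring

/-- geometry: the spectrum lies on a vertical line or on a circle centred on the real axis -/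
theorem circle_or_line (σ : Set ℂ) (b : ℂ) (hb : b ∈ σ) (hb' : b.im ≠ 0)
    (h : ∀ a ∈ σ, ∀ z ∈ σ, ((b - (starRingEnd ℂ) a) * (a - (starRingEnd ℂ) z) *
      (z - (starRingEnd ℂ) b)).re = 0) :
    (∃ l : ℝ, ∀ z ∈ σ, z.re = l) ∨ (∃ l R : ℝ, 0 < R ∧ ∀ z ∈ σ, ‖z - l‖ = R) := by
  by_cases hc : ∀ a ∈ σ, a.re = b.re
  · exact Or.inl ⟨b.re, hc⟩
  right
  push Not at hc
  obtain ⟨a, ha, hab⟩ := hc
  have hδ : b.re - a.re ≠ 0 := fun h => hab (by linarith)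
  set l : ℝ := ((b.re ^ 2 + b.im ^ 2) - (a.re ^ 2 + a.im ^ 2)) / (2 * (b.re - a.re)) with hl
  have hl' : 2 * l * (b.re - a.re) = (b.re ^ 2 + b.im ^ 2) - (a.re ^ 2 + a.im ^ 2) := by
    rw [hl]; field_simp
  have key : ∀ z ∈ σ, ‖z - l‖ ^ 2 = ‖b - l‖ ^ 2 := by
    intro z hz
    have h1 := h a ha z hz
    have h2 := h a ha b hb
    rw [M12_ident_j6289] at h1 h2
    rw [M12_norm_j6289, M12_norm_j6289]
    have h3 : (b.re - a.re) * ((z.re ^ 2 + z.im ^ 2) - 2 * l * z.re) =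
        (b.re - a.re) * ((b.re ^ 2 + b.im ^ 2) - 2 * l * b.re) := by
      have e1 : (b.re - a.re) * ((z.re ^ 2 + z.im ^ 2) - 2 * l * z.re) =
        (b.re - a.re) * (z.re ^ 2 + z.im ^ 2) - (2 * l * (b.re - a.re)) * z.re := by ring
      have e2 : (b.re - a.re) * ((b.re ^ 2 + b.im ^ 2) - 2 * l * b.re) =
        (b.re - a.re) * (b.re ^ 2 + b.im ^ 2) - (2 * l * (b.re - a.re)) * b.re := by ring
      rw [e1, e2, hl']
      linarith
    have h4 := mul_left_cancel₀ hδ h3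
    rw [h4]
  have hpos : 0 < ‖b - l‖ := by
    rw [norm_pos_iff]
    intro h0
    apply hb'
    have := congrArg Complex.im h0
    simpa using this
  refine ⟨l, ‖b - l‖, hpos, fun z hz => ?_⟩
  have := key z hz
  exact (pow_left_inj₀ (norm_nonneg _) (norm_nonneg _) two_ne_zero).1 this

section e2
variable {H : Type*} [NormedAddCommGroup H] [InnerProductSpace ℂ H] [CompleteSpace H]

theorem normal_line (T : H →L[ℂ] H) (hT : T * star T = star T * T) (l : ℝ)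
    (h : ∀ z ∈ spectrum ℂ T, z.re = l) :
    ∃ A : H →L[ℂ] H, IsSelfAdjoint A ∧ T = (l : ℂ) • 1 + Complex.I • A := by
  have hn : IsStarNormal T := ⟨hT.symm⟩
  have h1 : T + star T = ((2 * l : ℝ) : ℂ) • (1 : H →L[ℂ] H) := by
    have e1 : cfc (fun z : ℂ => z + star z) T = cfc (fun _ : ℂ => ((2 * l : ℝ) : ℂ)) T := by
      apply cfc_congr
      intro z hz
      have := h z hz
      apply Complex.ext
      · simp [this]; ring
      · simp
    rw [cfc_add T (fun z : ℂ => z) (fun z : ℂ => star z) (by fun_prop) (by fun_prop), cfc_id' ℂ T,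
      cfc_star_id T, cfc_const _ T] at e1
    rw [e1, Algebra.algebraMap_eq_smul_one]
  have h2 : star T = ((2 * l : ℝ) : ℂ) • (1 : H →L[ℂ] H) - T := by rw [← h1]; abel
  refine ⟨-Complex.I • (T - (l : ℂ) • 1), ?_, ?_⟩
  · rw [IsSelfAdjoint, star_smul, star_sub, star_smul, star_one, h2]
    have e3 : star (-Complex.I) = Complex.I := by simp
    have e4 : star (l : ℂ) = (l : ℂ) := by simp
    rw [e3, e4]
    push_cast
    module
  · rw [smul_smul]
    have e3 : Complex.I * -Complex.I = 1 := by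
      rw [mul_neg, Complex.I_mul_I, neg_neg]
    rw [e3, one_smul]
    abel

theorem normal_circle (T : H →L[ℂ] H) (hT : T * star T = star T * T) (l R : ℝ) (hR : 0 < R)
    (h : ∀ z ∈ spectrum ℂ T, ‖z - l‖ = R) :
    ∃ U ∈ unitary (H →L[ℂ] H), T = (l : ℂ) • 1 + (R : ℂ) • U := by
  have hn : IsStarNormal T := ⟨hT.symm⟩
  have hR' : (R : ℂ) ≠ 0 := by exact_mod_cast hR.ne'
  have e0 : cfc (fun z : ℂ => z - (l : ℂ)) T = T - (l : ℂ) • 1 := by
    rw [cfc_sub (fun z : ℂ => z) (fun _ : ℂ => (l : ℂ)) T (by fun_prop) (by fun_prop), cfc_id' ℂ T,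
      cfc_const _ T, Algebra.algebraMap_eq_smul_one]
  have h1 : star (T - (l : ℂ) • 1) * (T - (l : ℂ) • 1) = ((R ^ 2 : ℝ) : ℂ) • (1 : H →L[ℂ] H) := by
    have e1 : cfc (fun z : ℂ => star (z - (l : ℂ)) * (z - (l : ℂ))) T =
        cfc (fun _ : ℂ => ((R ^ 2 : ℝ) : ℂ)) T := by
      apply cfc_congr
      intro z hz
      have := h z hz
      show (starRingEnd ℂ) (z - (l : ℂ)) * (z - (l : ℂ)) = _
      rw [← Complex.normSq_eq_conj_mul_self, Complex.normSq_eq_norm_sq, this]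
    rw [cfc_mul (fun z : ℂ => star (z - (l : ℂ))) (fun z : ℂ => z - (l : ℂ)) T
      (by fun_prop) (by fun_prop), cfc_star, e0, cfc_const _ T] at e1
    rw [e1, Algebra.algebraMap_eq_smul_one]
  have h2 : (T - (l : ℂ) • 1) * star (T - (l : ℂ) • 1) = ((R ^ 2 : ℝ) : ℂ) • (1 : H →L[ℂ] H) := by
    rw [← h1]
    have e4 : star (l : ℂ) = (l : ℂ) := by simp
    rw [star_sub, star_smul, star_one, e4]
    simp only [sub_mul, mul_sub, hT, smul_mul_assoc, mul_smul_comm, one_mul, mul_one]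
    module
  refine ⟨(R : ℂ)⁻¹ • (T - (l : ℂ) • 1), ?_, ?_⟩
  · have e3 : star ((R : ℂ)⁻¹) = (R : ℂ)⁻¹ := by simp
    have e5 : (R : ℂ)⁻¹ * (R : ℂ)⁻¹ * ((R ^ 2 : ℝ) : ℂ) = 1 := by
      push_cast
      field_simp
    rw [Unitary.mem_iff]
    constructor
    · rw [star_smul, e3, smul_mul_smul_comm, h1, smul_smul, e5, one_smul]
    · rw [star_smul, e3, smul_mul_smul_comm, h2, smul_smul, e5, one_smul]
  · rw [smul_smul, mul_inv_cancel₀ hR', one_smul]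
    abel

/-- the operators which are equivalent to their adjoint in the left slot -/
theorem SK_star_left_iff (T : H →L[ℂ] H) :
    (∀ S, SK (star T) S = SK T S) ↔ IsSelfAdjoint T ∨
      (∃ (l : ℝ) (A : H →L[ℂ] H), IsSelfAdjoint A ∧ T = (l : ℂ) • 1 + Complex.I • A) ∨
      (∃ (l R : ℝ), ∃ U ∈ unitary (H →L[ℂ] H), T = (l : ℂ) • 1 + (R : ℂ) • U) := by
  constructor
  · intro h
    have hT : T * star T = star T * T := normal_of_SK_star T fun x _ => h _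
    have hn : IsStarNormal T := ⟨hT.symm⟩
    by_cases hc : ∀ z ∈ spectrum ℂ T, z.im = 0
    · left
      have e1 : cfc (fun z : ℂ => star z) T = cfc (fun z : ℂ => z) T := by
        apply cfc_congr
        intro z hz
        have := hc z hz
        apply Complex.ext
        · simp
        · simp [this]
      rw [cfc_star_id T, cfc_id' ℂ T] at e1
      exact e1
    right
    push Not at hc
    obtain ⟨b, hb, hb'⟩ := hc
    have key : ∀ a ∈ spectrum ℂ T, ∀ z ∈ spectrum ℂ T,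
        ((b - (starRingEnd ℂ) a) * (a - (starRingEnd ℂ) z) * (z - (starRingEnd ℂ) b)).re = 0 := by
      intro a ha z hz
      by_cases hba : b = a
      · subst hba
        rw [M12_ident_j6289]; ring
      by_cases haz : a = z
      · subst haz
        rw [M12_ident_j6289]; ring
      by_cases hbz : b = z
      · subst hbz
        rw [M12_ident_j6289]; ring
      have hinj : Function.Injective ![b, a, z] := by
        intro i j hij
        fin_cases i <;> fin_cases j <;> simp_all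
      have hmem : ∀ i, ![b, a, z] i ∈ spectrum ℂ T := by
        intro i
        fin_cases i
        · exact hb
        · exact ha
        · exact hz
      have := three_matrix ![b, a, z] hb'
        (fun S hS => three_spec T hT (fun A _ => h A) ![b, a, z] hmem hinj S hS)
      exact this
    rcases circle_or_line _ b hb hb' key with ⟨l, hl⟩ | ⟨l, R, hR, hl⟩
    · left
      exact ⟨l, normal_line T hT l hl⟩
    · right
      exact ⟨l, R, normal_circle T hT l R hR hl⟩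
  · rintro (h | ⟨l, A, hA, rfl⟩ | ⟨l, R, U, hU, rfl⟩) S
    · rw [h.star_eq]
    · exact SK_star_left_of_line A hA l S
    · exact SK_star_left_of_circle U hU l R S

end e2


end j6289

-- part 6290
section j6290
section srbasic
variable {X : Type*} [NormedAddCommGroup X] [NormedSpace ℂ X]

theorem sr_nonneg_j6290 (T : X →L[ℂ] X) : 0 ≤ sr T := ENNReal.toReal_nonneg

variable [CompleteSpace X]

end srbasic

section sk
variable {H : Type*} [NormedAddCommGroup H] [InnerProductSpace ℂ H] [CompleteSpace H]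


end sk

section RPs
variable {E : Type*} [AddCommGroup E] [Module ℂ E]

end RPs

section forms
variable {H : Type*} [NormedAddCommGroup H] [InnerProductSpace ℂ H]


end forms

section e1
variable {H K : Type*} [NormedAddCommGroup H] [InnerProductSpace ℂ H] [CompleteSpace H]
  [NormedAddCommGroup K] [InnerProductSpace ℂ K] [CompleteSpace K]


theorem R2_negt_j6290 (t d : ℂ) : R2 (-t) d = R2 t d := by
  unfold R2
  rw [neg_sq]
  have h1 : ‖(-t + (t ^ 2 - 4 * d) ^ (1 / 2 : ℂ)) / 2‖ = ‖(t - (t ^ 2 - 4 * d) ^ (1 / 2 : ℂ)) / 2‖ := by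
    rw [← norm_neg]
    congr 1
    ring
  have h2 : ‖(-t - (t ^ 2 - 4 * d) ^ (1 / 2 : ℂ)) / 2‖ = ‖(t + (t ^ 2 - 4 * d) ^ (1 / 2 : ℂ)) / 2‖ := by
    rw [← norm_neg]
    congr 1
    ring
  rw [h1, h2, max_comm]

theorem four_cases_j6290 {c c' : ℂ} (h1 : ‖c'‖ = ‖c‖) (h2 : |c'.im| = |c.im|) :
    c' = c ∨ c' = -c ∨ c' = (starRingEnd ℂ) c ∨ c' = -(starRingEnd ℂ) c := by
  have h3 : c'.re ^ 2 = c.re ^ 2 := by
    have h4 : Complex.normSq c' = Complex.normSq c := by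
      rw [Complex.normSq_eq_norm_sq, Complex.normSq_eq_norm_sq, h1]
    rw [Complex.normSq_apply, Complex.normSq_apply] at h4
    have h5 : c'.im ^ 2 = c.im ^ 2 := by rw [← sq_abs, h2, sq_abs]
    nlinarith
  have h6 := sq_eq_sq_iff_eq_or_eq_neg.1 h3
  have h7 := abs_eq_abs.1 h2
  rcases h6 with h6 | h6 <;> rcases h7 with h7 | h7
  · left; exact Complex.ext h6 h7
  · right; right; left; exact Complex.ext (by simp [h6]) (by simp [h7])
  · right; right; right; exact Complex.ext (by simp [h6]) (by simp [h7])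
  · right; left; exact Complex.ext (by simp [h6]) (by simp [h7])

theorem sa_star_smul_j6290 {A : H →L[ℂ] H} (hA : IsSelfAdjoint A) (c : ℂ) :
    star (c • A) = (starRingEnd ℂ) c • A := by
  rw [star_smul, hA.star_eq]
  rfl

/-- the normalised case -/
theorem skew_normal_form [Nontrivial H] (φ : (H →L[ℂ] H) → (H →L[ℂ] H))
    (hs : Function.Surjective φ) (h : ∀ T S, SK (φ T) (φ S) = SK T S)
    (hP : ∀ x : H, ‖x‖ = 1 → φ (ro x x) = ro x x ∨ φ (ro x x) = -ro x x) (T : H →L[ℂ] H) :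
    (φ T = T ∨ φ T = -T) ∨ ((φ T = star T ∨ φ T = -star T) ∧ ∀ S, SK (star T) S = SK T S) := by
  have hPsa : ∀ x : H, IsSelfAdjoint (ro x x) := fun x => star_ro x x
  -- selfadjoint operators
  have hsa : ∀ A : H →L[ℂ] H, IsSelfAdjoint A → φ A = A ∨ φ A = -A := by
    intro A hA
    refine sa_sign A (φ A) hA (skew_sa φ hs h A hA).1 ?_ ?_
    · intro x hx
      have h1 := (skew_anticomm φ hs h (ro x x) A (hPsa x) hA).1
      rcases hP x hx with h2 | h2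
      · rw [h2] at h1; exact h1
      · rw [h2] at h1
        rw [← h1, ← norm_neg]
        congr 1
        rw [neg_mul, mul_neg]
        abel
    · intro x hx
      have h1 := (skew_anticomm φ hs h (ro x x) A (hPsa x) hA).2
      rcases hP x hx with h2 | h2
      · rw [h2] at h1; exact h1
      · rw [h2] at h1
        rw [← h1, ← norm_neg]
        congr 1
        rw [neg_mul, mul_neg]
        abel
  -- multiples of selfadjoint operators
  have hsac : ∀ (A : H →L[ℂ] H) (c : ℂ), IsSelfAdjoint A →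
      φ (c • A) = c • A ∨ φ (c • A) = -(c • A) ∨ φ (c • A) = star (c • A) ∨
        φ (c • A) = -star (c • A) := by
    intro A c hA
    obtain ⟨c', h1, h2, h3⟩ := (skew_sa φ hs h A hA).2.2 c
    rw [h1, sa_star_smul_j6290 hA]
    rcases hsa A hA with h4 | h4 <;> rw [h4] <;>
      rcases four_cases_j6290 h2 h3 with h5 | h5 | h5 | h5 <;> rw [h5]
    · left; rfl
    · right; left; rw [neg_smul]
    · right; right; left; rfl
    · right; right; right; rw [neg_smul]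
    · right; left; rw [smul_neg]
    · left; rw [smul_neg, neg_smul, neg_neg]
    · right; right; right; rw [smul_neg]
    · right; right; left; rw [smul_neg, neg_smul, neg_neg]
  -- left slot
  have hleft : ∀ (S : H →L[ℂ] H) (x : H) (c : ℂ), ‖x‖ = 1 → ‖c‖ = 1 →
      SK (c • ro x x) (φ S) = SK (c • ro x x) S := by
    intro S x c hx hc
    have h1 := h (c • ro x x) S
    rw [← h1]
    rcases hsac (ro x x) c (hPsa x) with h2 | h2 | h2 | h2
    · rw [h2]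
    · rw [h2, SK_neg]
    · rw [h2, sa_star_smul_j6290 (hPsa x), SK_proj_left _ x hx c hc,
        SK_proj_left _ x hx _ (by rw [RCLike.norm_conj, hc]), ← R2_negt_j6290]
      congr 1
      rw [Complex.conj_conj]
      ring
    · rw [h2, SK_neg, sa_star_smul_j6290 (hPsa x), SK_proj_left _ x hx c hc,
        SK_proj_left _ x hx _ (by rw [RCLike.norm_conj, hc]), ← R2_negt_j6290]
      congr 1
      rw [Complex.conj_conj]
      ring
  -- the form of all values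
  have hform : ∀ S : H →L[ℂ] H, ∃ e : ℂ, ‖e‖ = 1 ∧ (φ S = e • S ∨ φ S = e • star S) := by
    intro S
    rcases left_char (φ S) S (fun x c hx hc => hleft S x c hx hc) with ⟨c, A, hA, rfl⟩ | ⟨c, hc, h1⟩
    · rcases hsac A c hA with h2 | h2 | h2 | h2
      · exact ⟨1, norm_one, Or.inl (by rw [h2, one_smul])⟩
      · exact ⟨-1, by rw [norm_neg, norm_one], Or.inl (by rw [h2, neg_smul, one_smul])⟩
      · exact ⟨1, norm_one, Or.inr (by rw [h2, one_smul])⟩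
      · exact ⟨-1, by rw [norm_neg, norm_one], Or.inr (by rw [h2, neg_smul, one_smul])⟩
    · exact ⟨c, hc, h1⟩
  have hright : ∀ X S : H →L[ℂ] H, SK X (φ S) = SK X S := by
    intro X S
    obtain ⟨e, he, h1 | h1⟩ := hform S
    · rw [h1, SK_smul, he, one_mul]
    · rw [h1, SK_smul, he, one_mul, SK_star]
  have hall : ∀ S, SK (φ T) S = SK T S := by
    intro S
    rw [← hright (φ T) S, h]
  have hfin : φ T = T ∨ φ T = -T ∨ φ T = star T ∨ φ T = -star T := by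
    rcases left_char (φ T) T (fun x c hx hc => hleft T x c hx hc) with ⟨c, A, hA, hT⟩ | ⟨c, hc, h1 | h1⟩
    · rw [hT]
      exact hsac A c hA
    · rw [h1]
      refine right_alpha T c hc fun x _ => ?_
      rw [← h1]
      exact hall _
    · rw [h1]
      refine right_beta T c hc fun x _ => ?_
      rw [← h1]
      exact hall _
  rcases hfin with h1 | h1 | h1 | h1
  · left; left; exact h1
  · left; right; exact h1
  · right
    refine ⟨Or.inl h1, fun S => ?_⟩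
    rw [← h1]
    exact hall S
  · right
    refine ⟨Or.inr h1, fun S => ?_⟩
    rw [← hall S, h1, SK_neg]

section conj
variable {σ : ℂ →+* ℂ} [RingHomInvPair σ σ]

theorem sigma_sigma_j6290 (σ : ℂ →+* ℂ) [RingHomInvPair σ σ] (c : ℂ) : σ (σ c) = c :=
  RingHomInvPair.comp_apply_eq (σ := σ) (σ' := σ)

/-- conjugation by a (semilinear) isometry -/
noncomputable def cj_j6290 (U : H ≃ₛₗᵢ[σ] K) (R : K →L[ℂ] K) : H →L[ℂ] H where
  toFun := fun x => U.symm (R (U x))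
  map_add' := by
    intro x y
    rw [map_add, map_add, map_add]
  map_smul' := by
    intro c x
    rw [map_smulₛₗ, map_smul, map_smulₛₗ, sigma_sigma_j6290]
    rfl
  cont := U.symm.continuous.comp (R.continuous.comp U.continuous)

theorem cj_apply_j6290 (U : H ≃ₛₗᵢ[σ] K) (R : K →L[ℂ] K) (x : H) : cj_j6290 U R x = U.symm (R (U x)) := rfl

theorem inner_U_j6290 (hσ : σ = RingHom.id ℂ ∨ σ = starRingEnd ℂ) (U : H ≃ₛₗᵢ[σ] K) (x y : H) :
    ⟪U x, U y⟫_ℂ = σ ⟪x, y⟫_ℂ := by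
  have hre : ∀ x y : H, RCLike.re ⟪U x, U y⟫_ℂ = RCLike.re ⟪x, y⟫_ℂ := by
    intro x y
    rw [re_inner_eq_norm_add_mul_self_sub_norm_sub_mul_self_div_four,
      re_inner_eq_norm_add_mul_self_sub_norm_sub_mul_self_div_four, ← map_add, ← map_sub,
      U.norm_map, U.norm_map]
  have h1 := hre x y
  have h2 := hre x (Complex.I • y)
  rw [map_smulₛₗ, inner_smul_right, inner_smul_right] at h2
  rcases hσ with rfl | rfl
  · refine Complex.ext ?_ ?_
    · simpa using h1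
    · simpa using h2
  · refine Complex.ext ?_ ?_
    · rw [Complex.conj_re]; simpa using h1
    · rw [Complex.conj_im]
      have h3 : (⟪U x, U y⟫_ℂ).im = -(⟪x, y⟫_ℂ).im := by
        simpa using h2
      exact h3

theorem star_cj_j6290 (hσ : σ = RingHom.id ℂ ∨ σ = starRingEnd ℂ) (U : H ≃ₛₗᵢ[σ] K) (R : K →L[ℂ] K) :
    star (cj_j6290 U R) = cj_j6290 U (star R) := by
  rw [ContinuousLinearMap.star_eq_adjoint]
  symm
  rw [ContinuousLinearMap.eq_adjoint_iff]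
  intro x y
  rw [cj_apply_j6290, cj_apply_j6290]
  have h1 : ⟪U (U.symm ((star R) (U x))), U y⟫_ℂ = σ ⟪U.symm ((star R) (U x)), y⟫_ℂ := inner_U_j6290 hσ U _ _
  have h2 : ⟪U x, U (U.symm (R (U y)))⟫_ℂ = σ ⟪x, U.symm (R (U y))⟫_ℂ := inner_U_j6290 hσ U _ _
  rw [LinearIsometryEquiv.apply_symm_apply] at h1 h2
  have h3 : ⟪(star R) (U x), U y⟫_ℂ = ⟪U x, R (U y)⟫_ℂ := by
    rw [ContinuousLinearMap.star_eq_adjoint, ContinuousLinearMap.adjoint_inner_left]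
  rw [h3, h2] at h1
  have h4 := congrArg σ h1
  rw [sigma_sigma_j6290, sigma_sigma_j6290] at h4
  exact h4.symm

theorem sr_cj_j6290 [RingHomIsometric σ] (U : H ≃ₛₗᵢ[σ] K) (R : K →L[ℂ] K) : sr (cj_j6290 U R) = sr R := by
  symm
  refine sr_conj (U.toContinuousLinearEquiv) (cj_j6290 U R) R ?_
  intro x
  show R (U x) = U (cj_j6290 U R x)
  rw [cj_apply_j6290, LinearIsometryEquiv.apply_symm_apply]

theorem SK_cj_j6290 [RingHomIsometric σ] (hσ : σ = RingHom.id ℂ ∨ σ = starRingEnd ℂ) (U : H ≃ₛₗᵢ[σ] K)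
    (R S : K →L[ℂ] K) : SK (cj_j6290 U R) (cj_j6290 U S) = SK R S := by
  unfold SK
  rw [star_cj_j6290 hσ]
  have : cj_j6290 U R * cj_j6290 U S - cj_j6290 U S * cj_j6290 U (star R) = cj_j6290 U (R * S - S * star R) := by
    ext x
    show U.symm (R (U (U.symm (S (U x))))) - U.symm (S (U (U.symm ((star R) (U x))))) =
      U.symm (R (S (U x)) - S ((star R) (U x)))
    rw [LinearIsometryEquiv.apply_symm_apply, LinearIsometryEquiv.apply_symm_apply, map_sub]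
  rw [this, sr_cj_j6290]

theorem skew_form_aux_j6290 [Nontrivial H] [RingHomIsometric σ]
    (hσ : σ = RingHom.id ℂ ∨ σ = starRingEnd ℂ) (φ : (H →L[ℂ] H) → (K →L[ℂ] K))
    (hs : Function.Surjective φ) (h : ∀ T S, SK (φ T) (φ S) = SK T S) (U : H ≃ₛₗᵢ[σ] K)
    (hU : ∀ x : H, ‖x‖ = 1 → φ (ro x x) = ro (U x) (U x) ∨ φ (ro x x) = -ro (U x) (U x)) :
    ∀ T, (∃ c : ℂ, (c = 1 ∨ c = -1) ∧ ∀ y, φ T y = c • U (T (U.symm y))) ∨
      ((∀ S, SK (star T) S = SK T S) ∧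
        ∃ c : ℂ, (c = 1 ∨ c = -1) ∧ ∀ y, φ T y = c • U (star T (U.symm y))) := by
  have hs1 : Function.Surjective fun T => cj_j6290 U (φ T) := by
    intro R
    obtain ⟨T, hT⟩ := hs (cj_j6290 U.symm R)
    refine ⟨T, ?_⟩
    show cj_j6290 U (φ T) = R
    rw [hT]
    ext x
    show U.symm (U.symm.symm (R (U.symm (U x)))) = R x
    simp
  have h1 : ∀ T S, SK (cj_j6290 U (φ T)) (cj_j6290 U (φ S)) = SK T S := by
    intro T S
    rw [SK_cj_j6290 hσ, h]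
  have hro : ∀ x : H, cj_j6290 U (ro (U x) (U x)) = ro x x := by
    intro x
    ext v
    rw [cj_apply_j6290, ro_apply, ro_apply, map_smulₛₗ, LinearIsometryEquiv.symm_apply_apply,
      inner_U_j6290 hσ, sigma_sigma_j6290]
  have hP : ∀ x : H, ‖x‖ = 1 → cj_j6290 U (φ (ro x x)) = ro x x ∨ cj_j6290 U (φ (ro x x)) = -ro x x := by
    intro x hx
    rcases hU x hx with h2 | h2
    · left; rw [h2, hro]
    · right
      rw [h2, ← hro x]
      ext v
      show U.symm (-(ro (U x) (U x) (U v))) = -(U.symm (ro (U x) (U x) (U v)))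
      rw [map_neg]
  intro T
  have hrec : ∀ y, φ T y = U (cj_j6290 U (φ T) (U.symm y)) := by
    intro y
    rw [cj_apply_j6290, LinearIsometryEquiv.apply_symm_apply, LinearIsometryEquiv.apply_symm_apply]
  have hneg : ∀ (X : H →L[ℂ] H) y, U ((-X) (U.symm y)) = (-1 : ℂ) • U (X (U.symm y)) := by
    intro X y
    rw [ContinuousLinearMap.neg_apply, map_neg, neg_smul, one_smul]
  rcases skew_normal_form (fun T => cj_j6290 U (φ T)) hs1 h1 hP T with (h2 | h2) | ⟨h2 | h2, h3⟩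
  · left
    refine ⟨1, Or.inl rfl, fun y => ?_⟩
    have h2' : cj_j6290 U (φ T) = T := h2
    rw [hrec, h2', one_smul]
  · left
    refine ⟨-1, Or.inr rfl, fun y => ?_⟩
    have h2' : cj_j6290 U (φ T) = -T := h2
    rw [hrec, h2', hneg]
  · right
    refine ⟨h3, 1, Or.inl rfl, fun y => ?_⟩
    have h2' : cj_j6290 U (φ T) = star T := h2
    rw [hrec, h2', one_smul]
  · right
    refine ⟨h3, -1, Or.inr rfl, fun y => ?_⟩
    have h2' : cj_j6290 U (φ T) = -star T := h2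
    rw [hrec, h2', hneg]

end conj

theorem skew_form [Nontrivial H] (φ : (H →L[ℂ] H) → (K →L[ℂ] K))
    (hs : Function.Surjective φ) (h : ∀ T S, SK (φ T) (φ S) = SK T S) :
    (∃ U : H ≃ₗᵢ[ℂ] K, ∀ T, (∃ c : ℂ, (c = 1 ∨ c = -1) ∧ ∀ y, φ T y = c • U (T (U.symm y))) ∨
      ((∀ S, SK (star T) S = SK T S) ∧
        ∃ c : ℂ, (c = 1 ∨ c = -1) ∧ ∀ y, φ T y = c • U (star T (U.symm y)))) ∨
    (∃ U : H ≃ₛₗᵢ[starRingEnd ℂ] K, ∀ T,
      (∃ c : ℂ, (c = 1 ∨ c = -1) ∧ ∀ y, φ T y = c • U (T (U.symm y))) ∨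
      ((∀ S, SK (star T) S = SK T S) ∧
        ∃ c : ℂ, (c = 1 ∨ c = -1) ∧ ∀ y, φ T y = c • U (star T (U.symm y)))) := by
  rcases skew_unitary φ hs h with ⟨U, hU⟩ | ⟨U, hU⟩
  · left
    exact ⟨U, skew_form_aux_j6290 (Or.inl rfl) φ hs h U hU⟩
  · right
    exact ⟨U, skew_form_aux_j6290 (Or.inr rfl) φ hs h U hU⟩

/-- converse -/
theorem skew_conv {σ : ℂ →+* ℂ} [RingHomInvPair σ σ] [RingHomIsometric σ]
    (hσ : σ = RingHom.id ℂ ∨ σ = starRingEnd ℂ) (φ : (H →L[ℂ] H) → (K →L[ℂ] K))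
    (U : H ≃ₛₗᵢ[σ] K)
    (hU : ∀ T, (∃ c : ℂ, (c = 1 ∨ c = -1) ∧ ∀ y, φ T y = c • U (T (U.symm y))) ∨
      ((∀ S, SK (star T) S = SK T S) ∧
        ∃ c : ℂ, (c = 1 ∨ c = -1) ∧ ∀ y, φ T y = c • U (star T (U.symm y)))) (T S : H →L[ℂ] H) :
    SK (φ T) (φ S) = SK T S := by
  have hL : ∀ (c : ℂ) (X Y : K →L[ℂ] K), (c = 1 ∨ c = -1) → SK (c • X) Y = SK X Y := by
    rintro c X Y (rfl | rfl)
    · rw [one_smul]
    · rw [neg_smul, one_smul, SK_neg]
  have hR : ∀ (c : ℂ) (X Y : K →L[ℂ] K), (c = 1 ∨ c = -1) → SK X (c • Y) = SK X Y := by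
    rintro c X Y (rfl | rfl)
    · rw [one_smul]
    · rw [SK_smul, norm_neg, norm_one, one_mul]
  have key : ∀ T : H →L[ℂ] H, ∃ (c : ℂ) (T' : H →L[ℂ] H), (c = 1 ∨ c = -1) ∧
      φ T = c • cj_j6290 U.symm T' ∧ (T' = T ∨ (T' = star T ∧ ∀ S, SK (star T) S = SK T S)) := by
    intro T
    rcases hU T with ⟨c, hc, h1⟩ | ⟨h3, c, hc, h1⟩
    · refine ⟨c, T, hc, ?_, Or.inl rfl⟩
      ext y
      rw [h1]
      rfl
    · refine ⟨c, star T, hc, ?_, Or.inr ⟨rfl, h3⟩⟩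
      ext y
      rw [h1]
      rfl
  obtain ⟨c, T', hc, h1, h2⟩ := key T
  obtain ⟨d, S', hd, h3, h4⟩ := key S
  rw [h1, h3, hL _ _ _ hc, hR _ _ _ hd, SK_cj_j6290 hσ]
  have h5 : SK T' S' = SK T' S := by
    rcases h4 with h4 | ⟨h4, _⟩
    · rw [h4]
    · rw [h4, SK_star]
  rw [h5]
  rcases h2 with h2 | ⟨h2, h6⟩
  · rw [h2]
  · rw [h2, h6]


end e1


end j6290

end Pool.Agent.Helper729.SRP
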